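import Mathlib

set_option autoImplicit false

/-!
# Broadcast irredundance and broadcast domination: definitions and basic lemmas
-/

set_option linter.unusedSectionVars false

namespace Pool.Agent.BroadcastIrr

open Finset

variable {V : Type} [Fintype V] [DecidableEq V]

/-- The eccentricity of `v`. -/
noncomputable def ecc (G : SimpleGraph V) (v : V) : ℕ := univ.sup fun u => G.dist v u

/-- A broadcast: `f v` is at most the eccentricity of `v` (hence at most the diameter). -/
def IsBroadcast (G : SimpleGraph V) (f : V → ℕ) : Prop := ∀ v, f v ≤ ecc G v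

/-- The cost of `f`. -/
def cost (f : V → ℕ) : ℕ := ∑ v, f v

/-- `u` hears `f` from `v`. -/
def Hears (G : SimpleGraph V) (f : V → ℕ) (u v : V) : Prop := 0 < f v ∧ G.dist u v ≤ f v

/-- Every vertex hears `f` from some vertex. -/
def Dominating (G : SimpleGraph V) (f : V → ℕ) : Prop := ∀ u, ∃ v, Hears G f u v

/-- The broadcast number. -/
noncomputable def gammaB (G : SimpleGraph V) : ℕ :=
  sInf {c | ∃ f, IsBroadcast G f ∧ Dominating G f ∧ cost f = c}

/-- The private boundary of `v`: the vertices within distance `f v` of `v` that hear nothing after the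
value at `v` is lowered by one. -/
def PB (G : SimpleGraph V) (f : V → ℕ) (v : V) : Set V :=
  {u | G.dist u v ≤ f v ∧ ¬ ∃ x, Hears G (Function.update f v (f v - 1)) u x}

/-- `f` is irredundant. -/
def Irredundant (G : SimpleGraph V) (f : V → ℕ) : Prop := ∀ v, 0 < f v → (PB G f v).Nonempty

/-- `f` is a maximal irredundant broadcast. -/
def MaxIrredundant (G : SimpleGraph V) (f : V → ℕ) : Prop :=
  IsBroadcast G f ∧ Irredundant G f ∧ ∀ g, IsBroadcast G g → f ≤ g → g ≠ f → ¬ Irredundant G g

/-- The broadcast irredundance number. -/
noncomputable def irB (G : SimpleGraph V) : ℕ := sInf {c | ∃ f, MaxIrredundant G f ∧ cost f = c}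

theorem dist_le_ecc (G : SimpleGraph V) (u v : V) : G.dist v u ≤ ecc G v :=
  le_sup (f := fun u => G.dist v u) (mem_univ u)

theorem ecc_pos {G : SimpleGraph V} (hG : G.Connected) [Nontrivial V] (v : V) : 0 < ecc G v := by
  obtain ⟨u, hu⟩ := exists_ne v
  exact lt_of_lt_of_le (hG.pos_dist_of_ne hu.symm) (dist_le_ecc G u v)

/-- Any function for which every vertex hears bounds the broadcast number. -/
theorem gammaB_le {G : SimpleGraph V} (hG : G.Connected) [Nontrivial V] (g : V → ℕ)
    (hg : Dominating G g) : gammaB G ≤ cost g := by
  have h1 : gammaB G ≤ cost (fun v => min (g v) (ecc G v)) := by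
    apply Nat.sInf_le
    refine ⟨_, fun v => min_le_right _ _, fun u => ?_, rfl⟩
    obtain ⟨v, hv, hd⟩ := hg u
    refine ⟨v, lt_min hv (ecc_pos hG v), le_min hd ?_⟩
    rw [SimpleGraph.dist_comm]
    exact dist_le_ecc G u v
  exact h1.trans (sum_le_sum fun v _ => min_le_left _ _)

/-- The known inequality `ir_b ≤ γ_b`. -/
theorem irB_le_gammaB {G : SimpleGraph V} (hG : G.Connected) [Nontrivial V] : irB G ≤ gammaB G := by
  have hne : {c | ∃ f, IsBroadcast G f ∧ Dominating G f ∧ cost f = c}.Nonempty := by
    refine ⟨_, fun v => ecc G v, fun v => le_rfl, fun u => ⟨u, ecc_pos hG u, ?_⟩, rfl⟩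
    simp
  obtain ⟨f, hb, hd, hc⟩ := Nat.sInf_mem hne
  change cost f = gammaB G at hc
  rw [← hc]
  apply Nat.sInf_le
  refine ⟨f, ⟨hb, ?_, ?_⟩, rfl⟩
  · intro v hv
    by_contra hempty
    rw [Set.not_nonempty_iff_eq_empty] at hempty
    have hdom : Dominating G (Function.update f v (f v - 1)) := by
      intro u
      by_contra hu
      obtain ⟨x, hx, hdx⟩ := hd u
      by_cases hxv : x = v
      · subst hxv
        have : u ∈ PB G f x := ⟨hdx, hu⟩
        rw [hempty] at this
        exact this
      · exact hu ⟨x, by rw [Function.update_of_ne hxv]; exact hx, by rw [Function.update_of_ne hxv]; exact hdx⟩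
    have h1 := gammaB_le hG _ hdom
    have h2 : cost (Function.update f v (f v - 1)) < cost f := by
      unfold cost
      apply sum_lt_sum
      · intro i _
        by_cases hi : i = v
        · subst hi; simp
        · rw [Function.update_of_ne hi]
      · exact ⟨v, mem_univ v, by simp; omega⟩
    omega
  · intro g hg hfg hne' hirr
    obtain ⟨v, hv⟩ : ∃ v, f v < g v := by
      by_contra hcon
      push Not at hcon
      exact hne' (funext fun v => le_antisymm (hcon v) (hfg v))
    obtain ⟨u, hu, hu'⟩ := hirr v (by omega)
    obtain ⟨x, hx, hdx⟩ := hd u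
    apply hu'
    refine ⟨x, ?_, ?_⟩
    · by_cases hxv : x = v
      · subst hxv; rw [Function.update_self]; omega
      · rw [Function.update_of_ne hxv]; exact lt_of_lt_of_le hx (hfg x)
    · by_cases hxv : x = v
      · subst hxv; rw [Function.update_self]; omega
      · rw [Function.update_of_ne hxv]; exact hdx.trans (hfg x)

/-- `w` hears nothing. -/
def Und (G : SimpleGraph V) (f : V → ℕ) (w : V) : Prop := ¬ ∃ x, Hears G f w x

theorem und_zero {G : SimpleGraph V} {f : V → ℕ} {w : V} (hw : Und G f w) : f w = 0 := by
  by_contra h
  exact hw ⟨w, Nat.pos_of_ne_zero h, by simp⟩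

theorem step_one {G : SimpleGraph V} (hG : G.Connected) [Nontrivial V] {f : V → ℕ}
    (hf : MaxIrredundant G f) {w : V} (hw : Und G f w) :
    ∃ a, 0 < f a ∧ ∀ x ∈ PB G f a, G.dist x w ≤ 1 := by
  obtain ⟨hb, -, hmax⟩ := hf
  have h0 := und_zero hw
  have h1 := hmax (Function.update f w 1) (fun v => by
      by_cases hv : v = w
      · subst hv; rw [Function.update_self]; exact ecc_pos hG v
      · rw [Function.update_of_ne hv]; exact hb v)
    (fun v => by
      by_cases hv : v = w
      · subst hv; rw [Function.update_self, h0]; exact Nat.zero_le 1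
      · rw [Function.update_of_ne hv])
    (fun h => by have := congrFun h w; rw [Function.update_self] at this; omega)
  unfold Irredundant at h1
  push Not at h1
  obtain ⟨a, ha, hempty⟩ := h1
  by_cases haw : a = w
  · subst haw
    have : a ∈ PB G (Function.update f a 1) a := by
      refine ⟨by simp, ?_⟩
      rw [Function.update_self, Function.update_idem]
      have e : Function.update f a (1 - 1) = f := by
        rw [show (1 - 1 : ℕ) = f a by omega]; exact Function.update_eq_self a f
      rw [e]
      exact hw
    rw [hempty] at this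
    exact absurd this (Set.notMem_empty _)
  · rw [Function.update_of_ne haw] at ha
    refine ⟨a, ha, fun x hx => ?_⟩
    by_contra hcon
    have : x ∈ PB G (Function.update f w 1) a := by
      refine ⟨by rw [Function.update_of_ne haw]; exact hx.1, ?_⟩
      rintro ⟨y, hy, hy'⟩
      by_cases hyw : y = w
      · subst hyw
        rw [Function.update_of_ne (Ne.symm haw), Function.update_self] at hy'
        exact hcon hy'
      · apply hx.2
        refine ⟨y, ?_, ?_⟩
        · by_cases hya : y = a
          · subst hya
            rw [Function.update_self, Function.update_of_ne haw] at hy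
            rw [Function.update_self]; exact hy
          · rw [Function.update_of_ne hya, Function.update_of_ne hyw] at hy
            rw [Function.update_of_ne hya]; exact hy
        · by_cases hya : y = a
          · subst hya
            rw [Function.update_self, Function.update_of_ne haw] at hy'
            rw [Function.update_self]; exact hy'
          · rw [Function.update_of_ne hya, Function.update_of_ne hyw] at hy'
            rw [Function.update_of_ne hya]; exact hy'
    rw [hempty] at this
    exact absurd this (Set.notMem_empty _)

theorem step_two {G : SimpleGraph V} {f : V → ℕ}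
    (hf : MaxIrredundant G f) {v w : V} (hw : Und G f w) (hvw : G.dist v w = f v + 1) :
    ∃ u, u ≠ v ∧ 0 < f u ∧ ∀ y ∈ PB G f u, G.dist y v ≤ f v + 1 := by
  obtain ⟨hb, -, hmax⟩ := hf
  have h1 := hmax (Function.update f v (f v + 1)) (fun x => by
      by_cases hx : x = v
      · subst hx; rw [Function.update_self, ← hvw]; exact dist_le_ecc G w x
      · rw [Function.update_of_ne hx]; exact hb x)
    (fun x => by
      by_cases hx : x = v
      · subst hx; rw [Function.update_self]; exact Nat.le_succ _
      · rw [Function.update_of_ne hx])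
    (fun h => by have := congrFun h v; rw [Function.update_self] at this; omega)
  unfold Irredundant at h1
  push Not at h1
  obtain ⟨u, hu, hempty⟩ := h1
  by_cases huv : u = v
  · subst huv
    have : w ∈ PB G (Function.update f u (f u + 1)) u := by
      refine ⟨by rw [Function.update_self, SimpleGraph.dist_comm, hvw], ?_⟩
      rw [Function.update_self, Function.update_idem, Nat.add_sub_cancel, Function.update_eq_self]
      exact hw
    rw [hempty] at this
    exact absurd this (Set.notMem_empty _)
  · rw [Function.update_of_ne huv] at hu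
    refine ⟨u, huv, hu, fun y hy => ?_⟩
    by_contra hcon
    have : y ∈ PB G (Function.update f v (f v + 1)) u := by
      refine ⟨by rw [Function.update_of_ne huv]; exact hy.1, ?_⟩
      rintro ⟨x, hx, hx'⟩
      by_cases hxv : x = v
      · subst hxv
        rw [Function.update_of_ne (Ne.symm huv), Function.update_self] at hx'
        exact hcon hx'
      · apply hy.2
        refine ⟨x, ?_, ?_⟩
        · by_cases hxu : x = u
          · subst hxu
            rw [Function.update_self, Function.update_of_ne huv] at hx
            rw [Function.update_self]; exact hx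
          · rw [Function.update_of_ne hxu, Function.update_of_ne hxv] at hx
            rw [Function.update_of_ne hxu]; exact hx
        · by_cases hxu : x = u
          · subst hxu
            rw [Function.update_self, Function.update_of_ne huv] at hx'
            rw [Function.update_self]; exact hx'
          · rw [Function.update_of_ne hxu, Function.update_of_ne hxv] at hx'
            rw [Function.update_of_ne hxu]; exact hx'
    rw [hempty] at this
    exact absurd this (Set.notMem_empty _)

theorem dist_und {G : SimpleGraph V} (hG : G.Connected) {f : V → ℕ} {a w x : V} (ha : 0 < f a)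
    (hw : Und G f w) (hx : x ∈ PB G f a) (hxw : G.dist x w ≤ 1) : G.dist a w = f a + 1 := by
  have h1 : G.dist a w ≤ G.dist a x + G.dist x w := hG.dist_triangle
  have h2 : G.dist x a ≤ f a := hx.1
  rw [SimpleGraph.dist_comm] at h2
  have h3 : ¬ G.dist w a ≤ f a := fun h => hw ⟨a, ha, h⟩
  rw [SimpleGraph.dist_comm] at h3
  omega

/-- One private boundary next to all vertices that hear nothing. -/
theorem part_one {G : SimpleGraph V} (hG : G.Connected) [Nontrivial V] {f : V → ℕ}
    (hf : MaxIrredundant G f) {v : V} (hv : 0 < f v)
    (h : ∀ w, Und G f w → ∀ x ∈ PB G f v, G.dist x w ≤ 1) : gammaB G ≤ cost f := by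
  by_cases hdom : Dominating G f
  · exact gammaB_le hG f hdom
  unfold Dominating at hdom
  push Not at hdom
  obtain ⟨w, hw⟩ := hdom
  have hw' : Und G f w := fun ⟨x, hx⟩ => hw x hx
  obtain ⟨x, hx⟩ := hf.2.1 v hv
  have hdist : ∀ b, Und G f b → G.dist v b = f v + 1 := fun b hb =>
    dist_und hG hv hb hx (h b hb x hx)
  obtain ⟨u, huv, hu, hPB⟩ := step_two hf hw' (hdist w hw')
  let g : V → ℕ := Function.update (Function.update f v (f v + 1)) u (f u - 1)
  have gv : g v = f v + 1 := by
    simp only [g]; rw [Function.update_of_ne (Ne.symm huv), Function.update_self]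
  have gu : g u = f u - 1 := by simp only [g]; rw [Function.update_self]
  have go : ∀ y, y ≠ v → y ≠ u → g y = f y := fun y h1 h2 => by
    simp only [g]; rw [Function.update_of_ne h2, Function.update_of_ne h1]
  have hcost : cost g = cost f := by
    have e1 : cost g + (f u + f v) = cost f + (g u + g v) := by
      unfold cost
      rw [← add_sum_erase univ g (mem_univ u), ← add_sum_erase univ f (mem_univ u),
        ← add_sum_erase (univ.erase u) g (mem_erase.2 ⟨Ne.symm huv, mem_univ v⟩),
        ← add_sum_erase (univ.erase u) f (mem_erase.2 ⟨Ne.symm huv, mem_univ v⟩)]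
      have e2 : ∑ y ∈ (univ.erase u).erase v, g y = ∑ y ∈ (univ.erase u).erase v, f y := by
        refine sum_congr rfl fun y hy => ?_
        rw [mem_erase, mem_erase] at hy
        exact go y hy.1 hy.2.1
      rw [e2]
      ring
    omega
  rw [← hcost]
  apply gammaB_le hG
  intro b
  by_cases hb : ∃ y, Hears G f b y
  · by_cases hb2 : ∃ y, Hears G (Function.update f u (f u - 1)) b y
    · obtain ⟨y, hy, hy'⟩ := hb2
      refine ⟨y, ?_⟩
      by_cases hyu : y = u
      · subst hyu
        rw [Function.update_self] at hy hy'
        exact ⟨by rw [gu]; exact hy, by rw [gu]; exact hy'⟩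
      · rw [Function.update_of_ne hyu] at hy hy'
        by_cases hyv : y = v
        · subst hyv
          exact ⟨by rw [gv]; omega, by rw [gv]; omega⟩
        · exact ⟨by rw [go y hyv hyu]; exact hy, by rw [go y hyv hyu]; exact hy'⟩
    · obtain ⟨y, hy, hy'⟩ := hb
      have hyu : y = u := by
        by_contra hne
        exact hb2 ⟨y, by rw [Function.update_of_ne hne]; exact hy,
          by rw [Function.update_of_ne hne]; exact hy'⟩
      subst hyu
      exact ⟨v, by rw [gv]; omega, by rw [gv]; exact hPB b ⟨hy', hb2⟩⟩
  · refine ⟨v, by rw [gv]; omega, ?_⟩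
    rw [gv, SimpleGraph.dist_comm, hdist b hb]

theorem between {G : SimpleGraph V} (hG : G.Connected) (a b : V) (i : ℕ) (hi : i ≤ G.dist a b) :
    ∃ z, G.dist a z = i ∧ G.dist z b = G.dist a b - i := by
  obtain ⟨p, hp⟩ := hG.exists_walk_length_eq_dist a b
  refine ⟨p.getVert i, ?_⟩
  have h1 : G.dist a (p.getVert i) ≤ i := by
    refine (SimpleGraph.dist_le (p.take i)).trans ?_
    rw [SimpleGraph.Walk.take_length]
    exact min_le_left _ _
  have h2 : G.dist (p.getVert i) b ≤ G.dist a b - i := by
    refine (SimpleGraph.dist_le (p.drop i)).trans ?_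
    rw [SimpleGraph.Walk.drop_length, hp]
  have h3 : G.dist a b ≤ G.dist a (p.getVert i) + G.dist (p.getVert i) b := hG.dist_triangle
  constructor <;> omega

end Pool.Agent.BroadcastIrr
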