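import Mathlib

/-!
# Job PLS-1: no exponential orthonormal basis on crossing segments

`I = [t, t+1]` with `-1 < t < 0`, so `0` is an interior point of `I`.  `muT t` is one-dimensional Lebesgue measure on `I × {0}` plus that on `{0} × I`.
Proof.  Suppose `b` is a Hilbert basis as in the statement.  It is not empty (the space is not zero), so fix `q : Λ`, `q = (q₁, q₂)`.
Take `c > 0` with `[-c, c] ⊆ I` and `c |q₁| < 1`, `c |q₂| < 1`.  Let `f x = max 0 (c - |x|)` (continuous, supported in `[-c, c]`).  For real `ξ`: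
`∫_{x in I} f x * exp(-2πi ξ x) dx = 2 ∫_0^c (c - x) cos(2π ξ x) dx = (1 - cos(2π ξ c))·2/(2π ξ)²` for `ξ ≠ 0` (antiderivative `(c-x) sin(ax)/a - cos(ax)/a²` of `(c-x) cos(ax)`), and
`= c²` for `ξ = 0`.  So this number is real and `≥ 0` for every `ξ`, and it is `> 0` if `|ξ| c < 1`.
Let `F p = if p.2 = 0 ∧ p.1 ≠ 0 then f p.1 else 0` and `G p = if p.1 = 0 ∧ p.2 ≠ 0 then f p.2 else 0` (as complex functions on `ℝ × ℝ`), elements of `L²(muT t)` (bounded, finite measure,
measurable).  `F p * G p = 0` for all `p`, so `⟪F, G⟫ = 0`.  `⟪b λ, F⟫ = (1/√2) ∫_I f x exp(-2πi λ₁ x) dx ≥ 0` (the integral over `{0} × I` vanishes because `F (0,y) = 0`; the point `x = 0` is a null set), and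
`⟪b λ, G⟫ = (1/√2) ∫_I f y exp(-2πi λ₂ y) dy ≥ 0`, and both are `> 0` for `λ = q`.  Parseval (`HilbertBasis.hasSum_inner_mul_inner`): `∑_λ ⟪F, b λ⟫ ⟪b λ, G⟫ = ⟪F, G⟫ = 0`, a sum of nonnegative real numbers with a
positive term.  Contradiction.
-/

set_option autoImplicit false

open MeasureTheory

namespace Pool.Agent.H938P

/-- one-dimensional Lebesgue measure on `[t, t+1] × {0}` plus that on `{0} × [t, t+1]` -/
noncomputable def muT (t : ℝ) : Measure (ℝ × ℝ) :=
  Measure.map (fun x : ℝ => (x, (0 : ℝ))) ((volume : Measure ℝ).restrict (Set.Icc t (t + 1))) +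
    Measure.map (fun y : ℝ => ((0 : ℝ), y)) ((volume : Measure ℝ).restrict (Set.Icc t (t + 1)))


/-- triangle function -/
noncomputable def tri (c x : ℝ) : ℝ := max 0 (c - |x|)

/-- cosine transform of the triangle -/
noncomputable def Bc (c a : ℝ) : ℝ := ∫ x in (0 : ℝ)..c, (c - x) * Real.cos (a * x)

theorem tri_cont (c : ℝ) : Continuous (tri c) := by
  unfold tri; fun_prop

theorem tri_nonneg (c x : ℝ) : 0 ≤ tri c x := le_max_left _ _

theorem tri_le (c x : ℝ) (hc : 0 < c) : tri c x ≤ c :=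
  max_le hc.le (by have := abs_nonneg x; linarith)

theorem Bc_formula (c a : ℝ) (ha : a ≠ 0) : Bc c a = (1 - Real.cos (a * c)) / a ^ 2 := by
  unfold Bc
  have h1 : ∀ x ∈ Set.uIcc 0 c, HasDerivAt
      (fun x => (c - x) * Real.sin (a * x) / a - Real.cos (a * x) / a ^ 2)
      ((c - x) * Real.cos (a * x)) x := by
    intro x _
    have hax : HasDerivAt (fun x : ℝ => a * x) a x := by
      simpa using (hasDerivAt_id x).const_mul a
    have hs := hax.sin
    have hc' := hax.cos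
    have hcx : HasDerivAt (fun x : ℝ => c - x) (-1) x := by
      simpa using (hasDerivAt_id x).const_sub c
    have h2 := ((hcx.mul hs).div_const a).sub (hc'.div_const (a ^ 2))
    refine h2.congr_deriv ?_
    field_simp
    ring
  rw [intervalIntegral.integral_eq_sub_of_hasDerivAt h1
    (Continuous.intervalIntegrable (by fun_prop) _ _)]
  simp
  ring

theorem Bc_zero (c : ℝ) : Bc c 0 = c ^ 2 / 2 := by
  unfold Bc
  have h1 : ∀ x ∈ Set.uIcc 0 c, HasDerivAt (fun x => c * x - x ^ 2 / 2)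
      ((c - x) * Real.cos (0 * x)) x := by
    intro x _
    have h2 := ((hasDerivAt_id x).const_mul c).sub (((hasDerivAt_id x).pow 2).div_const 2)
    refine h2.congr_deriv ?_
    simp
  rw [intervalIntegral.integral_eq_sub_of_hasDerivAt h1
    (Continuous.intervalIntegrable (by fun_prop) _ _)]
  simp
  ring

theorem Bc_nonneg (c a : ℝ) : 0 ≤ Bc c a := by
  by_cases ha : a = 0
  · rw [ha, Bc_zero]; positivity
  · rw [Bc_formula c a ha]
    have := Real.cos_le_one (a * c)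
    exact div_nonneg (by linarith) (by positivity)

theorem Bc_pos (c a : ℝ) (hc : 0 < c) (h : |a| * c < 2 * Real.pi) : 0 < Bc c a := by
  by_cases ha : a = 0
  · rw [ha, Bc_zero]; positivity
  · rw [Bc_formula c a ha]
    have h1 := Real.cos_le_one (a * c)
    have h3 : |a * c| < 2 * Real.pi := by rw [abs_mul, abs_of_pos hc]; exact h
    have h4 := abs_lt.1 h3
    have h2 : Real.cos (a * c) ≠ 1 := by
      intro h5
      have h6 := (Real.cos_eq_one_iff_of_lt_of_lt h4.1 h4.2).1 h5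
      exact (mul_ne_zero ha hc.ne') h6
    have h7 : Real.cos (a * c) < 1 := lt_of_le_of_ne h1 h2
    exact div_pos (by linarith) (by positivity)

theorem tri_int (t c : ℝ) (hc : 0 < c) (h1 : t ≤ -c) (h2 : c ≤ t + 1) (a : ℝ) :
    ∫ x in Set.Icc t (t + 1), (tri c x : ℂ) * Complex.exp (-(a * x * Complex.I)) =
      ((2 * Bc c a : ℝ) : ℂ) := by
  have hgc : Continuous fun x : ℝ => (tri c x : ℂ) * Complex.exp (-(a * x * Complex.I)) := by
    have := tri_cont c
    fun_prop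
  have e1 : ∫ x in Set.Icc t (t + 1), (tri c x : ℂ) * Complex.exp (-(a * x * Complex.I)) =
      ∫ x in Set.Icc (-c) c, (tri c x : ℂ) * Complex.exp (-(a * x * Complex.I)) := by
    refine setIntegral_eq_of_subset_of_forall_sdiff_eq_zero measurableSet_Icc
      (Set.Icc_subset_Icc h1 h2) fun x hx => ?_
    have hx2 : c ≤ |x| := by
      by_contra h
      push Not at h
      have h3 := abs_lt.1 h
      exact hx.2 ⟨h3.1.le, h3.2.le⟩
    have : tri c x = 0 := max_eq_left (by linarith)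
    rw [this]; simp
  rw [e1, integral_Icc_eq_integral_Ioc, ← intervalIntegral.integral_of_le (by linarith),
    ← intervalIntegral.integral_add_adjacent_intervals (hgc.intervalIntegrable (-c) 0)
      (hgc.intervalIntegrable 0 c)]
  have e2 : ∫ x in (-c)..0, (tri c x : ℂ) * Complex.exp (-(a * x * Complex.I)) =
      ∫ x in (0 : ℝ)..c, (tri c (-x) : ℂ) * Complex.exp (-(a * ((-x : ℝ) : ℂ) * Complex.I)) := by
    have := intervalIntegral.integral_comp_neg (a := 0) (b := c)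
      (fun x : ℝ => (tri c x : ℂ) * Complex.exp (-(a * x * Complex.I)))
    rw [this]
    simp
  have hgc2 : Continuous fun x : ℝ =>
      (tri c (-x) : ℂ) * Complex.exp (-(a * ((-x : ℝ) : ℂ) * Complex.I)) := by
    have := tri_cont c
    fun_prop
  rw [e2, ← intervalIntegral.integral_add (hgc2.intervalIntegrable 0 c)
    (hgc.intervalIntegrable 0 c)]
  unfold Bc
  rw [← intervalIntegral.integral_const_mul, ← intervalIntegral.integral_ofReal]
  refine intervalIntegral.integral_congr fun x hx => ?_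
  rw [Set.uIcc_of_le hc.le] at hx
  have h3 : tri c x = c - x := by
    unfold tri
    rw [abs_of_nonneg hx.1]
    exact max_eq_right (by linarith [hx.2])
  have h4 : tri c (-x) = c - x := by
    unfold tri
    rw [abs_neg, abs_of_nonneg hx.1]
    exact max_eq_right (by linarith [hx.2])
  simp only [h3, h4]
  push_cast
  rw [Complex.cos]
  have h5 : -((a : ℂ) * (-(x : ℂ)) * Complex.I) = (a : ℂ) * x * Complex.I := by ring
  have h6 : -((a : ℂ) * (x : ℂ)) * Complex.I = -((a : ℂ) * x * Complex.I) := by ring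
  rw [h5, h6]
  ring

instance muT_fin (t : ℝ) : IsFiniteMeasure (muT t) := by
  unfold muT; infer_instance

theorem muT_int (t : ℝ) (h : ℝ × ℝ → ℂ) (hm : Measurable h) (C : ℝ) (hC : ∀ p, ‖h p‖ ≤ C) :
    ∫ p, h p ∂(muT t) = (∫ x in Set.Icc t (t + 1), h (x, 0)) +
      ∫ y in Set.Icc t (t + 1), h (0, y) := by
  have i1 : Measurable fun x : ℝ => (x, (0 : ℝ)) := by fun_prop
  have i2 : Measurable fun y : ℝ => ((0 : ℝ), y) := by fun_prop
  unfold muT
  rw [integral_add_measure, integral_map i1.aemeasurable hm.aestronglyMeasurable,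
    integral_map i2.aemeasurable hm.aestronglyMeasurable]
  · exact Integrable.of_bound hm.aestronglyMeasurable C (Filter.Eventually.of_forall hC)
  · exact Integrable.of_bound hm.aestronglyMeasurable C (Filter.Eventually.of_forall hC)

/-- the test function on the first segment -/
noncomputable def FF (c : ℝ) (p : ℝ × ℝ) : ℂ := if p.1 ≠ 0 then (tri c p.1 : ℂ) else 0

/-- the test function on the second segment -/
noncomputable def HH (c : ℝ) (p : ℝ × ℝ) : ℂ := if p.2 ≠ 0 then (tri c p.2 : ℂ) else 0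

theorem FF_meas (c : ℝ) : Measurable (FF c) := by
  have h := (tri_cont c).measurable
  exact Measurable.ite (measurableSet_eq_fun measurable_fst measurable_const).compl
    (Complex.measurable_ofReal.comp (h.comp measurable_fst)) measurable_const

theorem HH_meas (c : ℝ) : Measurable (HH c) := by
  have h := (tri_cont c).measurable
  exact Measurable.ite (measurableSet_eq_fun measurable_snd measurable_const).compl
    (Complex.measurable_ofReal.comp (h.comp measurable_snd)) measurable_const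

theorem FF_bd (c : ℝ) (hc : 0 < c) (p : ℝ × ℝ) : ‖FF c p‖ ≤ c := by
  unfold FF
  split_ifs
  · rw [Complex.norm_real, Real.norm_of_nonneg (tri_nonneg _ _)]
    exact tri_le c _ hc
  · simpa using hc.le

theorem HH_bd (c : ℝ) (hc : 0 < c) (p : ℝ × ℝ) : ‖HH c p‖ ≤ c := by
  unfold HH
  split_ifs
  · rw [Complex.norm_real, Real.norm_of_nonneg (tri_nonneg _ _)]
    exact tri_le c _ hc
  · simpa using hc.le

theorem FF_mem (t c : ℝ) (hc : 0 < c) : MemLp (FF c) 2 (muT t) :=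
  MemLp.of_bound (FF_meas c).aestronglyMeasurable c (Filter.Eventually.of_forall (FF_bd c hc))

theorem HH_mem (t c : ℝ) (hc : 0 < c) : MemLp (HH c) 2 (muT t) :=
  MemLp.of_bound (HH_meas c).aestronglyMeasurable c (Filter.Eventually.of_forall (HH_bd c hc))

/-- the exponential -/
noncomputable def EE (q p : ℝ × ℝ) : ℂ :=
  ((Real.sqrt 2)⁻¹ : ℂ) * Complex.exp (2 * Real.pi * Complex.I * (q.1 * p.1 + q.2 * p.2))

theorem EE_conj (q p : ℝ × ℝ) : (starRingEnd ℂ) (EE q p) =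
    ((Real.sqrt 2)⁻¹ : ℂ) * Complex.exp (-(2 * Real.pi * Complex.I * (q.1 * p.1 + q.2 * p.2))) := by
  unfold EE
  rw [map_mul, ← Complex.exp_conj]
  congr 1
  · rw [map_inv₀, Complex.conj_ofReal]
  · congr 1
    simp only [map_mul, map_add, Complex.conj_I, Complex.conj_ofReal]
    have : (starRingEnd ℂ) 2 = 2 := Complex.conj_ofNat 2
    rw [this]
    ring

theorem EE_cont (q : ℝ × ℝ) : Continuous (EE q) := by
  unfold EE; fun_prop

theorem EE_norm (q p : ℝ × ℝ) : ‖EE q p‖ ≤ 1 := by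
  unfold EE
  have h1 : (2 * Real.pi * Complex.I * (q.1 * p.1 + q.2 * p.2) : ℂ) =
      ((2 * Real.pi * (q.1 * p.1 + q.2 * p.2) : ℝ) : ℂ) * Complex.I := by push_cast; ring
  rw [h1, norm_mul, Complex.norm_exp_ofReal_mul_I, mul_one, norm_inv, Complex.norm_real,
    Real.norm_of_nonneg (Real.sqrt_nonneg _)]
  have : 1 ≤ Real.sqrt 2 := by
    rw [Real.one_le_sqrt]; norm_num
  exact inv_le_one_of_one_le₀ this

theorem inner_FF (t c : ℝ) (hc : 0 < c) (h1 : t ≤ -c) (h2 : c ≤ t + 1) (q : ℝ × ℝ)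
    (e : Lp ℂ 2 (muT t)) (he : (e : ℝ × ℝ → ℂ) =ᵐ[muT t] EE q) :
    inner ℂ e ((FF_mem t c hc).toLp (FF c)) =
      (((Real.sqrt 2)⁻¹ * (2 * Bc c (2 * Real.pi * q.1)) : ℝ) : ℂ) := by
  rw [MeasureTheory.L2.inner_def]
  have e1 : ∫ p, inner ℂ ((e : ℝ × ℝ → ℂ) p) (((FF_mem t c hc).toLp (FF c) : ℝ × ℝ → ℂ) p) ∂(muT t) =
      ∫ p, (FF c p) * (starRingEnd ℂ) (EE q p) ∂(muT t) := by
    refine integral_congr_ae ?_
    filter_upwards [he, (FF_mem t c hc).coeFn_toLp] with p h3 h4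
    rw [h3, h4, RCLike.inner_apply]
  rw [e1, muT_int t (fun p => FF c p * (starRingEnd ℂ) (EE q p)) ((FF_meas c).mul (Complex.continuous_conj.measurable.comp
    (EE_cont q).measurable)) (c * 1) (fun p => by
      rw [norm_mul, RCLike.norm_conj]
      exact mul_le_mul (FF_bd c hc p) (EE_norm q p) (norm_nonneg _) hc.le)]
  have e2 : ∫ y in Set.Icc t (t + 1), (FF c (0, y)) * (starRingEnd ℂ) (EE q (0, y)) = 0 := by
    have : ∀ y : ℝ, (FF c (0, y)) * (starRingEnd ℂ) (EE q (0, y)) = 0 := by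
      intro y
      simp [FF]
    simp [this]
  have e3 : ∫ x in Set.Icc t (t + 1), (FF c (x, 0)) * (starRingEnd ℂ) (EE q (x, 0)) =
      ((Real.sqrt 2)⁻¹ : ℂ) * ∫ x in Set.Icc t (t + 1),
        (tri c x : ℂ) * Complex.exp (-(((2 * Real.pi * q.1 : ℝ) : ℂ) * x * Complex.I)) := by
    rw [← integral_const_mul]
    refine integral_congr_ae ?_
    have h0 : ∀ᵐ x : ℝ ∂(volume.restrict (Set.Icc t (t + 1))), x ≠ 0 := by
      refine ae_restrict_of_ae ?_
      exact Measure.ae_ne volume 0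
    filter_upwards [h0] with x hx
    rw [EE_conj]
    have h5 : FF c (x, 0) = (tri c x : ℂ) := by simp [FF, hx]
    rw [h5]
    have h6 : -(2 * (Real.pi : ℂ) * Complex.I * ((q.1 : ℂ) * ((x, (0 : ℝ)) : ℝ × ℝ).1 +
        (q.2 : ℂ) * (((x, (0 : ℝ)) : ℝ × ℝ).2 : ℝ))) =
        -(((2 * Real.pi * q.1 : ℝ) : ℂ) * x * Complex.I) := by
      push_cast; ring
    rw [h6]
    ring
  rw [e2, e3, add_zero, tri_int t c hc h1 h2]
  push_cast
  ring

theorem inner_HH (t c : ℝ) (hc : 0 < c) (h1 : t ≤ -c) (h2 : c ≤ t + 1) (q : ℝ × ℝ)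
    (e : Lp ℂ 2 (muT t)) (he : (e : ℝ × ℝ → ℂ) =ᵐ[muT t] EE q) :
    inner ℂ e ((HH_mem t c hc).toLp (HH c)) =
      (((Real.sqrt 2)⁻¹ * (2 * Bc c (2 * Real.pi * q.2)) : ℝ) : ℂ) := by
  rw [MeasureTheory.L2.inner_def]
  have e1 : ∫ p, inner ℂ ((e : ℝ × ℝ → ℂ) p) (((HH_mem t c hc).toLp (HH c) : ℝ × ℝ → ℂ) p) ∂(muT t) =
      ∫ p, (HH c p) * (starRingEnd ℂ) (EE q p) ∂(muT t) := by
    refine integral_congr_ae ?_
    filter_upwards [he, (HH_mem t c hc).coeFn_toLp] with p h3 h4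
    rw [h3, h4, RCLike.inner_apply]
  rw [e1, muT_int t (fun p => HH c p * (starRingEnd ℂ) (EE q p)) ((HH_meas c).mul (Complex.continuous_conj.measurable.comp
    (EE_cont q).measurable)) (c * 1) (fun p => by
      rw [norm_mul, RCLike.norm_conj]
      exact mul_le_mul (HH_bd c hc p) (EE_norm q p) (norm_nonneg _) hc.le)]
  have e2 : ∫ x in Set.Icc t (t + 1), (HH c (x, 0)) * (starRingEnd ℂ) (EE q (x, 0)) = 0 := by
    have : ∀ x : ℝ, (HH c (x, 0)) * (starRingEnd ℂ) (EE q (x, 0)) = 0 := by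
      intro x
      simp [HH]
    simp [this]
  have e3 : ∫ y in Set.Icc t (t + 1), (HH c (0, y)) * (starRingEnd ℂ) (EE q (0, y)) =
      ((Real.sqrt 2)⁻¹ : ℂ) * ∫ y in Set.Icc t (t + 1),
        (tri c y : ℂ) * Complex.exp (-(((2 * Real.pi * q.2 : ℝ) : ℂ) * y * Complex.I)) := by
    rw [← integral_const_mul]
    refine integral_congr_ae ?_
    have h0 : ∀ᵐ x : ℝ ∂(volume.restrict (Set.Icc t (t + 1))), x ≠ 0 := by
      refine ae_restrict_of_ae ?_
      exact Measure.ae_ne volume 0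
    filter_upwards [h0] with x hx
    rw [EE_conj]
    have h5 : HH c (0, x) = (tri c x : ℂ) := by simp [HH, hx]
    rw [h5]
    have h6 : -(2 * (Real.pi : ℂ) * Complex.I * ((q.1 : ℂ) * (((0 : ℝ), x) : ℝ × ℝ).1 +
        (q.2 : ℂ) * ((((0 : ℝ), x) : ℝ × ℝ).2 : ℝ))) =
        -(((2 * Real.pi * q.2 : ℝ) : ℂ) * x * Complex.I) := by
      push_cast; ring
    rw [h6]
    ring
  rw [e2, e3, zero_add, tri_int t c hc h1 h2]
  push_cast
  ring

theorem inner_FH (t c : ℝ) (hc : 0 < c) :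
    inner ℂ ((FF_mem t c hc).toLp (FF c)) ((HH_mem t c hc).toLp (HH c)) = 0 := by
  rw [MeasureTheory.L2.inner_def]
  have e1 : ∫ p, inner ℂ (((FF_mem t c hc).toLp (FF c) : ℝ × ℝ → ℂ) p)
      (((HH_mem t c hc).toLp (HH c) : ℝ × ℝ → ℂ) p) ∂(muT t) =
      ∫ p, (HH c p) * (starRingEnd ℂ) (FF c p) ∂(muT t) := by
    refine integral_congr_ae ?_
    filter_upwards [(FF_mem t c hc).coeFn_toLp, (HH_mem t c hc).coeFn_toLp] with p h3 h4
    rw [h3, h4, RCLike.inner_apply]
  rw [e1, muT_int t (fun p => HH c p * (starRingEnd ℂ) (FF c p)) ((HH_meas c).mul (Complex.continuous_conj.measurable.comp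
    (FF_meas c))) (c * c) (fun p => by
      rw [norm_mul, RCLike.norm_conj]
      exact mul_le_mul (HH_bd c hc p) (FF_bd c hc p) (norm_nonneg _) hc.le)]
  have e2 : ∀ x : ℝ, (HH c (x, 0)) * (starRingEnd ℂ) (FF c (x, 0)) = 0 := by
    intro x; simp [HH]
  have e3 : ∀ y : ℝ, (HH c (0, y)) * (starRingEnd ℂ) (FF c (0, y)) = 0 := by
    intro y; simp [FF]
  simp [e2, e3]

theorem inner_one (t : ℝ) :
    inner ℂ ((memLp_const (1 : ℂ)).toLp (fun _ : ℝ × ℝ => (1 : ℂ)) : Lp ℂ 2 (muT t))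
      ((memLp_const (1 : ℂ)).toLp (fun _ : ℝ × ℝ => (1 : ℂ)) : Lp ℂ 2 (muT t)) = 2 := by
  rw [MeasureTheory.L2.inner_def]
  have e1 : ∫ p, inner ℂ (((memLp_const (1 : ℂ)).toLp (fun _ : ℝ × ℝ => (1 : ℂ)) : Lp ℂ 2 (muT t)) p)
      (((memLp_const (1 : ℂ)).toLp (fun _ : ℝ × ℝ => (1 : ℂ)) : Lp ℂ 2 (muT t)) p) ∂(muT t) =
      ∫ p, (1 : ℂ) ∂(muT t) := by
    refine integral_congr_ae ?_
    filter_upwards [(memLp_const (1 : ℂ) : MemLp (fun _ : ℝ × ℝ => (1 : ℂ)) 2 (muT t)).coeFn_toLp]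
      with p h3
    rw [h3, RCLike.inner_apply]
    simp
  rw [e1, muT_int t (fun _ => (1 : ℂ)) measurable_const 1 (fun _ => by simp)]
  simp
  norm_num

/-- TARGET -/
theorem no_basis (t : ℝ) (h1 : -1 < t) (h2 : t < 0) (Λ : Set (ℝ × ℝ))
    (b : HilbertBasis Λ ℂ (Lp ℂ 2 (muT t)))
    (hb : ∀ q : Λ, (b q : ℝ × ℝ → ℂ) =ᵐ[muT t] fun p =>
      ((Real.sqrt 2)⁻¹ : ℂ) * Complex.exp (2 * Real.pi * Complex.I * (q.1.1 * p.1 + q.1.2 * p.2))) :
    False := by
  have hne : Nonempty Λ := by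
    by_contra hemp
    rw [not_nonempty_iff] at hemp
    have h3 := b.hasSum_inner_mul_inner
      ((memLp_const (1 : ℂ)).toLp (fun _ : ℝ × ℝ => (1 : ℂ)) : Lp ℂ 2 (muT t))
      ((memLp_const (1 : ℂ)).toLp (fun _ : ℝ × ℝ => (1 : ℂ)) : Lp ℂ 2 (muT t))
    rw [inner_one] at h3
    have h4 := h3.unique hasSum_empty
    norm_num at h4
  obtain ⟨q⟩ := hne
  set N : ℝ := |q.1.1| + |q.1.2| + 1 with hN
  have hN0 : 0 < N := by positivity
  set c : ℝ := min (min (-t) (t + 1)) (1 / N) with hc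
  have hc0 : 0 < c := lt_min (lt_min (by linarith) (by linarith)) (by positivity)
  have hc1 : t ≤ -c := by
    have := (min_le_left (min (-t) (t + 1)) (1 / N)).trans (min_le_left _ _)
    linarith
  have hc2 : c ≤ t + 1 := (min_le_left (min (-t) (t + 1)) (1 / N)).trans (min_le_right _ _)
  have hc3 : c * N ≤ 1 := by
    have h3 : c ≤ 1 / N := min_le_right _ _
    calc c * N ≤ 1 / N * N := mul_le_mul_of_nonneg_right h3 hN0.le
      _ = 1 := by field_simp
  have hq : ∀ r : ℝ, |r| < N → |2 * Real.pi * r| * c < 2 * Real.pi := by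
    intro r hr
    have h3 : |r| * c < 1 := by
      calc |r| * c < N * c := mul_lt_mul_of_pos_right hr hc0
        _ ≤ 1 := by rw [mul_comm]; exact hc3
    have hpi := Real.pi_pos
    rw [abs_mul, abs_of_pos (by positivity : 0 < 2 * Real.pi)]
    nlinarith
  have hsum := b.hasSum_inner_mul_inner ((FF_mem t c hc0).toLp (FF c)) ((HH_mem t c hc0).toLp (HH c))
  rw [inner_FH t c hc0] at hsum
  have hterm : ∀ p : Λ, inner ℂ ((FF_mem t c hc0).toLp (FF c)) (b p) *
      inner ℂ (b p) ((HH_mem t c hc0).toLp (HH c)) =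
      ((((Real.sqrt 2)⁻¹ * (2 * Bc c (2 * Real.pi * p.1.1))) *
        ((Real.sqrt 2)⁻¹ * (2 * Bc c (2 * Real.pi * p.1.2))) : ℝ) : ℂ) := by
    intro p
    have h3 := inner_FF t c hc0 hc1 hc2 p.1 (b p) (hb p)
    have h4 := inner_HH t c hc0 hc1 hc2 p.1 (b p) (hb p)
    rw [← inner_conj_symm, h3, h4, Complex.conj_ofReal]
    push_cast
    ring
  simp only [hterm] at hsum
  have hsum2 := (Complex.hasSum_ofReal (f := fun p : Λ =>
    ((Real.sqrt 2)⁻¹ * (2 * Bc c (2 * Real.pi * p.1.1))) *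
        ((Real.sqrt 2)⁻¹ * (2 * Bc c (2 * Real.pi * p.1.2)))) (x := 0)).1 (by
          simpa using hsum)
  have hnn : ∀ p : Λ, 0 ≤ ((Real.sqrt 2)⁻¹ * (2 * Bc c (2 * Real.pi * p.1.1))) *
        ((Real.sqrt 2)⁻¹ * (2 * Bc c (2 * Real.pi * p.1.2))) := by
    intro p
    have h3 := Bc_nonneg c (2 * Real.pi * p.1.1)
    have h4 := Bc_nonneg c (2 * Real.pi * p.1.2)
    positivity
  have hz := congrFun ((hasSum_zero_iff_of_nonneg hnn).1 hsum2) q
  have h3 := Bc_pos c (2 * Real.pi * q.1.1) hc0 (hq _ (by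
    have := abs_nonneg q.1.2
    rw [hN]; linarith))
  have h4 := Bc_pos c (2 * Real.pi * q.1.2) hc0 (hq _ (by
    have := abs_nonneg q.1.1
    rw [hN]; linarith))
  have h5 : 0 < ((Real.sqrt 2)⁻¹ * (2 * Bc c (2 * Real.pi * q.1.1))) *
        ((Real.sqrt 2)⁻¹ * (2 * Bc c (2 * Real.pi * q.1.2))) := by
    positivity
  exact absurd hz h5.ne'

end Pool.Agent.H938P

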