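import Mathlib

open MeasureTheory Set Complex Filter
open scoped Real Topology ContDiff

namespace Pool.Agent.Helper546Cauchy

lemma deriv_eq_zero_of_eventually_zero {s : ℝ → ℝ} {b t : ℝ} (h0 : ∀ t, b ≤ t → s t = 0)
    (ht : b < t) : deriv s t = 0 := by
  have : s =ᶠ[𝓝 t] fun _ => 0 := by
    filter_upwards [lt_mem_nhds ht] with u hu
    exact h0 u hu.le
  rw [this.deriv_eq]
  simp

lemma continuous_phi {F : ℂ → ℂ} {z₀ : ℂ} {s : ℝ → ℝ} {R b : ℝ} (hR : 0 < R) (hb : b < R ^ 2)
    (hs : ContDiff ℝ 2 s) (h0 : ∀ t, b ≤ t → s t = 0)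
    (hF : ∀ z ∈ Metric.closedBall z₀ R, DifferentiableAt ℂ F z) :
    Continuous fun z : ℂ => ((deriv s (‖z‖ ^ 2) : ℝ) : ℂ) * F (z₀ + z) := by
  have hds : Continuous (deriv s) := hs.continuous_deriv (by norm_num)
  rw [continuous_iff_continuousAt]
  intro z
  by_cases hz : ‖z‖ < R
  · have h1 : ContinuousAt F (z₀ + z) := by
      apply (hF _ _).continuousAt
      simp [hz.le]
    have h2 : ContinuousAt (fun z : ℂ => F (z₀ + z)) z :=
      ContinuousAt.comp (f := fun z : ℂ => z₀ + z) h1 (by fun_prop)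
    have h3 : ContinuousAt (fun z : ℂ => ((deriv s (‖z‖ ^ 2) : ℝ) : ℂ)) z := by
      have : Continuous (fun z : ℂ => ((deriv s (‖z‖ ^ 2) : ℝ) : ℂ)) := by fun_prop
      exact this.continuousAt
    exact h3.mul h2
  · have hz' : b < ‖z‖ ^ 2 := by
      have : R ^ 2 ≤ ‖z‖ ^ 2 := by
        have := not_lt.mp hz
        gcongr
      linarith
    have hc : ContinuousAt (fun z : ℂ => ‖z‖ ^ 2) z := by fun_prop
    have : (fun z : ℂ => ((deriv s (‖z‖ ^ 2) : ℝ) : ℂ) * F (z₀ + z)) =ᶠ[𝓝 z] fun _ => 0 := by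
      filter_upwards [hc.eventually (lt_mem_nhds hz')] with w hw
      rw [deriv_eq_zero_of_eventually_zero h0 hw]
      simp
    exact this.continuousAt

lemma radial_integral {s : ℝ → ℝ} {R b : ℝ} (hR : 0 < R) (hb : b < R ^ 2)
    (hs : ContDiff ℝ 2 s) (h1 : s 0 = 1) (h0 : ∀ t, b ≤ t → s t = 0) :
    ∫ r in Ioi (0 : ℝ), r * deriv s (r ^ 2) = -(1 / 2) := by
  have hds : Continuous (deriv s) := hs.continuous_deriv (by norm_num)
  have hd : ∀ r ∈ Ici (0 : ℝ), HasDerivAt (fun r => s (r ^ 2) / 2) (r * deriv s (r ^ 2)) r := by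
    intro r _
    have h2 : HasDerivAt (fun r : ℝ => r ^ 2) (2 * r) r := by
      simpa using hasDerivAt_pow 2 r
    have h3 : HasDerivAt s (deriv s (r ^ 2)) (r ^ 2) :=
      (hs.differentiable (by norm_num)).differentiableAt.hasDerivAt
    have h4 : HasDerivAt (fun r : ℝ => s (r ^ 2)) (deriv s (r ^ 2) * (2 * r)) r :=
      HasDerivAt.comp (h₂ := s) (h := fun r : ℝ => r ^ 2) r h3 h2
    have h5 := h4.div_const 2
    have h6 : deriv s (r ^ 2) * (2 * r) / 2 = r * deriv s (r ^ 2) := by ring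
    rw [h6] at h5
    exact h5
  have hint : IntegrableOn (fun r : ℝ => r * deriv s (r ^ 2)) (Ioi 0) := by
    have hc : Continuous (fun r : ℝ => r * deriv s (r ^ 2)) := by fun_prop
    have hu : Ioi (0 : ℝ) = Ioc 0 R ∪ Ioi R := (Ioc_union_Ioi_eq_Ioi hR.le).symm
    rw [hu]
    refine IntegrableOn.union ?_ ?_
    · exact (hc.continuousOn.integrableOn_compact isCompact_Icc).mono_set Ioc_subset_Icc_self
    · refine (integrableOn_zero).congr_fun (f := fun _ => (0 : ℝ)) ?_ measurableSet_Ioi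
      intro r hr
      have : b < r ^ 2 := by
        have : R ^ 2 ≤ r ^ 2 := by
          have := (mem_Ioi.mp hr).le
          gcongr
        linarith
      simp [deriv_eq_zero_of_eventually_zero h0 this]
  have ht : Tendsto (fun r => s (r ^ 2) / 2) atTop (𝓝 0) := by
    refine tendsto_const_nhds.congr' ?_
    filter_upwards [eventually_ge_atTop R] with r hr
    have : b ≤ r ^ 2 := by
      have : R ^ 2 ≤ r ^ 2 := by gcongr
      linarith
    simp [h0 _ this]
  rw [integral_Ioi_of_hasDerivAt_of_tendsto' hd hint ht]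
  simp [h1]

lemma circle_integral {F : ℂ → ℂ} {z₀ : ℂ} {r R : ℝ} (hr : 0 ≤ r) (hrR : r ≤ R)
    (hF : ∀ z ∈ Metric.closedBall z₀ R, DifferentiableAt ℂ F z) :
    ∫ θ in Ioo (-π) π, F (z₀ + r * (Real.cos θ + Real.sin θ * I)) = 2 * π * F z₀ := by
  have h1 : Real.circleAverage F z₀ r = F z₀ := by
    apply DiffContOnCl.circleAverage
    apply DifferentiableOn.diffContOnCl
    intro z hz
    apply (hF z _).differentiableWithinAt
    have h2 : z ∈ Metric.closedBall z₀ |r| :=
      closure_minimal Metric.ball_subset_closedBall Metric.isClosed_closedBall hz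
    rw [abs_of_nonneg hr] at h2
    exact Metric.closedBall_subset_closedBall hrR h2
  have h3 : ∀ θ : ℝ, circleMap z₀ r θ = z₀ + r * (Real.cos θ + Real.sin θ * I) := by
    intro θ
    simp [circleMap, Complex.exp_mul_I]
  have h4 : ∫ θ in (-π)..π, F (circleMap z₀ r θ) = ∫ θ in (0 : ℝ)..2 * π, F (circleMap z₀ r θ) := by
    have hp : Function.Periodic (fun θ => F (circleMap z₀ r θ)) (2 * π) := by
      intro θ
      simp only [periodic_circleMap z₀ r θ]
    have := hp.intervalIntegral_add_eq (-π) 0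
    rw [show -π + 2 * π = π by ring, zero_add] at this
    exact this
  rw [Real.circleAverage_def] at h1
  rw [← integral_Ioc_eq_integral_Ioo, ← intervalIntegral.integral_of_le (by linarith [Real.pi_pos])]
  simp_rw [← h3]
  rw [h4]
  have hpi : (2 * (π : ℂ)) ≠ 0 := by
    simp [Real.pi_ne_zero]
  rw [← h1, Complex.real_smul]
  push_cast
  field_simp

lemma polar_core {F : ℂ → ℂ} {z₀ : ℂ} {s : ℝ → ℝ} {R b : ℝ} (hR : 0 < R) (hb : b < R ^ 2)
    (hs : ContDiff ℝ 2 s) (h1 : s 0 = 1) (h0 : ∀ t, b ≤ t → s t = 0)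
    (hF : ∀ z ∈ Metric.closedBall z₀ R, DifferentiableAt ℂ F z) :
    ∫ z : ℂ, ((deriv s (‖z‖ ^ 2) : ℝ) : ℂ) * F (z₀ + z) = -(π * F z₀) := by
  set Φ : ℂ → ℂ := fun z => ((deriv s (‖z‖ ^ 2) : ℝ) : ℂ) * F (z₀ + z) with hΦ
  have hc : Continuous Φ := continuous_phi hR hb hs h0 hF
  have hz : ∀ z : ℂ, R ≤ ‖z‖ → Φ z = 0 := by
    intro z hz
    have : b < ‖z‖ ^ 2 := by
      have : R ^ 2 ≤ ‖z‖ ^ 2 := by gcongr
      linarith
    simp [hΦ, deriv_eq_zero_of_eventually_zero h0 this]
  rw [← Complex.integral_comp_polarCoord_symm Φ]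
  have htar : Complex.polarCoord.target = Ioi (0 : ℝ) ×ˢ Ioo (-π) π := rfl
  rw [show polarCoord.target = Ioi (0 : ℝ) ×ˢ Ioo (-π) π from rfl]
  have hcont : Continuous fun p : ℝ × ℝ => p.1 • Φ (Complex.polarCoord.symm p) := by
    simp only [Complex.polarCoord_symm_apply]
    fun_prop
  have hint : IntegrableOn (fun p : ℝ × ℝ => p.1 • Φ (Complex.polarCoord.symm p))
      (Ioi (0 : ℝ) ×ˢ Ioo (-π) π) (volume.prod volume) := by
    have hu : Ioi (0 : ℝ) ×ˢ Ioo (-π) π = (Ioc 0 R ×ˢ Ioo (-π) π) ∪ (Ioi R ×ˢ Ioo (-π) π) := by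
      rw [← union_prod, Ioc_union_Ioi_eq_Ioi hR.le]
    rw [hu]
    refine IntegrableOn.union ?_ ?_
    · refine (hcont.continuousOn.integrableOn_compact
        (isCompact_Icc.prod isCompact_Icc : IsCompact (Icc 0 R ×ˢ Icc (-π) π))).mono_set ?_
      exact prod_mono Ioc_subset_Icc_self Ioo_subset_Icc_self
    · refine (integrableOn_zero).congr_fun (f := fun _ => (0 : ℂ)) ?_
        (measurableSet_Ioi.prod measurableSet_Ioo)
      intro p hp
      have hp1 : R < p.1 := hp.1
      have : Φ (Complex.polarCoord.symm p) = 0 := by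
        apply hz
        rw [Complex.norm_polarCoord_symm]
        exact hp1.le.trans (le_abs_self _)
      change (0 : ℂ) = p.1 • Φ (Complex.polarCoord.symm p)
      rw [this, smul_zero]
  rw [Measure.volume_eq_prod, setIntegral_prod _ hint]
  have hinner : ∀ r ∈ Ioi (0 : ℝ), ∫ θ in Ioo (-π) π, (r, θ).1 • Φ (Complex.polarCoord.symm (r, θ))
      = ((r * deriv s (r ^ 2) : ℝ) : ℂ) * (2 * π * F z₀) := by
    intro r hr
    have hr0 : 0 < r := hr
    have hnorm : ∀ θ : ℝ, ‖(r : ℂ) * (Real.cos θ + Real.sin θ * I)‖ = r := by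
      intro θ
      have := Complex.norm_polarCoord_symm (r, θ)
      rw [Complex.polarCoord_symm_apply] at this
      simpa [abs_of_pos hr0] using this
    by_cases hrR : r ≤ R
    · have : ∀ θ : ℝ, (r, θ).1 • Φ (Complex.polarCoord.symm (r, θ))
          = ((r * deriv s (r ^ 2) : ℝ) : ℂ) * F (z₀ + r * (Real.cos θ + Real.sin θ * I)) := by
        intro θ
        rw [Complex.polarCoord_symm_apply]
        simp only [hΦ]
        rw [hnorm θ, Complex.real_smul]
        push_cast
        ring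
      simp_rw [this]
      rw [integral_const_mul, circle_integral hr0.le hrR hF]
    · have hb' : b < r ^ 2 := by
        have : R ^ 2 ≤ r ^ 2 := by
          have := (not_le.mp hrR).le
          gcongr
        linarith
      have : ∀ θ : ℝ, (r, θ).1 • Φ (Complex.polarCoord.symm (r, θ)) = 0 := by
        intro θ
        rw [hz _ (by rw [Complex.norm_polarCoord_symm]; exact (not_le.mp hrR).le.trans (le_abs_self _))]
        simp
      simp_rw [this]
      simp [deriv_eq_zero_of_eventually_zero h0 hb']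
  rw [setIntegral_congr_fun measurableSet_Ioi hinner, integral_mul_const, integral_complex_ofReal,
    radial_integral hR hb hs h1 h0]
  push_cast
  ring

end Pool.Agent.Helper546Cauchy
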