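import Mathlib

/-!
Cauchy integral formulas for functions with values in a real algebra `A`, on open subsets of the
span of `e 0, …, e (k-1)`; a point of the span is given by its coordinates, an element of
`Fin k → ℝ`.  The index `j : Fin k` stands for the index `j + 1` of the problem.
-/

open MeasureTheory Set

namespace Pool.Agent.Helper546Cauchy

variable {k : ℕ} {A : Type} [NormedRing A] [NormedAlgebra ℝ A]

/-- `f` is differentiable at every point of `U` and `∑ e_j ∂f/∂x_j = 0` on `U`. -/
def LeftAnalyticOn (e : Fin k → A) (f : (Fin k → ℝ) → A) (U : Set (Fin k → ℝ)) : Prop :=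
  ∀ x ∈ U, DifferentiableAt ℝ f x ∧ ∑ j, e j * fderiv ℝ f x (Pi.single j 1) = 0

/-- There are `p_1, …, p_k` with `p_j e_l + p_l e_j = 2 δ_{jl}`. -/
def Admissible (e : Fin k → A) : Prop :=
  ∃ p : Fin k → A, ∀ j l, p j * e l + p l * e j = if j = l then 2 else 0

/-- `M` is a compact set whose boundary is measured by the finite measure `σ` (carried by the
topological boundary of `M`) with outward normal field `ν`: the divergence theorem
`∫_M ∂φ/∂x_j dx = ∫ φ ν_j dσ` holds for every `C¹` function `φ` with compact support.  A compact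
`k`-dimensional submanifold `M` with smooth boundary is an example, with `σ` its surface measure
and `ν` its outward unit normal. -/
structure BoundaryData (M : Set (Fin k → ℝ)) (σ : Measure (Fin k → ℝ))
    (ν : (Fin k → ℝ) → Fin k → ℝ) : Prop where
  compact : IsCompact M
  finite : σ univ < ⊤
  carried : σ (frontier M)ᶜ = 0
  measurable : Measurable ν
  bounded : ∀ x j, |ν x j| ≤ 1
  divergence : ∀ φ : (Fin k → ℝ) → ℝ, ContDiff ℝ 1 φ → HasCompactSupport φ → ∀ j,
    ∫ x in M, fderiv ℝ φ x (Pi.single j 1) = ∫ x, φ x * ν x j ∂σ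

/-- The density with respect to `σ` of the `A`-valued form `∑_j (-1)^j e_j d\hat x_j`
(`j = 1, …, k`) on the boundary with its induced orientation.  There `d\hat x_j` has density
`(-1)^(j-1) ν_j`.  With the index `j : Fin k` standing for `j + 1` this is the sum below. -/
noncomputable def surfaceForm (e : Fin k → A) (ν : (Fin k → ℝ) → Fin k → ℝ)
    (x : Fin k → ℝ) : A :=
  ∑ j : Fin k, ((-1 : ℝ) ^ ((j : ℕ) + 1) * ((-1 : ℝ) ^ (j : ℕ) * ν x j)) • e j

/-- The kernel `G` gives a Cauchy integral formula for the family `e`: for every open `U`, every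
`f` left analytic on `U`, every compact `M ⊆ U` with boundary data `σ`, `ν`, and every interior
point `x₀` of `M`, `f x₀` is the integral over the boundary of
`G(x, x₀) (∑ (-1)^j e_j d\hat x_j) f(x)`, and that integral converges absolutely. -/
def GivesCauchyFormula (e : Fin k → A) (G : (Fin k → ℝ) → (Fin k → ℝ) → A) : Prop :=
  ∀ (U : Set (Fin k → ℝ)) (f : (Fin k → ℝ) → A), IsOpen U → LeftAnalyticOn e f U →
    ∀ (M : Set (Fin k → ℝ)) (σ : Measure (Fin k → ℝ)) (ν : (Fin k → ℝ) → Fin k → ℝ),
      BoundaryData M σ ν → M ⊆ U → ∀ x₀ ∈ interior M,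
        Integrable (fun x => G x x₀ * surfaceForm e ν x * f x) σ ∧
          f x₀ = ∫ x, G x x₀ * surfaceForm e ν x * f x ∂σ

end Pool.Agent.Helper546Cauchy
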