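import Mathlib
import Pool.Agent.Helper546_cauchydefs
import Pool.Agent.Helper546_cauchy1

open MeasureTheory Set Complex Filter
open scoped Real Topology ContDiff

namespace Pool.Agent.Helper546Cauchy

lemma gauss_green_complex {k : ℕ} {M : Set (Fin k → ℝ)} {σ : Measure (Fin k → ℝ)}
    {ν : (Fin k → ℝ) → Fin k → ℝ} (hB : BoundaryData M σ ν) {h : (Fin k → ℝ) → ℂ}
    (hc : ContDiff ℝ 1 h) (hs : HasCompactSupport h) (j : Fin k) :
    Integrable (fun x => h x * (ν x j : ℂ)) σ ∧
    IntegrableOn (fun x => fderiv ℝ h x (Pi.single j 1)) M ∧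
    ∫ x in M, fderiv ℝ h x (Pi.single j 1) = ∫ x, h x * (ν x j : ℂ) ∂σ := by
  have : IsFiniteMeasure σ := ⟨hB.finite⟩
  have hint1 : Integrable (fun x => fderiv ℝ h x (Pi.single j 1)) (volume.restrict M) := by
    have h1 : Continuous fun x => fderiv ℝ h x (Pi.single j 1) :=
      (hc.continuous_fderiv (by norm_num)).clm_apply continuous_const
    have h2 : HasCompactSupport fun x => fderiv ℝ h x (Pi.single j 1) :=
      hs.fderiv_apply (𝕜 := ℝ) _
    exact (h1.integrable_of_hasCompactSupport h2).restrict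
  have hνm : Measurable fun x => (ν x j : ℂ) :=
    measurable_ofReal.comp ((measurable_pi_apply j).comp hB.measurable)
  have hint2 : Integrable (fun x => h x * (ν x j : ℂ)) σ := by
    refine (hc.continuous.integrable_of_hasCompactSupport hs).mul_bdd (c := 1)
      hνm.aestronglyMeasurable ?_
    exact Eventually.of_forall fun x => by simpa using hB.bounded x j
  refine ⟨hint2, hint1, ?_⟩
  have hfd : ∀ x, HasFDerivAt h (fderiv ℝ h x) x := fun x =>
    ((hc.differentiable (by norm_num)) x).hasFDerivAt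
  have hre : ∀ x v, fderiv ℝ (fun x => (h x).re) x v = (fderiv ℝ h x v).re := by
    intro x v
    have : HasFDerivAt (fun x => (h x).re) (reCLM.comp (fderiv ℝ h x)) x :=
      reCLM.hasFDerivAt.comp x (hfd x)
    rw [this.fderiv]
    rfl
  have him : ∀ x v, fderiv ℝ (fun x => (h x).im) x v = (fderiv ℝ h x v).im := by
    intro x v
    have : HasFDerivAt (fun x => (h x).im) (imCLM.comp (fderiv ℝ h x)) x :=
      imCLM.hasFDerivAt.comp x (hfd x)
    rw [this.fderiv]
    rfl
  have cre : ContDiff ℝ 1 fun x => (h x).re := reCLM.contDiff.comp hc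
  have cim : ContDiff ℝ 1 fun x => (h x).im := imCLM.contDiff.comp hc
  have sre : HasCompactSupport fun x => (h x).re := hs.comp_left (g := fun z : ℂ => z.re) (by simp)
  have sim : HasCompactSupport fun x => (h x).im := hs.comp_left (g := fun z : ℂ => z.im) (by simp)
  apply Complex.ext
  · have e1 : (∫ x in M, fderiv ℝ h x (Pi.single j 1)).re
        = ∫ x in M, (fderiv ℝ h x (Pi.single j 1)).re := (reCLM.integral_comp_comm hint1).symm
    have e2 : (∫ x, h x * (ν x j : ℂ) ∂σ).re = ∫ x, (h x * (ν x j : ℂ)).re ∂σ :=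
      (reCLM.integral_comp_comm hint2).symm
    rw [e1, e2]
    have := hB.divergence _ cre sre j
    simp_rw [hre] at this
    rw [this]
    simp
  · have e1 : (∫ x in M, fderiv ℝ h x (Pi.single j 1)).im
        = ∫ x in M, (fderiv ℝ h x (Pi.single j 1)).im := (imCLM.integral_comp_comm hint1).symm
    have e2 : (∫ x, h x * (ν x j : ℂ) ∂σ).im = ∫ x, (h x * (ν x j : ℂ)).im ∂σ :=
      (imCLM.integral_comp_comm hint2).symm
    rw [e1, e2]
    have := hB.divergence _ cim sim j
    simp_rw [him] at this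
    rw [this]
    simp

/-- The map `x ↦ x_1 + i x_2 / lam`. -/
noncomputable def Z (lam : ℝ) : (Fin 2 → ℝ) →L[ℝ] ℂ :=
  ofRealCLM.comp (ContinuousLinearMap.proj 0)
    + (I / lam) • ofRealCLM.comp (ContinuousLinearMap.proj 1)

/-- The map `z ↦ (re z, lam * im z)`. -/
noncomputable def Lam (lam : ℝ) : ℂ →L[ℝ] (Fin 2 → ℝ) :=
  ContinuousLinearMap.pi ![reCLM, lam • imCLM]

lemma Z_apply (lam : ℝ) (x : Fin 2 → ℝ) : Z lam x = x 0 + (I / lam) * x 1 := by
  simp [Z]

lemma Lam_apply (lam : ℝ) (z : ℂ) : Lam lam z = ![z.re, lam * z.im] := by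
  ext i
  fin_cases i <;> simp [Lam]

lemma Z_re {lam : ℝ} (x : Fin 2 → ℝ) : (Z lam x).re = x 0 := by
  rw [Z_apply]
  simp [Complex.div_re]

lemma Z_im {lam : ℝ} (hlam : lam ≠ 0) (x : Fin 2 → ℝ) : (Z lam x).im = x 1 / lam := by
  rw [Z_apply]
  have : (I / (lam : ℂ)) * (x 1 : ℂ) = ((x 1 / lam : ℝ) : ℂ) * I := by
    push_cast
    ring
  rw [this]
  simp

lemma Lam_Z {lam : ℝ} (hlam : lam ≠ 0) (x : Fin 2 → ℝ) : Lam lam (Z lam x) = x := by
  rw [Lam_apply, Z_re, Z_im hlam]
  ext i
  fin_cases i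
  · simp
  · simp
    field_simp

lemma Z_Lam {lam : ℝ} (hlam : lam ≠ 0) (z : ℂ) : Z lam (Lam lam z) = z := by
  apply Complex.ext
  · rw [Z_re, Lam_apply]
    simp
  · rw [Z_im hlam, Lam_apply]
    simp
    field_simp

lemma Z_ne_zero {lam : ℝ} (hlam : lam ≠ 0) {x : Fin 2 → ℝ} (hx : x ≠ 0) : Z lam x ≠ 0 := by
  intro h
  apply hx
  rw [← Lam_Z hlam x, h, map_zero]

lemma Z_single0 (lam : ℝ) : Z lam (Pi.single 0 1) = 1 := by
  rw [Z_apply]
  simp

lemma Z_single1 (lam : ℝ) : Z lam (Pi.single 1 1) = I / lam := by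
  rw [Z_apply]
  simp

lemma integral_Z {lam : ℝ} (hlam : 0 < lam) (g : (Fin 2 → ℝ) → ℂ) :
    ∫ x, g x = lam * ∫ z : ℂ, g (Lam lam z) := by
  have hdet : Matrix.det (Matrix.diagonal ![1, lam]) ≠ 0 := by
    simp [Matrix.det_diagonal, hlam.ne']
  have hdet' : Matrix.det (Matrix.diagonal ![1, lam]) = lam := by
    simp [Matrix.det_diagonal]
  have h1 := Real.smul_map_diagonal_volume_pi hdet
  rw [hdet', abs_of_pos hlam] at h1
  conv_lhs => rw [← h1]
  rw [integral_smul_measure, ENNReal.toReal_ofReal hlam.le]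
  have hinv : Function.Injective (Matrix.toLin' (Matrix.diagonal ![1, lam])) := by
    intro x y hxy
    have h0 := congrFun hxy 0
    have h1 := congrFun hxy 1
    simp [Matrix.toLin'_apply, Matrix.mulVec_diagonal, hlam.ne'] at h0 h1
    ext i
    fin_cases i
    · exact h0
    · exact h1
  have hme : MeasurableEmbedding (Matrix.toLin' (Matrix.diagonal ![1, lam])) :=
    (LinearMap.continuous_on_pi _).measurableEmbedding hinv
  rw [hme.integral_map, ← Complex.volume_preserving_equiv_pi.integral_comp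
    Complex.measurableEquivPi.measurableEmbedding, Complex.real_smul]
  congr 2
  ext z
  congr 1
  rw [Lam_apply, Complex.measurableEquivPi_apply]
  ext i
  fin_cases i <;> simp [Matrix.toLin'_apply, Matrix.mulVec_diagonal]

end Pool.Agent.Helper546Cauchy
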