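import Mathlib
import Pool.Agent.Helper546_cauchydefs
import Pool.Agent.Helper546_cauchy1
import Pool.Agent.Helper546_cauchy2

open MeasureTheory Set Complex Filter
open scoped Real Topology ContDiff

namespace Pool.Agent.Helper546Cauchy

/-- The cut-off profile. -/
noncomputable def prof (R : ℝ) (t : ℝ) : ℝ := Real.smoothTransition (2 - 4 * t / R ^ 2)

lemma prof_contDiff (R : ℝ) : ContDiff ℝ 2 (prof R) := by
  unfold prof
  exact Real.smoothTransition.contDiff.comp (by fun_prop)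

lemma prof_one {R t : ℝ} (hR : 0 < R) (ht : t ≤ R ^ 2 / 4) : prof R t = 1 := by
  unfold prof
  apply Real.smoothTransition.one_of_one_le
  have : 4 * t / R ^ 2 ≤ 1 := by
    rw [div_le_one (by positivity)]
    linarith
  linarith

lemma prof_zero {R t : ℝ} (hR : 0 < R) (ht : R ^ 2 / 2 ≤ t) : prof R t = 0 := by
  unfold prof
  apply Real.smoothTransition.zero_of_nonpos
  have : 2 ≤ 4 * t / R ^ 2 := by
    rw [le_div_iff₀ (by positivity)]
    linarith
  linarith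

lemma deriv_prof_small {R t : ℝ} (hR : 0 < R) (ht : t < R ^ 2 / 4) : deriv (prof R) t = 0 := by
  have : prof R =ᶠ[𝓝 t] fun _ => 1 := by
    filter_upwards [gt_mem_nhds ht] with u hu
    exact prof_one hR (le_of_lt hu)
  rw [this.deriv_eq]
  simp

lemma deriv_prof_large {R t : ℝ} (hR : 0 < R) (ht : R ^ 2 / 2 < t) : deriv (prof R) t = 0 :=
  deriv_eq_zero_of_eventually_zero (fun _ h => prof_zero hR h) ht

/-- The operator `∂_1 + i lam ∂_2` on linear maps. -/
noncomputable def Dop (lam : ℝ) (L : (Fin 2 → ℝ) →L[ℝ] ℂ) : ℂ :=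
  L (Pi.single 0 1) + lam * I * L (Pi.single 1 1)

/-- The scalar kernel. -/
noncomputable def K (lam : ℝ) (x : Fin 2 → ℝ) : ℂ := (2 * π * lam : ℂ)⁻¹ * (Z lam x)⁻¹

lemma K_hasFDerivAt {lam : ℝ} (hlam : lam ≠ 0) {x x₀ : Fin 2 → ℝ} (hx : x ≠ x₀) :
    HasFDerivAt (fun y => K lam (y - x₀))
      (((2 * π * lam : ℂ)⁻¹ * (-((Z lam (x - x₀)) ^ 2)⁻¹)) • Z lam) x := by
  have hw : Z lam (x - x₀) ≠ 0 := Z_ne_zero hlam (sub_ne_zero.mpr hx)
  have h1 : HasFDerivAt (fun y => Z lam (y - x₀)) (Z lam) x := by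
    have h0 := ((Z lam).hasFDerivAt (x := x - x₀)).comp x ((hasFDerivAt_id x).sub_const x₀)
    rw [ContinuousLinearMap.comp_id] at h0
    exact h0
  have h2 := (hasDerivAt_inv hw).complexToReal_fderiv
  have h3 := h2.comp x h1
  have h4 := h3.const_mul ((2 * π * lam : ℂ)⁻¹)
  have e : ((2 * π * lam : ℂ)⁻¹ * (-((Z lam (x - x₀)) ^ 2)⁻¹)) • Z lam
      = ((2 * π * lam : ℂ)⁻¹) • ((-((Z lam (x - x₀)) ^ 2)⁻¹ • (1 : ℂ →L[ℝ] ℂ)).comp (Z lam)) := by
    ext v
    simp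
    ring
  rw [e]
  exact h4

lemma Dop_K {lam : ℝ} (hlam : lam ≠ 0) (c : ℂ) : Dop lam (c • Z lam) = 0 := by
  have hl : (lam : ℂ) ≠ 0 := by exact_mod_cast hlam
  simp only [Dop, ContinuousLinearMap.smul_apply, Z_single0, Z_single1, smul_eq_mul]
  have : (lam : ℂ) * I * (c * (I / lam)) = c * (I * I) := by
    field_simp
  rw [this, I_mul_I]
  ring

lemma chi_hasFDerivAt (lam R : ℝ) (x x₀ : Fin 2 → ℝ) :
    HasFDerivAt (fun y => ((1 - prof R (‖Z lam (y - x₀)‖ ^ 2) : ℝ) : ℂ))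
      (-(ofRealCLM.comp ((deriv (prof R) (‖Z lam (x - x₀)‖ ^ 2)) •
        (2 • (innerSL ℝ (Z lam (x - x₀))).comp (Z lam))))) x := by
  have h1 : HasFDerivAt (fun y => Z lam (y - x₀)) (Z lam) x := by
    have h0 := ((Z lam).hasFDerivAt (x := x - x₀)).comp x ((hasFDerivAt_id x).sub_const x₀)
    rw [ContinuousLinearMap.comp_id] at h0
    exact h0
  have h2 := h1.norm_sq
  have h3 : HasDerivAt (prof R) (deriv (prof R) (‖Z lam (x - x₀)‖ ^ 2)) (‖Z lam (x - x₀)‖ ^ 2) :=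
    (((prof_contDiff R).differentiable (by norm_num)) _).hasDerivAt
  have h4 := h3.comp_hasFDerivAt x h2
  have h5 := h4.const_sub 1
  have h6 := ofRealCLM.hasFDerivAt.comp x h5
  rw [← ContinuousLinearMap.comp_neg]
  exact h6

lemma Dop_chi {lam : ℝ} (hlam : lam ≠ 0) (R : ℝ) (x x₀ : Fin 2 → ℝ) :
    Dop lam (-(ofRealCLM.comp ((deriv (prof R) (‖Z lam (x - x₀)‖ ^ 2)) •
        (2 • (innerSL ℝ (Z lam (x - x₀))).comp (Z lam)))))
      = -(2 * deriv (prof R) (‖Z lam (x - x₀)‖ ^ 2) * Z lam (x - x₀)) := by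
  have hl : (lam : ℂ) ≠ 0 := by exact_mod_cast hlam
  set w := Z lam (x - x₀) with hw
  set d := deriv (prof R) (‖w‖ ^ 2) with hd
  have i0 : inner ℝ w (1 : ℂ) = w.re := by
    simp [Complex.inner]
  have i1 : inner ℝ w (I / lam : ℂ) = w.im / lam := by
    have : (I / lam : ℂ) = ((1 / lam : ℝ) : ℂ) * I := by
      push_cast
      field_simp
    rw [this]
    simp [Complex.inner]
    ring
  simp only [Dop, ContinuousLinearMap.neg_apply, ContinuousLinearMap.comp_apply,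
    ContinuousLinearMap.smul_apply, innerSL_apply_apply, Z_single0, Z_single1, i0, i1,
    ofRealCLM_apply, smul_eq_mul, nsmul_eq_mul]
  have hw' : w = w.re + w.im * I := (Complex.re_add_im w).symm
  conv_rhs => rw [hw']
  push_cast
  field_simp
  ring

lemma Dop_mul {lam : ℝ} {g h : (Fin 2 → ℝ) → ℂ} {g' h' : (Fin 2 → ℝ) →L[ℝ] ℂ} {x : Fin 2 → ℝ}
    (hg : HasFDerivAt g g' x) (hh : HasFDerivAt h h' x) :
    HasFDerivAt (fun y => g y * h y) (g x • h' + h x • g') x ∧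
      Dop lam (g x • h' + h x • g') = g x * Dop lam h' + h x * Dop lam g' := by
  refine ⟨hg.mul hh, ?_⟩
  simp only [Dop, ContinuousLinearMap.add_apply, ContinuousLinearMap.smul_apply, smul_eq_mul]
  ring

end Pool.Agent.Helper546Cauchy
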