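import Mathlib
import Pool.Agent.Helper546_cauchydefs
import Pool.Agent.Helper546_cauchy1
import Pool.Agent.Helper546_cauchy2
import Pool.Agent.Helper546_cauchy3

open MeasureTheory Set Complex Filter
open scoped Real Topology ContDiff Manifold

namespace Pool.Agent.Helper546Cauchy

lemma exists_cutoff {M U : Set (Fin 2 → ℝ)} (hM : IsCompact M) (hU : IsOpen U) (hMU : M ⊆ U) :
    ∃ (T : Set (Fin 2 → ℝ)) (η : (Fin 2 → ℝ) → ℝ), IsCompact T ∧ T ⊆ U ∧ ContDiff ℝ 1 η ∧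
      (∀ x ∉ T, η x = 0) ∧ ∀ x ∈ M, ∀ᶠ y in 𝓝 x, η y = 1 := by
  obtain ⟨T, hT, hMT, hTU⟩ := exists_compact_between hM hU hMU
  obtain ⟨η, h1, h0, -⟩ := exists_contMDiffMap_one_nhds_of_subset_interior
    (𝓘(ℝ, Fin 2 → ℝ)) (n := 1) hM.isClosed hMT
  refine ⟨T, η, hT, hTU, η.contMDiff.contDiff, h0, fun x hx => ?_⟩
  exact (eventually_nhdsSet_iff_forall.mp h1) x hx

lemma F_differentiableAt {lam : ℝ} (hlam : lam ≠ 0) {f : (Fin 2 → ℝ) → ℂ} {z : ℂ}
    (hf : DifferentiableAt ℝ f (Lam lam z) ∧ Dop lam (fderiv ℝ f (Lam lam z)) = 0) :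
    DifferentiableAt ℂ (fun w => f (Lam lam w)) z := by
  have h1 : HasFDerivAt (fun w => f (Lam lam w)) ((fderiv ℝ f (Lam lam z)).comp (Lam lam)) z :=
    hf.1.hasFDerivAt.comp z (Lam lam).hasFDerivAt
  rw [differentiableAt_complex_iff_differentiableAt_real]
  refine ⟨h1.differentiableAt, ?_⟩
  rw [h1.fderiv]
  have hI : Lam lam I = lam • Pi.single 1 1 := by
    rw [Lam_apply]
    ext i
    fin_cases i <;> simp
  have hone : Lam lam 1 = Pi.single 0 1 := by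
    rw [Lam_apply]
    ext i
    fin_cases i <;> simp
  simp only [ContinuousLinearMap.comp_apply, hI, hone, map_smul]
  have h2 : fderiv ℝ f (Lam lam z) (Pi.single 0 1)
      = -(lam * I * fderiv ℝ f (Lam lam z) (Pi.single 1 1)) := by
    have := hf.2
    unfold Dop at this
    linear_combination this
  rw [h2, smul_eq_mul, Complex.real_smul]
  linear_combination ((lam : ℂ) * fderiv ℝ f (Lam lam z) (Pi.single 1 1)) * I_mul_I

lemma f_contDiffAt {lam : ℝ} (hlam : lam ≠ 0) {f : (Fin 2 → ℝ) → ℂ} {U : Set (Fin 2 → ℝ)}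
    (hU : IsOpen U) (hf : ∀ x ∈ U, DifferentiableAt ℝ f x ∧ Dop lam (fderiv ℝ f x) = 0)
    {x : Fin 2 → ℝ} (hx : x ∈ U) : ContDiffAt ℝ 1 f x := by
  have hV : IsOpen (Lam lam ⁻¹' U) := hU.preimage (Lam lam).continuous
  have hd : DifferentiableOn ℂ (fun w => f (Lam lam w)) (Lam lam ⁻¹' U) := fun z hz =>
    (F_differentiableAt hlam (hf _ hz)).differentiableWithinAt
  have hz : Z lam x ∈ Lam lam ⁻¹' U := by
    simpa [Lam_Z hlam] using hx
  have h1 : ContDiffAt ℂ 1 (fun w => f (Lam lam w)) (Z lam x) :=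
    (hd.analyticAt (hV.mem_nhds hz)).contDiffAt
  have h2 : ContDiffAt ℝ 1 (fun w => f (Lam lam w)) (Z lam x) := h1.restrict_scalars ℝ
  have h3 : ContDiffAt ℝ 1 (fun y => f (Lam lam (Z lam y))) x :=
    ContDiffAt.comp x (g := fun w => f (Lam lam w)) (f := fun y => Z lam y) h2
      (Z lam).contDiff.contDiffAt
  simpa only [Lam_Z hlam] using h3

/-- The function to which the divergence theorem is applied. -/
noncomputable def hfun (lam R : ℝ) (η : (Fin 2 → ℝ) → ℝ) (f : (Fin 2 → ℝ) → ℂ)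
    (x₀ x : Fin 2 → ℝ) : ℂ :=
  (η x : ℂ) * (((1 - prof R (‖Z lam (x - x₀)‖ ^ 2) : ℝ) : ℂ) * (K lam (x - x₀) * f x))

lemma hfun_near {lam R : ℝ} (hR : 0 < R) (η : (Fin 2 → ℝ) → ℝ) (f : (Fin 2 → ℝ) → ℂ)
    (x₀ : Fin 2 → ℝ) : ∀ᶠ x in 𝓝 x₀, hfun lam R η f x₀ x = 0 := by
  have hc : Continuous fun x => ‖Z lam (x - x₀)‖ ^ 2 := by fun_prop
  have h0 : ‖Z lam (x₀ - x₀)‖ ^ 2 < R ^ 2 / 4 := by
    simp
    positivity
  filter_upwards [(hc.tendsto x₀).eventually (gt_mem_nhds h0)] with x hx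
  rw [hfun, prof_one hR hx.le]
  simp

lemma hfun_contDiff {lam R : ℝ} (hlam : lam ≠ 0) (hR : 0 < R) {f : (Fin 2 → ℝ) → ℂ}
    {U T : Set (Fin 2 → ℝ)} {η : (Fin 2 → ℝ) → ℝ} (hfc : ∀ x ∈ U, ContDiffAt ℝ 1 f x)
    (hT : IsCompact T) (hTU : T ⊆ U) (hη : ContDiff ℝ 1 η) (hη0 : ∀ x ∉ T, η x = 0)
    (x₀ : Fin 2 → ℝ) : ContDiff ℝ 1 (hfun lam R η f x₀) := by
  rw [contDiff_iff_contDiffAt]
  intro x
  by_cases hxT : x ∈ T
  · by_cases hxx : x = x₀
    · subst hxx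
      exact contDiffAt_const.congr_of_eventuallyEq (hfun_near hR η f x)
    · have hw : Z lam (x - x₀) ≠ 0 := Z_ne_zero hlam (sub_ne_zero.mpr hxx)
      have hZ : ContDiff ℝ 1 fun y => Z lam (y - x₀) :=
        (Z lam).contDiff.comp (contDiff_id.sub contDiff_const)
      have h1 : ContDiffAt ℝ 1 (fun y => (η y : ℂ)) x :=
        (ofRealCLM.contDiff.comp hη).contDiffAt
      have h2 : ContDiffAt ℝ 1 (fun y => ((1 - prof R (‖Z lam (y - x₀)‖ ^ 2) : ℝ) : ℂ)) x := by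
        have h3 : ContDiff ℝ 1 fun y => ‖Z lam (y - x₀)‖ ^ 2 := hZ.norm_sq ℝ
        have h4 : ContDiff ℝ 1 fun y => prof R (‖Z lam (y - x₀)‖ ^ 2) :=
          ((prof_contDiff R).of_le (by norm_num)).comp h3
        exact (ofRealCLM.contDiff.comp (contDiff_const.sub h4)).contDiffAt
      have h3 : ContDiffAt ℝ 1 (fun y => K lam (y - x₀)) x := by
        unfold K
        exact contDiffAt_const.mul (hZ.contDiffAt.inv hw)
      exact h1.mul (h2.mul (h3.mul (hfc x (hTU hxT))))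
  · have : ∀ᶠ y in 𝓝 x, hfun lam R η f x₀ y = 0 := by
      filter_upwards [hT.isClosed.isOpen_compl.mem_nhds hxT] with y hy
      rw [hfun, hη0 y hy]
      simp
    exact contDiffAt_const.congr_of_eventuallyEq this

lemma hfun_compact {lam R : ℝ} {f : (Fin 2 → ℝ) → ℂ} {T : Set (Fin 2 → ℝ)}
    {η : (Fin 2 → ℝ) → ℝ} (hT : IsCompact T) (hη0 : ∀ x ∉ T, η x = 0)
    (x₀ : Fin 2 → ℝ) : HasCompactSupport (hfun lam R η f x₀) := by
  refine HasCompactSupport.intro hT fun x hx => ?_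
  rw [hfun, hη0 x hx]
  simp

lemma Dop_hfun {lam R : ℝ} (hlam : 0 < lam) (hR : 0 < R) {f : (Fin 2 → ℝ) → ℂ}
    {η : (Fin 2 → ℝ) → ℝ} {x₀ x : Fin 2 → ℝ}
    (hf : DifferentiableAt ℝ f x ∧ Dop lam (fderiv ℝ f x) = 0)
    (hη : ∀ᶠ y in 𝓝 x, η y = 1) :
    Dop lam (fderiv ℝ (hfun lam R η f x₀) x)
      = -(((deriv (prof R) (‖Z lam (x - x₀)‖ ^ 2) : ℝ) : ℂ) * f x / (π * lam)) := by
  by_cases hxx : x = x₀
  · subst hxx
    have h1 : hfun lam R η f x =ᶠ[𝓝 x] fun _ => 0 := hfun_near hR η f x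
    rw [h1.fderiv_eq]
    have h2 : deriv (prof R) (‖Z lam (x - x)‖ ^ 2) = 0 := by
      apply deriv_prof_small hR
      simp
      positivity
    rw [h2]
    simp [Dop]
  · have h1 : hfun lam R η f x₀ =ᶠ[𝓝 x] fun y =>
        ((1 - prof R (‖Z lam (y - x₀)‖ ^ 2) : ℝ) : ℂ) * (K lam (y - x₀) * f y) := by
      filter_upwards [hη] with y hy
      rw [hfun, hy]
      simp
    rw [h1.fderiv_eq]
    have hw : Z lam (x - x₀) ≠ 0 := Z_ne_zero hlam.ne' (sub_ne_zero.mpr hxx)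
    have hK := K_hasFDerivAt hlam.ne' hxx
    obtain ⟨h2, h3⟩ := Dop_mul (lam := lam) hK hf.1.hasFDerivAt
    have hχ := chi_hasFDerivAt lam R x x₀
    obtain ⟨h4, h5⟩ := Dop_mul (lam := lam) hχ h2
    rw [h4.fderiv, h5, h3, Dop_K hlam.ne', hf.2, Dop_chi hlam.ne']
    have hl : (lam : ℂ) ≠ 0 := by exact_mod_cast hlam.ne'
    have hpi : (π : ℂ) ≠ 0 := by exact_mod_cast Real.pi_ne_zero
    unfold K
    field_simp
    ring

theorem core {lam : ℝ} (hlam : 0 < lam) {f : (Fin 2 → ℝ) → ℂ} {U : Set (Fin 2 → ℝ)}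
    (hU : IsOpen U) (hf : ∀ x ∈ U, DifferentiableAt ℝ f x ∧ Dop lam (fderiv ℝ f x) = 0)
    {M : Set (Fin 2 → ℝ)} {σ : Measure (Fin 2 → ℝ)} {ν : (Fin 2 → ℝ) → Fin 2 → ℝ}
    (hB : BoundaryData M σ ν) (hMU : M ⊆ U) {x₀ : Fin 2 → ℝ} (hx₀ : x₀ ∈ interior M) :
    Integrable (fun x => K lam (x - x₀) * f x * (ν x 0 + lam * I * ν x 1)) σ ∧
      ∫ x, K lam (x - x₀) * f x * (ν x 0 + lam * I * ν x 1) ∂σ = f x₀ := by
  have hl : (lam : ℂ) ≠ 0 := by exact_mod_cast hlam.ne'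
  have hpi : (π : ℂ) ≠ 0 := by exact_mod_cast Real.pi_ne_zero
  set z₀ := Z lam x₀ with hz₀
  -- the radius
  have hop : IsOpen (Lam lam ⁻¹' interior M) := isOpen_interior.preimage (Lam lam).continuous
  have hmem : z₀ ∈ Lam lam ⁻¹' interior M := by
    simpa [hz₀, Lam_Z hlam.ne'] using hx₀
  obtain ⟨R, hR, hball⟩ := Metric.nhds_basis_closedBall.mem_iff.mp (hop.mem_nhds hmem)
  have hout : ∀ x ∉ interior M, R < ‖Z lam (x - x₀)‖ := by
    intro x hx
    by_contra hcon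
    apply hx
    have : Z lam x ∈ Metric.closedBall z₀ R := by
      rw [mem_closedBall_iff_norm, hz₀, ← map_sub]
      exact not_lt.mp hcon
    have := hball this
    simpa [Lam_Z hlam.ne'] using this
  have hout2 : ∀ x ∉ interior M, R ^ 2 / 2 < ‖Z lam (x - x₀)‖ ^ 2 := by
    intro x hx
    have h1 := hout x hx
    have h2 : R ^ 2 < ‖Z lam (x - x₀)‖ ^ 2 := by
      gcongr
    have h3 : 0 < R ^ 2 := by positivity
    linarith
  -- the cut-off
  obtain ⟨T, η, hT, hTU, hη, hη0, hη1⟩ := exists_cutoff hB.compact hU hMU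
  set h := hfun lam R η f x₀ with hh
  have hhc : ContDiff ℝ 1 h :=
    hfun_contDiff hlam.ne' hR (fun x hx => f_contDiffAt hlam.ne' hU hf hx) hT hTU hη hη0 x₀
  have hhs : HasCompactSupport h := hfun_compact hT hη0 x₀
  obtain ⟨i0, j0, k0⟩ := gauss_green_complex hB hhc hhs 0
  obtain ⟨i1, j1, k1⟩ := gauss_green_complex hB hhc hhs 1
  have hMm : MeasurableSet M := hB.compact.isClosed.measurableSet
  -- boundary side
  have hae : (fun x => K lam (x - x₀) * f x * (ν x 0 + lam * I * ν x 1)) =ᵐ[σ]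
      fun x => h x * (ν x 0 : ℂ) + lam * I * (h x * (ν x 1 : ℂ)) := by
    have : ∀ᵐ x ∂σ, x ∈ frontier M := by
      rw [ae_iff]
      exact hB.carried
    filter_upwards [this] with x hx
    have hxM : x ∈ M := hB.compact.isClosed.frontier_subset hx
    have hxi : x ∉ interior M := hx.2
    have e1 : η x = 1 := (hη1 x hxM).self_of_nhds
    have e2 : prof R (‖Z lam (x - x₀)‖ ^ 2) = 0 := prof_zero hR (hout2 x hxi).le
    have : h x = K lam (x - x₀) * f x := by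
      rw [hh, hfun, e1, e2]
      simp
    rw [this]
    ring
  have hint : Integrable (fun x => h x * (ν x 0 : ℂ) + lam * I * (h x * (ν x 1 : ℂ))) σ :=
    i0.add (i1.const_mul _)
  refine ⟨hint.congr hae.symm, ?_⟩
  rw [integral_congr_ae hae, integral_add i0 (i1.const_mul _), integral_const_mul, ← k0, ← k1,
    ← integral_const_mul, ← integral_add j0 (j1.const_mul _)]
  -- volume side
  have hvol : ∫ x in M, (fderiv ℝ h x (Pi.single 0 1) + lam * I * fderiv ℝ h x (Pi.single 1 1))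
      = ∫ x in M, -(((deriv (prof R) (‖Z lam (x - x₀)‖ ^ 2) : ℝ) : ℂ) * f x / (π * lam)) := by
    refine setIntegral_congr_fun hMm fun x hx => ?_
    exact Dop_hfun hlam hR (hf x (hMU hx)) (hη1 x hx)
  rw [hvol, setIntegral_eq_integral_of_forall_compl_eq_zero, integral_Z hlam]
  · have hshift := integral_add_left_eq_self (μ := (volume : Measure ℂ)) (fun z : ℂ =>
      -(((deriv (prof R) (‖Z lam (Lam lam z - x₀)‖ ^ 2) : ℝ) : ℂ) * f (Lam lam z) / (π * lam))) z₀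
    rw [← hshift]
    have hZL : ∀ w : ℂ, Z lam (Lam lam (z₀ + w) - x₀) = w := by
      intro w
      rw [map_sub, Z_Lam hlam.ne', hz₀]
      ring
    simp_rw [hZL]
    have hF : ∀ z ∈ Metric.closedBall z₀ R, DifferentiableAt ℂ (fun w => f (Lam lam w)) z :=
      fun z hz => F_differentiableAt hlam.ne' (hf _ (hMU (interior_subset (hball hz))))
    have hpc := polar_core (F := fun w => f (Lam lam w)) (z₀ := z₀) (s := prof R) (b := R ^ 2 / 2)
      hR (by nlinarith [sq_nonneg R, pow_pos hR 2]) (prof_contDiff R)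
      (prof_one hR (by positivity)) (fun t ht => prof_zero hR ht) hF
    have e : ∀ w : ℂ, -(((deriv (prof R) (‖w‖ ^ 2) : ℝ) : ℂ) * f (Lam lam (z₀ + w)) / (π * lam))
        = -(1 / (π * lam)) * (((deriv (prof R) (‖w‖ ^ 2) : ℝ) : ℂ) * f (Lam lam (z₀ + w))) := by
      intro w
      ring
    simp_rw [e]
    rw [integral_const_mul, hpc, hz₀, Lam_Z hlam.ne']
    field_simp
  · intro x hx
    have hxi : x ∉ interior M := fun hc => hx (interior_subset hc)
    rw [deriv_prof_large hR (hout2 x hxi)]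
    simp

end Pool.Agent.Helper546Cauchy
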