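import Mathlib

/-!
Scalar inequalities behind the case `n = 2` of the weak majorization between the Taylor
coefficients of `exp (t (A + B))` and `exp (t A) * exp (t B)`.
-/

namespace Pool.Agent.Helper546Taylor

/-- The pair `((τ + u)^k + (τ - u)^k, u * ((τ + u)^k - (τ - u)^k))` as polynomials in `y = u^2`. -/
noncomputable def eo (τ y : ℝ) : ℕ → ℝ × ℝ
  | 0 => (2, 0)
  | k + 1 => (τ * (eo τ y k).1 + (eo τ y k).2, τ * (eo τ y k).2 + y * (eo τ y k).1)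

lemma eo_eq (τ u : ℝ) (k : ℕ) :
    eo τ (u ^ 2) k = ((τ + u) ^ k + (τ - u) ^ k, u * ((τ + u) ^ k - (τ - u) ^ k)) := by
  induction k with
  | zero => ext <;> simp [eo]; norm_num
  | succ k ih =>
    simp only [eo, ih]
    ext
    · simp only
      ring
    · simp only
      ring

lemma eo_nonneg {τ y : ℝ} (hτ : 0 ≤ τ) (hy : 0 ≤ y) (k : ℕ) :
    0 ≤ (eo τ y k).1 ∧ 0 ≤ (eo τ y k).2 := by
  induction k with
  | zero => simp [eo]
  | succ k ih =>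
    obtain ⟨h1, h2⟩ := ih
    simp only [eo]
    constructor <;> positivity

lemma eo_mono {τ y z : ℝ} (hτ : 0 ≤ τ) (hy : 0 ≤ y) (hyz : y ≤ z) (k : ℕ) :
    (eo τ y k).1 ≤ (eo τ z k).1 ∧ (eo τ y k).2 ≤ (eo τ z k).2 := by
  induction k with
  | zero => simp [eo]
  | succ k ih =>
    obtain ⟨h1, h2⟩ := ih
    obtain ⟨p1, p2⟩ := eo_nonneg hτ hy k
    simp only [eo]
    constructor
    · have := mul_le_mul_of_nonneg_left h1 hτ
      linarith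
    · have a1 := mul_le_mul_of_nonneg_left h2 hτ
      have a2 := mul_le_mul hyz h1 p1 (hy.trans hyz)
      linarith

lemma eo_convex {τ y z x : ℝ} (hτ : 0 ≤ τ) (hy : 0 ≤ y) (hz : 0 ≤ z) (hx : 0 ≤ x) (hx1 : x ≤ 1)
    (k : ℕ) :
    (eo τ (x * y + (1 - x) * z) k).1 ≤ x * (eo τ y k).1 + (1 - x) * (eo τ z k).1 ∧
      (eo τ (x * y + (1 - x) * z) k).2 ≤ x * (eo τ y k).2 + (1 - x) * (eo τ z k).2 := by
  have hx' : 0 ≤ 1 - x := by linarith
  have hw : 0 ≤ x * y + (1 - x) * z := by positivity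
  induction k with
  | zero => simp [eo]; linarith
  | succ k ih =>
    obtain ⟨h1, h2⟩ := ih
    simp only [eo]
    constructor
    · have := mul_le_mul_of_nonneg_left h1 hτ
      nlinarith
    · have a1 := mul_le_mul_of_nonneg_left h2 hτ
      have a2 := mul_le_mul_of_nonneg_left h1 hw
      have a3 : 0 ≤ (y - z) * ((eo τ y k).1 - (eo τ z k).1) := by
        rcases le_total y z with h | h
        · have := (eo_mono hτ hy h k).1
          exact mul_nonneg_of_nonpos_of_nonpos (by linarith) (by linarith)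
        · have := (eo_mono hτ hz h k).1
          exact mul_nonneg (by linarith) (by linarith)
      have a4 : 0 ≤ x * (1 - x) * ((y - z) * ((eo τ y k).1 - (eo τ z k).1)) := by positivity
      nlinarith

variable {τ m l h x : ℝ}

lemma even_part (hτ : 0 ≤ τ) (hx : 0 ≤ x) (hx1 : x ≤ 1) (hh : h ^ 2 = x * m ^ 2 + (1 - x) * l ^ 2)
    (k : ℕ) :
    (τ + h) ^ k + (τ - h) ^ k ≤
      x * ((τ + m) ^ k + (τ - m) ^ k) + (1 - x) * ((τ + l) ^ k + (τ - l) ^ k) := by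
  have := (eo_convex hτ (sq_nonneg m) (sq_nonneg l) hx hx1 k).1
  rwa [← hh, eo_eq, eo_eq, eo_eq] at this

lemma odd_part (hτ : 0 ≤ τ) (hx : 0 ≤ x) (hx1 : x ≤ 1) (hh : h ^ 2 = x * m ^ 2 + (1 - x) * l ^ 2)
    (k : ℕ) :
    h * ((τ + h) ^ k - (τ - h) ^ k) ≤
      x * (m * ((τ + m) ^ k - (τ - m) ^ k)) + (1 - x) * (l * ((τ + l) ^ k - (τ - l) ^ k)) := by
  have := (eo_convex hτ (sq_nonneg m) (sq_nonneg l) hx hx1 k).2
  rwa [← hh, eo_eq, eo_eq, eo_eq] at this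

lemma even_nonneg (hτ : 0 ≤ τ) (k : ℕ) : 0 ≤ (τ + h) ^ k + (τ - h) ^ k := by
  have := (eo_nonneg hτ (sq_nonneg h) k).1
  rwa [eo_eq] at this

lemma odd_nonneg (hτ : 0 ≤ τ) (hh0 : 0 ≤ h) (k : ℕ) : 0 ≤ (τ + h) ^ k - (τ - h) ^ k := by
  rcases hh0.eq_or_lt with h0 | h0
  · simp [← h0]
  · have := (eo_nonneg hτ (sq_nonneg h) k).2
    rw [eo_eq] at this
    exact nonneg_of_mul_nonneg_right (by linarith) h0

lemma even_sq (hτ : 0 ≤ τ) (hx : 0 ≤ x) (hx1 : x ≤ 1) (hh : h ^ 2 = x * m ^ 2 + (1 - x) * l ^ 2)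
    (k : ℕ) :
    ((τ + h) ^ k + (τ - h) ^ k) ^ 2 ≤
      x * ((τ + m) ^ k + (τ - m) ^ k) ^ 2 + (1 - x) * ((τ + l) ^ k + (τ - l) ^ k) ^ 2 := by
  have h1 := even_part hτ hx hx1 hh k
  have h0 := even_nonneg (h := h) hτ k
  have h2 := pow_le_pow_left₀ h0 h1 2
  refine h2.trans ?_
  have : 0 ≤ x * (1 - x) * (((τ + m) ^ k + (τ - m) ^ k) - ((τ + l) ^ k + (τ - l) ^ k)) ^ 2 := by
    have : 0 ≤ 1 - x := by linarith
    positivity
  nlinarith

lemma odd_sq (hτ : 0 ≤ τ) (hx : 0 ≤ x) (hx1 : x ≤ 1) (hh0 : 0 ≤ h)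
    (hh : h ^ 2 = x * m ^ 2 + (1 - x) * l ^ 2) (k : ℕ) :
    ((τ + h) ^ k - (τ - h) ^ k) ^ 2 ≤
      x * ((τ + m) ^ k - (τ - m) ^ k) ^ 2 + (1 - x) * ((τ + l) ^ k - (τ - l) ^ k) ^ 2 := by
  have hx' : 0 ≤ 1 - x := by linarith
  rcases hh0.eq_or_lt with h0 | h0
  · simp only [← h0, add_zero, sub_zero, sub_self]
    rw [zero_pow two_ne_zero]
    positivity
  · have h1 := odd_part hτ hx hx1 hh k
    have h2 := odd_nonneg hτ hh0 k
    have h3 : 0 ≤ h * ((τ + h) ^ k - (τ - h) ^ k) := by positivity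
    have h4 := pow_le_pow_left₀ h3 h1 2
    set a := (τ + m) ^ k - (τ - m) ^ k
    set b := (τ + l) ^ k - (τ - l) ^ k
    set f := (τ + h) ^ k - (τ - h) ^ k
    have h5 : (x * (m * a) + (1 - x) * (l * b)) ^ 2 ≤ h ^ 2 * (x * a ^ 2 + (1 - x) * b ^ 2) := by
      rw [hh]
      have : 0 ≤ x * (1 - x) * (m * b - l * a) ^ 2 := by positivity
      nlinarith
    have h6 : h ^ 2 * f ^ 2 ≤ h ^ 2 * (x * a ^ 2 + (1 - x) * b ^ 2) := by
      rw [← mul_pow]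
      exact h4.trans h5
    exact le_of_mul_le_mul_left h6 (by positivity)

/-- The core scalar statement: `s₀ ≥ s₁ ≥ 0` are the singular values. -/
lemma core_nonneg {s₀ s₁ : ℝ} (hτ : 0 ≤ τ) (hx : 0 ≤ x) (hx1 : x ≤ 1) (hh0 : 0 ≤ h)
    (hh : h ^ 2 = x * m ^ 2 + (1 - x) * l ^ 2) (k : ℕ) (hs1 : 0 ≤ s₁) (hs : s₁ ≤ s₀)
    (hT : s₀ ^ 2 + s₁ ^ 2 = x * ((τ + m) ^ (2 * k) + (τ - m) ^ (2 * k)) +
      (1 - x) * ((τ + l) ^ (2 * k) + (τ - l) ^ (2 * k)))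
    (hD : s₀ ^ 2 * s₁ ^ 2 = (x * ((τ + m) ^ k * (τ - m) ^ k) +
      (1 - x) * ((τ + l) ^ k * (τ - l) ^ k)) ^ 2) :
    (τ + h) ^ k ≤ s₀ ∧ (τ + h) ^ k + (τ - h) ^ k ≤ s₀ + s₁ := by
  have e1 := even_sq hτ hx hx1 hh k
  have e2 := odd_sq hτ hx hx1 hh0 hh k
  have n1 := even_nonneg (h := h) hτ k
  have n2 := odd_nonneg hτ hh0 k
  simp only [mul_comm 2 k, pow_mul] at hT
  set a := (τ + m) ^ k
  set b := (τ - m) ^ k
  set c := (τ + l) ^ k
  set d := (τ - l) ^ k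
  set p := (τ + h) ^ k
  set q := (τ - h) ^ k
  set D := x * (a * b) + (1 - x) * (c * d)
  have hs0 : 0 ≤ s₀ := hs1.trans hs
  have hprod : s₀ * s₁ = |D| := by
    rw [← mul_pow] at hD
    rw [← abs_of_nonneg (mul_nonneg hs0 hs1)]
    exact (sq_eq_sq_iff_abs_eq_abs _ _).mp hD
  have t1 : x * (a + b) ^ 2 + (1 - x) * (c + d) ^ 2 = s₀ ^ 2 + s₁ ^ 2 + 2 * D := by
    rw [hT]; simp only [D]; ring
  have t2 : x * (a - b) ^ 2 + (1 - x) * (c - d) ^ 2 = s₀ ^ 2 + s₁ ^ 2 - 2 * D := by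
    rw [hT]; simp only [D]; ring
  rw [t1] at e1
  rw [t2] at e2
  have hsub : 0 ≤ s₀ - s₁ := by linarith
  have hadd : 0 ≤ s₀ + s₁ := by linarith
  rcases le_total 0 D with hD0 | hD0
  · rw [abs_of_nonneg hD0] at hprod
    have f1 : p + q ≤ s₀ + s₁ := by
      apply le_of_sq_le_sq _ hadd
      nlinarith
    have f2 : p - q ≤ s₀ - s₁ := by
      apply le_of_sq_le_sq _ hsub
      nlinarith
    exact ⟨by linarith, f1⟩
  · rw [abs_of_nonpos hD0] at hprod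
    have f1 : p + q ≤ s₀ - s₁ := by
      apply le_of_sq_le_sq _ hsub
      nlinarith
    have f2 : p - q ≤ s₀ + s₁ := by
      apply le_of_sq_le_sq _ hadd
      nlinarith
    exact ⟨by linarith, by linarith⟩

end Pool.Agent.Helper546Taylor
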