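import Mathlib

/-!
Weak majorization between the Taylor coefficients of `exp (t (A + B))` and
`exp (t A) * exp (t B)`: definitions.
-/

open Matrix

namespace Pool.Agent.Helper546Taylor

/-- `Q_k = ∑ C(k,i) A^i B^(k-i)`, the `k`-th derivative at `0` of `exp (t A) * exp (t B)`. -/
noncomputable def Q {n : ℕ} (A B : Matrix (Fin n) (Fin n) ℂ) (k : ℕ) : Matrix (Fin n) (Fin n) ℂ :=
  ∑ i ∈ Finset.range (k + 1), (k.choose i : ℂ) • (A ^ i * B ^ (k - i))

/-- The singular values of `Y` in nonincreasing order: the square roots of the eigenvalues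
(`eigenvalues₀` lists them in nonincreasing order) of `Yᴴ * Y`. -/
noncomputable def sing {n : ℕ} (Y : Matrix (Fin n) (Fin n) ℂ) :
    Fin (Fintype.card (Fin n)) → ℝ :=
  fun j => √((isHermitian_conjTranspose_mul_self Y).eigenvalues₀ j)

/-- The sum of the first `m` entries of a list. -/
def topSum {N : ℕ} (v : Fin N → ℝ) (m : ℕ) : ℝ :=
  ∑ j ∈ Finset.univ.filter (fun j : Fin N => (j : ℕ) < m), v j

end Pool.Agent.Helper546Taylor
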