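import Mathlib
import Pool.Agent.Helper546_taylordefs
import Pool.Agent.Helper546_taylor

open Matrix Unitary

namespace Pool.Agent.Helper546Taylor

section general

variable {n : ℕ}

lemma herm_pow {A : Matrix (Fin n) (Fin n) ℂ} (hA : A.IsHermitian) (k : ℕ) :
    A ^ k = (hA.eigenvectorUnitary : Matrix (Fin n) (Fin n) ℂ) *
      diagonal (fun i => ((hA.eigenvalues i : ℂ)) ^ k) *
      (hA.eigenvectorUnitary : Matrix (Fin n) (Fin n) ℂ)ᴴ := by
  conv_lhs => rw [hA.spectral_theorem]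
  rw [← map_pow, conjStarAlgAut_apply, diagonal_pow]
  congr 2

lemma unitary_mul_conj (U : unitaryGroup (Fin n) ℂ) :
    (U : Matrix (Fin n) (Fin n) ℂ) * (U : Matrix (Fin n) (Fin n) ℂ)ᴴ = 1 :=
  Unitary.coe_mul_star_self U

lemma unitary_conj_mul (U : unitaryGroup (Fin n) ℂ) :
    (U : Matrix (Fin n) (Fin n) ℂ)ᴴ * (U : Matrix (Fin n) (Fin n) ℂ) = 1 :=
  Unitary.coe_star_mul_self U

lemma trace_pow_herm {A : Matrix (Fin n) (Fin n) ℂ} (hA : A.IsHermitian) (k : ℕ) :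
    (A ^ k).trace = ∑ i, ((hA.eigenvalues i : ℂ)) ^ k := by
  rw [herm_pow hA k, trace_mul_comm, ← mul_assoc, unitary_conj_mul, one_mul, trace_diagonal]

/-- The matrix of `Q_k` with respect to the eigenbases of `A` and `B`. -/
noncomputable def Mk (a b : Fin n → ℝ) (W : Matrix (Fin n) (Fin n) ℂ) (k : ℕ) :
    Matrix (Fin n) (Fin n) ℂ := Matrix.of fun i j => ((a i : ℂ) + b j) ^ k * W i j

lemma Q_eq {A B : Matrix (Fin n) (Fin n) ℂ} (hA : A.IsHermitian) (hB : B.IsHermitian) (k : ℕ) :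
    Q A B k = (hA.eigenvectorUnitary : Matrix (Fin n) (Fin n) ℂ) *
      Mk hA.eigenvalues hB.eigenvalues ((hA.eigenvectorUnitary : Matrix (Fin n) (Fin n) ℂ)ᴴ *
        (hB.eigenvectorUnitary : Matrix (Fin n) (Fin n) ℂ)) k *
      (hB.eigenvectorUnitary : Matrix (Fin n) (Fin n) ℂ)ᴴ := by
  set U := (hA.eigenvectorUnitary : Matrix (Fin n) (Fin n) ℂ)
  set V := (hB.eigenvectorUnitary : Matrix (Fin n) (Fin n) ℂ)
  have h1 : Mk hA.eigenvalues hB.eigenvalues (Uᴴ * V) k = ∑ i ∈ Finset.range (k + 1),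
      (k.choose i : ℂ) • (diagonal (fun j => ((hA.eigenvalues j : ℂ)) ^ i) * (Uᴴ * V) *
        diagonal (fun j => ((hB.eigenvalues j : ℂ)) ^ (k - i))) := by
    ext i j
    rw [Mk, of_apply, add_pow, Finset.sum_mul, Matrix.sum_apply]
    refine Finset.sum_congr rfl fun l _ => ?_
    rw [Matrix.smul_apply, mul_diagonal, diagonal_mul, smul_eq_mul]
    ring
  rw [h1, Q, Matrix.mul_sum, Matrix.sum_mul]
  refine Finset.sum_congr rfl fun i _ => ?_
  rw [herm_pow hA i, herm_pow hB (k - i)]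
  simp only [mul_smul_comm, smul_mul_assoc]
  congr 1
  simp only [mul_assoc, U, V]

lemma trace_Q {A B : Matrix (Fin n) (Fin n) ℂ} (hA : A.IsHermitian) (hB : B.IsHermitian) (k : ℕ) :
    (Q A B k).trace = ∑ i, ∑ j, ((hA.eigenvalues i : ℂ) + hB.eigenvalues j) ^ k *
      Complex.normSq (((hA.eigenvectorUnitary : Matrix (Fin n) (Fin n) ℂ)ᴴ *
        (hB.eigenvectorUnitary : Matrix (Fin n) (Fin n) ℂ)) i j) := by
  set U := (hA.eigenvectorUnitary : Matrix (Fin n) (Fin n) ℂ)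
  set V := (hB.eigenvectorUnitary : Matrix (Fin n) (Fin n) ℂ)
  have h1 : (Q A B k).trace = (Mk hA.eigenvalues hB.eigenvalues (Uᴴ * V) k * (Uᴴ * V)ᴴ).trace := by
    rw [Q_eq hA hB k, mul_assoc, trace_mul_comm, mul_assoc, conjTranspose_mul,
      conjTranspose_conjTranspose]
  rw [h1, trace]
  refine Finset.sum_congr rfl fun i _ => ?_
  rw [diag_apply, mul_apply]
  refine Finset.sum_congr rfl fun j _ => ?_
  rw [conjTranspose_apply, Mk, of_apply, mul_assoc, ← Complex.mul_conj]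
  rfl

lemma QhQ {A B : Matrix (Fin n) (Fin n) ℂ} (hA : A.IsHermitian) (hB : B.IsHermitian) (k : ℕ) :
    (Q A B k)ᴴ * Q A B k = (hB.eigenvectorUnitary : Matrix (Fin n) (Fin n) ℂ) *
      ((Mk hA.eigenvalues hB.eigenvalues ((hA.eigenvectorUnitary : Matrix (Fin n) (Fin n) ℂ)ᴴ *
        (hB.eigenvectorUnitary : Matrix (Fin n) (Fin n) ℂ)) k)ᴴ *
      Mk hA.eigenvalues hB.eigenvalues ((hA.eigenvectorUnitary : Matrix (Fin n) (Fin n) ℂ)ᴴ *
        (hB.eigenvectorUnitary : Matrix (Fin n) (Fin n) ℂ)) k) *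
      (hB.eigenvectorUnitary : Matrix (Fin n) (Fin n) ℂ)ᴴ := by
  rw [Q_eq hA hB k]
  set M := Mk hA.eigenvalues hB.eigenvalues ((hA.eigenvectorUnitary : Matrix (Fin n) (Fin n) ℂ)ᴴ *
        (hB.eigenvectorUnitary : Matrix (Fin n) (Fin n) ℂ)) k
  have h := unitary_conj_mul hA.eigenvectorUnitary
  set U := (hA.eigenvectorUnitary : Matrix (Fin n) (Fin n) ℂ)
  set V := (hB.eigenvectorUnitary : Matrix (Fin n) (Fin n) ℂ)
  calc (U * M * Vᴴ)ᴴ * (U * M * Vᴴ) = V * (Mᴴ * (Uᴴ * U) * M) * Vᴴ := by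
        simp only [conjTranspose_mul, conjTranspose_conjTranspose, mul_assoc]
    _ = V * (Mᴴ * M) * Vᴴ := by rw [h, mul_one]

lemma trace_QhQ {A B : Matrix (Fin n) (Fin n) ℂ} (hA : A.IsHermitian) (hB : B.IsHermitian)
    (k : ℕ) :
    ((Q A B k)ᴴ * Q A B k).trace =
      ((Mk hA.eigenvalues hB.eigenvalues ((hA.eigenvectorUnitary : Matrix (Fin n) (Fin n) ℂ)ᴴ *
        (hB.eigenvectorUnitary : Matrix (Fin n) (Fin n) ℂ)) k)ᴴ *
      Mk hA.eigenvalues hB.eigenvalues ((hA.eigenvectorUnitary : Matrix (Fin n) (Fin n) ℂ)ᴴ *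
        (hB.eigenvectorUnitary : Matrix (Fin n) (Fin n) ℂ)) k).trace := by
  rw [QhQ hA hB k, trace_mul_comm, ← mul_assoc, unitary_conj_mul, one_mul]

lemma det_QhQ {A B : Matrix (Fin n) (Fin n) ℂ} (hA : A.IsHermitian) (hB : B.IsHermitian)
    (k : ℕ) :
    ((Q A B k)ᴴ * Q A B k).det =
      ((Mk hA.eigenvalues hB.eigenvalues ((hA.eigenvectorUnitary : Matrix (Fin n) (Fin n) ℂ)ᴴ *
        (hB.eigenvectorUnitary : Matrix (Fin n) (Fin n) ℂ)) k)ᴴ *
      Mk hA.eigenvalues hB.eigenvalues ((hA.eigenvectorUnitary : Matrix (Fin n) (Fin n) ℂ)ᴴ *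
        (hB.eigenvectorUnitary : Matrix (Fin n) (Fin n) ℂ)) k).det := by
  rw [QhQ hA hB k, det_mul_comm, ← mul_assoc, unitary_conj_mul, one_mul]

lemma sum_eig₀ {X : Matrix (Fin n) (Fin n) ℂ} (hX : X.IsHermitian) :
    ((∑ j, hX.eigenvalues₀ j : ℝ) : ℂ) = X.trace := by
  rw [hX.trace_eq_sum_eigenvalues]
  push_cast
  exact (Equiv.sum_comp (Fintype.equivOfCardEq (Fintype.card_fin _)).symm
    (fun j => ((hX.eigenvalues₀ j : ℝ) : ℂ))).symm

lemma prod_eig₀ {X : Matrix (Fin n) (Fin n) ℂ} (hX : X.IsHermitian) :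
    ((∏ j, hX.eigenvalues₀ j : ℝ) : ℂ) = X.det := by
  rw [hX.det_eq_prod_eigenvalues]
  push_cast
  exact (Equiv.prod_comp (Fintype.equivOfCardEq (Fintype.card_fin _)).symm
    (fun j => ((hX.eigenvalues₀ j : ℝ) : ℂ))).symm

end general

lemma two_list {N : ℕ} (hN : N = 2) (v : Fin N → ℝ) (hv : Antitone v) :
    ∃ v0 v1 : ℝ, v1 ≤ v0 ∧ ∑ j, v j = v0 + v1 ∧ ∏ j, v j = v0 * v1 ∧
      topSum v 0 = 0 ∧ topSum v 1 = v0 ∧ (∀ m, 2 ≤ m → topSum v m = v0 + v1) ∧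
      (∀ f : ℝ → ℝ, topSum (fun j => f (v j)) 0 = 0 ∧ topSum (fun j => f (v j)) 1 = f v0 ∧
        ∀ m, 2 ≤ m → topSum (fun j => f (v j)) m = f v0 + f v1) := by
  subst hN
  have key : ∀ w : Fin 2 → ℝ, topSum w 0 = 0 ∧ topSum w 1 = w 0 ∧
      ∀ m, 2 ≤ m → topSum w m = w 0 + w 1 := by
    intro w
    refine ⟨by simp [topSum], ?_, ?_⟩
    · have : Finset.univ.filter (fun j : Fin 2 => (j : ℕ) < 1) = {0} := by decide
      rw [topSum, this, Finset.sum_singleton]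
    · intro m hm
      have : Finset.univ.filter (fun j : Fin 2 => (j : ℕ) < m) = Finset.univ := by
        ext j
        simp only [Finset.mem_filter, Finset.mem_univ, true_and, iff_true]
        have := j.isLt
        omega
      rw [topSum, this, Fin.sum_univ_two]
  refine ⟨v 0, v 1, hv (by decide), by rw [Fin.sum_univ_two], by rw [Fin.prod_univ_two],
    (key v).1, (key v).2.1, (key v).2.2, fun f => ⟨(key _).1, (key _).2.1, (key _).2.2⟩⟩

end Pool.Agent.Helper546Taylor
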