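import Mathlib
import Pool.Agent.Helper546_taylor2

open Matrix Unitary ComplexConjugate

namespace Pool.Agent.Helper546Taylor

/-- Data of a `2 × 2` unitary. -/
lemma unitary_two {W : Matrix (Fin 2) (Fin 2) ℂ} (h1 : W * Wᴴ = 1) (h2 : Wᴴ * W = 1) :
    ∃ x : ℝ, 0 ≤ x ∧ x ≤ 1 ∧ W 0 0 * conj (W 0 0) = (x : ℂ) ∧ W 0 1 * conj (W 0 1) = 1 - (x : ℂ) ∧
      W 1 0 * conj (W 1 0) = 1 - (x : ℂ) ∧ W 1 1 * conj (W 1 1) = (x : ℂ) ∧
      W 0 0 * conj (W 1 0) + W 0 1 * conj (W 1 1) = 0 ∧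
      conj (W 0 0) * W 1 0 + conj (W 0 1) * W 1 1 = 0 := by
  have a00 := congrFun (congrFun h1 0) 0
  have a11 := congrFun (congrFun h1 1) 1
  have a01 := congrFun (congrFun h1 0) 1
  have a10 := congrFun (congrFun h1 1) 0
  have b00 := congrFun (congrFun h2 0) 0
  simp only [mul_apply, Fin.sum_univ_two, conjTranspose_apply, one_apply_eq, RCLike.star_def,
    one_apply_ne (show (0 : Fin 2) ≠ 1 by decide), one_apply_ne (show (1 : Fin 2) ≠ 0 by decide)]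
    at a00 a11 a01 a10 b00
  have hx : W 0 0 * conj (W 0 0) = ((Complex.normSq (W 0 0) : ℝ) : ℂ) := Complex.mul_conj _
  have hy : W 0 1 * conj (W 0 1) = ((Complex.normSq (W 0 1) : ℝ) : ℂ) := Complex.mul_conj _
  refine ⟨Complex.normSq (W 0 0), Complex.normSq_nonneg _, ?_, hx, ?_, ?_, ?_, a01, ?_⟩
  · have h : ((Complex.normSq (W 0 0) + Complex.normSq (W 0 1) : ℝ) : ℂ) = ((1 : ℝ) : ℂ) := by
      push_cast
      rw [← hx, ← hy]
      exact a00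
    have h' := Complex.ofReal_injective h
    have := Complex.normSq_nonneg (W 0 1)
    linarith
  · linear_combination a00 - hx
  · linear_combination b00 - hx
  · linear_combination a11 - b00 + hx
  · linear_combination a10

variable {a b : Fin 2 → ℝ} {W : Matrix (Fin 2) (Fin 2) ℂ} {x : ℝ}

lemma trace_M (k : ℕ) (h00 : W 0 0 * conj (W 0 0) = (x : ℂ))
    (h01 : W 0 1 * conj (W 0 1) = 1 - (x : ℂ)) (h10 : W 1 0 * conj (W 1 0) = 1 - (x : ℂ))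
    (h11 : W 1 1 * conj (W 1 1) = (x : ℂ)) :
    ((Mk a b W k)ᴴ * Mk a b W k).trace =
      ((x * ((a 0 + b 0) ^ (2 * k) + (a 1 + b 1) ^ (2 * k)) +
        (1 - x) * ((a 0 + b 1) ^ (2 * k) + (a 1 + b 0) ^ (2 * k)) : ℝ) : ℂ) := by
  simp only [trace, diag_apply, mul_apply, Fin.sum_univ_two, conjTranspose_apply, Mk, of_apply,
    RCLike.star_def, map_mul, map_pow, map_add, Complex.conj_ofReal]
  push_cast
  simp only [mul_comm 2 k, pow_mul]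
  linear_combination (((a 0 : ℂ) + b 0) ^ k) ^ 2 * h00 + (((a 1 : ℂ) + b 1) ^ k) ^ 2 * h11 +
    (((a 0 : ℂ) + b 1) ^ k) ^ 2 * h01 + (((a 1 : ℂ) + b 0) ^ k) ^ 2 * h10

lemma det_M (k : ℕ) (h00 : W 0 0 * conj (W 0 0) = (x : ℂ))
    (h01 : W 0 1 * conj (W 0 1) = 1 - (x : ℂ)) (h10 : W 1 0 * conj (W 1 0) = 1 - (x : ℂ))
    (h11 : W 1 1 * conj (W 1 1) = (x : ℂ))
    (ho : W 0 0 * conj (W 1 0) + W 0 1 * conj (W 1 1) = 0)
    (ho' : conj (W 0 0) * W 1 0 + conj (W 0 1) * W 1 1 = 0) :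
    ((Mk a b W k)ᴴ * Mk a b W k).det =
      (((x * ((a 0 + b 0) ^ k * (a 1 + b 1) ^ k) +
        (1 - x) * ((a 0 + b 1) ^ k * (a 1 + b 0) ^ k)) ^ 2 : ℝ) : ℂ) := by
  rw [det_mul, det_conjTranspose, det_fin_two]
  simp only [Mk, of_apply, RCLike.star_def, map_sub, map_mul, map_pow, map_add,
    Complex.conj_ofReal]
  push_cast
  set r : ℂ := ((a 0 : ℂ) + b 0) ^ k * ((a 1 : ℂ) + b 1) ^ k with hr
  set s : ℂ := ((a 0 : ℂ) + b 1) ^ k * ((a 1 : ℂ) + b 0) ^ k with hs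
  have e1 : ((a 0 : ℂ) + b 0) ^ k * conj (W 0 0) * (((a 1 : ℂ) + b 1) ^ k * conj (W 1 1)) -
      ((a 0 : ℂ) + b 1) ^ k * conj (W 0 1) * (((a 1 : ℂ) + b 0) ^ k * conj (W 1 0)) =
      r * (conj (W 0 0) * conj (W 1 1)) - s * (conj (W 0 1) * conj (W 1 0)) := by
    rw [hr, hs]; ring
  have e2 : ((a 0 : ℂ) + b 0) ^ k * W 0 0 * (((a 1 : ℂ) + b 1) ^ k * W 1 1) -
      ((a 0 : ℂ) + b 1) ^ k * W 0 1 * (((a 1 : ℂ) + b 0) ^ k * W 1 0) =
      r * (W 0 0 * W 1 1) - s * (W 0 1 * W 1 0) := by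
    rw [hr, hs]; ring
  rw [e1, e2]
  generalize hu00 : conj (W 0 0) = v00 at *
  generalize hu01 : conj (W 0 1) = v01 at *
  generalize hu10 : conj (W 1 0) = v10 at *
  generalize hu11 : conj (W 1 1) = v11 at *
  linear_combination r ^ 2 * (h00 * (W 1 1 * v11) + x * h11) +
    s ^ 2 * (h01 * (W 1 0 * v10) + (1 - x) * h10) -
    r * s * (ho * (W 1 1 * v01) - (h01 * (W 1 1 * v11) + (1 - x) * h11) +
      ho' * (v11 * W 0 1) - (h01 * (W 1 1 * v11) + (1 - x) * h11))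

end Pool.Agent.Helper546Taylor
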