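import Mathlib
import Pool.Agent.Helper546_taylor

namespace Pool.Agent.Helper546Taylor

lemma powers_le {p q τ h : ℝ} (k : ℕ) (h0 : 0 ≤ h)
    (hpq : (p = τ + h ∧ q = τ - h) ∨ (p = τ - h ∧ q = τ + h)) :
    p ^ k ≤ (|τ| + h) ^ k ∧ q ^ k ≤ (|τ| + h) ^ k ∧
      p ^ k + q ^ k ≤ (|τ| + h) ^ k + (|τ| - h) ^ k := by
  have habs : ∀ r : ℝ, |r| ≤ |τ| + h → r ^ k ≤ (|τ| + h) ^ k := fun r hr =>
    (le_abs_self _).trans ((abs_pow r k).le.trans (pow_le_pow_left₀ (abs_nonneg r) hr k))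
  have b1 : |τ + h| ≤ |τ| + h := (abs_add_le _ _).trans (by rw [abs_of_nonneg h0])
  have b2 : |τ - h| ≤ |τ| + h := (abs_sub _ _).trans (by rw [abs_of_nonneg h0])
  have hsum : (τ + h) ^ k + (τ - h) ^ k ≤ (|τ| + h) ^ k + (|τ| - h) ^ k := by
    rcases le_total 0 τ with h1 | h1
    · rw [abs_of_nonneg h1]
    · rw [abs_of_nonpos h1]
      have hn := even_nonneg (h := h) (τ := -τ) (by linarith) k
      have e1 : (τ + h) ^ k = (-1) ^ k * (-τ - h) ^ k := by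
        rw [← mul_pow]; congr 1; ring
      have e2 : (τ - h) ^ k = (-1) ^ k * (-τ + h) ^ k := by
        rw [← mul_pow]; congr 1; ring
      rw [e1, e2]
      rcases neg_one_pow_eq_or ℝ k with h2 | h2 <;> rw [h2] <;> linarith
  rcases hpq with ⟨rfl, rfl⟩ | ⟨rfl, rfl⟩
  · exact ⟨habs _ b1, habs _ b2, hsum⟩
  · exact ⟨habs _ b2, habs _ b1, by linarith⟩

/-- The scalar form of the result. -/
lemma scalar_main {x p q a0 a1 b0 b1 v0 v1 g0 g1 : ℝ} (k : ℕ) (hx0 : 0 ≤ x) (hx1 : x ≤ 1)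
    (htr1 : p + q = a0 + a1 + b0 + b1)
    (htr2 : p ^ 2 + q ^ 2 = x * ((a0 + b0) ^ 2 + (a1 + b1) ^ 2) +
      (1 - x) * ((a0 + b1) ^ 2 + (a1 + b0) ^ 2))
    (hvs : v0 + v1 = p ^ k + q ^ k) (hvp : v0 * v1 = p ^ k * q ^ k)
    (hg0 : 0 ≤ g0) (hg1 : 0 ≤ g1) (hg : g1 ≤ g0)
    (hT : g0 + g1 = x * ((a0 + b0) ^ (2 * k) + (a1 + b1) ^ (2 * k)) +
      (1 - x) * ((a0 + b1) ^ (2 * k) + (a1 + b0) ^ (2 * k)))
    (hD : g0 * g1 = (x * ((a0 + b0) ^ k * (a1 + b1) ^ k) +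
      (1 - x) * ((a0 + b1) ^ k * (a1 + b0) ^ k)) ^ 2) :
    v0 ≤ √g0 ∧ v0 + v1 ≤ √g0 + √g1 := by
  obtain ⟨τ, hτ⟩ : ∃ τ, τ = (p + q) / 2 := ⟨_, rfl⟩
  obtain ⟨h, hh⟩ : ∃ h, h = |p - q| / 2 := ⟨_, rfl⟩
  obtain ⟨m, hm⟩ : ∃ m, m = ((a0 + b0) - (a1 + b1)) / 2 := ⟨_, rfl⟩
  obtain ⟨l, hl⟩ : ∃ l, l = ((a0 + b1) - (a1 + b0)) / 2 := ⟨_, rfl⟩
  have h0 : 0 ≤ h := by rw [hh]; positivity
  have c1 : a0 + b0 = τ + m := by rw [hτ, hm, htr1]; ring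
  have c2 : a1 + b1 = τ - m := by rw [hτ, hm, htr1]; ring
  have c3 : a0 + b1 = τ + l := by rw [hτ, hl, htr1]; ring
  have c4 : a1 + b0 = τ - l := by rw [hτ, hl, htr1]; ring
  rw [c1, c2, c3, c4] at htr2 hT hD
  have hsq : h ^ 2 = x * m ^ 2 + (1 - x) * l ^ 2 := by
    rw [hh, div_pow, sq_abs]
    have hp : p + q = 2 * τ := by rw [hτ]; ring
    linear_combination htr2 / 2 - (p + q + 2 * τ) / 4 * hp
  have hpq : (p = τ + h ∧ q = τ - h) ∨ (p = τ - h ∧ q = τ + h) := by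
    rcases le_total 0 (p - q) with h1 | h1
    · left
      rw [abs_of_nonneg h1] at hh
      constructor <;> rw [hτ, hh] <;> ring
    · right
      rw [abs_of_nonpos h1] at hh
      constructor <;> rw [hτ, hh] <;> ring
  obtain ⟨q1, q2, q3⟩ := powers_le k h0 hpq
  -- pass to `|τ|`
  have f1 : ∀ u : ℝ, (τ + u) ^ (2 * k) + (τ - u) ^ (2 * k) =
      (|τ| + u) ^ (2 * k) + (|τ| - u) ^ (2 * k) := by
    intro u
    rcases le_total 0 τ with h1 | h1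
    · rw [abs_of_nonneg h1]
    · rw [abs_of_nonpos h1]
      have e1 : (τ + u) ^ (2 * k) = (-τ - u) ^ (2 * k) := by
        rw [← (even_two_mul k).neg_pow (τ + u)]; congr 1; ring
      have e2 : (τ - u) ^ (2 * k) = (-τ + u) ^ (2 * k) := by
        rw [← (even_two_mul k).neg_pow (τ - u)]; congr 1; ring
      rw [e1, e2, add_comm]
  have f2 : ∀ u : ℝ, (τ + u) ^ k * (τ - u) ^ k = (|τ| + u) ^ k * (|τ| - u) ^ k := by
    intro u
    rw [← mul_pow, ← mul_pow]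
    congr 1
    have := sq_abs τ
    linear_combination -this
  rw [f1 m, f1 l] at hT
  rw [f2 m, f2 l] at hD
  have hs : √g1 ≤ √g0 := Real.sqrt_le_sqrt hg
  obtain ⟨r1, r2⟩ := core_nonneg (abs_nonneg τ) hx0 hx1 h0 hsq k (Real.sqrt_nonneg g1) hs
    (by rw [Real.sq_sqrt hg0, Real.sq_sqrt hg1]; exact hT)
    (by rw [Real.sq_sqrt hg0, Real.sq_sqrt hg1]; exact hD)
  refine ⟨?_, by linarith⟩
  have hroot : (v0 - p ^ k) * (v0 - q ^ k) = 0 := by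
    linear_combination v0 * hvs - hvp
  rcases mul_eq_zero.mp hroot with h1 | h1
  · linarith
  · linarith

end Pool.Agent.Helper546Taylor
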