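import Pool.Agent.Helper665_SP.Chord

/-! Nearly radial points in terms of short chords. -/

set_option autoImplicit false
open Complex Set Topology Metric Filter
open Pool.Agent Pool.Agent.Helper665_SP

namespace Pool.Agent.Helper588_NR

/-- a continuous function that does not increase just to the right of every point does not increase -/
theorem anti_of_right {P : ℝ → ℝ} {a b : ℝ} (hab : a ≤ b) (hP : ContinuousOn P (Icc a b))
    (h : ∀ x, a ≤ x → x < b → ∀ᶠ y in 𝓝[>] x, P y ≤ P x) : P b ≤ P a := by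
  have cl : IsClosed ({x | P x ≤ P a} ∩ Icc a b) := by
    rw [inter_comm]
    exact hP.preimage_isClosed_of_isClosed isClosed_Icc isClosed_Iic
  refine cl.Icc_subset_of_forall_exists_gt (show P a ≤ P a from le_rfl) (fun x hx y hy => ?_)
    (right_mem_Icc.2 hab)
  obtain ⟨z, h1, h2⟩ := ((h x hx.2.1 hx.2.2).and (Ioc_mem_nhdsGT hy)).exists
  exact ⟨z, h1.trans hx.1, h2⟩

/-- one branch -/
theorem exArm {K : ℝ → ℂ} (hK : Continuous K) (K0 : K 0 = 0) {ρ : ℝ} (hρ : 0 < ρ)
    (h0 : ∀ x, 0 < x → x < ρ → K x ≠ 0) (hne : ∀ x y, 0 < x → x < y → y < ρ → K x ≠ K y)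
    (h : ∀ x, 0 < x → x < ρ → ∀ᶠ y in 𝓝[>] x,
      100 * |((starRingEnd ℂ) (K x) * (K y - K x)).im| ≤
        ((starRingEnd ℂ) (K x) * (K y - K x)).re) :
    ∃ R > 0, ∃ α : ℝ → ℝ, Slow α R ∧ ∀ t, 0 < t → t < ρ / 2 → ‖K t‖ < R ∧ K t = zz α ‖K t‖ := by
  have loc0 : ∀ x, 0 < x → x < ρ → ∀ᶠ y in 𝓝[>] x, ‖K x‖ < ‖K y‖ := by
    intro x hx hxρ
    filter_upwards [h x hx hxρ, Ioo_mem_nhdsGT hxρ] with y k1 hy
    have k0 := h0 x hx hxρ
    have k2 := abs_nonneg ((starRingEnd ℂ) (K x) * (K y - K x)).im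
    have k3 : 0 < ((starRingEnd ℂ) (K x) * (K y - K x)).re := by
      refine lt_of_le_of_ne (by linarith) fun k4 => ?_
      have k5 : ((starRingEnd ℂ) (K x) * (K y - K x)).im = 0 := abs_eq_zero.1 (by linarith)
      exact (mul_ne_zero ((map_ne_zero _).2 k0) (sub_ne_zero.2 (hne x y hx hy.1 hy.2).symm))
        (Complex.ext k4.symm k5)
    rw [(re_conj_sub _ _).1] at k3
    have k6 : ((starRingEnd ℂ) (K x) * K y).re ≤ ‖K x‖ * ‖K y‖ := by
      refine (Complex.re_le_norm _).trans ?_
      rw [norm_mul, RCLike.norm_conj]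
    have k7 : 0 < ‖K x‖ := norm_pos_iff.2 k0
    nlinarith
  have mono : ∀ x y, 0 < x → x < y → y < ρ → ‖K x‖ < ‖K y‖ := by
    intro x y hx hxy hy
    obtain ⟨z, hz1, hz2⟩ := ((loc0 x hx (by linarith)).and (Ioo_mem_nhdsGT hxy)).exists
    have := anti_of_right (P := fun t => -‖K t‖) (a := z) (b := y) hz2.2.le (by fun_prop)
      (fun t h1 h2 => (loc0 t (by linarith [hz2.1]) (by linarith)).mono fun _ h => by linarith)
    linarith
  obtain ⟨d, hd⟩ : ∃ d, d = ρ / 2 := ⟨_, rfl⟩
  have hd0 : 0 < d := by rw [hd]; positivity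
  have hdρ : d < ρ := by rw [hd]; linarith
  obtain ⟨k, hk, hke⟩ := H777R2.exists_log (X := ℝ) (g := fun u => K (d * Real.exp (-(max u 0))))
    (by fun_prop) (fun u => h0 _ (by positivity) (by
      have : Real.exp (-(max u 0)) ≤ 1 := Real.exp_le_one_iff.2 (by
        have := le_max_right u 0
        linarith)
      nlinarith))
  obtain ⟨φ, hφ⟩ : ∃ φ : ℝ → ℝ, ∀ t, φ t = (k (Real.log (d / t))).im := ⟨_, fun _ => rfl⟩
  have hpol : ∀ t, 0 < t → t ≤ d → K t = ‖K t‖ * exp (φ t * I) := by
    intro t ht htd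
    have h1 : 1 ≤ d / t := by rwa [le_div_iff₀ ht, one_mul]
    have h2 : 0 ≤ Real.log (d / t) := Real.log_nonneg h1
    have e := hke (Real.log (d / t))
    rw [max_eq_left h2, Real.exp_neg, Real.exp_log (by positivity), inv_div,
      mul_div_cancel₀ _ hd0.ne'] at e
    have e2 : ‖K t‖ = Real.exp (k (Real.log (d / t))).re := by rw [← e, Complex.norm_exp]
    rw [e2, ofReal_exp, hφ, ← Complex.exp_add, re_add_im, e]
  have hφc : ContinuousOn φ (Ioc 0 d) := by
    have : φ = fun t => (k (Real.log (d / t))).im := funext hφ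
    rw [this]
    have h1 : ContinuousOn (fun t : ℝ => Real.log (d / t)) (Ioc 0 d) := by
      refine ContinuousOn.log (continuousOn_const.div continuousOn_id fun t ht => ht.1.ne') ?_
      intro t ht
      have := ht.1
      positivity
    exact Complex.continuous_im.comp_continuousOn (hk.comp_continuousOn h1)
  -- the angle is a slow function of the radius
  have slow : ∀ x y, 0 < x → x < y → y ≤ d → 100 * (‖K x‖ * |φ y - φ x|) ≤ ‖K y‖ - ‖K x‖ := by
    intro x y hx hxy hy
    have hsub : Icc x y ⊆ Ioc 0 d := fun z hz => ⟨by linarith [hz.1], hz.2.trans hy⟩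
    have hKx : 0 < ‖K x‖ := norm_pos_iff.2 (h0 x hx (by linarith))
    have loc : ∀ a, x ≤ a → a < y → ∀ᶠ b in 𝓝[>] a,
        100 * (‖K x‖ * |φ b - φ a|) ≤ ‖K b‖ - ‖K a‖ := by
      intro a ha hay
      have hcont : ContinuousAt φ a :=
        hφc.continuousAt (mem_of_superset (Ioo_mem_nhds (show (0:ℝ) < a by linarith)
          (show a < d by linarith)) Ioo_subset_Ioc_self)
      have hev : ∀ᶠ b in 𝓝[>] a, |φ b - φ a| < 1 := by
        refine nhdsWithin_le_nhds ?_
        have := Metric.continuousAt_iff'.1 hcont 1 one_pos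
        filter_upwards [this] with b hb
        rwa [Real.dist_eq] at hb
      filter_upwards [hev, h a (by linarith) (by linarith), Ioo_mem_nhdsGT hay] with b hD h1 hb'
      have hab : a < b := hb'.1
      have hb : b ≤ y := hb'.2.le
      · obtain ⟨Δ, hΔ⟩ : ∃ Δ, Δ = φ b - φ a := ⟨_, rfl⟩
        rw [← hΔ] at hD ⊢
        have hKa : 0 < ‖K a‖ := norm_pos_iff.2 (h0 a (by linarith) (by linarith))
        have hKb : 0 < ‖K b‖ := norm_pos_iff.2 (h0 b (by linarith) (by linarith))
        have hax : ‖K x‖ ≤ ‖K a‖ := by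
          rcases ha.eq_or_lt with h | h
          · rw [h]
          · exact (mono x a hx h (by linarith)).le
        have e : (starRingEnd ℂ) (K a) * K b = ((‖K a‖ * ‖K b‖ : ℝ) : ℂ) * exp (Δ * I) := by
          conv_lhs => rw [hpol a (by linarith) (by linarith), hpol b (by linarith) (by linarith)]
          rw [map_mul, conj_ofReal, ← exp_conj, map_mul, conj_ofReal, conj_I, hΔ]
          rw [show (‖K a‖ : ℂ) * exp (φ a * -I) * (‖K b‖ * exp (φ b * I)) =
            ‖K a‖ * ‖K b‖ * (exp (φ a * -I) * exp (φ b * I)) by ring, ← Complex.exp_add]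
          push_cast
          congr 2
          ring
        have e1 : ((starRingEnd ℂ) (K a) * K b).re = ‖K a‖ * ‖K b‖ * Real.cos Δ := by
          rw [e, re_ofReal_mul, exp_ofReal_mul_I_re]
        have e2 : ((starRingEnd ℂ) (K a) * K b).im = ‖K a‖ * ‖K b‖ * Real.sin Δ := by
          rw [e, im_ofReal_mul, exp_ofReal_mul_I_im]
        rw [(re_conj_sub _ _).1, (re_conj_sub _ _).2, e1, e2, abs_mul,
          abs_of_pos (by positivity)] at h1
        have h2 : 100 * (‖K b‖ * |Real.sin Δ|) ≤ ‖K b‖ * Real.cos Δ - ‖K a‖ := by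
          have : ‖K a‖ * (100 * (‖K b‖ * |Real.sin Δ|)) ≤
              ‖K a‖ * (‖K b‖ * Real.cos Δ - ‖K a‖) := by
            calc _ = 100 * (‖K a‖ * ‖K b‖ * |Real.sin Δ|) := by ring
              _ ≤ _ := h1
              _ = _ := by ring
          exact le_of_mul_le_mul_left this hKa
        have hpi : (1:ℝ) < Real.pi / 2 := by linarith [Real.pi_gt_three]
        have hD' := abs_lt.1 hD
        have hcos : 0 < Real.cos Δ := Real.cos_pos_of_mem_Ioo ⟨by linarith, by linarith⟩
        have hsin : |Δ| * Real.cos Δ ≤ |Real.sin Δ| := by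
          rcases le_total 0 Δ with h3 | h3
          · have h4 := Real.le_tan h3 (by linarith)
            rw [Real.tan_eq_sin_div_cos, le_div_iff₀ hcos] at h4
            rw [abs_of_nonneg h3]
            exact h4.trans (le_abs_self _)
          · have h4 := Real.le_tan (x := -Δ) (by linarith) (by linarith)
            rw [Real.tan_eq_sin_div_cos, Real.cos_neg, le_div_iff₀ hcos, Real.sin_neg] at h4
            rw [abs_of_nonpos h3]
            exact h4.trans (neg_le_abs _)
        have hcos1 := Real.cos_le_one Δ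
        have h5 : 100 * (‖K b‖ * (|Δ| * Real.cos Δ)) ≤ ‖K b‖ * Real.cos Δ - ‖K a‖ :=
          le_trans (by nlinarith [mul_le_mul_of_nonneg_left hsin hKb.le]) h2
        have h6 : ‖K a‖ ≤ ‖K b‖ * Real.cos Δ := by
          have : 0 ≤ 100 * (‖K b‖ * (|Δ| * Real.cos Δ)) := by positivity
          linarith
        have h7 : ‖K x‖ * |Δ| ≤ ‖K b‖ * (|Δ| * Real.cos Δ) := by
          calc ‖K x‖ * |Δ| ≤ ‖K b‖ * Real.cos Δ * |Δ| :=
                mul_le_mul_of_nonneg_right (hax.trans h6) (abs_nonneg _)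
            _ = _ := by ring
        have h8 : ‖K b‖ * Real.cos Δ ≤ ‖K b‖ := mul_le_of_le_one_right hKb.le hcos1
        linarith
    have m1 := anti_of_right (P := fun t => 100 * (‖K x‖ * φ t) - ‖K t‖) (a := x) (b := y) hxy.le
      ((continuousOn_const.mul (continuousOn_const.mul (hφc.mono hsub))).sub
        (by fun_prop : Continuous fun t => ‖K t‖).continuousOn)
      (fun a ha hab => (loc a ha hab).mono fun b this => by
        have h2 := le_abs_self (φ b - φ a)
        have h3 := mul_le_mul_of_nonneg_left h2 hKx.le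
        nlinarith)
    have m2 := anti_of_right (P := fun t => -(100 * (‖K x‖ * φ t)) - ‖K t‖) (a := x) (b := y)
      hxy.le ((continuousOn_const.mul (continuousOn_const.mul (hφc.mono hsub))).neg.sub
        (by fun_prop : Continuous fun t => ‖K t‖).continuousOn)
      (fun a ha hab => (loc a ha hab).mono fun b this => by
        have h2 := neg_le_abs (φ b - φ a)
        have h3 := mul_le_mul_of_nonneg_left h2 hKx.le
        nlinarith)
    rcases abs_cases (φ y - φ x) with ⟨e, -⟩ | ⟨e, -⟩
    · rw [e]; nlinarith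
    · rw [e]; nlinarith
  have hR : 0 < ‖K d‖ := norm_pos_iff.2 (h0 d hd0 hdρ)
  have ext : ∀ r, ∃ t, 0 < r → r < ‖K d‖ → 0 < t ∧ t < d ∧ ‖K t‖ = r := by
    intro r
    by_cases hr : 0 < r ∧ r < ‖K d‖
    · obtain ⟨t, ht, e⟩ := intermediate_value_Icc (f := fun t => ‖K t‖) hd0.le
        (by fun_prop) (show r ∈ Icc _ _ from ⟨by rw [K0, norm_zero]; exact hr.1.le, hr.2.le⟩)
      simp only at e
      refine ⟨t, fun _ _ => ⟨lt_of_le_of_ne ht.1 fun h => ?_, lt_of_le_of_ne ht.2 fun h => ?_, e⟩⟩
      · rw [← h, K0, norm_zero] at e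
        linarith [hr.1]
      · rw [h] at e
        linarith [hr.2]
    · exact ⟨0, fun h1 h2 => absurd ⟨h1, h2⟩ hr⟩
  choose τ hτ using ext
  refine ⟨‖K d‖, hR, fun r => φ (τ r), ?_, fun t ht htd => ?_⟩
  · intro r r' hr hrr hr'
    rcases hrr.eq_or_lt with rfl | hlt
    · simp
    · obtain ⟨a1, a2, a3⟩ := hτ r hr (by linarith)
      obtain ⟨b1, b2, b3⟩ := hτ r' (by linarith) hr'
      have hltτ : τ r < τ r' := by
        by_contra hcon
        push Not at hcon
        rcases hcon.eq_or_lt with h | h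
        · rw [h] at b3; linarith
        · have := mono _ _ b1 h (by linarith)
          linarith
      have := slow _ _ a1 hltτ b2.le
      rwa [a3, b3] at this
  · rw [← hd] at htd
    have h1 : ‖K t‖ < ‖K d‖ := mono t d ht htd hdρ
    refine ⟨h1, ?_⟩
    obtain ⟨a1, a2, a3⟩ := hτ ‖K t‖ (norm_pos_iff.2 (h0 t ht (by linarith))) h1
    have e : τ ‖K t‖ = t := by
      rcases lt_trichotomy (τ ‖K t‖) t with h | h | h
      · have := mono _ _ a1 h (by linarith)
        linarith
      · exact h
      · have := mono _ _ ht h (by linarith)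
        linarith
    unfold zz
    simp only
    rw [e]
    exact hpol t ht htd.le

/-- near `s`, on each side, the short chords are almost radial as seen from `c s` -/
def NR (c : ℝ → ℂ) (s : ℝ) : Prop := ∃ ρ > 0,
  (∀ x, s < x → x < s + ρ → ∀ᶠ y in 𝓝[>] x,
    100 * |((starRingEnd ℂ) (c x - c s) * (c y - c x)).im| ≤
      ((starRingEnd ℂ) (c x - c s) * (c y - c x)).re) ∧
  (∀ x, s - ρ < x → x < s → ∀ᶠ y in 𝓝[<] x,
    100 * |((starRingEnd ℂ) (c x - c s) * (c y - c x)).im| ≤
      ((starRingEnd ℂ) (c x - c s) * (c y - c x)).re)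

theorem NR.rad {c : ℝ → ℂ} (hc : Continuous c) (J : Pool.Agent.H763R2.An.Inj c) {s : ℝ}
    (h : NR c s) : Rad c s := by
  obtain ⟨ρ0, hρ0, H, H'⟩ := h
  obtain ⟨ρ, hρ, a1, a2⟩ : ∃ ρ > 0, ρ ≤ ρ0 ∧ ρ ≤ 1 := ⟨min ρ0 1, by positivity,
    min_le_left _ _, min_le_right _ _⟩
  obtain ⟨R1, hR1, α, hα, h1⟩ := exArm (K := fun t => c (s - t) - c s) (ρ := ρ) (by fun_prop)
    (by simp) hρ (fun x hx hxρ => sub_ne_zero.2 (J _ _ (by linarith) (by linarith)))
    (fun x y hx hxy hy e => by
      simp only [sub_left_inj] at e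
      exact J (s - y) (s - x) (by linarith) (by linarith) e.symm)
    (fun x hx hxy => by
      have h5 := H' (s - x) (by linarith) (by linarith)
      have h6 : Tendsto (fun y => s - y) (𝓝[>] x) (𝓝[<] (s - x)) := by
        refine tendsto_nhdsWithin_iff.2 ⟨?_, ?_⟩
        · exact ((by fun_prop : Continuous fun y : ℝ => s - y).tendsto x).mono_left
            nhdsWithin_le_nhds
        · filter_upwards [self_mem_nhdsWithin] with y hy
          simpa using hy
      filter_upwards [h6.eventually h5] with y hy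
      rwa [sub_sub_sub_cancel_right])
  obtain ⟨R2, hR2, β, hβ, h2⟩ := exArm (K := fun t => c (s + t) - c s) (ρ := ρ) (by fun_prop)
    (by simp) hρ (fun x hx hxρ => sub_ne_zero.2 (J _ _ (by linarith) (by linarith)).symm)
    (fun x y hx hxy hy e => by
      simp only [sub_left_inj] at e
      exact J (s + x) (s + y) (by linarith) (by linarith) e)
    (fun x hx hxy => by
      have h5 := H (s + x) (by linarith) (by linarith)
      have h6 : Tendsto (fun y => s + y) (𝓝[>] x) (𝓝[>] (s + x)) := by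
        refine tendsto_nhdsWithin_iff.2 ⟨?_, ?_⟩
        · exact ((by fun_prop : Continuous fun y : ℝ => s + y).tendsto x).mono_left
            nhdsWithin_le_nhds
        · filter_upwards [self_mem_nhdsWithin] with y hy
          simpa using hy
      filter_upwards [h6.eventually h5] with y hy
      rwa [sub_sub_sub_cancel_right])
  obtain ⟨e, he, hKe⟩ := Metric.continuous_iff.1 hc s (min R1 R2) (lt_min hR1 hR2)
  have hsm : ∀ x, |x - s| < e → ‖c x - c s‖ < min R1 R2 := fun x hx => by
    have := hKe x (by rwa [Real.dist_eq])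
    rwa [dist_eq_norm] at this
  refine ⟨min e (ρ / 2), by positivity, min R1 R2, lt_min hR1 hR2, α, β,
    fun r r' b1 b2 b3 => hα r r' b1 b2 (b3.trans_le (min_le_left _ _)),
    fun r r' b1 b2 b3 => hβ r r' b1 b2 (b3.trans_le (min_le_right _ _)), fun t t1 t2 => ?_,
    fun t t1 t2 => ?_⟩
  · have l1 := min_le_left e (ρ / 2)
    have l2 := min_le_right e (ρ / 2)
    have := h1 (s - t) (by linarith) (by linarith)
    simp only [sub_sub_cancel] at this
    exact ⟨hsm t (by rw [abs_lt]; constructor <;> linarith), this.2⟩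
  · have l1 := min_le_left e (ρ / 2)
    have l2 := min_le_right e (ρ / 2)
    have := h2 (t - s) (by linarith) (by linarith)
    simp only [add_sub_cancel] at this
    exact ⟨hsm t (by rw [abs_lt]; constructor <;> linarith), this.2⟩

end Pool.Agent.Helper588_NR
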