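import Mathlib

namespace Pool.Agent.Results.MP_db5ef1_al.NilRingQBasis

open Module

/-! ## Terms, quasi-identities, finite bases -/

/-- Terms of the ring signature `{+, -, 0, ·}` in the variables `x₀, x₁, …`. -/
inductive RTerm : Type
  | var (n : ℕ) : RTerm
  | zero : RTerm
  | neg (s : RTerm) : RTerm
  | add (s t : RTerm) : RTerm
  | mul (s t : RTerm) : RTerm

/-- The value of a term in a (not necessarily associative) ring. -/
def RTerm.eval {A : Type} [NonUnitalNonAssocRing A] (v : ℕ → A) : RTerm → A
  | .var n => v n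
  | .zero => 0
  | .neg s => - RTerm.eval v s
  | .add s t => RTerm.eval v s + RTerm.eval v t
  | .mul s t => RTerm.eval v s * RTerm.eval v t

/-- A quasi-identity `s₁ = t₁ ∧ … ∧ sₙ = tₙ → s = t`. -/
structure QuasiId : Type where
  prem : List (RTerm × RTerm)
  concl : RTerm × RTerm

/-- A quasi-identity is true in the ring `A`. -/
def QuasiId.TrueIn (q : QuasiId) (A : Type) [NonUnitalNonAssocRing A] : Prop :=
  ∀ v : ℕ → A, (∀ e ∈ q.prem, e.1.eval v = e.2.eval v) → q.concl.1.eval v = q.concl.2.eval v

/-- `A` has a finite basis of quasi-identities: a finite set of quasi-identities true in `A`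
such that every quasi-identity true in `A` is true in every ring that satisfies the finite set. -/
def HasFiniteQBasis (A : Type) [NonUnitalNonAssocRing A] : Prop :=
  ∃ S : Set QuasiId, S.Finite ∧ (∀ q ∈ S, q.TrueIn A) ∧
    ∀ q : QuasiId, q.TrueIn A →
      ∀ (B : Type) [NonUnitalNonAssocRing B], (∀ r ∈ S, r.TrueIn B) → q.TrueIn B

/-- Alternative rings. -/
def IsAlternative (A : Type) [NonUnitalNonAssocRing A] : Prop :=
  ∀ x y : A, (x * x) * y = x * (x * y) ∧ (y * x) * x = y * (x * x)

/-- Jordan rings (linear notion). -/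
def IsJordanRing (A : Type) [NonUnitalNonAssocRing A] : Prop :=
  ∀ x y : A, x * y = y * x ∧ ((x * x) * y) * x = (x * x) * (y * x)

/-! ## Elementary facts about terms -/

/-- A bound for the variables of a term. -/
def RTerm.bound : RTerm → ℕ
  | .var n => n + 1
  | .zero => 0
  | .neg s => s.bound
  | .add s t => max s.bound t.bound
  | .mul s t => max s.bound t.bound

theorem RTerm.eval_congr {A : Type} [NonUnitalNonAssocRing A] {v w : ℕ → A} :
    ∀ (t : RTerm), (∀ i < t.bound, v i = w i) → t.eval v = t.eval w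
  | .var n, h => h n (Nat.lt_succ_self n)
  | .zero, _ => rfl
  | .neg s, h => by
      have := RTerm.eval_congr s h
      simp only [RTerm.eval, this]
  | .add s t, h => by
      have h1 := RTerm.eval_congr s (fun i hi => h i (lt_of_lt_of_le hi (le_max_left _ _)))
      have h2 := RTerm.eval_congr t (fun i hi => h i (lt_of_lt_of_le hi (le_max_right _ _)))
      simp only [RTerm.eval, h1, h2]
  | .mul s t, h => by
      have h1 := RTerm.eval_congr s (fun i hi => h i (lt_of_lt_of_le hi (le_max_left _ _)))
      have h2 := RTerm.eval_congr t (fun i hi => h i (lt_of_lt_of_le hi (le_max_right _ _)))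
      simp only [RTerm.eval, h1, h2]

/-- A bound for the variables of a quasi-identity. -/
def QuasiId.bound (q : QuasiId) : ℕ :=
  (q.prem.map (fun e => max e.1.bound e.2.bound)).sum + max q.concl.1.bound q.concl.2.bound

theorem QuasiId.bound_prem (q : QuasiId) (e : RTerm × RTerm) (he : e ∈ q.prem) :
    e.1.bound ≤ q.bound ∧ e.2.bound ≤ q.bound := by
  have h : max e.1.bound e.2.bound ≤ (q.prem.map (fun e => max e.1.bound e.2.bound)).sum :=
    List.single_le_sum (by simp) _ (List.mem_map.2 ⟨e, he, rfl⟩)
  constructor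
  · exact le_trans (le_max_left _ _) (le_trans h (Nat.le_add_right _ _))
  · exact le_trans (le_max_right _ _) (le_trans h (Nat.le_add_right _ _))

theorem QuasiId.bound_concl (q : QuasiId) :
    q.concl.1.bound ≤ q.bound ∧ q.concl.2.bound ≤ q.bound :=
  ⟨le_trans (le_max_left _ _) (Nat.le_add_left _ _),
   le_trans (le_max_right _ _) (Nat.le_add_left _ _)⟩

/-! ## The small ring -/

/-- The ring `F_p a ⊕ F_p a²` with `a³ = 0`: pairs `(α, β)`, standing for `α a + β a²`. -/
def NilRing (p : ℕ) : Type := ZMod p × ZMod p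

instance (p : ℕ) : AddCommGroup (NilRing p) := inferInstanceAs (AddCommGroup (ZMod p × ZMod p))

instance (p : ℕ) : Mul (NilRing p) := ⟨fun x y => ((0 : ZMod p), x.1 * y.1)⟩

theorem NilRing.mul_def {p : ℕ} (x y : NilRing p) :
    x * y = (((0 : ZMod p), x.1 * y.1) : ZMod p × ZMod p) := rfl

theorem NilRing.add_def {p : ℕ} (x y : NilRing p) :
    x + y = ((x.1 + y.1, x.2 + y.2) : ZMod p × ZMod p) := rfl

theorem NilRing.zero_def {p : ℕ} : (0 : NilRing p) = (((0 : ZMod p), (0 : ZMod p)) : ZMod p × ZMod p) :=
  rfl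

instance (p : ℕ) : NonUnitalNonAssocRing (NilRing p) where
  left_distrib x y z := Prod.ext (add_zero (0 : ZMod p)).symm (mul_add x.1 y.1 z.1)
  right_distrib x y z := Prod.ext (add_zero (0 : ZMod p)).symm (add_mul x.1 y.1 z.1)
  zero_mul x := Prod.ext rfl (zero_mul x.1)
  mul_zero x := Prod.ext rfl (mul_zero x.1)

/-! ## The large rings -/

section Big

variable (F E : Type) [Field F] [Field E] [Algebra F E]

/-- The quadratic map `x² + x y + d y²`. -/
def nrm (d : E) (x : E × E) : E := x.1 * x.1 + x.1 * x.2 + d * (x.2 * x.2)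

/-- The quadratic functions `ℓ ∘ nrm`. -/
def KSub (d : E) : Submodule F (E × E → F) where
  carrier := {g | ∃ l : Dual F E, g = fun x => l (nrm E d x)}
  add_mem' := by
    rintro _ _ ⟨l, rfl⟩ ⟨m, rfl⟩
    exact ⟨l + m, by ext x; simp⟩
  zero_mem' := ⟨0, by ext x; simp⟩
  smul_mem' := by
    rintro c _ ⟨l, rfl⟩
    exact ⟨c • l, by ext x; simp⟩

/-- The large ring: linear functionals on `E × E`, together with functions on `E × E` modulo
`KSub`; the product of two linear functionals is their product as functions. -/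
def BigRing (d : E) : Type := (Dual F (E × E)) × ((E × E → F) ⧸ KSub F E d)

instance (d : E) : AddCommGroup (BigRing F E d) :=
  inferInstanceAs (AddCommGroup ((Dual F (E × E)) × ((E × E → F) ⧸ KSub F E d)))

variable {F E}

/-- product of two functionals, as a class of functions -/
def prd (d : E) (f g : Dual F (E × E)) : (E × E → F) ⧸ KSub F E d :=
  (KSub F E d).mkQ (fun x => f x * g x)

instance (d : E) : Mul (BigRing F E d) := ⟨fun x y => ((0 : Dual F (E × E)), prd d x.1 y.1)⟩

theorem BigRing.mul_def {d : E} (x y : BigRing F E d) :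
    x * y = (((0 : Dual F (E × E)), prd d x.1 y.1) :
      (Dual F (E × E)) × ((E × E → F) ⧸ KSub F E d)) := rfl

theorem BigRing.add_def {d : E} (x y : BigRing F E d) :
    x + y = ((x.1 + y.1, x.2 + y.2) : (Dual F (E × E)) × ((E × E → F) ⧸ KSub F E d)) := rfl

theorem BigRing.zero_def {d : E} : (0 : BigRing F E d) =
    ((0, 0) : (Dual F (E × E)) × ((E × E → F) ⧸ KSub F E d)) := rfl

theorem prd_add_left (d : E) (f g h : Dual F (E × E)) :
    prd d (f + g) h = prd d f h + prd d g h := by
  unfold prd
  rw [← map_add]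
  congr 1
  ext x
  simp [add_mul]

theorem prd_add_right (d : E) (f g h : Dual F (E × E)) :
    prd d f (g + h) = prd d f g + prd d f h := by
  unfold prd
  rw [← map_add]
  congr 1
  ext x
  simp [mul_add]

theorem prd_zero_left (d : E) (h : Dual F (E × E)) : prd d 0 h = 0 := by
  unfold prd
  have : (fun x : E × E => (0 : Dual F (E × E)) x * h x) = 0 := by ext x; simp
  rw [this, map_zero]

theorem prd_zero_right (d : E) (h : Dual F (E × E)) : prd d h 0 = 0 := by
  unfold prd
  have : (fun x : E × E => h x * (0 : Dual F (E × E)) x) = 0 := by ext x; simp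
  rw [this, map_zero]

instance (d : E) : NonUnitalNonAssocRing (BigRing F E d) where
  left_distrib x y z :=
    Prod.ext (add_zero (0 : Dual F (E × E))).symm (prd_add_right d x.1 y.1 z.1)
  right_distrib x y z :=
    Prod.ext (add_zero (0 : Dual F (E × E))).symm (prd_add_left d x.1 y.1 z.1)
  zero_mul x := Prod.ext rfl (prd_zero_left d x.1)
  mul_zero x := Prod.ext rfl (prd_zero_right d x.1)

/-- The functions spanned by the products of two functionals from `U`. -/
def QSub (U : Set (Dual F (E × E))) : Submodule F (E × E → F) :=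
  Submodule.span F {g | ∃ f ∈ U, ∃ h ∈ U, g = fun x => f x * h x}

theorem QSub_invariant {U : Set (Dual F (E × E))} {δ : E × E} (hδ : ∀ f ∈ U, f δ = 0)
    {g : E × E → F} (hg : g ∈ QSub U) (x : E × E) : g (x + δ) = g x := by
  induction hg using Submodule.span_induction with
  | mem g hg =>
    obtain ⟨f, hf, h, hh, rfl⟩ := hg
    simp [map_add, hδ f hf, hδ h hh]
  | zero => rfl
  | add g h _ _ ihg ihh => simp [ihg, ihh]
  | smul c g _ ih => simp [ih]

/-- The quadratic map `nrm` has no nontrivial zero. -/
theorem nrm_eq_zero {d : E} (hd : ∀ t : E, t * t + t + d ≠ 0) {x : E × E} (hx : nrm E d x = 0) :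
    x = 0 := by
  obtain ⟨a, b⟩ := x
  unfold nrm at hx
  simp only at hx
  by_cases hb : b = 0
  · subst hb
    simp at hx
    subst hx
    rfl
  · exfalso
    apply hd (a / b)
    field_simp
    linear_combination hx

theorem KSub_rigid {d : E} (hd : ∀ t : E, t * t + t + d ≠ 0) {δ : E × E} (hδ : δ ≠ 0)
    {l : Dual F E} (hl : ∀ x, l (nrm E d (x + δ)) = l (nrm E d x)) : l = 0 := by
  obtain ⟨a, b⟩ := δ
  have h0 : l (nrm E d (a, b)) = 0 := by
    have := hl 0
    rw [zero_add] at this
    rw [this]
    simp [nrm]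
  have h1 : ∀ x y : E, l (x * (2 * a + b) + y * (a + 2 * d * b)) = 0 := by
    intro x y
    have := hl (x, y)
    have e : nrm E d ((x, y) + (a, b)) =
        nrm E d (x, y) + (nrm E d (a, b) + (x * (2 * a + b) + y * (a + 2 * d * b))) := by
      simp only [nrm, Prod.mk_add_mk]
      ring
    rw [e, map_add, map_add, h0, zero_add] at this
    exact add_eq_left.1 this
  by_cases h2 : 2 * a + b = 0
  · by_cases h3 : a + 2 * d * b = 0
    · exfalso
      have hb : b = -(2 * a) := by linear_combination h2
      have h4 : a * (1 - 4 * d) = 0 := by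
        rw [hb] at h3
        linear_combination h3
      rcases mul_eq_zero.1 h4 with h5 | h5
      · apply hδ
        rw [hb, h5]
        simp
      · have h6 : 4 * d = 1 := by linear_combination -h5
        have h7 : (2 : E) ≠ 0 := by
          intro h
          have : (4 : E) = 0 := by linear_combination 2 * h
          rw [this] at h6
          simp at h6
        apply hd (-(2 : E)⁻¹)
        field_simp
        linear_combination h6
    · ext t
      have := h1 0 (t / (a + 2 * d * b))
      rw [zero_mul, zero_add, div_mul_cancel₀ _ h3] at this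
      simpa using this
  · ext t
    have := h1 (t / (2 * a + b)) 0
    rw [zero_mul, add_zero, div_mul_cancel₀ _ h2] at this
    simpa using this

/-- If the functionals in `U` have a common nonzero zero, then `QSub U` meets `KSub` trivially. -/
theorem QSub_inf_KSub {d : E} (hd : ∀ t : E, t * t + t + d ≠ 0) {U : Set (Dual F (E × E))}
    {δ : E × E} (hδ0 : δ ≠ 0) (hδ : ∀ f ∈ U, f δ = 0) {g : E × E → F} (hg : g ∈ QSub U)
    (hk : g ∈ KSub F E d) : g = 0 := by
  obtain ⟨l, rfl⟩ := hk
  have : l = 0 := KSub_rigid hd hδ0 (fun x => QSub_invariant hδ hg x)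
  subst this
  ext x
  simp

/-- Separation: a nonzero element of `BigRing` is not killed by some additive map to `F × F`
that is multiplicative on elements with first component in `U`. -/
theorem exists_sep {d : E} (hd : ∀ t : E, t * t + t + d ≠ 0) {U : Set (Dual F (E × E))}
    {δ : E × E} (hδ0 : δ ≠ 0) (hδ : ∀ f ∈ U, f δ = 0)
    (r : (Dual F (E × E)) × ((E × E → F) ⧸ KSub F E d)) (hr : r ≠ 0) :
    ∃ (e : E × E) (m1 : Dual F (E × E) →ₗ[F] F) (m2 : ((E × E → F) ⧸ KSub F E d) →ₗ[F] F),
      (∀ f ∈ U, ∀ g ∈ U, m2 (prd d f g) = f e * g e) ∧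
      (r.1 e ≠ 0 ∨ m1 r.1 + m2 r.2 ≠ 0) := by
  obtain ⟨f, w⟩ := r
  by_cases hf : f = 0
  · have hw : w ≠ 0 := by
      rintro rfl
      exact hr (by rw [hf]; rfl)
    -- the inclusion of `QSub U` in the quotient is injective
    let i : QSub U →ₗ[F] ((E × E → F) ⧸ KSub F E d) := (KSub F E d).mkQ ∘ₗ (QSub U).subtype
    have hi : LinearMap.ker i = ⊥ := by
      rw [LinearMap.ker_eq_bot']
      intro g hg
      have h1 : (g : E × E → F) ∈ KSub F E d := by
        have : (KSub F E d).mkQ (g : E × E → F) = 0 := hg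
        rwa [Submodule.mkQ_apply, Submodule.Quotient.mk_eq_zero] at this
      exact Subtype.ext (QSub_inf_KSub hd hδ0 hδ g.2 h1)
    obtain ⟨k, hk⟩ := LinearMap.exists_leftInverse_of_injective i hi
    have hk' : ∀ f ∈ U, ∀ g ∈ U, ∃ h : (fun x => f x * g x) ∈ QSub U,
        k (prd d f g) = ⟨fun x => f x * g x, h⟩ := by
      intro f hf g hg
      have h : (fun x => f x * g x) ∈ QSub U :=
        Submodule.subset_span ⟨f, hf, g, hg, rfl⟩
      refine ⟨h, ?_⟩
      exact LinearMap.congr_fun hk ⟨_, h⟩
    by_cases hkw : k w = 0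
    · -- `w` is not in the range of `i`
      have hw2 : w ∉ LinearMap.range i := by
        rintro ⟨g, rfl⟩
        apply hw
        have : k (i g) = g := LinearMap.congr_fun hk g
        rw [hkw] at this
        rw [← this, map_zero]
      obtain ⟨m2, hm2, hm2'⟩ := Submodule.exists_le_ker_of_notMem hw2
      refine ⟨0, 0, m2, ?_, ?_⟩
      · intro f hf g hg
        rw [map_zero, zero_mul]
        apply hm2'
        exact ⟨⟨fun x => f x * g x, Submodule.subset_span ⟨f, hf, g, hg, rfl⟩⟩, rfl⟩
      · right
        simpa using hm2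
    · obtain ⟨e, he⟩ : ∃ e, (k w : E × E → F) e ≠ 0 := by
        by_contra hcon
        push Not at hcon
        exact hkw (Subtype.ext (funext hcon))
      refine ⟨e, 0, (LinearMap.proj e) ∘ₗ (QSub U).subtype ∘ₗ k, ?_, ?_⟩
      · intro f hf g hg
        obtain ⟨h, hh⟩ := hk' f hf g hg
        simp [hh]
      · right
        simpa using he
  · obtain ⟨x, hx⟩ : ∃ x, f x ≠ 0 := by
      by_contra hcon
      push Not at hcon
      exact hf (LinearMap.ext hcon)
    refine ⟨0, (Dual.eval F (E × E) x), 0, ?_, ?_⟩
    · intro f _ g _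
      simp
    · right
      simpa using hx

end Big

/-! ## Quasi-identities with few variables pass from the small ring to the large ring -/

section Transfer

variable {p : ℕ} [Fact p.Prime] {E : Type} [Field E] [Algebra (ZMod p) E]

theorem exists_common_zero [FiniteDimensional (ZMod p) E] (k : ℕ)
    (hk : k < finrank (ZMod p) (E × E)) (f : ℕ → Dual (ZMod p) (E × E)) :
    ∃ δ : E × E, δ ≠ 0 ∧ ∀ i < k, f i δ = 0 := by
  let L : (E × E) →ₗ[ZMod p] (Fin k → ZMod p) := LinearMap.pi (fun i => f i)
  have hL : LinearMap.ker L ≠ ⊥ := by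
    apply LinearMap.ker_ne_bot_of_finrank_lt
    simpa using hk
  obtain ⟨δ, hδ, hδ0⟩ := (Submodule.ne_bot_iff _).1 hL
  refine ⟨δ, hδ0, fun i hi => ?_⟩
  have := congr_fun (LinearMap.mem_ker.1 hδ) ⟨i, hi⟩
  simpa [L] using this

theorem transfer [FiniteDimensional (ZMod p) E] {d : E} (hd : ∀ t : E, t * t + t + d ≠ 0)
    (q : QuasiId) (hq : q.TrueIn (NilRing p)) (hb : q.bound < finrank (ZMod p) (E × E)) :
    q.TrueIn (BigRing (ZMod p) E d) := by
  classical
  intro v hv
  set k := q.bound with hk
  obtain ⟨δ, hδ0, hδ⟩ := exists_common_zero k hb (fun i => (v i).1)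
  let v' : ℕ → BigRing (ZMod p) E d := fun i => if i < k then v i else 0
  let U : Submodule (ZMod p) (Dual (ZMod p) (E × E)) :=
    Submodule.span (ZMod p) {f | ∃ i < k, f = (v i).1}
  have hU : ∀ f ∈ (U : Set (Dual (ZMod p) (E × E))), f δ = 0 := by
    have hle : U ≤ LinearMap.ker (Dual.eval (ZMod p) (E × E) δ) := by
      apply Submodule.span_le.2
      rintro f ⟨i, hi, rfl⟩
      exact LinearMap.mem_ker.2 (hδ i hi)
    intro f hf
    exact LinearMap.mem_ker.1 (hle hf)
  have hT : ∀ t : RTerm, (t.eval v').1 ∈ U := by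
    intro t
    induction t with
    | var n =>
      show (v' n).1 ∈ U
      by_cases hn : n < k
      · simp only [v', hn, if_true]
        exact Submodule.subset_span ⟨n, hn, rfl⟩
      · simp only [v', hn, if_false]
        exact U.zero_mem
    | zero => exact U.zero_mem
    | neg s ih => exact U.neg_mem ih
    | add s t ihs iht => exact U.add_mem ihs iht
    | mul s t _ _ => exact U.zero_mem
  have hcongr : ∀ t : RTerm, t.bound ≤ k → t.eval v = t.eval v' := by
    intro t ht
    apply RTerm.eval_congr
    intro i hi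
    simp only [v', lt_of_lt_of_le hi ht, if_true]
  by_contra hne
  have hc := q.bound_concl
  rw [hcongr _ hc.1, hcongr _ hc.2] at hne
  obtain ⟨e, m1, m2, hm, hsep⟩ := exists_sep hd hδ0 hU
    ((q.concl.1.eval v' - q.concl.2.eval v' : BigRing (ZMod p) E d))
    (sub_ne_zero.2 hne)
  let φ : BigRing (ZMod p) E d → NilRing p := fun r => (r.1 e, m1 r.1 + m2 r.2)
  have hφ : ∀ t : RTerm, φ (t.eval v') = t.eval (fun i => φ (v' i)) := by
    intro t
    induction t with
    | var n => rfl
    | zero =>
      show ((0 : Dual (ZMod p) (E × E)) e, m1 0 + m2 0) = (0 : ZMod p × ZMod p)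
      simp
    | neg s ih =>
      show ((-(s.eval v').1 : Dual (ZMod p) (E × E)) e, m1 (-(s.eval v').1) + m2 (-(s.eval v').2))
        = -(s.eval (fun i => φ (v' i)))
      rw [← ih]
      refine Prod.ext ?_ ?_
      · rfl
      · show m1 (-(s.eval v').1) + m2 (-(s.eval v').2) = -(m1 (s.eval v').1 + m2 (s.eval v').2)
        rw [map_neg, map_neg]; ring
    | add s t ihs iht =>
      show (((s.eval v').1 + (t.eval v').1 : Dual (ZMod p) (E × E)) e,
        m1 ((s.eval v').1 + (t.eval v').1) + m2 ((s.eval v').2 + (t.eval v').2))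
        = (s.eval (fun i => φ (v' i))) + (t.eval (fun i => φ (v' i)))
      rw [← ihs, ← iht]
      refine Prod.ext ?_ ?_
      · rfl
      · show m1 ((s.eval v').1 + (t.eval v').1) + m2 ((s.eval v').2 + (t.eval v').2) =
          (m1 (s.eval v').1 + m2 (s.eval v').2) + (m1 (t.eval v').1 + m2 (t.eval v').2)
        rw [map_add, map_add]; ring
    | mul s t ihs iht =>
      show ((0 : Dual (ZMod p) (E × E)) e, m1 0 + m2 (prd d (s.eval v').1 (t.eval v').1))
        = (s.eval (fun i => φ (v' i))) * (t.eval (fun i => φ (v' i)))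
      rw [← ihs, ← iht]
      refine Prod.ext ?_ ?_
      · rfl
      · show m1 0 + m2 (prd d (s.eval v').1 (t.eval v').1) = (s.eval v').1 e * (t.eval v').1 e
        rw [map_zero, zero_add]
        exact hm _ (hT s) _ (hT t)
  have hconcl : φ (q.concl.1.eval v') = φ (q.concl.2.eval v') := by
    rw [hφ, hφ]
    apply hq
    intro a ha
    have hb := q.bound_prem a ha
    rw [← hφ, ← hφ, ← hcongr _ hb.1, ← hcongr _ hb.2, hv a ha]
  have h1 : (q.concl.1.eval v').1 e = (q.concl.2.eval v').1 e := congr_arg Prod.fst hconcl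
  have h2 : m1 (q.concl.1.eval v').1 + m2 (q.concl.1.eval v').2 =
      m1 (q.concl.2.eval v').1 + m2 (q.concl.2.eval v').2 := congr_arg Prod.snd hconcl
  rcases hsep with h | h
  · apply h
    show (q.concl.1.eval v').1 e - (q.concl.2.eval v').1 e = 0
    rw [h1, sub_self]
  · apply h
    show m1 ((q.concl.1.eval v').1 - (q.concl.2.eval v').1) +
      m2 ((q.concl.1.eval v').2 - (q.concl.2.eval v').2) = 0
    rw [map_sub, map_sub]
    linear_combination h2

/-- Every ring homomorphism from the large ring to the small ring kills all products. -/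
theorem hom_kills [FiniteDimensional (ZMod p) E] {d : E} (hd : ∀ t : E, t * t + t + d ≠ 0)
    (φ : BigRing (ZMod p) E d → NilRing p) (hadd : ∀ x y, φ (x + y) = φ x + φ y)
    (hmul : ∀ x y, φ (x * y) = φ x * φ y) (f g : Dual (ZMod p) (E × E)) :
    φ (((0 : Dual (ZMod p) (E × E)), prd d f g) :
      (Dual (ZMod p) (E × E)) × ((E × E → ZMod p) ⧸ KSub (ZMod p) E d)) = 0 := by
  classical
  -- the functional `f ↦ (φ (f, 0)).1`
  let lam0 : Dual (ZMod p) (E × E) →+ ZMod p :=
    AddMonoidHom.mk' (fun f => (φ ((f, 0) : (Dual (ZMod p) (E × E)) ×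
      ((E × E → ZMod p) ⧸ KSub (ZMod p) E d))).1) (by
        intro a b
        have := hadd ((a, 0) : (Dual (ZMod p) (E × E)) ×
          ((E × E → ZMod p) ⧸ KSub (ZMod p) E d)) ((b, 0) : (Dual (ZMod p) (E × E)) ×
          ((E × E → ZMod p) ⧸ KSub (ZMod p) E d))
        have h2 := congr_arg Prod.fst this
        refine Eq.trans ?_ h2
        congr 2
        exact Prod.ext rfl (add_zero _).symm)
  let lam : Dual (ZMod p) (Dual (ZMod p) (E × E)) := AddMonoidHom.toZModLinearMap p lam0
  let x : E × E := (Module.evalEquiv (ZMod p) (E × E)).symm lam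
  have hx : ∀ f : Dual (ZMod p) (E × E), f x = (φ ((f, 0) : (Dual (ZMod p) (E × E)) ×
      ((E × E → ZMod p) ⧸ KSub (ZMod p) E d))).1 := by
    intro f
    have := Module.apply_evalEquiv_symm_apply (R := ZMod p) (M := E × E) f lam
    rw [this]
    rfl
  have hprod : ∀ f g : Dual (ZMod p) (E × E),
      φ (((0 : Dual (ZMod p) (E × E)), prd d f g) :
      (Dual (ZMod p) (E × E)) × ((E × E → ZMod p) ⧸ KSub (ZMod p) E d)) =
        ((0, f x * g x) : ZMod p × ZMod p) := by
    intro f g
    have := hmul ((f, 0) : (Dual (ZMod p) (E × E)) ×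
          ((E × E → ZMod p) ⧸ KSub (ZMod p) E d)) ((g, 0) : (Dual (ZMod p) (E × E)) ×
          ((E × E → ZMod p) ⧸ KSub (ZMod p) E d))
    rw [hx f, hx g]
    exact this
  -- `φ` as an additive map on the second component
  let psi : ((E × E → ZMod p) ⧸ KSub (ZMod p) E d) →+ NilRing p :=
    AddMonoidHom.mk' (fun w => φ (((0 : Dual (ZMod p) (E × E)), w) :
      (Dual (ZMod p) (E × E)) × ((E × E → ZMod p) ⧸ KSub (ZMod p) E d))) (by
        intro a b
        refine Eq.trans (congr_arg φ ?_) (hadd
          (((0 : Dual (ZMod p) (E × E)), a) :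
            (Dual (ZMod p) (E × E)) × ((E × E → ZMod p) ⧸ KSub (ZMod p) E d))
          (((0 : Dual (ZMod p) (E × E)), b) :
            (Dual (ZMod p) (E × E)) × ((E × E → ZMod p) ⧸ KSub (ZMod p) E d)))
        exact Prod.ext (add_zero (0 : Dual (ZMod p) (E × E))).symm rfl)
  have hpsi : ∀ f g, psi (prd d f g) = ((0, f x * g x) : ZMod p × ZMod p) := hprod
  have hnrm : nrm E d x = 0 := by
    rw [← Module.forall_dual_apply_eq_zero_iff (ZMod p)]
    intro l
    -- the bilinear form
    let B : (E × E) →ₗ[ZMod p] (E × E) →ₗ[ZMod p] ZMod p :=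
      LinearMap.mk₂ (ZMod p) (fun a b => l (a.1 * b.1 + a.1 * b.2 + d * (a.2 * b.2)))
        (by intro a a' b; rw [← map_add]; congr 1; simp only [Prod.fst_add, Prod.snd_add]; ring)
        (by intro c a b; rw [← map_smul]; congr 1; simp [smul_add])
        (by intro a b b'; rw [← map_add]; congr 1; simp only [Prod.fst_add, Prod.snd_add]; ring)
        (by intro c a b; rw [← map_smul]; congr 1; simp [smul_add])
    let b := Module.finBasis (ZMod p) (E × E)
    have hB : ∀ y : E × E, l (nrm E d y) = ∑ i, b.coord i y * B (b i) y := by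
      intro y
      have h1 : l (nrm E d y) = B y y := by
        simp only [B, LinearMap.mk₂_apply, nrm]
      have h2 : B y y = B (∑ i, b.repr y i • b i) y := by rw [b.sum_repr y]
      rw [h1, h2, map_sum, LinearMap.sum_apply]
      refine Finset.sum_congr rfl (fun i _ => ?_)
      rw [map_smul, LinearMap.smul_apply]
      rfl
    have hzero : ∑ i, prd d (b.coord i) (B (b i)) = 0 := by
      have : ∑ i, prd d (b.coord i) (B (b i)) =
          (KSub (ZMod p) E d).mkQ (fun y => l (nrm E d y)) := by
        unfold prd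
        rw [← map_sum]
        congr 1
        ext y
        rw [hB y]
        simp
      rw [this, Submodule.mkQ_apply, Submodule.Quotient.mk_eq_zero]
      exact ⟨l, rfl⟩
    have h2 := congr_arg psi hzero
    rw [map_sum, map_zero] at h2
    simp only [hpsi] at h2
    have h3 := congr_arg Prod.snd h2
    rw [hB x]
    have h4 : (∑ i, (((0 : ZMod p), b.coord i x * B (b i) x) : ZMod p × ZMod p)).2 = 0 := h3
    rw [Prod.snd_sum] at h4
    exact h4
  have hx0 : x = 0 := nrm_eq_zero hd hnrm
  rw [hprod, hx0]
  simp only [map_zero, mul_zero]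
  rfl

end Transfer

/-! ## The diagram of a finite ring as a quasi-identity -/

theorem exists_diagram (A B : Type) [NonUnitalNonAssocRing A] [NonUnitalNonAssocRing B] [Finite B]
    (r0 : B) (hr0 : r0 ≠ 0)
    (h : ∀ φ : B → A, (∀ x y, φ (x + y) = φ x + φ y) → (∀ x y, φ (x * y) = φ x * φ y) →
      φ r0 = 0) :
    ∃ q : QuasiId, q.TrueIn A ∧ ¬ q.TrueIn B := by
  classical
  cases nonempty_fintype B
  let e : B ≃ Fin (Fintype.card B) := Fintype.equivFin B
  let idx : B → ℕ := fun b => (e b : ℕ)
  let q : QuasiId :=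
    { prem := ((Finset.univ : Finset (B × B)).toList.map
          (fun z => (RTerm.add (.var (idx z.1)) (.var (idx z.2)), RTerm.var (idx (z.1 + z.2))))) ++
        ((Finset.univ : Finset (B × B)).toList.map
          (fun z => (RTerm.mul (.var (idx z.1)) (.var (idx z.2)), RTerm.var (idx (z.1 * z.2)))))
      concl := (.var (idx r0), .zero) }
  refine ⟨q, ?_, ?_⟩
  · intro v hv
    apply h (fun b => v (idx b))
    · intro x y
      have := hv (RTerm.add (.var (idx x)) (.var (idx y)), RTerm.var (idx (x + y))) (by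
        apply List.mem_append_left
        exact List.mem_map.2 ⟨(x, y), by simp, rfl⟩)
      exact this.symm
    · intro x y
      have := hv (RTerm.mul (.var (idx x)) (.var (idx y)), RTerm.var (idx (x * y))) (by
        apply List.mem_append_right
        exact List.mem_map.2 ⟨(x, y), by simp, rfl⟩)
      exact this.symm
  · intro hq
    let v : ℕ → B := fun n => if hn : n < Fintype.card B then e.symm ⟨n, hn⟩ else 0
    have hv : ∀ b : B, v (idx b) = b := by
      intro b
      have : (e b : ℕ) < Fintype.card B := (e b).2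
      simp only [v, idx, this, dif_pos]
      exact e.symm_apply_apply b
    apply hr0
    have := hq v (by
      intro a ha
      rcases List.mem_append.1 ha with ha | ha
      · obtain ⟨z, _, rfl⟩ := List.mem_map.1 ha
        show v (idx z.1) + v (idx z.2) = v (idx (z.1 + z.2))
        rw [hv, hv, hv]
      · obtain ⟨z, _, rfl⟩ := List.mem_map.1 ha
        show v (idx z.1) * v (idx z.2) = v (idx (z.1 * z.2))
        rw [hv, hv, hv])
    have h2 : v (idx r0) = 0 := this
    rwa [hv] at h2

/-- Over a finite field some polynomial `t² + t + d` has no root. -/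
theorem exists_irred (E : Type) [Field E] [Finite E] : ∃ d : E, ∀ t : E, t * t + t + d ≠ 0 := by
  have h1 : ¬ Function.Injective (fun t : E => -(t * t + t)) := by
    intro h
    have : (0 : E) = -1 := h (by simp)
    have h3 : (1 : E) = 0 := by linear_combination this
    exact one_ne_zero h3
  have h2 : ¬ Function.Surjective (fun t : E => -(t * t + t)) := by
    rwa [← Finite.injective_iff_surjective]
  simp only [Function.Surjective, not_forall, not_exists] at h2
  obtain ⟨d, hd⟩ := h2
  refine ⟨d, fun t ht => hd t ?_⟩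
  show -(t * t + t) = d
  linear_combination -ht

theorem NilRing.comm {p : ℕ} (x y : NilRing p) : x * y = y * x :=
  Prod.ext rfl (mul_comm x.1 y.1)

theorem NilRing.triple_left {p : ℕ} (x y z : NilRing p) : (x * y) * z = 0 :=
  Prod.ext rfl (zero_mul z.1)

theorem NilRing.triple_right {p : ℕ} (x y z : NilRing p) : x * (y * z) = 0 :=
  Prod.ext rfl (mul_zero x.1)

/-- The small ring has no finite basis of quasi-identities. -/
theorem not_finite_basis (p : ℕ) [Fact p.Prime] : ¬ HasFiniteQBasis (NilRing p) := by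
  classical
  rintro ⟨S, hS, hST, hS2⟩
  obtain ⟨N, hN⟩ : ∃ N : ℕ, ∀ q ∈ S, q.bound ≤ N := by
    obtain ⟨N, hN⟩ := (hS.image QuasiId.bound).bddAbove
    exact ⟨N, fun q hq => hN ⟨q, hq, rfl⟩⟩
  let E := GaloisField p (N + 1)
  have : FiniteDimensional (ZMod p) E := inferInstance
  have : Finite E := Module.finite_of_finite (ZMod p)
  have hrank : finrank (ZMod p) (E × E) = 2 * (N + 1) := by
    rw [Module.finrank_prod, GaloisField.finrank p (Nat.succ_ne_zero N)]
    omega
  obtain ⟨d, hd⟩ := exists_irred E
  have : Finite (Dual (ZMod p) (E × E)) :=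
    Finite.of_injective (fun f : Dual (ZMod p) (E × E) => (f : E × E → ZMod p))
      DFunLike.coe_injective
  have : Finite ((E × E → ZMod p) ⧸ KSub (ZMod p) E d) :=
    Finite.of_surjective _ (Submodule.mkQ_surjective (KSub (ZMod p) E d))
  have : Finite (BigRing (ZMod p) E d) :=
    inferInstanceAs (Finite ((Dual (ZMod p) (E × E)) × ((E × E → ZMod p) ⧸ KSub (ZMod p) E d)))
  obtain ⟨f0, hf0⟩ : ∃ f0 : Dual (ZMod p) (E × E), f0 ≠ 0 := by
    by_contra hcon
    push Not at hcon
    have : ((1, 0) : E × E) = 0 := by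
      rw [← Module.forall_dual_apply_eq_zero_iff (ZMod p)]
      intro f
      rw [hcon f]
      rfl
    have := congr_arg Prod.fst this
    exact one_ne_zero this
  have hprd : prd d f0 f0 ≠ 0 := by
    intro h0
    unfold prd at h0
    rw [Submodule.mkQ_apply, Submodule.Quotient.mk_eq_zero] at h0
    obtain ⟨δ, hδ0, hδ⟩ := exists_common_zero (p := p) (E := E) 1 (by rw [hrank]; omega)
      (fun _ => f0)
    have h1 : (fun x => f0 x * f0 x) = (0 : E × E → ZMod p) := by
      apply QSub_inf_KSub hd (U := {f0}) hδ0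
      · rintro f rfl
        exact hδ 0 (by norm_num)
      · exact Submodule.subset_span ⟨f0, rfl, f0, rfl, rfl⟩
      · exact h0
    apply hf0
    ext x
    all_goals
      simp only [LinearMap.comp_apply, LinearMap.zero_apply]
      exact mul_self_eq_zero.1 (congr_fun h1 _)
  obtain ⟨q, hqA, hqB⟩ := exists_diagram (NilRing p) (BigRing (ZMod p) E d)
    (((0 : Dual (ZMod p) (E × E)), prd d f0 f0) :
      (Dual (ZMod p) (E × E)) × ((E × E → ZMod p) ⧸ KSub (ZMod p) E d))
    (fun h => hprd (congr_arg Prod.snd h))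
    (fun φ hadd hmul => hom_kills hd φ hadd hmul f0 f0)
  apply hqB
  apply hS2 q hqA
  intro r hr
  apply transfer hd r (hST r hr)
  rw [hrank]
  have := hN r hr
  omega

/-- **Result.** For every prime `p` there is a ring with `p²` elements, commutative and
associative (so alternative and Jordan), with zero triple products, that has no finite basis of
quasi-identities. -/
theorem result (p : ℕ) (hp : p.Prime) :
    ∃ (A : Type) (_ : NonUnitalNonAssocRing A),
      Nat.card A = p ^ 2 ∧
      (∀ x y : A, x * y = y * x) ∧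
      (∀ x y z : A, (x * y) * z = 0 ∧ x * (y * z) = 0) ∧
      IsAlternative A ∧ IsJordanRing A ∧
      ¬ HasFiniteQBasis A := by
  have : Fact p.Prime := ⟨hp⟩
  refine ⟨NilRing p, inferInstance, ?_, NilRing.comm,
    fun x y z => ⟨NilRing.triple_left x y z, NilRing.triple_right x y z⟩, ?_, ?_,
    not_finite_basis p⟩
  · have : Nat.card (NilRing p) = Nat.card (ZMod p × ZMod p) := rfl
    rw [this, Nat.card_prod, Nat.card_zmod]
    ring
  · intro x y
    exact ⟨by rw [NilRing.triple_left, NilRing.triple_right],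
      by rw [NilRing.triple_left, NilRing.triple_right]⟩
  · intro x y
    refine ⟨NilRing.comm x y, ?_⟩
    rw [NilRing.triple_left (x * x) y x, NilRing.triple_right (x * x) y x]

end Pool.Agent.Results.MP_db5ef1_al.NilRingQBasis
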