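import Mathlib

/-!
# Quasi-identities of not necessarily associative rings: definitions
-/

set_option autoImplicit false

namespace Pool.Agent.QuasiId

/-- Terms in the signature `{+, -, 0, ·}` of rings in the variables `x₀, x₁, …`. -/
inductive Term : Type
  | var (i : ℕ)
  | zero
  | add (s t : Term)
  | neg (s : Term)
  | mul (s t : Term)

/-- The value of a term in a (not necessarily associative) ring. -/
def Term.eval {A : Type} [NonUnitalNonAssocRing A] (f : ℕ → A) : Term → A
  | .var i => f i
  | .zero => 0
  | .add s t => s.eval f + t.eval f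
  | .neg s => - s.eval f
  | .mul s t => s.eval f * t.eval f

/-- A quasi-identity `s₁ = t₁ ∧ ⋯ ∧ sₙ = tₙ → s = t`. -/
structure QuasiIdentity where
  /-- the premises -/
  prem : List (Term × Term)
  /-- the conclusion -/
  concl : Term × Term

/-- The quasi-identity `q` is true in the ring `A`. -/
def QuasiIdentity.Holds (q : QuasiIdentity) (A : Type) [NonUnitalNonAssocRing A] : Prop :=
  ∀ f : ℕ → A, (∀ e ∈ q.prem, e.1.eval f = e.2.eval f) → q.concl.1.eval f = q.concl.2.eval f

/-- Some finite set of quasi-identities true in `A` implies, in all rings, every quasi-identity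
true in `A`. -/
def HasFiniteBasis (A : Type) [NonUnitalNonAssocRing A] : Prop :=
  ∃ B : Set QuasiIdentity, B.Finite ∧ (∀ b ∈ B, b.Holds A) ∧
    ∀ q : QuasiIdentity, q.Holds A →
      ∀ (C : Type) [NonUnitalNonAssocRing C], (∀ b ∈ B, b.Holds C) → q.Holds C

/-- `IsProduct k a`: the element `a` is a product of `k` elements of the ring, with some
arrangement of the brackets. -/
inductive IsProduct {A : Type} [NonUnitalNonAssocRing A] : ℕ → A → Prop
  | elem (a : A) : IsProduct 1 a
  | mul {i j : ℕ} {a b : A} : IsProduct i a → IsProduct j b → IsProduct (i + j) (a * b)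

/-- The ring is nilpotent: for some `k ≥ 1` all products of `k` elements vanish. -/
def NilpotentRing (A : Type) [NonUnitalNonAssocRing A] : Prop :=
  ∃ k : ℕ, 1 ≤ k ∧ ∀ a : A, IsProduct k a → a = 0

/-- The ring `A` is alternative. -/
def IsAlternativeRing (A : Type) [NonUnitalNonAssocRing A] : Prop :=
  (∀ x y : A, (x * x) * y = x * (x * y)) ∧ ∀ x y : A, (y * x) * x = y * (x * x)

/-- The ring `A` is a Jordan ring. -/
def IsJordanRing (A : Type) [NonUnitalNonAssocRing A] : Prop :=
  (∀ x y : A, x * y = y * x) ∧ ∀ x y : A, ((x * x) * y) * x = (x * x) * (y * x)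

/-- The ring `A` is associative. -/
def IsAssociativeRing (A : Type) [NonUnitalNonAssocRing A] : Prop :=
  ∀ x y z : A, (x * y) * z = x * (y * z)

end Pool.Agent.QuasiId
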