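import Mathlib
import Pool.Agent.QuasiIdDefs

/-!
# Quasi-identities of finite not necessarily associative rings

A finite ring with a nilpotent subring whose multiplication is not zero has no finite basis of
quasi-identities (`mainAll`).

Sketch. Let `N` be the nilpotent subring; one may assume that it is a `p`-group. Let all products
of `d + 2` elements of `N` vanish and let `b` be a product of `d + 1` elements whose order
`q = p ^ (e + 1)` is the exponent of these products, `b = t(a_1, …, a_(d+1))` with a tree `t` of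
brackets. Let `F` be the ring generated by the coordinate functions `X_(i,j)`, `i ≤ d + 1`,
`j < m`, on the set of those `k` with `k (i, j)` a multiple of `a_i`. The functions
`z_I = p ^ e t(X_(1,I 1), …)` are linearly independent over the field with `p` elements and
annihilate `F`. By counting, some space `R` of their combinations avoids all functions that are
composed of `n` sums of functions of `d` coordinates, and contains for each homomorphism from `F`
to the ring `A` that does not kill the given `z_(I_0)` an element that is not killed either. In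
`C = F / R` the element `z_(I_0)` is not zero and is killed by all homomorphisms to `A`, while the
subrings with `n` generators have enough homomorphisms to `N` (this uses that `ZMod q` is an
injective module over itself). As `n` is arbitrary, there is no finite basis.
-/

set_option autoImplicit false

namespace Pool.Agent.QuasiId

/-! ### The criterion -/

/-- a bound for the variables of a term -/
def Term.bd : Term → ℕ
  | .var i => i + 1
  | .zero => 0
  | .add s t => max s.bd t.bd
  | .neg s => s.bd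
  | .mul s t => max s.bd t.bd

lemma eval_congr {A : Type} [NonUnitalNonAssocRing A] (f g : ℕ → A) (t : Term)
    (h : ∀ i < t.bd, f i = g i) : t.eval f = t.eval g := by
  induction t with
  | var i => exact h i (Nat.lt_succ_self i)
  | zero => rfl
  | add s t hs ht =>
    simp only [Term.eval]
    rw [hs fun i hi => h i (lt_of_lt_of_le hi (le_max_left _ _)),
      ht fun i hi => h i (lt_of_lt_of_le hi (le_max_right _ _))]
  | neg s hs => simp only [Term.eval]; rw [hs h]
  | mul s t hs ht =>
    simp only [Term.eval]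
    rw [hs fun i hi => h i (lt_of_lt_of_le hi (le_max_left _ _)),
      ht fun i hi => h i (lt_of_lt_of_le hi (le_max_right _ _))]

lemma eval_hom {A C : Type} [NonUnitalNonAssocRing A] [NonUnitalNonAssocRing C] (θ : A →ₙ+* C)
    (f : ℕ → A) (t : Term) : θ (t.eval f) = t.eval fun i => θ (f i) := by
  induction t with
  | var i => rfl
  | zero => exact map_zero θ
  | add s t hs ht => simp only [Term.eval]; rw [map_add, hs, ht]
  | neg s hs => simp only [Term.eval]; rw [map_neg, hs]
  | mul s t hs ht => simp only [Term.eval]; rw [map_mul, hs, ht]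

/-- a bound for the variables of a quasi-identity -/
def QuasiIdentity.bd (q : QuasiIdentity) : ℕ :=
  max (max q.concl.1.bd q.concl.2.bd) ((q.prem.map fun e => max e.1.bd e.2.bd).sum)

lemma le_bd (q : QuasiIdentity) : q.concl.1.bd ≤ q.bd ∧ q.concl.2.bd ≤ q.bd ∧
    ∀ e ∈ q.prem, e.1.bd ≤ q.bd ∧ e.2.bd ≤ q.bd := by
  refine ⟨le_max_of_le_left (le_max_left _ _), le_max_of_le_left (le_max_right _ _), ?_⟩
  intro e he
  have : max e.1.bd e.2.bd ≤ (q.prem.map fun e => max e.1.bd e.2.bd).sum :=
    List.single_le_sum (by simp) _ (List.mem_map_of_mem he)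
  exact ⟨le_max_of_le_right ((le_max_left _ _).trans this),
    le_max_of_le_right ((le_max_right _ _).trans this)⟩

lemma holds_of_local {A C : Type} [NonUnitalNonAssocRing A] [NonUnitalNonAssocRing C] (n : ℕ)
    (hC : ∀ (u : Fin n → C) (d : NonUnitalSubring.closure (Set.range u)), d ≠ 0 →
      ∃ θ : NonUnitalSubring.closure (Set.range u) →ₙ+* A, θ d ≠ 0)
    (q : QuasiIdentity) (hq : q.bd ≤ n) (hA : q.Holds A) : q.Holds C := by
  intro f hf
  set u : Fin n → C := fun i => f i with hu
  let S := NonUnitalSubring.closure (Set.range u)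
  let g : ℕ → S := fun i => if h : i < n then
    ⟨f i, NonUnitalSubring.subset_closure ⟨⟨i, h⟩, rfl⟩⟩ else 0
  have hg : ∀ t : Term, t.bd ≤ n → ((t.eval g : S) : C) = t.eval f := by
    intro t ht
    have h1 := eval_hom (NonUnitalSubringClass.subtype S) g t
    have h2 : ((t.eval g : S) : C) = t.eval fun i => ((g i : S) : C) := h1
    rw [h2]
    apply eval_congr
    intro i hi
    have : i < n := lt_of_lt_of_le hi ht
    simp [g, this]
  obtain ⟨b1, b2, b3⟩ := le_bd q
  by_contra hne
  have hd : (q.concl.1.eval g - q.concl.2.eval g : S) ≠ 0 := by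
    intro h0
    apply hne
    rw [← hg _ (b1.trans hq), ← hg _ (b2.trans hq), sub_eq_zero.mp h0]
  obtain ⟨θ, hθ⟩ := hC u _ hd
  apply hθ
  rw [map_sub, sub_eq_zero, eval_hom, eval_hom]
  apply hA
  intro e he
  have h3 : e.1.eval g = e.2.eval g := by
    apply Subtype.ext
    rw [hg _ ((b3 e he).1.trans hq), hg _ ((b3 e he).2.trans hq)]
    exact hf e he
  rw [← eval_hom, ← eval_hom, h3]

theorem crit (A : Type) [NonUnitalNonAssocRing A]
    (h : ∀ n : ℕ, ∃ (C : Type) (_ : NonUnitalNonAssocRing C), Finite C ∧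
      (∀ (u : Fin n → C) (d : NonUnitalSubring.closure (Set.range u)), d ≠ 0 →
        ∃ θ : NonUnitalSubring.closure (Set.range u) →ₙ+* A, θ d ≠ 0) ∧
      ∃ z : C, z ≠ 0 ∧ ∀ θ : C →ₙ+* A, θ z = 0) : ¬ HasFiniteBasis A := by
  rintro ⟨B, hB, hBA, hall⟩
  classical
  let n := ∑ b ∈ hB.toFinset, b.bd
  have hn : ∀ b ∈ B, b.bd ≤ n := fun b hb =>
    Finset.single_le_sum (f := fun b => QuasiIdentity.bd b) (fun _ _ => Nat.zero_le _)
      (hB.mem_toFinset.mpr hb)
  obtain ⟨C, _, hfin, hloc, z, hz, hzA⟩ := h n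
  have := Fintype.ofFinite C
  let e := Fintype.equivFin C
  let v : C → Term := fun c => .var (e c)
  let q : QuasiIdentity :=
    { prem := (Finset.univ.toList.map fun x : C × C => (Term.add (v x.1) (v x.2), v (x.1 + x.2))) ++
        (Finset.univ.toList.map fun x : C × C => (Term.mul (v x.1) (v x.2), v (x.1 * x.2)))
      concl := (v z, Term.zero) }
  have hqA : q.Holds A := by
    intro f hf
    have hadd : ∀ x y : C, f (e x) + f (e y) = f (e (x + y)) := fun x y =>
      hf (Term.add (v x) (v y), v (x + y)) (by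
        apply List.mem_append_left
        exact List.mem_map.mpr ⟨(x, y), by simp, rfl⟩)
    have hmul : ∀ x y : C, f (e x) * f (e y) = f (e (x * y)) := fun x y =>
      hf (Term.mul (v x) (v y), v (x * y)) (by
        apply List.mem_append_right
        exact List.mem_map.mpr ⟨(x, y), by simp, rfl⟩)
    have h0 : f (e (0 : C)) = 0 := by
      have := hadd 0 0
      rw [add_zero] at this
      exact left_eq_add.mp this.symm
    let θ : C →ₙ+* A :=
      { toFun := fun c => f (e c)
        map_mul' := fun x y => (hmul x y).symm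
        map_zero' := h0
        map_add' := fun x y => (hadd x y).symm }
    exact hzA θ
  have hqC := hall q hqA C fun b hb => holds_of_local n hloc b (hn b hb) (hBA b hb)
  let f : ℕ → C := fun i => if h : i < Fintype.card C then e.symm ⟨i, h⟩ else 0
  have hf : ∀ c : C, f (e c) = c := fun c => by simp [f]
  have hv : ∀ c : C, (v c).eval f = c := hf
  have := hqC f (by
    intro x hx
    rcases List.mem_append.mp hx with hx | hx
    · obtain ⟨y, -, rfl⟩ := List.mem_map.mp hx
      simp only [Term.eval, hv]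
    · obtain ⟨y, -, rfl⟩ := List.mem_map.mp hx
      simp only [Term.eval, hv])
  apply hz
  have h1 : (v z).eval f = (Term.zero).eval f := this
  rw [hv] at h1
  exact h1

/-- Counting: some subspace avoids the set `X` and lies in no member of the family `H`. -/
theorem exists_subspace (p : ℕ) [Fact p.Prime] (Λ : Type) [AddCommGroup Λ] [Module (ZMod p) Λ]
    [Finite Λ] (X : Set Λ) (hX : (0 : Λ) ∉ X) (ι : Type) [Finite ι]
    (H : ι → Submodule (ZMod p) Λ) (hH : ∀ i, H i ≠ ⊤) (ρ : ℕ)
    (h1 : 2 * (p ^ ρ * Nat.card X) < Nat.card Λ) (h2 : 2 * Nat.card ι ≤ p ^ ρ) :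
    ∃ R : Submodule (ZMod p) Λ, (∀ x ∈ R, x ∉ X) ∧ ∀ i, ¬ R ≤ H i := by
  classical
  have := Fintype.ofFinite Λ
  have := Fintype.ofFinite ι
  have := Fintype.ofFinite X
  simp only [Nat.card_eq_fintype_card] at h1 h2
  by_contra hcon
  push Not at hcon
  let V := Fin ρ → Λ
  let B1 : (Fin ρ → ZMod p) × X → Finset V := fun a =>
    Finset.univ.filter fun v => ∑ j, a.1 j • v j = (a.2 : Λ)
  let B2 : ι → Finset V := fun i => Finset.univ.filter fun v => ∀ j, v j ∈ H i
  have hcover : (Finset.univ : Finset V) ⊆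
      (Finset.univ.biUnion B1) ∪ (Finset.univ.biUnion B2) := by
    intro v _
    rw [Finset.mem_union]
    by_cases hv : ∀ x ∈ Submodule.span (ZMod p) (Set.range v), x ∉ X
    · obtain ⟨i, hi⟩ := hcon _ hv
      right
      refine Finset.mem_biUnion.mpr ⟨i, Finset.mem_univ _, ?_⟩
      refine Finset.mem_filter.mpr ⟨Finset.mem_univ _, fun j => hi (Submodule.subset_span ⟨j, rfl⟩)⟩
    · push Not at hv
      obtain ⟨x, hx, hxX⟩ := hv
      left
      obtain ⟨μ, hμ⟩ := (Submodule.mem_span_range_iff_exists_fun (ZMod p)).mp hx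
      exact Finset.mem_biUnion.mpr ⟨(μ, ⟨x, hxX⟩), Finset.mem_univ _,
        Finset.mem_filter.mpr ⟨Finset.mem_univ _, hμ⟩⟩
  have hcard : Fintype.card Λ ^ ρ ≤ ∑ a, (B1 a).card + ∑ i, (B2 i).card := by
    have h3 : Fintype.card V = Fintype.card Λ ^ ρ := by simp [V]
    rw [← h3, ← Finset.card_univ]
    exact (Finset.card_le_card hcover).trans ((Finset.card_union_le _ _).trans
      (add_le_add Finset.card_biUnion_le Finset.card_biUnion_le))
  have hV : Fintype.card V = Fintype.card Λ ^ ρ := by simp [V]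
  have hB1 : ∀ a, (B1 a).card * Fintype.card Λ ≤ Fintype.card Λ ^ ρ := by
    rintro ⟨μ, x, hx⟩
    by_cases hμ : μ = 0
    · have : B1 (μ, ⟨x, hx⟩) = ∅ := by
        apply Finset.filter_eq_empty_iff.mpr
        intro v _ hv
        apply hX
        have : (0 : Λ) = x := by simpa [hμ] using hv
        rwa [this]
      rw [this]
      simp
    · obtain ⟨j, hj⟩ := Function.ne_iff.mp hμ
      have hj' : μ j ≠ 0 := hj
      rw [← Finset.card_univ (α := Λ), ← Finset.card_product, Finset.card_univ, ← hV,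
        ← Finset.card_univ]
      apply Finset.card_le_card_of_injOn (fun w => w.1 + Pi.single j w.2)
      · intro w _
        exact Finset.mem_univ _
      · rintro ⟨v, y⟩ hv ⟨v', y'⟩ hv' heq
        have e1 := (Finset.mem_filter.mp (Finset.mem_product.mp (Finset.mem_coe.mp hv)).1).2
        have e2 := (Finset.mem_filter.mp (Finset.mem_product.mp (Finset.mem_coe.mp hv')).1).2
        simp only at heq e1 e2
        have key : ∀ (v : V) (y : Λ), ∑ i, μ i • (v + Pi.single j y : V) i =
            ∑ i, μ i • v i + μ j • y := by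
          intro v y
          change ∑ i, μ i • (v i + (Pi.single j y : Fin ρ → Λ) i) = _
          simp only [smul_add, Finset.sum_add_distrib]
          congr 1
          rw [Finset.sum_eq_single j]
          · simp
          · intro b _ hb
            simp [hb]
          · simp
        have h4 := key v y
        rw [heq, key v' y', e1, e2] at h4
        have h5 : μ j • y' = μ j • y := add_left_cancel h4
        have h6 : y' = y := by
          have := congrArg (fun t => (μ j)⁻¹ • t) h5
          simpa [smul_smul, inv_mul_cancel₀ hj'] using this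
        subst h6
        have : v = v' := add_right_cancel heq
        rw [this]
  have hB2 : ∀ i, (B2 i).card * p ^ ρ ≤ Fintype.card Λ ^ ρ := by
    intro i
    obtain ⟨y, hy⟩ : ∃ y, y ∉ H i := by
      by_contra hno
      push Not at hno
      exact hH i (eq_top_iff.mpr fun y _ => hno y)
    have hle : Fintype.card (H i) * p ≤ Fintype.card Λ := by
      have : Fintype.card (H i × ZMod p) = Fintype.card (H i) * p := by
        rw [Fintype.card_prod, ZMod.card]
      rw [← this]
      apply Fintype.card_le_of_injective fun w : H i × ZMod p => (w.1 : Λ) + w.2 • y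
      rintro ⟨⟨a, ha⟩, b⟩ ⟨⟨a', ha'⟩, b'⟩ heq
      simp only at heq
      have hb : b = b' := by
        by_contra hne
        have h5 : (b - b') • y = a' - a := by
          rw [sub_smul, sub_eq_sub_iff_add_eq_add, add_comm]
          exact heq
        have h6 : y = (b - b')⁻¹ • (a' - a) := by
          rw [← h5, smul_smul, inv_mul_cancel₀ (sub_ne_zero.mpr hne), one_smul]
        exact hy (h6 ▸ (H i).smul_mem _ ((H i).sub_mem ha' ha))
      subst hb
      have : a = a' := add_right_cancel heq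
      subst this
      rfl
    have hc : (B2 i).card = Fintype.card (H i) ^ ρ := by
      have : Fintype.card (Fin ρ → H i) = Fintype.card (H i) ^ ρ := by simp
      rw [← this, ← Finset.card_univ]
      symm
      apply Finset.card_bij (fun w _ => fun j => (w j : Λ))
      · intro w _
        exact Finset.mem_filter.mpr ⟨Finset.mem_univ _, fun j => (w j).2⟩
      · intro w _ w' _ h
        funext j
        exact Subtype.ext (congrFun h j)
      · intro v hv
        have hv' := (Finset.mem_filter.mp hv).2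
        exact ⟨fun j => ⟨v j, hv' j⟩, Finset.mem_univ _, rfl⟩
    rw [hc, ← mul_pow]
    exact Nat.pow_le_pow_left hle ρ
  set L := Fintype.card Λ with hL
  have hLpos : 0 < L := Fintype.card_pos
  have hTpos : 0 < L ^ ρ := pow_pos hLpos ρ
  have hPpos : 0 < p ^ ρ := pow_pos (Fact.out : p.Prime).pos ρ
  have s1 : (∑ a, (B1 a).card) * L ≤ (p ^ ρ * Fintype.card X) * L ^ ρ := by
    rw [Finset.sum_mul]
    calc ∑ a, (B1 a).card * L ≤ ∑ _a : (Fin ρ → ZMod p) × X, L ^ ρ :=
          Finset.sum_le_sum fun a _ => hB1 a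
      _ = (p ^ ρ * Fintype.card X) * L ^ ρ := by
          rw [Finset.sum_const, Finset.card_univ, Fintype.card_prod, Fintype.card_fun, ZMod.card,
            Fintype.card_fin, smul_eq_mul]
  have s2 : (∑ i, (B2 i).card) * p ^ ρ ≤ Fintype.card ι * L ^ ρ := by
    rw [Finset.sum_mul]
    calc ∑ i, (B2 i).card * p ^ ρ ≤ ∑ _i : ι, L ^ ρ := Finset.sum_le_sum fun i _ => hB2 i
      _ = Fintype.card ι * L ^ ρ := by
          rw [Finset.sum_const, Finset.card_univ, smul_eq_mul]
  set S1 := ∑ a, (B1 a).card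
  set S2 := ∑ i, (B2 i).card
  set T := L ^ ρ
  set P := p ^ ρ
  have t1 : 2 * S1 < T := by
    have : 2 * S1 * L < T * L := by
      calc 2 * S1 * L = 2 * (S1 * L) := by ring
        _ ≤ 2 * (P * Fintype.card X * T) := by omega
        _ = 2 * (P * Fintype.card X) * T := by ring
        _ < L * T := Nat.mul_lt_mul_of_pos_right h1 hTpos
        _ = T * L := mul_comm _ _
    exact lt_of_mul_lt_mul_right this (Nat.zero_le _)
  have t2 : 2 * S2 ≤ T := by
    have : 2 * S2 * P ≤ T * P := by
      calc 2 * S2 * P = 2 * (S2 * P) := by ring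
        _ ≤ 2 * (Fintype.card ι * T) := by omega
        _ = 2 * Fintype.card ι * T := by ring
        _ ≤ P * T := Nat.mul_le_mul_right _ h2
        _ = T * P := mul_comm _ _
    exact le_of_mul_le_mul_right this hPpos
  omega

section prod

variable {N : Type} [NonUnitalNonAssocRing N]

lemma isProduct_pos {k : ℕ} {a : N} (h : IsProduct k a) : 1 ≤ k := by
  induction h with
  | elem a => exact le_rfl
  | mul _ _ h1 h2 => omega

lemma isProduct_pred {k : ℕ} {a : N} (h : IsProduct k a) (hk : 2 ≤ k) : IsProduct (k - 1) a := by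
  induction h with
  | elem a => omega
  | @mul i j a b ha hb h1 h2 =>
    have hi := isProduct_pos ha
    have hj := isProduct_pos hb
    by_cases hi2 : 2 ≤ i
    · have := IsProduct.mul (h1 hi2) hb
      have e : i - 1 + j = i + j - 1 := by omega
      rwa [e] at this
    · by_cases hj2 : 2 ≤ j
      · have := IsProduct.mul ha (h2 hj2)
        have e : i + (j - 1) = i + j - 1 := by omega
        rwa [e] at this
      · have e : i + j - 1 = 1 := by omega
        rw [e]
        exact IsProduct.elem _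

lemma isProduct_le {k l : ℕ} {a : N} (h : IsProduct k a) (hl : 1 ≤ l) (hlk : l ≤ k) :
    IsProduct l a := by
  obtain ⟨s, rfl⟩ := Nat.exists_eq_add_of_le hlk
  induction s with
  | zero => simpa using h
  | succ s ih =>
    have := isProduct_pred h (by omega)
    exact ih (by simpa using this) (by omega)

end prod

/-- binary trees with labelled leaves -/
inductive Tree (α : Type) : Type
  | leaf (a : α)
  | node (s t : Tree α)

namespace Tree

variable {α β : Type}

/-- the number of leaves -/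
def leaves : Tree α → ℕ
  | leaf _ => 1
  | node s t => s.leaves + t.leaves

/-- the label `a` occurs -/
def Has (a : α) : Tree α → Prop
  | leaf b => b = a
  | node s t => s.Has a ∨ t.Has a

/-- relabelling -/
def map (f : α → β) : Tree α → Tree β
  | leaf a => leaf (f a)
  | node s t => node (s.map f) (t.map f)

/-- the value -/
def eval {R : Type} [Mul R] (f : α → R) : Tree α → R
  | leaf a => f a
  | node s t => s.eval f * t.eval f

lemma leaves_map (f : α → β) (t : Tree α) : (t.map f).leaves = t.leaves := by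
  induction t with
  | leaf a => rfl
  | node s t hs ht => simp only [map, leaves, hs, ht]

lemma has_map (f : α → β) (a : α) (t : Tree α) (h : t.Has a) : (t.map f).Has (f a) := by
  induction t with
  | leaf b => exact congrArg f h
  | node s t hs ht => exact h.elim (fun h => Or.inl (hs h)) fun h => Or.inr (ht h)

lemma eval_map {R : Type} [Mul R] (f : α → β) (g : β → R) (t : Tree α) :
    (t.map f).eval g = t.eval fun a => g (f a) := by
  induction t with
  | leaf a => rfl
  | node s t hs ht => simp only [map, eval, hs, ht]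

lemma eval_pi {R K : Type} [Mul R] (g : α → K → R) (t : Tree α) (k : K) :
    (t.eval g : K → R) k = t.eval fun a => g a k := by
  induction t with
  | leaf a => rfl
  | node s t hs ht =>
    simp only [eval, ← hs, ← ht]
    rfl

lemma eval_eq_zero {R : Type} [NonUnitalNonAssocRing R] (f : α → R) (t : Tree α) (a : α)
    (ha : t.Has a) (h : f a = 0) : t.eval f = 0 := by
  induction t with
  | leaf b =>
    have : b = a := ha
    simp only [eval, this, h]
  | node s t hs ht =>
    rcases ha with ha | ha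
    · simp only [eval, hs ha, zero_mul]
    · simp only [eval, ht ha, mul_zero]

lemma isProduct_eval {R : Type} [NonUnitalNonAssocRing R] (f : α → R) (t : Tree α) :
    IsProduct t.leaves (t.eval f) := by
  induction t with
  | leaf b => exact IsProduct.elem _
  | node s t hs ht => exact IsProduct.mul hs ht

lemma eval_mem {R : Type} [NonUnitalNonAssocRing R] (S : NonUnitalSubring R) (f : α → R)
    (hf : ∀ a, f a ∈ S) (t : Tree α) : t.eval f ∈ S := by
  induction t with
  | leaf b => exact hf b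
  | node s t hs ht => exact S.mul_mem hs ht

lemma leaves_pos (t : Tree α) : 1 ≤ t.leaves := by
  induction t with
  | leaf b => exact le_rfl
  | node s t hs ht => simp only [leaves]; omega

/-- `f k` depends only on `d` coordinates of `k` -/
def Dep {J N : Type} (d : ℕ) (f : (J → N) → N) : Prop :=
  ∃ (η : Fin d → J) (g : (Fin d → N) → N), ∀ k, f k = g fun i => k (η i)

lemma dep_eval {J N : Type} [NonUnitalNonAssocRing N] (s : Tree J) :
    Dep s.leaves fun k : J → N => s.eval k := by
  induction s with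
  | leaf b =>
    have : Dep 1 fun k : J → N => k b := ⟨fun _ => b, fun v => v 0, fun k => rfl⟩
    simpa only [leaves, eval] using this
  | node s t hs ht =>
    obtain ⟨η1, g1, h1⟩ := hs
    obtain ⟨η2, g2, h2⟩ := ht
    have : Dep (s.leaves + t.leaves) fun k : J → N => s.eval k * t.eval k := by
      refine ⟨Fin.append η1 η2, fun v => g1 (fun i => v (Fin.castAdd _ i)) *
        g2 (fun i => v (Fin.natAdd _ i)), fun k => ?_⟩
      simp only [Fin.append_left, Fin.append_right]
      rw [← h1, ← h2]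
    simpa only [leaves, eval] using this

lemma Dep.mono {J N : Type} {l d : ℕ} {f : (J → N) → N} (h : Dep l f) (hl : 1 ≤ l) (hd : l ≤ d) :
    Dep d f := by
  obtain ⟨η, g, h⟩ := h
  refine ⟨fun i => if hi : (i : ℕ) < l then η ⟨i, hi⟩ else η ⟨0, hl⟩,
    fun v => g fun i => v (Fin.castLE hd i), fun k => ?_⟩
  rw [h k]
  congr 1
  funext i
  simp

end Tree

lemma exists_tree {N : Type} [NonUnitalNonAssocRing N] {k : ℕ} {b : N} (h : IsProduct k b) :
    ∃ (ι : Type) (_ : Fintype ι) (t : Tree ι) (a : ι → N), Fintype.card ι = k ∧ t.leaves = k ∧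
      (∀ i, t.Has i) ∧ t.eval a = b := by
  induction h with
  | elem a => exact ⟨Unit, inferInstance, Tree.leaf (), fun _ => a, rfl, rfl, fun _ => rfl, rfl⟩
  | @mul i j a b ha hb h1 h2 =>
    obtain ⟨ι, _, t, f, e1, e2, e3, e4⟩ := h1
    obtain ⟨κ, _, s, g, f1, f2, f3, f4⟩ := h2
    refine ⟨ι ⊕ κ, inferInstance, Tree.node (t.map Sum.inl) (s.map Sum.inr), Sum.elim f g, ?_, ?_,
      ?_, ?_⟩
    · rw [Fintype.card_sum, e1, f1]
    · simp only [Tree.leaves, Tree.leaves_map, e2, f2]
    · rintro (x | x)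
      · exact Or.inl (Tree.has_map _ _ _ (e3 x))
      · exact Or.inr (Tree.has_map _ _ _ (f3 x))
    · simp only [Tree.eval, Tree.eval_map, Sum.elim_inl, Sum.elim_inr]
      rw [e4, f4]

/-- a quotient of a subring by a two-sided annihilating subspace -/
lemma exists_quotient {P : Type} [NonUnitalNonAssocRing P] (F : NonUnitalSubring P)
    (R : AddSubgroup P) (hR : ∀ r ∈ R, ∀ x : P, r * x = 0 ∧ x * r = 0) :
    ∃ (C : Type) (_ : NonUnitalNonAssocRing C) (mk : F →ₙ+* C), Function.Surjective mk ∧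
      ∀ x : F, mk x = 0 ↔ (x : P) ∈ R := by
  let r : RingCon F :=
    { r := fun x y => (x : P) - y ∈ R
      iseqv :=
        { refl := fun x => by simp
          symm := fun {x y} h => by simpa using R.neg_mem h
          trans := fun {x y z} h h' => by simpa using R.add_mem h h' }
      add' := fun {w x y z} h h' => by
        have := R.add_mem h h'
        simp only [AddMemClass.coe_add] at this ⊢
        rwa [add_sub_add_comm]
      mul' := fun {w x y z} h h' => by
        have e1 := (hR _ h (y : P)).1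
        have e2 := (hR _ h' (x : P)).2
        rw [sub_mul] at e1
        rw [mul_sub] at e2
        have : ((w * y : F) : P) - ((x * z : F) : P) = 0 := by
          simp only [MulMemClass.coe_mul]
          rw [sub_eq_zero.mp e1, e2]
        rw [this]
        exact R.zero_mem }
  let mk : F →ₙ+* r.Quotient :=
    { toFun := fun x => (x : r.Quotient)
      map_mul' := fun x y => rfl
      map_zero' := rfl
      map_add' := fun x y => rfl }
  refine ⟨r.Quotient, inferInstance, mk, ?_, ?_⟩
  · intro c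
    obtain ⟨x, hx⟩ := Quotient.exists_rep c
    exact ⟨x, hx⟩
  · intro x
    have : mk x = 0 ↔ r x 0 := RingCon.eq r
    rw [this]
    change (x : P) - ((0 : F) : P) ∈ R ↔ _
    simp

lemma arith (p q c d n m : ℕ) (hp : 2 ≤ p) (hd : 1 ≤ d)
    (hm : m = q ^ (d + 1) * (d + 1) ^ d * n + q ^ (n + 1) + c * (d + 1) + 4) (x : ℕ)
    (hx : x ≤ 1 + q ^ (q ^ d * ((d + 1) * m) ^ d * n + q ^ n)) :
    2 * (p ^ (c * ((d + 1) * m) + 1) * x) < p ^ m ^ (d + 1) := by
  set e := q ^ d * ((d + 1) * m) ^ d * n + q ^ n with he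
  have hq : q ≤ p ^ q := (Nat.lt_pow_self (by omega : 1 < p)).le
  have h1 : q ^ e ≤ p ^ (q * e) := by
    rw [pow_mul]
    exact Nat.pow_le_pow_left hq e
  have h2 : 1 + q ^ e ≤ p ^ (q * e + 1) := by
    have : 1 ≤ p ^ (q * e) := Nat.one_le_pow _ _ (by omega)
    calc 1 + q ^ e ≤ p ^ (q * e) + p ^ (q * e) := by omega
      _ = p ^ (q * e) * 2 := by ring
      _ ≤ p ^ (q * e) * p := Nat.mul_le_mul_left _ hp
      _ = p ^ (q * e + 1) := by rw [pow_succ]
  calc 2 * (p ^ (c * ((d + 1) * m) + 1) * x)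
      ≤ p * (p ^ (c * ((d + 1) * m) + 1) * p ^ (q * e + 1)) :=
        Nat.mul_le_mul hp (Nat.mul_le_mul_left _ (hx.trans h2))
    _ = p ^ (c * ((d + 1) * m) + q * e + 3) := by ring
    _ < p ^ m ^ (d + 1) := by
      apply Nat.pow_lt_pow_right (by omega)
      have hm4 : 4 ≤ m := by omega
      have hmd : m ≤ m ^ d := Nat.le_self_pow (by omega) m
      have h3 : q * e = q ^ (d + 1) * (d + 1) ^ d * n * m ^ d + q ^ (n + 1) := by
        rw [he, mul_pow]
        ring
      have h4 : m ^ (d + 1) = q ^ (d + 1) * (d + 1) ^ d * n * m ^ d + q ^ (n + 1) * m ^ d +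
          c * (d + 1) * m ^ d + 4 * m ^ d := by
        rw [pow_succ]
        nth_rewrite 2 [hm]
        ring
      rw [h3, h4]
      have h5 : q ^ (n + 1) ≤ q ^ (n + 1) * m ^ d := Nat.le_mul_of_pos_right _ (by omega)
      have h6 : c * ((d + 1) * m) ≤ c * (d + 1) * m ^ d := by
        calc c * ((d + 1) * m) = c * (d + 1) * m := by ring
          _ ≤ c * (d + 1) * m ^ d := Nat.mul_le_mul_left _ hmd
      omega

lemma hom_eq_on_closure {P A : Type} [NonUnitalNonAssocRing P] [NonUnitalNonAssocRing A]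
    (S : Set P) (φ φ' : NonUnitalSubring.closure S →ₙ+* A)
    (h : ∀ x (hx : x ∈ S), φ ⟨x, NonUnitalSubring.subset_closure hx⟩ =
      φ' ⟨x, NonUnitalSubring.subset_closure hx⟩) (x : NonUnitalSubring.closure S) :
    φ x = φ' x := by
  obtain ⟨x, hx⟩ := x
  induction hx using NonUnitalSubring.closure_induction with
  | mem x hx => exact h x hx
  | zero => exact (map_zero φ).trans (map_zero φ').symm
  | add x y hx hy h1 h2 =>
    have e1 := map_add φ ⟨x, hx⟩ ⟨y, hy⟩
    have e2 := map_add φ' ⟨x, hx⟩ ⟨y, hy⟩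
    rw [h1, h2, ← e2] at e1
    exact e1
  | neg x hx h1 =>
    have e1 := map_neg φ ⟨x, hx⟩
    have e2 := map_neg φ' ⟨x, hx⟩
    rw [h1, ← e2] at e1
    exact e1
  | mul x y hx hy h1 h2 =>
    have e1 := map_mul φ ⟨x, hx⟩ ⟨y, hy⟩
    have e2 := map_mul φ' ⟨x, hx⟩ ⟨y, hy⟩
    rw [h1, h2, ← e2] at e1
    exact e1

/-! ### Homomorphisms to cyclic groups -/

lemma lift_through {T B C : Type} [AddCommGroup T] [AddCommGroup B] [AddCommGroup C]
    (f : B →+ C) (hf : Function.Injective f) (g : T →+ C) (h : ∀ t, ∃ b, f b = g t) :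
    ∃ g' : T →+ B, ∀ t, f (g' t) = g t := by
  choose g' hg' using h
  refine ⟨{ toFun := g', map_zero' := hf (by rw [hg', map_zero, map_zero]),
            map_add' := fun x y => hf (by rw [hg', map_add, map_add, hg', hg']) }, hg'⟩

/-- the homomorphism from `ZMod q` sending `1` to `b` -/
def cyc {C : Type} [AddCommGroup C] (q : ℕ) (b : C) (hb : q • b = 0) : ZMod q →+ C :=
  ZMod.lift q ⟨zmultiplesHom C b, by simpa using hb⟩

lemma cyc_int {C : Type} [AddCommGroup C] (q : ℕ) (b : C) (hb : q • b = 0) (z : ℤ) :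
    cyc q b hb (z : ZMod q) = z • b := by
  simp [cyc]

lemma cyc_injective {C : Type} [AddCommGroup C] (q : ℕ) (b : C) (hb : q • b = 0)
    (ho : addOrderOf b = q) : Function.Injective (cyc q b hb) := by
  rw [injective_iff_map_eq_zero]
  intro x hx
  obtain ⟨z, rfl⟩ := ZMod.intCast_surjective x
  rw [cyc_int] at hx
  rw [ZMod.intCast_zmod_eq_zero_iff_dvd, ← ho]
  exact addOrderOf_dvd_iff_zsmul_eq_zero.mpr hx

/-- the element `1/q` -/
def frac (q : ℕ) : AddCircle (1 : ℚ) := ((1 / q : ℚ) : AddCircle (1 : ℚ))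

lemma frac_nsmul (q : ℕ) (hq : 0 < q) : q • frac q = 0 := by
  have hq' : (q : ℚ) ≠ 0 := by exact_mod_cast hq.ne'
  rw [frac, ← AddCircle.coe_nsmul, AddCircle.coe_eq_zero_iff]
  refine ⟨1, ?_⟩
  simp [hq']

lemma frac_order (q : ℕ) (hq : 0 < q) : addOrderOf (frac q) = q := by
  have hq' : (q : ℚ) ≠ 0 := by exact_mod_cast hq.ne'
  apply Nat.dvd_antisymm
  · exact addOrderOf_dvd_of_nsmul_eq_zero (frac_nsmul q hq)
  · have h := addOrderOf_nsmul_eq_zero (frac q)
    rw [frac, ← AddCircle.coe_nsmul, AddCircle.coe_eq_zero_iff] at h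
    obtain ⟨z, hz⟩ := h
    change z • (1 : ℚ) = addOrderOf (frac q) • (1 / q : ℚ) at hz
    simp only [zsmul_eq_mul, mul_one, nsmul_eq_mul] at hz
    have h2 : (q : ℚ) * z = addOrderOf (frac q) := by
      rw [hz]
      field_simp
    have h3 : (q : ℤ) * z = (addOrderOf (frac q) : ℤ) := by exact_mod_cast h2
    exact_mod_cast Dvd.intro z h3

lemma exists_frac (q : ℕ) (hq : 0 < q) (y : AddCircle (1 : ℚ)) (hy : q • y = 0) :
    ∃ x, cyc q (frac q) (frac_nsmul q hq) x = y := by
  have hq' : (q : ℚ) ≠ 0 := by exact_mod_cast hq.ne'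
  obtain ⟨x, rfl⟩ := QuotientAddGroup.mk_surjective y
  change q • (x : AddCircle (1 : ℚ)) = 0 at hy
  rw [← AddCircle.coe_nsmul, AddCircle.coe_eq_zero_iff] at hy
  obtain ⟨z, hz⟩ := hy
  refine ⟨(z : ZMod q), ?_⟩
  rw [cyc_int, frac, ← AddCircle.coe_zsmul]
  change ((z • (1 / q : ℚ) : ℚ) : AddCircle (1 : ℚ)) = (x : AddCircle (1 : ℚ))
  congr 1
  simp only [zsmul_eq_mul, mul_one, nsmul_eq_mul] at hz
  rw [zsmul_eq_mul, hz]
  field_simp

/-- extension of homomorphisms to `ZMod q` -/
lemma exists_extension {U : Type} [AddCommGroup U] (q : ℕ) (hq : 0 < q) (G T : AddSubgroup U)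
    (hG : ∀ x : U, q • x ∈ G) (hGT : ∀ x ∈ G, x ∈ T → x = 0) (a : T →+ ZMod q) :
    ∃ χ : U →+ ZMod q, (∀ g ∈ G, χ g = 0) ∧ ∀ t : T, χ t = a t := by
  let f : T →+ U ⧸ G := (QuotientAddGroup.mk' G).comp T.subtype
  have hf : Function.Injective f := by
    rw [injective_iff_map_eq_zero]
    intro t ht
    have : (t : U) ∈ G := (QuotientAddGroup.eq_zero_iff (t : U)).mp ht
    exact Subtype.ext (hGT _ this t.2)
  let μ := cyc q (frac q) (frac_nsmul q hq)
  have hμ : Function.Injective μ := cyc_injective q _ _ (frac_order q hq)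
  obtain ⟨h, hh⟩ := (Module.Baer.of_divisible (AddCircle (1 : ℚ))).extension_property_addMonoidHom
    f hf (μ.comp a)
  obtain ⟨χ, hχ⟩ := lift_through μ hμ h (fun v => exists_frac q hq _ (by
    obtain ⟨x, rfl⟩ := QuotientAddGroup.mk_surjective v
    rw [← map_nsmul]
    have : q • (x : U ⧸ G) = 0 := (QuotientAddGroup.eq_zero_iff (q • x)).mpr (hG x)
    rw [this, map_zero]))
  refine ⟨χ.comp (QuotientAddGroup.mk' G), fun g hg => ?_, fun t => ?_⟩
  · have : (QuotientAddGroup.mk' G) g = 0 := (QuotientAddGroup.eq_zero_iff g).mpr hg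
    rw [AddMonoidHom.comp_apply, this, map_zero]
  · apply hμ
    change μ (χ (f t)) = μ (a t)
    rw [hχ]
    exact DFunLike.congr_fun hh t

lemma exists_separation {U : Type} [AddCommGroup U] (q : ℕ) (hq : 0 < q) (H : AddSubgroup U)
    (hH : ∀ x : U, q • x ∈ H) (w : U) (hw : w ∉ H) :
    ∃ χ : U →+ ZMod q, (∀ g ∈ H, χ g = 0) ∧ χ w ≠ 0 := by
  let μ := cyc q (frac q) (frac_nsmul q hq)
  have hμ : Function.Injective μ := cyc_injective q _ _ (frac_order q hq)
  have hw' : (QuotientAddGroup.mk' H) w ≠ 0 := fun h => hw ((QuotientAddGroup.eq_zero_iff w).mp h)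
  obtain ⟨c, hc⟩ : ∃ c : U ⧸ H →+ AddCircle (1 : ℚ), c ((QuotientAddGroup.mk' H) w) ≠ 0 :=
    CharacterModule.exists_character_apply_ne_zero_of_ne_zero hw'
  obtain ⟨χ, hχ⟩ := lift_through μ hμ c
    (fun v => exists_frac q hq _ (by
      obtain ⟨x, rfl⟩ := QuotientAddGroup.mk_surjective v
      rw [← map_nsmul]
      have : q • (x : U ⧸ H) = 0 := (QuotientAddGroup.eq_zero_iff (q • x)).mpr (hH x)
      rw [this, map_zero]))
  refine ⟨χ.comp (QuotientAddGroup.mk' H), fun g hg => ?_, fun h => hc ?_⟩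
  · have : (QuotientAddGroup.mk' H) g = 0 := (QuotientAddGroup.eq_zero_iff g).mpr hg
    rw [AddMonoidHom.comp_apply, this, map_zero]
  · have h1 := hχ ((QuotientAddGroup.mk' H) w)
    have h2 : χ ((QuotientAddGroup.mk' H) w) = 0 := h
    rw [h2, map_zero] at h1
    exact h1.symm

lemma descend {U C N : Type} [NonUnitalNonAssocRing U] [NonUnitalNonAssocRing C]
    [NonUnitalNonAssocRing N] (mkU : U →ₙ+* C) (θU : U →ₙ+* N)
    (hker : ∀ x, mkU x = 0 → θU x = 0) (S : NonUnitalSubring C)
    (hS : ∀ c ∈ S, ∃ x, mkU x = c) :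
    ∃ θ : S →ₙ+* N, ∀ x (c : S), mkU x = c → θ c = θU x := by
  choose lift hlift using fun c : S => hS c c.2
  have key : ∀ x y, mkU x = mkU y → θU x = θU y := by
    intro x y h
    have : θU (x - y) = 0 := hker _ (by rw [map_sub, h, sub_self])
    rw [map_sub] at this
    exact sub_eq_zero.mp this
  refine ⟨{ toFun := fun c => θU (lift c)
            map_mul' := fun c c' => ?_
            map_zero' := ?_
            map_add' := fun c c' => ?_ }, ?_⟩
  · rw [← map_mul]
    apply key
    rw [hlift, map_mul, hlift, hlift]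
    rfl
  · rw [← map_zero θU]
    apply key
    rw [hlift, map_zero]
    rfl
  · rw [← map_add]
    apply key
    rw [hlift, map_add, hlift, hlift]
    rfl
  · intro x c h
    apply key
    rw [hlift, h]

/-- elements killed by `q` and annihilating the ring from both sides -/
def Ann (N : Type) [NonUnitalNonAssocRing N] (q : ℕ) : AddSubgroup N where
  carrier := {x | q • x = 0 ∧ ∀ y, x * y = 0 ∧ y * x = 0}
  zero_mem' := ⟨smul_zero q, fun y => ⟨zero_mul y, mul_zero y⟩⟩
  add_mem' := fun {a b} ha hb => ⟨by rw [smul_add, ha.1, hb.1, add_zero],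
    fun y => ⟨by rw [add_mul, (ha.2 y).1, (hb.2 y).1, add_zero],
      by rw [mul_add, (ha.2 y).2, (hb.2 y).2, add_zero]⟩⟩
  neg_mem' := fun {a} ha => ⟨by rw [smul_neg, ha.1, neg_zero],
    fun y => ⟨by rw [neg_mul, (ha.2 y).1, neg_zero], by rw [mul_neg, (ha.2 y).2, neg_zero]⟩⟩

lemma mul_eq_of_ann {N K : Type} [NonUnitalNonAssocRing N] (q : ℕ) (x y g g' : K → N)
    (h : ∀ k, (x - g) k ∈ Ann N q) (h' : ∀ k, (y - g') k ∈ Ann N q) : x * y = g * g' := by
  funext k
  have e1 := ((h k).2 (y k)).1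
  have e2 := ((h' k).2 (g k)).2
  change (x k - g k) * y k = 0 at e1
  change g k * (y k - g' k) = 0 at e2
  rw [sub_mul] at e1
  rw [mul_sub] at e2
  change x k * y k = g k * g' k
  rw [sub_eq_zero.mp e1, sub_eq_zero.mp e2]

lemma exists_sep {N K C : Type} [NonUnitalNonAssocRing N] [NonUnitalNonAssocRing C] (q : ℕ)
    (hq : 0 < q) (b : N) (hb : addOrderOf b = q) (hbann : b ∈ Ann N q)
    (F : NonUnitalSubring (K → N)) (R : AddSubgroup (K → N))
    (hRb : ∀ r ∈ R, ∀ k, r k ∈ AddSubgroup.zmultiples b)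
    (mk : F →ₙ+* C) (hmk : ∀ x : F, mk x = 0 ↔ (x : K → N) ∈ R)
    (G : AddSubgroup (K → N)) (hG : ∀ x ∈ G, ∀ y ∈ G, x * y ∈ G)
    (hGR : ∀ x ∈ G, x ∈ R → x = 0) (n : ℕ) (u : Fin n → C)
    (hu : ∀ i, ∃ x : F, mk x = u i ∧ ∃ g ∈ G, ∀ k, ((x : K → N) - g) k ∈ Ann N q)
    (w : NonUnitalSubring.closure (Set.range u)) (hw : w ≠ 0) :
    ∃ θ : NonUnitalSubring.closure (Set.range u) →ₙ+* N, θ w ≠ 0 := by
  have hbz : ∀ x ∈ AddSubgroup.zmultiples b, x ∈ Ann N q := by
    intro x hx
    exact (AddSubgroup.zmultiples_le_of_mem hbann) hx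
  let U : NonUnitalSubring (K → N) :=
    { carrier := {x | x ∈ F ∧ ∃ g ∈ G, ∀ k, (x - g) k ∈ Ann N q}
      zero_mem' := ⟨F.zero_mem, 0, G.zero_mem, fun k => by simp⟩
      add_mem' := by
        rintro x y ⟨hx, g, hg, h⟩ ⟨hy, g', hg', h'⟩
        refine ⟨F.add_mem hx hy, g + g', G.add_mem hg hg', fun k => ?_⟩
        have := (Ann N q).add_mem (h k) (h' k)
        rw [← Pi.add_apply, ← add_sub_add_comm] at this
        exact this
      neg_mem' := by
        rintro x ⟨hx, g, hg, h⟩
        refine ⟨F.neg_mem hx, -g, G.neg_mem hg, fun k => ?_⟩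
        have := (Ann N q).neg_mem (h k)
        have e : (-x - -g) k = -((x - g) k) := by
          simp only [Pi.sub_apply, Pi.neg_apply]
          abel
        rw [e]
        exact this
      mul_mem' := by
        rintro x y ⟨hx, g, hg, h⟩ ⟨hy, g', hg', h'⟩
        refine ⟨F.mul_mem hx hy, g * g', hG _ hg _ hg', fun k => ?_⟩
        rw [mul_eq_of_ann q x y g g' h h', sub_self]
        exact (Ann N q).zero_mem }
  have hUF : ∀ x : U, (x : K → N) ∈ F := fun x => x.2.1
  let mkU : U →ₙ+* C :=
    { toFun := fun x => mk ⟨x, hUF x⟩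
      map_mul' := fun x y => map_mul mk ⟨x, hUF x⟩ ⟨y, hUF y⟩
      map_zero' := map_zero mk
      map_add' := fun x y => map_add mk ⟨x, hUF x⟩ ⟨y, hUF y⟩ }
  have hmkU : ∀ x : U, mkU x = 0 ↔ (x : K → N) ∈ R := fun x => hmk ⟨x, hUF x⟩
  have hgood : ∀ c ∈ NonUnitalSubring.closure (Set.range u), ∃ x : U, mkU x = c := by
    intro c hc
    induction hc using NonUnitalSubring.closure_induction with
    | mem c hc =>
      obtain ⟨i, rfl⟩ := hc
      obtain ⟨x, hx, g, hg, h⟩ := hu i
      exact ⟨⟨x, x.2, g, hg, h⟩, hx⟩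
    | zero => exact ⟨0, map_zero mkU⟩
    | add c c' _ _ h h' =>
      obtain ⟨x, hx⟩ := h
      obtain ⟨x', hx'⟩ := h'
      exact ⟨x + x', by rw [map_add, hx, hx']⟩
    | neg c _ h =>
      obtain ⟨x, hx⟩ := h
      exact ⟨-x, by rw [map_neg, hx]⟩
    | mul c c' _ _ h h' =>
      obtain ⟨x, hx⟩ := h
      obtain ⟨x', hx'⟩ := h'
      exact ⟨x * x', by rw [map_mul, hx, hx']⟩
  let GU : AddSubgroup U := AddSubgroup.comap (NonUnitalSubringClass.subtype U : U →+ (K → N)) G
  let RU : AddSubgroup U := AddSubgroup.comap (NonUnitalSubringClass.subtype U : U →+ (K → N)) R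
  have hGU : ∀ x : U, x ∈ GU ↔ (x : K → N) ∈ G := fun x => Iff.rfl
  have hRU : ∀ x : U, x ∈ RU ↔ (x : K → N) ∈ R := fun x => Iff.rfl
  have hqU : ∀ x : U, q • x ∈ GU := by
    rintro ⟨x, hx, g, hg, h⟩
    rw [hGU]
    change q • x ∈ G
    have : q • x = q • g := by
      funext k
      have h1 := (h k).1
      rw [Pi.sub_apply, smul_sub] at h1
      exact sub_eq_zero.mp h1
    rw [this]
    exact G.nsmul_mem hg q
  have hmulU : ∀ x y : U, x * y ∈ GU := by
    rintro ⟨x, hx, g, hg, h⟩ ⟨y, hy, g', hg', h'⟩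
    rw [hGU]
    change x * y ∈ G
    rw [mul_eq_of_ann q x y g g' h h']
    exact hG _ hg _ hg'
  let ι := cyc q b hbann.1
  have hι : Function.Injective ι := cyc_injective q b hbann.1 hb
  have hιann : ∀ x, ι x ∈ Ann N q := by
    intro x
    obtain ⟨z, rfl⟩ := ZMod.intCast_surjective x
    change cyc q b hbann.1 z ∈ _
    rw [cyc_int]
    exact (Ann N q).zsmul_mem hbann z
  obtain ⟨x, hx⟩ := hgood w w.2
  have hxR : x ∉ RU := by
    intro h
    apply hw
    apply Subtype.ext
    rw [← hx]
    exact (hmkU x).mpr h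
  -- a homomorphism on `U`
  obtain ⟨θU, h1, h2⟩ : ∃ θU : U →ₙ+* N, (∀ y ∈ RU, θU y = 0) ∧ θU x ≠ 0 := by
    by_cases hxGR : x ∈ GU ⊔ RU
    · obtain ⟨g, hg, r, hr, hgr⟩ := AddSubgroup.mem_sup.mp hxGR
      have hg0 : (g : K → N) ≠ 0 := by
        intro h0
        apply hxR
        have : g = 0 := Subtype.ext h0
        rw [← hgr, this, zero_add]
        exact hr
      obtain ⟨k, hk⟩ := Function.ne_iff.mp hg0
      -- evaluation at `k` on `RU`
      let ev : U →ₙ+* N :=
        { toFun := fun f => (f : K → N) k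
          map_mul' := fun _ _ => rfl
          map_zero' := rfl
          map_add' := fun _ _ => rfl }
      obtain ⟨a, ha⟩ := lift_through ι hι ((ev : U →+ N).comp RU.subtype) (fun t => by
        obtain ⟨z, hz⟩ := AddSubgroup.mem_zmultiples_iff.mp (hRb _ t.2 k)
        refine ⟨(z : ZMod q), ?_⟩
        change cyc q b hbann.1 z = _
        rw [cyc_int, hz]
        rfl)
      obtain ⟨χ, hχ1, hχ2⟩ := exists_extension q hq GU RU hqU (fun y hy hy' =>
        Subtype.ext (hGR _ hy hy')) a
      refine ⟨{ toFun := fun y => ev y - ι (χ y)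
                map_mul' := fun y y' => ?_
                map_zero' := by simp
                map_add' := fun y y' => ?_ }, fun y hy => ?_, ?_⟩
      · have e1 := (hιann (χ y)).2
        have e2 := (hιann (χ y')).2
        rw [hχ1 _ (hmulU y y'), map_zero, sub_zero, map_mul, sub_mul, mul_sub, (e2 _).2,
          (e1 _).1, sub_zero, sub_zero]
      · rw [map_add, map_add, map_add]
        abel
      · change ev y - ι (χ y) = 0
        have e1 := hχ2 ⟨y, hy⟩
        have e2 := ha ⟨y, hy⟩
        rw [← e1] at e2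
        rw [sub_eq_zero]
        exact e2.symm
      · change ev x - ι (χ x) ≠ 0
        have e1 := hχ2 ⟨r, hr⟩
        have e2 := ha ⟨r, hr⟩
        rw [← e1] at e2
        have e3 : ι (χ r) = ev r := e2
        rw [← hgr, map_add, map_add, map_add, hχ1 g hg, map_zero, zero_add, e3, add_sub_cancel_right]
        exact hk
    · obtain ⟨χ, hχ1, hχ2⟩ := exists_separation q hq (GU ⊔ RU)
        (fun y => AddSubgroup.mem_sup_left (hqU y)) x hxGR
      refine ⟨{ toFun := fun y => ι (χ y)
                map_mul' := fun y y' => ?_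
                map_zero' := by simp
                map_add' := fun y y' => by rw [map_add, map_add] }, fun y hy => ?_, ?_⟩
      · rw [hχ1 _ (AddSubgroup.mem_sup_left (hmulU y y')), map_zero, ((hιann (χ y)).2 _).1]
      · change ι (χ y) = 0
        rw [hχ1 _ (AddSubgroup.mem_sup_right hy), map_zero]
      · change ι (χ x) ≠ 0
        intro h
        exact hχ2 (hι (h.trans (map_zero ι).symm))
  obtain ⟨θ, hθ⟩ := descend mkU θU (fun y hy => h1 y ((hmkU y).mp hy)) _ hgood
  exact ⟨θ, by rw [hθ x w hx]; exact h2⟩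

section functions

variable {J N K : Type} [NonUnitalNonAssocRing N]

/-- the coordinate functions -/
def coord (κ : K → J → N) (j : J) : K → N := fun k => κ k j

/-- the ring generated by the coordinate functions -/
def coordRing (κ : K → J → N) : NonUnitalSubring (K → N) :=
  NonUnitalSubring.closure (Set.range (coord κ))

/-- sums of functions of `d` coordinates -/
def Psi [Fintype J] (κ : K → J → N) (d : ℕ) (h : (Fin d → J) → (Fin d → N) → N) : K → N :=
  fun k => ∑ η : Fin d → J, h η fun i => κ k (η i)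

lemma tree_coord (κ : K → J → N) (s : Tree J) : s.eval (coord κ) = fun k : K => s.eval (κ k) := by
  funext k
  exact Tree.eval_pi _ s k

lemma Psi_add [Fintype J] (κ : K → J → N) (d : ℕ) (a b : (Fin d → J) → (Fin d → N) → N) :
    Psi κ d (a + b) = Psi κ d a + Psi κ d b := by
  funext k
  simp [Psi, Finset.sum_add_distrib]

lemma Psi_neg [Fintype J] (κ : K → J → N) (d : ℕ) (a : (Fin d → J) → (Fin d → N) → N) :
    Psi κ d (-a) = - Psi κ d a := by
  funext k
  simp [Psi, Finset.sum_neg_distrib]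

lemma Psi_zero [Fintype J] (κ : K → J → N) (d : ℕ) : Psi κ d 0 = 0 := by
  funext k
  simp [Psi]

lemma decomp [Fintype J] (κ : K → J → N) (d q : ℕ)
    (hd : ∀ x : N, IsProduct (d + 1) x → x ∈ Ann N q) (f : K → N) (hf : f ∈ coordRing κ) :
    ∃ h : (Fin d → J) → (Fin d → N) → N, ∀ k, (f - Psi κ d h) k ∈ Ann N q := by
  classical
  rw [coordRing, NonUnitalSubring.mem_closure_iff] at hf
  induction hf using AddSubgroup.closure_induction with
  | mem f hf =>
    obtain ⟨s, rfl⟩ : ∃ s : Tree J, f = s.eval (coord κ) := by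
      have hf' : f ∈ Subsemigroup.closure (Set.range (coord κ)) := hf
      clear hf
      induction hf' using Subsemigroup.closure_induction with
      | mem f hf =>
        obtain ⟨j, rfl⟩ := hf
        exact ⟨Tree.leaf j, rfl⟩
      | mul x y hx hy h1 h2 =>
        obtain ⟨s, rfl⟩ := h1
        obtain ⟨t, rfl⟩ := h2
        exact ⟨Tree.node s t, rfl⟩
    by_cases hs : s.leaves ≤ d
    · obtain ⟨η, g, hg⟩ := (Tree.dep_eval (N := N) s).mono (Tree.leaves_pos s) hs
      refine ⟨Pi.single η g, ?_⟩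
      have h0 : s.eval (coord κ) - Psi κ d (Pi.single η g) = 0 := by
        rw [tree_coord, sub_eq_zero]
        funext k
        refine (hg (κ k)).trans ?_
        rw [Psi, Finset.sum_eq_single η]
        · simp
        · intro η' _ hne
          simp [Pi.single_eq_of_ne hne]
        · simp
      intro k
      rw [h0]
      exact (Ann N q).zero_mem
    · refine ⟨0, fun k => ?_⟩
      rw [Psi_zero, sub_zero, tree_coord]
      exact hd _ (isProduct_le (Tree.isProduct_eval (κ k) s) (l := d + 1) (by omega) (by omega))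
  | zero =>
    refine ⟨0, fun k => ?_⟩
    rw [Psi_zero, sub_zero]
    exact (Ann N q).zero_mem
  | add f f' _ _ h h' =>
    obtain ⟨a, ha⟩ := h
    obtain ⟨b, hb⟩ := h'
    refine ⟨a + b, fun k => ?_⟩
    have h0 : f + f' - Psi κ d (a + b) = (f - Psi κ d a) + (f' - Psi κ d b) := by
      rw [Psi_add]
      abel
    rw [h0]
    exact (Ann N q).add_mem (ha k) (hb k)
  | neg f _ h =>
    obtain ⟨a, ha⟩ := h
    refine ⟨-a, fun k => ?_⟩
    have h0 : -f - Psi κ d (-a) = -(f - Psi κ d a) := by
      rw [Psi_neg]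
      abel
    rw [h0]
    exact (Ann N q).neg_mem (ha k)

/-- the functions of `n` sums of functions of `d` coordinates -/
def Bad [Fintype J] (κ : K → J → N) (d n : ℕ) : Set (K → N) :=
  {s | ∃ (H : Fin n → (Fin d → J) → (Fin d → N) → N) (g : (Fin n → N) → N),
    s = fun k => g fun i => Psi κ d (H i) k}

lemma bad_surj [Fintype J] (κ : K → J → N) (d n : ℕ) : ∃ f : (Fin n → (Fin d → J) →
    (Fin d → N) → N) × ((Fin n → N) → N) → Bad κ d n, Function.Surjective f := by
  refine ⟨fun w => ⟨fun k => w.2 fun i => Psi κ d (w.1 i) k, w.1, w.2, rfl⟩, ?_⟩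
  rintro ⟨s, H, g, rfl⟩
  exact ⟨(H, g), rfl⟩

lemma card_bad [Fintype J] [Fintype N] (κ : K → J → N) (d n : ℕ) : Nat.card (Bad κ d n) ≤
    Fintype.card N ^ (Fintype.card N ^ d * Fintype.card J ^ d * n + Fintype.card N ^ n) := by
  classical
  obtain ⟨f, hf⟩ := bad_surj κ d n
  have h1 := Nat.card_le_card_of_surjective f hf
  refine h1.trans (le_of_eq ?_)
  rw [Nat.card_eq_fintype_card]
  simp only [Fintype.card_prod, Fintype.card_fun, Fintype.card_fin]
  rw [← pow_mul, ← pow_mul, ← pow_add, mul_assoc]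

lemma eval_mem_zmultiples {ι : Type} (t : Tree ι) (a v : ι → N)
    (h : ∀ i, v i ∈ AddSubgroup.zmultiples (a i)) :
    t.eval v ∈ AddSubgroup.zmultiples (t.eval a) := by
  induction t with
  | leaf i => exact h i
  | node s t hs ht =>
    obtain ⟨z, hz⟩ := AddSubgroup.mem_zmultiples_iff.mp hs
    obtain ⟨z', hz'⟩ := AddSubgroup.mem_zmultiples_iff.mp ht
    refine AddSubgroup.mem_zmultiples_iff.mpr ⟨z * z', ?_⟩
    change (z * z') • (s.eval a * t.eval a) = s.eval v * t.eval v
    rw [← hz, ← hz', smul_mul_smul_comm]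

end functions

lemma exists_psi_aux (p : ℕ) [Fact p.Prime] {P B I : Type} [AddCommGroup P] [AddCommGroup B]
    [Fintype I] [DecidableEq I] (Pp : AddSubgroup P) [Module (ZMod p) Pp] (z' : I → Pp)
    (ev : I → P →+ B) (h0 : ∀ i, ev i (z' i) ≠ 0) (h1 : ∀ i j, j ≠ i → ev i (z' j) = 0) :
    ∃ ψ : (I → ZMod p) →+ P, Function.Injective ψ ∧ (∀ i, ψ (Pi.single i 1) = z' i) ∧
      ∀ (S : AddSubgroup P), (∀ i, (z' i : P) ∈ S) → ∀ l, ψ l ∈ S := by
  let ψ0 : (I → ZMod p) →ₗ[ZMod p] Pp := Fintype.linearCombination (ZMod p) z'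
  have hψ0 : ∀ l : I → ZMod p, ψ0 l = ∑ i, l i • z' i := fun l => rfl
  refine ⟨Pp.subtype.comp ψ0.toAddMonoidHom, ?_, ?_, ?_⟩
  · rw [injective_iff_map_eq_zero]
    intro l hl
    have hl0 : ψ0 l = 0 := Subtype.ext hl
    funext i
    by_contra hne
    have hne' : l i ≠ 0 := hne
    let S0 : Submodule (ZMod p) Pp := AddSubgroup.toZModSubmodule p
      (((ev i).comp Pp.subtype).ker)
    have hS0 : ∀ x : Pp, x ∈ S0 ↔ ev i (x : P) = 0 := fun x => Iff.rfl
    have h2 : l i • z' i ∈ S0 := by
      have h2 : l i • z' i + ∑ j ∈ Finset.univ.erase i, l j • z' j = 0 := by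
        rw [Finset.add_sum_erase _ (fun j => l j • z' j) (Finset.mem_univ i), ← hψ0, hl0]
      rw [eq_neg_of_add_eq_zero_left h2]
      apply S0.neg_mem
      apply S0.sum_mem
      intro j hj
      apply S0.smul_mem
      exact (hS0 _).mpr (h1 i j (Finset.ne_of_mem_erase hj))
    have h3 : z' i ∈ S0 := by
      have := S0.smul_mem (l i)⁻¹ h2
      rwa [smul_smul, inv_mul_cancel₀ hne', one_smul] at this
    exact h0 i ((hS0 _).mp h3)
  · intro i
    change ((ψ0 (Pi.single i 1) : Pp) : P) = z' i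
    have : ψ0 (Pi.single i 1) = z' i := by
      rw [hψ0, Finset.sum_eq_single i]
      · simp
      · intro j _ hj
        simp [Pi.single_eq_of_ne hj]
      · simp
    rw [this]
  · intro S hS l
    have h1 : ψ0 l ∈ AddSubgroup.toZModSubmodule p (S.comap Pp.subtype) := by
      rw [hψ0]
      exact Submodule.sum_mem _ fun i _ => Submodule.smul_mem _ _ (hS i)
    exact h1

lemma exists_psi (p : ℕ) [Fact p.Prime] {P B I : Type} [AddCommGroup P] [AddCommGroup B]
    [Fintype I] [DecidableEq I] (z : I → P) (hz : ∀ i, p • z i = 0) (ev : I → P →+ B)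
    (h0 : ∀ i, ev i (z i) ≠ 0) (h1 : ∀ i j, j ≠ i → ev i (z j) = 0) :
    ∃ ψ : (I → ZMod p) →+ P, Function.Injective ψ ∧ (∀ i, ψ (Pi.single i 1) = z i) ∧
      ∀ (S : AddSubgroup P), (∀ i, z i ∈ S) → ∀ l, ψ l ∈ S := by
  obtain ⟨Pp, hPp⟩ : ∃ Pp : AddSubgroup P, ∀ x, x ∈ Pp ↔ p • x = 0 :=
    ⟨(nsmulAddMonoidHom p : P →+ P).ker, fun x => Iff.rfl⟩
  have hm : ∀ x : Pp, p • x = 0 := fun x => Subtype.ext ((hPp _).mp x.2)
  let _ : Module (ZMod p) Pp := AddCommGroup.zmodModule hm
  exact exists_psi_aux p Pp (fun i => ⟨z i, (hPp _).mpr (hz i)⟩) ev h0 h1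

theorem mainGen (A : Type) [NonUnitalNonAssocRing A] [Finite A] (p : ℕ) [Fact p.Prime] (N : Type)
    [NonUnitalNonAssocRing N] [Finite N] (inc : N →ₙ+* A)
    (hinc : Function.Injective inc) (d : ℕ) (hd1 : 1 ≤ d) (e : ℕ)
    (hd : ∀ x : N, IsProduct (d + 1) x → x ∈ Ann N (p ^ (e + 1))) (b : N)
    (hb : IsProduct (d + 1) b) (hb0 : p ^ e • b ≠ 0) : ¬ HasFiniteBasis A := by
  classical
  have := Fintype.ofFinite N
  have := Fintype.ofFinite A
  have hbann := hd b hb
  have hord : addOrderOf b = p ^ (e + 1) := addOrderOf_eq_prime_pow hb0 hbann.1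
  have hp2 : 2 ≤ p := (Fact.out : p.Prime).two_le
  have hqpos : 0 < p ^ (e + 1) := pow_pos (by omega) _
  have hbz : ∀ x ∈ AddSubgroup.zmultiples b, x ∈ Ann N (p ^ (e + 1)) := fun x hx =>
    (AddSubgroup.zmultiples_le_of_mem hbann) hx
  apply crit
  intro n
  obtain ⟨ι, _, t, a, hι, ht, hall, hta⟩ := exists_tree hb
  obtain ⟨m, hm⟩ : ∃ m, m = Fintype.card N ^ (d + 1) * (d + 1) ^ d * n +
    Fintype.card N ^ (n + 1) + Fintype.card A * (d + 1) + 4 := ⟨_, rfl⟩
  have hJ : Fintype.card (ι × Fin m) = (d + 1) * m := by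
    rw [Fintype.card_prod, hι, Fintype.card_fin]
  let K := {k : ι × Fin m → N // ∀ j, k j ∈ AddSubgroup.zmultiples (a j.1)}
  let κ : K → ι × Fin m → N := fun k => k.1
  let P := K → N
  let z : (ι → Fin m) → P := fun I k => p ^ e • t.eval fun i => κ k (i, I i)
  have hzz : ∀ I, z I = p ^ e • (t.map fun i => (i, I i)).eval (coord κ) := by
    intro I
    rw [tree_coord]
    funext k
    rw [Pi.smul_apply, Tree.eval_map]
  have hzF : ∀ I, z I ∈ coordRing κ := by
    intro I
    rw [hzz]
    exact (coordRing κ).nsmul_mem (Tree.eval_mem _ _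
      (fun j => NonUnitalSubring.subset_closure (Set.mem_range_self j)) _) _
  have hzb' : ∀ (I : ι → Fin m) (k : K), (t.eval fun i => κ k (i, I i)) ∈ AddSubgroup.zmultiples b := by
    intro I k
    have := eval_mem_zmultiples t a (fun i => κ k (i, I i)) fun i => k.2 (i, I i)
    rwa [hta] at this
  have hzb : ∀ (I : ι → Fin m) (k : K), z I k ∈ AddSubgroup.zmultiples b := fun I k =>
    (AddSubgroup.zmultiples b).nsmul_mem (hzb' I k) _
  have hzp : ∀ I, p • z I = 0 := by
    intro I
    funext k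
    change p • (p ^ e • t.eval fun i => κ k (i, I i)) = 0
    rw [← mul_smul, ← pow_succ']
    exact (hbz _ (hzb' I k)).1
  let kk : (ι → Fin m) → K := fun I => ⟨fun j => if j.2 = I j.1 then a j.1 else 0, fun j => by
    dsimp only
    split_ifs
    · exact AddSubgroup.mem_zmultiples _
    · exact (AddSubgroup.zmultiples (a j.1)).zero_mem⟩
  have hzkk : ∀ I I', z I (kk I') = if I = I' then p ^ e • b else 0 := by
    intro I I'
    by_cases h : I = I'
    · subst h
      simp only [z, kk, κ, if_true]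
      rw [← hta]
    · rw [if_neg h]
      obtain ⟨i, hi⟩ := Function.ne_iff.mp h
      have : (t.eval fun i => κ (kk I') (i, I i)) = 0 :=
        Tree.eval_eq_zero _ t i (hall i) (by simp [kk, κ, hi])
      change p ^ e • (t.eval fun i => κ (kk I') (i, I i)) = 0
      rw [this, smul_zero]
  let Λ := (ι → Fin m) → ZMod p
  obtain ⟨ψ, hψinj, hψone, hψmem⟩ := exists_psi p z hzp
    (fun I => Pi.evalAddMonoidHom (fun _ : K => N) (kk I))
    (fun I => by
      change z I (kk I) ≠ 0
      rw [hzkk, if_pos rfl]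
      exact hb0)
    (fun I I' hI => by
      change z I' (kk I) = 0
      rw [hzkk, if_neg hI])
  have hψF : ∀ l, ψ l ∈ coordRing κ := hψmem (coordRing κ).toAddSubgroup hzF
  have hψb : ∀ l k, ψ l k ∈ AddSubgroup.zmultiples b := by
    intro l k
    exact hψmem ((AddSubgroup.zmultiples b).comap (Pi.evalAddMonoidHom (fun _ : K => N) k))
      (fun I => hzb I k) l
  -- the distinguished element
  have hmpos : 0 < m := by omega
  let I0 : ι → Fin m := fun _ => ⟨0, hmpos⟩
  have hs0 : ψ (Pi.single I0 1) = z I0 := hψone I0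
  -- forbidden vectors
  let XX : Set Λ := {l | l ≠ 0 ∧ (ψ l ∈ Bad κ d n ∨ l = Pi.single I0 1)}
  have hXX0 : (0 : Λ) ∉ XX := fun h => h.1 rfl
  have hXXcard : Nat.card XX ≤ 1 + Fintype.card N ^ (Fintype.card N ^ d * ((d + 1) * m) ^ d * n +
      Fintype.card N ^ n) := by
    have h1 := card_bad κ d n
    rw [hJ] at h1
    let f : XX → Unit ⊕ Bad κ d n := fun l =>
      if h : ψ l.1 ∈ Bad κ d n then Sum.inr ⟨_, h⟩ else Sum.inl ()
    have hf : Function.Injective f := by
      rintro ⟨l, hl⟩ ⟨l', hl'⟩ h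
      apply Subtype.ext
      by_cases c1 : ψ l ∈ Bad κ d n
      · by_cases c2 : ψ l' ∈ Bad κ d n
        · simp only [f, c1, c2, dif_pos, Sum.inr.injEq, Subtype.mk.injEq] at h
          exact hψinj h
        · simp [f, c1, c2] at h
      · by_cases c2 : ψ l' ∈ Bad κ d n
        · simp [f, c1, c2] at h
        · exact (hl.2.resolve_left c1).trans (hl'.2.resolve_left c2).symm
    have h2 := Nat.card_le_card_of_injective f hf
    rw [Nat.card_sum] at h2
    have h3 : Nat.card Unit = 1 := by simp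
    omega
  -- the obstructing homomorphisms
  let T := {α : ι × Fin m → A // ∃ φ : coordRing κ →ₙ+* A,
    (∀ j, φ ⟨coord κ j, NonUnitalSubring.subset_closure ⟨j, rfl⟩⟩ = α j) ∧ φ ⟨z I0, hzF I0⟩ ≠ 0}
  let φφ : ∀ _ : T, coordRing κ →ₙ+* A := fun α => α.2.choose
  have hφφ1 : ∀ (α : T) j, φφ α ⟨coord κ j, NonUnitalSubring.subset_closure ⟨j, rfl⟩⟩ = α.1 j :=
    fun α => α.2.choose_spec.1
  have hφφ2 : ∀ α : T, φφ α ⟨z I0, hzF I0⟩ ≠ 0 := fun α => α.2.choose_spec.2
  let HH : T → Submodule (ZMod p) Λ := fun α => AddSubgroup.toZModSubmodule p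
    { carrier := {l | φφ α ⟨ψ l, hψF l⟩ = 0}
      zero_mem' := by
        have : (⟨ψ 0, hψF 0⟩ : coordRing κ) = 0 := Subtype.ext (map_zero ψ)
        change φφ α ⟨ψ 0, hψF 0⟩ = 0
        rw [this, map_zero]
      add_mem' := fun {l l'} hl hl' => by
        have : (⟨ψ (l + l'), hψF (l + l')⟩ : coordRing κ) =
            ⟨ψ l, hψF l⟩ + ⟨ψ l', hψF l'⟩ := Subtype.ext (map_add ψ l l')
        change φφ α ⟨ψ (l + l'), hψF (l + l')⟩ = 0
        have h1 : φφ α ⟨ψ l, hψF l⟩ = 0 := hl
        have h2 : φφ α ⟨ψ l', hψF l'⟩ = 0 := hl'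
        rw [this, map_add, h1, h2, add_zero]
      neg_mem' := fun {l} hl => by
        have : (⟨ψ (-l), hψF (-l)⟩ : coordRing κ) =
            -⟨ψ l, hψF l⟩ := Subtype.ext (map_neg ψ l)
        change φφ α ⟨ψ (-l), hψF (-l)⟩ = 0
        have h1 : φφ α ⟨ψ l, hψF l⟩ = 0 := hl
        rw [this, map_neg, h1, neg_zero] }
  have hHHmem : ∀ α l, l ∈ HH α ↔ φφ α ⟨ψ l, hψF l⟩ = 0 := fun α l => Iff.rfl
  have hHH : ∀ α, HH α ≠ ⊤ := by
    intro α h
    have h1 : (Pi.single I0 1 : Λ) ∈ HH α := by rw [h]; trivial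
    rw [hHHmem] at h1
    apply hφφ2 α
    rw [← h1]
    congr 1
    exact Subtype.ext hs0.symm
  obtain ⟨R0, hR1, hR2⟩ := exists_subspace p Λ XX hXX0 T HH hHH
    (Fintype.card A * ((d + 1) * m) + 1) (by
      have h1 := arith p (Fintype.card N) (Fintype.card A) d n m hp2 hd1 hm _ hXXcard
      have h2 : Nat.card Λ = p ^ m ^ (d + 1) := by
        rw [Nat.card_eq_fintype_card]
        simp only [Λ, Fintype.card_fun, ZMod.card, Fintype.card_fin, hι]
      rw [h2]
      exact h1) (by
      have h1 : Nat.card T ≤ Fintype.card A ^ ((d + 1) * m) := by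
        have := Nat.card_le_card_of_injective (fun α : T => α.1) Subtype.val_injective
        rw [Nat.card_eq_fintype_card (α := ι × Fin m → A), Fintype.card_fun, hJ] at this
        exact this
      have h2 : Fintype.card A ≤ p ^ Fintype.card A := (Nat.lt_pow_self (by omega : 1 < p)).le
      calc 2 * Nat.card T ≤ p * (p ^ Fintype.card A) ^ ((d + 1) * m) :=
            Nat.mul_le_mul hp2 (h1.trans (Nat.pow_le_pow_left h2 _))
        _ = p ^ (Fintype.card A * ((d + 1) * m) + 1) := by rw [← pow_mul, pow_succ, mul_comm])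
  let R : AddSubgroup P := R0.toAddSubgroup.map ψ
  have hRb : ∀ r ∈ R, ∀ k, r k ∈ AddSubgroup.zmultiples b := by
    rintro _ ⟨l, -, rfl⟩
    exact hψb l
  have hRann : ∀ r ∈ R, ∀ x : P, r * x = 0 ∧ x * r = 0 := by
    intro r hr x
    exact ⟨funext fun k => ((hbz _ (hRb r hr k)).2 (x k)).1,
      funext fun k => ((hbz _ (hRb r hr k)).2 (x k)).2⟩
  obtain ⟨C, _, mk, hsur, hmk⟩ := exists_quotient (coordRing κ) R hRann
  refine ⟨C, inferInstance, ?_, ?_, mk ⟨z I0, hzF I0⟩, ?_, ?_⟩
  · exact Finite.of_surjective mk hsur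
  · intro u w hw
    choose x hx using fun i => hsur (u i)
    choose h hh using fun i => decomp κ d (p ^ (e + 1)) hd (x i : P) (x i).2
    let G : AddSubgroup P :=
      { carrier := {s | ∃ g : (Fin n → N) → N, s = fun k => g fun i => Psi κ d (h i) k}
        zero_mem' := ⟨0, rfl⟩
        add_mem' := by
          rintro _ _ ⟨g, rfl⟩ ⟨g', rfl⟩
          exact ⟨g + g', rfl⟩
        neg_mem' := by
          rintro _ ⟨g, rfl⟩
          exact ⟨-g, rfl⟩ }
    obtain ⟨θ, hθ⟩ := exists_sep (p ^ (e + 1)) hqpos b hord hbann (coordRing κ) R hRb mk hmk G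
      (by
        rintro _ ⟨g, rfl⟩ _ ⟨g', rfl⟩
        exact ⟨g * g', rfl⟩)
      (by
        rintro s ⟨g, hg⟩ ⟨l, hl, rfl⟩
        by_contra hne
        apply hR1 l hl
        refine ⟨?_, Or.inl ⟨h, g, hg⟩⟩
        rintro rfl
        exact hne (map_zero ψ))
      n u (fun i => ⟨x i, hx i, Psi κ d (h i), ⟨fun v => v i, rfl⟩, hh i⟩) w hw
    refine ⟨inc.comp θ, fun h0 => hθ (hinc ?_)⟩
    rw [map_zero]
    exact h0
  · intro h0
    rw [hmk] at h0
    obtain ⟨l, hl, hl'⟩ := h0
    have h1 : l = Pi.single I0 1 := hψinj (hl'.trans hs0.symm)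
    apply hR1 l hl
    refine ⟨?_, Or.inr h1⟩
    rw [h1]
    intro h2
    have h3 : (Pi.single I0 (1 : ZMod p) : (ι → Fin m) → ZMod p) I0 = 0 := congrFun h2 I0
    rw [Pi.single_eq_same] at h3
    exact one_ne_zero h3
  · intro θ
    by_contra hne
    let α : T := ⟨fun j => θ (mk ⟨coord κ j, NonUnitalSubring.subset_closure ⟨j, rfl⟩⟩),
      θ.comp mk, fun j => rfl, hne⟩
    apply hR2 α
    intro l hl
    rw [hHHmem]
    have h1 := hom_eq_on_closure _ (φφ α) (θ.comp mk) (by
      rintro _ ⟨j, rfl⟩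
      exact hφφ1 α j) ⟨ψ l, hψF l⟩
    refine h1.trans ?_
    change θ (mk ⟨ψ l, hψF l⟩) = 0
    rw [(hmk ⟨ψ l, hψF l⟩).mpr ⟨l, hl, rfl⟩, map_zero]

theorem mainP (A : Type) [NonUnitalNonAssocRing A] [Finite A] (p : ℕ) (hp : p.Prime) (κ : ℕ)
    (N : Type) [NonUnitalNonAssocRing N] (hN : ∀ x : N, p ^ κ • x = 0) (inc : N →ₙ+* A)
    (hinc : Function.Injective inc) (hnil : NilpotentRing N) (x y : N) (hxy : x * y ≠ 0) :
    ¬ HasFiniteBasis A := by
  classical
  have : Fact p.Prime := ⟨hp⟩
  have : Finite N := Finite.of_injective inc hinc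
  have hex : ∃ k : ℕ, 1 ≤ k ∧ ∀ a : N, IsProduct k a → a = 0 := hnil
  obtain ⟨h1, h2⟩ := Nat.find_spec hex
  have hmin := fun k hk => Nat.find_min hex (m := k) hk
  set k := Nat.find hex
  have h3 : k ≠ 1 := fun h => hxy (h2 _ (h ▸ IsProduct.elem _))
  have h4 : k ≠ 2 := fun h => hxy (h2 _ (h ▸ IsProduct.mul (IsProduct.elem x) (IsProduct.elem y)))
  obtain ⟨d, hd⟩ : ∃ d, k = d + 2 := ⟨k - 2, by omega⟩
  have h5 := hmin (d + 1) (by omega)
  push Not at h5
  obtain ⟨c, hc, hc0⟩ := h5 (by omega)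
  have hex2 : ∃ e : ℕ, ∀ v : N, IsProduct (d + 1) v → p ^ e • v = 0 := ⟨κ, fun v _ => hN v⟩
  have h6 := Nat.find_spec hex2
  have hmin2 := fun e he => Nat.find_min hex2 (m := e) he
  set E := Nat.find hex2
  have h7 : E ≠ 0 := by
    intro h
    rw [h] at h6
    apply hc0
    have := h6 c hc
    rwa [pow_zero, one_smul] at this
  obtain ⟨e, he⟩ : ∃ e, E = e + 1 := ⟨E - 1, by omega⟩
  have h8 := hmin2 e (by omega)
  push Not at h8
  obtain ⟨b, hb, hb0⟩ := h8
  refine mainGen A p N inc hinc d (by omega) e (fun v hv => ⟨?_, fun w => ⟨?_, ?_⟩⟩) b hb hb0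
  · have := h6 v hv
    rwa [he] at this
  · apply h2
    rw [hd]
    have := IsProduct.mul hv (IsProduct.elem w)
    rwa [show d + 1 + 1 = d + 2 by ring] at this
  · apply h2
    rw [hd]
    have := IsProduct.mul (IsProduct.elem w) hv
    rwa [show 1 + (d + 1) = d + 2 by ring] at this

lemma isProduct_coe {N : Type} [NonUnitalNonAssocRing N] (M : NonUnitalSubring N) {k : ℕ} {a : M}
    (h : IsProduct k a) : IsProduct k (a : N) := by
  induction h with
  | elem a => exact IsProduct.elem _
  | mul _ _ h1 h2 => exact IsProduct.mul h1 h2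

theorem mainAll (A : Type) [NonUnitalNonAssocRing A] [Finite A]
    (N : Type) [NonUnitalNonAssocRing N] (inc : N →ₙ+* A)
    (hinc : Function.Injective inc) (hnil : NilpotentRing N) (x y : N) (hxy : x * y ≠ 0) :
    ¬ HasFiniteBasis A := by
  have : Finite N := Finite.of_injective inc hinc
  -- a prime divisor of the order of `x * y`
  have ho : addOrderOf (x * y) ≠ 1 := fun h => hxy (AddMonoid.addOrderOf_eq_one_iff.mp h)
  obtain ⟨p, hp, hpo⟩ := Nat.exists_prime_and_dvd ho
  obtain ⟨κ, r, hr, hc⟩ := Nat.exists_eq_pow_mul_and_not_dvd (n := Nat.card N) Nat.card_pos.ne' p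
    hp.ne_one
  have hcard : ∀ v : N, Nat.card N • v = 0 := fun v => card_nsmul_eq_zero'
  let M : NonUnitalSubring N :=
    { carrier := {v | p ^ κ • v = 0}
      zero_mem' := smul_zero _
      add_mem' := fun {a b} ha hb => by
        have h1 : p ^ κ • a = 0 := ha
        have h2 : p ^ κ • b = 0 := hb
        change p ^ κ • (a + b) = 0
        rw [smul_add, h1, h2, add_zero]
      neg_mem' := fun {a} ha => by
        have h1 : p ^ κ • a = 0 := ha
        change p ^ κ • (-a) = 0
        rw [smul_neg, h1, neg_zero]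
      mul_mem' := fun {a b} ha _ => by
        have h1 : p ^ κ • a = 0 := ha
        change p ^ κ • (a * b) = 0
        rw [← smul_mul_assoc, h1, zero_mul] }
  have hM : ∀ v : N, r • v ∈ M := by
    intro v
    change p ^ κ • r • v = 0
    rw [smul_smul, ← hc]
    exact hcard v
  refine mainP A p hp κ M (fun v => Subtype.ext v.2) (inc.comp (NonUnitalSubringClass.subtype M))
    (hinc.comp Subtype.val_injective) ?_ ⟨r • x, hM x⟩ ⟨r • y, hM y⟩ ?_
  · obtain ⟨k, hk, h⟩ := hnil
    exact ⟨k, hk, fun a ha => Subtype.ext (h a (isProduct_coe M ha))⟩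
  · intro h
    have h1 : (r • x) * (r • y) = 0 := congrArg Subtype.val h
    rw [smul_mul_smul_comm] at h1
    have h2 : addOrderOf (x * y) ∣ r * r := addOrderOf_dvd_of_nsmul_eq_zero h1
    rcases hp.dvd_mul.mp (hpo.trans h2) with h3 | h3 <;> exact hr h3

end Pool.Agent.QuasiId
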