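import Mathlib
import Pool.Agent.QuasiId

/-!
# Finite alternative rings whose nilpotent subrings have zero multiplication are associative
-/

set_option autoImplicit false

namespace Pool.Agent.QuasiId.Alt

section identities

variable {A : Type} [NonUnitalNonAssocRing A]

/-- the associator -/
def asr (x y z : A) : A := (x * y) * z - x * (y * z)

lemma asr_add1 (x x' y z : A) : asr (x + x') y z = asr x y z + asr x' y z := by
  simp only [asr, add_mul]; abel

lemma asr_add2 (x y y' z : A) : asr x (y + y') z = asr x y z + asr x y' z := by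
  simp only [asr, add_mul, mul_add]; abel

lemma asr_add3 (x y z z' : A) : asr x y (z + z') = asr x y z + asr x y z' := by
  simp only [asr, mul_add]; abel

lemma asr_neg1 (x y z : A) : asr (-x) y z = -asr x y z := by
  simp only [asr, neg_mul]; abel

lemma asr_neg2 (x y z : A) : asr x (-y) z = -asr x y z := by
  simp only [asr, neg_mul, mul_neg]; abel

lemma asr_neg3 (x y z : A) : asr x y (-z) = -asr x y z := by
  simp only [asr, mul_neg]; abel

lemma asr_zero1 (y z : A) : asr 0 y z = 0 := by simp [asr]

lemma asr_zero2 (x z : A) : asr x 0 z = 0 := by simp [asr]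

lemma asr_zero3 (x y : A) : asr x y 0 = 0 := by simp [asr]

/-- the Teichmüller identity -/
lemma teich (w x y z : A) : asr (w * x) y z - asr w (x * y) z + asr w x (y * z) =
    w * asr x y z + asr w x y * z := by
  simp only [asr, mul_sub, sub_mul]; abel

variable (h : IsAlternativeRing A)
include h

lemma asr12 (x y : A) : asr x x y = 0 := sub_eq_zero.mpr (h.1 x y)

lemma asr23 (x y : A) : asr y x x = 0 := sub_eq_zero.mpr (h.2 x y)

lemma swap12 (x y z : A) : asr x y z = - asr y x z := by
  have h1 := asr12 h (x + y) z
  rw [asr_add1, asr_add2, asr_add2, asr12 h, asr12 h, zero_add, add_zero] at h1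
  exact eq_neg_of_add_eq_zero_left h1

lemma swap23 (x y z : A) : asr x y z = - asr x z y := by
  have h1 := asr23 h (y + z) x
  rw [asr_add3, asr_add2, asr_add2, asr23 h, asr23 h, zero_add, add_zero] at h1
  exact eq_neg_of_add_eq_zero_right h1

lemma asr13 (x y : A) : asr x y x = 0 := by
  rw [swap12 h, asr23 h, neg_zero]

lemma cyc1 (x y z : A) : asr x y z = asr y z x := by
  rw [swap12 h x y z, swap23 h y x z, neg_neg]

/-- the function of Bruck and Kleinfeld -/
def bk (w x y z : A) : A := asr (w * x) y z - x * asr w y z - asr x y z * w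

omit h in
lemma bk_def (w x y z : A) : bk w x y z = asr (w * x) y z - x * asr w y z - asr x y z * w := rfl

lemma bk34 (w x y : A) : bk w x y y = 0 := by
  rw [bk_def, asr23 h, asr23 h, asr23 h, mul_zero, zero_mul, sub_zero, sub_zero]

lemma bk_swap34 (w x y z : A) : bk w x y z = - bk w x z y := by
  rw [bk_def, bk_def, swap23 h (w * x) y z, swap23 h w y z, swap23 h x y z, mul_neg, neg_mul]
  abel

lemma bk_cycle (w x y z : A) : bk w x y z = - bk z w x y := by
  have e1 := teich w x y z
  have e2 := teich x y z w
  rw [cyc1 h w (x * y) z, ← cyc1 h (y * z) w x] at e1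
  rw [cyc1 h x (y * z) w, ← cyc1 h (z * w) x y] at e2
  rw [bk_def, bk_def, cyc1 h w y z, cyc1 h z x y]
  have e3 : asr (w * x) y z = asr (x * y) z w - asr (y * z) w x +
      (w * asr x y z + asr w x y * z) := by
    rw [← e1]; abel
  have e4 : asr (z * w) x y = (x * asr y z w + asr x y z * w) - asr (x * y) z w +
      asr (y * z) w x := by
    rw [← e2]; abel
  rw [e3, e4]
  abel

omit h in
lemma bk_inv (h : IsAlternativeRing A) (w x y z : A) : bk w x y z = - bk x y z w := by
  rw [bk_cycle h x y z w, neg_neg]

lemma bk_swap23 (w x y z : A) : bk w x y z = - bk w y x z := by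
  rw [bk_cycle h w x y z, bk_swap34 h z w x y, neg_neg, bk_inv h z w y x]

lemma bk_swap12 (w x y z : A) : bk w x y z = - bk x w y z := by
  rw [bk_cycle h w x y z, bk_swap23 h z w x y, neg_neg, bk_inv h z x w y]

lemma bk_swap13 (w x y z : A) : bk w x y z = - bk y x w z := by
  rw [bk_swap12 h w x y z, bk_swap23 h x w y z, neg_neg, bk_swap12 h x y w z]

lemma bk_swap14 (w x y z : A) : bk w x y z = - bk z x y w := by
  rw [bk_cycle h w x y z, bk_swap23 h z w x y, neg_neg, bk_swap34 h z x w y]

lemma bk13 (w x z : A) : bk w x w z = 0 := by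
  rw [bk_swap14 h, bk34 h, neg_zero]

lemma bk14 (w x y : A) : bk w x y w = 0 := by
  rw [bk_swap13 h, bk34 h, neg_zero]

variable (g : Bool → A)

lemma bk_shift (n : ℕ)
    (ih : ∀ p q r : Tree Bool, p.leaves + q.leaves + r.leaves ≤ n →
      asr (p.eval g) (q.eval g) (r.eval g) = 0)
    (u v b c d : Tree Bool) (hn : u.leaves + v.leaves + b.leaves + c.leaves + d.leaves ≤ n + 1) :
    bk (u.eval g * v.eval g) (b.eval g) (c.eval g) (d.eval g) =
      bk (u.eval g) (v.eval g * b.eval g) (c.eval g) (d.eval g) := by
  have hu := u.leaves_pos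
  have hv := v.leaves_pos
  have hb := b.leaves_pos
  have hc := c.leaves_pos
  have hd := d.leaves_pos
  have e1 : asr (u.eval g * v.eval g) (c.eval g) (d.eval g) = 0 :=
    ih (Tree.node u v) c d (by simp only [Tree.leaves]; omega)
  have e2 := ih b c d (by omega)
  have e3 := ih u c d (by omega)
  have e4 : asr (v.eval g * b.eval g) (c.eval g) (d.eval g) = 0 :=
    ih (Tree.node v b) c d (by simp only [Tree.leaves]; omega)
  have e5 : (u.eval g * v.eval g) * b.eval g = u.eval g * (v.eval g * b.eval g) :=
    sub_eq_zero.mp (ih u v b (by omega))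
  rw [bk_def, bk_def, e1, e2, e3, e4, e5]
  simp

lemma bk_reduce (n : ℕ)
    (ih : ∀ p q r : Tree Bool, p.leaves + q.leaves + r.leaves ≤ n →
      asr (p.eval g) (q.eval g) (r.eval g) = 0) (c d : Tree Bool)
    (hz : ∀ (i : Bool) (b : Tree Bool), 1 + b.leaves + c.leaves + d.leaves ≤ n + 1 →
      bk (g i) (b.eval g) (c.eval g) (d.eval g) = 0) (a : Tree Bool) :
    ∀ b : Tree Bool, a.leaves + b.leaves + c.leaves + d.leaves ≤ n + 1 →
      bk (a.eval g) (b.eval g) (c.eval g) (d.eval g) = 0 := by
  induction a with
  | leaf i =>
    intro b hb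
    exact hz i b (by simpa only [Tree.leaves] using hb)
  | node u v ihu ihv =>
    intro b hb
    simp only [Tree.leaves] at hb
    have := bk_shift h g n ih u v b c d hb
    simp only [Tree.eval]
    rw [this]
    exact ihu (Tree.node v b) (by simp only [Tree.leaves]; omega)

lemma bk_zero (n : ℕ)
    (ih : ∀ p q r : Tree Bool, p.leaves + q.leaves + r.leaves ≤ n →
      asr (p.eval g) (q.eval g) (r.eval g) = 0) (a b c d : Tree Bool)
    (hn : a.leaves + b.leaves + c.leaves + d.leaves ≤ n + 1) :
    bk (a.eval g) (b.eval g) (c.eval g) (d.eval g) = 0 := by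
  have s0 : ∀ (i j k : Bool) (b : A), bk (g i) b (g j) (g k) = 0 := by
    intro i j k b
    by_cases h1 : j = k
    · subst h1; exact bk34 h _ _ _
    · by_cases h2 : i = j
      · subst h2; exact bk13 h _ _ _
      · have h3 : i = k := by
          revert h1 h2
          cases i <;> cases j <;> cases k <;> simp
        subst h3; exact bk14 h _ _ _
  have s1 : ∀ (i j : Bool) (b d : Tree Bool), 1 + b.leaves + 1 + d.leaves ≤ n + 1 →
      bk (g i) (b.eval g) (g j) (d.eval g) = 0 := by
    intro i j b d hb
    rw [bk_swap14 h]
    have := bk_reduce h g n ih (Tree.leaf j) (Tree.leaf i) (fun k b _ => s0 k j i _) d b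
      (by simp only [Tree.leaves]; omega)
    simp only [Tree.eval] at this
    rw [this, neg_zero]
  have s2 : ∀ (i : Bool) (b c d : Tree Bool), 1 + b.leaves + c.leaves + d.leaves ≤ n + 1 →
      bk (g i) (b.eval g) (c.eval g) (d.eval g) = 0 := by
    intro i b c d hb
    rw [bk_swap13 h]
    have := bk_reduce h g n ih (Tree.leaf i) d (fun k b hk => s1 k i b d (by
      simpa only [Tree.leaves] using hk)) c b (by simp only [Tree.leaves]; omega)
    simp only [Tree.eval] at this
    rw [this, neg_zero]
  exact bk_reduce h g n ih c d (fun k b hk => s2 k b c d hk) a b hn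

lemma artin_tree (n : ℕ) : ∀ p q r : Tree Bool, p.leaves + q.leaves + r.leaves ≤ n →
    asr (p.eval g) (q.eval g) (r.eval g) = 0 := by
  induction n with
  | zero =>
    intro p q r hn
    have := p.leaves_pos
    omega
  | succ n ih =>
    have key : ∀ u v q r : Tree Bool, u.leaves + v.leaves + q.leaves + r.leaves ≤ n + 1 →
        asr (u.eval g * v.eval g) (q.eval g) (r.eval g) = 0 := by
      intro u v q r hn
      have hu := u.leaves_pos
      have hv := v.leaves_pos
      have h1 := bk_zero h g n ih u v q r hn
      rw [bk_def, ih u q r (by omega), ih v q r (by omega), mul_zero, zero_mul, sub_zero,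
        sub_zero] at h1
      exact h1
    intro p q r hn
    cases p with
    | node u v =>
      simp only [Tree.leaves] at hn
      exact key u v q r hn
    | leaf i =>
      cases q with
      | node u v =>
        simp only [Tree.leaves] at hn
        rw [cyc1 h]
        exact key u v r (Tree.leaf i) (by simp only [Tree.leaves]; omega)
      | leaf j =>
        cases r with
        | node u v =>
          simp only [Tree.leaves] at hn
          rw [← cyc1 h]
          exact key u v (Tree.leaf i) (Tree.leaf j) (by simp only [Tree.leaves]; omega)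
        | leaf k =>
          simp only [Tree.eval]
          by_cases h1 : j = k
          · subst h1; exact asr23 h _ _
          · by_cases h2 : i = j
            · subst h2; exact asr12 h _ _
            · have h3 : i = k := by
                revert h1 h2
                cases i <;> cases j <;> cases k <;> simp
              subst h3; exact asr13 h _ _

/-- Artin's theorem -/
theorem artin (p q r : A) (hp : p ∈ NonUnitalSubring.closure (Set.range g))
    (hq : q ∈ NonUnitalSubring.closure (Set.range g))
    (hr : r ∈ NonUnitalSubring.closure (Set.range g)) : asr p q r = 0 := by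
  have tree : ∀ f ∈ Subsemigroup.closure (Set.range g), ∃ s : Tree Bool, f = s.eval g := by
    intro f hf
    induction hf using Subsemigroup.closure_induction with
    | mem f hf =>
      obtain ⟨j, rfl⟩ := hf
      exact ⟨Tree.leaf j, rfl⟩
    | mul x y hx hy h1 h2 =>
      obtain ⟨s, rfl⟩ := h1
      obtain ⟨t, rfl⟩ := h2
      exact ⟨Tree.node s t, rfl⟩
  rw [NonUnitalSubring.mem_closure_iff] at hp hq hr
  induction hp using AddSubgroup.closure_induction with
  | zero => exact asr_zero1 _ _
  | add a b _ _ h1 h2 => rw [asr_add1, h1, h2, add_zero]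
  | neg a _ h1 => rw [asr_neg1, h1, neg_zero]
  | mem p hp =>
    induction hq using AddSubgroup.closure_induction with
    | zero => exact asr_zero2 _ _
    | add a b _ _ h1 h2 => rw [asr_add2, h1, h2, add_zero]
    | neg a _ h1 => rw [asr_neg2, h1, neg_zero]
    | mem q hq =>
      induction hr using AddSubgroup.closure_induction with
      | zero => exact asr_zero3 _ _
      | add a b _ _ h1 h2 => rw [asr_add3, h1, h2, add_zero]
      | neg a _ h1 => rw [asr_neg3, h1, neg_zero]
      | mem r hr =>
        obtain ⟨s, rfl⟩ := tree p hp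
        obtain ⟨t, rfl⟩ := tree q hq
        obtain ⟨u, rfl⟩ := tree r hr
        exact artin_tree h g _ s t u le_rfl

end identities

end Pool.Agent.QuasiId.Alt
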