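import Mathlib
import Pool.Agent.QuasiIdAlt

/-!
# Finite alternative rings whose nilpotent subrings have zero multiplication are associative
-/

set_option autoImplicit false

namespace Pool.Agent.QuasiId.Alt

/-- all nilpotent subrings have zero multiplication -/
def Null (A : Type) [NonUnitalNonAssocRing A] : Prop :=
  ∀ (N : Type) [NonUnitalNonAssocRing N] (inc : N →ₙ+* A), Function.Injective inc →
    NilpotentRing N → ∀ x y : N, x * y = 0

lemma Null.subring {A : Type} [NonUnitalNonAssocRing A] (h : Null A) (B : NonUnitalSubring A) :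
    Null B := fun N _ inc hinc hN x y =>
  h N ((NonUnitalSubringClass.subtype B).comp inc) (Subtype.val_injective.comp hinc) hN x y

lemma Null.mul_eq_zero {A : Type} [NonUnitalNonAssocRing A] (h : Null A) (B : NonUnitalSubring A)
    (hB : NilpotentRing B) (x y : A) (hx : x ∈ B) (hy : y ∈ B) : x * y = 0 :=
  congrArg Subtype.val (h B (NonUnitalSubringClass.subtype B) Subtype.val_injective hB ⟨x, hx⟩
    ⟨y, hy⟩)

variable {A : Type} [NonUnitalNonAssocRing A]

/-- the power `a ^ (k + 1)` -/
def pw (a : A) : ℕ → A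
  | 0 => a
  | k + 1 => a * pw a k

section

variable (h : IsAlternativeRing A)
include h

/-- Artin's theorem for two elements -/
lemma assoc2 (x y : A) (p q r : A) (hp : p ∈ NonUnitalSubring.closure {x, y})
    (hq : q ∈ NonUnitalSubring.closure {x, y}) (hr : r ∈ NonUnitalSubring.closure {x, y}) :
    (p * q) * r = p * (q * r) := by
  let g : Bool → A := fun b => if b then x else y
  have hg : Set.range g = {x, y} := by
    ext z
    constructor
    · rintro ⟨b, rfl⟩
      cases b <;> simp [g]
    · rintro (rfl | hz)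
      · exact ⟨true, rfl⟩
      · exact ⟨false, hz.symm⟩
  rw [← hg] at hp hq hr
  exact sub_eq_zero.mp (artin h g p q r hp hq hr)

omit h in
lemma pw_mem (S : NonUnitalSubring A) (a : A) (ha : a ∈ S) (k : ℕ) : pw a k ∈ S := by
  induction k with
  | zero => exact ha
  | succ k ih => exact S.mul_mem ha ih

lemma pw_mul (a : A) (i j : ℕ) : pw a i * pw a j = pw a (i + j + 1) := by
  have ha : a ∈ NonUnitalSubring.closure {a, a} := NonUnitalSubring.subset_closure (by simp)
  induction i with
  | zero => simp only [zero_add, pw]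
  | succ i ih =>
    change (a * pw a i) * pw a j = _
    rw [assoc2 h a a a (pw a i) (pw a j) ha (pw_mem _ a ha i) (pw_mem _ a ha j), ih,
      show i + 1 + j + 1 = (i + j + 1) + 1 by ring]
    rfl

lemma exists_idem [Finite A] (a : A) : ∃ k, pw a k * pw a k = pw a k := by
  obtain ⟨i, j, hij, he⟩ := Finite.exists_ne_map_eq_of_infinite (pw a)
  wlog hlt : i < j generalizing i j
  · exact this j i hij.symm he.symm (lt_of_le_of_ne (not_lt.mp hlt) hij.symm)
  obtain ⟨p, hp⟩ : ∃ p, j = i + p := ⟨j - i, by omega⟩
  have hp1 : 1 ≤ p := by omega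
  subst hp
  have h1 : ∀ s, pw a (i + s) = pw a (i + s + p) := by
    intro s
    induction s with
    | zero => exact he
    | succ s ih =>
      have e1 : pw a (i + (s + 1)) = a * pw a (i + s) := rfl
      have e2 : pw a (i + (s + 1) + p) = a * pw a (i + s + p) := by
        rw [show i + (s + 1) + p = (i + s + p) + 1 by ring]; rfl
      rw [e1, e2, ih]
  have h2 : ∀ s t, pw a (i + s) = pw a (i + s + t * p) := by
    intro s t
    induction t with
    | zero => simp
    | succ t ih =>
      rw [ih, show i + s + t * p = i + (s + t * p) by ring, h1 (s + t * p)]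
      congr 1
      ring
  refine ⟨i + ((i + 1) * p - 1 - i), ?_⟩
  have h3 : i + 1 ≤ (i + 1) * p := Nat.le_mul_of_pos_right _ hp1
  rw [pw_mul h]
  have h4 := h2 ((i + 1) * p - 1 - i) (i + 1)
  rw [h4]
  congr 1
  omega

lemma pw_zero_of_le (a : A) (k : ℕ) (hk : pw a k = 0) (j : ℕ) (hj : k ≤ j) : pw a j = 0 := by
  obtain ⟨s, rfl⟩ := Nat.exists_eq_add_of_le hj
  induction s with
  | zero => exact hk
  | succ s ih =>
    have : pw a (k + (s + 1)) = a * pw a (k + s) := rfl
    rw [this, ih (by omega), mul_zero]

/-- nilpotent elements have square zero -/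
lemma sq_zero_of_pw (hnull : Null A) (a : A) (k : ℕ) (hk : pw a k = 0) : a * a = 0 := by
  let S : ℕ → AddSubgroup A := fun m => AddSubgroup.closure {b | ∃ j, m ≤ j ∧ b = pw a j}
  have hS : ∀ i j x y, x ∈ S i → y ∈ S j → x * y ∈ S (i + j + 1) := by
    intro i j x y hx hy
    induction hx using AddSubgroup.closure_induction with
    | zero => rw [zero_mul]; exact AddSubgroup.zero_mem _
    | add x x' _ _ h1 h2 => rw [add_mul]; exact AddSubgroup.add_mem _ h1 h2
    | neg x _ h1 => rw [neg_mul]; exact AddSubgroup.neg_mem _ h1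
    | mem x hx =>
      induction hy using AddSubgroup.closure_induction with
      | zero => rw [mul_zero]; exact AddSubgroup.zero_mem _
      | add x x' _ _ h1 h2 => rw [mul_add]; exact AddSubgroup.add_mem _ h1 h2
      | neg x _ h1 => rw [mul_neg]; exact AddSubgroup.neg_mem _ h1
      | mem y hy =>
        obtain ⟨i', hi', rfl⟩ := hx
        obtain ⟨j', hj', rfl⟩ := hy
        rw [pw_mul h]
        exact AddSubgroup.subset_closure ⟨_, by omega, rfl⟩
  have hmono : ∀ i j, i ≤ j → S j ≤ S i := by
    intro i j hij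
    apply AddSubgroup.closure_mono
    rintro _ ⟨l, hl, rfl⟩
    exact ⟨l, by omega, rfl⟩
  let B : NonUnitalSubring A :=
    { S 0 with
      mul_mem' := fun {x y} hx hy => hmono 0 1 (by omega) (hS 0 0 x y hx hy) }
  have hprod : ∀ m (x : B), IsProduct m x → 1 ≤ m ∧ (x : A) ∈ S (m - 1) := by
    intro m x hx
    induction hx with
    | elem x => exact ⟨le_rfl, x.2⟩
    | @mul i j x y _ _ h1 h2 =>
      refine ⟨by omega, ?_⟩
      have := hS _ _ _ _ h1.2 h2.2
      have e : i - 1 + (j - 1) + 1 = i + j - 1 := by omega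
      rw [e] at this
      exact this
  have hSk : ∀ x ∈ S k, x = 0 := by
    intro x hx
    induction hx using AddSubgroup.closure_induction with
    | zero => rfl
    | add x x' _ _ h1 h2 => rw [h1, h2, add_zero]
    | neg x _ h1 => rw [h1, neg_zero]
    | mem x hx =>
      obtain ⟨j, hj, rfl⟩ := hx
      exact pw_zero_of_le h a k hk j hj
  have ha : a ∈ B := AddSubgroup.subset_closure ⟨0, le_rfl, rfl⟩
  refine hnull.mul_eq_zero B ⟨k + 1, by omega, fun x hx => ?_⟩ a a ha ha
  have := (hprod _ x hx).2
  exact Subtype.ext (hSk _ (by simpa using this))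

/-- anticommuting elements with square zero -/
lemma mul_zero_of_anti (hnull : Null A) (x y : A) (hx : x * x = 0) (hy : y * y = 0)
    (hxy : x * y = - (y * x)) : x * y = 0 := by
  have hyx : y * x = - (x * y) := by rw [hxy, neg_neg]
  have e1 : x * (x * y) = 0 := by rw [← h.1, hx, zero_mul]
  have e2 : (x * y) * y = 0 := by rw [h.2, hy, mul_zero]
  have e3 : y * (x * y) = 0 := by rw [hxy, mul_neg, ← h.1, hy, zero_mul, neg_zero]
  have e4 : (x * y) * x = 0 := by rw [hxy, neg_mul, h.2, hx, mul_zero, neg_zero]
  have hxm : x ∈ NonUnitalSubring.closure {x, y} := NonUnitalSubring.subset_closure (by simp)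
  have hym : y ∈ NonUnitalSubring.closure {x, y} := NonUnitalSubring.subset_closure (by simp)
  have e5 : (x * y) * (x * y) = 0 := by
    rw [assoc2 h x y x y (x * y) hxm hym (NonUnitalSubring.mul_mem _ hxm hym), e3, mul_zero]
  have key : ∀ i j k i' j' k' : ℤ, (i • x + j • y + k • (x * y)) *
      (i' • x + j' • y + k' • (x * y)) = (i * j' - j * i') • (x * y) := by
    intro i j k i' j' k'
    simp only [add_mul, mul_add, smul_mul_smul_comm, hx, hy, hyx, e1, e2, e3, e4, e5, smul_zero,
      zero_add, add_zero]
    module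
  let B : NonUnitalSubring A :=
    { carrier := {a | ∃ i j k : ℤ, a = i • x + j • y + k • (x * y)}
      zero_mem' := ⟨0, 0, 0, by simp⟩
      add_mem' := by
        rintro _ _ ⟨i, j, k, rfl⟩ ⟨i', j', k', rfl⟩
        exact ⟨i + i', j + j', k + k', by module⟩
      neg_mem' := by
        rintro _ ⟨i, j, k, rfl⟩
        exact ⟨-i, -j, -k, by module⟩
      mul_mem' := by
        rintro _ _ ⟨i, j, k, rfl⟩ ⟨i', j', k', rfl⟩
        exact ⟨0, 0, i * j' - j * i', by rw [key]; module⟩ }
  have hprod : ∀ m (a : B), IsProduct m a → (2 ≤ m → ∃ k : ℤ, (a : A) = k • (x * y)) ∧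
      (3 ≤ m → a = 0) := by
    intro m a ha
    induction ha with
    | elem a => exact ⟨fun h => by omega, fun h => by omega⟩
    | @mul i j a b ha hb h1 h2 =>
      have hi := isProduct_pos ha
      have hj := isProduct_pos hb
      obtain ⟨p, q, r, hp⟩ := a.2
      obtain ⟨p', q', r', hp'⟩ := b.2
      constructor
      · intro _
        refine ⟨p * q' - q * p', ?_⟩
        change (a : A) * (b : A) = _
        rw [hp, hp', key]
      · intro h3
        apply Subtype.ext
        change (a : A) * (b : A) = 0
        by_cases c : 2 ≤ i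
        · obtain ⟨k, hk⟩ := h1.1 c
          have := key 0 0 k p' q' r'
          rw [zero_smul, zero_smul, zero_add, zero_add, ← hk, ← hp'] at this
          rw [this]
          simp
        · obtain ⟨k, hk⟩ := h2.1 (by omega)
          have := key p q r 0 0 k
          rw [zero_smul, zero_smul, zero_add, zero_add, ← hk, ← hp] at this
          rw [this]
          simp
  exact hnull.mul_eq_zero B ⟨3, by norm_num, fun a ha => (hprod 3 a ha).2 le_rfl⟩ x y
    ⟨1, 0, 0, by simp⟩ ⟨0, 1, 0, by simp⟩

lemma anti_of_sq (x y : A) (hx : x * x = 0) (hy : y * y = 0) (hxy : (x + y) * (x + y) = 0) :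
    x * y = - (y * x) := by
  rw [add_mul, mul_add, mul_add, hx, hy, zero_add, add_zero] at hxy
  exact eq_neg_of_add_eq_zero_left hxy

end

end Pool.Agent.QuasiId.Alt
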