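import Mathlib
import Pool.Agent.QuasiIdAlt2

/-!
# Finite alternative rings whose nilpotent subrings have zero multiplication are associative
-/

set_option autoImplicit false

namespace Pool.Agent.QuasiId.Alt

variable {A : Type} [NonUnitalNonAssocRing A]

/-- the Peirce components -/
def Pc (e : A) (i j : ℤ) : AddSubgroup A where
  carrier := {a | e * a = i • a ∧ a * e = j • a}
  zero_mem' := by simp
  add_mem' := fun {a b} ha hb => by
    refine ⟨?_, ?_⟩
    · rw [mul_add, ha.1, hb.1, smul_add]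
    · rw [add_mul, ha.2, hb.2, smul_add]
  neg_mem' := fun {a} ha => by
    refine ⟨?_, ?_⟩
    · rw [mul_neg, ha.1, smul_neg]
    · rw [neg_mul, ha.2, smul_neg]

section

variable (h : IsAlternativeRing A)
include h

lemma pe (e : A) (i j k l : ℤ) (x y : A) (hx : x ∈ Pc e i j) (hy : y ∈ Pc e k l) :
    e * (x * y) = (i + j - k) • (x * y) ∧ (x * y) * e = (l - j + k) • (x * y) ∧
      (j - k) • (x * y) = (i - l) • (y * x) := by
  obtain ⟨hx1, hx2⟩ := hx
  obtain ⟨hy1, hy2⟩ := hy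
  have a1 : asr x e y = (j - k) • (x * y) := by
    rw [asr, hx2, hy1, smul_mul_assoc, mul_smul_comm]; module
  have a2 : asr e x y = i • (x * y) - e * (x * y) := by
    rw [asr, hx1, smul_mul_assoc]
  have a3 : asr x y e = (x * y) * e - l • (x * y) := by
    rw [asr, hy2, mul_smul_comm]
  have a4 : asr y e x = (l - i) • (y * x) := by
    rw [asr, hy2, hx1, smul_mul_assoc, mul_smul_comm]; module
  have b1 : asr e x y = - asr x e y := swap12 h _ _ _
  have b2 : asr x y e = - asr x e y := swap23 h _ _ _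
  have b3 : asr x e y = - asr y e x := by
    rw [swap12 h x e y, swap23 h e x y, neg_neg, swap12 h e y x]
  refine ⟨?_, ?_, ?_⟩
  · rw [a1, a2] at b1
    have : e * (x * y) = i • (x * y) + (j - k) • (x * y) := by
      rw [sub_eq_iff_eq_add] at b1
      rw [b1]
      abel
    rw [this]; module
  · rw [a1, a3] at b2
    rw [sub_eq_iff_eq_add] at b2
    rw [b2]; module
  · rw [a1, a4] at b3
    rw [b3]; module

/-- the product of Peirce components that do not match vanishes -/
lemma pe_zero (hnull : Null A) (e : A) (he : e * e = e) (i j k l : ℤ) (hi : i = 0 ∨ i = 1)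
    (hj : j = 0 ∨ j = 1) (hk : k = 0 ∨ k = 1) (hl : l = 0 ∨ l = 1) (hjk : j ≠ k) (x y : A)
    (hx : x ∈ Pc e i j) (hy : y ∈ Pc e k l) : x * y = 0 := by
  obtain ⟨p1, p2, p3⟩ := pe h e i j k l x y hx hy
  obtain ⟨q1, q2, q3⟩ := pe h e k l i j y x hy hx
  have ee : e * (e * (x * y)) = e * (x * y) := by rw [← h.1, he]
  have hjk' : j - k = 1 ∨ j - k = -1 := by omega
  by_cases hil : i = l
  · -- immediate
    rw [hil, sub_self, zero_smul] at p3
    rcases hjk' with c | c
    · rwa [c, one_smul] at p3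
    · rwa [c, neg_smul, one_smul, neg_eq_zero] at p3
  · by_cases hij : i = j
    · -- `(i, i)` and `(1 - i, 1 - i)`
      have h1 : i - l = j - k := by omega
      rw [h1] at p3
      have hst : x * y = y * x := by
        rcases hjk' with c | c
        · rwa [c, one_smul, one_smul] at p3
        · rwa [c, neg_smul, neg_smul, one_smul, one_smul, neg_inj] at p3
      rw [← hst] at q1
      have h2 : (i + j - k) • (x * y) = (k + l - i) • (x * y) := p1.symm.trans q1
      have h3 : (3 : ℤ) • (x * y) = 0 := by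
        have : (i + j - k - (k + l - i)) • (x * y) = 0 := by rw [sub_smul, h2, sub_self]
        have e3 : i + j - k - (k + l - i) = 3 ∨ i + j - k - (k + l - i) = -3 := by omega
        rcases e3 with c | c
        · rwa [c] at this
        · rwa [c, neg_smul, neg_eq_zero] at this
      have h4 : (2 : ℤ) • (x * y) = 0 := by
        rw [p1, mul_smul_comm, p1, smul_smul] at ee
        have h5 : ((i + j - k) * (i + j - k) - (i + j - k)) • (x * y) = 0 := by
          rw [sub_smul, ee, sub_self]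
        have h6 : (i + j - k) * (i + j - k) - (i + j - k) = 2 := by
          have : i + j - k = 2 ∨ i + j - k = -1 := by omega
          rcases this with c | c <;> rw [c] <;> norm_num
        rwa [h6] at h5
      have : x * y = (3 : ℤ) • (x * y) - (2 : ℤ) • (x * y) := by module
      rw [this, h3, h4, sub_zero]
    · -- both in the same mixed component
      have hki : k = i := by omega
      have hlj : l = j := by omega
      subst hki hlj
      have sq : ∀ z ∈ Pc e k l, z * z = 0 := by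
        intro z hz
        obtain ⟨r1, -, -⟩ := pe h e k l k l z z hz hz
        have r2 : e * (z * z) = k • (z * z) := by rw [← h.2, hz.1, smul_mul_assoc]
        have r3 : (k - (k + l - k)) • (z * z) = 0 := by rw [sub_smul, ← r1, ← r2, sub_self]
        have r4 : k - (k + l - k) = 1 ∨ k - (k + l - k) = -1 := by omega
        rcases r4 with c | c
        · rwa [c, one_smul] at r3
        · rwa [c, neg_smul, one_smul, neg_eq_zero] at r3
      exact mul_zero_of_anti h hnull x y (sq x hx) (sq y hy)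
        (anti_of_sq h x y (sq x hx) (sq y hy) (sq _ ((Pc e k l).add_mem hx hy)))

/-- the Peirce decomposition -/
lemma pe_decomp (e : A) (he : e * e = e) (a : A) : ∃ a1 ∈ Pc e 1 1, ∃ a2 ∈ Pc e 1 0,
    ∃ a3 ∈ Pc e 0 1, ∃ a4 ∈ Pc e 0 0, a = a1 + a2 + a3 + a4 := by
  have f1 : (e * a) * e = e * (a * e) := sub_eq_zero.mp (asr13 h e a)
  have f2 : e * (e * a) = e * a := by rw [← h.1, he]
  have f3 : (a * e) * e = a * e := by rw [h.2, he]
  have f4 : e * ((e * a) * e) = (e * a) * e := by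
    have : (e * (e * a)) * e = e * ((e * a) * e) := sub_eq_zero.mp (asr13 h e (e * a))
    rw [← this, f2]
  have f5 : ((e * a) * e) * e = (e * a) * e := by rw [h.2, he]
  refine ⟨(e * a) * e, ⟨?_, ?_⟩, e * a - (e * a) * e, ⟨?_, ?_⟩, a * e - (e * a) * e, ⟨?_, ?_⟩,
    a - e * a - a * e + (e * a) * e, ⟨?_, ?_⟩, by abel⟩
  · rw [f4, one_smul]
  · rw [f5, one_smul]
  · rw [mul_sub, f2, f4, one_smul]
  · rw [sub_mul, f5, sub_self, zero_smul]
  · rw [mul_sub, f4, ← f1, sub_self, zero_smul]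
  · rw [sub_mul, f3, f5, one_smul]
  · rw [mul_add, mul_sub, mul_sub, f2, f4, ← f1, zero_smul]; abel
  · rw [add_mul, sub_mul, sub_mul, f3, f5, zero_smul]; abel

lemma case1 (hnull : Null A) (e : A) (he : e * e = e)
    (h11 : ∀ x ∈ Pc e 1 1, ∀ y ∈ Pc e 1 1, ∀ z ∈ Pc e 1 1, asr x y z = 0)
    (h00 : ∀ x ∈ Pc e 0 0, ∀ y ∈ Pc e 0 0, ∀ z ∈ Pc e 0 0, asr x y z = 0) :
    ∀ x y z : A, asr x y z = 0 := by
  have mem : ∀ i j l : ℤ, ∀ x ∈ Pc e i j, ∀ y ∈ Pc e j l, x * y ∈ Pc e i l := by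
    intro i j l x hx y hy
    obtain ⟨p1, p2, -⟩ := pe h e i j j l x y hx hy
    refine ⟨?_, ?_⟩
    · rw [p1]; congr 1; ring
    · rw [p2]; congr 1; ring
  have n1 : ∀ i j k l m n : ℤ, (i = 0 ∨ i = 1) → (j = 0 ∨ j = 1) → (k = 0 ∨ k = 1) →
      (l = 0 ∨ l = 1) → (m = 0 ∨ m = 1) → (n = 0 ∨ n = 1) → (j ≠ k ∨ l ≠ m) →
      ∀ x ∈ Pc e i j, ∀ y ∈ Pc e k l, ∀ z ∈ Pc e m n, asr x y z = 0 := by
    intro i j k l m n hi hj hk hl hm hn hne x hx y hy z hz
    by_cases c1 : j = k
    · have c2 : l ≠ m := hne.resolve_left (by simpa using c1)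
      subst c1
      rw [asr, pe_zero h hnull e he j l m n hj hl hm hn c2 y z hy hz, mul_zero,
        pe_zero h hnull e he i l m n hi hl hm hn c2 (x * y) z (mem i j l x hx y hy) hz, sub_zero]
    · rw [asr, pe_zero h hnull e he i j k l hi hj hk hl c1 x y hx hy, zero_mul, zero_sub,
        neg_eq_zero]
      by_cases c2 : l = m
      · subst c2
        exact pe_zero h hnull e he i j k n hi hj hk hn c1 x (y * z) hx (mem k l n y hy z hz)
      · rw [pe_zero h hnull e he k l m n hk hl hm hn c2 y z hy hz, mul_zero]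
  have n2 : ∀ i j k l m n : ℤ, (i = 0 ∨ i = 1) → (j = 0 ∨ j = 1) → (k = 0 ∨ k = 1) →
      (l = 0 ∨ l = 1) → (m = 0 ∨ m = 1) → (n = 0 ∨ n = 1) →
      ∀ x ∈ Pc e i j, ∀ y ∈ Pc e k l, ∀ z ∈ Pc e m n, asr x y z = 0 := by
    intro i j k l m n hi hj hk hl hm hn x hx y hy z hz
    by_cases c1 : j ≠ k ∨ l ≠ m
    · exact n1 i j k l m n hi hj hk hl hm hn c1 x hx y hy z hz
    by_cases c2 : n = i
    · by_cases c3 : l ≠ i ∨ j ≠ m
      · rw [swap12 h, n1 k l i j m n hk hl hi hj hm hn c3 y hy x hx z hz, neg_zero]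
      · push Not at c1 c3
        obtain ⟨c11, c12⟩ := c1
        obtain ⟨c31, c32⟩ := c3
        have e1 : j = i := by omega
        have e2 : k = i := by omega
        have e3 : m = i := by omega
        subst c2
        rw [e1] at hx
        rw [e2, c31] at hy
        rw [e3] at hz
        rcases hi with hi | hi
        · rw [hi] at hx hy hz
          exact h00 x hx y hy z hz
        · rw [hi] at hx hy hz
          exact h11 x hx y hy z hz
    · rw [cyc1 h]
      exact n1 k l m n i j hk hl hm hn hi hj (Or.inr c2) y hy z hz x hx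
  have z0 : (0 : ℤ) = 0 ∨ (0 : ℤ) = 1 := Or.inl rfl
  have z1 : (1 : ℤ) = 0 ∨ (1 : ℤ) = 1 := Or.inr rfl
  have s1 : ∀ k l m n : ℤ, (k = 0 ∨ k = 1) → (l = 0 ∨ l = 1) → (m = 0 ∨ m = 1) →
      (n = 0 ∨ n = 1) → ∀ x : A, ∀ y ∈ Pc e k l, ∀ z ∈ Pc e m n, asr x y z = 0 := by
    intro k l m n hk hl hm hn x y hy z hz
    obtain ⟨a1, h1, a2, h2, a3, h3, a4, h4, rfl⟩ := pe_decomp h e he x
    rw [asr_add1, asr_add1, asr_add1, n2 1 1 k l m n z1 z1 hk hl hm hn a1 h1 y hy z hz,
      n2 1 0 k l m n z1 z0 hk hl hm hn a2 h2 y hy z hz,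
      n2 0 1 k l m n z0 z1 hk hl hm hn a3 h3 y hy z hz,
      n2 0 0 k l m n z0 z0 hk hl hm hn a4 h4 y hy z hz]
    simp
  have s2 : ∀ m n : ℤ, (m = 0 ∨ m = 1) → (n = 0 ∨ n = 1) → ∀ x y : A, ∀ z ∈ Pc e m n,
      asr x y z = 0 := by
    intro m n hm hn x y z hz
    obtain ⟨a1, h1, a2, h2, a3, h3, a4, h4, rfl⟩ := pe_decomp h e he y
    rw [asr_add2, asr_add2, asr_add2, s1 1 1 m n z1 z1 hm hn x a1 h1 z hz,
      s1 1 0 m n z1 z0 hm hn x a2 h2 z hz, s1 0 1 m n z0 z1 hm hn x a3 h3 z hz,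
      s1 0 0 m n z0 z0 hm hn x a4 h4 z hz]
    simp
  intro x y z
  obtain ⟨a1, h1, a2, h2, a3, h3, a4, h4, rfl⟩ := pe_decomp h e he z
  rw [asr_add3, asr_add3, asr_add3, s2 1 1 z1 z1 x y a1 h1, s2 1 0 z1 z0 x y a2 h2,
    s2 0 1 z0 z1 x y a3 h3, s2 0 0 z0 z0 x y a4 h4]
  simp

end

end Pool.Agent.QuasiId.Alt
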