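import Mathlib
import Pool.Agent.QuasiIdAlt3

/-!
# Finite alternative rings whose nilpotent subrings have zero multiplication are associative
-/

set_option autoImplicit false

namespace Pool.Agent.QuasiId.Alt

lemma cyclic_mod (R : Type) [Ring R] [Finite R] (I : Ideal R) [I.IsTwoSided]
    (hdom : ∀ a b : R, a * b ∈ I → a ∈ I ∨ b ∈ I) (h1 : (1 : R) ∉ I) :
    ∃ c : R, ∀ b : R, b ∈ I ∨ ∃ n : ℕ, b - c ^ (n + 1) ∈ I := by
  have hnt : Nontrivial (R ⧸ I) := Ideal.Quotient.nontrivial_iff.mpr
    ((Ideal.ne_top_iff_one I).mpr h1)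
  have hnz : NoZeroDivisors (R ⧸ I) := by
    refine ⟨fun {a b} hab => ?_⟩
    obtain ⟨a, rfl⟩ := Ideal.Quotient.mk_surjective a
    obtain ⟨b, rfl⟩ := Ideal.Quotient.mk_surjective b
    rw [← map_mul, Ideal.Quotient.eq_zero_iff_mem] at hab
    rw [Ideal.Quotient.eq_zero_iff_mem, Ideal.Quotient.eq_zero_iff_mem]
    exact hdom a b hab
  have hdo : IsDomain (R ⧸ I) := NoZeroDivisors.to_isDomain _
  have hfin : Finite (R ⧸ I) := Finite.of_surjective _ (Ideal.Quotient.mk_surjective (I := I))
  have hK : IsField (R ⧸ I) := Finite.isDomain_to_isField (R ⧸ I)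
  obtain ⟨ζ, hζ⟩ : ∃ ζ : R ⧸ I, ∀ x : R ⧸ I, x = 0 ∨ ∃ n : ℕ, x = ζ ^ (n + 1) := by
    let _ := hK.toField
    obtain ⟨ζ, hζ⟩ := IsCyclic.exists_generator (α := (R ⧸ I)ˣ)
    refine ⟨ζ, fun x => ?_⟩
    by_cases hx : x = 0
    · exact Or.inl hx
    · right
      obtain ⟨n, hn⟩ := (mem_powers_iff_mem_zpowers.mpr (hζ (Units.mk0 x hx)))
      have ho : 0 < orderOf ζ := orderOf_pos ζ
      refine ⟨n + orderOf ζ - 1, ?_⟩
      have e1 : n + orderOf ζ - 1 + 1 = n + orderOf ζ := by omega
      have e2 : ζ ^ (n + orderOf ζ) = Units.mk0 x hx := by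
        rw [pow_add, pow_orderOf_eq_one, mul_one]
        exact hn
      rw [e1]
      have e3 := congrArg Units.val e2
      rw [Units.val_pow_eq_pow_val, Units.val_mk0] at e3
      exact e3.symm
  obtain ⟨c, rfl⟩ := Ideal.Quotient.mk_surjective ζ
  refine ⟨c, fun b => ?_⟩
  rcases hζ (Ideal.Quotient.mk I b) with hb | ⟨n, hn⟩
  · exact Or.inl (Ideal.Quotient.eq_zero_iff_mem.mp hb)
  · right
    refine ⟨n, ?_⟩
    rw [← map_pow] at hn
    exact Ideal.Quotient.eq.mp hn

variable {A : Type} [NonUnitalNonAssocRing A]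

lemma field_abs (e : A) (M : AddSubgroup A) (R : Type) [Ring R] [Finite R] (ι : R → A)
    (hadd : ∀ x y, ι (x + y) = ι x + ι y) (hmul : ∀ x y, ι (x * y) = ι x * ι y)
    (hone : ι 1 = e) (hM1 : e ∉ M) (hMl : ∀ a, ∀ m ∈ M, a * m ∈ M) (hMr : ∀ a, ∀ m ∈ M, m * a ∈ M)
    (hdom : ∀ x y : A, x * y ∈ M → x ∈ M ∨ y ∈ M) :
    ∃ c : R, ∀ b : R, ι b ∈ M ∨ ∃ n, ι b - pw (ι c) n ∈ M := by
  have hzero : ι 0 = 0 := by
    have := hadd 0 0
    rw [add_zero] at this
    exact left_eq_add.mp this
  have hneg : ∀ x, ι (-x) = - ι x := by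
    intro x
    have := hadd (-x) x
    rw [neg_add_cancel, hzero] at this
    exact eq_neg_of_add_eq_zero_left this.symm
  let I : Ideal R :=
    { carrier := {r | ι r ∈ M}
      zero_mem' := by
        change ι 0 ∈ M
        rw [hzero]; exact M.zero_mem
      add_mem' := fun {a b} ha hb => by
        change ι (a + b) ∈ M
        rw [hadd]; exact M.add_mem ha hb
      smul_mem' := fun c {x} hx => by
        change ι (c * x) ∈ M
        rw [hmul]; exact hMl _ _ hx }
  have hI : ∀ r, r ∈ I ↔ ι r ∈ M := fun r => Iff.rfl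
  have : I.IsTwoSided := ⟨fun {a} b ha => by
    rw [hI, hmul]; exact hMr _ _ ha⟩
  obtain ⟨c, hc⟩ := cyclic_mod R I (fun a b hab => by
    rw [hI, hmul] at hab
    rw [hI, hI]
    exact hdom _ _ hab) (by rw [hI, hone]; exact hM1)
  have hpow : ∀ n, ι (c ^ (n + 1)) = pw (ι c) n := by
    intro n
    induction n with
    | zero => simp [pw]
    | succ n ih => rw [pow_succ', hmul, ih]; rfl
  refine ⟨c, fun b => ?_⟩
  rcases hc b with hb | ⟨n, hn⟩
  · exact Or.inl hb
  · right
    refine ⟨n, ?_⟩
    rw [hI, sub_eq_add_neg, hadd, hneg, hpow, ← sub_eq_add_neg] at hn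
    exact hn

lemma nil_case (h : IsAlternativeRing A) (hnull : Null A) (hn : ∀ a : A, a * a = 0) (x y : A) :
    x * y = 0 :=
  mul_zero_of_anti h hnull x y (hn x) (hn y) (anti_of_sq h x y (hn x) (hn y) (hn _))

lemma local_case [Finite A] (h : IsAlternativeRing A) (hnull : Null A) (e : A) (he0 : e ≠ 0)
    (he : ∀ a : A, e * a = a ∧ a * e = a) (hid : ∀ f : A, f * f = f → f = 0 ∨ f = e) :
    ∀ x y z : A, asr x y z = 0 := by
  -- every element has square zero or is invertible
  have dich : ∀ a : A, a * a = 0 ∨ ∃ k, pw a k = e := by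
    intro a
    obtain ⟨k, hk⟩ := exists_idem h a
    rcases hid _ hk with h0 | h1
    · exact Or.inl (sq_zero_of_pw h hnull a k h0)
    · exact Or.inr ⟨k, h1⟩
  have excl : ∀ a : A, a * a = 0 → ∀ k, pw a k ≠ e := by
    intro a ha k hk
    cases k with
    | zero =>
      have hk' : a = e := hk
      rw [hk', (he e).1] at ha
      exact he0 ha
    | succ k =>
      have : pw a (k + 1) = 0 := pw_zero_of_le h a 1 ha (k + 1) (by omega)
      exact he0 (hk.symm.trans this)
  have pw0 : ∀ k, pw (0 : A) k = 0 := by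
    intro k
    cases k with
    | zero => rfl
    | succ k => exact zero_mul _
  have mulL : ∀ a x : A, x * x = 0 → (a * x) * (a * x) = 0 := by
    intro a x hx
    rcases dich (a * x) with h1 | ⟨k, hk⟩
    · exact h1
    · exfalso
      have ha : a ∈ NonUnitalSubring.closure {a, x} := NonUnitalSubring.subset_closure (by simp)
      have hx' : x ∈ NonUnitalSubring.closure {a, x} := NonUnitalSubring.subset_closure (by simp)
      have hax := NonUnitalSubring.mul_mem _ ha hx'
      have key : ∀ k, pw (a * x) k * x = 0 := by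
        intro k
        induction k with
        | zero =>
          change (a * x) * x = 0
          rw [h.2, hx, mul_zero]
        | succ k ih =>
          change ((a * x) * pw (a * x) k) * x = 0
          rw [assoc2 h a x _ _ _ hax (pw_mem _ _ hax k) hx', ih, mul_zero]
      have hx0 : x = 0 := by
        have := key k
        rwa [hk, (he x).1] at this
      rw [hx0, mul_zero, pw0] at hk
      exact he0 hk.symm
  have mulR : ∀ a x : A, x * x = 0 → (x * a) * (x * a) = 0 := by
    intro a x hx
    rcases dich (x * a) with h1 | ⟨k, hk⟩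
    · exact h1
    · exfalso
      have ha : a ∈ NonUnitalSubring.closure {a, x} := NonUnitalSubring.subset_closure (by simp)
      have hx' : x ∈ NonUnitalSubring.closure {a, x} := NonUnitalSubring.subset_closure (by simp)
      have hxa := NonUnitalSubring.mul_mem _ hx' ha
      have key : ∀ k, x * pw (x * a) k = 0 := by
        intro k
        cases k with
        | zero =>
          change x * (x * a) = 0
          rw [← h.1, hx, zero_mul]
        | succ k =>
          change x * ((x * a) * pw (x * a) k) = 0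
          rw [← assoc2 h a x _ _ _ hx' hxa (pw_mem _ _ hxa k), ← h.1, hx, zero_mul, zero_mul]
      have hx0 : x = 0 := by
        have := key k
        rwa [hk, (he x).2] at this
      rw [hx0, zero_mul, pw0] at hk
      exact he0 hk.symm
  have addM : ∀ x y : A, x * x = 0 → y * y = 0 → (x + y) * (x + y) = 0 := by
    intro x y hx hy
    rcases dich (x + y) with h1 | ⟨k, hk⟩
    · exact h1
    · exfalso
      obtain ⟨v, hv⟩ : ∃ v, v * (x + y) = e := by
        cases k with
        | zero =>
          have hk' : x + y = e := hk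
          exact ⟨e, by rw [hk', (he e).1]⟩
        | succ k =>
          refine ⟨pw (x + y) k, ?_⟩
          have := pw_mul h (x + y) k 0
          rw [← hk]
          exact this
      have h1 := mulL v x hx
      have h2 := mulL v y hy
      have h3 : v * y = e - v * x := by rw [← hv, mul_add]; abel
      rw [h3, mul_sub, sub_mul, sub_mul, h1, (he e).1, (he (v * x)).1, (he (v * x)).2] at h2
      have h4 : e = (2 : ℤ) • (v * x) := by
        have : e - (2 : ℤ) • (v * x) = 0 := by
          rw [← h2]; module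
        exact sub_eq_zero.mp this
      have h5 : e * e = 0 := by
        rw [h4, smul_mul_smul_comm, h1, smul_zero]
      rw [(he e).1] at h5
      exact he0 h5
  let M : AddSubgroup A :=
    { carrier := {a | a * a = 0}
      zero_mem' := mul_zero 0
      add_mem' := fun {x y} hx hy => addM x y hx hy
      neg_mem' := fun {x} hx => by
        change -x * -x = 0
        have hx' : x * x = 0 := hx
        rw [neg_mul_neg, hx'] }
  have hM : ∀ a, a ∈ M ↔ a * a = 0 := fun a => Iff.rfl
  have hMM : ∀ x ∈ M, ∀ y ∈ M, x * y = 0 := fun x hx y hy =>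
    mul_zero_of_anti h hnull x y hx hy (anti_of_sq h x y hx hy (addM x y hx hy))
  have hMl : ∀ a, ∀ m ∈ M, a * m ∈ M := fun a m hm => mulL a m hm
  have hMr : ∀ a, ∀ m ∈ M, m * a ∈ M := fun a m hm => mulR a m hm
  have heM : e ∉ M := by
    rw [hM, (he e).1]
    exact he0
  have hdom : ∀ x y : A, x * y ∈ M → x ∈ M ∨ y ∈ M := by
    intro a b hab
    rcases dich a with h1 | ⟨k, hk⟩
    · exact Or.inl h1
    · right
      have ha : a ∈ NonUnitalSubring.closure {a, b} := NonUnitalSubring.subset_closure (by simp)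
      have hb' : b ∈ NonUnitalSubring.closure {a, b} := NonUnitalSubring.subset_closure (by simp)
      have key : ∀ k, pw a k * b ∈ M := by
        intro k
        cases k with
        | zero => exact hab
        | succ k =>
          have e1 : pw a (k + 1) = pw a k * a := (pw_mul h a k 0).symm
          rw [e1, assoc2 h a b _ _ _ (pw_mem _ _ ha k) ha hb']
          exact hMl _ _ hab
      have := key k
      rwa [hk, (he b).1] at this
  let F : A → AddSubgroup A := fun θ => (NonUnitalSubring.closure {θ}).toAddSubgroup ⊔ M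
  have hpwF : ∀ θ k, pw θ k ∈ F θ := fun θ k => AddSubgroup.mem_sup_left
    (pw_mem (NonUnitalSubring.closure {θ}) θ (NonUnitalSubring.subset_closure rfl) k)
  have field_part : ∀ x y : A, ∃ c, ∀ b ∈ NonUnitalSubring.closure {x, y}, b ∈ F c := by
    intro x y
    by_cases hall : ∀ b ∈ NonUnitalSubring.closure {x, y}, b ∈ M
    · exact ⟨x, fun b hb => AddSubgroup.mem_sup_right (hall b hb)⟩
    · push Not at hall
      obtain ⟨u, hu, huM⟩ := hall
      obtain ⟨k, hk⟩ := (dich u).resolve_left huM
      have heB : e ∈ NonUnitalSubring.closure {x, y} := by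
        rw [← hk]
        exact pw_mem _ u hu k
      let B := NonUnitalSubring.closure {x, y}
      let rB : Ring B :=
        { (inferInstance : NonUnitalNonAssocRing B) with
          mul_assoc := fun p q r => Subtype.ext (assoc2 h x y p q r p.2 q.2 r.2)
          one := ⟨e, heB⟩
          one_mul := fun p => Subtype.ext (he p).1
          mul_one := fun p => Subtype.ext (he p).2 }
      obtain ⟨c, hc⟩ := @field_abs A _ e M B rB inferInstance Subtype.val (fun _ _ => rfl)
        (fun _ _ => rfl) rfl heM hMl hMr hdom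
      refine ⟨c, fun b hb => ?_⟩
      rcases hc ⟨b, hb⟩ with h1 | ⟨n, hn⟩
      · exact AddSubgroup.mem_sup_right h1
      · have h2 : (b - pw (c : A) n) + pw (c : A) n ∈ F c :=
          AddSubgroup.add_mem _ (AddSubgroup.mem_sup_right hn) (hpwF _ _)
        rwa [sub_add_cancel] at h2
  obtain ⟨θ, hθ⟩ := Finite.exists_max fun θ => Nat.card (F θ)
  have hclos : ∀ x y : A, NonUnitalSubring.closure {x} ≤ NonUnitalSubring.closure {x, y} :=
    fun x y => NonUnitalSubring.closure_mono (by simp)
  have htop : ∀ b, b ∈ F θ := by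
    intro b
    obtain ⟨c, hc⟩ := field_part θ b
    have h1 : F θ ≤ F c := by
      apply sup_le
      · intro x hx
        exact hc x (hclos θ b hx)
      · exact le_sup_right
    have h2 : F θ = F c := AddSubgroup.eq_of_le_of_card_ge h1 (hθ c)
    rw [h2]
    exact hc b (NonUnitalSubring.subset_closure (by simp))
  have hdec : ∀ a, ∃ f ∈ NonUnitalSubring.closure {θ}, ∃ m ∈ M, a = f + m := by
    intro a
    obtain ⟨f, hf, m, hm, hfm⟩ := AddSubgroup.mem_sup.mp (htop a)
    exact ⟨f, hf, m, hm, hfm.symm⟩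
  -- associators with two arguments in `M`
  have m12 : ∀ x ∈ M, ∀ y ∈ M, ∀ z, asr x y z = 0 := by
    intro x hx y hy z
    rw [asr, hMM x hx y hy, hMM x hx _ (hMr z y hy), zero_mul, sub_zero]
  have m23 : ∀ y ∈ M, ∀ z ∈ M, ∀ x, asr x y z = 0 := by
    intro y hy z hz x
    rw [asr, hMM y hy z hz, hMM _ (hMl x y hy) z hz, mul_zero, sub_zero]
  have m13 : ∀ x ∈ M, ∀ z ∈ M, ∀ y, asr x y z = 0 := by
    intro x hx z hz y
    rw [asr, hMM _ (hMr y x hx) z hz, hMM x hx _ (hMl y z hz), sub_zero]
  have f3 : ∀ m : A, ∀ f ∈ NonUnitalSubring.closure {θ}, ∀ g ∈ NonUnitalSubring.closure {θ},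
      asr f g m = 0 := by
    intro m f hf g hg
    exact sub_eq_zero.mpr (assoc2 h θ m f g m (hclos θ m hf) (hclos θ m hg)
      (NonUnitalSubring.subset_closure (by simp)))
  intro x y z
  obtain ⟨f1, hf1, m1, hm1, rfl⟩ := hdec x
  obtain ⟨f2, hf2, m2, hm2, rfl⟩ := hdec y
  obtain ⟨f3', hf3, m3, hm3, rfl⟩ := hdec z
  simp only [asr_add1, asr_add2, asr_add3]
  rw [f3 f3' f1 hf1 f2 hf2, f3 m3 f1 hf1 f2 hf2, m12 m1 hm1 m2 hm2, m12 m1 hm1 m2 hm2,
    m23 m2 hm2 m3 hm3, m13 m1 hm1 m3 hm3, swap23 h f1 m2 f3', f3 m2 f1 hf1 f3' hf3,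
    cyc1 h m1 f2 f3', f3 m1 f2 hf2 f3' hf3]
  simp

theorem assoc_of_null (n : ℕ) : ∀ (A : Type) [NonUnitalNonAssocRing A] [Finite A],
    IsAlternativeRing A → Null A → Nat.card A ≤ n → ∀ x y z : A, asr x y z = 0 := by
  induction n with
  | zero =>
    intro A _ _ _ _ hn
    have : 0 < Nat.card A := Nat.card_pos
    omega
  | succ n ih =>
    intro A _ _ h hnull hn
    by_cases hcase : ∃ e : A, e * e = e ∧ e ≠ 0 ∧ ∃ a, ¬ (e * a = a ∧ a * e = a)
    · obtain ⟨e, he, he0, a, ha⟩ := hcase
      -- proper subrings are associative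
      have sub : ∀ B : NonUnitalSubring A, (∃ a, a ∉ B) → ∀ x ∈ B, ∀ y ∈ B, ∀ z ∈ B,
          asr x y z = 0 := by
        intro B ⟨a, ha⟩ x hx y hy z hz
        have hc : Nat.card B < Nat.card A := Finite.card_subtype_lt (p := (· ∈ B)) ha
        have := ih B ⟨fun x y => Subtype.ext (h.1 x y), fun x y => Subtype.ext (h.2 x y)⟩
          (hnull.subring B) (by omega) ⟨x, hx⟩ ⟨y, hy⟩ ⟨z, hz⟩
        exact congrArg Subtype.val this
      let B1 : NonUnitalSubring A :=
        { Pc e 1 1 with
          mul_mem' := fun {x y} hx hy => by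
            obtain ⟨p1, p2, -⟩ := pe h e 1 1 1 1 x y hx hy
            exact ⟨by simpa using p1, by simpa using p2⟩ }
      let B0 : NonUnitalSubring A :=
        { Pc e 0 0 with
          mul_mem' := fun {x y} hx hy => by
            obtain ⟨p1, p2, -⟩ := pe h e 0 0 0 0 x y hx hy
            exact ⟨by simpa using p1, by simpa using p2⟩ }
      refine case1 h hnull e he (sub B1 ⟨a, fun hh => ha ?_⟩) (sub B0 ⟨e, fun hh => he0 ?_⟩)
      · have h1 : e * a = (1 : ℤ) • a := hh.1
        have h2 : a * e = (1 : ℤ) • a := hh.2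
        rw [one_smul] at h1 h2
        exact ⟨h1, h2⟩
      · have h1 : e * e = (0 : ℤ) • e := hh.1
        rwa [he, zero_smul] at h1
    · push Not at hcase
      by_cases hnil : ∀ a : A, a * a = 0
      · intro x y z
        rw [asr, nil_case h hnull hnil, nil_case h hnull hnil, sub_zero]
      · push Not at hnil
        obtain ⟨a, ha⟩ := hnil
        obtain ⟨k, hk⟩ := exists_idem h a
        have hk0 : pw a k ≠ 0 := fun h0 => ha (sq_zero_of_pw h hnull a k h0)
        have he := hcase (pw a k) hk hk0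
        refine local_case h hnull (pw a k) hk0 he fun f hf => ?_
        by_cases hf0 : f = 0
        · exact Or.inl hf0
        · right
          have h1 := (hcase f hf hf0 (pw a k)).1
          have h2 := (he f).2
          exact h2.symm.trans h1

end Pool.Agent.QuasiId.Alt
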