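import Pool.Statements.S00147
import Pool.Agent.Helper716_Lang.Core
-- import your own Pool.Agent.* helpers here

set_option autoImplicit false
open Pool Pool.MP_3d4eef_ag

namespace Pool.Agent.S00147

/-- Let K be a finitely generated field over the reals of transcendence degree i in which -1 is a sum of squares. Then every nonzero homogeneous form over K of degree d ≥ 1 in N+1 variables with d^i ≤ N has a nontrivial zero in K. -/
theorem result :
    ∀ (i : ℕ) (K : Type) [Field K] [Algebra ℝ K],
      (∃ t : Finset K, IntermediateField.adjoin ℝ (t : Set K) = ⊤) →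
      (∃ s : Finset K, IsTranscendenceBasis ℝ (fun x : s => (x : K)) ∧ s.card = i) →
      (∃ (n : ℕ) (g : Fin n → K), ∑ j, g j ^ 2 = -1) →
      ∀ (N d : ℕ), 0 < d → d ^ i ≤ N →
        ∀ f : MvPolynomial (Fin (N + 1)) K, f.IsHomogeneous d → f ≠ 0 →
          ∃ x : Fin (N + 1) → K, x ≠ 0 ∧ MvPolynomial.eval x f = 0 := by
  rintro i K _ _ - ⟨s, hs, hi⟩ ⟨n, g, hg⟩ N d hd hN f hf -
  have e : Fin i ≃ s := (Finset.equivFinOfCardEq hi).symm
  have hx : IsTranscendenceBasis ℝ (fun j : Fin i => ((e j : s) : K)) :=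
    (isTranscendenceBasis_equiv e).2 hs
  have : IsRealClosed ℝ := Pool.Agent.Helper716_Lang.RC.isRealClosed_real
  obtain ⟨v, hv, hv2⟩ := Pool.Agent.Helper716_Lang.lang hx g hg (J := Unit) (fun _ => d)
    (fun _ => hd) (by simpa using Nat.lt_succ_of_le hN) (fun _ => f) (fun _ => hf)
  exact ⟨v, hv, hv2 ()⟩

end Pool.Agent.S00147
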