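import Pool.Statements.S00348
import Pool.Agent.H486_Neuro.Pos
import Pool.Agent.H486_Neuro.NegB
import Pool.Agent.H486_Neuro.NegC

set_option autoImplicit false
open Pool Pool.MP_a30cf1_ag

namespace Pool.Agent.S00348

open Pool.Agent.H486N in
/-- a minimal filling width vector that is not unimodal -/
theorem exists_min : ∃ d : Fin 8 → ℕ, (∀ i, 1 ≤ d i) ∧ Fil d ∧
    (∀ d' : Fin 8 → ℕ, (∀ i, 1 ≤ d' i) → d' 0 = d 0 → d' 7 = d 7 → d' ≤ d → Fil d' → d' = d) ∧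
    d 4 < d 3 ∧ d 4 < d 5 := by
  have h0 : (∀ i, 1 ≤ e0 i) ∧ e0 0 = 2 ∧ e0 7 = 1 ∧ Fil e0 :=
    ⟨by decide, rfl, rfl, fil_of_dense e0 rfl rfl dense_e0⟩
  obtain ⟨d, hd, hmin⟩ := exists_minimal_le_of_wellFoundedLT
    (fun d : Fin 8 → ℕ => (∀ i, 1 ≤ d i) ∧ d 0 = 2 ∧ d 7 = 1 ∧ Fil d) e0 h0
  obtain ⟨⟨h1, h2, h3, h4⟩, hm⟩ := hmin
  have hD : Dense d := dense_of_fil d h2 h3 h4
  have hd4 : d 4 ≤ 4 := hd 4
  have ha : ¬ d 4 ≤ 3 := fun h => not_dense_a d h hD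
  have hb : ¬ d 3 ≤ 4 := fun h => not_dense_b d hd4 h hD
  have hc : ¬ d 5 ≤ 4 := fun h => not_dense_c d hd4 h hD
  refine ⟨d, h1, h4, ?_, by omega, by omega⟩
  intro d' g1 g2 g3 g4 g5
  exact le_antisymm g4 (hm ⟨g1, g2.trans h2, g3.trans h3, g5⟩ g4)

/-- The negation of the preceding statement: For L ≥ 1 and r ≥ 2, any coordinatewise-minimal positive width vector (with d_0, d_L fixed) whose depth-L polynomial network with x^r activation has Zariski-dense output set in the ambient space is unimodal. -/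
theorem result :
    ¬ (∀ (L r : ℕ), 1 ≤ L → 2 ≤ r →
  ∀ Filling : (Fin (L+1) → ℕ) → Prop,
  (∀ e : Fin (L+1) → ℕ, Filling e ↔
    ∀ P : MvPolynomial (ℕ × (ℕ →₀ ℕ)) ℂ,
      (∀ W : Fin L → ℕ → ℕ → ℂ,
        MvPolynomial.eval (fun p : ℕ × (ℕ →₀ ℕ) => MvPolynomial.coeff p.2
          ((List.finRange L).foldl
            (fun (h : ℕ → MvPolynomial ℕ ℂ) (k : Fin L) (a : ℕ) =>
              ∑ b ∈ Finset.range (e k.castSucc),
                MvPolynomial.C (W k a b) * h b ^ (if (k : ℕ) = 0 then 1 else r))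
            (fun b : ℕ => (MvPolynomial.X b : MvPolynomial ℕ ℂ)) p.1)) P = 0) →
      ∀ c : ℕ × (ℕ →₀ ℕ) → ℂ,
        (∀ p : ℕ × (ℕ →₀ ℕ), c p ≠ 0 →
          p.1 < e (Fin.last L) ∧ (∑ b ∈ p.2.support, p.2 b) = r ^ (L - 1) ∧
            ∀ b ∈ p.2.support, b < e 0) →
        MvPolynomial.eval c P = 0) →
  ∀ d : Fin (L+1) → ℕ, (∀ i, 1 ≤ d i) → Filling d →
  (∀ d' : Fin (L+1) → ℕ, (∀ i, 1 ≤ d' i) → d' 0 = d 0 →
      d' (Fin.last L) = d (Fin.last L) → d' ≤ d → Filling d' → d' = d) →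
  ∃ i : Fin (L+1), (∀ j k : Fin (L+1), j ≤ k → k ≤ i → d j ≤ d k) ∧
    (∀ j k : Fin (L+1), i ≤ j → j ≤ k → d k ≤ d j)) := by
  intro H
  obtain ⟨d, h1, h2, h3, h4, h5⟩ := exists_min
  obtain ⟨i, hi1, hi2⟩ := H 7 2 (by norm_num) (by norm_num) Pool.Agent.H486N.Fil
    (fun e => Iff.rfl) d h1 h2 h3
  rcases le_total (4 : Fin 8) i with h | h
  · have := hi1 3 4 (by decide) h
    omega
  · have := hi2 4 5 h (by decide)
    omega

end Pool.Agent.S00348
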