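import Pool.Statements.S00360
import Pool.Agent.H195_grade.Tasks

set_option autoImplicit false
open Pool Pool.MP_a907e8_ag

namespace Pool.Agent.S00360

open Pool.Agent.H607R3.PS H51R3.PS in
/-- The negation of the preceding statement: For every Noetherian local ring A and nonzero finitely generated A-module M with a finite projective resolution, the maximal length of an A-regular sequence in ann M plus the Krull dimension of A/ann M equals the Krull dimension of A. -/
theorem result :
    ¬ (∀ (A : Type) [CommRing A] [IsLocalRing A] [IsNoetherianRing A]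
      (M : Type) [AddCommGroup M] [Module A M] [Module.Finite A M] [Nontrivial M],
      (∃ P : CategoryTheory.ProjectiveResolution (ModuleCat.of A M), ∃ n : ℕ,
          ∀ i : ℕ, n ≤ i → CategoryTheory.Limits.IsZero (P.complex.X i)) →
      ∀ g : ℕ,
        (∃ rs : List A, rs.length = g ∧ (∀ r ∈ rs, r ∈ Module.annihilator A M) ∧
            RingTheory.Sequence.IsWeaklyRegular A rs) →
        (¬ ∃ rs : List A, rs.length = g + 1 ∧ (∀ r ∈ rs, r ∈ Module.annihilator A M) ∧
            RingTheory.Sequence.IsWeaklyRegular A rs) →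
        (g : WithBot ℕ∞) + ringKrullDim (A ⧸ Module.annihilator A M) = ringKrullDim A) := by
  intro h
  obtain ⟨T, iT, iL, iN, iD, α, β, γ, hB⟩ := Pool.Agent.H291R3.PSB.taskBase
  obtain ⟨hα, hβ, hγ⟩ := mem_max hB
  have hloc : IsLocalRing (RR T α β γ) := Pool.Agent.H607R3.PS.taskLoc T α β γ hα hβ hγ
  have hlocP : IsLocalRing (RP T α β γ) := local_RP
  have hN : IsNoetherianRing (RP T α β γ) := noeth_RP
  have hnt : Nontrivial (RP T α β γ ⧸ cP T α β γ) :=
    Ideal.Quotient.nontrivial_iff.mpr (cP_ne_top hα hβ hγ)
  have hreg := taskRegP T α β γ hB.reg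
  have h1 := h (RP T α β γ) (RP T α β γ ⧸ cP T α β γ) (finRes_RP taskRes taskRegP hγ hB.reg) 2
    ⟨[toRP (RR.emb α : RR T α β γ) ^ 4, toRP (RR.emb β : RR T α β γ) ^ 2], rfl, by
      intro r hr
      rw [Ideal.annihilator_quotient]
      simp only [List.mem_cons, List.not_mem_nil, or_false] at hr
      rcases hr with rfl | rfl
      · exact mem_F
      · exact mem_G, weaklyRegular_pair hreg⟩
    (by
      rw [Ideal.annihilator_quotient]
      exact Pool.Agent.H195_grade.taskGradeP T α β γ hB)
  rw [Ideal.annihilator_quotient] at h1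
  have h2 := Pool.Agent.H195_grade.taskDimP T α β γ hB
  rw [← h1] at h2
  exact lt_irrefl _ h2

end Pool.Agent.S00360
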