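import Pool.Statements.S00437
import Pool.Agent.Helper208_LN.Main

set_option autoImplicit false
open scoped TensorProduct
open Pool Pool.MP_c80d0d_ag

namespace Pool.Agent.S00437

/-- The dual numbers satisfy the abstract hypotheses `DN`. -/
lemma dn (k : Type) [Field k] [Algebra (DualNumber k) k]
    (h : ∀ r : DualNumber k, algebraMap (DualNumber k) k r = TrivSqZeroExt.fst r) :
    Pool.Agent.LN.DN k (DualNumber k) (DualNumber.eps : DualNumber k) where
  sq := DualNumber.eps_mul_eps
  ker := by
    intro r hr
    rw [h] at hr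
    refine ⟨TrivSqZeroExt.inl (TrivSqZeroExt.snd r), ?_⟩
    ext
    · simp [hr]
    · simp
  ann := by
    intro r hr
    have h1 := congrArg TrivSqZeroExt.snd hr
    simp at h1
    refine ⟨TrivSqZeroExt.inl (TrivSqZeroExt.snd r), ?_⟩
    ext
    · simp [h1]
    · simp
  zero := by rw [h]; simp

/-- For every prime p, every field k of characteristic p, and every smooth commutative Hopf algebra A over the dual numbers k[ε], some n admits a matrix coefficient system a_ij in A whose entries and antipodes generate A (i.e. G=Spec A embeds as a closed subgroup of GL_n). -/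
theorem result :
    ∀ (p : ℕ), p.Prime → ∀ (k : Type) [Field k] [CharP k p],
    ∀ (A : Type) [CommRing A] [HopfAlgebra (DualNumber k) A]
      [Algebra.Smooth (DualNumber k) A],
    ∃ (n : ℕ) (a : Fin n → Fin n → A),
      (∀ i j : Fin n, CoalgebraStruct.comul (R := DualNumber k) (a i j)
          = ∑ l : Fin n, a i l ⊗ₜ[DualNumber k] a l j) ∧
      (∀ i j : Fin n, CoalgebraStruct.counit (R := DualNumber k) (a i j)
          = if i = j then 1 else 0) ∧
      Algebra.adjoin (DualNumber k)
          (Set.range (fun ij : Fin n × Fin n => a ij.1 ij.2) ∪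
           Set.range (fun ij : Fin n × Fin n =>
              HopfAlgebra.antipode (R := DualNumber k) (a ij.1 ij.2))) = ⊤ := by
  intro p hp k _ _ A _ _ _
  have : Fact p.Prime := ⟨hp⟩
  letI : Algebra (DualNumber k) k := (TrivSqZeroExt.fstHom k k k).toRingHom.toAlgebra
  have iST : IsScalarTower k (DualNumber k) k := ⟨fun x y z => by
    show TrivSqZeroExt.fst (x • y) * z = x * (TrivSqZeroExt.fst y * z)
    rw [TrivSqZeroExt.fst_smul, smul_eq_mul, mul_assoc]⟩
  letI : Algebra k A := Algebra.compHom A (algebraMap k (DualNumber k))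
  have iSA : IsScalarTower k (DualNumber k) A := ⟨fun x y z =>
    (congrArg (fun w : DualNumber k => w • z) (Algebra.smul_def x y)).trans
      (mul_smul (algebraMap k (DualNumber k) x) y z)⟩
  haveI : Module.Flat (DualNumber k) A := Algebra.Smooth.flat (DualNumber k) A
  haveI : Algebra.FiniteType (DualNumber k) A := inferInstance
  obtain ⟨N, iN, dN, c, hc, hgen⟩ := Pool.Agent.LN.exists_rep (k := k) (R := DualNumber k) (A := A) p
    (dn k (fun _ => rfl))
  let e : N ≃ Fin (Fintype.card N) := Fintype.equivFin N
  refine ⟨Fintype.card N, fun i j => c (e.symm i) (e.symm j), ?_, ?_, ?_⟩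
  · intro i j
    rw [hc.comul]
    exact (Equiv.sum_comp e.symm
      (fun l => c (e.symm i) l ⊗ₜ[DualNumber k] c l (e.symm j))).symm
  · intro i j
    rw [hc.counit]
    simp only [EmbeddingLike.apply_eq_iff_eq]
  · rw [← hgen]
    congr 2
    · ext x
      constructor
      · rintro ⟨ij, rfl⟩
        exact ⟨(e.symm ij.1, e.symm ij.2), rfl⟩
      · rintro ⟨ij, rfl⟩
        exact ⟨(e ij.1, e ij.2), by simp⟩
    · ext x
      constructor
      · rintro ⟨ij, rfl⟩
        exact ⟨(e.symm ij.1, e.symm ij.2), rfl⟩
      · rintro ⟨ij, rfl⟩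
        exact ⟨(e ij.1, e ij.2), by simp⟩

end Pool.Agent.S00437
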