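import Pool.Statements.S00441
import Pool.Agent.Helper716_Lang.Core
-- import your own Pool.Agent.* helpers here

set_option autoImplicit false
open Pool Pool.MP_c95eae_ag

namespace Pool.Agent.S00441

/-- A sum of squares, written as a finite sum. -/
theorem exists_sum_sq {K : Type} [Field K] {a : K} (h : IsSumSq a) :
    ∃ (q : ℕ) (g : Fin q → K), ∑ l, g l ^ 2 = a := by
  induction h with
  | zero => exact ⟨0, Fin.elim0, by simp⟩
  | sq_add b _ ih =>
    obtain ⟨q, g, hg⟩ := ih
    refine ⟨q + 1, Fin.cons b g, ?_⟩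
    rw [Fin.sum_univ_succ, ← hg, ← sq b]
    simp

/-- For every finitely generated field K over ℝ of transcendence degree 1 in which ℝ is algebraically closed and −1 is a sum of squares, every homogeneous form of degree d≥1 in more than d variables over K has a nontrivial zero. -/
theorem result :
    ∀ (K : Type) [Field K] [Algebra ℝ K],
      (⊤ : IntermediateField ℝ K).FG →
      (∃ t : K, IsTranscendenceBasis ℝ (fun _ : Unit => t)) →
      (∀ a : K, IsAlgebraic ℝ a → ∃ r : ℝ, algebraMap ℝ K r = a) →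
      IsSumSq (-1 : K) →
      ∀ (d n : ℕ), 0 < d → d < n →
        ∀ f : MvPolynomial (Fin n) K, f.IsHomogeneous d →
          ∃ x : Fin n → K, x ≠ 0 ∧ MvPolynomial.eval x f = 0 := by
  rintro K _ _ - ⟨t, ht⟩ - hs d n hd hdn f hf
  obtain ⟨q, g, hg⟩ := exists_sum_sq hs
  have hx : IsTranscendenceBasis ℝ (fun _ : Fin 1 => t) :=
    (isTranscendenceBasis_equiv (Equiv.ofUnique (Fin 1) Unit)).2 ht
  have : IsRealClosed ℝ := Pool.Agent.Helper716_Lang.RC.isRealClosed_real
  obtain ⟨v, hv, hv2⟩ := Pool.Agent.Helper716_Lang.lang hx g hg (J := Unit) (fun _ => d)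
    (fun _ => hd) (by simpa using hdn) (fun _ => f) (fun _ => hf)
  exact ⟨v, hv, hv2 ()⟩

end Pool.Agent.S00441
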