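import Pool.Statements.S00526
import Pool.Agent.H195_normal.PlaneLine

set_option autoImplicit false
open Pool Pool.MP_e9da60_ag

namespace Pool.Agent.S00526

/-- The negation of the preceding statement: For an analytically unramified Noetherian local ring of dimension d>0 and an m-primary ideal I, if length(R/closure(I^(n+1))) equals sum of (-1)^i e_i C(n+d-i,d-i) for large n, then e_1 is nonnegative. -/
theorem result :
    ¬ (∀ (R : Type) [CommRing R] [IsNoetherianRing R] [IsLocalRing R],
      IsReduced (AdicCompletion (IsLocalRing.maximalIdeal R) R) →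
      ∀ (d : ℕ), ringKrullDim R = (d : WithBot ℕ∞) → 0 < d →
      ∀ (I : Ideal R), I.radical = IsLocalRing.maximalIdeal R →
      ∀ (Ibar : ℕ → Ideal R),
        (∀ (n : ℕ) (x : R), x ∈ Ibar n ↔
          ∃ k : ℕ, 0 < k ∧ ∃ a : ℕ → R, (∀ j, a j ∈ (I ^ n) ^ j) ∧
            x ^ k + ∑ j ∈ Finset.range k, a (k - j) * x ^ j = 0) →
      ∀ (e : ℕ → ℚ),
        (∀ᶠ n in Filter.atTop, ∃ m : ℕ,
          Module.length R (R ⧸ Ibar (n + 1)) = (m : ℕ∞) ∧
          (m : ℚ) = ∑ i ∈ Finset.range (d + 1),
            (-1 : ℚ) ^ i * e i * (((n + d - i).choose (d - i) : ℕ) : ℚ)) →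
        0 ≤ e 1) := by
  intro H
  have hclosed := Pool.Agent.H195_normal.powersClosed ℚ
  have hfin := H (Pool.Agent.H195_normal.R ℚ) hclosed.isReduced 2
    (Pool.Agent.H195_normal.ringKrullDim_eq ℚ) two_pos
    (IsLocalRing.maximalIdeal (Pool.Agent.H195_normal.R ℚ))
    (Ideal.IsPrime.radical inferInstance)
    (fun n => IsLocalRing.maximalIdeal (Pool.Agent.H195_normal.R ℚ) ^ n) ?_
    (fun i => if i = 0 then 1 else -1) ?_
  · norm_num at hfin
  · intro n x
    constructor
    · intro hx
      refine ⟨1, one_pos, fun j => if j = 1 then -x else 0, ?_, ?_⟩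
      · intro j
        by_cases hj : j = 1
        · subst hj
          simp only [if_true, pow_one]
          exact neg_mem hx
        · simp only [if_neg hj]
          exact zero_mem _
      · simp
    · rintro ⟨K, hK, a, ha, h⟩
      exact hclosed n x K hK a ha h
  · refine Filter.Eventually.of_forall fun n => ?_
    refine ⟨(n + 1 + 1).choose 2 + (n + 1 - 1),
      Pool.Agent.H195_normal.length_quot ℚ (n + 1), ?_⟩
    rw [Finset.sum_range_succ, Finset.sum_range_succ, Finset.sum_range_one]
    have h1 : n + 2 - 0 = n + 2 := rfl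
    have h2 : n + 2 - 1 = n + 1 := rfl
    have h3 : n + 2 - 2 = n := rfl
    rw [h1, h2, h3]
    push_cast
    simp
    ring

end Pool.Agent.S00526
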