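import Pool.Statements.S00527
import Pool.Agent.H195_lech.Final
import Pool.Agent.H195_lech.Newt
import Pool.Agent.H195_lech.L01
import Pool.Agent.H195_lech.L02
import Pool.Agent.H195_lech.L05
import Pool.Agent.H195_lech.L07
import Pool.Agent.H195_lech.L08
import Pool.Agent.H195_lech.L10
import Pool.Agent.H195_lech.L11
import Pool.Agent.H195_lech.L14
import Pool.Agent.H195_lech.L15
import Pool.Agent.H195_lech.L16
import Pool.Agent.H195_lech.L17
import Pool.Agent.H195_lech.L18
import Pool.Agent.H195_lech.L19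

set_option autoImplicit false
open Pool Pool.MP_eae75b_ag

namespace Pool.Agent.S00527

/-- For k infinite, R=k[[x_0..x_d]], I m-primary: for general linear forms l_j, the sum over i<d of s(d+1,d+1-i)·e(I R/(l_1..l_i)) is at most (d+1)!·length(R/I), s unsigned Stirling of first kind. -/
theorem result :
  ∀ (k : Type) [Field k] [Infinite k] (d : ℕ) (I : Ideal (MvPowerSeries (Fin (d+1)) k)),
    I.radical = Ideal.span (Set.range (MvPowerSeries.X : Fin (d+1) → MvPowerSeries (Fin (d+1)) k)) →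
    ∃ P : MvPolynomial (Fin d × Fin (d+1)) k, P ≠ 0 ∧
      ∀ c : Fin d → Fin (d+1) → k, MvPolynomial.eval (fun p => c p.1 p.2) P ≠ 0 →
        ∀ e : Fin d → ℝ,
          (∀ i : Fin d, Filter.Tendsto
            (fun n : ℕ => ((Nat.factorial (d+1-i.val) : ℝ) *
              ((Module.length (MvPowerSeries (Fin (d+1)) k)
                (MvPowerSeries (Fin (d+1)) k ⧸
                  (I ^ n ⊔ Ideal.span {f : MvPowerSeries (Fin (d+1)) k |
                    ∃ j : Fin d, j.val < i.val ∧
                      f = ∑ t : Fin (d+1), c j t • (MvPowerSeries.X t : MvPowerSeries (Fin (d+1)) k)}))).toNat : ℝ))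
              / (n : ℝ) ^ (d+1-i.val))
            Filter.atTop (nhds (e i))) →
          ∑ i : Fin d, ((ascPochhammer ℕ (d+1)).coeff (d+1-i.val) : ℝ) * e i
            ≤ (Nat.factorial (d+1) : ℝ) *
              ((Module.length (MvPowerSeries (Fin (d+1)) k)
                (MvPowerSeries (Fin (d+1)) k ⧸ I)).toNat : ℝ) := by
  have hgrow : H195L.S_GROW := fun d J K h1 h2 h3 h4 => H195L.L06.s_grow d J K h1 h2 h3 h4
  have hnewt : H195L.S_NEWT := H195L.newt_of
    (fun d k M J K h1 h2 h3 h4 => H195L.L07.s_t d k M J K h1 h2 h3 h4)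
    (fun d k J K h1 h2 => H195L.L08.s_d d k J K h1 h2)
    (fun B k h1 h2 h3 h4 => H195L.L05.s_greedy B k h1 h2 h3 h4) hgrow
  have hpair : H195L.S_PAIR := H195L.pair_of hnewt
    (fun k N C h γ h0 h1 h2 => H195L.L10.s_asy1 k N C h γ h0 h1 h2)
    (fun k N h γ h0 h1 => H195L.L11.s_asy2 k N h γ h0 h1) hgrow
  have hmain : H195L.S_MAIN := H195L.main_of hpair
    (fun d T G h1 h2 h3 N => H195L.L02.s_m1 d T G h1 h2 h3 N)
    (fun d c h => H195L.L01.s_alg d c h)
  have hgin : H195L.S_GIN := H195L.gin_of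
    (fun K _ n I => H195L.L14.s_ga K n I)
    (fun K _ n M I h => H195L.L15.s_gb K n M I h)
    (fun K _ n M I h => H195L.L16.s_gc K n M I h)
  exact H195L.final hmain hgin
    (fun K _ n M I h1 γ h2 G h3 h4 h5 i N h6 => H195L.L17.s_len K n M I h1 γ h2 G h3 h4 h5 i N h6)
    (fun K _ n M I h => H195L.L18.s_fin K n M I h)
    (fun n G h1 h2 h3 => H195L.L19.s_clo n G h1 h2 h3)

end Pool.Agent.S00527
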