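import Pool.Statements.S00541
import Pool.Agent.H737R3.Points

set_option autoImplicit false
open Pool Pool.MP_ef83ea_ag

namespace Pool.Agent.S00541

/-- For any nonempty finite set of points in complex projective N-space (N at least 1) with ideal I, every m ≥ 1 satisfies alpha(I^(m))/m ≥ (alpha(I^(3)) + N - 1)/(N + 2), i.e. the Waldschmidt constant is at least that bound. -/
theorem result :
    ∀ (N : ℕ), 1 ≤ N → ∀ S : Finset (Fin (N + 1) → ℂ), S.Nonempty → (∀ p ∈ S, p ≠ 0) →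
      ∀ m : ℕ, 1 ≤ m →
        (((sInf {d : ℕ | ∃ f ∈ (⨅ p ∈ S,
              (Ideal.span (Set.range (fun ij : Fin (N + 1) × Fin (N + 1) =>
                (MvPolynomial.X ij.1 * MvPolynomial.C (p ij.2)
                  - MvPolynomial.X ij.2 * MvPolynomial.C (p ij.1) :
                  MvPolynomial (Fin (N + 1)) ℂ)))) ^ 3),
              f ≠ 0 ∧ f.totalDegree = d} : ℕ) : ℝ) + (N : ℝ) - 1) / ((N : ℝ) + 2)
          ≤ ((sInf {d : ℕ | ∃ f ∈ (⨅ p ∈ S,
              (Ideal.span (Set.range (fun ij : Fin (N + 1) × Fin (N + 1) =>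
                (MvPolynomial.X ij.1 * MvPolynomial.C (p ij.2)
                  - MvPolynomial.X ij.2 * MvPolynomial.C (p ij.1) :
                  MvPolynomial (Fin (N + 1)) ℂ)))) ^ m),
              f ≠ 0 ∧ f.totalDegree = d} : ℕ) : ℝ) / (m : ℝ) := by
  classical
  intro N hN S hS hS0 m hm
  -- membership in the intersections
  have hmem : ∀ (r : ℕ) (f : MvPolynomial (Fin (N + 1)) ℂ),
      (f ∈ (⨅ p ∈ S, (Ideal.span (Set.range (fun ij : Fin (N + 1) × Fin (N + 1) =>
        (MvPolynomial.X ij.1 * MvPolynomial.C (p ij.2)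
          - MvPolynomial.X ij.2 * MvPolynomial.C (p ij.1) :
          MvPolynomial (Fin (N + 1)) ℂ)))) ^ r : Ideal (MvPolynomial (Fin (N + 1)) ℂ))) ↔
        ∀ p ∈ S, f ∈ Pool.Agent.H737R3.linI p ^ r := by
    intro r f
    simp only [Submodule.mem_iInf]
    constructor
    · intro h p hp
      rw [← Pool.Agent.H737R3.span_eq_linI (hS0 p hp)]
      exact h p hp
    · intro h p hp
      rw [Pool.Agent.H737R3.span_eq_linI (hS0 p hp)]
      exact h p hp
  -- the sets of degrees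
  have hset : ∀ r : ℕ, {d : ℕ | ∃ f ∈ (⨅ p ∈ S,
              (Ideal.span (Set.range (fun ij : Fin (N + 1) × Fin (N + 1) =>
                (MvPolynomial.X ij.1 * MvPolynomial.C (p ij.2)
                  - MvPolynomial.X ij.2 * MvPolynomial.C (p ij.1) :
                  MvPolynomial (Fin (N + 1)) ℂ)))) ^ r),
              f ≠ 0 ∧ f.totalDegree = d} =
      {d : ℕ | ∃ f : MvPolynomial (Fin (N + 1)) ℂ, (∀ p ∈ S, f ∈ Pool.Agent.H737R3.linI p ^ r) ∧
        f ≠ 0 ∧ f.totalDegree = d} := by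
    intro r
    ext d
    constructor
    · rintro ⟨f, hf, h⟩
      exact ⟨f, (hmem r f).1 hf, h⟩
    · rintro ⟨f, hf, h⟩
      exact ⟨f, (hmem r f).2 hf, h⟩
  rw [hset 3, hset m]
  set A : ℕ → Set ℕ := fun r => {d : ℕ | ∃ f : MvPolynomial (Fin (N + 1)) ℂ,
    (∀ p ∈ S, f ∈ Pool.Agent.H737R3.linI p ^ r) ∧ f ≠ 0 ∧ f.totalDegree = d} with hA
  have hne : ∀ r, (A r).Nonempty := by
    intro r
    choose l hl hl0 using fun p : Fin (N + 1) → ℂ => Pool.Agent.H737R3.linI_ne_bot hN p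
    refine ⟨_, ∏ p ∈ S, l p ^ r, ?_, Finset.prod_ne_zero_iff.2 fun p _ => pow_ne_zero _ (hl0 p),
      rfl⟩
    intro p hp
    rw [← Finset.mul_prod_erase _ _ hp]
    exact Ideal.mul_mem_right _ _ (Ideal.pow_mem_pow (hl p) _)
  obtain ⟨f, hf, hf0, hfd⟩ := Nat.sInf_mem (hne m)
  have hF0 := Pool.Agent.H737R3.top_component hf0
  have hFh := MvPolynomial.homogeneousComponent_isHomogeneous f.totalDegree f
  have hFv : ∀ p ∈ S, MvPolynomial.homogeneousComponent f.totalDegree f ∈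
      Pool.Agent.Chud.mI p ^ m := fun p hp =>
    Ideal.pow_right_mono (Pool.Agent.H737R3.linI_le_mI p) m
      (Pool.Agent.H737R3.component_mem p m (hf p hp) _)
  have hlow : Pool.Agent.H580C.LowT (S : Set (Fin (N + 1) → ℂ)) 3 (sInf (A 3)) := by
    intro F d hF hFd hFv
    apply Nat.sInf_le
    refine ⟨F, fun p hp => ?_, hF, hFd.totalDegree hF⟩
    exact Pool.Agent.H737R3.mem_linI_pow hFd (hS0 p hp) (hFv p hp)
  have key := Pool.Agent.H580C.p_CD ℂ N 3 (sInf (A 3)) m f.totalDegree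
    (S : Set (Fin (N + 1) → ℂ)) _ hN (by norm_num) S.finite_toSet (by simpa using hS)
    (fun v hv => hS0 v hv) hlow hF0 hFh (fun p hp => hFv p hp)
  rw [hfd] at key
  have h2 := Pool.Agent.H737R3.real_of_nat hN (by norm_num : 1 ≤ 3) hm key
  have h3 : ((3 : ℕ) : ℝ) + (N : ℝ) - 1 = (N : ℝ) + 2 := by push_cast; ring
  rw [h3] at h2
  exact h2

end Pool.Agent.S00541
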