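import Pool.Statements.S00609

set_option autoImplicit false
open Pool Pool.MP_042d8e_al

namespace Pool.Agent.S00609

/-! The group is the group of finitary automorphisms of the binary rooted tree. A vertex is a list
over `ZMod 2`; the last letter of the word is the head of the list, so that the parent of a vertex
is the tail of the list. An automorphism is given by its portrait `p`, with
`g (b :: v) = (b + p v) :: g v`. -/

/-- The vertices of the binary tree. -/
abbrev V := List (ZMod 2)

/-- The action of a portrait. -/
def act (p : V → ZMod 2) : V → V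
  | [] => []
  | b :: v => (b + p v) :: act p v

/-- The inverse of the action of a portrait. -/
def inv (p : V → ZMod 2) : V → V
  | [] => []
  | c :: w => (c - p (inv p w)) :: inv p w

theorem act_inv (p : V → ZMod 2) (w : V) : act p (inv p w) = w := by
  induction w with
  | nil => rfl
  | cons c w ih => simp [inv, act, ih]

theorem inv_act (p : V → ZMod 2) (w : V) : inv p (act p w) = w := by
  induction w with
  | nil => rfl
  | cons c w ih => simp [inv, act, ih]

/-- The automorphism with a given portrait. -/
def perm (p : V → ZMod 2) : Equiv.Perm V where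
  toFun := act p
  invFun := inv p
  left_inv := inv_act p
  right_inv := act_inv p

@[simp] theorem perm_nil (p : V → ZMod 2) : perm p [] = [] := rfl

@[simp] theorem perm_cons (p : V → ZMod 2) (b : ZMod 2) (v : V) :
    perm p (b :: v) = (b + p v) :: perm p v := rfl

theorem perm_ext {g : Equiv.Perm V} {p : V → ZMod 2} (h0 : g [] = [])
    (h : ∀ b v, g (b :: v) = (b + p v) :: g v) : g = perm p := by
  ext1 w
  induction w with
  | nil => simp [h0]
  | cons b v ih => rw [h, perm_cons, ih]

theorem perm_mul (p q : V → ZMod 2) :
    perm p * perm q = perm (fun v => q v + p (perm q v)) := by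
  apply perm_ext
  · simp
  · intro b v
    simp [add_assoc]

theorem perm_zero : perm 0 = 1 := by
  symm
  apply perm_ext
  · simp
  · intro b v
    simp

theorem perm_inv (p : V → ZMod 2) :
    (perm p)⁻¹ = perm (fun w => - p ((perm p)⁻¹ w)) := by
  apply perm_ext
  · rfl
  · intro c w
    show (c - p (inv p w)) :: inv p w = (c + - p (inv p w)) :: inv p w
    rw [sub_eq_add_neg]

/-- The group of finitary automorphisms of the binary tree. -/
def G : Subgroup (Equiv.Perm V) where
  carrier := {g | ∃ p : V →₀ ZMod 2, g = perm p}
  mul_mem' := by
    rintro _ _ ⟨p, rfl⟩ ⟨q, rfl⟩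
    refine ⟨q + Finsupp.equivMapDomain (perm q).symm p, ?_⟩
    rw [perm_mul]
    rfl
  one_mem' := ⟨0, by rw [Finsupp.coe_zero, perm_zero]⟩
  inv_mem' := by
    rintro _ ⟨p, rfl⟩
    refine ⟨- Finsupp.equivMapDomain (perm p) p, ?_⟩
    rw [perm_inv]
    rfl

theorem smul_def (g : G) (v : V) : g • v = (g : Equiv.Perm V) v := rfl

/-- The portrait of an automorphism. -/
def port (g : G) (v : V) : ZMod 2 := ((g : Equiv.Perm V) (0 :: v)).headI

theorem port_of {g : G} {p : V → ZMod 2} (h : (g : Equiv.Perm V) = perm p) : port g = p := by
  ext v
  rw [port, h, perm_cons]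
  simp

theorem eq_perm_port (g : G) : (g : Equiv.Perm V) = perm (port g) := by
  obtain ⟨p, hp⟩ := g.2
  rw [port_of hp]
  exact hp

theorem port_finite (g : G) : (Function.support (port g)).Finite := by
  obtain ⟨p, hp⟩ := g.2
  rw [port_of hp]
  exact p.hasFiniteSupport

theorem smul_nil (g : G) : g • ([] : V) = [] := by
  rw [smul_def, eq_perm_port g, perm_nil]

theorem smul_cons (g : G) (b : ZMod 2) (v : V) : g • (b :: v) = (b + port g v) :: (g • v) := by
  rw [smul_def, smul_def]
  conv_lhs => rw [eq_perm_port g]
  conv_rhs => rw [eq_perm_port g]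
  rw [perm_cons]

theorem length_smul (g : G) (v : V) : (g • v).length = v.length := by
  induction v with
  | nil => rw [smul_nil]
  | cons b v ih => rw [smul_cons, List.length_cons, List.length_cons, ih]

theorem tail_smul (g : G) (v : V) : (g • v).tail = g • v.tail := by
  cases v with
  | nil => rw [smul_nil, List.tail_nil, smul_nil]
  | cons b v => rw [smul_cons, List.tail_cons, List.tail_cons]

theorem port_mul (g h : G) (v : V) : port (g * h) v = port h v + port g (h • v) := by
  have h1 := smul_cons (g * h) 0 v
  rw [mul_smul, mul_smul, smul_cons h, smul_cons g] at h1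
  have := (List.cons.inj h1).1
  rw [zero_add, zero_add] at this
  exact this.symm

theorem ext_port {g h : G} (e : port g = port h) : g = h := by
  apply Subtype.ext
  rw [eq_perm_port g, eq_perm_port h, e]

theorem ext_smul {g : G} (e : ∀ v : V, g • v = v) : g = 1 := by
  apply Subtype.ext
  ext1 v
  exact e v

/-- The automorphism whose portrait is `1` at `u` and `0` elsewhere. -/
noncomputable def dl (u : V) : G := ⟨perm (Finsupp.single u 1), Finsupp.single u 1, rfl⟩

theorem port_dl (u v : V) : port (dl u) v = if u = v then 1 else 0 := by
  rw [port_of (g := dl u) (p := Finsupp.single u 1) rfl, Finsupp.single_apply]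

/-- `dl u` fixes every vertex that is not strictly below `u`. -/
theorem dl_smul (u w : V) (h : ∀ k : ℕ, List.tail^[k] w ≠ u) : dl u • w = w := by
  induction w with
  | nil => exact smul_nil _
  | cons b v ih =>
    rw [smul_cons, ih, port_dl, if_neg, add_zero]
    · exact fun e => h 1 (by simpa using e.symm)
    · intro k
      have := h (k + 1)
      rwa [Function.iterate_succ_apply, List.tail_cons] at this

theorem dl_fix (u w : V) (h : w.length ≤ u.length) : dl u • w = w := by
  induction w with
  | nil => exact smul_nil _
  | cons b v ih =>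
    have h1 : v.length < u.length := by simpa using h
    rw [smul_cons, ih h1.le, port_dl, if_neg, add_zero]
    rintro rfl
    exact lt_irrefl _ h1

theorem transitive (v w : V) (h : v.length = w.length) : ∃ g : G, g • v = w := by
  induction v generalizing w with
  | nil =>
    refine ⟨1, ?_⟩
    rw [one_smul]
    exact (List.length_eq_zero_iff.1 h.symm).symm
  | cons b v ih =>
    cases w with
    | nil => simp at h
    | cons c w =>
      obtain ⟨g, hg⟩ := ih w (by simpa using h)
      by_cases hc : b + port g v = c
      · exact ⟨g, by rw [smul_cons, hg, hc]⟩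
      · refine ⟨dl w * g, ?_⟩
        rw [mul_smul, smul_cons, hg, smul_cons, dl_fix w w le_rfl, port_dl, if_pos rfl]
        congr 1
        have key : ∀ c d : ZMod 2, ¬ d = c → d + 1 = c := by decide
        exact key _ _ hc

/-- The vertices of level at most `n`. -/
abbrev Lev (n : ℕ) := {v : V // v.length ≤ n}

instance (n : ℕ) : MulAction G (Lev n) where
  smul g v := ⟨g • v.1, by rw [length_smul]; exact v.2⟩
  one_smul v := Subtype.ext (one_smul G v.1)
  mul_smul g h v := Subtype.ext (mul_smul g h v.1)

instance (n : ℕ) : Finite (Lev n) := (List.finite_length_le (ZMod 2) n).to_subtype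

/-- The stabiliser of the first `n` levels. -/
def St (n : ℕ) : Subgroup G := (MulAction.toPermHom G (Lev n)).ker

instance (n : ℕ) : (St n).Normal := MonoidHom.normal_ker _

instance (n : ℕ) : (St n).FiniteIndex := Subgroup.finiteIndex_ker _

theorem mem_St {n : ℕ} {g : G} : g ∈ St n ↔ ∀ v : V, v.length ≤ n → g • v = v := by
  rw [St, MonoidHom.mem_ker]
  constructor
  · intro h v hv
    have := congrArg (fun f : Equiv.Perm (Lev n) => (f ⟨v, hv⟩).1) h
    exact this
  · intro h
    ext1 v
    exact Subtype.ext (h v.1 v.2)

theorem St_anti : Antitone St := by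
  intro m n hmn g hg
  rw [mem_St] at hg ⊢
  exact fun v hv => hg v (hv.trans hmn)

theorem port_of_mem_St {n : ℕ} {g : G} (hg : g ∈ St n) {v : V} (hv : v.length < n) :
    port g v = 0 := by
  have h := mem_St.1 hg (0 :: v) (by simpa using hv)
  rw [smul_cons] at h
  have := (List.cons.inj h).1
  simpa using this

/-- Every element of `St n` is a product of elements `dl u` with `u` of level at least `n`. -/
theorem St_le (n : ℕ) (S : Subgroup G) (hS : ∀ u : V, n ≤ u.length → dl u ∈ S) : St n ≤ S := by
  have key : ∀ (k : ℕ) (g : G), (Function.support (port g)).ncard = k →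
      (∀ v : V, v.length < n → port g v = 0) → g ∈ S := by
    intro k
    induction k with
    | zero =>
      intro g hk _
      rw [Set.ncard_eq_zero (port_finite g)] at hk
      have : g = 1 := by
        apply ext_port
        rw [Function.support_eq_empty_iff.1 hk]
        ext v
        have h1 := smul_cons (1 : G) 0 v
        rw [one_smul, one_smul] at h1
        have := (List.cons.inj h1).1
        simpa using this
      rw [this]
      exact S.one_mem
    | succ k ih =>
      intro g hk hn
      obtain ⟨v, hv⟩ : (Function.support (port g)).Nonempty := by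
        rw [← Set.ncard_pos (port_finite g), hk]
        exact Nat.succ_pos k
      have hvn : n ≤ v.length := by
        by_contra hlt
        exact hv (hn v (not_le.1 hlt))
      have hg1 : port (dl (g • v) * g) = Function.update (port g) v 0 := by
        ext w
        rw [port_mul, port_dl]
        by_cases hw : w = v
        · subst hw
          rw [if_pos rfl, Function.update_self]
          have key : ∀ c : ZMod 2, c ≠ 0 → c + 1 = 0 := by decide
          exact key _ hv
        · rw [if_neg, add_zero, Function.update_of_ne hw]
          exact fun e => hw (MulAction.injective g e).symm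
      have hsupp : Function.support (port (dl (g • v) * g)) =
          Function.support (port g) \ {v} := by
        rw [hg1]
        ext w
        by_cases hw : w = v
        · simp [hw]
        · simp [hw]
      have h2 : dl (g • v) * g ∈ S := by
        apply ih
        · rw [hsupp, Set.ncard_sdiff_singleton_of_mem hv, hk]
          rfl
        · intro w hw
          rw [hg1]
          by_cases hwv : w = v
          · rw [hwv, Function.update_self]
          · rw [Function.update_of_ne hwv, hn w hw]
      have h3 : dl (g • v) ∈ S := hS _ (by rw [length_smul]; exact hvn)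
      exact (Subgroup.mul_mem_cancel_left S h3).1 h2
  intro g hg
  exact key _ g rfl fun v hv => port_of_mem_St hg hv

/-- The weighted activity `∑ v, c (level v) * port g v`, a homomorphism to `ZMod 2`. -/
noncomputable def wact (c : ℕ → ZMod 2) : G →* Multiplicative (ZMod 2) where
  toFun g := Multiplicative.ofAdd (∑ᶠ v : V, c v.length * port g v)
  map_one' := by
    have : ∀ v : V, port (1 : G) v = 0 := fun v => by
      have h1 := smul_cons (1 : G) 0 v
      rw [one_smul, one_smul] at h1
      have := (List.cons.inj h1).1
      simpa using this.symm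
    simp [this]
  map_mul' g h := by
    rw [← ofAdd_add]
    congr 1
    have e1 : ∑ᶠ v : V, c v.length * port g v = ∑ᶠ v : V, c v.length * port g (h • v) := by
      rw [← finsum_comp_equiv (MulAction.toPerm h)]
      refine finsum_congr fun v => ?_
      rw [MulAction.toPerm_apply, length_smul]
    have f1 : (Function.support fun v : V => c v.length * port h v).Finite :=
      (port_finite h).subset fun v hv => right_ne_zero_of_mul hv
    have f2 : (Function.support fun v : V => c v.length * port g (h • v)).Finite := by
      refine ((port_finite g).preimage (MulAction.injective h).injOn).subset fun v hv => ?_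
      exact right_ne_zero_of_mul hv
    rw [e1, add_comm, ← finsum_add_distrib f1 f2]
    refine finsum_congr fun v => ?_
    rw [port_mul, mul_add]

theorem wact_dl (c : ℕ → ZMod 2) (u : V) : wact c (dl u) = Multiplicative.ofAdd (c u.length) := by
  show Multiplicative.ofAdd (∑ᶠ v : V, c v.length * port (dl u) v) = _
  congr 1
  rw [finsum_eq_single _ u]
  · rw [port_dl, if_pos rfl, mul_one]
  · intro v hv
    rw [port_dl, if_neg (Ne.symm hv), mul_zero]

/-- The weight which is the indicator function of the levels `Nat.pair a k`. -/
def cc (a m : ℕ) : ZMod 2 := if (Nat.unpair m).1 = a then 1 else 0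

/-- The normal T-sequences. -/
noncomputable def M (a i : ℕ) : Subgroup G := St i ⊓ (wact (cc a)).ker

/-- There is a branch group (faithful, level-transitive on a locally finite rooted tree, finite-index rigid level stabilizers) with infinitely many pairwise inequivalent descending sequences of finite-index normal subgroups with trivial intersection. -/
theorem result :
    ∃ (G : Type) (_ : Group G) (V : Type) (_ : MulAction G V) (lev : V → ℕ) (par : V → V),
      (∀ v w : V, lev v = 0 → lev w = 0 → v = w) ∧
      (∃ v : V, lev v = 0) ∧
      (∀ w : V, lev w = 0 → par w = w) ∧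
      (∀ w : V, lev w ≠ 0 → lev (par w) + 1 = lev w) ∧
      (∀ n : ℕ, {v : V | lev v = n}.Finite) ∧
      (∀ v : V, ∃ w₁ w₂ : V, w₁ ≠ w₂ ∧ par w₁ = v ∧ par w₂ = v ∧
          lev w₁ = lev v + 1 ∧ lev w₂ = lev v + 1) ∧
      (∀ (g : G) (w : V), lev (g • w) = lev w ∧ par (g • w) = g • par w) ∧
      (∀ g : G, (∀ v : V, g • v = v) → g = 1) ∧
      (∀ v w : V, lev v = lev w → ∃ g : G, g • v = w) ∧
      (∀ n : ℕ, (Subgroup.closure {g : G | ∃ v : V, lev v = n ∧
          ∀ w : V, (∀ k : ℕ, par^[k] w ≠ v) → g • w = w}).FiniteIndex) ∧
      ∃ M : ℕ → ℕ → Subgroup G,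
        (∀ a : ℕ, Antitone (M a) ∧ (∀ i : ℕ, (M a i).Normal ∧ (M a i).FiniteIndex) ∧
            (⨅ i : ℕ, M a i) = ⊥) ∧
        (∀ a b : ℕ, a ≠ b →
            ¬ ((∀ i : ℕ, ∃ j : ℕ, M b j ≤ M a i) ∧ (∀ i : ℕ, ∃ j : ℕ, M a j ≤ M b i))) := by
  refine ⟨G, inferInstance, V, inferInstance, List.length, List.tail, ?_, ⟨[], rfl⟩, ?_, ?_, ?_,
    ?_, ?_, ?_, ?_, ?_, M, ?_, ?_⟩
  · intro v w hv hw
    rw [List.length_eq_zero_iff.1 hv, List.length_eq_zero_iff.1 hw]
  · intro w hw
    rw [List.length_eq_zero_iff.1 hw, List.tail_nil]
  · intro w hw
    rw [List.length_tail]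
    omega
  · exact fun n => List.finite_length_eq (ZMod 2) n
  · exact fun v => ⟨0 :: v, 1 :: v, fun h => zero_ne_one (List.cons.inj h).1, rfl, rfl, rfl, rfl⟩
  · exact fun g w => ⟨length_smul g w, tail_smul g w⟩
  · exact fun g h => ext_smul h
  · exact fun v w h => transitive v w h
  · intro n
    refine Subgroup.finiteIndex_of_le (H := St n) (St_le n _ fun u hu => ?_)
    refine Subgroup.subset_closure ⟨List.tail^[u.length - n] u, ?_, fun w hw => dl_smul u w ?_⟩
    · have : ∀ (k : ℕ) (v : V), (List.tail^[k] v).length = v.length - k := by
        intro k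
        induction k with
        | zero => intro v; rfl
        | succ k ih =>
          intro v
          rw [Function.iterate_succ_apply, ih, List.length_tail]
          omega
      rw [this]
      omega
    · intro k hk
      apply hw (u.length - n + k)
      rw [Function.iterate_add_apply, hk]
  · intro a
    refine ⟨fun m n hmn => inf_le_inf_right _ (St_anti hmn), fun i => ⟨?_, ?_⟩, ?_⟩
    · exact Subgroup.normal_inf_normal _ _
    · have : (wact (cc a)).ker.FiniteIndex := Subgroup.finiteIndex_ker _
      exact inferInstanceAs ((St i ⊓ (wact (cc a)).ker).FiniteIndex)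
    · rw [eq_bot_iff]
      intro g hg
      rw [Subgroup.mem_bot]
      apply ext_smul
      intro v
      have h1 := (Subgroup.mem_iInf.1 hg) v.length
      exact mem_St.1 (Subgroup.mem_inf.1 h1).1 v le_rfl
  · rintro a b hab ⟨h, -⟩
    obtain ⟨j, hj⟩ := h 0
    set u : V := List.replicate (Nat.pair a j) 0 with hu
    have hlen : u.length = Nat.pair a j := List.length_replicate
    have h1 : dl u ∈ M b j := by
      refine Subgroup.mem_inf.2 ⟨mem_St.2 fun v hv => dl_fix u v ?_, ?_⟩
      · rw [hlen]
        exact hv.trans (Nat.right_le_pair a j)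
      · rw [MonoidHom.mem_ker, wact_dl, hlen, cc, Nat.unpair_pair, if_neg hab]
        rfl
    have h2 := (Subgroup.mem_inf.1 (hj h1)).2
    rw [MonoidHom.mem_ker, wact_dl, hlen, cc, Nat.unpair_pair, if_pos rfl] at h2
    exact one_ne_zero (Multiplicative.ofAdd.injective h2)

end Pool.Agent.S00609
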