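import Pool.Statements.S00765
import Pool.Agent.Helper784WE.H2
import Pool.Agent.Helper784WE.F

set_option autoImplicit false
open Pool Pool.MP_122f18_al

namespace Pool.Agent.S00765

/-- Some finite presentation gives a group whose word metric coarsely embeds in no real Hilbert space, yet into which no bounded-degree expander sequence maps by uniformly Lipschitz maps whose fibres are a vanishing fraction of the vertices. -/
theorem result :
    ∃ (n : ℕ) (rels : Finset (FreeGroup (Fin n))),
      (∀ (H : Type) [NormedAddCommGroup H] [InnerProductSpace ℝ H] [CompleteSpace H]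
          (f : PresentedGroup (rels : Set (FreeGroup (Fin n))) → H),
          ¬ ((∀ k : ℕ, ∃ C : ℝ, ∀ g h : PresentedGroup (rels : Set (FreeGroup (Fin n))),
                (∃ w : FreeGroup (Fin n), w.toWord.length ≤ k ∧
                    h = g * PresentedGroup.mk (rels : Set (FreeGroup (Fin n))) w) →
                ‖f g - f h‖ ≤ C) ∧
             (∀ R : ℝ, ∃ k : ℕ, ∀ g h : PresentedGroup (rels : Set (FreeGroup (Fin n))),
                ‖f g - f h‖ ≤ R →
                ∃ w : FreeGroup (Fin n), w.toWord.length ≤ k ∧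
                    h = g * PresentedGroup.mk (rels : Set (FreeGroup (Fin n))) w))) ∧
      ¬ ∃ (N : ℕ → ℕ) (Gr : ∀ m : ℕ, SimpleGraph (Fin (N m))) (D L : ℕ) (ε : ℝ)
          (φ : ∀ m : ℕ, Fin (N m) → PresentedGroup (rels : Set (FreeGroup (Fin n)))),
          0 < ε ∧
          Filter.Tendsto N Filter.atTop Filter.atTop ∧
          (∀ (m : ℕ) (v : Fin (N m)), Nat.card {u : Fin (N m) // (Gr m).Adj v u} ≤ D) ∧
          (∀ (m : ℕ) (A : Set (Fin (N m))), 2 * Nat.card A ≤ N m →
              ε * (Nat.card A : ℝ) ≤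
                (Nat.card {p : Fin (N m) × Fin (N m) //
                    p.1 ∈ A ∧ p.2 ∉ A ∧ (Gr m).Adj p.1 p.2} : ℝ)) ∧
          (∀ (m : ℕ) (u v : Fin (N m)), (Gr m).Adj u v →
              ∃ w : FreeGroup (Fin n), w.toWord.length ≤ L ∧
                φ m v = φ m u * PresentedGroup.mk (rels : Set (FreeGroup (Fin n))) w) ∧
          (∀ δ : ℝ, 0 < δ → ∃ M : ℕ, ∀ m : ℕ, M ≤ m →
              ∀ x : PresentedGroup (rels : Set (FreeGroup (Fin n))),
                (Nat.card {v : Fin (N m) // φ m v = x} : ℝ) ≤ δ * (N m : ℝ)) := by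
  obtain ⟨E, _, hfp, hc, hce⟩ := Pool.Agent.Helper784WE.exists_group
    Pool.Agent.Helper784WE.F.specF
  exact Pool.Agent.Helper784WE.presented E hfp hc hce

end Pool.Agent.S00765
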