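import Pool.Statements.S00830
import Pool.Agent.Helper73_Schmidt.Finite

set_option autoImplicit false
open Pool Pool.MP_196888_al

namespace Pool.Agent.S00830

/-- The negation of the preceding statement: For every group G, every m ≥ 2 and every lattice isomorphism φ from the subgroups of G^m to the subgroups of a group H such that H is the internal direct product of the images of the coordinate subgroups, the image of the first coordinate subgroup is isomorphic to G.

The counterexample is finite: `G = (C₂₅ × C₁₁) ⋊ C₅` of order `1375`, the generator of `C₅` acting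
on `C₂₅` as the power `6` and on `C₁₁` as the power `3`; `K` is the group on the same set with
`x ∘ y = x y [x, y] ^ 33`. `G` is a subgroup of the direct product of `C₂₅ ⋊ C₅`, of class `2` with
derived subgroup of order `5`, and of `C₁₁ ⋊ C₅`; so this is a group operation, and
`x y = x ∘ y ∘ [x, y]_∘ ^ 11`. Hence `G ^ m` and `K ^ m` have the same subgroups for every `m`, and
the identity map of `G ^ m` gives a projectivity onto `K ^ m` which respects the direct factors. In
`K` the generator of `C₅` acts on `C₂₅` as the power `11` and on `C₁₁` as the power `3`, and `K` is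
not isomorphic to `G`. -/
theorem result :
    ¬ (∀ (G : Type) [Group G] (n : ℕ) (H : Type) [Group H]
      (φ : Subgroup (Fin (n + 2) → G) ≃o Subgroup H),
      (∀ i : Fin (n + 2),
          (φ (MonoidHom.mulSingle (fun _ : Fin (n + 2) => G) i).range).Normal) →
      (⨆ i : Fin (n + 2), φ (MonoidHom.mulSingle (fun _ : Fin (n + 2) => G) i).range) = ⊤ →
      iSupIndep (fun i : Fin (n + 2) =>
          φ (MonoidHom.mulSingle (fun _ : Fin (n + 2) => G) i).range) →
      Nonempty (↥(φ (MonoidHom.mulSingle (fun _ : Fin (n + 2) => G) 0).range) ≃* G)) := by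
  intro h
  obtain ⟨ψ⟩ := h Helper73_Schmidt.G 0 (Fin 2 → Helper73_Schmidt.K)
    (Helper73_Schmidt.subEquiv Helper73_Schmidt.termEquiv (Fin 2))
    (by
      intro i
      rw [Helper73_Schmidt.subEquiv_range]
      exact Helper73_Schmidt.coord_normal Helper73_Schmidt.K i)
    (by
      have h1 : ∀ i : Fin 2, Helper73_Schmidt.subEquiv Helper73_Schmidt.termEquiv (Fin 2)
          (MonoidHom.mulSingle (fun _ : Fin 2 => Helper73_Schmidt.G) i).range =
            (MonoidHom.mulSingle (fun _ : Fin 2 => Helper73_Schmidt.K) i).range :=
        fun i => Helper73_Schmidt.subEquiv_range _ _ i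
      show (⨆ i : Fin 2, Helper73_Schmidt.subEquiv Helper73_Schmidt.termEquiv (Fin 2)
          (MonoidHom.mulSingle (fun _ : Fin 2 => Helper73_Schmidt.G) i).range) = ⊤
      simp only [h1]
      exact Helper73_Schmidt.coord_sup Helper73_Schmidt.K)
    (by
      have h1 : (fun i : Fin 2 => Helper73_Schmidt.subEquiv Helper73_Schmidt.termEquiv (Fin 2)
          (MonoidHom.mulSingle (fun _ : Fin 2 => Helper73_Schmidt.G) i).range) =
            (fun i : Fin 2 =>
              (MonoidHom.mulSingle (fun _ : Fin 2 => Helper73_Schmidt.K) i).range) :=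
        funext fun i => Helper73_Schmidt.subEquiv_range _ _ i
      show iSupIndep (fun i : Fin 2 => Helper73_Schmidt.subEquiv Helper73_Schmidt.termEquiv (Fin 2)
          (MonoidHom.mulSingle (fun _ : Fin 2 => Helper73_Schmidt.G) i).range)
      rw [h1]
      exact Helper73_Schmidt.coord_indep Helper73_Schmidt.K)
  have h2 : Helper73_Schmidt.subEquiv Helper73_Schmidt.termEquiv (Fin 2)
      (MonoidHom.mulSingle (fun _ : Fin 2 => Helper73_Schmidt.G) 0).range =
        (MonoidHom.mulSingle (fun _ : Fin 2 => Helper73_Schmidt.K) 0).range :=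
    Helper73_Schmidt.subEquiv_range _ _ 0
  have ψ' : (MonoidHom.mulSingle (fun _ : Fin 2 => Helper73_Schmidt.K) 0).range ≃*
      Helper73_Schmidt.G := (MulEquiv.subgroupCongr h2.symm).trans ψ
  exact Helper73_Schmidt.not_iso
    ((Helper73_Schmidt.coordEquiv Helper73_Schmidt.K (0 : Fin 2)).trans ψ')

end Pool.Agent.S00830
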