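import Pool.Statements.S00905

set_option autoImplicit false
open Pool Pool.MP_207b86_al

namespace Pool.Agent.S00905

open Monoid Topology

/-- evaluation of a one-variable word with constants -/
abbrev ev {G : Type} [Group G] (w : Coprod G (FreeGroup Unit)) (g : G) : G :=
  Coprod.lift (MonoidHom.id G) (FreeGroup.lift (fun _ => g)) w

/-- the Zariski topology -/
abbrev ZT (G : Type) [Group G] : TopologicalSpace G :=
  TopologicalSpace.generateFrom
    {U : Set G | ∃ w : Monoid.Coprod G (FreeGroup Unit),
      U = {g : G | Monoid.Coprod.lift (MonoidHom.id G) (FreeGroup.lift (fun _ => g)) w = 1}ᶜ}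

/-- the word `[a⁻¹ x, g]` -/
def wd {G : Type} [Group G] (a g : G) : Coprod G (FreeGroup Unit) :=
  (Coprod.inl a⁻¹ * Coprod.inr (FreeGroup.of ())) * Coprod.inl g *
    (Coprod.inl a⁻¹ * Coprod.inr (FreeGroup.of ()))⁻¹ * (Coprod.inl g)⁻¹

lemma ev_wd {G : Type} [Group G] (a g x : G) :
    ev (wd a g) x = (a⁻¹ * x) * g * (a⁻¹ * x)⁻¹ * g⁻¹ := by
  simp [ev, wd]

/-- in a topological group every word map is continuous -/
lemma continuous_ev {G : Type} [Group G] [TopologicalSpace G] [IsTopologicalGroup G]
    (w : Coprod G (FreeGroup Unit)) : Continuous (fun g : G => ev w g) := by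
  induction w using Coprod.induction_on with
  | inl m =>
    have : (fun g : G => ev (Coprod.inl m) g) = fun _ => m := by
      funext g; simp [ev]
    rw [this]; exact continuous_const
  | inr n =>
    have : (fun g : G => ev (Coprod.inr n) g) = fun g => FreeGroup.lift (fun _ => g) n := by
      funext g; simp [ev]
    rw [this]
    induction n using FreeGroup.induction_on with
    | C1 => simpa using continuous_const
    | of x => simpa using (continuous_id' : Continuous fun g : G => g)
    | inv_of x h =>
      have h2 : Continuous fun g : G => g⁻¹ := continuous_inv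
      simpa using h2
    | mul x y hx hy =>
      have h2 := Continuous.fun_mul (hx (by funext g; simp [ev])) (hy (by funext g; simp [ev]))
      simpa using h2
  | mul x y hx hy =>
    have h2 := Continuous.fun_mul hx hy
    simpa [ev] using h2

lemma isClosed_ev {G : Type} [Group G] (w : Coprod G (FreeGroup Unit)) :
    IsClosed[ZT G] {g : G | ev w g = 1} := by
  rw [← @isOpen_compl_iff _ _ (ZT G)]
  exact TopologicalSpace.isOpen_generateFrom_of_mem ⟨w, rfl⟩

/-- the Zariski topology is coarser than every Hausdorff group topology -/
lemma le_ZT {G : Type} [Group G] (T : TopologicalSpace G) [IsTopologicalGroup G] [T1Space G] :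
    T ≤ ZT G := by
  refine le_generateFrom ?_
  rintro U ⟨w, rfl⟩
  have h : IsClosed {g : G | ev w g = 1} := isClosed_singleton.preimage (continuous_ev w)
  exact h.isOpen_compl

/-- the symmetric group on three letters -/
abbrev F : Type := Equiv.Perm (Fin 3)

/-- the countable power of the symmetric group on three letters -/
abbrev P : Type := ℕ → F

lemma center_F : ∀ x : F, (∀ g : F, x * g = g * x) → x = 1 := by
  decide

lemma isClosed_coord (i : ℕ) (a : F) : IsClosed[ZT P] {x : P | x i = a} := by
  have h : {x : P | x i = a} =
      ⋂ g : F, {x : P | ev (wd (Pi.mulSingle i a : P) (Pi.mulSingle i g)) x = 1} := by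
    ext x
    simp only [Set.mem_ofPred_eq, Set.mem_iInter, ev_wd]
    constructor
    · rintro rfl g
      funext j
      by_cases hj : j = i
      · subst hj; simp
      · simp [Pi.mulSingle_eq_of_ne hj]
    · intro h
      have h1 : a⁻¹ * x i = 1 := by
        refine center_F _ fun g => ?_
        have h2 := congrFun (h g) i
        simp only [Pi.mul_apply, Pi.inv_apply, Pi.mulSingle_eq_same, Pi.one_apply] at h2
        rw [mul_inv_eq_one, mul_inv_eq_iff_eq_mul] at h2
        exact h2
      rw [inv_mul_eq_one] at h1
      exact h1.symm
  rw [h]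
  exact @isClosed_iInter _ _ (ZT P) _ fun g => isClosed_ev _

lemma isOpen_coord (i : ℕ) (a : F) : IsOpen[ZT P] {x : P | x i = a} := by
  have h : {x : P | x i = a}ᶜ = ⋃ b ∈ {b : F | b ≠ a}, {x : P | x i = b} := by
    ext x; simp
  rw [← @isClosed_compl_iff _ (ZT P), h]
  exact @Set.Finite.isClosed_biUnion _ _ (ZT P) _ _ (Set.toFinite _) fun b _ => isClosed_coord i b

/-- There is an infinite group whose Zariski topology is both compact and Hausdorff. The closed sets of that topology are generated by solution sets of one-variable equations with constants from the group. -/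
theorem result :
    ∃ (G : Type) (_ : Group G) (T : TopologicalSpace G),
      Infinite G ∧
      T = TopologicalSpace.generateFrom
        {U : Set G | ∃ w : Monoid.Coprod G (FreeGroup Unit),
          U = {g : G | Monoid.Coprod.lift (MonoidHom.id G) (FreeGroup.lift (fun _ => g)) w = 1}ᶜ} ∧
      @CompactSpace G T ∧ @T2Space G T := by
  refine ⟨P, inferInstance, ZT P, inferInstance, rfl, ?_, ?_⟩
  · let tF : TopologicalSpace F := ⊥
    have dF : DiscreteTopology F := ⟨rfl⟩
    have hle : (inferInstance : TopologicalSpace P) ≤ ZT P := le_ZT _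
    have hc : @CompactSpace P (inferInstance : TopologicalSpace P) := inferInstance
    refine @CompactSpace.mk _ (ZT P) ?_
    have h1 := @isCompact_univ P _ hc
    have h2 := @IsCompact.image P P _ (ZT P) _ _ h1 (continuous_id_of_le hle)
    simpa using h2
  · refine @T2Space.mk _ (ZT P) fun x y hxy => ?_
    obtain ⟨i, hi⟩ := Function.ne_iff.1 hxy
    refine ⟨{z : P | z i = x i}, {z : P | z i = y i}, isOpen_coord i _, isOpen_coord i _, rfl, rfl,
      ?_⟩
    rw [Set.disjoint_left]
    intro z hz hz'
    exact hi (Eq.trans (Eq.symm hz) hz')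

end Pool.Agent.S00905
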