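-- Disproof: R = Z[i][X] localised at (1 + i, X), a regular local ring of dimension 2 with residue field of
-- characteristic 2. Its fraction field K contains i and 1/2, so every element of K is a sum of two squares.
-- But 2X = (1+X)^2 + i^2 + (iX)^2 is a sum of squares in R which is not a sum of two squares in R.
import Pool.Statements.S01012
import Mathlib

set_option autoImplicit false
open Pool Pool.MP_293fae_al

namespace Pool.Agent.S01012

open Polynomial

/-- The polynomial ring over the Gaussian integers. -/
abbrev A : Type := Polynomial GaussianInt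

/-- Reduction of the Gaussian integers modulo `1 + i`. -/
noncomputable def phi : GaussianInt →+* ZMod 2 := Zsqrtd.lift ⟨1, by decide⟩

lemma phi_apply (z : GaussianInt) : phi z = (z.re : ZMod 2) + (z.im : ZMod 2) := by
  simp [phi, Zsqrtd.lift_apply_apply]

/-- Evaluation at `0` followed by reduction modulo `1 + i`. -/
noncomputable def psi : A →+* ZMod 2 := phi.comp (Polynomial.evalRingHom 0)

lemma psi_apply (f : A) : psi f = phi (f.coeff 0) := by
  simp [psi, Polynomial.coeff_zero_eq_eval_zero]

/-- The maximal ideal `(1 + i, X)` of `Z[i][X]`. -/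
noncomputable def P : Ideal A := RingHom.ker psi

instance : P.IsPrime := RingHom.ker_isPrime psi

lemma mem_P (f : A) : f ∈ P ↔ phi (f.coeff 0) = 0 := by
  rw [P, RingHom.mem_ker, psi_apply]

lemma phi_eq_zero (z : GaussianInt) (hz : phi z = 0) : ∃ w : GaussianInt, z = w * ⟨1, 1⟩ := by
  rw [phi_apply] at hz
  have h1 : ((z.re + z.im : ℤ) : ZMod 2) = 0 := by push_cast; exact hz
  rw [ZMod.intCast_zmod_eq_zero_iff_dvd] at h1
  obtain ⟨k, hk⟩ := h1
  refine ⟨⟨k, k - z.re⟩, ?_⟩
  apply Zsqrtd.ext
  · simp
  · simp
    push_cast at hk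
    linarith

lemma P_eq : P = Ideal.span {C (⟨1, 1⟩ : GaussianInt), X} := by
  apply le_antisymm
  · intro f hf
    rw [mem_P] at hf
    obtain ⟨w, hw⟩ := phi_eq_zero _ hf
    rw [Ideal.mem_span_pair]
    refine ⟨C w, f.divX, ?_⟩
    rw [← C_mul, ← hw, add_comm]
    exact f.divX_mul_X_add
  · rw [Ideal.span_le]
    rintro x (rfl | rfl)
    · rw [SetLike.mem_coe, mem_P]
      simp [phi_apply]
      decide
    · rw [SetLike.mem_coe, mem_P]
      simp

lemma height_P : P.height = 2 := by
  apply le_antisymm
  · have h1 : P ∈ (Ideal.span (({C (⟨1, 1⟩ : GaussianInt), X} : Finset A) : Set A)).minimalPrimes := by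
      have h2 : Ideal.span (({C (⟨1, 1⟩ : GaussianInt), X} : Finset A) : Set A) = P := by
        rw [P_eq]; simp
      rw [h2, Ideal.minimalPrimes_eq_subsingleton_self]
      rfl
    refine (Ideal.height_le_card_of_mem_minimalPrimes_span_finset h1).trans ?_
    exact_mod_cast Finset.card_le_two
  · have hX : (Ideal.span {(X : A)}).IsPrime := by
      rw [Ideal.span_singleton_prime X_ne_zero]
      exact prime_X
    have h1 : (⊥ : Ideal A) < Ideal.span {(X : A)} := by
      rw [bot_lt_iff_ne_bot, Ne, Ideal.span_singleton_eq_bot]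
      exact X_ne_zero
    have h2 : Ideal.span {(X : A)} < P := by
      refine lt_of_le_of_ne ?_ ?_
      · rw [Ideal.span_singleton_le_iff_mem, mem_P]
        simp
      · intro h
        have h3 : C (⟨1, 1⟩ : GaussianInt) ∈ P := by
          rw [mem_P]
          simp [phi_apply]
          decide
        rw [← h, Ideal.mem_span_singleton, X_dvd_iff] at h3
        simp at h3
        have := congrArg Zsqrtd.re h3
        simp at this
    have h4 := Ideal.height_add_one_le_of_lt_of_isPrime h1
    have h5 := Ideal.height_add_one_le_of_lt_of_isPrime h2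
    calc (2 : ℕ∞) = 0 + 1 + 1 := by norm_num
      _ ≤ (⊥ : Ideal A).height + 1 + 1 := by gcongr; exact bot_le
      _ ≤ (Ideal.span {(X : A)}).height + 1 := by gcongr
      _ ≤ P.height := h5

/-- The regular local ring. -/
abbrev R : Type := Localization.AtPrime P

lemma primeCompl_le : P.primeCompl ≤ nonZeroDivisors A := P.primeCompl_le_nonZeroDivisors

instance : IsDomain R := IsLocalization.isDomain_localization primeCompl_le

instance : IsNoetherianRing R := IsLocalization.isNoetherianRing P.primeCompl R inferInstance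

lemma dim_R : ringKrullDim R = 2 := by
  rw [IsLocalization.AtPrime.ringKrullDim_eq_height P R, height_P]
  rfl

lemma max_R : ∃ a b : R, IsLocalRing.maximalIdeal R = Ideal.span {a, b} := by
  refine ⟨algebraMap A R (C ⟨1, 1⟩), algebraMap A R X, ?_⟩
  rw [← Localization.AtPrime.map_eq_maximalIdeal]
  have h : Ideal.map (algebraMap A R) P =
      Ideal.map (algebraMap A R) (Ideal.span {C (⟨1, 1⟩ : GaussianInt), X}) := by rw [← P_eq]
  refine h.trans ?_
  rw [Ideal.map_span, Set.image_pair]

/-- The element `i`. -/
def I : GaussianInt := ⟨0, 1⟩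

lemma I_sq : I * I = -1 := by decide

lemma zmod_two_sq (a b : ZMod 2) (h : a ^ 2 + b ^ 2 = 0) : a = b := by
  revert a b
  decide

lemma coeff_two_mul (p q : A) :
    (p * q).coeff 2 = p.coeff 0 * q.coeff 2 + p.coeff 1 * q.coeff 1 + p.coeff 2 * q.coeff 0 := by
  rw [Polynomial.coeff_mul]
  rw [show Finset.HasAntidiagonal.antidiagonal 2 = {((0 : ℕ), (2 : ℕ)), (1, 1), (2, 0)} from rfl]
  rw [Finset.sum_insert (by decide), Finset.sum_insert (by decide), Finset.sum_singleton]
  ring

lemma key (p q s : A) (h : 2 * X * s ^ 2 = p ^ 2 + q ^ 2) : s ∈ P := by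
  have c0 := congrArg (fun f => coeff f 0) h
  have c1 := congrArg (fun f => coeff f 1) h
  have c2 := congrArg (fun f => coeff f 2) h
  have e2 : (2 : A) = C 2 := (Polynomial.C_ofNat 2).symm
  simp only [pow_two, e2, mul_assoc, coeff_add, mul_coeff_zero, coeff_X_zero, zero_mul,
    mul_zero] at c0
  have f1 : coeff (2 * X * s ^ 2) 1 = 2 * (s.coeff 0) ^ 2 := by
    rw [show (2 * X * s ^ 2 : A) = C 2 * (s * s * X) by rw [← e2]; ring, coeff_C_mul, coeff_mul_X,
      mul_coeff_zero]
    ring
  have f2 : coeff (2 * X * s ^ 2) 2 = 2 * (2 * (s.coeff 0 * s.coeff 1)) := by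
    rw [show (2 * X * s ^ 2 : A) = C 2 * (s * s * X) by rw [← e2]; ring, coeff_C_mul, coeff_mul_X,
      mul_coeff_one]
    ring
  have g1 : ∀ f : A, coeff (f ^ 2) 1 = 2 * (f.coeff 0 * f.coeff 1) := by
    intro f
    rw [pow_two, mul_coeff_one]
    ring
  have g2 : ∀ f : A, coeff (f ^ 2) 2 = (f.coeff 1) ^ 2 + 2 * (f.coeff 0 * f.coeff 2) := by
    intro f
    rw [pow_two, coeff_two_mul]
    ring
  simp only [coeff_add] at c1 c2
  rw [f1, g1, g1] at c1
  rw [f2, g2, g2] at c2
  have two_ne : (2 : GaussianInt) ≠ 0 := by decide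
  have c1' : (s.coeff 0) ^ 2 = p.coeff 0 * p.coeff 1 + q.coeff 0 * q.coeff 1 := by
    apply mul_left_cancel₀ two_ne
    rw [c1]; ring
  have h2 : phi 2 = 0 := by
    rw [phi_apply]; decide
  have r0 : phi (p.coeff 0) = phi (q.coeff 0) := by
    apply zmod_two_sq
    have := congrArg phi c0
    simp only [map_add, map_mul, map_zero] at this
    rw [pow_two, pow_two]
    exact this.symm
  have r1 : phi (p.coeff 1) = phi (q.coeff 1) := by
    apply zmod_two_sq
    have := congrArg phi c2
    simp only [map_add, map_mul, map_pow, h2, zero_mul, add_zero] at this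
    exact this.symm
  have r2 : phi (s.coeff 0) ^ 2 = 0 := by
    have := congrArg phi c1'
    simp only [map_add, map_mul, map_pow] at this
    rw [this, r0, r1, ← two_mul]
    rw [show (2 : ZMod 2) = 0 from rfl, zero_mul]
  rw [mem_P]
  exact pow_eq_zero_iff (two_ne_zero) |>.1 r2

lemma not_two_squares (u v : R) : algebraMap A R (2 * X) ≠ u ^ 2 + v ^ 2 := by
  intro h
  obtain ⟨⟨p, s⟩, rfl⟩ := IsLocalization.mk'_surjective P.primeCompl u
  obtain ⟨⟨q, t⟩, rfl⟩ := IsLocalization.mk'_surjective P.primeCompl v
  simp only at h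
  have h1 : algebraMap A R (2 * X * ((s : A) * (t : A)) ^ 2) =
      algebraMap A R ((p * (t : A)) ^ 2 + (q * (s : A)) ^ 2) := by
    have e1 : IsLocalization.mk' R p s * algebraMap A R s = algebraMap A R p :=
      IsLocalization.mk'_spec R p s
    have e2 : IsLocalization.mk' R q t * algebraMap A R t = algebraMap A R q :=
      IsLocalization.mk'_spec R q t
    rw [map_mul, h, map_pow, map_mul, map_add, map_pow, map_pow, map_mul, map_mul, ← e1, ← e2]
    ring
  have h2 := IsLocalization.injective R primeCompl_le h1
  have h3 := key _ _ _ h2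
  rcases (inferInstance : P.IsPrime).mem_or_mem h3 with h4 | h4
  · exact s.2 h4
  · exact t.2 h4

lemma isSumSq_two_X : IsSumSq (algebraMap A R (2 * X)) := by
  have h : algebraMap A R (2 * X) = algebraMap A R (1 + X) * algebraMap A R (1 + X) +
      (algebraMap A R (C I) * algebraMap A R (C I) +
        (algebraMap A R (C I * X) * algebraMap A R (C I * X) + 0)) := by
    rw [add_zero, ← map_mul (algebraMap A R), ← map_mul (algebraMap A R) (C I),
      ← map_mul (algebraMap A R) (C I * X), ← map_add, ← map_add]
    congr 1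
    have hI : (C I * C I : A) = -1 := by
      rw [← C_mul, I_sq]; simp
    calc (2 * X : A) = (1 + X) * (1 + X) + (-1 + (-1) * (X * X)) := by ring
      _ = (1 + X) * (1 + X) + (C I * C I + (C I * C I) * (X * X)) := by rw [hI]
      _ = _ := by ring
  rw [h]
  exact .sq_add _ (.sq_add _ (.sq_add _ .zero))

/-- The negation of the preceding statement: For every 2-dimensional regular local ring R with fraction field K, and every n, every sum of squares in R is a sum of n squares iff the same holds in K; that is, the Pythagoras numbers of R and K agree. -/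
theorem result :
    ¬ (∀ (R : Type) [CommRing R] [IsDomain R] [IsLocalRing R] [IsNoetherianRing R],
      ringKrullDim R = 2 →
      (∃ a b : R, IsLocalRing.maximalIdeal R = Ideal.span {a, b}) →
      ∀ (K : Type) [Field K] [Algebra R K] [IsFractionRing R K],
      ∀ n : ℕ,
        ((∀ x : R, IsSumSq x → ∃ f : Fin n → R, x = ∑ i, f i ^ 2) ↔
          (∀ x : K, IsSumSq x → ∃ f : Fin n → K, x = ∑ i, f i ^ 2))) := by
  intro h
  have h1 := (h R dim_R max_R (FractionRing A) 2).2
  have hK : ∀ x : FractionRing A, IsSumSq x → ∃ f : Fin 2 → FractionRing A, x = ∑ i, f i ^ 2 := by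
    intro x _
    let g : GaussianInt →+* FractionRing A :=
      (algebraMap R (FractionRing A)).comp ((algebraMap A R).comp (C : GaussianInt →+* A))
    have hg : Function.Injective g := by
      intro a b hab
      have h2 := IsFractionRing.injective R (FractionRing A) hab
      have h3 := IsLocalization.injective R primeCompl_le h2
      exact C_injective h3
    have hI : g I * g I = -1 := by
      rw [← map_mul, I_sq]; simp
    have h2 : (2 : FractionRing A) ≠ 0 := by
      intro h2
      have h3 : g 2 = g 0 := by rw [map_ofNat, h2, map_zero]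
      exact absurd (hg h3) (by decide)
    refine ⟨![(x + 1) / 2, g I * ((x - 1) / 2)], ?_⟩
    rw [Fin.sum_univ_two]
    simp only [Matrix.cons_val_zero, Matrix.cons_val_one]
    rw [mul_pow, pow_two (g I), hI]
    field_simp
    ring
  obtain ⟨f, hf⟩ := h1 hK _ isSumSq_two_X
  rw [Fin.sum_univ_two] at hf
  exact not_two_squares _ _ hf

end Pool.Agent.S01012
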