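import Pool.Statements.S01111
import Pool.Agent.Helper139_Saxl.Main

set_option autoImplicit false
open CategoryTheory
open scoped CategoryTheory.MonoidalCategory
open Pool Pool.MP_322c5f_al

namespace Pool.Agent.S01111

/-- For every n ≥ 4 there is an irreducible complex representation V of A_n such that every irreducible complex representation W of A_n admits a nonzero map into V ⊗ V, i.e. occurs in the square of the character of V. -/
theorem result :
    ∀ n : ℕ, 4 ≤ n →
      ∃ V : FDRep ℂ (alternatingGroup (Fin n)),
        Simple V ∧
          ∀ W : FDRep ℂ (alternatingGroup (Fin n)), Simple W →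
            ∃ f : W ⟶ V ⊗ V, f ≠ 0 := by
  exact Pool.Saxl.main

end Pool.Agent.S01111
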