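import Pool.Statements.S01232
import Pool.Agent.helper987_SE.A1
import Pool.Agent.helper987_SE.A2
import Pool.Agent.helper987_SE.A3
import Pool.Agent.helper987_SE.A4
import Pool.Agent.helper987_SE.B1
import Pool.Agent.helper987_SE.B2
import Pool.Agent.helper987_SE.B3
import Pool.Agent.helper987_SE.B4
import Pool.Agent.helper987_SE.B5
import Pool.Agent.helper987_SE.B6
import Pool.Agent.helper987_SE.B7
import Pool.Agent.helper987_SE.B8
import Pool.Agent.helper987_SE.B9
import Pool.Agent.helper987_SE.B10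
import Pool.Agent.helper987_SE.C1
import Pool.Agent.helper987_SE.C2
import Pool.Agent.helper987_SE.C3
import Pool.Agent.helper987_SE.C4
import Pool.Agent.helper987_SE.F2
import Pool.Agent.Helper702_TH.All
import Pool.Agent.Helper702_TH.E
import Pool.Agent.Helper702_TH.Fin
import Pool.Agent.Helper702_TH.K
import Pool.Agent.Helper702_TH.K1
import Pool.Agent.Helper702_TH.K2
import Pool.Agent.Helper702_TH.K3
import Pool.Agent.Helper702_TH.M1
import Pool.Agent.Helper702_TH.M2
import Pool.Agent.Helper702_TH.M3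
import Pool.Agent.Helper702_TH.PW
import Pool.Agent.Helper702_TH.TA
import Pool.Agent.Helper702_TH.U1
import Pool.Agent.Helper702_TH.U2
import Pool.Agent.Helper702_TH.U3
import Pool.Agent.Helper702_TH.V1
import Pool.Agent.Helper702_TH.V2
import Pool.Agent.Helper702_TH.V3

set_option autoImplicit false
open Pool Pool.MP_3b226c_al

namespace Pool.Agent.S01232

/-- The negation of the preceding statement: For every prime p, with Γ the 1,3,3,1 block upper-unitriangular-type subgroup of SL_8(ℤ[1/p]) and Z any infinite cyclic subgroup of its top-right-corner centre, the quotient Γ/Z is sofic. -/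
theorem result :
    ¬ (∀ p : ℕ, p.Prime →
  ∀ Γ : Subgroup (Matrix.SpecialLinearGroup (Fin 8) (Localization.Away (p : ℤ))),
  (∀ g : Matrix.SpecialLinearGroup (Fin 8) (Localization.Away (p : ℤ)), g ∈ Γ ↔
     ((∀ i j : Fin 8,
        ((i.val = 7 ∧ j.val < 7) ∨ (4 ≤ i.val ∧ j.val < 4) ∨ (1 ≤ i.val ∧ j.val < 1)) →
          (g : Matrix (Fin 8) (Fin 8) (Localization.Away (p : ℤ))) i j = 0) ∧
      (g : Matrix (Fin 8) (Fin 8) (Localization.Away (p : ℤ))) 0 0 = 1 ∧
      (g : Matrix (Fin 8) (Fin 8) (Localization.Away (p : ℤ))) 7 7 = 1 ∧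
      (Matrix.of ![
        ![(g : Matrix (Fin 8) (Fin 8) (Localization.Away (p : ℤ))) 1 1,
          (g : Matrix (Fin 8) (Fin 8) (Localization.Away (p : ℤ))) 1 2,
          (g : Matrix (Fin 8) (Fin 8) (Localization.Away (p : ℤ))) 1 3],
        ![(g : Matrix (Fin 8) (Fin 8) (Localization.Away (p : ℤ))) 2 1,
          (g : Matrix (Fin 8) (Fin 8) (Localization.Away (p : ℤ))) 2 2,
          (g : Matrix (Fin 8) (Fin 8) (Localization.Away (p : ℤ))) 2 3],
        ![(g : Matrix (Fin 8) (Fin 8) (Localization.Away (p : ℤ))) 3 1,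
          (g : Matrix (Fin 8) (Fin 8) (Localization.Away (p : ℤ))) 3 2,
          (g : Matrix (Fin 8) (Fin 8) (Localization.Away (p : ℤ))) 3 3]]).det = 1)) →
  ∀ Z : Subgroup Γ,
  (∀ z ∈ Z, ∀ i j : Fin 8, ¬ (i = 0 ∧ j = 7) →
      (((z : Γ) : Matrix.SpecialLinearGroup (Fin 8) (Localization.Away (p : ℤ))) :
        Matrix (Fin 8) (Fin 8) (Localization.Away (p : ℤ))) i j =
      (1 : Matrix (Fin 8) (Fin 8) (Localization.Away (p : ℤ))) i j) →
  Nonempty (Z ≃* Multiplicative ℤ) →
  ∀ [Z.Normal],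
  ∀ F : Finset (Γ ⧸ Z), ∀ ε : ℝ, 0 < ε →
    ∃ n : ℕ, 1 ≤ n ∧ ∃ φ : Γ ⧸ Z → Equiv.Perm (Fin n),
      (∀ g ∈ F, ∀ h ∈ F,
        (1 - ε) * (n : ℝ) ≤
          ((Finset.univ.filter (fun x : Fin n => φ (g * h) x = (φ g * φ h) x)).card : ℝ)) ∧
      (∀ g ∈ F, g ≠ 1 →
        ((Finset.univ.filter (fun x : Fin n => φ g x = x)).card : ℝ) ≤ ε * (n : ℝ))) := by
  have a2 := helper987_SE.A2.main helper987_SE.A1.main
  have b1 := helper987_SE.B1.main
  have b4 := helper987_SE.B4.main
  have bp := helper987_SE.B10.main (helper987_SE.B2.main b1)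
    (helper987_SE.B5.main (helper987_SE.B3.main b1) b4) helper987_SE.B6.main
    (helper987_SE.B7.main b4) (helper987_SE.B8.main b4) helper987_SE.B9.main
  have c4 := helper987_SE.C4.main helper987_SE.C1.main helper987_SE.C2.main helper987_SE.C3.main
  exact Helper702_TH.assembly a2 (helper987_SE.A3.main a2) (helper987_SE.A4.main a2) bp c4
    helper987_SE.F2.main Helper702_TH.V1.main Helper702_TH.V2.main Helper702_TH.V3.main
    Helper702_TH.U1.main Helper702_TH.U2.main Helper702_TH.U3.main Helper702_TH.TA.main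
    Helper702_TH.PW.main Helper702_TH.K1.main Helper702_TH.K2.main Helper702_TH.K3.main
    Helper702_TH.K.main Helper702_TH.E.main Helper702_TH.M1.main Helper702_TH.M2.main
    Helper702_TH.M3.main Helper702_TH.Fin.main
end Pool.Agent.S01232
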