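import Pool.Statements.S01246
import Pool.Agent.Helper379_HC.Main
import Pool.Agent.Helper320_HC.Rx
import Pool.Agent.Helper320_HC.Slab
import Pool.Agent.Helper534_HC.Q3
import Pool.Agent.Helper135_HC.Br2
import Pool.Agent.Helper586_HC.Hol
import Pool.Agent.Helper613_HC.Pile
import Pool.Agent.Helper556_HC.DataG
import Pool.Agent.Helper514_HC.Acyc

set_option autoImplicit false
open CategoryTheory
open Pool Pool.MP_3ca9d5_al

namespace Pool.Agent.S01246

/-- The negation of the preceding statement: For surjections G₁→Q, G₂→Q with finitely generated kernel in G₁, G₁ and G₂ of type FP₂ and Q of type FP₃, the fibre product {(a,b) : π₁a = π₂b} is of type FP₂. -/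
theorem result :
    ¬ (∀ (G₁ G₂ Q : Type) [Group G₁] [Group G₂] [Group Q] (π₁ : G₁ →* Q) (π₂ : G₂ →* Q),
      Function.Surjective π₁ → Function.Surjective π₂ → Group.FG π₁.ker →
      (∃ R : ProjectiveResolution (Rep.trivial ℤ G₁ ℤ), ∀ k ≤ 2,
        ∃ s : Finset (R.complex.X k).V, ∀ x : (R.complex.X k).V,
          x ∈ Submodule.span ℤ
            (Set.range (fun p : G₁ × s => (R.complex.X k).ρ p.1 (p.2 : (R.complex.X k).V)))) →
      (∃ R : ProjectiveResolution (Rep.trivial ℤ G₂ ℤ), ∀ k ≤ 2,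
        ∃ s : Finset (R.complex.X k).V, ∀ x : (R.complex.X k).V,
          x ∈ Submodule.span ℤ
            (Set.range (fun p : G₂ × s => (R.complex.X k).ρ p.1 (p.2 : (R.complex.X k).V)))) →
      (∃ R : ProjectiveResolution (Rep.trivial ℤ Q ℤ), ∀ k ≤ 3,
        ∃ s : Finset (R.complex.X k).V, ∀ x : (R.complex.X k).V,
          x ∈ Submodule.span ℤ
            (Set.range (fun p : Q × s => (R.complex.X k).ρ p.1 (p.2 : (R.complex.X k).V)))) →
      (∃ R : ProjectiveResolution (Rep.trivial ℤ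
          ↥((π₁.comp (MonoidHom.fst G₁ G₂)).eqLocus (π₂.comp (MonoidHom.snd G₁ G₂))) ℤ),
        ∀ k ≤ 2,
        ∃ s : Finset (R.complex.X k).V, ∀ x : (R.complex.X k).V,
          x ∈ Submodule.span ℤ
            (Set.range (fun p : ↥((π₁.comp (MonoidHom.fst G₁ G₂)).eqLocus
                (π₂.comp (MonoidHom.snd G₁ G₂))) × s =>
              (R.complex.X k).ρ p.1 (p.2 : (R.complex.X k).V))))) := by
  intro h
  obtain ⟨γ, l, p, hg⟩ := Pool.Agent.JOBNS.dataG Pool.Agent.Helper514_HC.acycG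
  obtain ⟨Q, iQ, k, π, hπ, hQ, hF, hG, hP⟩ := Pool.Agent.Helper379_HC.counter
    Pool.Agent.Helper135_HC.br1 Pool.Agent.Helper135_HC.br2
    (Pool.Agent.Helper534_HC.q3 Pool.Agent.Helper320_HC.rx Pool.Agent.Helper320_HC.slab)
    (Pool.Agent.Helper586_HC.Hol.hol Pool.Agent.Helper613_HC.pile)
    Pool.Agent.Helper379_HC.adG γ l p hg
  exact hP (h (Pool.Agent.Helper379_HC.G1 π) (FreeGroup (Fin k)) Q
    (Pool.Agent.Helper379_HC.p1 π) π (Pool.Agent.Helper379_HC.p1_surj π) hπ
    (Pool.Agent.Helper379_HC.ker_fg π hπ) hG hF hQ)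

end Pool.Agent.S01246
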