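import Pool.Statements.S01554
-- import your own Pool.Agent.* helpers here

set_option autoImplicit false
open Pool Pool.MP_58cc81_al

namespace Pool.Agent.S01554

/-!
The counterexample.  Let `V` be the discrete group `⊕_ℕ ℤ/2` and `N = (ℝ/ℤ)^(ℕ × ℕ)` (written
multiplicatively, with `Circle`), a compact connected group.  `G = V × N` with the multiplication
`(v, n) (w, m) = (v + w, n m β(v, w))`, `β(v, w)_{ij} = (-1)^{v_i w_j}`.  The subgroup `N` is open,
compact and central, so `G` is a balanced locally compact group; `G / N = V` is locally finite, so `G`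
is topologically locally finite.  If `(v, n)` and `(w, m)` commute, then `v_i w_j = v_j w_i` for all
`i, j`, so `v` and `w` are linearly dependent: an abelian subgroup of `G` is contained in at most two
cosets of `N`.  Finally `G` is not compact, because `V` is infinite, and not totally disconnected,
because `N` is connected.
-/

/-- The discrete quotient. -/
abbrev V : Type := ℕ →₀ ZMod 2

/-- The compact central subgroup. -/
abbrev N : Type := ℕ × ℕ → Circle

instance : TopologicalSpace V := ⊥

instance : DiscreteTopology V := ⟨rfl⟩

/-- The character `a ↦ (-1)^a` of `ℤ/2`. -/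
noncomputable def sg (a : ZMod 2) : Circle := if a = 0 then 1 else Circle.exp Real.pi

theorem exp_pi_ne : Circle.exp Real.pi ≠ 1 := by
  intro h
  have h1 : ((Circle.exp Real.pi : Circle) : ℂ) = 1 := by rw [h]; simp
  rw [Circle.coe_exp, Complex.exp_pi_mul_I] at h1
  norm_num at h1

theorem exp_pi_mul : Circle.exp Real.pi * Circle.exp Real.pi = 1 := by
  rw [← Circle.exp_add, ← two_mul, Circle.exp_two_pi]

theorem zmod_two (a : ZMod 2) : a = 0 ∨ a = 1 := by
  revert a; decide

theorem sg_add (a b : ZMod 2) : sg (a + b) = sg a * sg b := by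
  unfold sg
  rcases zmod_two a with rfl | rfl <;> rcases zmod_two b with rfl | rfl
  · simp
  · simp
  · simp
  · have h : (1 : ZMod 2) + 1 = 0 := by decide
    simp [h, exp_pi_mul]

theorem sg_inj {a b : ZMod 2} (h : sg a = sg b) : a = b := by
  unfold sg at h
  rcases zmod_two a with rfl | rfl <;> rcases zmod_two b with rfl | rfl
  · rfl
  · simp only [if_true, one_ne_zero, if_false] at h
    exact absurd h.symm exp_pi_ne
  · simp only [if_true, one_ne_zero, if_false] at h
    exact absurd h exp_pi_ne
  · rfl

theorem sg_zero : sg 0 = 1 := by simp [sg]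

/-- The cocycle. -/
noncomputable def bt (v w : V) : N := fun ij => sg (v ij.1 * w ij.2)

theorem bt_add_left (u v w : V) : bt (u + v) w = bt u w * bt v w := by
  funext ij
  simp only [bt, Pi.mul_apply, Finsupp.add_apply, add_mul, sg_add]

theorem bt_add_right (u v w : V) : bt u (v + w) = bt u v * bt u w := by
  funext ij
  simp only [bt, Pi.mul_apply, Finsupp.add_apply, mul_add, sg_add]

theorem bt_zero_left (v : V) : bt 0 v = 1 := by
  funext ij
  simp [bt, sg_zero]

theorem bt_zero_right (v : V) : bt v 0 = 1 := by
  funext ij
  simp [bt, sg_zero]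

/-- The group of the counterexample. -/
def Gr : Type := V × N

namespace Gr

noncomputable instance : Mul Gr := ⟨fun x y => (x.1 + y.1, x.2 * y.2 * bt x.1 y.1)⟩

noncomputable instance : One Gr := ⟨((0 : V), (1 : N))⟩

noncomputable instance : Inv Gr := ⟨fun x => (-x.1, x.2⁻¹ * bt x.1 x.1)⟩

theorem mul_fst (x y : Gr) : (x * y).1 = x.1 + y.1 := rfl

theorem mul_snd (x y : Gr) : (x * y).2 = x.2 * y.2 * bt x.1 y.1 := rfl

theorem one_fst : (1 : Gr).1 = 0 := rfl

theorem one_snd : (1 : Gr).2 = 1 := rfl

theorem inv_fst (x : Gr) : (x⁻¹).1 = -x.1 := rfl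

theorem inv_snd (x : Gr) : (x⁻¹).2 = x.2⁻¹ * bt x.1 x.1 := rfl

theorem ext' {x y : Gr} (h1 : x.1 = y.1) (h2 : x.2 = y.2) : x = y := Prod.ext h1 h2

theorem mul_inv_aux (a b c : N) (h : c * b = 1) : a⁻¹ * b * a * c = 1 := by
  rw [mul_right_comm a⁻¹, inv_mul_cancel, one_mul, mul_comm, h]

noncomputable instance : Group Gr :=
  Group.ofLeftAxioms
    (fun x y z => ext' (by simp only [mul_fst, add_assoc]) (by
      simp only [mul_fst, mul_snd, bt_add_left, bt_add_right]
      simp only [mul_left_comm, mul_comm]))
    (fun x => ext' (by simp only [mul_fst, one_fst, zero_add]) (by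
      simp only [mul_snd, one_fst, one_snd, bt_zero_left, one_mul, mul_one]))
    (fun x => ext' (by simp only [mul_fst, inv_fst, one_fst, neg_add_cancel]) (by
      rw [mul_snd, inv_fst, inv_snd, one_snd]
      refine mul_inv_aux _ _ _ ?_
      rw [← bt_add_left, neg_add_cancel, bt_zero_left]))

noncomputable instance : TopologicalSpace Gr := inferInstanceAs (TopologicalSpace (V × N))

instance : T2Space Gr := inferInstanceAs (T2Space (V × N))

instance : LocallyCompactSpace Gr := inferInstanceAs (LocallyCompactSpace (V × N))

theorem continuous_fst' : Continuous (fun x : Gr => x.1) := continuous_fst (X := V) (Y := N)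

theorem continuous_snd' : Continuous (fun x : Gr => x.2) := continuous_snd (X := V) (Y := N)

theorem continuous_mk {X : Type} [TopologicalSpace X] {f : X → V} {g : X → N}
    (hf : Continuous f) (hg : Continuous g) : Continuous (fun x => ((f x, g x) : Gr)) :=
  Continuous.prodMk hf hg

theorem continuous_bt : Continuous (fun p : V × V => bt p.1 p.2) := continuous_of_discreteTopology

instance : IsTopologicalGroup Gr where
  continuous_mul := by
    refine continuous_mk (f := fun p : Gr × Gr => p.1.1 + p.2.1)
      (g := fun p : Gr × Gr => p.1.2 * p.2.2 * bt p.1.1 p.2.1) ?_ ?_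
    · have h : Continuous (fun p : V × V => p.1 + p.2) := continuous_of_discreteTopology
      exact h.comp ((continuous_fst'.comp continuous_fst).prodMk (continuous_fst'.comp continuous_snd))
    · exact ((continuous_snd'.comp continuous_fst).mul (continuous_snd'.comp continuous_snd)).mul
        (continuous_bt.comp ((continuous_fst'.comp continuous_fst).prodMk
          (continuous_fst'.comp continuous_snd)))
  continuous_inv := by
    refine continuous_mk (f := fun p : Gr => -p.1) (g := fun p : Gr => p.2⁻¹ * bt p.1 p.1) ?_ ?_
    · have h : Continuous (fun p : V => -p) := continuous_of_discreteTopology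
      exact h.comp continuous_fst'
    · exact continuous_snd'.inv.mul (continuous_bt.comp (continuous_fst'.prodMk continuous_fst'))

/-- Elements of the subgroup `N` are central. -/
theorem conj_eq (g x : Gr) (hx : x.1 = 0) : g * x * g⁻¹ = x := by
  rw [mul_inv_eq_iff_eq_mul]
  refine ext' ?_ ?_
  · rw [mul_fst, mul_fst, add_comm]
  · rw [mul_snd, mul_snd, hx, bt_zero_left, bt_zero_right, mul_comm g.2]

/-- The preimage of a finite subset of `V` is compact. -/
theorem compact_pre {S : Set V} (hS : S.Finite) : IsCompact {x : Gr | x.1 ∈ S} := by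
  have h1 : IsCompact (S ×ˢ (Set.univ : Set N)) := hS.isCompact.prod isCompact_univ
  have h2 : {x : Gr | x.1 ∈ S} = S ×ˢ (Set.univ : Set N) := by
    ext x
    exact ⟨fun h => ⟨h, trivial⟩, fun h => h.1⟩
  rw [h2]
  exact h1

/-- Commuting elements have linearly dependent images in `V`. -/
theorem dep {x h : Gr} (hx : x * h = h * x) {j : ℕ} (hj : h.1 j = 1) : x.1 = x.1 j • h.1 := by
  have h2 : (x * h).2 = (h * x).2 := by rw [hx]
  rw [mul_snd, mul_snd, mul_comm h.2] at h2
  have h3 : bt x.1 h.1 = bt h.1 x.1 := mul_left_cancel h2
  ext i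
  have h4 := sg_inj (congrFun h3 (i, j))
  simp only [hj, mul_one] at h4
  rw [Finsupp.smul_apply, smul_eq_mul, h4, mul_comm]

end Gr

/-- The negation of the preceding statement: A Hausdorff locally compact group with small invariant neighbourhoods, whose abelian subgroups have compact closure and whose relatively compact subsets generate relatively compact subgroups, is totally disconnected or compact. -/
theorem result :
    ¬ (∀ (G : Type) [Group G] [TopologicalSpace G] [IsTopologicalGroup G]
      [LocallyCompactSpace G] [T2Space G],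
      (∀ U ∈ nhds (1 : G), ∃ V ∈ nhds (1 : G), V ⊆ U ∧
          ∀ g x : G, x ∈ V → g * x * g⁻¹ ∈ V) →
      (∀ H : Subgroup G, (∀ a ∈ H, ∀ b ∈ H, a * b = b * a) →
          IsCompact (closure (H : Set G))) →
      (∀ K : Set G, IsCompact (closure K) →
          IsCompact (closure ((Subgroup.closure K : Subgroup G) : Set G))) →
      TotallyDisconnectedSpace G ∨ CompactSpace G) := by
  intro hall
  have key := hall Gr ?_ ?_ ?_
  · rcases key with h | h
    · -- not totally disconnected
      have hc : Continuous (fun t : ℝ => ((0, fun _ => Circle.exp t) : Gr)) := by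
        refine Gr.continuous_mk continuous_const ?_
        exact continuous_pi fun _ => Circle.exp.continuous
      have h1 : (Set.range (fun t : ℝ => ((0, fun _ => Circle.exp t) : Gr))).Subsingleton :=
        h.isTotallyDisconnected_univ _ (Set.subset_univ _) (isPreconnected_range hc)
      have h2 := h1 ⟨0, rfl⟩ ⟨Real.pi, rfl⟩
      have h3 : (fun _ : ℕ × ℕ => Circle.exp 0) = (fun _ => Circle.exp Real.pi) :=
        congrArg Prod.snd h2
      have h4 := congrFun h3 (0, 0)
      rw [Circle.exp_zero] at h4
      exact exp_pi_ne h4.symm
    · -- not compact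
      have h1 : IsCompact ((fun x : Gr => x.1) '' Set.univ) :=
        isCompact_univ.image Gr.continuous_fst'
      have h2 : ((fun x : Gr => x.1) '' Set.univ) = (Set.univ : Set V) := by
        ext v
        exact ⟨fun _ => trivial, fun _ => ⟨((v, (1 : N)) : Gr), trivial, rfl⟩⟩
      rw [h2] at h1
      have h3 : (Set.univ : Set V).Finite := h1.finite_of_discrete
      exact Set.infinite_univ h3
  · -- small invariant neighbourhoods
    intro U hU
    have ho : IsOpen {x : Gr | x.1 = 0} := (isOpen_discrete ({0} : Set V)).preimage Gr.continuous_fst'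
    refine ⟨U ∩ {x : Gr | x.1 = 0}, Filter.inter_mem hU (ho.mem_nhds rfl), Set.inter_subset_left,
      fun g x hx => ?_⟩
    rw [Gr.conj_eq g x hx.2]
    exact hx
  · -- abelian subgroups
    intro H hH
    by_cases h0 : ∀ x ∈ H, x.1 = 0
    · refine (Gr.compact_pre (Set.finite_singleton (0 : V))).closure_of_subset fun x hx => ?_
      exact h0 x hx
    · push Not at h0
      obtain ⟨h, hh, hne⟩ := h0
      obtain ⟨j, hj⟩ : ∃ j, h.1 j ≠ 0 := by
        by_contra hcon
        push Not at hcon
        exact hne (Finsupp.ext hcon)
      have hj1 : h.1 j = 1 := (zmod_two _).resolve_left hj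
      refine (Gr.compact_pre (Set.toFinite ({0, h.1} : Set V))).closure_of_subset fun x hx => ?_
      have h1 := Gr.dep (hH x hx h hh) hj1
      rcases zmod_two (x.1 j) with h2 | h2
      · rw [h2, zero_smul] at h1
        exact Or.inl h1
      · rw [h2, one_smul] at h1
        exact Or.inr h1
  · -- topologically locally finite
    intro K hK
    have h1 : ((fun x : Gr => x.1) '' closure K).Finite :=
      (hK.image Gr.continuous_fst').finite_of_discrete
    set S : Set V := (fun x : Gr => x.1) '' closure K with hS
    have h2 : Finite (Submodule.span (ZMod 2) S) := by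
      have : Module.Finite (ZMod 2) (Submodule.span (ZMod 2) S) := Module.Finite.span_of_finite _ h1
      exact Module.finite_of_finite (ZMod 2)
    have h3 : (Submodule.span (ZMod 2) S : Set V).Finite := Set.toFinite _
    refine (Gr.compact_pre h3).closure_of_subset ?_
    let L : Subgroup Gr :=
      { carrier := {x : Gr | x.1 ∈ Submodule.span (ZMod 2) S}
        mul_mem' := fun {x y} hx hy => (Submodule.span (ZMod 2) S).add_mem hx hy
        one_mem' := (Submodule.span (ZMod 2) S).zero_mem
        inv_mem' := fun {x} hx => (Submodule.span (ZMod 2) S).neg_mem hx }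
    have h4 : Subgroup.closure K ≤ L := by
      rw [Subgroup.closure_le]
      intro x hx
      exact Submodule.subset_span ⟨x, subset_closure hx, rfl⟩
    exact h4

end Pool.Agent.S01554
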