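import Pool.Statements.S01577
import Pool.Agent.helper213_IG.Comp

set_option autoImplicit false
open Pool Pool.MP_5b5e81_al

namespace Pool.Agent.S01577

open Pool.Agent.H213 in
/-- transfer of the defining relations from the free idempotent generated semigroup over the partition
monoid `PM n` to any enumeration of its idempotents -/
theorem transfer_aux (n : ℕ) (mul : (Bool × Fin n → Bool × Fin n → Prop) →
      (Bool × Fin n → Bool × Fin n → Prop) → (Bool × Fin n → Bool × Fin n → Prop))
    (hmul : ∀ α β, mul α β = PM.mulr α β)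
    (k : ℕ) (g : Fin k → (Bool × Fin n → Bool × Fin n → Prop)) (hg : Function.Injective g)
    (hE : ∀ α, (Equivalence α ∧ mul α α = α) ↔ ∃ i, g i = α) :
    ∃ φ : Fin k → Idem (PM n), ∀ s t : List (Fin k),
      (Relation.EqvGen (fun s t : List (Fin k) => ∃ (u v : List (Fin k)) (a b c : Fin k),
        (mul (g a) (g b) = g a ∨ mul (g a) (g b) = g b ∨ mul (g b) (g a) = g a ∨ mul (g b) (g a) = g b) ∧
        mul (g a) (g b) = g c ∧ s = u ++ [a, b] ++ v ∧ t = u ++ [c] ++ v) s t ↔
      mkw (s.map φ) = mkw (t.map φ)) := by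
  classical
  have hgi : ∀ i, Equivalence (g i) ∧ mul (g i) (g i) = g i := fun i => (hE (g i)).2 ⟨i, rfl⟩
  set φ : Fin k → Idem (PM n) := fun i => ⟨⟨g i, (hgi i).1⟩, PM.ext (by
    rw [PM.mul_r]
    exact (hmul _ _).symm.trans (hgi i).2)⟩ with hφ
  have hr : ∀ i, ((φ i : Idem (PM n)) : PM n).r = g i := fun i => rfl
  have hmr : ∀ a b, (((φ a : Idem (PM n)) : PM n) * ((φ b : Idem (PM n)) : PM n)).r = mul (g a) (g b) := by
    intro a b
    rw [PM.mul_r, hmul]
  have heq : ∀ a b c, ((φ a : Idem (PM n)) : PM n) * ((φ b : Idem (PM n)) : PM n) = φ c ↔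
      mul (g a) (g b) = g c := by
    intro a b c
    constructor
    · intro h
      have := congrArg PM.r h
      rwa [hmr] at this
    · intro h
      apply PM.ext
      rw [hmr]; exact h
  have hinj : Function.Injective φ := by
    intro a b h
    apply hg
    have := congrArg (fun e : Idem (PM n) => (e : PM n).r) h
    exact this
  have hsurj : Function.Surjective φ := by
    intro e
    have h1 : Equivalence (e : PM n).r ∧ mul (e : PM n).r (e : PM n).r = (e : PM n).r := by
      refine ⟨(e : PM n).eqv, ?_⟩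
      rw [hmul, ← PM.mul_r]
      exact congrArg PM.r e.2
    obtain ⟨i, hi⟩ := (hE _).1 h1
    exact ⟨i, Subtype.ext (PM.ext hi)⟩
  set ψ : Idem (PM n) → Fin k := Function.surjInv hsurj with hψ
  have hφψ : ∀ e, φ (ψ e) = e := Function.surjInv_eq hsurj
  have hψφ : ∀ i, ψ (φ i) = i := fun i => hinj (hφψ _)
  refine ⟨φ, fun s t => ?_⟩
  rw [mkw_eq_iff]
  constructor
  · intro h
    induction h with
    | rel s t h =>
      obtain ⟨u, v, a, b, c, hb, hc, rfl, rfl⟩ := h
      apply Relation.EqvGen.rel
      refine ⟨u.map φ, v.map φ, φ a, φ b, φ c, ?_, (heq a b c).2 hc, by simp, by simp⟩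
      unfold Basic
      rw [heq, heq, heq, heq]
      exact hb
    | refl x => exact Relation.EqvGen.refl _
    | symm x y _ ih => exact Relation.EqvGen.symm _ _ ih
    | trans x y z _ _ ih1 ih2 => exact Relation.EqvGen.trans _ _ _ ih1 ih2
  · intro h
    have key : ∀ u v : List (Idem (PM n)), Relation.EqvGen StepW u v →
        (Relation.EqvGen (fun s t : List (Fin k) => ∃ (u v : List (Fin k)) (a b c : Fin k),
        (mul (g a) (g b) = g a ∨ mul (g a) (g b) = g b ∨ mul (g b) (g a) = g a ∨ mul (g b) (g a) = g b) ∧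
        mul (g a) (g b) = g c ∧ s = u ++ [a, b] ++ v ∧ t = u ++ [c] ++ v) (u.map ψ) (v.map ψ)) := by
      intro u v h
      induction h with
      | rel s t h =>
        obtain ⟨u, v, a, b, c, hb, hc, rfl, rfl⟩ := h
        apply Relation.EqvGen.rel
        refine ⟨u.map ψ, v.map ψ, ψ a, ψ b, ψ c, ?_, ?_, by simp, by simp⟩
        · rw [← heq, ← heq, ← heq, ← heq, hφψ, hφψ]
          exact hb
        · rw [← heq, hφψ, hφψ, hφψ]
          exact hc
      | refl x => exact Relation.EqvGen.refl _
      | symm x y _ ih => exact Relation.EqvGen.symm _ _ ih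
      | trans x y z _ _ ih1 ih2 => exact Relation.EqvGen.trans _ _ _ ih1 ih2
    have h2 := key _ _ h
    have h3 : ψ ∘ φ = id := funext hψφ
    rw [List.map_map, List.map_map, h3, List.map_id, List.map_id] at h2
    exact h2

/-- For every n, with partitions of 2n points composed by gluing, the congruence on words over the idempotent partitions generated by e·f=ef for all basic pairs (ef or fe in {e,f}) is decidable, i.e. the word problem of IG(E(P_n)) is solvable. -/
theorem result :
  ∀ (n : ℕ) (mul : (Bool × Fin n → Bool × Fin n → Prop) → (Bool × Fin n → Bool × Fin n → Prop) → (Bool × Fin n → Bool × Fin n → Prop)),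
    (∀ α β x y, mul α β x y ↔ Relation.EqvGen (fun p q : Fin 3 × Fin n =>
        (∃ u v : Bool × Fin n, α u v ∧ p = ((if u.1 = true then 1 else 0 : Fin 3), u.2) ∧ q = ((if v.1 = true then 1 else 0 : Fin 3), v.2)) ∨
        (∃ u v : Bool × Fin n, β u v ∧ p = ((if u.1 = true then 2 else 1 : Fin 3), u.2) ∧ q = ((if v.1 = true then 2 else 1 : Fin 3), v.2)))
      ((if x.1 = true then 2 else 0 : Fin 3), x.2) ((if y.1 = true then 2 else 0 : Fin 3), y.2)) →
    ∀ (k : ℕ) (g : Fin k → (Bool × Fin n → Bool × Fin n → Prop)), Function.Injective g →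
    (∀ α, (Equivalence α ∧ mul α α = α) ↔ ∃ i, g i = α) →
    ComputablePred (fun w : List (Fin k) × List (Fin k) =>
      Relation.EqvGen (fun s t : List (Fin k) => ∃ (u v : List (Fin k)) (a b c : Fin k),
        (mul (g a) (g b) = g a ∨ mul (g a) (g b) = g b ∨ mul (g b) (g a) = g a ∨ mul (g b) (g a) = g b) ∧
        mul (g a) (g b) = g c ∧ s = u ++ [a, b] ++ v ∧ t = u ++ [c] ++ v) w.1 w.2) := by
  intro n mul hspec k g hg hE
  have hmul : ∀ α β, mul α β = Pool.Agent.H213.PM.mulr α β := by
    intro α β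
    funext x y
    exact propext (hspec α β x y)
  obtain ⟨φ, hφ⟩ := transfer_aux n mul hmul k g hg hE
  have h1 : PrimrecPred (fun w : List (Fin k) × List (Fin k) =>
      Pool.Agent.H213.mkw (w.1.map φ) = Pool.Agent.H213.mkw (w.2.map φ)) := by
    have a1 : Primrec (fun w : List (Fin k) × List (Fin k) => w.1.map φ) :=
      Primrec.list_map Primrec.fst ((Primrec.dom_finite φ).comp Primrec.snd)
    have a2 : Primrec (fun w : List (Fin k) × List (Fin k) => w.2.map φ) :=
      Primrec.list_map Primrec.snd ((Primrec.dom_finite φ).comp Primrec.snd)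
    exact Pool.Agent.H213.pr_main.comp a1 a2
  have h2 := h1.of_eq (fun w => (hφ w.1 w.2).symm)
  obtain ⟨inst, h3⟩ := h2
  exact ⟨inst, h3.to_comp⟩

end Pool.Agent.S01577
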