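import Pool.Statements.S01758
import Pool.Agent.helper987_SE.All
import Pool.Agent.helper987_SE.A1
import Pool.Agent.helper987_SE.A2
import Pool.Agent.helper987_SE.A3
import Pool.Agent.helper987_SE.A4
import Pool.Agent.helper987_SE.B1
import Pool.Agent.helper987_SE.B2
import Pool.Agent.helper987_SE.B3
import Pool.Agent.helper987_SE.B4
import Pool.Agent.helper987_SE.B5
import Pool.Agent.helper987_SE.B6
import Pool.Agent.helper987_SE.B7
import Pool.Agent.helper987_SE.B8
import Pool.Agent.helper987_SE.B9
import Pool.Agent.helper987_SE.B10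
import Pool.Agent.helper987_SE.C1
import Pool.Agent.helper987_SE.C2
import Pool.Agent.helper987_SE.C3
import Pool.Agent.helper987_SE.C4
import Pool.Agent.helper987_SE.C5
import Pool.Agent.helper987_SE.C6
import Pool.Agent.helper987_SE.C7
import Pool.Agent.helper987_SE.D1
import Pool.Agent.helper987_SE.D3
import Pool.Agent.helper987_SE.D4
import Pool.Agent.helper987_SE.E2
import Pool.Agent.helper987_SE.F1
import Pool.Agent.helper987_SE.F2
import Pool.Agent.helper987_SE.F3

set_option autoImplicit false
open Pool Pool.MP_67b2ac_al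

namespace Pool.Agent.S01758

/-- The negation of the preceding statement: For every group G with a normal (hence central) subgroup of order 2, if the quotient is sofic (finite permutation approximations in normalized Hamming distance), then G itself is sofic. -/
theorem result :
    ¬ (∀ (G : Type) [Group G] (N : Subgroup G) [N.Normal], Nat.card N = 2 →
    (∀ (F : Finset (G ⧸ N)) (ε : ℝ), 0 < ε →
      ∃ n : ℕ, ∃ φ : G ⧸ N → Equiv.Perm (Fin n),
        (∀ g ∈ F, ∀ h ∈ F,
          (((Finset.univ.filter (fun i => φ (g * h) i ≠ (φ g * φ h) i)).card : ℝ) < ε * n)) ∧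
        (∀ g ∈ F, g ≠ 1 →
          (1 - ε) * n ≤ ((Finset.univ.filter (fun i => φ g i ≠ i)).card : ℝ))) →
    (∀ (F : Finset G) (ε : ℝ), 0 < ε →
      ∃ n : ℕ, ∃ φ : G → Equiv.Perm (Fin n),
        (∀ g ∈ F, ∀ h ∈ F,
          (((Finset.univ.filter (fun i => φ (g * h) i ≠ (φ g * φ h) i)).card : ℝ) < ε * n)) ∧
        (∀ g ∈ F, g ≠ 1 →
          (1 - ε) * n ≤ ((Finset.univ.filter (fun i => φ g i ≠ i)).card : ℝ)))) := by
  exact helper987_SE.assembly helper987_SE.A1.main helper987_SE.A2.main helper987_SE.A3.main
    helper987_SE.A4.main helper987_SE.B1.main helper987_SE.B2.main helper987_SE.B3.main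
    helper987_SE.B4.main helper987_SE.B5.main helper987_SE.B6.main helper987_SE.B7.main
    helper987_SE.B8.main helper987_SE.B9.main helper987_SE.B10.main helper987_SE.C1.main
    helper987_SE.C2.main helper987_SE.C3.main helper987_SE.C4.main helper987_SE.C5.main
    helper987_SE.C6.main helper987_SE.C7.main helper987_SE.D1.main helper987_SE.D3.main
    helper987_SE.D4.main helper987_SE.E2.main helper987_SE.F1.main helper987_SE.F2.main
    helper987_SE.F3.main

end Pool.Agent.S01758
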