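import Pool.Statements.S01851
import Pool.Agent.Helper252_Enum.M_main_upper
import Pool.Agent.Helper252_Enum.W1_law_transfer
import Pool.Agent.Helper252_Enum.W3_lower_final

set_option autoImplicit false
open Pool Pool.MP_6f76df_al

namespace Pool.Agent.S01851

/-- Arithmetic: the exponent of the upper bound is at most that of the lower bound plus
`10 m^2`. -/
theorem arith (m : ℕ) :
    2 * m ^ 3 / 27 ≤ (m / 3) * ((m - m / 3) * (m - m / 3 - 1) / 2) + 10 * m ^ 2 := by
  obtain ⟨k, j, hj, rfl⟩ : ∃ k j, j < 3 ∧ m = 3 * k + j :=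
    ⟨m / 3, m % 3, Nat.mod_lt _ (by norm_num), (Nat.div_add_mod m 3).symm⟩
  have hk : (3 * k + j) / 3 = k := by omega
  rw [hk]
  have hd : 3 * k + j - k = 2 * k + j := by omega
  rw [hd]
  rcases Nat.eq_zero_or_pos k with h0 | hk0
  · subst h0
    interval_cases j <;> norm_num
  have h1 : (2 * k + j) * (2 * k + j - 1) ≥ 2 * k * (2 * k - 1) :=
    Nat.mul_le_mul (by omega) (by omega)
  have h2 : 2 * k * (2 * k - 1) / 2 = k * (2 * k - 1) := by
    rw [mul_assoc, Nat.mul_div_cancel_left _ (by norm_num)]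
  have h3 : k * (2 * k - 1) ≤ (2 * k + j) * (2 * k + j - 1) / 2 := by
    rw [← h2]; exact Nat.div_le_div_right h1
  have h4 : k * (k * (2 * k - 1)) ≤ k * ((2 * k + j) * (2 * k + j - 1) / 2) :=
    Nat.mul_le_mul_left _ h3
  have h5 : 2 * (3 * k + j) ^ 3 / 27 ≤ k * (k * (2 * k - 1)) + 10 * (3 * k + j) ^ 2 := by
    obtain ⟨t, rfl⟩ : ∃ t, k = t + 1 := ⟨k - 1, by omega⟩
    have h6 : 2 * (t + 1) - 1 = 2 * t + 1 := by omega
    rw [h6]
    apply Nat.div_le_of_le_mul
    interval_cases j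
    · nlinarith [Nat.zero_le (t ^ 3), Nat.zero_le (t ^ 2), Nat.zero_le t]
    · nlinarith [Nat.zero_le (t ^ 3), Nat.zero_le (t ^ 2), Nat.zero_le t]
    · nlinarith [Nat.zero_le (t ^ 3), Nat.zero_le (t ^ 2), Nat.zero_le t]
  omega

/-- For any locally finite variety of p-groups V (given by laws) and non-abelian subvariety U, there is C with #iso classes of order-p^m groups in V at most p^(C m^2) times that number for U, for all m ≥ 1. -/
theorem result :
    ∀ (p : ℕ), p.Prime → ∀ (L L' : Set (FreeGroup ℕ)),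
      (∀ (G : Type) [Group G], (∀ w ∈ L, ∀ x : ℕ → G, FreeGroup.lift x w = 1) →
          IsPGroup p G ∧ (Group.FG G → Finite G)) →
      (∀ (G : Type) [Group G], (∀ w ∈ L', ∀ x : ℕ → G, FreeGroup.lift x w = 1) →
          (∀ w ∈ L, ∀ x : ℕ → G, FreeGroup.lift x w = 1)) →
      (∃ (G : Type) (_ : Group G), (∀ w ∈ L', ∀ x : ℕ → G, FreeGroup.lift x w = 1) ∧
          ∃ a b : G, a * b ≠ b * a) →
      ∃ C : ℕ, ∀ m : ℕ, 1 ≤ m →
        Nat.card (Quot (fun H K : {H : Subgroup (Equiv.Perm (Fin (p ^ m))) //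
              Nat.card H = p ^ m ∧ ∀ w ∈ L, ∀ x : ℕ → H, FreeGroup.lift x w = 1} =>
              Nonempty (H.1 ≃* K.1)))
          ≤ p ^ (C * m ^ 2) *
            Nat.card (Quot (fun H K : {H : Subgroup (Equiv.Perm (Fin (p ^ m))) //
              Nat.card H = p ^ m ∧ ∀ w ∈ L', ∀ x : ℕ → H, FreeGroup.lift x w = 1} =>
              Nonempty (H.1 ≃* K.1))) := by
  intro p hp L L' hL hLL' hna
  haveI : Fact p.Prime := ⟨hp⟩
  obtain ⟨C, hC⟩ := Pool.Agent.Helper252_Enum.main_upper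
  -- a finite nonabelian `p`-group satisfying the laws `L'`
  obtain ⟨G, _, hGL', a, b, hab⟩ := hna
  let P : Subgroup G := Subgroup.closure {a, b}
  have ha : a ∈ P := Subgroup.subset_closure (by simp)
  have hb : b ∈ P := Subgroup.subset_closure (by simp)
  have hPL' : ∀ w ∈ L', ∀ x : ℕ → P, FreeGroup.lift x w = 1 := by
    intro w hw x
    have h1 := hGL' w hw (fun i => (x i : G))
    have h2 : (FreeGroup.lift (fun i => (x i : G))) w = P.subtype (FreeGroup.lift x w) := by
      rw [← MonoidHom.comp_apply]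
      congr 1
      ext i
      simp
    rw [h2] at h1
    exact (Subgroup.subtype_injective P) (by rw [h1, map_one])
  obtain ⟨hPp, hPfin⟩ := hL P (hLL' P hPL')
  haveI : Finite P := by
    apply hPfin
    rw [Group.fg_iff_subgroup_fg]
    classical
    exact ⟨{a, b}, by simp [P]⟩
  have hGood : ∀ (H : Type) [Group H], Pool.Agent.Helper252_Enum.Good p H → ∀ w ∈ L',
      ∀ x : ℕ → H, FreeGroup.lift x w = 1 := by
    intro H _ hH w hw
    refine Pool.Agent.Helper252_Enum.law_transfer (p := p) P hPp ⟨⟨a, ha⟩, ⟨b, hb⟩, ?_⟩ w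
      (hPL' w hw) H hH
    intro h
    exact hab (congrArg Subtype.val h)
  refine ⟨C + 11, fun m hm => ?_⟩
  have h1 := hC p hp m hm {H : Subgroup (Equiv.Perm (Fin (p ^ m))) //
              Nat.card H = p ^ m ∧ ∀ w ∈ L, ∀ x : ℕ → H, FreeGroup.lift x w = 1}
              (fun H => H.1) (fun H => H.2.1)
  have h2 := Pool.Agent.Helper252_Enum.lower_final p L' hGood m
  refine h1.trans ?_
  have h3 : p ^ (2 * m ^ 3 / 27 + C * m ^ 2) ≤
      p ^ ((C + 10) * m ^ 2) * p ^ ((m / 3) * ((m - m / 3) * (m - m / 3 - 1) / 2)) := by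
    rw [← pow_add]
    apply Nat.pow_le_pow_right hp.pos
    have := arith m
    nlinarith
  refine h3.trans ?_
  have h4 : p ^ ((C + 11) * m ^ 2) = p ^ ((C + 10) * m ^ 2) * p ^ (m ^ 2) := by
    rw [← pow_add]; congr 1; ring
  rw [h4, mul_assoc]
  exact Nat.mul_le_mul_left _ h2

end Pool.Agent.S01851
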