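import Pool.Statements.S02012
import Pool.Agent.Helper149_branch.Klein

set_option autoImplicit false
open Pool Pool.MP_79f901_al

namespace Pool.Agent.S02012

open Pool.Agent.Helper149_branch

/-- the vertices of the binary tree, as in the frozen statement -/
abbrev V := {l : List ℕ // ∀ i (h : i < l.length), l.get ⟨i, h⟩ < (fun _ : ℕ => 2) i}

theorem mem_lt (v : V) : ∀ n ∈ v.1, n < 2 := by
  intro n hn
  obtain ⟨i, hi, rfl⟩ := List.mem_iff_getElem.1 hn
  exact v.2 i hi

/-- words over `Bool` as vertices -/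
def enc : X ≃ V where
  toFun l := ⟨l.map Bool.toNat, by
    intro i h
    simp only [List.get_eq_getElem, List.getElem_map]
    exact Bool.toNat_lt _⟩
  invFun v := v.1.map (fun n => decide (n = 1))
  left_inv l := by
    simp only [List.map_map]
    conv_rhs => rw [← List.map_id l]
    apply List.map_congr_left
    intro b _
    cases b <;> rfl
  right_inv v := by
    apply Subtype.ext
    simp only [List.map_map]
    conv_rhs => rw [← List.map_id v.1]
    apply List.map_congr_left
    intro n hn
    have := mem_lt v n hn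
    interval_cases n <;> rfl

theorem enc_prefix (v w : X) : (enc v).1 <+: (enc w).1 ↔ v <+: w := by
  show v.map Bool.toNat <+: w.map Bool.toNat ↔ _
  apply List.prefix_map_iff_of_injective
  intro a b h
  cases a <;> cases b <;> simp_all

theorem enc_length (v : X) : (enc v).1.length = v.length := by
  show (v.map Bool.toNat).length = _
  simp

/-- transport of permutations -/
def T : Equiv.Perm X ≃* Equiv.Perm V := enc.permCongrHom

theorem T_apply (g : Equiv.Perm X) (v : X) : T g (enc v) = enc (g v) := by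
  show enc (g (enc.symm (enc v))) = _
  rw [Equiv.symm_apply_apply]

/-- The negation of the preceding statement: For every branch group L acting on a spherically homogeneous rooted tree, every automorphism of L is conjugation by a unique tree automorphism, so Aut L equals the normalizer of L in Aut T. -/
theorem result :
    ¬ (∀ (m : ℕ → ℕ), (∀ n, 2 ≤ m n) →
    ∀ L : Subgroup (Equiv.Perm {l : List ℕ // ∀ i (h : i < l.length), l.get ⟨i, h⟩ < m i}),
    (∀ g ∈ L, ∀ v w : {l : List ℕ // ∀ i (h : i < l.length), l.get ⟨i, h⟩ < m i},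
        (List.IsPrefix v.1 w.1 ↔ List.IsPrefix (g v).1 (g w).1)) →
    (∀ v w : {l : List ℕ // ∀ i (h : i < l.length), l.get ⟨i, h⟩ < m i},
        v.1.length = w.1.length → ∃ g ∈ L, g v = w) →
    (∀ n : ℕ, ((Subgroup.closure
        {g : Equiv.Perm {l : List ℕ // ∀ i (h : i < l.length), l.get ⟨i, h⟩ < m i} |
          g ∈ L ∧ ∃ u : {l : List ℕ // ∀ i (h : i < l.length), l.get ⟨i, h⟩ < m i},
            u.1.length = n ∧
            ∀ v : {l : List ℕ // ∀ i (h : i < l.length), l.get ⟨i, h⟩ < m i},
              ¬ List.IsPrefix u.1 v.1 → g v = v}).subgroupOf L).index ≠ 0) →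
    ∀ φ : L ≃* L,
      ∃! σ : Equiv.Perm {l : List ℕ // ∀ i (h : i < l.length), l.get ⟨i, h⟩ < m i},
        (∀ v w : {l : List ℕ // ∀ i (h : i < l.length), l.get ⟨i, h⟩ < m i},
          (List.IsPrefix v.1 w.1 ↔ List.IsPrefix (σ v).1 (σ w).1)) ∧
        ∀ g : L, ((φ g : L) : Equiv.Perm {l : List ℕ // ∀ i (h : i < l.length), l.get ⟨i, h⟩ < m i})
          = σ * (g : Equiv.Perm {l : List ℕ // ∀ i (h : i < l.length), l.get ⟨i, h⟩ < m i}) * σ⁻¹) := by
  intro H
  have H2 := H (fun _ => 2) (fun _ => le_refl 2) (LG.map T.toMonoidHom)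
  have hinj : Function.Injective T.toMonoidHom := T.injective
  have c1 : ∀ g ∈ LG.map T.toMonoidHom, ∀ v w : V,
      (List.IsPrefix v.1 w.1 ↔ List.IsPrefix (g v).1 (g w).1) := by
    rintro g ⟨k, hk, rfl⟩ v w
    obtain ⟨v, rfl⟩ := enc.surjective v
    obtain ⟨w, rfl⟩ := enc.surjective w
    show _ ↔ (T k (enc v)).1 <+: (T k (enc w)).1
    rw [T_apply, T_apply, enc_prefix, enc_prefix]
    exact hk.1.1 v w
  have c2 : ∀ v w : V, v.1.length = w.1.length → ∃ g ∈ LG.map T.toMonoidHom, g v = w := by
    intro v w h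
    obtain ⟨v, rfl⟩ := enc.surjective v
    obtain ⟨w, rfl⟩ := enc.surjective w
    rw [enc_length, enc_length] at h
    obtain ⟨k, hk, hkv⟩ := LG_trans v w h
    exact ⟨T k, ⟨k, hk, rfl⟩, by rw [T_apply, hkv]⟩
  have c3 : ∀ n : ℕ, ((Subgroup.closure
        {g : Equiv.Perm V |
          g ∈ LG.map T.toMonoidHom ∧ ∃ u : V,
            u.1.length = n ∧
            ∀ v : V, ¬ List.IsPrefix u.1 v.1 → g v = v}).subgroupOf
              (LG.map T.toMonoidHom)).index ≠ 0 := by
    intro n
    have hset : {g : Equiv.Perm V |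
          g ∈ LG.map T.toMonoidHom ∧ ∃ u : V,
            u.1.length = n ∧
            ∀ v : V, ¬ List.IsPrefix u.1 v.1 → g v = v} = T.toMonoidHom '' (RG n) := by
      ext g
      constructor
      · rintro ⟨⟨k, hk, rfl⟩, u, hu, h⟩
        obtain ⟨u, rfl⟩ := enc.surjective u
        rw [enc_length] at hu
        refine ⟨k, ⟨hk, u, hu, ?_⟩, rfl⟩
        intro v hv
        have h2 := h (enc v) (by rw [enc_prefix]; exact hv)
        have h3 : T k (enc v) = enc v := h2
        rw [T_apply] at h3
        exact enc.injective h3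
      · rintro ⟨k, ⟨hk, u, hu, h⟩, rfl⟩
        refine ⟨⟨k, hk, rfl⟩, enc u, by rw [enc_length]; exact hu, ?_⟩
        intro v hv
        obtain ⟨v, rfl⟩ := enc.surjective v
        rw [enc_prefix] at hv
        show T k (enc v) = enc v
        rw [T_apply, h v hv]
    rw [hset, ← MonoidHom.map_closure]
    have := index_ne_zero n
    have h2 := Subgroup.relIndex_map_map_of_injective (Subgroup.closure (RG n)) LG hinj
    unfold Subgroup.relIndex at h2
    rw [h2]
    exact this
  have H3 := H2 c1 c2 c3
  let e : LG ≃* LG.map T.toMonoidHom := LG.equivMapOfInjective T.toMonoidHom hinj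
  obtain ⟨σ, ⟨hσ1, hσ2⟩, -⟩ := H3 ((e.symm.trans alE).trans e)
  obtain ⟨τ, rfl⟩ := T.surjective σ
  apply not_induced τ
  · intro v w
    have := hσ1 (enc v) (enc w)
    rw [T_apply, T_apply, enc_prefix, enc_prefix] at this
    exact this
  · intro g
    have h := hσ2 (e g)
    simp only [MulEquiv.trans_apply, MulEquiv.symm_apply_apply] at h
    have h1 : ((e (alE g) : LG.map T.toMonoidHom) : Equiv.Perm V) = T (alE g).1 := rfl
    have h2 : ((e g : LG.map T.toMonoidHom) : Equiv.Perm V) = T g.1 := rfl
    rw [h1, h2, ← map_mul, ← map_inv, ← map_mul] at h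
    exact T.injective h

end Pool.Agent.S02012
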