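import Pool.Statements.S02125
import Pool.Agent.Helper172_SO.Assemble
import Pool.Agent.Helper172_SO.SO3

set_option autoImplicit false
open MeasureTheory
open Pool Pool.MP_839d28_al

namespace Pool.Agent.S02125

/-- There are ε>0 and k>0 such that for every n≥3, SO(n) has a symmetric k-element topologically generating set S with the sum of its translation operators at most k−ε on mean-zero L² functions for Haar measure. -/
theorem result :
  ∃ ε : ℝ, 0 < ε ∧ ∃ k : ℕ, 0 < k ∧ ∀ n : ℕ, 3 ≤ n →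
    ∃ S : Finset (Matrix (Fin n) (Fin n) ℝ), S.card = k ∧
      (∀ s ∈ S, s.transpose * s = 1 ∧ s.det = 1) ∧
      (∀ s ∈ S, s.transpose ∈ S) ∧
      (∀ g : Matrix (Fin n) (Fin n) ℝ, g.transpose * g = 1 → g.det = 1 →
        g ∈ closure ((Submonoid.closure (S : Set (Matrix (Fin n) (Fin n) ℝ)) :
          Set (Matrix (Fin n) (Fin n) ℝ)))) ∧
      ∀ μ : Measure (Fin n → Fin n → ℝ), IsProbabilityMeasure μ →
        μ {x | ¬ ((Matrix.of x).transpose * Matrix.of x = 1 ∧ (Matrix.of x).det = 1)} = 0 →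
        (∀ g : Matrix (Fin n) (Fin n) ℝ, g.transpose * g = 1 → g.det = 1 →
          μ.map (fun x : Fin n → Fin n → ℝ => fun i j => ∑ l, g i l * x l j) = μ) →
        ∀ f : (Fin n → Fin n → ℝ) → ℝ, MemLp f 2 μ → ∫ x, f x ∂μ = 0 →
          ∑ s ∈ S, ∫ x, f (fun i j => ∑ l, s i l * x l j) * f x ∂μ
            ≤ ((k : ℝ) - ε) * ∫ x, f x ^ 2 ∂μ :=
  Pool.Agent.Helper172_SO.final (Pool.Agent.Helper172_SO.unifOf Pool.Agent.Helper172_SO.taskSO3)
    (Pool.Agent.Helper172_SO.taskL2b Pool.Agent.Helper172_SO.taskL2a) Pool.Agent.Helper172_SO.taskTop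

end Pool.Agent.S02125
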