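import Pool.Statements.S02286

set_option autoImplicit false
open Pool Pool.MP_91b10e_al

namespace Pool.Agent.S02286

open TopologicalSpace

/-- The group: countable power of `S₃`. -/
abbrev Gp : Type := ℕ → Equiv.Perm (Fin 3)

/-- evaluation of a word with constants -/
def ev (w : Monoid.Coprod Gp (Multiplicative ℤ)) (x : Gp) : Gp :=
  Monoid.Coprod.lift (MonoidHom.id Gp) (zpowersHom Gp x) w

/-- the Zariski topology -/
@[reducible] def zar : TopologicalSpace Gp :=
  TopologicalSpace.generateFrom
    {U : Set Gp | ∃ w : Monoid.Coprod Gp (Multiplicative ℤ),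
      U = {x : Gp | Monoid.Coprod.lift (MonoidHom.id Gp) (zpowersHom Gp x) w ≠ 1}}

/-- the compact product topology -/
@[reducible] def prodTop : TopologicalSpace Gp :=
  @Pi.topologicalSpace ℕ (fun _ => Equiv.Perm (Fin 3)) (fun _ => ⊥)

/-- every coordinate of `ev w x` depends only on the same coordinate of `x` -/
theorem ev_coord (w : Monoid.Coprod Gp (Multiplicative ℤ)) :
    ∀ i : ℕ, ∃ f : Equiv.Perm (Fin 3) → Equiv.Perm (Fin 3), ∀ x : Gp, ev w x i = f (x i) := by
  induction w using Monoid.Coprod.induction_on with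
  | inl g => intro i; exact ⟨fun _ => g i, fun x => by simp [ev]⟩
  | inr n => intro i; exact ⟨fun a => a ^ (Multiplicative.toAdd n), fun x => by simp [ev, zpowersHom_apply]⟩
  | mul a b ha hb =>
    intro i
    obtain ⟨f, hf⟩ := ha i
    obtain ⟨g, hg⟩ := hb i
    refine ⟨fun c => f c * g c, fun x => ?_⟩
    have : ev (a * b) x = ev a x * ev b x := by simp [ev]
    rw [this, Pi.mul_apply, hf, hg]

theorem ne_open (w : Monoid.Coprod Gp (Multiplicative ℤ)) :
    @IsOpen Gp prodTop {x : Gp | ev w x ≠ 1} := by
  letI tS : TopologicalSpace (Equiv.Perm (Fin 3)) := ⊥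
  haveI hd : DiscreteTopology (Equiv.Perm (Fin 3)) := ⟨rfl⟩
  have : {x : Gp | ev w x ≠ 1} = ⋃ i : ℕ, {x : Gp | ev w x i ≠ 1} := by
    ext x
    simp only [Set.mem_ofPred_eq, Set.mem_iUnion, ne_eq, funext_iff, Pi.one_apply, not_forall]
  rw [this]
  refine isOpen_iUnion fun i => ?_
  obtain ⟨f, hf⟩ := ev_coord w i
  have h2 : {x : Gp | ev w x i ≠ 1} = (fun x : Gp => x i) ⁻¹' {a | f a ≠ 1} := by
    ext x; simp [hf]
  rw [h2]
  exact (isOpen_discrete _).preimage (continuous_apply i)

theorem prod_le : prodTop ≤ zar := by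
  refine le_generateFrom ?_
  rintro U ⟨w, rfl⟩
  exact ne_open w

theorem zar_compact : @IsCompact Gp zar Set.univ := by
  have h1 : @IsCompact Gp prodTop Set.univ := by
    letI tS : TopologicalSpace (Equiv.Perm (Fin 3)) := ⊥
    haveI : DiscreteTopology (Equiv.Perm (Fin 3)) := ⟨rfl⟩
    haveI : CompactSpace (Equiv.Perm (Fin 3)) := Finite.compactSpace
    have hc : CompactSpace (ℕ → Equiv.Perm (Fin 3)) := Function.compactSpace
    exact hc.isCompact_univ
  have h2 := @IsCompact.image Gp Gp prodTop zar Set.univ id h1 (continuous_id_iff_le.2 prod_le)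
  simpa using h2

/-- commuting with `g` is a closed condition -/
theorem comm_open (g : Gp) : @IsOpen Gp zar {x : Gp | g * x ≠ x * g} := by
  have : {x : Gp | g * x ≠ x * g} = {x : Gp | Monoid.Coprod.lift (MonoidHom.id Gp) (zpowersHom Gp x)
      (Monoid.Coprod.inl g * Monoid.Coprod.inr (Multiplicative.ofAdd 1) *
        Monoid.Coprod.inl g⁻¹ * Monoid.Coprod.inr (Multiplicative.ofAdd (-1))) ≠ 1} := by
    ext x
    simp only [Set.mem_ofPred_eq, map_mul, Monoid.Coprod.lift_apply_inl, Monoid.Coprod.lift_apply_inr,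
      MonoidHom.id_apply, zpowersHom_apply, toAdd_ofAdd, zpow_one, zpow_neg, ne_eq]
    rw [not_iff_not]
    constructor
    · intro h
      rw [h]; group
    · intro h
      have := mul_inv_eq_one.1 h
      rw [mul_inv_eq_iff_eq_mul] at this
      exact this
  rw [this]
  exact isOpen_generateFrom_of_mem ⟨_, rfl⟩

theorem coord_open (i : ℕ) : @IsOpen Gp zar {x : Gp | x i ≠ 1} := by
  have : {x : Gp | x i ≠ 1} = ⋃ s : Equiv.Perm (Fin 3),
      {x : Gp | Pi.mulSingle i s * x ≠ x * Pi.mulSingle i s} := by
    ext x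
    simp only [Set.mem_ofPred_eq, Set.mem_iUnion]
    constructor
    · intro h
      by_contra hc
      push Not at hc
      apply h
      have h3 : ∀ s : Equiv.Perm (Fin 3), s * x i = x i * s := by
        intro s
        have := congrFun (hc s) i
        simpa using this
      revert h3
      generalize x i = a
      revert a
      decide
    · rintro ⟨s, hs⟩ h
      apply hs
      funext j
      by_cases hj : j = i
      · subst hj; simp [h]
      · simp [Pi.mulSingle_eq_of_ne hj]
  rw [this]
  letI := zar
  exact isOpen_iUnion fun s => comm_open _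

theorem not_noeth : ¬ @NoetherianSpace Gp zar := by
  letI := zar
  intro h
  rw [noetherianSpace_iff_isCompact] at h
  have hc := h (⋃ i : ℕ, {x : Gp | x i ≠ 1})
  obtain ⟨t, ht⟩ := hc.elim_finite_subcover (fun i : ℕ => {x : Gp | x i ≠ 1})
    (fun i => coord_open i) (le_refl _)
  obtain ⟨n, hn⟩ := Infinite.exists_notMem_finset t
  have h1 : (Pi.mulSingle n (Equiv.swap (0 : Fin 3) 1) : Gp) ∈ ⋃ i : ℕ, {x : Gp | x i ≠ 1} := by
    refine Set.mem_iUnion.2 ⟨n, ?_⟩
    simp only [Set.mem_ofPred_eq, Pi.mulSingle_eq_same]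
    decide
  have h2 := ht h1
  simp only [Set.mem_iUnion, Set.mem_ofPred_eq, exists_prop] at h2
  obtain ⟨i, hi, h3⟩ := h2
  apply h3
  refine Pi.mulSingle_eq_of_ne ?_ _
  rintro rfl
  exact hn hi

/-- The negation of the preceding statement: For every group G, if the Zariski topology (closed subbasis: solution sets of one-variable equations with constants from G) is compact, then it is Noetherian. -/
theorem result :
    ¬ (∀ (G : Type) [Group G],
      @IsCompact G
        (TopologicalSpace.generateFrom
          {U : Set G | ∃ w : Monoid.Coprod G (Multiplicative ℤ),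
            U = {x : G | Monoid.Coprod.lift (MonoidHom.id G) (zpowersHom G x) w ≠ 1}})
        Set.univ →
      @TopologicalSpace.NoetherianSpace G
        (TopologicalSpace.generateFrom
          {U : Set G | ∃ w : Monoid.Coprod G (Multiplicative ℤ),
            U = {x : G | Monoid.Coprod.lift (MonoidHom.id G) (zpowersHom G x) w ≠ 1}})) := by
  intro h
  exact not_noeth (h Gp zar_compact)

end Pool.Agent.S02286
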