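import Pool.Statements.S02425
import Pool.Agent.H828_QP.Uniq

set_option autoImplicit false
open Pointwise
open Pool Pool.MP_98b561_al
open Pool.Agent.H828_QP

namespace Pool.Agent.S02425

/-- There is a group G with a generating set X whose Cayley graph is hyperbolic with a quasi-parabolic G-action, such that every other such generating set Y is equivalent to X (each has bounded word length with respect to the other). -/
theorem result :
  ∃ (G : Type) (_ : Group G),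
    ∀ (len : Set G → G → ℕ),
      (∀ (S : Set G) (g : G), len S g = sInf {n : ℕ | g ∈ (S ∪ S⁻¹) ^ n}) →
    ∀ (gp : Set G → G → G → ℝ),
      (∀ (S : Set G) (a b : G),
        gp S a b = ((len S a : ℝ) + (len S b : ℝ) - (len S (a⁻¹ * b) : ℝ)) / 2) →
    ∀ (lox : Set G → G → Prop),
      (∀ (S : Set G) (g : G),
        lox S g ↔ ∃ c : ℝ, 0 < c ∧ ∀ n : ℕ, c * (n : ℝ) ≤ (len S (g ^ n) : ℝ)) →
    ∀ (sameEnd : Set G → G → G → Prop),
      (∀ (S : Set G) (a b : G),
        sameEnd S a b ↔ ∀ K : ℝ, ∃ N : ℕ, ∀ n m : ℕ, N ≤ n → N ≤ m →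
          K ≤ gp S (a ^ n) (b ^ m)) →
    ∀ (QP : Set G → Prop),
      (∀ S : Set G, QP S ↔
        (Subgroup.closure S = ⊤ ∧
         (∃ δ : ℝ, ∀ x y z : G, min (gp S x y) (gp S y z) - δ ≤ gp S x z) ∧
         (∃ g h : G, lox S g ∧ lox S h ∧
            ¬ ((sameEnd S g h ∧ sameEnd S g⁻¹ h⁻¹) ∨
               (sameEnd S g h⁻¹ ∧ sameEnd S g⁻¹ h))) ∧
         (∀ g h : G, lox S g → lox S h →
            (sameEnd S g h ∨ sameEnd S g h⁻¹ ∨ sameEnd S g⁻¹ h ∨ sameEnd S g⁻¹ h⁻¹)))) →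
    ∃ X : Set G, QP X ∧
      ∀ Y : Set G, QP Y →
        (∃ C : ℕ, ∀ y ∈ Y, len X y ≤ C) ∧ (∃ C : ℕ, ∀ x ∈ X, len Y x ≤ C) := by
  refine ⟨G, inferInstance, ?_⟩
  intro len hlen gp hgp lox hlox sameEnd hsame QP hQP
  have hlen' : ∀ (S : Set G) (g : G), len S g = ln S g := fun S g => hlen S g
  have hgp' : ∀ (S : Set G) (a b : G), gp S a b = gY S a b := fun S a b => by
    rw [hgp, hlen', hlen', hlen']; rfl
  have hlox' : ∀ (S : Set G) (g : G),
      lox S g ↔ ∃ c : ℝ, 0 < c ∧ ∀ n : ℕ, c * (n : ℝ) ≤ (ln S (g ^ n) : ℝ) := fun S g => by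
    rw [hlox]; simp only [hlen']
  have hsame' : ∀ (S : Set G) (a b : G), sameEnd S a b ↔
      ∀ K : ℝ, ∃ N : ℕ, ∀ n m : ℕ, N ≤ n → N ≤ m → K ≤ gY S (a ^ n) (b ^ m) := fun S a b => by
    rw [hsame]; simp only [hgp']
  have hloxX : ∀ g : G, lox XX g ↔ loxX g := fun g => hlox' XX g
  have hendX : ∀ a b : G, sameEnd XX a b ↔ endX a b := fun a b => hsame' XX a b
  refine ⟨XX, ?_, ?_⟩
  · rw [hQP]
    refine ⟨closure_XX, ⟨3 / 2, fun x y z => ?_⟩, ⟨t, tau * t * tau⁻¹, (hloxX _).2 loxX_t,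
      (hloxX _).2 loxX_conj, ?_⟩, fun g h hg hh => ?_⟩
    · rw [hgp', hgp', hgp']
      exact gX_hyp x y z
    · rintro (⟨h1, -⟩ | ⟨h1, -⟩)
      · exact not_end1 ((hendX _ _).1 h1)
      · exact not_end2 ((hendX _ _).1 h1)
    · have hg' := lox_kk ((hloxX _).1 hg)
      have hh' := lox_kk ((hloxX _).1 hh)
      rw [hendX, hendX, hendX, hendX]
      rcases lt_or_gt_of_ne hg' with h1 | h1 <;> rcases lt_or_gt_of_ne hh' with h2 | h2
      · exact Or.inl (end_neg h1 h2)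
      · exact Or.inr (Or.inl (end_neg h1 (by rw [kk_inv]; omega)))
      · exact Or.inr (Or.inr (Or.inl (end_neg (by rw [kk_inv]; omega) h2)))
      · exact Or.inr (Or.inr (Or.inr (end_neg (by rw [kk_inv]; omega) (by rw [kk_inv]; omega))))
  · intro Y hY
    rw [hQP] at hY
    obtain ⟨hYc, ⟨δ, hδ⟩, ⟨g, h, hg, hh, hne⟩, -⟩ := hY
    have hL : IsLen (ln Y) := isLen_ln hYc
    have hδ' : ∀ x y z : G, min (gY Y x y) (gY Y y z) - δ ≤ gY Y x z := fun x y z => by
      have := hδ x y z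
      rwa [hgp', hgp', hgp'] at this
    rcases dich hL Y (fun y hy => ln_mem hy) with ⟨m, hm⟩ | ⟨C, hC⟩
    · constructor
      · refine ⟨3 * m + 1, fun y hy => ?_⟩
        rw [hlen']
        obtain ⟨h1, h2⟩ := hm y hy
        have h3 := ln_XX_le h1
        omega
      · obtain ⟨C, hC⟩ := bdd_St hL
        refine ⟨C + ln Y t, fun x hx => ?_⟩
        rw [hlen']
        rcases hx with hx | hx
        · have := hC x hx
          omega
        · rw [Set.mem_singleton_iff] at hx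
          subst hx
          omega
    · exfalso
      rw [hlox'] at hg hh
      have hkg := lox_kk' hC hg
      have hkh := lox_kk' hC hh
      have hinv : ∀ a : G, (∃ c : ℝ, 0 < c ∧ ∀ n : ℕ, c * (n : ℝ) ≤ (ln Y (a ^ n) : ℝ)) →
          ∃ c : ℝ, 0 < c ∧ ∀ n : ℕ, c * (n : ℝ) ≤ (ln Y (a⁻¹ ^ n) : ℝ) := by
        rintro a ⟨c, hc, ha⟩
        refine ⟨c, hc, fun n => ?_⟩
        rw [inv_pow, ln_inv]
        exact ha n
      apply hne
      rw [hsame', hsame', hsame', hsame']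
      rcases lt_or_gt_of_ne (mul_ne_zero hkg hkh) with h1 | h1
      · right
        exact ⟨two_end hYc hδ' hC hg (by rw [kk_inv]; linarith),
          two_end hYc hδ' hC (hinv g hg) (by rw [kk_inv]; linarith)⟩
      · left
        exact ⟨two_end hYc hδ' hC hg h1,
          two_end hYc hδ' hC (hinv g hg) (by rw [kk_inv, kk_inv]; linarith)⟩

end Pool.Agent.S02425
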