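import Pool.Statements.S02523
import Pool.Agent.Helper485_VF.Final

set_option autoImplicit false
open Pool Pool.MP_a112e0_al

namespace Pool.Agent.S02523

/-- In every group having a free subgroup of finite index, each finitely generated subgroup H lies in some finite-index subgroup K that admits a homomorphism onto H fixing H pointwise (a retraction). -/
theorem result :
    ∀ (G : Type) [Group G],
      (∃ F : Subgroup G, F.FiniteIndex ∧ IsFreeGroup F) →
      ∀ H : Subgroup G, H.FG →
        ∃ K : Subgroup G, K.FiniteIndex ∧ H ≤ K ∧
          ∃ ρ : K →* G, (∀ k : K, ρ k ∈ H) ∧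
            ∀ h : G, ∀ hk : h ∈ K, h ∈ H → ρ ⟨h, hk⟩ = h := by
  intro G _ hG H hH
  exact Pool.Agent.Helper485_VF.main G hG H hH

end Pool.Agent.S02523
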