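import Pool.Statements.S02538

set_option autoImplicit false
open Pool Pool.MP_a19302_al

namespace Pool.Agent.S02538

/-- The `j`-th letter of the periodic word with period `k+1`: `true` (the generator `x`) exactly at the
multiples of `k+1`. -/
def letter (k j : ℕ) : Bool := decide ((k + 1) ∣ j)

/-- Size of the `k`-th block. -/
abbrev D (k : ℕ) : ℕ := k * (k + 1) + 1

/-- The ambient algebra: a product of matrix algebras. -/
abbrev A0 : Type := (k : ℕ) → Matrix (Fin (D k)) (Fin (D k)) ℚ

/-- The two generators. -/
def gen (b : Bool) : A0 := fun k => Matrix.of fun i j =>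
  if i.val = j.val + 1 ∧ letter k j.val = b then 1 else 0

/-- The operator of a word. -/
def opw (w : List Bool) : A0 := (w.map gen).prod

/-- The (reversed) window of length `m` at position `j` of the `k`-th periodic word. -/
def win (k j : ℕ) : ℕ → List Bool
  | 0 => []
  | m + 1 => letter k (j + m) :: win k j m

theorem win_length (k j m : ℕ) : (win k j m).length = m := by
  induction m with
  | zero => rfl
  | succ m ih => simp [win, ih]

theorem opw_nil : opw [] = 1 := rfl

theorem opw_cons (b : Bool) (w : List Bool) : opw (b :: w) = gen b * opw w := by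
  simp [opw]

theorem opw_append (u v : List Bool) : opw (u ++ v) = opw u * opw v := by
  simp [opw]

theorem opw_apply (w : List Bool) (k : ℕ) (i j : Fin (D k)) :
    opw w k i j = if i.val = j.val + w.length ∧ w = win k j.val w.length then 1 else 0 := by
  induction w generalizing i with
  | nil =>
    rw [opw_nil]
    simp only [Pi.one_apply, Matrix.one_apply, List.length_nil, add_zero, win, and_true, Fin.ext_iff]
  | cons b w ih =>
    rw [opw_cons, Pi.mul_apply, Matrix.mul_apply]
    simp only [ih, gen, Matrix.of_apply, List.length_cons, win, List.cons.injEq]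
    by_cases h : i.val = j.val + (w.length + 1) ∧ b = letter k (j.val + w.length) ∧ w = win k j.val w.length
    · rw [if_pos h]
      obtain ⟨h1, h2, h3⟩ := h
      have hl : j.val + w.length < D k := by have := i.isLt; omega
      rw [Finset.sum_eq_single (⟨j.val + w.length, hl⟩ : Fin (D k))]
      · rw [if_pos ⟨by simp; omega, h2.symm⟩, if_pos ⟨rfl, h3⟩, one_mul]
      · intro l _ hne
        have : ¬ (l.val = j.val + w.length ∧ w = win k j.val w.length) := by
          rintro ⟨h, _⟩
          exact hne (Fin.ext h)
        rw [if_neg this, mul_zero]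
      · intro h; exact absurd (Finset.mem_univ _) h
    · rw [if_neg h]
      refine Finset.sum_eq_zero fun l _ => ?_
      by_cases h4 : i.val = l.val + 1 ∧ letter k l.val = b
      · have : ¬ (l.val = j.val + w.length ∧ w = win k j.val w.length) := by
          rintro ⟨h5, h6⟩
          exact h ⟨by omega, by rw [← h5]; exact h4.2.symm, h6⟩
        rw [if_neg this, mul_zero]
      · rw [if_neg h4, zero_mul]

theorem win_congr {k j k' j' m : ℕ} (h : ∀ t < m, letter k (j + t) = letter k' (j' + t)) :
    win k j m = win k' j' m := by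
  induction m with
  | zero => rfl
  | succ m ih =>
    rw [win, win, h m (by omega), ih fun t ht => h t (by omega)]

theorem win_inj {k j k' j' m : ℕ} (h : win k j m = win k' j' m) :
    ∀ t < m, letter k (j + t) = letter k' (j' + t) := by
  induction m with
  | zero => intro t ht; omega
  | succ m ih =>
    rw [win, win, List.cons.injEq] at h
    intro t ht
    rcases Nat.lt_succ_iff_lt_or_eq.mp ht with h1 | h1
    · exact ih h.2 t h1
    · rw [h1]; exact h.1

theorem win_add (k j a b : ℕ) : win k j (a + b) = win k (j + b) a ++ win k j b := by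
  induction a with
  | zero => simp [win]
  | succ a ih =>
    rw [show a + 1 + b = (a + b) + 1 by ring, win, ih, win, List.cons_append]
    congr 2
    ring

/-- Every window of length `m` is one of about `m^2` windows. -/
theorem win_reduce (k j m : ℕ) : ∃ k' ≤ m, ∃ j' ≤ m + 1, win k j m = win k' j' m := by
  rcases Nat.lt_or_ge m k with hk | hk
  · by_cases h : ∃ t < m, (k + 1) ∣ (j + t)
    · obtain ⟨t, ht, hd⟩ := h
      refine ⟨m, le_refl m, m + 1 - t, by omega, win_congr fun s hs => ?_⟩
      unfold letter
      congr 1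
      rw [eq_iff_iff]
      constructor
      · intro hs2
        have : s = t := by
          rcases lt_trichotomy s t with h1 | h1 | h1
          · have := (Nat.dvd_sub hd hs2)
            have h2 : j + t - (j + s) = t - s := by omega
            rw [h2] at this
            have := Nat.le_of_dvd (by omega) this
            omega
          · exact h1
          · have := (Nat.dvd_sub hs2 hd)
            have h2 : j + s - (j + t) = s - t := by omega
            rw [h2] at this
            have := Nat.le_of_dvd (by omega) this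
            omega
        subst this
        have : m + 1 - s + s = m + 1 := by omega
        rw [this]
      · intro hs2
        have : s = t := by
          obtain ⟨c, hc⟩ := hs2
          have hc1 : c = 1 := by
            have h1 : (m + 1) * c < (m + 1) * 2 := by rw [← hc]; omega
            have h2 : 0 < (m + 1) * c := by rw [← hc]; omega
            have h3 : c < 2 := lt_of_mul_lt_mul_left h1 (Nat.zero_le _)
            have h4 : 0 < c := Nat.pos_of_mul_pos_left h2
            omega
          rw [hc1] at hc
          omega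
        rw [this]; exact hd
    · simp only [not_exists, not_and] at h
      refine ⟨m, le_refl m, 1, by omega, win_congr fun s hs => ?_⟩
      unfold letter
      congr 1
      rw [eq_iff_iff]
      constructor
      · intro h2; exact absurd h2 (h s hs)
      · intro h2
        have := Nat.le_of_dvd (by omega) h2
        omega
  · refine ⟨k, hk, j % (k + 1), ?_, win_congr fun s _ => ?_⟩
    · have := Nat.mod_lt j (Nat.succ_pos k)
      simp only [Nat.succ_eq_add_one] at this
      omega
    · unfold letter
      congr 1
      rw [eq_iff_iff, Nat.dvd_iff_mod_eq_zero, Nat.dvd_iff_mod_eq_zero, Nat.mod_add_mod]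

theorem opw_cases (w : List Bool) :
    opw w = 0 ∨ ∃ k ≤ w.length, ∃ j ≤ w.length + 1, w = win k j w.length := by
  by_cases h : ∃ k j, w = win k j w.length
  · obtain ⟨k, j, h⟩ := h
    obtain ⟨k', hk', j', hj', h2⟩ := win_reduce k j w.length
    exact Or.inr ⟨k', hk', j', hj', h.trans h2⟩
  · left
    funext k
    ext i j
    rw [opw_apply, if_neg]
    · rfl
    · rintro ⟨_, h2⟩
      exact h ⟨k, j.val, h2⟩


/-! ### The algebra -/

/-- The generating set. -/
def gens : Set A0 := Set.range gen

/-- The algebra generated by the two generators. -/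
abbrev A : Type := Algebra.adjoin ℚ gens

/-- The generators as elements of the algebra. -/
def gA (b : Bool) : A := ⟨gen b, Algebra.subset_adjoin ⟨b, rfl⟩⟩

/-- The operator of a word, as an element of the algebra. -/
def opA (w : List Bool) : A := (w.map gA).prod

theorem opA_cons (b : Bool) (w : List Bool) : opA (b :: w) = gA b * opA w := by
  simp [opA]

theorem opA_append (u v : List Bool) : opA (u ++ v) = opA u * opA v := by
  simp [opA]

theorem coe_opA (w : List Bool) : ((opA w : A) : A0) = opw w := by
  induction w with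
  | nil => rfl
  | cons b w ih => rw [opA_cons, opw_cons, ← ih]; rfl

/-- The generating subspace. -/
def V : Submodule ℚ A := Submodule.span ℚ ({1} ∪ Set.range gA)

theorem one_mem_V : (1 : A) ∈ V := Submodule.subset_span (Or.inl rfl)

theorem gA_mem_V (b : Bool) : gA b ∈ V := Submodule.subset_span (Or.inr ⟨b, rfl⟩)

theorem finite_V : FiniteDimensional ℚ V := by
  unfold V
  exact FiniteDimensional.span_of_finite ℚ (Set.toFinite _)

theorem adjoin_gA : Algebra.adjoin ℚ (Set.range gA) = ⊤ := by
  have h : (((↑) : A → A0) ⁻¹' gens) ⊆ Set.range gA := by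
    rintro ⟨a, ha⟩ hx
    obtain ⟨b, hb⟩ := hx
    exact ⟨b, Subtype.ext hb⟩
  rw [eq_top_iff, ← Algebra.adjoin_adjoin_coe_preimage (R := ℚ) (s := gens)]
  exact Algebra.adjoin_mono h

theorem adjoin_V : Algebra.adjoin ℚ (V : Set A) = ⊤ := by
  rw [eq_top_iff, ← adjoin_gA]
  refine Algebra.adjoin_mono ?_
  rintro _ ⟨b, rfl⟩
  exact gA_mem_V b

theorem finiteType_A : Algebra.FiniteType ℚ A := by
  classical
  refine ⟨⟨Finset.univ.image gA, ?_⟩⟩
  rw [Finset.coe_image, Finset.coe_univ, Set.image_univ]
  exact adjoin_gA

/-- Finite set spanning `V ^ n`. -/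
noncomputable def T (n : ℕ) : Finset A :=
  open Classical in
  insert 0 (((Finset.range (n + 1)) ×ˢ (Finset.range (n + 1)) ×ˢ (Finset.range (n + 2))).image
    fun t => opA (win t.2.1 t.2.2 t.1))

theorem opA_mem_T (n : ℕ) (w : List Bool) (h : w.length ≤ n) : opA w ∈ T n := by
  classical
  unfold T
  rcases opw_cases w with h0 | ⟨k, hk, j, hj, hw⟩
  · have : opA w = 0 := by
      apply Subtype.ext
      rw [coe_opA, h0]; rfl
    rw [this]
    exact Finset.mem_insert_self _ _
  · refine Finset.mem_insert_of_mem (Finset.mem_image.mpr ⟨(w.length, k, j), ?_, ?_⟩)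
    · simp only [Finset.mem_product, Finset.mem_range]
      omega
    · simp only
      rw [← hw]

theorem V_pow_le (n : ℕ) : V ^ n ≤ Submodule.span ℚ (T n : Set A) := by
  have h : V ^ n ≤ Submodule.span ℚ {a | ∃ w : List Bool, w.length ≤ n ∧ a = opA w} := by
    induction n with
    | zero =>
      rw [pow_zero, Submodule.one_eq_span]
      refine Submodule.span_mono ?_
      rintro _ rfl
      exact ⟨[], by simp, by simp [opA]⟩
    | succ n ih =>
      rw [pow_succ']
      refine (mul_le_mul_right ih V).trans ?_
      unfold V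
      rw [Submodule.span_mul_span]
      refine Submodule.span_mono ?_
      rintro _ ⟨a, ha, _, ⟨w, hw, rfl⟩, rfl⟩
      rcases ha with ha | ⟨b, rfl⟩
      · rw [Set.mem_singleton_iff] at ha
        subst ha
        exact ⟨w, by omega, one_mul _⟩
      · exact ⟨b :: w, by simp only [List.length_cons]; omega, (opA_cons b w).symm⟩
  refine h.trans (Submodule.span_mono ?_)
  rintro _ ⟨w, hw, rfl⟩
  exact opA_mem_T n w hw

theorem growth (n : ℕ) : Module.finrank ℚ ↥(V ^ n) ≤ 3 * (n + 1) ^ 3 := by
  classical
  have h1 : Module.finrank ℚ ↥(V ^ n) ≤ Module.finrank ℚ (Submodule.span ℚ (T n : Set A)) := by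
    have : FiniteDimensional ℚ (Submodule.span ℚ (T n : Set A)) :=
      FiniteDimensional.span_finset ℚ (T n)
    exact Submodule.finrank_mono (V_pow_le n)
  have h2 : Module.finrank ℚ (Submodule.span ℚ (T n : Set A)) ≤ (T n).card :=
    finrank_span_finset_le_card (T n)
  have h3 : (T n).card ≤ (n + 1) * ((n + 1) * (n + 2)) + 1 := by
    unfold T
    refine (Finset.card_insert_le _ _).trans ?_
    refine Nat.add_le_add_right (Finset.card_image_le.trans ?_) 1
    rw [Finset.card_product, Finset.card_product, Finset.card_range, Finset.card_range]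
  refine h1.trans (h2.trans (h3.trans ?_))
  have : (n + 1) ^ 3 = (n + 1) * ((n + 1) * (n + 1)) := by ring
  nlinarith [Nat.zero_le n, mul_nonneg (Nat.zero_le n) (Nat.zero_le n), this]

/-! ### Triangularity -/

/-- The lower triangular elements. -/
def LT : Subalgebra ℚ A0 where
  carrier := {a | ∀ k (i j : Fin (D k)), i < j → a k i j = 0}
  mul_mem' := by
    intro a b ha hb k i j hij
    rw [Pi.mul_apply, Matrix.mul_apply]
    refine Finset.sum_eq_zero fun l _ => ?_
    rcases lt_or_ge i l with h | h
    · rw [ha k i l h, zero_mul]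
    · rw [hb k l j (lt_of_le_of_lt h hij), mul_zero]
  add_mem' := by
    intro a b ha hb k i j hij
    rw [Pi.add_apply, Matrix.add_apply, ha k i j hij, hb k i j hij, add_zero]
  algebraMap_mem' := by
    intro r k i j hij
    rw [Pi.algebraMap_apply, Matrix.algebraMap_matrix_apply, if_neg (ne_of_lt hij)]

theorem A_le_LT : Algebra.adjoin ℚ gens ≤ LT := by
  refine Algebra.adjoin_le ?_
  rintro _ ⟨b, rfl⟩ k i j hij
  unfold gen
  rw [Matrix.of_apply, if_neg]
  rintro ⟨h, _⟩
  have : i.val < j.val := hij
  omega

theorem A_LT (a : A) (k : ℕ) (i j : Fin (D k)) (h : i < j) : (a : A0) k i j = 0 :=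
  A_le_LT a.2 k i j h

/-- The nilpotent ideal of elements supported on block `k` and strictly triangular there. -/
def Ik (k : ℕ) : TwoSidedIdeal A :=
  TwoSidedIdeal.mk' {a : A | (∀ k' ≠ k, (a : A0) k' = 0) ∧ ∀ i j : Fin (D k), i ≤ j → (a : A0) k i j = 0}
    ⟨fun _ _ => rfl, fun _ _ _ => rfl⟩
    (by
      rintro a b ⟨ha1, ha2⟩ ⟨hb1, hb2⟩
      refine ⟨fun k' hk' => ?_, fun i j hij => ?_⟩
      · show (a : A0) k' + (b : A0) k' = 0
        rw [ha1 k' hk', hb1 k' hk', add_zero]
      · show (a : A0) k i j + (b : A0) k i j = 0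
        rw [ha2 i j hij, hb2 i j hij, add_zero])
    (by
      rintro a ⟨ha1, ha2⟩
      refine ⟨fun k' hk' => ?_, fun i j hij => ?_⟩
      · show -((a : A0) k') = 0
        rw [ha1 k' hk', neg_zero]
      · show -((a : A0) k i j) = 0
        rw [ha2 i j hij, neg_zero])
    (by
      rintro a b ⟨hb1, hb2⟩
      refine ⟨fun k' hk' => ?_, fun i j hij => ?_⟩
      · show (a : A0) k' * (b : A0) k' = 0
        rw [hb1 k' hk', mul_zero]
      · show ((a : A0) k * (b : A0) k) i j = 0
        rw [Matrix.mul_apply]
        refine Finset.sum_eq_zero fun l _ => ?_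
        rcases lt_or_ge i l with h | h
        · rw [A_LT a k i l h, zero_mul]
        · rw [hb2 l j (h.trans hij), mul_zero])
    (by
      rintro a b ⟨ha1, ha2⟩
      refine ⟨fun k' hk' => ?_, fun i j hij => ?_⟩
      · show (a : A0) k' * (b : A0) k' = 0
        rw [ha1 k' hk', zero_mul]
      · show ((a : A0) k * (b : A0) k) i j = 0
        rw [Matrix.mul_apply]
        refine Finset.sum_eq_zero fun l _ => ?_
        rcases lt_or_ge l j with h | h
        · rw [A_LT b k l j h, mul_zero]
        · rw [ha2 i l (hij.trans h), zero_mul])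

theorem mem_Ik (k : ℕ) (a : A) :
    a ∈ Ik k ↔ (∀ k' ≠ k, (a : A0) k' = 0) ∧ ∀ i j : Fin (D k), i ≤ j → (a : A0) k i j = 0 := by
  unfold Ik
  rw [TwoSidedIdeal.mem_mk']
  rfl

theorem list_prod_Ik (k : ℕ) (l : List A) (hl : ∀ a ∈ l, a ∈ Ik k) :
    ∀ i j : Fin (D k), i.val < j.val + l.length → ((l.prod : A) : A0) k i j = 0 := by
  induction l with
  | nil =>
    intro i j hij
    show (1 : A0) k i j = 0
    rw [Pi.one_apply, Matrix.one_apply_ne]
    intro h
    rw [h] at hij
    simp at hij
  | cons a l ih =>
    intro i j hij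
    have ha := (mem_Ik k a).mp (hl a (List.mem_cons_self))
    have ih' := ih fun b hb => hl b (List.mem_cons_of_mem a hb)
    rw [List.prod_cons]
    show ((a : A0) k * ((l.prod : A) : A0) k) i j = 0
    rw [Matrix.mul_apply]
    refine Finset.sum_eq_zero fun m _ => ?_
    rcases lt_or_ge m i with h | h
    · rw [ih' m j, mul_zero]
      have : m.val < i.val := h
      simp only [List.length_cons] at hij
      omega
    · rw [ha.2 i m h, zero_mul]

theorem Ik_nilpotent (k : ℕ) : ∃ m : ℕ, ∀ f : Fin m → A, (∀ i, f i ∈ Ik k) → (List.ofFn f).prod = 0 := by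
  refine ⟨D k, fun f hf => ?_⟩
  have hl : ∀ a ∈ List.ofFn f, a ∈ Ik k := by
    intro a ha
    obtain ⟨i, rfl⟩ := (List.mem_ofFn' f a).mp ha
    exact hf i
  apply Subtype.ext
  funext k'
  by_cases hk : k' = k
  · subst hk
    ext i j
    rw [list_prod_Ik k' _ hl i j]
    · rfl
    · rw [List.length_ofFn]
      have := i.isLt
      omega
  · have h1 : (List.ofFn f) = f 0 :: List.ofFn (fun i : Fin (k * (k + 1)) => f i.succ) := List.ofFn_succ
    rw [h1, List.prod_cons]
    show (f 0 : A0) k' * _ = 0
    rw [((mem_Ik k _).mp (hf 0)).1 k' hk, zero_mul]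

/-! ### The elements with large nilpotency index -/

/-- The word containing the marker of block `k`. -/
def u (k : ℕ) : List Bool := win k 0 (2 * (k + 1))

theorem u_mem (k : ℕ) : opA (u k) ∈ Ik k := by
  rw [mem_Ik]
  refine ⟨fun k' hk' => ?_, fun i j hij => ?_⟩
  · rw [coe_opA]
    ext i j
    rw [opw_apply, if_neg]
    · rfl
    · rintro ⟨_, h⟩
      unfold u at h
      rw [win_length] at h
      have h1 := win_inj h
      have h2 : (k' + 1) ∣ j.val := by
        have := h1 0 (by omega)
        unfold letter at this
        simp only [add_zero, dvd_zero, decide_true] at this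
        exact of_decide_eq_true this.symm
      have h3 : (k' + 1) ∣ j.val + (k + 1) := by
        have := h1 (k + 1) (by omega)
        unfold letter at this
        simp only [zero_add, dvd_refl, decide_true] at this
        exact of_decide_eq_true this.symm
      have h4 : (k' + 1) ∣ (k + 1) := (Nat.dvd_add_right h2).mp h3
      have h5 : k' + 1 ≤ k + 1 := Nat.le_of_dvd (by omega) h4
      have h6 : k' < k := by omega
      have h7 := h1 (k' + 1) (by omega)
      unfold letter at h7
      rw [zero_add] at h7
      have h8 : (k' + 1) ∣ j.val + (k' + 1) := (Nat.dvd_add_right h2).mpr (dvd_refl _)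
      have h9 : (k + 1) ∣ (k' + 1) := by
        rw [decide_eq_true h8] at h7
        exact of_decide_eq_true h7
      have := Nat.le_of_dvd (by omega) h9
      omega
  · rw [coe_opA, opw_apply, if_neg]
    rintro ⟨h, _⟩
    unfold u at h
    rw [win_length] at h
    have : i.val ≤ j.val := hij
    omega

theorem win_pow (k a : ℕ) : opA (win k 0 ((2 * (k + 1)) * a)) = opA (u k) ^ a := by
  induction a with
  | zero => rw [mul_zero, pow_zero]; rfl
  | succ a ih =>
    rw [mul_add, mul_one, add_comm, win_add, opA_append, ih, pow_succ']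
    congr 2
    unfold u
    refine win_congr fun t _ => ?_
    unfold letter
    congr 1
    rw [eq_iff_iff, zero_add, zero_add]
    have : (k + 1) ∣ 2 * (k + 1) * a := ⟨2 * a, by ring⟩
    exact Nat.dvd_add_right this

theorem u_pow_ne (m : ℕ) : opA (u (2 * m)) ^ m ≠ 0 := by
  intro h
  rw [← win_pow] at h
  have h1 : opw (win (2 * m) 0 (2 * (2 * m + 1) * m)) = 0 := by
    rw [← coe_opA, h]; rfl
  have h2 : 2 * (2 * m + 1) * m < D (2 * m) := by
    have : 2 * (2 * m + 1) * m = 2 * m * (2 * m + 1) := by ring
    rw [this]
    exact Nat.lt_succ_self _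
  have h3 : opw (win (2 * m) 0 (2 * (2 * m + 1) * m)) (2 * m) ⟨2 * (2 * m + 1) * m, h2⟩
      ⟨0, by omega⟩ = 1 := by
    rw [opw_apply, if_pos]
    rw [win_length]
    exact ⟨by simp, rfl⟩
  rw [h1] at h3
  exact zero_ne_one h3

/-- The negation of the preceding statement: Every finitely generated associative algebra over a field with polynomially bounded growth (finite GK dimension) has a nilpotent two-sided ideal containing every nilpotent two-sided ideal. -/
theorem result :
    ¬ (∀ (k : Type) [Field k] (A : Type) [Ring A] [Algebra k A],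
      Algebra.FiniteType k A →
      (∃ V : Submodule k A, FiniteDimensional k V ∧ (1 : A) ∈ V ∧
          Algebra.adjoin k (V : Set A) = ⊤ ∧
          ∃ C d : ℕ, ∀ n : ℕ, Module.finrank k ↥(V ^ n) ≤ C * (n + 1) ^ d) →
      ∃ N : TwoSidedIdeal A,
        (∃ m : ℕ, ∀ f : Fin m → A, (∀ i, f i ∈ N) → (List.ofFn f).prod = 0) ∧
        ∀ I : TwoSidedIdeal A,
          (∃ m : ℕ, ∀ f : Fin m → A, (∀ i, f i ∈ I) → (List.ofFn f).prod = 0) → I ≤ N) := by
  intro H
  obtain ⟨N, ⟨m, hm⟩, hN⟩ := H ℚ A finiteType_A
    ⟨V, finite_V, one_mem_V, adjoin_V, 3, 3, growth⟩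
  have h1 : opA (u (2 * m)) ∈ N := hN (Ik (2 * m)) (Ik_nilpotent _) (u_mem _)
  have h2 := hm (fun _ => opA (u (2 * m))) fun _ => h1
  rw [List.ofFn_const, List.prod_replicate] at h2
  exact u_pow_ne m h2

end Pool.Agent.S02538
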