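import Pool.Statements.S02597
import Pool.Agent.Helper716_Lang.Core
-- import your own Pool.Agent.* helpers here

set_option autoImplicit false
open Pool Pool.MP_a75583_al

namespace Pool.Agent.S02597

/-- If R is real closed and K is a field of transcendence degree n over R in which −1 is a sum of squares, then every degree-d form (d ≥ 1) over K in more than d^n variables has a nonzero zero in K. -/
theorem result :
  ∀ (R K : Type) [Field R] [Field K] [Algebra R K] (n : ℕ),
    (¬ ∃ (m : ℕ) (f : Fin m → R), ∑ i, f i ^ 2 = -1) →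
    (∀ x : R, IsSquare x ∨ IsSquare (-x)) →
    (∀ p : Polynomial R, Odd p.natDegree → ∃ x : R, p.IsRoot x) →
    (∃ x : Fin n → K, IsTranscendenceBasis R x) →
    (∃ (m : ℕ) (f : Fin m → K), ∑ i, f i ^ 2 = -1) →
    ∀ (d N : ℕ), 0 < d → d ^ n < N →
      ∀ F : MvPolynomial (Fin N) K, F.IsHomogeneous d →
        ∃ v : Fin N → K, v ≠ 0 ∧ MvPolynomial.eval v F = 0 := by
  rintro R K _ _ _ n h1 h2 h3 ⟨x, hx⟩ ⟨q, g, hg⟩ d N hd hN F hF
  obtain ⟨_, _, _⟩ := Pool.Agent.Helper716_Lang.exists_realClosed_order R h1 h2 h3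
  obtain ⟨v, hv, hv2⟩ := Pool.Agent.Helper716_Lang.lang hx g hg (J := Unit) (fun _ => d)
    (fun _ => hd) (by simpa using hN) (fun _ => F) (fun _ => hF)
  exact ⟨v, hv, hv2 ()⟩

end Pool.Agent.S02597
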