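import Pool.Statements.S03052

set_option autoImplicit false
set_option linter.unusedSimpArgs false
open Pool Pool.MP_cacfbf_al

attribute [local instance 100] LieRing.ofAssociativeRing

namespace Pool.Agent.S03052
variable {A : Type*} [Ring A]

/-- The idempotent. -/
def idem (X Y Z : A) : A := -((Z * Z + Z) * (1 - Y * X - Y * Y * X * X))

theorem three_mul_eq_zero (h3 : (3 : A) = 0) (a : A) : a + a + a = 0 := by
  have : a + a + a = 3 * a := by noncomm_ring
  rw [this, h3, zero_mul]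

theorem X_idem {X Y Z : A} (h3 : (3 : A) = 0) (hXY : X * Y = Y * X + Z) (hXZ : X * Z = Z * X)
    (hYZ : Y * Z = Z * Y) (hX : X * (X * X) = 0) (hZ : Z * (Z * Z) = Z) :
    X * idem X Y Z = 0 := by
  have hXY' : ∀ a, X * (Y * a) = Y * (X * a) + Z * a := fun a => by
    rw [← mul_assoc, hXY, add_mul, mul_assoc]
  have hXZ' : ∀ a, X * (Z * a) = Z * (X * a) := fun a => by
    rw [← mul_assoc, hXZ, mul_assoc]
  have hYZ' : ∀ a, Y * (Z * a) = Z * (Y * a) := fun a => by
    rw [← mul_assoc, hYZ, mul_assoc]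
  have hZ' : ∀ a, Z * (Z * (Z * a)) = Z * a := fun a => by
    rw [← mul_assoc, ← mul_assoc, mul_assoc Z Z Z, hZ]
  have h := three_mul_eq_zero h3 ((Z * Z + Z) * (Y * (X * X)))
  simp only [add_mul, mul_assoc] at h
  simp only [idem, mul_add, add_mul, mul_sub, sub_mul, mul_neg, mul_one, mul_assoc, hXY, hXZ, hYZ,
    hX, hZ, hXY', hXZ', hYZ', hZ', mul_zero, add_zero]
  refine Eq.trans ?_ h
  abel

theorem idem_Y {X Y Z : A} (h3 : (3 : A) = 0) (hXY : X * Y = Y * X + Z) (hXZ : X * Z = Z * X)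
    (hYZ : Y * Z = Z * Y) (hY : Y * (Y * Y) = 0) (hZ : Z * (Z * Z) = Z) :
    idem X Y Z * Y = 0 := by
  have hXY' : ∀ a, X * (Y * a) = Y * (X * a) + Z * a := fun a => by
    rw [← mul_assoc, hXY, add_mul, mul_assoc]
  have hXZ' : ∀ a, X * (Z * a) = Z * (X * a) := fun a => by
    rw [← mul_assoc, hXZ, mul_assoc]
  have hYZ' : ∀ a, Y * (Z * a) = Z * (Y * a) := fun a => by
    rw [← mul_assoc, hYZ, mul_assoc]
  have hZ' : ∀ a, Z * (Z * (Z * a)) = Z * a := fun a => by
    rw [← mul_assoc, ← mul_assoc, mul_assoc Z Z Z, hZ]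
  have hY' : ∀ a, Y * (Y * (Y * a)) = 0 := fun a => by
    rw [← mul_assoc, ← mul_assoc, mul_assoc Y Y Y, hY, zero_mul]
  have h := three_mul_eq_zero h3 ((Z * Z + Z) * (Y * (Y * X)))
  simp only [add_mul, mul_assoc] at h
  simp only [idem, mul_add, add_mul, mul_sub, sub_mul, neg_mul, mul_neg, mul_one, mul_assoc, hXY, hXZ, hYZ,
    hY, hZ, hXY', hXZ', hYZ', hZ', hY', mul_zero, add_zero, zero_add, one_mul]
  refine Eq.trans ?_ h
  abel

theorem Z_idem {X Y Z : A} (hZ : Z * (Z * Z) = Z) :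
    Z * idem X Y Z = idem X Y Z := by
  have h : Z * (Z * Z + Z) = Z * Z + Z := by rw [mul_add, hZ, add_comm]
  rw [idem, mul_neg, ← mul_assoc, h]

theorem idem_idem {X Y Z : A} (h3 : (3 : A) = 0) (hXY : X * Y = Y * X + Z) (hXZ : X * Z = Z * X)
    (hYZ : Y * Z = Z * Y) (hX : X * (X * X) = 0) (hZ : Z * (Z * Z) = Z) :
    idem X Y Z * idem X Y Z = idem X Y Z := by
  have h1 := X_idem h3 hXY hXZ hYZ hX hZ
  have h2 := Z_idem (X := X) (Y := Y) hZ
  have h4 := three_mul_eq_zero h3 (idem X Y Z)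
  generalize he : idem X Y Z = e at *
  calc e * e
      = -((Z * Z + Z) * (e - Y * (X * e) - Y * (Y * (X * (X * e))))) := by
        nth_rewrite 1 [← he]
        rw [idem]
        noncomm_ring
    _ = -(e + e) := by
        rw [h1]; simp only [mul_zero, sub_zero, add_mul, mul_assoc, h2]
    _ = e := by
        rw [neg_eq_iff_add_eq_zero]; exact h4

theorem idem_XY {X Y Z : A} (h3 : (3 : A) = 0) (hXY : X * Y = Y * X + Z) (hXZ : X * Z = Z * X)
    (hYZ : Y * Z = Z * Y) (hX : X * (X * X) = 0) (hZ : Z * (Z * Z) = Z) :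
    idem X Y Z * X * (Y * idem X Y Z) = idem X Y Z := by
  have h1 := X_idem h3 hXY hXZ hYZ hX hZ
  have h2 := Z_idem (X := X) (Y := Y) hZ
  have h4 := idem_idem h3 hXY hXZ hYZ hX hZ
  calc idem X Y Z * X * (Y * idem X Y Z) = idem X Y Z * ((X * Y) * idem X Y Z) := by
        simp only [mul_assoc]
    _ = idem X Y Z := by
        rw [hXY, add_mul, mul_assoc, h1, mul_zero, zero_add, h2, h4]


/-! ### The cube map on an associative algebra of characteristic three is a `3`-operation -/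

theorem add_cube {A : Type*} [Ring A] (h3 : (3 : A) = 0) (x y : A) :
    (x + y) ^ 3 - x ^ 3 - y ^ 3
      = (x * (x * y - y * x) - (x * y - y * x) * x) + (y * (y * x - x * y) - (y * x - x * y) * y) := by
  have h := three_mul_eq_zero h3 (x * y * x + y * x * y)
  rw [← sub_eq_zero]
  refine Eq.trans ?_ h
  noncomm_ring

theorem ad_cube {A : Type*} [Ring A] (h3 : (3 : A) = 0) (x y : A) :
    (x * (x * (x * y - y * x) - (x * y - y * x) * x)
      - (x * (x * y - y * x) - (x * y - y * x) * x) * x) = x ^ 3 * y - y * x ^ 3 := by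
  have h := three_mul_eq_zero h3 (x * y * x * x - x * x * y * x)
  rw [← sub_eq_zero]
  refine Eq.trans ?_ h
  noncomm_ring

/-! ### The Lie algebra `gl_3(F_3)` and its restricted enveloping algebra -/

/-- The underlying associative algebra: `3 × 3` matrices over the field with three elements. -/
abbrev L3 : Type := Matrix (Fin 3) (Fin 3) (ZMod 3)

/-- The `3`-operation. -/
def f3 (x : L3) : L3 := x ^ 3

/-- The defining relation of the restricted enveloping algebra. -/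
def rel3 (a b : UniversalEnvelopingAlgebra (ZMod 3) L3) : Prop :=
  ∃ x : L3, a = UniversalEnvelopingAlgebra.ι (ZMod 3) x ^ 3 ∧
    b = UniversalEnvelopingAlgebra.ι (ZMod 3) (f3 x)

/-- The restricted enveloping algebra. -/
abbrev U3 : Type := RingQuot rel3

theorem three_L3 : (3 : L3) = 0 := by decide

theorem three_of_alg {A : Type*} [Ring A] [Algebra (ZMod 3) A] : (3 : A) = 0 := by
  have h : algebraMap (ZMod 3) A 3 = 3 := map_ofNat _ _
  rw [← h]
  have h2 : (3 : ZMod 3) = 0 := by decide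
  rw [h2, map_zero]

theorem f3_smul (a : ZMod 3) (x : L3) : f3 (a • x) = a ^ 3 • f3 x := by
  unfold f3; rw [smul_pow]

theorem f3_ad (x y : L3) : (LieAlgebra.ad (ZMod 3) L3 x ^ 3) y = ⁅f3 x, y⁆ := by
  have h : (LieAlgebra.ad (ZMod 3) L3 x ^ 3) y = ⁅x, ⁅x, ⁅x, y⁆⁆⁆ := by
    simp [pow_succ]
  rw [h]
  simp only [Ring.lie_def, f3]
  exact ad_cube three_L3 x y

theorem f3_add (x y : L3) :
    UniversalEnvelopingAlgebra.ι (ZMod 3) (f3 (x + y)) - UniversalEnvelopingAlgebra.ι (ZMod 3) (f3 x)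
        - UniversalEnvelopingAlgebra.ι (ZMod 3) (f3 y)
      = (UniversalEnvelopingAlgebra.ι (ZMod 3) x + UniversalEnvelopingAlgebra.ι (ZMod 3) y) ^ 3
        - UniversalEnvelopingAlgebra.ι (ZMod 3) x ^ 3
        - UniversalEnvelopingAlgebra.ι (ZMod 3) y ^ 3 := by
  rw [add_cube three_of_alg, ← map_sub, ← map_sub]
  have h : f3 (x + y) - f3 x - f3 y = ⁅x, ⁅x, y⁆⁆ + ⁅y, ⁅y, x⁆⁆ := by
    simp only [Ring.lie_def, f3]
    exact add_cube three_L3 x y
  rw [h, map_add, LieHom.map_lie, LieHom.map_lie, LieHom.map_lie, LieHom.map_lie]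
  simp only [Ring.lie_def]

/-- The quotient map composed with the canonical map of the Lie algebra. -/
noncomputable def q (x : L3) : U3 :=
  RingQuot.mkAlgHom (ZMod 3) rel3 (UniversalEnvelopingAlgebra.ι (ZMod 3) x)

theorem q_lie (x y : L3) : q ⁅x, y⁆ = q x * q y - q y * q x := by
  unfold q
  rw [LieHom.map_lie, Ring.lie_def, map_sub, map_mul, map_mul]

theorem q_cube (x : L3) : q x ^ 3 = q (f3 x) := by
  unfold q
  rw [← map_pow]
  exact RingQuot.mkAlgHom_rel (ZMod 3) ⟨x, rfl, rfl⟩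

theorem q_zero : q 0 = 0 := by
  unfold q; rw [map_zero, map_zero]

/-- Differentiation on truncated polynomials. -/
def xm : L3 := !![0, 1, 0; 0, 0, 2; 0, 0, 0]

/-- Multiplication by the variable on truncated polynomials. -/
def ym : L3 := !![0, 0, 0; 1, 0, 0; 0, 1, 0]

theorem lie_xy : ⁅xm, ym⁆ = (1 : L3) := by
  rw [Ring.lie_def]; decide

theorem lie_x1 : ⁅xm, (1 : L3)⁆ = 0 := by
  rw [Ring.lie_def]; simp

theorem lie_y1 : ⁅ym, (1 : L3)⁆ = 0 := by
  rw [Ring.lie_def]; simp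

theorem hXY : q xm * q ym = q ym * q xm + q 1 := by
  have := q_lie xm ym
  rw [lie_xy] at this
  rw [this]; abel

theorem hXZ : q xm * q 1 = q 1 * q xm := by
  have := q_lie xm 1
  rw [lie_x1, q_zero] at this
  exact (sub_eq_zero.mp this.symm)

theorem hYZ : q ym * q 1 = q 1 * q ym := by
  have := q_lie ym 1
  rw [lie_y1, q_zero] at this
  exact (sub_eq_zero.mp this.symm)

theorem hX : q xm * (q xm * q xm) = 0 := by
  have h := q_cube xm
  have h2 : f3 xm = 0 := by decide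
  rw [h2, q_zero] at h
  rw [← h]; noncomm_ring

theorem hY : q ym * (q ym * q ym) = 0 := by
  have h := q_cube ym
  have h2 : f3 ym = 0 := by decide
  rw [h2, q_zero] at h
  rw [← h]; noncomm_ring

theorem hZ : q 1 * (q 1 * q 1) = q 1 := by
  have h := q_cube 1
  have h2 : f3 1 = 1 := by unfold f3; rw [one_pow]
  rw [h2] at h
  conv_rhs => rw [← h]
  noncomm_ring

/-- The idempotent `e` of `u(L)`. -/
noncomputable def e : U3 := idem (q xm) (q ym) (q 1)

theorem Xe : q xm * e = 0 := X_idem three_of_alg hXY hXZ hYZ hX hZ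
theorem eY : e * q ym = 0 := idem_Y three_of_alg hXY hXZ hYZ hY hZ
theorem ee : e * e = e := idem_idem three_of_alg hXY hXZ hYZ hX hZ
theorem eXYe : e * q xm * (q ym * e) = e := idem_XY three_of_alg hXY hXZ hYZ hX hZ

/-- The natural representation of `u(L)`. -/
noncomputable def rep : U3 →ₐ[ZMod 3] L3 :=
  RingQuot.liftAlgHom (ZMod 3) ⟨UniversalEnvelopingAlgebra.lift (ZMod 3) (LieHom.id : L3 →ₗ⁅ZMod 3⁆ L3), by
    rintro a b ⟨x, rfl, rfl⟩
    rw [map_pow]
    simp [f3]⟩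

theorem rep_q (x : L3) : rep (q x) = x := by
  unfold rep q
  rw [RingQuot.liftAlgHom_mkAlgHom_apply]
  simp

theorem e_ne_zero : e ≠ 0 := by
  intro h
  have h1 : rep e = 0 := by rw [h, map_zero]
  unfold e idem at h1
  simp only [map_neg, map_mul, map_add, map_sub, map_one, rep_q] at h1
  revert h1
  decide

/-- The embedding of `2 × 2` matrices. -/
noncomputable def emb (m : Matrix (Fin 2) (Fin 2) (ZMod 3)) : U3 :=
  m 0 0 • e + m 0 1 • (e * q xm) + m 1 0 • (q ym * e) + m 1 1 • (q ym * e * q xm)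

theorem emb_mul (a b : Matrix (Fin 2) (Fin 2) (ZMod 3)) : emb (a * b) = emb a * emb b := by
  have h1 := Xe
  have h2 := eY
  have h3 := ee
  have h4 := eXYe
  have h1' : ∀ a, q xm * (e * a) = 0 := fun a => by rw [← mul_assoc, h1, zero_mul]
  have h2' : ∀ a, e * (q ym * a) = 0 := fun a => by rw [← mul_assoc, h2, zero_mul]
  have h3' : ∀ a, e * (e * a) = e * a := fun a => by rw [← mul_assoc, h3]
  have h4' : e * (q xm * (q ym * e)) = e := by rw [← mul_assoc]; exact h4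
  have h4'' : ∀ a, e * (q xm * (q ym * (e * a))) = e * a := fun a => by
    conv_rhs => rw [← h4]
    simp only [mul_assoc]
  unfold emb
  simp only [Matrix.mul_apply, Fin.sum_univ_two, mul_add, add_mul, smul_mul_assoc, mul_smul_comm,
    mul_assoc, h1, h2, h3, h4', h1', h2', h3', h4'', smul_zero, add_zero, zero_add, mul_zero,
    add_smul, smul_add, smul_smul]
  simp only [mul_comm]
  abel


theorem sum_perm_four {M : Type*} [AddCommMonoid M] (g : Equiv.Perm (Fin 4) → M) :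
    ∑ σ, g σ = ∑ a : Fin 4, ∑ b : Fin 3, ∑ c : Fin 2,
      g (Equiv.Perm.decomposeFin.symm (a, Equiv.Perm.decomposeFin.symm (b, Equiv.Perm.decomposeFin.symm (c, 1)))) := by
  rw [← (Equiv.Perm.decomposeFin (n := 3)).symm.sum_comp, Fintype.sum_prod_type]
  refine Finset.sum_congr rfl fun a _ => ?_
  rw [← (Equiv.Perm.decomposeFin (n := 2)).symm.sum_comp, Fintype.sum_prod_type]
  refine Finset.sum_congr rfl fun b _ => ?_
  rw [← (Equiv.Perm.decomposeFin (n := 1)).symm.sum_comp, Fintype.sum_prod_type]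
  refine Finset.sum_congr rfl fun c _ => ?_
  simp

theorem S4_two {A : Type*} [CommRing A] (m : Fin 4 → Matrix (Fin 2) (Fin 2) A) :
    ∑ σ : Equiv.Perm (Fin 4), ((Equiv.Perm.sign σ : ℤˣ) : ℤ) • (m (σ 0) * (m (σ 1) * (m (σ 2) * m (σ 3)))) = 0 := by
  have hs : ∀ a : Fin 4, ∀ b : Fin 3, ∀ c : Fin 2,
     let σ := (Equiv.Perm.decomposeFin.symm (a, Equiv.Perm.decomposeFin.symm (b, Equiv.Perm.decomposeFin.symm (c, 1))) : Equiv.Perm (Fin 4))
     (Equiv.Perm.sign σ : ℤ) = (if a = 0 then 1 else -1) * ((if b = 0 then 1 else -1) * (if c = 0 then 1 else -1)) ∧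
       σ 0 = a ∧ σ 1 = (Equiv.swap 0 a) (Fin.succ b) ∧ σ 2 = Equiv.swap 0 a (Fin.succ (Equiv.swap 0 b (Fin.succ c))) ∧
       σ 3 = Equiv.swap 0 a (Fin.succ (Equiv.swap 0 b (Fin.succ (Equiv.swap 0 c 1)))) := by
    decide
  rw [sum_perm_four]
  have hs' : ∀ a : Fin 4, ∀ b : Fin 3, ∀ c : Fin 2,
     ((Equiv.Perm.sign (Equiv.Perm.decomposeFin.symm (a, Equiv.Perm.decomposeFin.symm (b, Equiv.Perm.decomposeFin.symm (c, 1))) : Equiv.Perm (Fin 4))) : ℤ) •
      (m ((Equiv.Perm.decomposeFin.symm (a, Equiv.Perm.decomposeFin.symm (b, Equiv.Perm.decomposeFin.symm (c, 1))) : Equiv.Perm (Fin 4)) 0) *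
      (m ((Equiv.Perm.decomposeFin.symm (a, Equiv.Perm.decomposeFin.symm (b, Equiv.Perm.decomposeFin.symm (c, 1))) : Equiv.Perm (Fin 4)) 1) *
      (m ((Equiv.Perm.decomposeFin.symm (a, Equiv.Perm.decomposeFin.symm (b, Equiv.Perm.decomposeFin.symm (c, 1))) : Equiv.Perm (Fin 4)) 2) *
       m ((Equiv.Perm.decomposeFin.symm (a, Equiv.Perm.decomposeFin.symm (b, Equiv.Perm.decomposeFin.symm (c, 1))) : Equiv.Perm (Fin 4)) 3))))
      = ((if a = 0 then 1 else -1) * ((if b = 0 then 1 else -1) * (if c = 0 then 1 else -1)) : ℤ) •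
       (m a * (m (Equiv.swap 0 a (Fin.succ b)) * (m (Equiv.swap 0 a (Fin.succ (Equiv.swap 0 b (Fin.succ c)))) *
         m (Equiv.swap 0 a (Fin.succ (Equiv.swap 0 b (Fin.succ (Equiv.swap 0 c 1)))))))) := by
    intro a b c
    obtain ⟨h0, h1, h2, h3, h4⟩ := hs a b c
    rw [h0, h1, h2, h3, h4]
  simp only [hs']
  have e4 : ∀ g : Fin 4 → Matrix (Fin 2) (Fin 2) A, ∑ i, g i = g 0 + g 1 + g 2 + g 3 := fun g => Fin.sum_univ_four g
  have e3 : ∀ g : Fin 3 → Matrix (Fin 2) (Fin 2) A, ∑ i, g i = g 0 + g 1 + g 2 := fun g => Fin.sum_univ_three g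
  have e2 : ∀ g : Fin 2 → Matrix (Fin 2) (Fin 2) A, ∑ i, g i = g 0 + g 1 := fun g => Fin.sum_univ_two g
  simp only [e4, e3, e2]
  generalize h0 : m 0 = x0
  generalize h1 : m 1 = x1
  generalize h2 : m 2 = x2
  generalize h3 : m 3 = x3
  have key : ∀ x0 x1 x2 x3 : Matrix (Fin 2) (Fin 2) A,
      x0*(x1*(x2*x3)) - x0*(x1*(x3*x2)) - x0*(x2*(x1*x3)) + x0*(x2*(x3*x1)) + x0*(x3*(x1*x2)) - x0*(x3*(x2*x1))
      - x1*(x0*(x2*x3)) + x1*(x0*(x3*x2)) + x1*(x2*(x0*x3)) - x1*(x2*(x3*x0)) - x1*(x3*(x0*x2)) + x1*(x3*(x2*x0))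
      + x2*(x0*(x1*x3)) - x2*(x0*(x3*x1)) - x2*(x1*(x0*x3)) + x2*(x1*(x3*x0)) + x2*(x3*(x0*x1)) - x2*(x3*(x1*x0))
      - x3*(x0*(x1*x2)) + x3*(x0*(x2*x1)) + x3*(x1*(x0*x2)) - x3*(x1*(x2*x0)) - x3*(x2*(x0*x1)) + x3*(x2*(x1*x0)) = 0 := by
    intro x0 x1 x2 x3
    ext i j
    fin_cases i <;> fin_cases j <;>
      simp [Matrix.mul_apply, Fin.sum_univ_two] <;> ring
  rw [← key x0 x1 x2 x3]
  simp [Equiv.swap_apply_def, h0, h1, h2, h3]
  abel


/-! ### The subalgebra `R` isomorphic to `M_2(F_3)` -/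

theorem emb_add (a b : Matrix (Fin 2) (Fin 2) (ZMod 3)) : emb (a + b) = emb a + emb b := by
  unfold emb
  simp only [Matrix.add_apply, add_smul]
  abel

theorem emb_smul (c : ZMod 3) (a : Matrix (Fin 2) (Fin 2) (ZMod 3)) : emb (c • a) = c • emb a := by
  unfold emb
  simp only [Matrix.smul_apply, smul_add, smul_smul, smul_eq_mul]

theorem emb_zero : emb 0 = 0 := by
  unfold emb
  simp

/-- The embedding as a homomorphism of non-unital algebras. -/
noncomputable def embHom : Matrix (Fin 2) (Fin 2) (ZMod 3) →ₙₐ[ZMod 3] U3 where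
  toFun := emb
  map_smul' := emb_smul
  map_zero' := emb_zero
  map_add' := emb_add
  map_mul' := emb_mul

/-- The subalgebra `R`, a copy of `M_2(F_3)`. -/
noncomputable def R3 : NonUnitalSubalgebra (ZMod 3) U3 := NonUnitalAlgHom.range embHom

theorem mem_R3 {x : U3} (h : x ∈ R3) : ∃ m, emb m = x := by
  obtain ⟨m, hm⟩ := NonUnitalAlgHom.mem_range embHom |>.mp h
  exact ⟨m, hm⟩

theorem emb_mem (m : Matrix (Fin 2) (Fin 2) (ZMod 3)) : emb m ∈ R3 :=
  (NonUnitalAlgHom.mem_range embHom).mpr ⟨m, rfl⟩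

theorem emb_sub (a b : Matrix (Fin 2) (Fin 2) (ZMod 3)) : emb (a - b) = emb a - emb b :=
  map_sub embHom a b

theorem emb_sum {ι : Type} (s : Finset ι) (g : ι → Matrix (Fin 2) (Fin 2) (ZMod 3)) :
    emb (∑ i ∈ s, g i) = ∑ i ∈ s, emb (g i) := map_sum embHom g s

theorem emb_zsmul (c : ℤ) (a : Matrix (Fin 2) (Fin 2) (ZMod 3)) : emb (c • a) = c • emb a :=
  map_zsmul embHom c a

/-- Hall's identity for `2 × 2` matrices. -/
theorem hall {A : Type*} [CommRing A] (a b c : Matrix (Fin 2) (Fin 2) A) :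
    (a * b - b * a) * (a * b - b * a) * c - c * ((a * b - b * a) * (a * b - b * a)) = 0 := by
  ext i j
  fin_cases i <;> fin_cases j <;>
    simp [Matrix.mul_apply, Fin.sum_univ_two] <;> ring

/-- Hall's polynomial. -/
noncomputable def hallPoly : FreeAlgebra (ZMod 3) (Fin 3) :=
  let a := FreeAlgebra.ι (ZMod 3) (0 : Fin 3)
  let b := FreeAlgebra.ι (ZMod 3) (1 : Fin 3)
  let c := FreeAlgebra.ι (ZMod 3) (2 : Fin 3)
  (a * b - b * a) * (a * b - b * a) * c - c * ((a * b - b * a) * (a * b - b * a))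

theorem hallPoly_ne : hallPoly ≠ 0 := by
  intro h
  have h1 : FreeAlgebra.lift (ZMod 3)
      (![!![0, 1, 0; 0, 0, 0; 0, 0, 1], !![0, 0, 0; 1, 0, 0; 0, 0, 1], !![0, 0, 1; 0, 0, 0; 0, 0, 0]]
        : Fin 3 → L3) hallPoly = 0 := by
    rw [h, map_zero]
  unfold hallPoly at h1
  simp only [map_sub, map_mul, FreeAlgebra.lift_ι_apply] at h1
  revert h1
  decide

theorem one_emb (m : Matrix (Fin 2) (Fin 2) (ZMod 3)) (hm : m 0 0 = 1) : e * emb m * e = e := by
  have h1 := Xe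
  have h2 := eY
  have h3 := ee
  have h3' : ∀ a, e * (e * a) = e * a := fun a => by rw [← mul_assoc, h3]
  have h2' : ∀ a, e * (q ym * a) = 0 := fun a => by rw [← mul_assoc, h2, zero_mul]
  unfold emb
  simp only [mul_add, add_mul, smul_mul_assoc, mul_smul_comm, mul_assoc, h1, h2, h3, h3', h2',
    smul_zero, add_zero, mul_zero, hm, one_smul]


theorem pi_R3 (r : Fin 3 → U3) (hr : ∀ i, r i ∈ R3) :
    FreeAlgebra.lift (ZMod 3) r hallPoly = 0 := by
  obtain ⟨a, ha⟩ := mem_R3 (hr 0)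
  obtain ⟨b, hb⟩ := mem_R3 (hr 1)
  obtain ⟨c, hc⟩ := mem_R3 (hr 2)
  have := hall a b c
  unfold hallPoly
  simp only [map_sub, map_mul, FreeAlgebra.lift_ι_apply, ← ha, ← hb, ← hc, ← emb_mul, ← emb_sub]
  rw [this, emb_zero]

theorem std4 (r : Fin (2 * 2) → U3) (hr : ∀ i, r i ∈ R3) :
    (∑ σ : Equiv.Perm (Fin (2 * 2)),
      ((Equiv.Perm.sign σ : ℤˣ) : ℤ) • (List.ofFn fun i => r (σ i)).prod) ^ 1 = 0 := by
  choose m hm using fun i => mem_R3 (hr i)
  rw [pow_one]
  have h4 : ∀ σ : Equiv.Perm (Fin (2 * 2)), (List.ofFn fun i => r (σ i)).prod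
      = emb (m (σ 0) * (m (σ 1) * (m (σ 2) * m (σ 3)))) := by
    intro σ
    simp only [emb_mul, hm]
    simp only [Nat.reduceMul, List.ofFn_succ, List.ofFn_zero, List.prod_cons, List.prod_nil,
      mul_one]
    rfl
  simp only [h4, ← emb_zsmul]
  rw [← emb_sum]
  have := S4_two m
  exact (congrArg emb this).trans emb_zero

/-- The matrix unit `e_{01}`. -/
def m01 : Matrix (Fin 2) (Fin 2) (ZMod 3) := !![0, 1; 0, 0]
/-- The matrix unit `e_{10}`. -/
def m10 : Matrix (Fin 2) (Fin 2) (ZMod 3) := !![0, 0; 1, 0]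

theorem std2 (t : ℕ) (ht : 1 ≤ t)
    (h : ∀ r : Fin (2 * 1) → U3, (∀ i, r i ∈ R3) →
      (∑ σ : Equiv.Perm (Fin (2 * 1)),
        ((Equiv.Perm.sign σ : ℤˣ) : ℤ) • (List.ofFn fun i => r (σ i)).prod) ^ t = 0) : False := by
  have h1 := h ![emb m01, emb m10] (by
    intro i
    fin_cases i
    · exact emb_mem _
    · exact emb_mem _)
  have h2 : (∑ σ : Equiv.Perm (Fin (2 * 1)),
        ((Equiv.Perm.sign σ : ℤˣ) : ℤ) • (List.ofFn fun i => (![emb m01, emb m10] : Fin (2 * 1) → U3) (σ i)).prod)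
      = emb m01 * emb m10 - emb m10 * emb m01 := by
    have hu : (Finset.univ : Finset (Equiv.Perm (Fin (2 * 1)))) = {1, Equiv.swap 0 1} := by decide
    have hne : (1 : Equiv.Perm (Fin (2 * 1))) ≠ Equiv.swap 0 1 := by decide
    rw [hu, Finset.sum_pair hne]
    simp [List.ofFn_succ, sub_eq_add_neg]
  rw [h2, ← emb_mul, ← emb_mul, ← emb_sub] at h1
  have h3 : ∀ k : ℕ, 1 ≤ k → emb (m01 * m10 - m10 * m01) ^ k = emb ((m01 * m10 - m10 * m01) ^ k) := by
    intro k hk
    induction k, hk using Nat.le_induction with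
    | base => rw [pow_one, pow_one]
    | succ k hk ih => rw [pow_succ, pow_succ, ih, ← emb_mul]
  rw [h3 t ht] at h1
  have h4 : ∀ k : ℕ, ((m01 * m10 - m10 * m01) ^ k) 0 0 = 1 ∧ ((m01 * m10 - m10 * m01) ^ k) 0 1 = 0 := by
    intro k
    induction k with
    | zero => decide
    | succ k ih =>
      rw [pow_succ]
      constructor
      · rw [Matrix.mul_apply, Fin.sum_univ_two, ih.1, ih.2]; decide
      · rw [Matrix.mul_apply, Fin.sum_univ_two, ih.1, ih.2]; decide
  have h5 := one_emb _ (h4 t).1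
  rw [h1, mul_zero, zero_mul] at h5
  exact e_ne_zero h5.symm

/-- The negation of the preceding statement: For every prime p, field F of char p, Lie p-algebra L and PI non-unital subalgebra R of u(L): if n is the least positive integer such that some power of the standard polynomial S_2n vanishes on R, then n is a power of p. -/
theorem result :
    ¬ (∀ (p : ℕ), p.Prime → ∀ (F : Type) [Field F] [CharP F p] (L : Type) [LieRing L] [LieAlgebra F L]
    (f : L → L),
    (∀ (a : F) (x : L), f (a • x) = a ^ p • f x) →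
    (∀ x y : L, (LieAlgebra.ad F L x ^ p) y = ⁅f x, y⁆) →
    (∀ x y : L,
      UniversalEnvelopingAlgebra.ι F (f (x + y)) - UniversalEnvelopingAlgebra.ι F (f x)
        - UniversalEnvelopingAlgebra.ι F (f y)
      = (UniversalEnvelopingAlgebra.ι F x + UniversalEnvelopingAlgebra.ι F y) ^ p
        - UniversalEnvelopingAlgebra.ι F x ^ p - UniversalEnvelopingAlgebra.ι F y ^ p) →
    ∀ R : NonUnitalSubalgebra F (RingQuot (fun a b : UniversalEnvelopingAlgebra F L =>
        ∃ x : L, a = UniversalEnvelopingAlgebra.ι F x ^ p ∧ b = UniversalEnvelopingAlgebra.ι F (f x))),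
    (∃ m : ℕ, ∃ φ : FreeAlgebra F (Fin m), φ ≠ 0 ∧
      ∀ r : Fin m → RingQuot (fun a b : UniversalEnvelopingAlgebra F L =>
        ∃ x : L, a = UniversalEnvelopingAlgebra.ι F x ^ p ∧ b = UniversalEnvelopingAlgebra.ι F (f x)),
        (∀ i, r i ∈ R) → FreeAlgebra.lift F r φ = 0) →
    ∀ n : ℕ, 1 ≤ n →
      (∃ t : ℕ, 1 ≤ t ∧
        ∀ r : Fin (2 * n) → RingQuot (fun a b : UniversalEnvelopingAlgebra F L =>
          ∃ x : L, a = UniversalEnvelopingAlgebra.ι F x ^ p ∧ b = UniversalEnvelopingAlgebra.ι F (f x)),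
          (∀ i, r i ∈ R) →
          (∑ σ : Equiv.Perm (Fin (2 * n)),
            ((Equiv.Perm.sign σ : ℤˣ) : ℤ) • (List.ofFn fun i => r (σ i)).prod) ^ t = 0) →
      (∀ m : ℕ, 1 ≤ m → m < n →
        ¬ ∃ t : ℕ, 1 ≤ t ∧
          ∀ r : Fin (2 * m) → RingQuot (fun a b : UniversalEnvelopingAlgebra F L =>
            ∃ x : L, a = UniversalEnvelopingAlgebra.ι F x ^ p ∧ b = UniversalEnvelopingAlgebra.ι F (f x)),
            (∀ i, r i ∈ R) →
            (∑ σ : Equiv.Perm (Fin (2 * m)),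
              ((Equiv.Perm.sign σ : ℤˣ) : ℤ) • (List.ofFn fun i => r (σ i)).prod) ^ t = 0) →
      ∃ k : ℕ, n = p ^ k) := by
  intro H
  have h := H 3 Nat.prime_three (ZMod 3) L3 f3 f3_smul f3_ad f3_add R3
    ⟨3, hallPoly, hallPoly_ne, pi_R3⟩ 2 (by norm_num) ⟨1, le_refl 1, std4⟩
    (by
      rintro m hm1 hm2 ⟨t, ht, h⟩
      obtain rfl : m = 1 := by omega
      exact std2 t ht h)
  obtain ⟨k, hk⟩ := h
  rcases k with _ | k
  · norm_num at hk
  · have : 3 ∣ 2 := by rw [hk, pow_succ]; exact dvd_mul_left 3 (3 ^ k)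
    omega

end Pool.Agent.S03052
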