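import Pool.Statements.S03109
import Pool.Agent.Helper610_Vergne.Main

set_option autoImplicit false
open Pool Pool.MP_cf5fcd_al

namespace Pool.Agent.S03109

/-- For every n ≥ 2, no nilpotent complex Lie bracket on ℂⁿ is rigid: its isomorphism class (GL_n-orbit) is never Zariski-open in the variety of all Lie brackets given by structure constants. -/
theorem result :
    ∀ n : ℕ, 2 ≤ n →
    ∀ B : (Fin n → Fin n → Fin n → ℂ) → (Fin n → ℂ) → (Fin n → ℂ) → (Fin n → ℂ),
      (B = fun c x y k => ∑ i, ∑ j, x i * y j * c i j k) →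
    ∀ L : Set (Fin n → Fin n → Fin n → ℂ),
      (L = {c | (∀ x : Fin n → ℂ, B c x x = 0) ∧
        ∀ x y z : Fin n → ℂ, B c x (B c y z) + B c y (B c z x) + B c z (B c x y) = 0}) →
    ∀ μ ∈ L, (∀ x : Fin n → ℂ, ∃ m : ℕ, ∀ y : Fin n → ℂ, (B μ x)^[m] y = 0) →
      ¬ ∃ S : Set (MvPolynomial (Fin n × Fin n × Fin n) ℂ),
        ∀ c ∈ L,
          ((¬ ∃ g : (Fin n → ℂ) ≃ₗ[ℂ] (Fin n → ℂ),
              ∀ x y : Fin n → ℂ, g (B μ x y) = B c (g x) (g y)) ↔
            ∀ p ∈ S, MvPolynomial.eval (fun t => c t.1 t.2.1 t.2.2) p = 0) := by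
  intro n hn2 B hB L hL μ hμ hnil
  rintro ⟨S, hS⟩
  have hBr : ∀ c x y, B c x y = Helper610_Vergne.br c x y := by
    intro c x y
    rw [hB]
    rfl
  have hLmem : ∀ c, c ∈ L ↔ Helper610_Vergne.IsLieC c := by
    intro c
    rw [hL]
    constructor
    · rintro ⟨h1, h2⟩
      refine ⟨fun x => ?_, fun x y z => ?_⟩
      · rw [← hBr]; exact h1 x
      · simp only [← hBr]; exact h2 x y z
    · rintro ⟨h1, h2⟩
      refine ⟨fun x => ?_, fun x y z => ?_⟩
      · rw [hBr]; exact h1 x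
      · simp only [hBr]; exact h2 x y z
  have hiso : ∀ c, (∃ g : (Fin n → ℂ) ≃ₗ[ℂ] (Fin n → ℂ),
      ∀ x y : Fin n → ℂ, g (B μ x y) = B c (g x) (g y)) ↔ Helper610_Vergne.Iso μ c := by
    intro c
    simp only [hBr]
    rfl
  refine Helper610_Vergne.main hn2 μ ((hLmem μ).1 hμ) (fun x => ?_) ?_
  · obtain ⟨m, hm⟩ := hnil x
    refine ⟨m, fun y => ?_⟩
    have h1 : B μ x = Helper610_Vergne.br μ x := funext fun y => hBr μ x y
    rw [← h1]
    exact hm y
  · intro c₀ c₁ hline ht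
    obtain ⟨t₀, ht₀⟩ := ht
    have h1 := hS (c₀ + t₀ • c₁) ((hLmem _).2 (hline t₀))
    rw [hiso] at h1
    have h2 : ¬ ∀ p ∈ S, MvPolynomial.eval
        (fun t => (c₀ + t₀ • c₁) t.1 t.2.1 t.2.2) p = 0 := fun h => h1.2 h ht₀
    push Not at h2
    obtain ⟨p, hpS, hp⟩ := h2
    -- the polynomial along the line
    set P : Polynomial ℂ := MvPolynomial.eval₂ Polynomial.C
      (fun t : Fin n × Fin n × Fin n =>
        Polynomial.C (c₀ t.1 t.2.1 t.2.2) + Polynomial.X * Polynomial.C (c₁ t.1 t.2.1 t.2.2)) p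
      with hP
    have hPe : ∀ t : ℂ, P.eval t =
        MvPolynomial.eval (fun s => (c₀ + t • c₁) s.1 s.2.1 s.2.2) p := by
      intro t
      rw [hP, ← Polynomial.coe_evalRingHom, MvPolynomial.hom_eval₂]
      have h3 : (Polynomial.evalRingHom t).comp Polynomial.C = RingHom.id ℂ := by
        ext z
        · simp
        
      rw [h3]
      simp only [Polynomial.coe_evalRingHom, Polynomial.eval_add, Polynomial.eval_C,
        Polynomial.eval_mul, Polynomial.eval_X]
      rfl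
    have hP0 : P ≠ 0 := by
      intro h
      apply hp
      rw [← hPe, h, Polynomial.eval_zero]
    refine (Polynomial.finite_setOfPred_isRoot hP0).subset fun t ht => ?_
    change P.eval t = 0
    rw [hPe]
    have h4 := hS (c₀ + t • c₁) ((hLmem _).2 (hline t))
    rw [hiso] at h4
    exact h4.1 ht p hpS

end Pool.Agent.S03109
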