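-- Proof of the frozen statement S03148: the generating function of the core dimensions of the tensor powers of
-- a module need not be rational. The module is `Ω(k) ⊕ Ω⁻¹(k)` over the Klein four group in characteristic 2.
import Pool.Statements.S03148
import Pool.Agent.Helper1_Core.Rec

set_option autoImplicit false
open CategoryTheory CategoryTheory.MonoidalCategory CategoryTheory.Limits
open Pool Pool.MP_d25222_al

namespace Pool.Agent.S03148

/-- The negation of the preceding statement: Take a finite group G, a field k of prime characteristic, and a finite-dimensional kG-module M. Let c_n be the dimension of the non-projective part of the n-th tensor power of M. Then the series sum c_n t^n is a rational function: a nonzero polynomial times it is a polynomial. -/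
theorem result :
    ¬ (∀ (p : ℕ) (k : Type) [Field k] [CharP k p], p.Prime →
      ∀ (G : Type) [Group G] [Finite G] (M : Rep k G), FiniteDimensional k M.V →
        ∃ P Q : Polynomial ℚ, Q ≠ 0 ∧
          (Q : PowerSeries ℚ) *
              PowerSeries.mk (fun n : ℕ =>
                ((sInf {d : ℕ | ∃ N P' : Rep k G, Projective P' ∧
                    Nonempty ((fun X : Rep k G => X ⊗ M)^[n] (𝟙_ (Rep k G)) ≅ N ⊞ P') ∧
                    Module.finrank k N.V = d} : ℕ) : ℚ)) =
            (P : PowerSeries ℚ)) := by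
  intro H
  obtain ⟨P, Q, hQ, h⟩ := H 2 Helper1_Core.F2 Nat.prime_two Helper1_Core.V4 Helper1_Core.MM inferInstance
  have hc : ∀ n : ℕ, ((sInf {d : ℕ | ∃ N P' : Rep.{0} Helper1_Core.F2 Helper1_Core.V4, Projective P' ∧
      Nonempty ((fun X : Rep.{0} Helper1_Core.F2 Helper1_Core.V4 => X ⊗ Helper1_Core.MM)^[n]
        (𝟙_ (Rep.{0} Helper1_Core.F2 Helper1_Core.V4)) ≅ N ⊞ P') ∧
      Module.finrank Helper1_Core.F2 N.V = d} : ℕ) : ℤ) = Helper1_Core.cc n 0 := by
    intro n
    rw [← Helper1_Core.rr_TT]
    exact Helper1_Core.core_sInf Helper1_Core.V4_isPGroup (Helper1_Core.TT n)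
  have hq : ∀ n : ℕ, ((sInf {d : ℕ | ∃ N P' : Rep.{0} Helper1_Core.F2 Helper1_Core.V4, Projective P' ∧
      Nonempty ((fun X : Rep.{0} Helper1_Core.F2 Helper1_Core.V4 => X ⊗ Helper1_Core.MM)^[n]
        (𝟙_ (Rep.{0} Helper1_Core.F2 Helper1_Core.V4)) ≅ N ⊞ P') ∧
      Module.finrank Helper1_Core.F2 N.V = d} : ℕ) : ℚ) = ((Helper1_Core.cc n 0 : ℤ) : ℚ) := by
    intro n
    rw [← hc n]
    push_cast
    rfl
  refine Helper1_Core.not_rational (fun n => ((Helper1_Core.cc n 0 : ℤ) : ℚ)) ?_ ?_ ?_ P Q hQ ?_
  · change ((Helper1_Core.cc 0 0 : ℤ) : ℚ) = 1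
    rw [Helper1_Core.cc_zero]
    norm_num
  · intro m
    have := Helper1_Core.defect_even m
    change ((Helper1_Core.cc (2 * m + 1) 0 : ℤ) : ℚ) - 2 * ((Helper1_Core.cc (2 * m) 0 : ℤ) : ℚ) = _
    exact_mod_cast this
  · intro m
    have := Helper1_Core.defect_odd m
    change ((Helper1_Core.cc (2 * m + 2) 0 : ℤ) : ℚ) - 2 * ((Helper1_Core.cc (2 * m + 1) 0 : ℤ) : ℚ) = 0
    exact_mod_cast this
  · rw [← h]
    congr 1
    apply PowerSeries.ext
    intro n
    rw [PowerSeries.coeff_mk, PowerSeries.coeff_mk]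
    exact (hq n).symm

end Pool.Agent.S03148
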