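import Pool.Statements.S03233
import Pool.Agent.Helper867_Rae.Thompson

set_option autoImplicit false
open Pool Pool.MP_da2e15_al

namespace Pool.Agent.S03233

/-- There is f: ℕ→ℕ such that every finite 2-solvable group G with a noncyclic 2-subgroup A lying in exactly one Sylow 2-subgroup has 2-length at most f(∣A∣), with 2-length defined via normal series with alternating odd-order and 2-power factors. -/
theorem result :
    ∃ f : ℕ → ℕ, ∀ (G : Type) [Group G] [Finite G] (A : Subgroup G),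
      (∃ n : ℕ, ∃ N : ℕ → Subgroup G, N 0 = ⊥ ∧ N (2 * n + 1) = ⊤ ∧
        (∀ i, N i ≤ N (i + 1)) ∧ (∀ i, (N i).Normal) ∧
        (∀ i, i < 2 * n + 1 →
          (Even i → Nat.Coprime ((N i).subgroupOf (N (i + 1))).index 2) ∧
          (Odd i → ∃ k : ℕ, ((N i).subgroupOf (N (i + 1))).index = 2 ^ k))) →
      IsPGroup 2 A → ¬ IsCyclic A →
      (∃! P : Sylow 2 G, A ≤ (P : Subgroup G)) →
      ∃ N : ℕ → Subgroup G, N 0 = ⊥ ∧ N (2 * f (Nat.card A) + 1) = ⊤ ∧
        (∀ i, N i ≤ N (i + 1)) ∧ (∀ i, (N i).Normal) ∧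
        (∀ i, i < 2 * f (Nat.card A) + 1 →
          (Even i → Nat.Coprime ((N i).subgroupOf (N (i + 1))).index 2) ∧
          (Odd i → ∃ k : ℕ, ((N i).subgroupOf (N (i + 1))).index = 2 ^ k)) := by
  obtain ⟨f, hf⟩ := Pool.Agent.Helper867_Rae.thompson_two
  exact ⟨f, fun G _ _ A hn hA _ hu => hf G A hn hA hu⟩

end Pool.Agent.S03233
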