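import Pool.Statements.S03469
import Pool.Agent.H822.PI.Final

set_option autoImplicit false
open Pool Pool.MP_ecbc69_al

namespace Pool.Agent.S03469

/-- For every unital ring satisfying a multilinear polynomial identity with a coefficient 1, and every n ≥ 3, the subgroup of GL_n(R) generated by elementary transvections I + rE_ij (i ≠ j) is normal in GL_n(R). -/
theorem result :
    ∀ (R : Type) [Ring R],
      (∃ d : ℕ, 0 < d ∧ ∃ c : Equiv.Perm (Fin d) → ℤ, c 1 = 1 ∧
        ∀ x : Fin d → R,
          ∑ σ : Equiv.Perm (Fin d), ((c σ : ℤ) : R) * (List.ofFn (fun i => x (σ i))).prod = 0) →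
      ∀ n : ℕ, 3 ≤ n →
        (Subgroup.closure
          {g : Matrix.GeneralLinearGroup (Fin n) R |
            ∃ i j : Fin n, i ≠ j ∧ ∃ r : R,
              (g : Matrix (Fin n) (Fin n) R) =
                1 + Matrix.of (fun a b => if a = i ∧ b = j then r else 0)}).Normal := by
  intro R _ hPI n hn
  obtain ⟨d, -, c, h1, h2⟩ := hPI
  have hN := Pool.Agent.H822.PI.main' (ι := Fin n) (by rw [Fintype.card_fin]; exact hn)
    (R := R) (k := d) ⟨c, h1, h2⟩
  have hE : Subgroup.closure
          {g : Matrix.GeneralLinearGroup (Fin n) R |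
            ∃ i j : Fin n, i ≠ j ∧ ∃ r : R,
              (g : Matrix (Fin n) (Fin n) R) =
                1 + Matrix.of (fun a b => if a = i ∧ b = j then r else 0)} =
      Pool.Agent.H822.PI.EE (Fin n) R := by
    have hs : ∀ (i j : Fin n) (r : R), (Matrix.of (fun a b => if a = i ∧ b = j then r else 0) :
        Matrix (Fin n) (Fin n) R) = Matrix.single i j r := by
      intro i j r
      ext a b
      rw [Matrix.of_apply, Matrix.single_apply]
      by_cases h : a = i ∧ b = j
      · rw [if_pos h, if_pos ⟨h.1.symm, h.2.symm⟩]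
      · rw [if_neg h, if_neg (fun h' => h ⟨h'.1.symm, h'.2.symm⟩)]
    have hset : {g : Matrix.GeneralLinearGroup (Fin n) R |
            ∃ i j : Fin n, i ≠ j ∧ ∃ r : R,
              (g : Matrix (Fin n) (Fin n) R) =
                1 + Matrix.of (fun a b => if a = i ∧ b = j then r else 0)} =
        Pool.Agent.H822.PI.elSet (Fin n) (Set.univ : Set R) := by
      ext g
      constructor
      · rintro ⟨i, j, hij, r, hr⟩
        exact ⟨i, j, hij, r, Set.mem_univ _, by rw [hr, hs]⟩
      · rintro ⟨i, j, hij, r, -, hr⟩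
        exact ⟨i, j, hij, r, by rw [hr, hs]⟩
    rw [hset]
    rfl
  rw [hE]
  exact hN

end Pool.Agent.S03469
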