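import Pool.Statements.S03471
import Pool.Agent.Helper867_Rae.Assemble

set_option autoImplicit false
open Pool Pool.MP_ecbc8a_al

namespace Pool.Agent.S03471

/-- Let G be locally finite and locally 2-soluble, with a finite-index subgroup in which each countable subgroup has fewer than continuum Sylow 2-subgroups. Then O_{2,2',2}(G) has finite index, and 2-subgroups above O_2(G) satisfy the descending chain condition. -/
theorem result :
  ∀ (G : Type) [Group G],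
    (∀ H : Subgroup G, H.FG → Finite H) →
    (∀ K : Subgroup G, K.FG → ∃ n : ℕ, ∃ S : ℕ → Subgroup G, S 0 = ⊥ ∧ S n = K ∧
        ∀ i < n, S i ≤ S (i + 1) ∧ ((S i).subgroupOf (S (i + 1))).Normal ∧
          ((∀ x ∈ S (i + 1), ∃ k : ℕ, x ^ (2 ^ k : ℕ) ∈ S i) ∨
           (∀ x ∈ S (i + 1), ∃ m : ℕ, Odd m ∧ x ^ m ∈ S i))) →
    (∃ K : Subgroup G, K.FiniteIndex ∧
        ∀ H : Subgroup G, H ≤ K → Countable H →
          Cardinal.mk (Sylow 2 H) < Cardinal.continuum) →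
    (∃ A B C : Subgroup G, A.Normal ∧ B.Normal ∧ C.Normal ∧ A ≤ B ∧ B ≤ C ∧
        C.FiniteIndex ∧ IsPGroup 2 A ∧
        (∀ x ∈ B, ∃ m : ℕ, Odd m ∧ x ^ m ∈ A) ∧
        (∀ x ∈ C, ∃ k : ℕ, x ^ (2 ^ k : ℕ) ∈ B)) ∧
    (∀ H : ℕ → Subgroup G, Antitone H →
        (∀ n, IsPGroup 2 (H n) ∧ sSup {N : Subgroup G | N.Normal ∧ IsPGroup 2 N} ≤ H n) →
        ∃ N : ℕ, ∀ n ≥ N, H n = H N) :=
  Pool.Agent.Helper867_Rae.final Pool.Agent.Helper867_Rae.Jobtree.target
    Pool.Agent.Helper867_Rae.Jobloc.target Pool.Agent.Helper867_Rae.finite_part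
    Pool.Agent.Helper867_Rae.infinite_part

end Pool.Agent.S03471
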