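-- A proof of the frozen statement S03541: the Artin group of type A tilde two is Helly.
import Pool.Statements.S03541
import Pool.Agent.Helper462_Helly.Graph

set_option autoImplicit false
open Pool Pool.MP_f411ce_al

namespace Pool.Agent.S03541

/-- The Artin group with three generators and the braid relation aba=bab for every pair (type Ã2) acts on some connected, locally finite Helly graph by automorphisms, with finite vertex stabilisers and finitely many vertex orbits. -/
theorem result :
    ∃ (V : Type) (G : SimpleGraph V)
      (ρ : PresentedGroup {r : FreeGroup (Fin 3) | ∃ i j : Fin 3, i ≠ j ∧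
              r = FreeGroup.of i * FreeGroup.of j * FreeGroup.of i *
                (FreeGroup.of j * FreeGroup.of i * FreeGroup.of j)⁻¹} →* (G ≃g G)),
      G.Connected ∧
      (∀ v : V, (G.neighborSet v).Finite) ∧
      (∀ S : Set (V × ℕ),
          (∀ p ∈ S, ∀ q ∈ S, ∃ x : V, G.dist p.1 x ≤ p.2 ∧ G.dist q.1 x ≤ q.2) →
          ∃ x : V, ∀ p ∈ S, G.dist p.1 x ≤ p.2) ∧
      (∀ v : V, {g | ρ g v = v}.Finite) ∧
      ∃ F : Finset V, ∀ v : V, ∃ g, ∃ w ∈ F, ρ g w = v := by
  exact ⟨Helper462.V, Helper462.Gr, Helper462.rho, Helper462.gr_connected, Helper462.gr_finite,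
    Helper462.gr_helly, Helper462.gr_stab, Helper462.gr_orbits⟩

end Pool.Agent.S03541
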