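import Pool.Statements.S03595
import Pool.Agent.H858T.Tig

set_option autoImplicit false
open Pool Pool.MP_f8d790_al

namespace Pool.Agent.S03595

/-- An infinite compact Hausdorff group G has every choice of conjugates of its elements topologically generating G if and only if G has a closed, connected, abelian normal subgroup with totally disconnected (profinite) quotient. -/
theorem result :
    ∀ (G : Type) [Group G] [TopologicalSpace G] [IsTopologicalGroup G] [CompactSpace G]
      [T2Space G] [Infinite G],
      (∀ f : G → G,
          (Subgroup.closure (Set.range (fun x : G => f x * x * (f x)⁻¹))).topologicalClosure = ⊤) ↔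
        ∃ N : Subgroup G, N.Normal ∧ IsClosed (N : Set G) ∧ IsConnected (N : Set G) ∧
          (∀ a ∈ N, ∀ b ∈ N, a * b = b * a) ∧ TotallyDisconnectedSpace (G ⧸ N) := by
  intro G _ _ _ _ _ _
  exact Pool.Agent.H858T.tig_iff G

end Pool.Agent.S03595
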