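import Pool.Statements.S03774
import Pool.Agent.Helper146_TTO.Main

set_option autoImplicit false
open Matrix
open Pool Pool.MP_0ac5c2_an

namespace Pool.Agent.S03774


/-- The negation of the preceding statement: For n at least 4, every complex symmetric n×n matrix with no two orthogonal nonzero eigenvectors is unitarily equivalent to a truncated Toeplitz operator, encoded via the compressed-shift model and Sarason's rank-two criterion M − TMT* = u⊗k + k⊗v. -/
theorem result :
    ¬ (∀ n : ℕ, 4 ≤ n → ∀ M : Matrix (Fin n) (Fin n) ℂ, Mᵀ = M →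
      (¬ ∃ x y : Fin n → ℂ, ∃ a b : ℂ, x ≠ 0 ∧ y ≠ 0 ∧
          M *ᵥ x = a • x ∧ M *ᵥ y = b • y ∧ star x ⬝ᵥ y = 0) →
      ∃ T : Matrix (Fin n) (Fin n) ℂ, ∃ k u v : Fin n → ℂ,
        1 - T * Tᴴ = Matrix.vecMulVec k (star k) ∧
        (∀ μ : ℂ, ∀ x : Fin n → ℂ, x ≠ 0 → T *ᵥ x = μ • x → ‖μ‖ < 1) ∧
        M - T * M * Tᴴ = Matrix.vecMulVec u (star k) + Matrix.vecMulVec k (star v)) := by
  intro H
  obtain ⟨M, hM, h1, h2⟩ := Pool.Agent.Helper146_TTO.exists_counterexample (n := 30) (by decide)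
  exact h2 (H 30 (by norm_num) M hM h1)

end Pool.Agent.S03774
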