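import Pool.Statements.S04009
import Pool.Agent.H535R3.JY
-- import your own Pool.Agent.* helpers here

set_option autoImplicit false
open Filter Topology
open Pool Pool.MP_1f2107_an

namespace Pool.Agent.S04009

/-- A subsolution stays below a supersolution. -/
lemma comparison (c1 c2 : ℝ) (hc : c1 ≤ c2) (g : ℝ → ℝ) (φ χ : ℝ → ℝ)
    (hφ : ∀ t : ℝ, HasDerivAt φ (-Real.sin (φ t) + c1 + g t) t)
    (hχ : ∀ t : ℝ, HasDerivAt χ (-Real.sin (χ t) + c2 + g t) t)
    (h0 : φ 0 ≤ χ 0) : ∀ t : ℝ, 0 ≤ t → φ t ≤ χ t := by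
  intro t1 ht1
  by_contra hlt
  push Not at hlt
  set D : ℝ → ℝ := fun t => χ t - φ t with hD
  have hDd : ∀ t, HasDerivAt D (-Real.sin (χ t) + Real.sin (φ t) + (c2 - c1)) t := by
    intro t
    have := (hχ t).sub (hφ t)
    refine this.congr_deriv ?_
    ring
  have hDc : Continuous D := continuous_iff_continuousAt.2 fun t => (hDd t).continuousAt
  -- the last time at which D is nonnegative
  set S : Set ℝ := {t | t ∈ Set.Icc 0 t1 ∧ 0 ≤ D t} with hS
  have hSc : IsClosed S := by
    have : S = Set.Icc 0 t1 ∩ D ⁻¹' (Set.Ici 0) := by ext t; simp [hS]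
    rw [this]
    exact isClosed_Icc.inter (isClosed_Ici.preimage hDc)
  have hSne : S.Nonempty := ⟨0, ⟨⟨le_refl 0, ht1⟩, by simp [hD, h0]⟩⟩
  have hSb : BddAbove S := ⟨t1, fun t ht => ht.1.2⟩
  set t0 := sSup S with ht0
  have ht0S : t0 ∈ S := hSc.csSup_mem hSne hSb
  have hneg : ∀ t, t0 < t → t ≤ t1 → D t < 0 := by
    intro t h1 h2
    by_contra hcon
    push Not at hcon
    have : t ∈ S := ⟨⟨ht0S.1.1.trans h1.le, h2⟩, hcon⟩
    exact absurd (le_csSup hSb this) (not_le.2 h1)
  have ht01 : t0 < t1 := by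
    rcases lt_or_eq_of_le ht0S.1.2 with h | h
    · exact h
    · exfalso
      have := ht0S.2
      rw [h] at this
      simp [hD] at this
      linarith
  -- D * exp(-t) is monotone on [t0, t1]
  have hE : ∀ t, HasDerivAt (fun s => D s * Real.exp (-s))
      ((-Real.sin (χ t) + Real.sin (φ t) + (c2 - c1)) * Real.exp (-t) + D t * (Real.exp (-t) * (-1))) t := by
    intro t
    exact (hDd t).mul ((hasDerivAt_neg t).exp)
  have hmono : MonotoneOn (fun s => D s * Real.exp (-s)) (Set.Icc t0 t1) := by
    refine monotoneOn_of_deriv_nonneg (convex_Icc _ _) ?_ ?_ ?_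
    · exact (hDc.mul (Real.continuous_exp.comp continuous_neg)).continuousOn
    · intro t _
      exact (hE t).differentiableAt.differentiableWithinAt
    · intro t ht
      rw [interior_Icc] at ht
      rw [(hE t).deriv]
      have hDt := hneg t ht.1 ht.2.le
      have hsin : |Real.sin (φ t) - Real.sin (χ t)| ≤ |φ t - χ t| := Real.abs_sin_sub_sin_le _ _
      have h1 : |φ t - χ t| = -D t := by
        rw [abs_of_pos]
        · simp [hD]
        · simp only [hD] at hDt; linarith
      have h2 := neg_abs_le (Real.sin (φ t) - Real.sin (χ t))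
      have h3 : 0 ≤ (-Real.sin (χ t) + Real.sin (φ t) + (c2 - c1)) - D t := by linarith
      have h4 := Real.exp_pos (-t)
      have h5 : (-Real.sin (χ t) + Real.sin (φ t) + (c2 - c1)) * Real.exp (-t) + D t * (Real.exp (-t) * (-1))
          = ((-Real.sin (χ t) + Real.sin (φ t) + (c2 - c1)) - D t) * Real.exp (-t) := by ring
      rw [h5]
      positivity
  have hle := hmono ⟨le_refl t0, ht01.le⟩ ⟨ht01.le, le_refl t1⟩ ht01.le
  simp only at hle
  have h6 : 0 ≤ D t0 * Real.exp (-t0) := mul_nonneg ht0S.2 (Real.exp_pos _).le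
  have h7 : D t1 * Real.exp (-t1) < 0 := mul_neg_of_neg_of_pos (hneg t1 ht01 le_rfl) (Real.exp_pos _)
  linarith

/-- For every ω>0, integer r≥1 and real A, no solution of φ' = −sin φ + ω(r−2) + A cos(ωt) has rotation number φ(t)/(ωt) → r; i.e. the phase-lock area L_r misses the line B = ω(r−2). -/
theorem result :
    ∀ ω : ℝ, 0 < ω → ∀ r : ℕ, 1 ≤ r → ∀ A : ℝ, ∀ φ : ℝ → ℝ,
      (∀ t : ℝ, HasDerivAt φ
        (-Real.sin (φ t) + ω * ((r : ℝ) - 2) + A * Real.cos (ω * t)) t) →
      ¬ Tendsto (fun t : ℝ => φ t / (ω * t)) atTop (𝓝 (r : ℝ)) := by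
  intro ω hω r hr A φ hφ hlim
  have hr' : (1:ℝ) ≤ r := by exact_mod_cast hr
  by_cases h3 : 3 ≤ r
  · -- the rescaled solution
    obtain ⟨s, rfl⟩ : ∃ s, r = s + 2 := ⟨r - 2, by omega⟩
    have hs : 1 ≤ s := by omega
    have key := H535R3.axis_main ω hω s hs A (fun τ => φ (τ / ω)) (by
      intro τ
      have h1 : HasDerivAt (fun τ : ℝ => τ / ω) (1 / ω) τ := by
        simpa using (hasDerivAt_id τ).div_const ω
      have h2 := (hφ (τ / ω)).comp τ h1
      refine h2.congr_deriv ?_
      have : ω * (τ / ω) = τ := by field_simp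
      rw [this]
      push_cast
      ring) (s + 2 : ℝ) (by
      have h1 : Tendsto (fun τ : ℝ => τ / ω) atTop atTop := tendsto_id.atTop_div_const hω
      have h2 := hlim.comp h1
      push_cast at h2
      refine h2.congr ?_
      intro τ
      simp only [Function.comp]
      congr 1
      field_simp)
    linarith
  · push Not at h3
    -- r = 1 or r = 2: compare with the reflected solution
    set c : ℝ := ω * ((r:ℝ) - 2) with hc
    have hr2 : (r:ℝ) ≤ 2 := by exact_mod_cast (by omega : r ≤ 2)
    have hc0 : c ≤ -c := by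
      have : c ≤ 0 := mul_nonpos_of_nonneg_of_nonpos hω.le (by linarith)
      linarith
    obtain ⟨k, hk⟩ := exists_nat_ge ((φ 0 + φ (0 + Real.pi / ω)) / (2 * Real.pi))
    set χ : ℝ → ℝ := fun t => -φ (t + Real.pi / ω) + k * (2 * Real.pi) with hχ
    have hχd : ∀ t, HasDerivAt χ (-Real.sin (χ t) + (-c) + A * Real.cos (ω * t)) t := by
      intro t
      have h1 : HasDerivAt (fun t : ℝ => t + Real.pi / ω) 1 t := (hasDerivAt_id t).add_const _
      have h2 := ((hφ (t + Real.pi / ω)).comp t h1).neg.add_const ((k:ℝ) * (2 * Real.pi))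
      refine h2.congr_deriv ?_
      have h3 : Real.sin (χ t) = -Real.sin (φ (t + Real.pi / ω)) := by
        simp only [hχ]
        rw [Real.sin_add_nat_mul_two_pi, Real.sin_neg]
      have h4 : ω * (t + Real.pi / ω) = ω * t + Real.pi := by field_simp
      rw [h3, h4, Real.cos_add_pi]
      ring
    have hle := comparison c (-c) hc0 (fun t => A * Real.cos (ω * t)) φ χ hφ hχd (by
      simp only [hχ]
      have hpi : 0 < 2 * Real.pi := Real.two_pi_pos
      have := (div_le_iff₀ hpi).1 hk
      linarith)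
    -- limits
    have hlimχ : Tendsto (fun t : ℝ => χ t / (ω * t)) atTop (𝓝 (-(r:ℝ))) := by
      have h1 : Tendsto (fun t : ℝ => t + Real.pi / ω) atTop atTop :=
        tendsto_atTop_add_const_right _ _ tendsto_id
      have h2 := hlim.comp h1
      have h3 : Tendsto (fun t : ℝ => (t + Real.pi / ω) / t) atTop (𝓝 1) := by
        have h4 : Tendsto (fun t : ℝ => 1 + (Real.pi / ω) / t) atTop (𝓝 (1 + 0)) :=
          tendsto_const_nhds.add (tendsto_const_nhds.div_atTop tendsto_id)
        rw [add_zero] at h4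
        refine h4.congr' ?_
        filter_upwards [eventually_gt_atTop 0] with t ht
        field_simp
      have h5 : Tendsto (fun t : ℝ => (k * (2 * Real.pi)) / (ω * t)) atTop (𝓝 0) :=
        tendsto_const_nhds.div_atTop (tendsto_id.const_mul_atTop hω)
      have h6 := ((h2.mul h3).neg).add h5
      rw [mul_one, add_zero] at h6
      refine h6.congr' ?_
      filter_upwards [eventually_gt_atTop 0] with t ht
      simp only [Function.comp, hχ]
      have h7 : 0 < t + Real.pi / ω := by positivity
      field_simp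
    have hfin : (r:ℝ) ≤ -(r:ℝ) := by
      refine le_of_tendsto_of_tendsto hlim hlimχ ?_
      filter_upwards [eventually_gt_atTop 0] with t ht
      have : 0 < ω * t := by positivity
      exact div_le_div_of_nonneg_right (hle t ht.le) this.le
    linarith

end Pool.Agent.S04009
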