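import Pool.Statements.S04321
import Pool.Agent.H84_zeta.Main

set_option autoImplicit false
open scoped ComplexOrder
open Pool Pool.MP_35c443_an

namespace Pool.Agent.S04321

/-- For every k ≥ 1 and every smooth real 2π-periodic a, Z_k(a) is real and ≥ 0. Here Z_k(a) sums N_j·â_{j1}⋯â_{j2k} over j in ℤ^{2k} with sum 0, and N_j = Σ_n (∣f(n)∣ − f(n)) with f(n) = ∏_i (n + j1+…+j_i). -/
theorem result :
    ∀ k : ℕ, 1 ≤ k → ∀ a : ℝ → ℝ, ContDiff ℝ (⊤ : ℕ∞) a → Function.Periodic a (2 * Real.pi) →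
      (0 : ℂ) ≤ ∑' j : {j : Fin (2 * k) → ℤ // ∑ i, j i = 0},
        (((∑ᶠ n : ℤ, (|∏ i : Fin (2 * k), (n + ∑ l ∈ Finset.Iio i, j.1 l)|
              - ∏ i : Fin (2 * k), (n + ∑ l ∈ Finset.Iio i, j.1 l))) : ℤ) : ℂ) *
          ∏ i : Fin (2 * k), ((1 / (2 * (Real.pi : ℂ))) *
            ∫ x in (0 : ℝ)..(2 * Real.pi),
              (a x : ℂ) * Complex.exp (-(Complex.I * ((j.1 i : ℤ) : ℂ) * (x : ℂ)))) := by
  intro k hk a _ _
  -- Fourier coefficients
  set ahat : ℤ → ℂ := fun n => (1 / (2 * (Real.pi : ℂ))) *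
            ∫ x in (0 : ℝ)..(2 * Real.pi),
              (a x : ℂ) * Complex.exp (-(Complex.I * (n : ℂ) * (x : ℂ))) with hahat
  have hconj : ∀ n : ℤ, ahat (-n) = star (ahat n) := by
    intro n
    simp only [hahat]
    rw [star_mul', Complex.star_def, intervalIntegral.integral_of_le (by positivity),
      intervalIntegral.integral_of_le (by positivity), ← integral_conj]
    congr 1
    · have h2 : (1 / (2 * (Real.pi : ℂ))) = (((1 / (2 * Real.pi) : ℝ)) : ℂ) := by push_cast; rfl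
      rw [h2, Complex.conj_ofReal]
    · congr 1
      ext x
      rw [map_mul, Complex.conj_ofReal, ← Complex.exp_conj]
      congr 2
      simp
  set f : {j : Fin (2 * k) → ℤ // ∑ i, j i = 0} → ℂ := fun j =>
    (((∑ᶠ n : ℤ, (|∏ i : Fin (2 * k), (n + ∑ l ∈ Finset.Iio i, j.1 l)|
              - ∏ i : Fin (2 * k), (n + ∑ l ∈ Finset.Iio i, j.1 l))) : ℤ) : ℂ) *
          ∏ i : Fin (2 * k), ahat (j.1 i) with hf
  change 0 ≤ ∑' j, f j
  by_cases hsum : Summable f
  swap
  · rw [tsum_eq_zero_of_not_summable hsum]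
  let F : ℕ → Finset {j : Fin (2 * k) → ℤ // ∑ i, j i = 0} := fun M =>
    (Fintype.piFinset (fun _ : Fin (2 * k) => Finset.Icc (-(M : ℤ)) M)).subtype _
  have hF : Filter.Tendsto F Filter.atTop Filter.atTop := by
    apply Filter.tendsto_atTop_finset_of_monotone
    · intro M M' hM j hj
      simp only [F, Finset.mem_subtype, Fintype.mem_piFinset, Finset.mem_Icc] at hj ⊢
      intro i
      have h1 : (M : ℤ) ≤ (M' : ℤ) := by exact_mod_cast hM
      exact ⟨by linarith [(hj i).1], by linarith [(hj i).2]⟩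
    · intro j
      refine ⟨∑ i, (j.1 i).natAbs, ?_⟩
      simp only [F, Finset.mem_subtype, Fintype.mem_piFinset, Finset.mem_Icc]
      intro i
      have h1 : (j.1 i).natAbs ≤ ∑ i, (j.1 i).natAbs :=
        Finset.single_le_sum (f := fun i => (j.1 i).natAbs) (fun _ _ => Nat.zero_le _)
          (Finset.mem_univ i)
      have h2 : |j.1 i| ≤ ((∑ i, (j.1 i).natAbs : ℕ) : ℤ) := by
        rw [Int.abs_eq_natAbs]; exact_mod_cast h1
      exact abs_le.1 h2
  have hlim : Filter.Tendsto (fun M => ∑ j ∈ F M, f j) Filter.atTop (nhds (∑' j, f j)) :=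
    hsum.hasSum.comp hF
  refine ge_of_tendsto' hlim fun M => ?_
  -- the finite sum
  set c : ℤ → ℂ := fun n => if n ∈ Finset.Icc (-(M : ℤ)) M then ahat n else 0 with hc
  have hc0 : ∀ n : ℤ, n ∉ Finset.Icc (-(M : ℤ)) M → c n = 0 := fun n hn => by
    simp only [hc]; rw [if_neg hn]
  have hcs : ∀ n : ℤ, c (-n) = star (c n) := by
    intro n
    simp only [hc]
    by_cases h : n ∈ Finset.Icc (-(M : ℤ)) M
    · rw [if_pos h, if_pos, hconj]
      rw [Finset.mem_Icc] at h ⊢
      exact ⟨by linarith [h.2], by linarith [h.1]⟩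
    · rw [if_neg h, if_neg, star_zero]
      intro h'
      apply h
      rw [Finset.mem_Icc] at h' ⊢
      exact ⟨by linarith [h'.2], by linarith [h'.1]⟩
  have h1 := Pool.Agent.H84_zeta.finite_nonneg k M hk c hc0 hcs
  refine h1.trans (le_of_eq ?_)
  rw [← Finset.sum_filter, ← Finset.sum_subtype_eq_sum_filter]
  refine Finset.sum_congr rfl fun j hj => ?_
  simp only [hf]
  congr 1
  refine Finset.prod_congr rfl fun i _ => ?_
  simp only [hc]
  rw [if_pos]
  have h2 : j ∈ F M := hj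
  simp only [F, Finset.mem_subtype, Fintype.mem_piFinset] at h2
  exact h2 i

end Pool.Agent.S04321
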