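import Pool.Statements.S04624
-- import your own Pool.Agent.* helpers here

set_option autoImplicit false
open MeasureTheory
open Pool Pool.MP_4d58d7_an

namespace Pool.Agent.S04624

noncomputable def sc : ℝ := Real.sqrt (101 / 99)

/-- the two sketching matrices -/
noncomputable def w1 : Fin 2 → Fin 2 → ℝ := ![![sc, 0], ![0, 1]]
noncomputable def w2 : Fin 2 → Fin 2 → ℝ := ![![1, 0], ![0, sc]]
noncomputable def w0 : Fin 2 → Fin 2 → ℝ := fun _ _ => 0

lemma ss : sc * sc = 101 / 99 :=
  Real.mul_self_sqrt (by norm_num)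

lemma ss' : sc ^ 2 = 101 / 99 := Real.sq_sqrt (by norm_num)

/-- the random sketching matrix -/
noncomputable def mu : Measure (Fin 2 → Fin 2 → ℝ) :=
  ENNReal.ofReal (99 / 200) • Measure.dirac w1 + (ENNReal.ofReal (99 / 200) • Measure.dirac w2
    + ENNReal.ofReal (1 / 100) • Measure.dirac w0)

lemma mu_apply (S : Set (Fin 2 → Fin 2 → ℝ)) :
    mu S = ENNReal.ofReal (99 / 200) * Measure.dirac w1 S
      + (ENNReal.ofReal (99 / 200) * Measure.dirac w2 S
      + ENNReal.ofReal (1 / 100) * Measure.dirac w0 S) := by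
  simp [mu]

instance : IsProbabilityMeasure mu := ⟨by
  rw [mu_apply]
  simp only [measure_univ, mul_one]
  rw [← ENNReal.ofReal_add (by norm_num) (by norm_num),
    ← ENNReal.ofReal_add (by norm_num) (by norm_num)]
  norm_num⟩

lemma mu_int (f : (Fin 2 → Fin 2 → ℝ) → ℝ) :
    ∫ ω, f ω ∂mu = 99 / 200 * f w1 + (99 / 200 * f w2 + 1 / 100 * f w0) := by
  have hi : ∀ w : Fin 2 → Fin 2 → ℝ, Integrable f (Measure.dirac w) := fun w =>
    integrable_dirac (by simp)
  unfold mu
  rw [integral_add_measure ((hi _).smul_measure ENNReal.ofReal_ne_top)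
    (((hi _).smul_measure ENNReal.ofReal_ne_top).add_measure
      ((hi _).smul_measure ENNReal.ofReal_ne_top)),
    integral_add_measure ((hi _).smul_measure ENNReal.ofReal_ne_top)
      ((hi _).smul_measure ENNReal.ofReal_ne_top)]
  simp only [integral_smul_measure, integral_dirac, smul_eq_mul]
  rw [ENNReal.toReal_ofReal (by norm_num), ENNReal.toReal_ofReal (by norm_num)]

/-- The negation of the preceding statement: There are constants C and c₀>0 such that, for any isotropic n×k random matrix Ω that is a dimension-d OSI with injectivity 1−ε and failure 0.01, sketch-and-solve has error at most (1+Cε)·OPT with probability at least c₀. -/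
theorem result :
    ¬ (∃ C : ℝ, ∃ c₀ : ℝ, 0 < c₀ ∧
    ∀ (n d p k : ℕ), 0 < n → 0 < d → 0 < p → 0 < k →
    ∀ ε : ℝ, 0 < ε → ε < 1 →
    ∀ (A : Matrix (Fin n) (Fin d) ℝ), A.rank = d →
    ∀ (B : Matrix (Fin n) (Fin p) ℝ),
    ∀ (μ : Measure (Fin n → Fin k → ℝ)) [IsProbabilityMeasure μ],
      (∀ x : Fin n → ℝ, ∫ ω, (∑ j, (∑ i, ω i j * x i) ^ 2) ∂μ = ∑ i, x i ^ 2) →
      (∀ V : Submodule ℝ (Fin n → ℝ), Module.finrank ℝ V = d →
         ENNReal.ofReal (99 / 100) ≤
           μ {ω | ∀ x ∈ V, (1 - ε) * ∑ i, x i ^ 2 ≤ ∑ j, (∑ i, ω i j * x i) ^ 2}) →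
      ENNReal.ofReal c₀ ≤ μ {ω | ∀ G : Matrix (Fin d) (Fin k) ℝ,
          (Matrix.transpose (Matrix.of ω) * A) * G * (Matrix.transpose (Matrix.of ω) * A)
              = Matrix.transpose (Matrix.of ω) * A →
          G * (Matrix.transpose (Matrix.of ω) * A) * G = G →
          Matrix.transpose ((Matrix.transpose (Matrix.of ω) * A) * G)
              = (Matrix.transpose (Matrix.of ω) * A) * G →
          Matrix.transpose (G * (Matrix.transpose (Matrix.of ω) * A))
              = G * (Matrix.transpose (Matrix.of ω) * A) →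
          ∀ X : Matrix (Fin d) (Fin p) ℝ,
            Real.sqrt (∑ i, ∑ j, ((A * (G * Matrix.transpose (Matrix.of ω) * B) - B) i j) ^ 2) ≤
              (1 + C * ε) * Real.sqrt (∑ i, ∑ j, ((A * X - B) i j) ^ 2)}) := by
  rintro ⟨C, c₀, hc₀, H⟩
  set ε : ℝ := 1 / (1000000 * (|C| + 1)) with hε
  have hC1 : 0 < |C| + 1 := by positivity
  have hε0 : 0 < ε := by positivity
  have hε1 : ε < 1 := by
    rw [hε, div_lt_one (by positivity)]
    nlinarith [abs_nonneg C]
  have hCε : |C * ε| ≤ 1 / 1000000 := by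
    rw [abs_mul, abs_of_pos hε0, hε]
    rw [mul_one_div, div_le_div_iff₀ (by positivity) (by norm_num)]
    nlinarith [abs_nonneg C]
  have hCε' := abs_le.1 hCε
  -- the two numerical facts
  have key : ∀ q : ℝ, 20002 / 10000 ≤ q → ¬ Real.sqrt q ≤ (1 + C * ε) * Real.sqrt 2 := by
    intro q hq hle
    have h1 : Real.sqrt q ^ 2 = q := Real.sq_sqrt (by linarith)
    have h2 : Real.sqrt 2 ^ 2 = 2 := Real.sq_sqrt (by norm_num)
    have h3 : 0 ≤ Real.sqrt q := Real.sqrt_nonneg _
    have h4 : 0 ≤ Real.sqrt 2 := Real.sqrt_nonneg _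
    have h5 : Real.sqrt q ^ 2 ≤ ((1 + C * ε) * Real.sqrt 2) ^ 2 := by gcongr
    rw [mul_pow, h1, h2] at h5
    have h6 : (1 + C * ε) ^ 2 ≤ (1 + 1 / 1000000) ^ 2 := by
      apply pow_le_pow_left₀ (by linarith)
      linarith
    norm_num at h6
    linarith
  let A : Matrix (Fin 2) (Fin 1) ℝ := fun _ _ => 1
  let B : Matrix (Fin 2) (Fin 1) ℝ := ![![2], ![0]]
  have hA : A.rank = 1 := by
    have h1 : A.rank ≤ 1 := by simpa using A.rank_le_card_width
    have h2 : A.rank ≠ 0 := by
      intro h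
      have h3 : LinearMap.range A.mulVecLin = ⊥ := Submodule.finrank_eq_zero.1 h
      have h4 : A.mulVecLin = 0 := LinearMap.range_eq_bot.1 h3
      have h5 : A.mulVecLin (fun _ => 1) 0 = 0 := by rw [h4]; rfl
      simp [A, Matrix.mulVecLin_apply, Matrix.mulVec, dotProduct] at h5
    omega
  have h := H 2 1 1 2 (by norm_num) (by norm_num) (by norm_num) (by norm_num) ε hε0 hε1 A hA B mu
    (by
      intro x
      rw [mu_int]
      simp only [Fin.sum_univ_two, w1, w2, w0, Matrix.cons_val_zero, Matrix.cons_val_one]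
      have := ss'
      nlinarith [this]) (by
      intro V _
      rw [mu_apply]
      have h1 : w1 ∈ {ω : Fin 2 → Fin 2 → ℝ | ∀ x ∈ V, (1 - ε) * ∑ i, x i ^ 2 ≤
          ∑ j, (∑ i, ω i j * x i) ^ 2} := by
        intro x _
        simp only [Fin.sum_univ_two, w1, Matrix.cons_val_zero, Matrix.cons_val_one]
        have := ss'
        nlinarith [sq_nonneg (x 0), sq_nonneg (x 1), mul_nonneg hε0.le (sq_nonneg (x 0)),
          mul_nonneg hε0.le (sq_nonneg (x 1))]
      have h2 : w2 ∈ {ω : Fin 2 → Fin 2 → ℝ | ∀ x ∈ V, (1 - ε) * ∑ i, x i ^ 2 ≤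
          ∑ j, (∑ i, ω i j * x i) ^ 2} := by
        intro x _
        simp only [Fin.sum_univ_two, w2, Matrix.cons_val_zero, Matrix.cons_val_one]
        have := ss'
        nlinarith [sq_nonneg (x 0), sq_nonneg (x 1), mul_nonneg hε0.le (sq_nonneg (x 0)),
          mul_nonneg hε0.le (sq_nonneg (x 1))]
      rw [Measure.dirac_apply_of_mem h1, Measure.dirac_apply_of_mem h2, mul_one]
      calc ENNReal.ofReal (99 / 100) = ENNReal.ofReal (99 / 200) + ENNReal.ofReal (99 / 200) := by
            rw [← ENNReal.ofReal_add (by norm_num) (by norm_num)]; norm_num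
        _ ≤ _ := by gcongr; exact le_self_add)
  -- no atom is good
  have hX : Real.sqrt (∑ i, ∑ j, ((A * (1 : Matrix (Fin 1) (Fin 1) ℝ) - B) i j) ^ 2)
      = Real.sqrt 2 := by
    congr 1
    simp [Fin.sum_univ_two, A, B]
    norm_num
  set Sg : Set (Fin 2 → Fin 2 → ℝ) := {ω | ∀ G : Matrix (Fin 1) (Fin 2) ℝ,
          (Matrix.transpose (Matrix.of ω) * A) * G * (Matrix.transpose (Matrix.of ω) * A)
              = Matrix.transpose (Matrix.of ω) * A →
          G * (Matrix.transpose (Matrix.of ω) * A) * G = G →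
          Matrix.transpose ((Matrix.transpose (Matrix.of ω) * A) * G)
              = (Matrix.transpose (Matrix.of ω) * A) * G →
          Matrix.transpose (G * (Matrix.transpose (Matrix.of ω) * A))
              = G * (Matrix.transpose (Matrix.of ω) * A) →
          ∀ X : Matrix (Fin 1) (Fin 1) ℝ,
            Real.sqrt (∑ i, ∑ j, ((A * (G * Matrix.transpose (Matrix.of ω) * B) - B) i j) ^ 2) ≤
              (1 + C * ε) * Real.sqrt (∑ i, ∑ j, ((A * X - B) i j) ^ 2)} with hSg
  have hs := ss
  have hs2 := ss'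
  have hs3 : sc * sc * sc = 101 / 99 * sc := by rw [hs]
  have n0 : w0 ∉ Sg := by
    intro hmem
    have h1 := hmem 0 (by ext i j; simp [w0, Matrix.mul_apply]) (by simp) (by simp) (by simp)
      (1 : Matrix (Fin 1) (Fin 1) ℝ)
    rw [hX] at h1
    refine key _ ?_ h1
    simp [Fin.sum_univ_two, B]
    norm_num
  have n1 : w1 ∉ Sg := by
    intro hmem
    have h1 := hmem ![![sc * (99 / 200), 99 / 200]] ?_ ?_ ?_ ?_
      (1 : Matrix (Fin 1) (Fin 1) ℝ)
    · rw [hX] at h1
      refine key _ ?_ h1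
      simp [Fin.sum_univ_two, A, B, w1, Matrix.mul_apply]
      have e1 : sc * (99 / 200) * sc = 101 / 200 := by linear_combination (99 / 200) * hs
      have e2 : sc * (sc * (99 / 200)) = 101 / 200 := by linear_combination (99 / 200) * hs
      nlinarith [hs, hs2, e1, e2]
    · ext i j
      fin_cases i <;> fin_cases j <;>
        simp [Fin.sum_univ_two, A, w1, Matrix.mul_apply] <;> nlinarith [hs, hs2, hs3]
    · ext i j
      fin_cases i <;> fin_cases j <;>
        simp [Fin.sum_univ_two, A, w1, Matrix.mul_apply] <;> nlinarith [hs, hs2, hs3]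
    · ext i j
      fin_cases i <;> fin_cases j <;>
        simp [Fin.sum_univ_two, A, w1, Matrix.mul_apply]
    · ext i j
      fin_cases i <;> fin_cases j <;>
        simp [Fin.sum_univ_two, A, w1, Matrix.mul_apply]
  have n2 : w2 ∉ Sg := by
    intro hmem
    have h1 := hmem ![![99 / 200, sc * (99 / 200)]] ?_ ?_ ?_ ?_
      (1 : Matrix (Fin 1) (Fin 1) ℝ)
    · rw [hX] at h1
      refine key _ ?_ h1
      simp [Fin.sum_univ_two, A, B, w2, Matrix.mul_apply]
      have e1 : sc * (99 / 200) * sc = 101 / 200 := by linear_combination (99 / 200) * hs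
      have e2 : sc * (sc * (99 / 200)) = 101 / 200 := by linear_combination (99 / 200) * hs
      nlinarith [hs, hs2, e1, e2]
    · ext i j
      fin_cases i <;> fin_cases j <;>
        simp [Fin.sum_univ_two, A, w2, Matrix.mul_apply] <;> nlinarith [hs, hs2, hs3]
    · ext i j
      fin_cases i <;> fin_cases j <;>
        simp [Fin.sum_univ_two, A, w2, Matrix.mul_apply] <;> nlinarith [hs, hs2, hs3]
    · ext i j
      fin_cases i <;> fin_cases j <;>
        simp [Fin.sum_univ_two, A, w2, Matrix.mul_apply]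
    · ext i j
      fin_cases i <;> fin_cases j <;>
        simp [Fin.sum_univ_two, A, w2, Matrix.mul_apply]
  have hzero : mu Sg = 0 := by
    rw [mu_apply, Measure.dirac_apply, Measure.dirac_apply, Measure.dirac_apply,
      Set.indicator_of_notMem n0, Set.indicator_of_notMem n1, Set.indicator_of_notMem n2]
    simp
  change ENNReal.ofReal c₀ ≤ mu Sg at h
  rw [hzero] at h
  have h9 : 0 < ENNReal.ofReal c₀ := ENNReal.ofReal_pos.2 hc₀
  exact absurd h (not_le.2 h9)

end Pool.Agent.S04624
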