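import Pool.Statements.S04652
import Pool.Agent.H84_hrt.Asm2
import Pool.Agent.H84_hrt.TaskD
import Pool.Agent.H84_hrt.Cover

set_option autoImplicit false
open Pool Pool.MP_505f06_an

namespace Pool.Agent.S04652

/-- The negation of the preceding statement: For every n and every nonzero square-integrable g on ℝⁿ: if a finite linear combination of distinct time-frequency shifts e^{2πi⟨ω,t⟩} g(t−x) vanishes almost everywhere, then all its coefficients are zero. -/
theorem result :
    ¬ (∀ n : ℕ, ∀ g : (Fin n → ℝ) → ℂ,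
      MeasureTheory.MemLp g 2 MeasureTheory.volume →
      ¬ (g =ᵐ[MeasureTheory.volume] 0) →
      ∀ (s : Finset ((Fin n → ℝ) × (Fin n → ℝ))) (c : (Fin n → ℝ) × (Fin n → ℝ) → ℂ),
        (fun t : Fin n → ℝ =>
            ∑ p ∈ s, c p *
              (Complex.exp (2 * (Real.pi : ℂ) * Complex.I * ((∑ i, p.2 i * t i : ℝ) : ℂ)) *
                g (t - p.1))) =ᵐ[MeasureTheory.volume] 0 →
        ∀ p ∈ s, c p = 0) := by
  obtain ⟨E, hE⟩ : ∃ E : ℕ, E = 1002 := ⟨_, rfl⟩
  exact Pool.Agent.H84_hrt.main_thm hE 10000000 Pool.Agent.H84_hrt.coverage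
    (fun w hw h0 h1 σ hσ => Pool.Agent.H84_hrt.noise E (by omega) w hw h0 h1 σ hσ)

end Pool.Agent.S04652
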