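import Pool.Statements.S04693
import Pool.Agent.Helper412_PiBase.Core
import Pool.Agent.R270.WeakNhd

set_option autoImplicit false
open Pool Pool.MP_53fbd4_an

namespace Pool.Agent.S04693

open Pool.Agent.Helper412_PiBase Filter Topology

/-- The basic sets: conditions on finitely many coordinates with rational data. -/
def basicSet {X : Type} [NormedAddCommGroup X] [NormedSpace ℝ X] {e : ℕ → X} (hb : IsB e)
    (i : ℕ × (ℕ →₀ ℚ) × ℚ) : Set (WeakSpace ℝ X) :=
  {w | ∀ n ∈ Finset.range i.1, |co hb ((toWeakSpace ℝ X).symm w) n - (i.2.1 n : ℝ)| < (i.2.2 : ℝ)}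

theorem isOpen_basicSet {X : Type} [NormedAddCommGroup X] [NormedSpace ℝ X] {e : ℕ → X}
    (hu : OneUnc e) (hb : IsB e) (i : ℕ × (ℕ →₀ ℚ) × ℚ) : IsOpen (basicSet hb i) := by
  have : basicSet hb i = ⋂ n ∈ Finset.range i.1,
      {w : WeakSpace ℝ X | |co hb ((toWeakSpace ℝ X).symm w) n - (i.2.1 n : ℝ)| < (i.2.2 : ℝ)} := by
    ext w
    simp [basicSet]
  rw [this]
  refine isOpen_biInter_finset fun n _ => ?_
  have h1 := Pool.Agent.R270.WeakNhd.continuous_eval (𝕜 := ℝ) (coord hu hb n)
  exact isOpen_lt ((h1.sub continuous_const).abs) continuous_const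

/-- Each weakly open set which meets the ball contains the trace of a basic set. -/
theorem exists_basicSet {X : Type} [NormedAddCommGroup X] [NormedSpace ℝ X] {e : ℕ → X}
    (hu : OneUnc e) (hb : IsB e) {V : Set (WeakSpace ℝ X)} (hV : IsOpen V) {x0 : X}
    (hx0 : ‖x0‖ ≤ 1) (hxV : toWeakSpace ℝ X x0 ∈ V) :
    ∃ i : ℕ × (ℕ →₀ ℚ) × ℚ,
      (basicSet hb i ∩ (toWeakSpace ℝ X) '' Metric.closedBall (0 : X) 1).Nonempty ∧
      basicSet hb i ∩ (toWeakSpace ℝ X) '' Metric.closedBall (0 : X) 1 ⊆ V := by
  classical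
  obtain ⟨Fs, ε, hε, hVsub⟩ := Pool.Agent.R270.WeakNhd.exists_basic V hV x0 hxV
  obtain ⟨s, a, N, δ, hδ, hsN, ha0, hv1, hvx, hmain⟩ := core hu hb Fs hx0 hε
  -- a smaller size
  set W : ℝ := ∑ n ∈ Finset.range N, ww e Fs n with hW
  have hW0 : 0 ≤ W := Finset.sum_nonneg fun n _ => ww_nonneg _ _ _
  have hη0 : 0 < min δ (ε / (8 * (1 + W))) := lt_min hδ (by positivity)
  obtain ⟨q, hq0, hq⟩ := exists_rat_btwn (half_pos hη0)
  -- rational coordinates
  have hch : ∀ n : ℕ, ∃ r : ℚ, |a n - (r : ℝ)| < q := by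
    intro n
    obtain ⟨r, hr1, hr2⟩ := exists_rat_btwn (show a n - (q : ℝ) < a n by linarith)
    refine ⟨r, ?_⟩
    rw [abs_lt]
    constructor <;> linarith
  choose r0 hr0 using hch
  let r : ℕ →₀ ℚ := Finsupp.onFinset (Finset.range N) (fun n => if n ∈ Finset.range N then r0 n else 0)
    (fun n hn => by
      by_contra h
      exact hn (if_neg h))
  have hr : ∀ n ∈ Finset.range N, (r n : ℝ) = r0 n := by
    intro n hn
    show (((if n ∈ Finset.range N then r0 n else 0) : ℚ) : ℝ) = r0 n
    rw [if_pos hn]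
  have hcov : ∀ n, co hb (vv e s a) n = a n := by
    intro n
    have h1 : HasSum (fun n => a n • e n) (vv e s a) := by
      refine hasSum_sum_of_ne_finset_zero fun n hn => ?_
      rw [ha0 n hn, zero_smul]
    exact (congrFun (co_unique hb h1) n).symm
  refine ⟨(N, r, q), ⟨toWeakSpace ℝ X (vv e s a), ?_, ⟨vv e s a, ?_, rfl⟩⟩, ?_⟩
  · intro n hn
    show |co hb ((toWeakSpace ℝ X).symm (toWeakSpace ℝ X (vv e s a))) n - (r n : ℝ)| < (q : ℝ)
    rw [LinearEquiv.symm_apply_apply, hcov, hr n hn]
    exact hr0 n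
  · rw [mem_closedBall_zero_iff]
    exact hv1
  · rintro w ⟨hw, ⟨y, hy, rfl⟩⟩
    rw [mem_closedBall_zero_iff] at hy
    have hclose : ∀ n, n < N → |co hb y n - a n| < min δ (ε / (8 * (1 + W))) := by
      intro n hn
      have hn' : n ∈ Finset.range N := Finset.mem_range.2 hn
      have h1 := hw n hn'
      change |co hb ((toWeakSpace ℝ X).symm (toWeakSpace ℝ X y)) n - (r n : ℝ)| < (q : ℝ) at h1
      rw [LinearEquiv.symm_apply_apply, hr n hn'] at h1
      have h2 := hr0 n
      have h3 : |co hb y n - a n| ≤ |co hb y n - (r0 n : ℝ)| + |a n - (r0 n : ℝ)| := by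
        have h4 := abs_sub_le (co hb y n) (r0 n : ℝ) (a n)
        rwa [abs_sub_comm (r0 n : ℝ) (a n)] at h4
      linarith
    have htail := hmain y hy fun n hn => (hclose n hn).trans_le (min_le_left _ _)
    refine hVsub y fun f hf => ?_
    -- distance to the finitely supported vector
    have hfin : |f y - f (vv e s a)| ≤ 3 * ε / 8 := by
      have h1 : Tendsto (fun t : Finset ℕ => |f (vv e t (co hb y)) - f (vv e s a)|) atTop
          (𝓝 |f y - f (vv e s a)|) :=
        (((f.continuous.tendsto _).comp (co_hasSum hb y)).sub_const _).abs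
      refine le_of_tendsto h1 ?_
      filter_upwards [eventually_ge_atTop (Finset.range N)] with t ht
      have h2 : vv e t (co hb y) =
          vv e (Finset.range N) (co hb y) + vv e (t \ Finset.range N) (co hb y) := by
        unfold vv
        rw [add_comm, Finset.sum_sdiff ht]
      have h3 : vv e s a = vv e (Finset.range N) a := by
        unfold vv
        exact Finset.sum_subset hsN fun n _ hn => by rw [ha0 n hn, zero_smul]
      have h4 : f (vv e t (co hb y)) - f (vv e s a) =
          f (vv e (Finset.range N) (fun n => co hb y n - a n)) +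
            f (vv e (t \ Finset.range N) (co hb y)) := by
        rw [h2, h3, map_add]
        have h5 : vv e (Finset.range N) (fun n => co hb y n - a n) =
            vv e (Finset.range N) (co hb y) - vv e (Finset.range N) a := by
          unfold vv
          rw [← Finset.sum_sub_distrib]
          exact Finset.sum_congr rfl fun n _ => by rw [sub_smul]
        rw [h5, map_sub]
        ring
      rw [h4]
      have h5 : |f (vv e (Finset.range N) (fun n => co hb y n - a n))| ≤ ε / 8 := by
        refine (abs_apply_vv_le e hf _ _).trans ?_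
        unfold SS
        calc ∑ n ∈ Finset.range N, ww e Fs n * |co hb y n - a n|
            ≤ ∑ n ∈ Finset.range N, ww e Fs n * (ε / (8 * (1 + W))) := by
              refine Finset.sum_le_sum fun n hn => ?_
              exact mul_le_mul_of_nonneg_left
                ((hclose n (Finset.mem_range.1 hn)).le.trans (min_le_right _ _)) (ww_nonneg _ _ _)
          _ = W * (ε / (8 * (1 + W))) := by rw [← Finset.sum_mul]
          _ ≤ ε / 8 := by
              rw [mul_div_assoc', div_le_div_iff₀ (by positivity) (by positivity)]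
              nlinarith
      have h6 : |f (vv e (t \ Finset.range N) (co hb y))| ≤ ε / 4 :=
        (abs_apply_vv_le e hf _ _).trans (htail _ Finset.disjoint_sdiff)
      calc _ ≤ |f (vv e (Finset.range N) (fun n => co hb y n - a n))| +
            |f (vv e (t \ Finset.range N) (co hb y))| := abs_add_le _ _
        _ ≤ 3 * ε / 8 := by linarith
    have h7 := hvx f hf
    rw [map_sub, Real.norm_eq_abs]
    calc |f y - f x0| ≤ |f y - f (vv e s a)| + |f (vv e s a) - f x0| := abs_sub_le _ _ _
      _ < ε := by linarith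

/-- For every real Banach space with a 1-unconditional basis, the closed unit ball in the relative weak topology has a countable family of nonempty relatively open sets such that every nonempty relatively open subset of the ball contains one of them. -/
theorem result :
    ∀ (X : Type) [NormedAddCommGroup X] [NormedSpace ℝ X] [CompleteSpace X] (e : ℕ → X),
      (∀ x : X, ∃! a : ℕ → ℝ, HasSum (fun n => a n • e n) x) →
      (∀ (s : Finset ℕ) (a ε : ℕ → ℝ), (∀ n, ε n = 1 ∨ ε n = -1) →
          ‖∑ n ∈ s, (ε n * a n) • e n‖ ≤ ‖∑ n ∈ s, a n • e n‖) →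
      ∃ U : ℕ → Set (WeakSpace ℝ X),
        (∀ n, IsOpen (U n) ∧
            (U n ∩ (toWeakSpace ℝ X) '' Metric.closedBall (0 : X) 1).Nonempty) ∧
        ∀ V : Set (WeakSpace ℝ X), IsOpen V →
          (V ∩ (toWeakSpace ℝ X) '' Metric.closedBall (0 : X) 1).Nonempty →
            ∃ n, U n ∩ (toWeakSpace ℝ X) '' Metric.closedBall (0 : X) 1 ⊆ V := by
  intro X _ _ _ e hb hu
  classical
  obtain ⟨φ, hφ⟩ := exists_surjective_nat (ℕ × (ℕ →₀ ℚ) × ℚ)
  let U : ℕ → Set (WeakSpace ℝ X) := fun n =>
    if (basicSet hb (φ n) ∩ (toWeakSpace ℝ X) '' Metric.closedBall (0 : X) 1).Nonempty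
      then basicSet hb (φ n) else Set.univ
  refine ⟨U, fun n => ?_, fun V hV hne => ?_⟩
  · by_cases h : (basicSet hb (φ n) ∩ (toWeakSpace ℝ X) '' Metric.closedBall (0 : X) 1).Nonempty
    · simp only [U]
      rw [if_pos h]
      exact ⟨isOpen_basicSet hu hb _, h⟩
    · simp only [U]
      rw [if_neg h]
      refine ⟨isOpen_univ, ⟨toWeakSpace ℝ X 0, Set.mem_univ _, ⟨0, ?_, rfl⟩⟩⟩
      simp
  · obtain ⟨w, hwV, ⟨x0, hx0, rfl⟩⟩ := hne
    rw [mem_closedBall_zero_iff] at hx0
    obtain ⟨i, hi1, hi2⟩ := exists_basicSet hu hb hV hx0 hwV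
    obtain ⟨n, rfl⟩ := hφ i
    refine ⟨n, ?_⟩
    simp only [U]
    rw [if_pos hi1]
    exact hi2

end Pool.Agent.S04693
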