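import Pool.Statements.S04778
import Pool.Agent.Helper826_Riesz.Final

set_option autoImplicit false
open MeasureTheory Complex Real
open scoped SchwartzMap
open Pool Pool.MP_5c95f3_an

namespace Pool.Agent.S04778

/-- The negation of the preceding statement: For all n≥1, 0<p<1 and Schwartz φ with integral 1, there are c,C>0 so that every L² function f with finite H^p maximal quasi-norm satisfies c·‖f‖_{H^p} ≤ ‖f‖_p + Σ‖R_j f‖_p ≤ C·‖f‖_{H^p}, with R_j the Riesz transforms. -/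
theorem result :
    ¬ (∀ n : ℕ, 1 ≤ n → ∀ p : ℝ, 0 < p → p < 1 →
  ∀ φ : 𝓢(EuclideanSpace ℝ (Fin n), ℂ), ∫ x, φ x = 1 →
  ∃ c C : ℝ, 0 < c ∧ 0 < C ∧
  ∀ f : EuclideanSpace ℝ (Fin n) → ℂ, MemLp f 2 →
  eLpNorm (fun x : EuclideanSpace ℝ (Fin n) => ⨆ (t : ℝ) (_ : 0 < t),
      ‖∫ y, (((t ^ n)⁻¹ : ℝ) : ℂ) * φ (t⁻¹ • (x - y)) * f y‖ₑ) (ENNReal.ofReal p) volume < ⊤ →
  ∀ R : Fin n → EuclideanSpace ℝ (Fin n) → ℂ,
    (∀ j : Fin n, MemLp (R j) 2 ∧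
      ∀ ψ : 𝓢(EuclideanSpace ℝ (Fin n), ℂ),
        ∫ x, R j x * (∫ ξ, Complex.exp (-(2 * (π : ℂ) * I * (inner ℝ x ξ : ℂ))) * ψ ξ)
          = ∫ x, f x * (∫ ξ, Complex.exp (-(2 * (π : ℂ) * I * (inner ℝ x ξ : ℂ)))
              * ((-I * (inner ℝ ξ (EuclideanSpace.single j (1 : ℝ)) : ℂ) / (‖ξ‖ : ℂ)) * ψ ξ))) →
    ENNReal.ofReal c * eLpNorm (fun x : EuclideanSpace ℝ (Fin n) => ⨆ (t : ℝ) (_ : 0 < t),
        ‖∫ y, (((t ^ n)⁻¹ : ℝ) : ℂ) * φ (t⁻¹ • (x - y)) * f y‖ₑ) (ENNReal.ofReal p) volume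
      ≤ eLpNorm f (ENNReal.ofReal p) volume + ∑ j, eLpNorm (R j) (ENNReal.ofReal p) volume
    ∧ eLpNorm f (ENNReal.ofReal p) volume + ∑ j, eLpNorm (R j) (ENNReal.ofReal p) volume
      ≤ ENNReal.ofReal C * eLpNorm (fun x : EuclideanSpace ℝ (Fin n) => ⨆ (t : ℝ) (_ : 0 < t),
        ‖∫ y, (((t ^ n)⁻¹ : ℝ) : ℂ) * φ (t⁻¹ • (x - y)) * f y‖ₑ) (ENNReal.ofReal p) volume) := by
  intro H
  have hp0 := Pool.Agent.Helper826_Riesz.p₀_pos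
  have hp2 := Pool.Agent.Helper826_Riesz.p₀_lt
  obtain ⟨φ, hφ, hfail⟩ := Pool.Agent.Helper826_Riesz.estimate_fails
    (p := Pool.Agent.Helper826_Riesz.p₀ / 2) (by linarith) (by linarith)
  obtain ⟨c, C, hc, _, hH⟩ := H 2 (by norm_num) (Pool.Agent.Helper826_Riesz.p₀ / 2)
    (by linarith) (by linarith) φ hφ
  obtain ⟨f, Rf, hfin, hR, hlt⟩ := hfail c hc
  have h := (hH f (f.memLp 2) hfin (fun j => Rf j) (fun j => ⟨(Rf j).memLp 2, hR j⟩)).1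
  exact absurd hlt (not_lt.2 h)

end Pool.Agent.S04778
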