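import Pool.Statements.S04892
import Pool.Agent.Helper188_CS.Asm
import Pool.Agent.Helper188_CS.Transport
import Pool.Agent.Helper188_CS.J1
import Pool.Agent.Helper188_CS.J2
import Pool.Agent.Helper188_CS.J3
import Pool.Agent.Helper188_CS.J4
import Pool.Agent.Helper188_CS.J5
import Pool.Agent.Helper188_CS.J6
import Pool.Agent.Helper188_CS.J7
import Pool.Agent.Helper188_CS.J8
import Pool.Agent.Helper188_CS.J9
import Pool.Agent.Helper188_CS.J10
import Pool.Agent.Helper188_CS.J11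
import Pool.Agent.Helper188_CS.J12
import Pool.Agent.Helper188_CS.J13

set_option autoImplicit false
open Pool Pool.MP_65ff7c_an

namespace Pool.Agent.S04892

open Pool.Agent.Helper188_CS Pool.Agent.TH703.Cone in
theorem exists_not_cl (c : ℝ) (hc : 0 < c) (hc1 : c ≤ 1) : ∃ b : ℕ, ¬ Cl (W b) c := by
  have h7a := t7a
  have h7b := t7b h7a
  have hM := m12 h7a h7b
  have hB := bary (fun b => bb (W b)) hM.1 hM.2
  have h6 := t6k hB
  have h4 : S_T4 := t4d h7a
    (fun b ε κ h1 h2 h3 h4 h5 h6 u hu σ hσ => t4a κ h1 h2 h3 h4 h5 h6 u hu σ hσ)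
    (fun b ε r₀ R₁ h1 h2 h3 h4 => t4b h1 h2 h3 h4)
    (fun b ε r₀ R₁ σ u h1 h2 h3 h4 h5 h6 h7 h8 => t4c h7a h1 h2 h3 h4 h5 h6 h7 h8)
  exact not_cl (t3 h7a) h4 (t5 (fun b => t1 (W b))) h6 h7b (fun b hb => num b hb) hc hc1

open Pool.Agent.Helper188_CS Pool.Agent.TH703.Cone MeasureTheory in
theorem cl_mono {E : Type} [NormedAddCommGroup E] [InnerProductSpace ℝ E] [FiniteDimensional ℝ E]
    [MeasurableSpace E] [BorelSpace E] {c c' : ℝ} (h : c' ≤ c) (H : Cl E c) : Cl E c' := by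
  intro Ω A h1 h2 h3 h4 h5 h6 h7 h8 h9
  obtain ⟨Γ, g1, g2, g3⟩ := H Ω A h1 h2 h3 h4 h5 h6 h7 h8 h9
  exact ⟨Γ, g1, g2, le_trans (mul_le_mul_left (ENNReal.ofReal_le_ofReal h) _) g3⟩

open Pool.Agent.Helper188_CS Pool.Agent.TH703.Cone MeasureTheory in
theorem finrank_W (b : ℕ) : Module.finrank ℝ (W b) = b + 2 := by
  have h : Module.finrank ℝ (W b) = Module.finrank ℝ (ℂ × B b) :=
    (WithLp.linearEquiv 2 ℝ (ℂ × B b)).finrank_eq
  rw [h, Module.finrank_prod, Complex.finrank_real_complex]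
  simp [B]
  omega

open Pool.Agent.Helper188_CS Pool.Agent.TH703.Cone MeasureTheory in
theorem equiv_W (b : ℕ) : Nonempty (W b ≃ₗᵢ[ℝ] EuclideanSpace ℝ (Fin (b + 2))) :=
  ⟨((stdOrthonormalBasis ℝ (W b)).reindex (finCongr (finrank_W b))).repr⟩

/-- The negation of the preceding statement: Some absolute c>0 works in every dimension: if Ω is bounded open convex origin-symmetric and E is a half-volume relative-perimeter minimizer in Ω, some convex cone Γ has Ω∩Γ in E and Ω∩(−Γ) outside E (up to null sets), with ∣Ω∩Γ∣ ≥ c∣Ω∣. -/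
theorem result :
    ¬ (∃ c : ℝ, 0 < c ∧
      ∀ (n : ℕ) (Ω E : Set (EuclideanSpace ℝ (Fin n))),
        IsOpen Ω → Ω.Nonempty → Convex ℝ Ω → Bornology.IsBounded Ω →
        (∀ x ∈ Ω, -x ∈ Ω) →
        MeasurableSet E → E ⊆ Ω →
        MeasureTheory.volume E = MeasureTheory.volume Ω / 2 →
        (∀ F : Set (EuclideanSpace ℝ (Fin n)), MeasurableSet F → F ⊆ Ω →
          MeasureTheory.volume F = MeasureTheory.volume E →
          ∀ φ : EuclideanSpace ℝ (Fin n) → EuclideanSpace ℝ (Fin n),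
            ContDiff ℝ 1 φ → HasCompactSupport φ → tsupport φ ⊆ Ω →
            (∀ x, ‖φ x‖ ≤ 1) →
            ∀ ε : ℝ, 0 < ε →
              ∃ ψ : EuclideanSpace ℝ (Fin n) → EuclideanSpace ℝ (Fin n),
                ContDiff ℝ 1 ψ ∧ HasCompactSupport ψ ∧ tsupport ψ ⊆ Ω ∧
                (∀ x, ‖ψ x‖ ≤ 1) ∧
                (∫ x in E, LinearMap.trace ℝ (EuclideanSpace ℝ (Fin n))
                    (fderiv ℝ φ x).toLinearMap) ≤
                  (∫ x in F, LinearMap.trace ℝ (EuclideanSpace ℝ (Fin n))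
                    (fderiv ℝ ψ x).toLinearMap) + ε) →
        ∃ Γ : ConvexCone ℝ (EuclideanSpace ℝ (Fin n)),
          MeasureTheory.volume ((Ω ∩ (Γ : Set (EuclideanSpace ℝ (Fin n)))) \ E) = 0 ∧
          MeasureTheory.volume ((Ω ∩ {x | -x ∈ Γ}) ∩ E) = 0 ∧
          ENNReal.ofReal c * MeasureTheory.volume Ω ≤
            MeasureTheory.volume (Ω ∩ (Γ : Set (EuclideanSpace ℝ (Fin n))))) := by
  rintro ⟨c, hc, H⟩
  have hc0 : 0 < min c 1 := lt_min hc one_pos
  obtain ⟨b, hb⟩ := exists_not_cl (min c 1) hc0 (min_le_right _ _)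
  obtain ⟨L⟩ := equiv_W b
  exact hb (Pool.Agent.Helper188_CS.cl_of_equiv L (cl_mono (min_le_left _ _) (H (b + 2))))

end Pool.Agent.S04892
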