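import Pool.Statements.S05079
import Mathlib

set_option autoImplicit false
open Pool Pool.MP_761a8f_an

namespace Pool.Agent.S05079

open Finset Complex

/-- The real binomial coefficient `binom(α, k)`. -/
noncomputable def c (α : ℝ) (k : ℕ) : ℝ := (∏ j ∈ range k, (α - (j : ℝ))) / (k.factorial : ℝ)

lemma c_zero (α : ℝ) : c α 0 = 1 := by simp [c]

lemma c_succ (α : ℝ) (k : ℕ) : c α (k + 1) = c α k * (α - k) / (k + 1) := by
  unfold c
  rw [prod_range_succ, Nat.factorial_succ]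
  push_cast
  have h1 : (k.factorial : ℝ) ≠ 0 := by positivity
  have h2 : ((k : ℝ) + 1) ≠ 0 := by positivity
  field_simp

lemma c_succ' (α : ℝ) (k : ℕ) : ((k : ℝ) + 1) * c α (k + 1) = (α - k) * c α k := by
  rw [c_succ]
  have h2 : ((k : ℝ) + 1) ≠ 0 := by positivity
  field_simp

/-- partial binomial sum -/
noncomputable def P (α : ℝ) (n : ℕ) (x : ℂ) : ℂ := ∑ k ∈ range (n + 1), (c α k : ℂ) * x ^ k

noncomputable def P1 (α : ℝ) (n : ℕ) : ℝ := ∑ k ∈ range (n + 1), c α k

lemma P_one (α : ℝ) (n : ℕ) : P α n 1 = (P1 α n : ℂ) := by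
  simp [P, P1]

lemma P_succ (α : ℝ) (n : ℕ) (x : ℂ) : P α (n + 1) x = P α n x + (c α (n + 1) : ℂ) * x ^ (n + 1) := by
  unfold P; rw [sum_range_succ _ (n + 1)]

lemma P1_succ (α : ℝ) (n : ℕ) : P1 α (n + 1) = P1 α n + c α (n + 1) := by
  unfold P1; rw [sum_range_succ _ (n + 1)]

noncomputable def Pd (α : ℝ) (n : ℕ) (x : ℂ) : ℂ := ∑ k ∈ range n, (((k : ℝ) + 1) * c α (k + 1) : ℝ) * x ^ k

lemma hasDerivAt_P (α : ℝ) (n : ℕ) (x : ℂ) : HasDerivAt (P α n) (Pd α n x) x := by
  induction n with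
  | zero =>
    have : P α 0 = fun _ => (c α 0 : ℂ) := by
      funext y; simp [P]
    rw [this]
    simpa [Pd] using hasDerivAt_const x (c α 0 : ℂ)
  | succ n ih =>
    have h1 : P α (n + 1) = fun y => P α n y + (c α (n + 1) : ℂ) * y ^ (n + 1) := by
      funext y; exact P_succ α n y
    rw [h1]
    have h2 : HasDerivAt (fun y : ℂ => (c α (n + 1) : ℂ) * y ^ (n + 1))
        ((c α (n + 1) : ℂ) * (((n + 1 : ℕ) : ℂ) * x ^ n)) x := by
      have := (hasDerivAt_pow (n + 1) x).const_mul (c α (n + 1) : ℂ)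
      simpa using this
    have h3 := ih.add h2
    have h4 : Pd α (n + 1) x = Pd α n x + (c α (n + 1) : ℂ) * (((n + 1 : ℕ) : ℂ) * x ^ n) := by
      unfold Pd
      rw [sum_range_succ]
      push_cast
      ring
    rw [h4]
    exact h3

lemma ode (α : ℝ) (n : ℕ) (x : ℂ) :
    (1 + x) * Pd α n x = α * P α n x - ((((n : ℝ) + 1) * c α (n + 1) : ℝ) : ℂ) * x ^ n := by
  induction n with
  | zero =>
    simp [Pd, P, c_zero, c_succ]
  | succ n ih =>
    have h1 : Pd α (n + 1) x = Pd α n x + ((((n : ℝ) + 1) * c α (n + 1) : ℝ) : ℂ) * x ^ n := by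
      unfold Pd; rw [sum_range_succ]
    have h2 : (((((n + 1 : ℕ) : ℝ) + 1) * c α (n + 1 + 1) : ℝ) : ℂ) = ((α - ((n : ℝ) + 1)) * c α (n + 1) : ℝ) := by
      congr 1
      have := c_succ' α (n + 1)
      push_cast at this ⊢
      linarith
    rw [h1, mul_add, ih, h2, P_succ]
    push_cast
    ring

/-- `e^{iθ}` -/
noncomputable def e (θ : ℝ) : ℂ := Complex.exp (θ * I)

lemma hasDerivAt_e (θ : ℝ) : HasDerivAt e (I * e θ) θ := by
  unfold e
  have h1 : HasDerivAt (fun t : ℝ => (t : ℂ) * I) (1 * I) θ :=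
    (Complex.ofRealCLM.hasDerivAt (x := θ)).mul_const I
  have h2 := h1.cexp
  convert h2 using 1
  ring

lemma norm_e (θ : ℝ) : ‖e θ‖ = 1 := by
  unfold e; exact Complex.norm_exp_ofReal_mul_I θ

lemma e_half (θ : ℝ) : e θ = e (θ / 2) ^ 2 := by
  unfold e; rw [← Complex.exp_nat_mul]; congr 1; push_cast; ring

lemma e_eq (θ : ℝ) : e θ = (Real.cos θ : ℂ) + (Real.sin θ : ℂ) * I := by
  unfold e; rw [Complex.exp_mul_I]; push_cast; rfl

lemma one_add_e (θ : ℝ) : 1 + e θ = e (θ / 2) * ((2 * Real.cos (θ / 2) : ℝ) : ℂ) := by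
  rw [e_half, e_eq]
  have h := Real.sin_sq_add_cos_sq (θ / 2)
  generalize Real.sin (θ / 2) = s at *
  generalize Real.cos (θ / 2) = d at *
  apply Complex.ext
  · simp only [pow_two, add_re, mul_re, ofReal_re, ofReal_im, I_re, I_im, add_im, mul_im, one_re]
    nlinarith
  · simp only [pow_two, add_re, mul_re, ofReal_re, ofReal_im, I_re, I_im, add_im, mul_im, one_im]
    ring

lemma e_sub_one (θ : ℝ) : e θ - 1 = e (θ / 2) * ((2 * Real.sin (θ / 2) : ℝ) : ℂ) * I := by
  rw [e_half, e_eq]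
  have h := Real.sin_sq_add_cos_sq (θ / 2)
  generalize Real.sin (θ / 2) = s at *
  generalize Real.cos (θ / 2) = d at *
  apply Complex.ext
  · simp only [pow_two, add_re, sub_re, mul_re, ofReal_re, ofReal_im, I_re, I_im, add_im, mul_im, one_re]
    nlinarith
  · simp only [pow_two, add_re, sub_im, mul_re, ofReal_re, ofReal_im, I_re, I_im, add_im, mul_im, one_im]
    ring

/-- alternating sums of a nonnegative antitone sequence -/
lemma alt_even (b : ℕ → ℝ) (hd : ∀ k, b (k + 1) ≤ b k) (i : ℕ) :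
    b 0 - b 1 ≤ ∑ k ∈ range (2 * i + 2), (-1 : ℝ) ^ k * b k := by
  induction i with
  | zero => simp [sum_range_succ]
  | succ i ih =>
    have h1 : 2 * (i + 1) + 2 = (2 * i + 2) + 1 + 1 := by ring
    rw [h1, sum_range_succ, sum_range_succ]
    have h2 : (-1 : ℝ) ^ (2 * i + 2) = 1 := by
      rw [show 2 * i + 2 = 2 * (i + 1) by ring, pow_mul]; simp
    have h3 : (-1 : ℝ) ^ (2 * i + 2 + 1) = -1 := by
      rw [pow_succ, h2]; ring
    rw [h2, h3]
    have := hd (2 * i + 2)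
    linarith

lemma alt_nonneg (b : ℕ → ℝ) (hb : ∀ k, 0 ≤ b k) (hd : ∀ k, b (k + 1) ≤ b k) (j : ℕ) :
    0 ≤ ∑ k ∈ range j, (-1 : ℝ) ^ k * b k := by
  rcases Nat.even_or_odd' j with ⟨i, rfl | rfl⟩
  · rcases i with _ | i
    · simp
    · have := alt_even b hd i
      have h1 := hd 0
      simp only [zero_add] at h1
      rw [show 2 * (i + 1) = 2 * i + 2 by ring]
      linarith
  · rw [sum_range_succ]
    have h2 : (-1 : ℝ) ^ (2 * i) = 1 := by rw [pow_mul]; simp
    rw [h2]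
    rcases i with _ | i
    · simp; exact hb 0
    · have := alt_even b hd i
      have h1 := hd 0
      simp only [zero_add] at h1
      rw [show 2 * (i + 1) = 2 * i + 2 by ring]
      have := hb (2 * i + 2)
      linarith

/-! ### The curve and its derivative -/

lemma hasDerivAt_curve (α : ℝ) (n : ℕ) (θ : ℝ) :
    HasDerivAt (fun t : ℝ => P α n (e t)) (Pd α n (e θ) * (I * e θ)) θ :=
  (hasDerivAt_P α n (e θ)).comp θ (hasDerivAt_e θ)

lemma e_pow_mul_half (θ : ℝ) (j : ℕ) : e θ ^ j * e (θ / 2) = e (((j : ℝ) + 1 / 2) * θ) := by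
  unfold e; rw [← Complex.exp_nat_mul, ← Complex.exp_add]; congr 1; push_cast; ring

lemma e_im (θ : ℝ) : (e θ).im = Real.sin θ := by
  rw [e_eq]; simp only [add_im, ofReal_im, mul_im, ofReal_re, I_re, I_im]; ring

lemma e_re (θ : ℝ) : (e θ).re = Real.cos θ := by
  rw [e_eq]; simp only [add_re, ofReal_im, mul_re, ofReal_re, I_re, I_im]; ring

lemma conj_e_mul (θ : ℝ) : (starRingEnd ℂ) (e θ) * e θ = 1 := by
  rw [mul_comm, Complex.mul_conj, Complex.normSq_eq_norm_sq, norm_e]; simp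

lemma im_bound (α : ℝ) (n : ℕ) (θ : ℝ) (hθ : 0 ≤ θ) :
    |((starRingEnd ℂ) (P α n (e θ)) * (e (θ / 2) * e θ ^ n)).im| ≤
      θ * ((n : ℝ) + 1 / 2) * ∑ k ∈ range (n + 1), |c α k| := by
  have h1 : (starRingEnd ℂ) (P α n (e θ)) * (e (θ / 2) * e θ ^ n)
      = ∑ k ∈ range (n + 1), (c α k : ℂ) * e ((((n - k : ℕ) : ℝ) + 1 / 2) * θ) := by
    unfold P
    rw [map_sum, sum_mul]
    refine sum_congr rfl fun k hk => ?_
    have hk' : k ≤ n := by simpa [Nat.lt_succ_iff] using hk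
    rw [← e_pow_mul_half, map_mul, map_pow, Complex.conj_ofReal]
    have h2 : e θ ^ n = e θ ^ k * e θ ^ (n - k) := by
      rw [← pow_add]; congr 1; omega
    rw [h2]
    have h3 : ((starRingEnd ℂ) (e θ)) ^ k * e θ ^ k = 1 := by
      rw [← mul_pow, conj_e_mul, one_pow]
    linear_combination ((c α k : ℂ) * e (θ / 2) * e θ ^ (n - k)) * h3
  rw [h1, Complex.im_sum, mul_sum]
  refine (abs_sum_le_sum_abs _ _).trans (sum_le_sum fun k hk => ?_)
  have hk' : k ≤ n := by simpa [Nat.lt_succ_iff] using hk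
  rw [Complex.im_ofReal_mul, e_im, abs_mul, mul_comm]
  refine mul_le_mul_of_nonneg_right ?_ (abs_nonneg _)
  refine Real.abs_sin_le_abs.trans ?_
  have h4 : (((n - k : ℕ) : ℝ)) ≤ n := by exact_mod_cast Nat.sub_le n k
  have h5 : (0 : ℝ) ≤ ((n - k : ℕ) : ℝ) := by positivity
  rw [abs_of_nonneg (by positivity), mul_comm]
  exact mul_le_mul_of_nonneg_left (by linarith) hθ

lemma inner_A (α : ℝ) (n : ℕ) (θ : ℝ) :
    (2 * Real.cos (θ / 2)) * inner ℝ (P α n (e θ)) (Pd α n (e θ) * (I * e θ)) =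
      - α * Real.sin (θ / 2) * ‖P α n (e θ)‖ ^ 2 +
        (((n : ℝ) + 1) * c α (n + 1)) * ((starRingEnd ℂ) (P α n (e θ)) * (e (θ / 2) * e θ ^ n)).im := by
  have h1 := ode α n (e θ)
  rw [one_add_e] at h1
  have hz : e θ = e (θ / 2) ^ 2 := e_half θ
  set γ : ℝ := ((n : ℝ) + 1) * c α (n + 1) with hγ
  set U : ℝ := 2 * Real.cos (θ / 2) with hU
  set z := e (θ / 2) with hzdef
  set p := P α n (e θ) with hp
  have h2 : (U : ℂ) * ((starRingEnd ℂ) p * (Pd α n (e θ) * (I * e θ))) =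
      (α : ℂ) * ((starRingEnd ℂ) p * p) * (I * z) - (γ : ℂ) * (I * ((starRingEnd ℂ) p * (z * e θ ^ n))) := by
    calc (U : ℂ) * ((starRingEnd ℂ) p * (Pd α n (e θ) * (I * e θ)))
        = (starRingEnd ℂ) p * I * z * (z * (U : ℂ) * Pd α n (e θ)) := by
          rw [hz]; ring
      _ = _ := by rw [h1]; ring
  have h3 : inner ℝ p (Pd α n (e θ) * (I * e θ)) = ((starRingEnd ℂ) p * (Pd α n (e θ) * (I * e θ))).re := by
    rw [Complex.inner, mul_comm]
  rw [h3, ← Complex.re_ofReal_mul, h2, Complex.conj_mul', Complex.sub_re]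
  have h4 : ((α : ℂ) * ((‖p‖ : ℂ) ^ 2) * (I * z)).re = - α * Real.sin (θ / 2) * ‖p‖ ^ 2 := by
    have : (α : ℂ) * ((‖p‖ : ℂ) ^ 2) * (I * z) = ((α * ‖p‖ ^ 2 : ℝ) : ℂ) * (I * z) := by push_cast; ring
    rw [this, Complex.re_ofReal_mul, Complex.I_mul_re, hzdef, e_im]; ring
  have h5 : ((γ : ℂ) * (I * ((starRingEnd ℂ) p * (z * e θ ^ n)))).re = - γ * ((starRingEnd ℂ) p * (z * e θ ^ n)).im := by
    rw [Complex.re_ofReal_mul, Complex.I_mul_re]; ring
  rw [h4, h5]; ring

/-- Boundary argument, in the form used twice. -/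
lemma boundary (g g' : ℝ → ℂ) (hg : ∀ t, HasDerivAt g (g' t) t) (B B' : ℝ → ℝ)
    (hB : ∀ t, HasDerivAt B (B' t) t) (T : ℝ) (h0 : ‖g 0‖ ≤ B 0)
    (hBpos : ∀ t ∈ Set.Icc (0 : ℝ) T, 0 ≤ B t)
    (hbound : ∀ ε : ℝ, 0 < ε → ∀ t, 0 < t → t < T → ‖g t‖ = B t + ε → 
      inner ℝ (g t) (g' t) < (B t + ε) * B' t) :
    ∀ t ∈ Set.Icc (0 : ℝ) T, ‖g t‖ ≤ B t := by
  intro t ht
  refine le_of_forall_pos_le_add fun ε hε => ?_
  have key := image_le_of_deriv_right_lt_deriv_boundary' (f := fun t => ‖g t‖ ^ 2)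
    (f' := fun t => 2 * inner ℝ (g t) (g' t)) (a := 0) (b := T)
    (B := fun t => (B t + ε) ^ 2) (B' := fun t => 2 * ((B t + ε) * B' t))
    (fun t _ => ((hg t).continuousAt.norm.pow 2).continuousWithinAt)
    (fun t _ => (hg t).norm_sq.hasDerivWithinAt)
    (by
      have : 0 ≤ ‖g 0‖ := norm_nonneg _
      show ‖g 0‖ ^ 2 ≤ (B 0 + ε) ^ 2
      exact pow_le_pow_left₀ this (by linarith) 2)
    (fun t _ => (((hB t).continuousAt.add continuousAt_const).pow 2).continuousWithinAt)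
    (fun t _ => by
      have := (((hB t).add_const ε).pow 2).hasDerivWithinAt (s := Set.Ici t)
      have h2 : 2 * ((B t + ε) * B' t) = ((2 : ℕ) : ℝ) * (B t + ε) ^ (2 - 1) * B' t := by
        norm_num; ring
      rw [h2]; exact this)
    (fun t ht h => by
      have hB0 : 0 ≤ B t := hBpos t ⟨ht.1, ht.2.le⟩
      have h1 : ‖g t‖ = B t + ε := by
        have h2 : 0 ≤ ‖g t‖ := norm_nonneg _
        have h3 : 0 ≤ B t + ε := by linarith
        exact (pow_left_inj₀ h2 h3 (by norm_num)).1 h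
      rcases ht.1.eq_or_lt with h0' | h0'
      · subst h0'
        exfalso; linarith
      · have := hbound ε hε t h0' ht.2 h1
        linarith)
    ht
  have hB0 : 0 ≤ B t := hBpos t ht
  exact (pow_le_pow_iff_left₀ (norm_nonneg _) (by linarith) (by norm_num)).1 key

/-! ### `1 ≤ α ≤ 2`, every degree -/

noncomputable def bA (α : ℝ) (k : ℕ) : ℝ := (-1) ^ k * c α (k + 2)

lemma bA_succ (α : ℝ) (k : ℕ) : ((k : ℝ) + 3) * bA α (k + 1) = ((k : ℝ) + 2 - α) * bA α k := by
  unfold bA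
  have h := c_succ' α (k + 2)
  push_cast at h
  rw [pow_succ, show k + 1 + 2 = k + 2 + 1 by ring]
  linear_combination (-(-1 : ℝ) ^ k) * h

lemma c_eq_bA (α : ℝ) (k : ℕ) : c α (k + 2) = (-1) ^ k * bA α k := by
  unfold bA
  rw [← mul_assoc, ← mul_pow]; norm_num

lemma c_one (α : ℝ) : c α 1 = α := by
  have := c_succ' α 0
  simp [c_zero] at this
  exact this

lemma bA_zero (α : ℝ) : bA α 0 = α * (α - 1) / 2 := by
  have := c_succ' α 1
  rw [c_one] at this
  unfold bA
  push_cast at this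
  norm_num at this ⊢
  linarith

lemma bA_nonneg (α : ℝ) (h1 : 1 ≤ α) (h2 : α ≤ 2) (k : ℕ) : 0 ≤ bA α k := by
  induction k with
  | zero => rw [bA_zero]; nlinarith
  | succ k ih =>
    have h := bA_succ α k
    have hk : (0 : ℝ) ≤ k := by positivity
    have h3 : 0 ≤ ((k : ℝ) + 2 - α) * bA α k := mul_nonneg (by linarith) ih
    rw [← h] at h3
    exact nonneg_of_mul_nonneg_right h3 (by linarith)

lemma bA_anti (α : ℝ) (h1 : 1 ≤ α) (h2 : α ≤ 2) (k : ℕ) : bA α (k + 1) ≤ bA α k := by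
  have h := bA_succ α k
  have hk : (0 : ℝ) ≤ k := by positivity
  have h3 := bA_nonneg α h1 h2 k
  have h4 := bA_nonneg α h1 h2 (k + 1)
  nlinarith

lemma bA_bound (α : ℝ) (h1 : 1 ≤ α) (h2 : α ≤ 2) (k : ℕ) :
    ((k : ℝ) + 2) * ((k : ℝ) + 3) * bA α (k + 1) ≤ α / 4 := by
  induction k with
  | zero =>
    have h := bA_succ α 0
    rw [bA_zero] at h
    push_cast at h ⊢
    norm_num at h ⊢
    nlinarith [sq_nonneg (2 * α - 3)]
  | succ k ih =>
    have h := bA_succ α (k + 1)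
    have hk : (0 : ℝ) ≤ k := by positivity
    have h3 := bA_nonneg α h1 h2 (k + 1)
    push_cast at h ⊢
    have h5 : ((k : ℝ) + 1 + 2) * ((k : ℝ) + 1 + 3) * bA α (k + 1 + 1)
        = ((k : ℝ) + 3) * (((k : ℝ) + 1 + 2 - α) * bA α (k + 1)) := by
      rw [← h]; ring
    rw [h5]
    have h6 : ((k : ℝ) + 3) * (((k : ℝ) + 1 + 2 - α) * bA α (k + 1)) ≤
        ((k : ℝ) + 3) * (((k : ℝ) + 2) * bA α (k + 1)) := by
      apply mul_le_mul_of_nonneg_left _ (by linarith)
      apply mul_le_mul_of_nonneg_right _ h3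
      linarith
    linarith

lemma bA_sum (α : ℝ) (h1 : 1 ≤ α) (j : ℕ) :
    ∑ i ∈ range j, bA α i = (α - 1) - ((j : ℝ) + 2) * bA α j / α := by
  have hα : α ≠ 0 := by linarith
  induction j with
  | zero => rw [bA_zero]; field_simp; push_cast; simp
  | succ j ih =>
    rw [sum_range_succ, ih]
    have h := bA_succ α j
    have h5 : (((j + 1 : ℕ) : ℝ) + 2) * bA α (j + 1) = ((j : ℝ) + 2 - α) * bA α j := by
      rw [← h]; push_cast; ring
    rw [h5]
    field_simp
    ring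

lemma P1_eq_A (α : ℝ) (j : ℕ) : P1 α (j + 1) = 1 + α + ∑ i ∈ range j, (-1) ^ i * bA α i := by
  induction j with
  | zero => simp [P1, sum_range_succ, c_zero, c_one]
  | succ j ih => rw [P1_succ, ih, sum_range_succ, c_eq_bA]; ring

lemma abs_sum_A (α : ℝ) (h1 : 1 ≤ α) (h2 : α ≤ 2) (j : ℕ) :
    ∑ k ∈ range (j + 1 + 1), |c α k| ≤ 2 * α := by
  have h3 : ∑ k ∈ range (j + 1 + 1), |c α k| = 1 + α + ∑ i ∈ range j, bA α i := by
    induction j with
    | zero => simp [sum_range_succ, c_zero, c_one]; linarith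
    | succ j ih =>
      rw [sum_range_succ, ih, sum_range_succ _ j, c_eq_bA, abs_mul, abs_pow]
      simp [abs_of_nonneg (bA_nonneg α h1 h2 j)]; ring
  rw [h3, bA_sum α h1]
  have h4 := bA_nonneg α h1 h2 j
  have h5 : 0 ≤ ((j : ℝ) + 2) * bA α j / α := by positivity
  linarith

lemma main_A (α : ℝ) (h1 : 1 ≤ α) (h2 : α ≤ 2) (j : ℕ) (θ : ℝ) (hθ : θ ∈ Set.Icc (0 : ℝ) Real.pi) :
    ‖P α (j + 2) (e θ)‖ ≤ P1 α (j + 2) := by
  have hP1 : 1 + α ≤ P1 α (j + 2) := by
    rw [P1_eq_A α (j + 1)]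
    have := alt_nonneg (bA α) (bA_nonneg α h1 h2) (bA_anti α h1 h2) (j + 1)
    linarith
  set Q := P1 α (j + 2) with hQ
  refine boundary (fun t => P α (j + 2) (e t)) (fun t => Pd α (j + 2) (e t) * (I * e t))
    (fun t => hasDerivAt_curve α (j + 2) t) (fun _ => Q) (fun _ => 0)
    (fun t => hasDerivAt_const t Q) Real.pi ?_ ?_ ?_ θ hθ
  · show ‖P α (j + 2) (e 0)‖ ≤ Q
    have : e 0 = 1 := by simp [e]
    rw [this, P_one, Complex.norm_real, Real.norm_of_nonneg (by linarith)]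
  · intro t _; linarith
  · intro ε hε t ht0 htpi hnorm
    rw [mul_zero]
    have hcos : 0 < 2 * Real.cos (t / 2) := by
      have : 0 < Real.cos (t / 2) := Real.cos_pos_of_mem_Ioo ⟨by linarith, by linarith⟩
      linarith
    have hA := inner_A α (j + 2) t
    have hI := im_bound α (j + 2) t ht0.le
    have hL := abs_sum_A α h1 h2 (j + 1)
    set X := ((starRingEnd ℂ) (P α (j + 2) (e t)) * (e (t / 2) * e t ^ (j + 2))).im with hX
    set L := ∑ k ∈ range (j + 2 + 1), |c α k| with hLdef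
    set inn := inner ℝ (P α (j + 2) (e t)) (Pd α (j + 2) (e t) * (I * e t)) with hinn
    have hs : t / Real.pi ≤ Real.sin (t / 2) := by
      have := Real.mul_le_sin (x := t / 2) (by linarith) (by linarith)
      calc t / Real.pi = 2 / Real.pi * (t / 2) := by ring
        _ ≤ _ := this
    have hs4 : t / 4 ≤ Real.sin (t / 2) := by
      refine le_trans ?_ hs
      exact div_le_div_of_nonneg_left ht0.le Real.pi_pos Real.pi_le_four
    -- bound on the second term
    have hγ : |((((j + 2 : ℕ) : ℝ) + 1) * c α (j + 2 + 1)) * X| ≤ (5 / 8) * α ^ 2 * t := by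
      rw [abs_mul]
      have hc : |(((j + 2 : ℕ) : ℝ) + 1) * c α (j + 2 + 1)| = ((j : ℝ) + 3) * bA α (j + 1) := by
        rw [show j + 2 + 1 = (j + 1) + 2 by ring, c_eq_bA, abs_mul, abs_mul, abs_pow]
        simp only [abs_neg, abs_one, one_pow, one_mul]
        rw [abs_of_nonneg (bA_nonneg α h1 h2 (j + 1)), abs_of_nonneg (by positivity)]
        push_cast; ring
      rw [hc]
      have hb := bA_bound α h1 h2 j
      have hb0 := bA_nonneg α h1 h2 (j + 1)
      have hj : (0 : ℝ) ≤ j := by positivity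
      have hX2 : |X| ≤ t * (((j : ℝ) + 2) + 1 / 2) * (2 * α) := by
        refine hI.trans ?_
        push_cast
        exact mul_le_mul_of_nonneg_left hL (by positivity)
      calc ((j : ℝ) + 3) * bA α (j + 1) * |X|
          ≤ ((j : ℝ) + 3) * bA α (j + 1) * (t * (((j : ℝ) + 2) + 1 / 2) * (2 * α)) :=
            mul_le_mul_of_nonneg_left hX2 (by positivity)
        _ ≤ ((j : ℝ) + 3) * bA α (j + 1) * (t * ((5 / 4) * ((j : ℝ) + 2)) * (2 * α)) := by
            apply mul_le_mul_of_nonneg_left _ (by positivity)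
            apply mul_le_mul_of_nonneg_right _ (by linarith)
            apply mul_le_mul_of_nonneg_left _ ht0.le
            linarith
        _ = (((j : ℝ) + 2) * ((j : ℝ) + 3) * bA α (j + 1)) * (t * (5 / 4) * (2 * α)) := by ring
        _ ≤ (α / 4) * (t * (5 / 4) * (2 * α)) :=
            mul_le_mul_of_nonneg_right hb (by positivity)
        _ = (5 / 8) * α ^ 2 * t := by ring
    have hγ' := (abs_le.1 hγ).2
    rw [hnorm] at hA
    have hQ2 : 4 * α ≤ (Q + ε) ^ 2 := by nlinarith [sq_nonneg (α - 1)]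
    have hs0 : 0 < Real.sin (t / 2) := lt_of_lt_of_le (by positivity) hs4
    have hmain : α ^ 2 * t ≤ α * Real.sin (t / 2) * (Q + ε) ^ 2 := by
      calc α ^ 2 * t = α * (t / 4) * (4 * α) := by ring
        _ ≤ α * Real.sin (t / 2) * (4 * α) := by
          apply mul_le_mul_of_nonneg_right _ (by linarith)
          exact mul_le_mul_of_nonneg_left hs4 (by linarith)
        _ ≤ _ := mul_le_mul_of_nonneg_left hQ2 (by positivity)
    have hpos : 0 < α ^ 2 * t := by positivity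
    have : (2 * Real.cos (t / 2)) * inn < 0 := by
      rw [hA]; nlinarith
    by_contra hcon
    rw [not_lt] at hcon
    have := mul_nonneg hcos.le hcon
    linarith

/-! ### `0 < α < 1`, odd degree -/

noncomputable def bB (α : ℝ) (k : ℕ) : ℝ := (-1) ^ k * c α (k + 1)

lemma bB_succ (α : ℝ) (k : ℕ) : ((k : ℝ) + 2) * bB α (k + 1) = ((k : ℝ) + 1 - α) * bB α k := by
  unfold bB
  have h := c_succ' α (k + 1)
  push_cast at h
  rw [pow_succ, show k + 1 + 1 = k + 1 + 1 by ring]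
  linear_combination (-(-1 : ℝ) ^ k) * h

lemma c_eq_bB (α : ℝ) (k : ℕ) : c α (k + 1) = (-1) ^ k * bB α k := by
  unfold bB
  rw [← mul_assoc, ← mul_pow]; norm_num

lemma bB_zero (α : ℝ) : bB α 0 = α := by
  unfold bB; simp [c_one]

lemma bB_nonneg (α : ℝ) (h0 : 0 < α) (h1 : α < 1) (k : ℕ) : 0 ≤ bB α k := by
  induction k with
  | zero => rw [bB_zero]; exact h0.le
  | succ k ih =>
    have h := bB_succ α k
    have hk : (0 : ℝ) ≤ k := by positivity
    have h3 : 0 ≤ ((k : ℝ) + 1 - α) * bB α k := mul_nonneg (by linarith) ih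
    rw [← h] at h3
    exact nonneg_of_mul_nonneg_right h3 (by linarith)

lemma bB_anti (α : ℝ) (h0 : 0 < α) (h1 : α < 1) (k : ℕ) : bB α (k + 1) ≤ bB α k := by
  have h := bB_succ α k
  have hk : (0 : ℝ) ≤ k := by positivity
  have h3 := bB_nonneg α h0 h1 k
  have h4 := bB_nonneg α h0 h1 (k + 1)
  nlinarith

lemma bB_le (α : ℝ) (h0 : 0 < α) (h1 : α < 1) (k : ℕ) : ((k : ℝ) + 1) * bB α k ≤ α := by
  induction k with
  | zero => simp [bB_zero]
  | succ k ih =>
    have h := bB_succ α k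
    have h3 := bB_nonneg α h0 h1 k
    push_cast
    have : ((k : ℝ) + 1 + 1) * bB α (k + 1) = ((k : ℝ) + 1 - α) * bB α k := by rw [← h]; ring
    rw [this]
    nlinarith

lemma bB_le3 (α : ℝ) (h0 : 0 < α) (h1 : α < 1) (k : ℕ) :
    ((k : ℝ) + 4) * bB α (k + 3) ≤ α * (1 - α) * (1 - α / 2) * (1 - α / 3) := by
  induction k with
  | zero =>
    have e0 := bB_succ α 0
    have e1 := bB_succ α 1
    have e2 := bB_succ α 2
    rw [bB_zero] at e0
    push_cast at e0 e1 e2 ⊢
    norm_num at e0 e1 e2 ⊢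
    have e0' : bB α 1 = (1 - α) * α / 2 := by linarith
    rw [e0'] at e1
    have e1' : bB α 2 = (2 - α) * ((1 - α) * α / 2) / 3 := by linarith
    rw [e1'] at e2
    have e2' : bB α 3 = (3 - α) * ((2 - α) * ((1 - α) * α / 2) / 3) / 4 := by linarith
    rw [e2']
    apply le_of_eq; ring
  | succ k ih =>
    have h := bB_succ α (k + 3)
    have h3 := bB_nonneg α h0 h1 (k + 3)
    push_cast at h ⊢
    have : ((k : ℝ) + 1 + 4) * bB α (k + 1 + 3) = ((k : ℝ) + 3 + 1 - α) * bB α (k + 3) := by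
      rw [← h, show k + 1 + 3 = k + 3 + 1 by ring]; ring
    rw [this]
    nlinarith

lemma bB_sum (α : ℝ) (h0 : 0 < α) (j : ℕ) :
    ∑ i ∈ range j, bB α i = 1 - ((j : ℝ) + 1) * bB α j / α := by
  have hα : α ≠ 0 := h0.ne'
  induction j with
  | zero => rw [bB_zero]; simp [hα]
  | succ j ih =>
    rw [sum_range_succ, ih]
    have h := bB_succ α j
    have h5 : (((j + 1 : ℕ) : ℝ) + 1) * bB α (j + 1) = ((j : ℝ) + 1 - α) * bB α j := by
      rw [← h]; push_cast; ring
    rw [h5]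
    field_simp
    ring

lemma P1_eq_B (α : ℝ) (j : ℕ) : P1 α j = 1 + ∑ i ∈ range j, (-1) ^ i * bB α i := by
  induction j with
  | zero => simp [P1, c_zero]
  | succ j ih => rw [P1_succ, ih, sum_range_succ, c_eq_bB]; ring

/-- crude bound, `n` arbitrary -/
lemma crude_B (α : ℝ) (h0 : 0 < α) (h1 : α < 1) (n : ℕ) (θ : ℝ) :
    ‖P α n (e θ)‖ ≤ ((n : ℝ) + 1) * bB α n / α + α * n * ‖1 + e θ‖ := by
  have h2 : P α n (e θ) = ((((n : ℝ) + 1) * bB α n / α : ℝ) : ℂ) +
      ∑ k ∈ range n, (bB α k : ℂ) * (1 - (-e θ) ^ (k + 1)) := by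
    have h3 : (((((n : ℝ) + 1) * bB α n / α : ℝ)) : ℂ) = 1 - ∑ k ∈ range n, (bB α k : ℂ) := by
      have := bB_sum α h0 n
      have h4 : ((n : ℝ) + 1) * bB α n / α = 1 - ∑ i ∈ range n, bB α i := by linarith
      rw [h4]; push_cast; ring
    rw [h3]
    have h5 : ∀ n, P α n (e θ) = 1 - ∑ k ∈ range n, (bB α k : ℂ) * (-e θ) ^ (k + 1) := by
      intro n
      induction n with
      | zero => simp [P, c_zero]
      | succ n ih =>
        rw [P_succ, ih, sum_range_succ, c_eq_bB]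
        push_cast
        rw [neg_pow (e θ)]
        ring
    rw [h5]
    simp only [mul_sub, sum_sub_distrib, mul_one]
    ring
  rw [h2]
  refine (norm_add_le _ _).trans ?_
  have hb := bB_nonneg α h0 h1
  refine add_le_add ?_ ?_
  · rw [Complex.norm_real, Real.norm_of_nonneg]
    have := hb n
    positivity
  · refine (norm_sum_le _ _).trans ?_
    have h6 : ∀ k ∈ range n, ‖(bB α k : ℂ) * (1 - (-e θ) ^ (k + 1))‖ ≤ α * ‖1 + e θ‖ := by
      intro k _
      rw [norm_mul, Complex.norm_real, Real.norm_of_nonneg (hb k)]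
      have h7 : ‖1 - (-e θ) ^ (k + 1)‖ ≤ ((k : ℝ) + 1) * ‖1 + e θ‖ := by
        have h8 : 1 - (-e θ) ^ (k + 1) = (1 + e θ) * ∑ i ∈ range (k + 1), (-e θ) ^ i := by
          have := mul_neg_geom_sum (-e θ) (k + 1)
          rw [← this]; ring
        rw [h8, norm_mul, mul_comm]
        refine mul_le_mul_of_nonneg_right ?_ (norm_nonneg _)
        refine (norm_sum_le _ _).trans ?_
        have : ∀ i ∈ range (k + 1), ‖(-e θ) ^ i‖ ≤ 1 := by
          intro i _
          rw [norm_pow, norm_neg, norm_e, one_pow]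
        refine (sum_le_card_nsmul _ _ _ this).trans ?_
        simp
      calc bB α k * ‖1 - (-e θ) ^ (k + 1)‖ ≤ bB α k * (((k : ℝ) + 1) * ‖1 + e θ‖) :=
            mul_le_mul_of_nonneg_left h7 (hb k)
        _ = (((k : ℝ) + 1) * bB α k) * ‖1 + e θ‖ := by ring
        _ ≤ α * ‖1 + e θ‖ := mul_le_mul_of_nonneg_right (bB_le α h0 h1 k) (norm_nonneg _)
    refine (sum_le_card_nsmul _ _ _ h6).trans ?_
    simp
    apply le_of_eq; ring

lemma norm_one_add_e (θ : ℝ) (hθ : θ ∈ Set.Icc (0 : ℝ) Real.pi) : ‖1 + e θ‖ = 2 * Real.cos (θ / 2) := by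
  rw [one_add_e, norm_mul, norm_e, one_mul, Complex.norm_real, Real.norm_of_nonneg]
  have : 0 ≤ Real.cos (θ / 2) := Real.cos_nonneg_of_mem_Icc ⟨by linarith [hθ.1, Real.pi_pos], by linarith [hθ.2]⟩
  linarith

/-- `g = (1+x)P − κ x^{n+1}` and the differential identity -/
lemma inner_B (α : ℝ) (n : ℕ) (κ : ℝ) (hκ : κ * ((n : ℝ) + 1 - (1 + α) / 2) = - (((n : ℝ) + 1) * c α (n + 1)))
    (θ : ℝ) :
    HasDerivAt (fun t : ℝ => (1 + e t) * P α n (e t) - (κ : ℂ) * e t ^ (n + 1))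
      (I * e θ * ((1 + α) * (P α n (e θ) - (κ / 2 : ℝ) * e θ ^ n))) θ ∧
    (2 * Real.cos (θ / 2)) * inner ℝ ((1 + e θ) * P α n (e θ) - (κ : ℂ) * e θ ^ (n + 1))
      (I * e θ * ((1 + α) * (P α n (e θ) - (κ / 2 : ℝ) * e θ ^ n))) =
      (1 + α) * (- Real.sin (θ / 2) * ‖(1 + e θ) * P α n (e θ) - (κ : ℂ) * e θ ^ (n + 1)‖ ^ 2
        - κ * Real.sin (θ / 2) * ((starRingEnd ℂ) ((1 + e θ) * P α n (e θ) - (κ : ℂ) * e θ ^ (n + 1)) * e θ ^ (n + 1)).re) := by
  constructor
  · have h1 := ((hasDerivAt_e θ).const_add 1).mul (hasDerivAt_curve α n θ)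
    have h2 := ((hasDerivAt_e θ).pow (n + 1)).const_mul (κ : ℂ)
    have h3 := h1.sub h2
    have h4 := ode α n (e θ)
    have h5 : (κ : ℂ) * ((n : ℂ) + 1 - (1 + α) / 2) = - ((((n : ℝ) + 1) * c α (n + 1) : ℝ) : ℂ) := by
      have := congrArg (fun r : ℝ => (r : ℂ)) hκ
      push_cast at this ⊢
      exact this
    push_cast at h4 h5
    have h6 : I * e θ * ((1 + α) * (P α n (e θ) - (κ / 2 : ℝ) * e θ ^ n)) =
        I * e θ * P α n (e θ) + (1 + e θ) * (Pd α n (e θ) * (I * e θ)) -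
          (κ : ℂ) * (((n + 1 : ℕ) : ℂ) * e θ ^ (n + 1 - 1) * (I * e θ)) := by
      rw [Nat.add_sub_cancel]
      push_cast
      linear_combination (-(I * e θ)) * h4 + (I * e θ * e θ ^ n) * h5
    rw [h6]
    exact h3
  · have hz : e θ = e (θ / 2) ^ 2 := e_half θ
    have ha := one_add_e θ
    have hm := e_sub_one θ
    set U : ℝ := 2 * Real.cos (θ / 2) with hU
    set s : ℝ := Real.sin (θ / 2) with hs
    set z := e (θ / 2) with hzdef
    set p := P α n (e θ) with hp
    set g := (1 + e θ) * p - (κ : ℂ) * e θ ^ (n + 1) with hg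
    have hI2 : I * I = -1 := Complex.I_mul_I
    have h1 : (U : ℂ) * (I * e θ * ((1 + α) * (p - (κ / 2 : ℝ) * e θ ^ n))) =
        (1 + α) * (I * z * g - κ * s * e θ ^ (n + 1)) := by
      have h2 : z * (U : ℂ) * p = g + κ * e θ ^ (n + 1) := by rw [← ha, hg]; ring
      have h3 : (U : ℂ) * (I * e θ * ((1 + α) * (p - (κ / 2 : ℝ) * e θ ^ n))) =
          (1 + α) * (I * z * (z * (U : ℂ) * p) - I * z * ((κ / 2 : ℝ) * e θ ^ n * (z * U))) := by
        rw [hz]; ring
      rw [h3, h2, ← ha]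
      have h4 : e θ ^ (n + 1) = e θ ^ n * e θ := pow_succ _ _
      rw [h4]
      push_cast
      have h5 : I * z * ((κ : ℂ) / 2 * e θ ^ n * (e θ - 1)) = - (κ * s * (e θ ^ n * e θ)) := by
        rw [hm]
        push_cast
        linear_combination (z * z * κ * s * e θ ^ n) * hI2 + (κ * s * e θ ^ n) * hz
      linear_combination (1 + (α : ℂ)) * h5
    have h3 : inner ℝ g (I * e θ * ((1 + α) * (p - (κ / 2 : ℝ) * e θ ^ n))) =
        ((starRingEnd ℂ) g * (I * e θ * ((1 + α) * (p - (κ / 2 : ℝ) * e θ ^ n)))).re := by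
      rw [Complex.inner, mul_comm]
    rw [h3, ← Complex.re_ofReal_mul]
    have h6 : (U : ℂ) * ((starRingEnd ℂ) g * (I * e θ * ((1 + α) * (p - (κ / 2 : ℝ) * e θ ^ n)))) =
        (((1 + α) : ℝ) : ℂ) * (((starRingEnd ℂ) g * g) * (I * z) - ((κ * s : ℝ) : ℂ) * ((starRingEnd ℂ) g * e θ ^ (n + 1))) := by
      calc _ = (starRingEnd ℂ) g * ((U : ℂ) * (I * e θ * ((1 + α) * (p - (κ / 2 : ℝ) * e θ ^ n)))) := by ring
        _ = _ := by rw [h1]; push_cast; ring
    rw [h6, Complex.re_ofReal_mul, Complex.conj_mul', Complex.sub_re, Complex.re_ofReal_mul]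
    have h4 : (((‖g‖ : ℂ) ^ 2) * (I * z)).re = - s * ‖g‖ ^ 2 := by
      have : ((‖g‖ : ℂ) ^ 2) * (I * z) = ((‖g‖ ^ 2 : ℝ) : ℂ) * (I * z) := by push_cast; ring
      rw [this, Complex.re_ofReal_mul, Complex.I_mul_re, hzdef, e_im]; ring
    rw [h4]

lemma scalar_B (α κ Q U s ε R inn : ℝ) (hα0 : 0 < α) (κ0 : 0 ≤ κ) (Q0 : 0 < Q) (U0 : 0 < U)
    (s0 : 0 < s) (ε0 : 0 < ε) (h4 : 2 * (1 + α) * κ ≤ α * U * Q)
    (hI : U * inn = (1 + α) * (-s * (U * Q - κ + ε) ^ 2 - κ * s * R))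
    (hre : -(U * Q - κ + ε) ≤ R) : inn < (U * Q - κ + ε) * (-s * Q) := by
  have hUQ : 0 < U * Q := by positivity
  have hG : 0 < U * Q - κ + ε := by
    by_contra hcon
    rw [not_lt] at hcon
    have h1 : U * Q ≤ κ := by linarith
    have h2 : α * (U * Q) ≤ α * κ := mul_le_mul_of_nonneg_left h1 hα0.le
    have h3 : 2 * (1 + α) * κ = 2 * κ + 2 * (α * κ) := by ring
    have h5 : α * U * Q = α * (U * Q) := by ring
    rw [h3, h5] at h4
    have h6 : 0 ≤ α * κ := by positivity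
    linarith
  generalize hGdef : U * Q - κ + ε = G at *
  have h13 : κ * s * (-G) ≤ κ * s * R := mul_le_mul_of_nonneg_left hre (by positivity)
  have h8 : U * inn ≤ (1 + α) * (s * G * (κ - G)) := by
    rw [hI]
    apply mul_le_mul_of_nonneg_left _ (by linarith)
    have h14 : s * G * (κ - G) = - s * G ^ 2 - κ * s * (-G) := by ring
    rw [h14]; linarith
  have h9 : (1 + α) * (κ - G) < - (U * Q) := by
    have h15 : (1 + α) * (κ - G) = 2 * (1 + α) * κ - U * Q - α * U * Q - (1 + α) * ε := by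
      rw [← hGdef]; ring
    have h16 : 0 < (1 + α) * ε := by positivity
    rw [h15]; linarith
  have h10 : (1 + α) * (s * G * (κ - G)) < U * (G * (- s * Q)) := by
    have h11 : 0 < s * G := by positivity
    have h17 := mul_lt_mul_of_pos_left h9 h11
    have h18 : U * (G * (- s * Q)) = s * G * (-(U * Q)) := by ring
    have h19 : (1 + α) * (s * G * (κ - G)) = s * G * ((1 + α) * (κ - G)) := by ring
    rw [h18, h19]; exact h17
  have h12 : U * inn < U * (G * (- s * Q)) := lt_of_le_of_lt h8 h10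
  exact lt_of_mul_lt_mul_left h12 U0.le

lemma main_B (α : ℝ) (h0 : 0 < α) (h1 : α < 1) (i : ℕ) (θ : ℝ) (hθ : θ ∈ Set.Icc (0 : ℝ) Real.pi) :
    ‖P α (2 * i + 3) (e θ)‖ ≤ P1 α (2 * i + 3) := by
  have hb := bB_nonneg α h0 h1
  have hd := bB_anti α h0 h1
  -- lower bound for P1
  have hb1 : bB α 1 = (1 - α) * α / 2 := by
    have e0 := bB_succ α 0
    rw [bB_zero] at e0
    push_cast at e0
    norm_num at e0
    linarith
  have hP1 : 1 + α / 2 ≤ P1 α (2 * i + 3) := by
    rw [P1_eq_B, show 2 * i + 3 = (2 * i + 2) + 1 by ring, sum_range_succ]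
    have h2 := alt_even (bB α) hd i
    have h3 : (-1 : ℝ) ^ (2 * i + 2) = 1 := by
      rw [show 2 * i + 2 = 2 * (i + 1) by ring, pow_mul]; simp
    rw [h3, one_mul]
    have h4 := hb (2 * i + 2)
    rw [bB_zero, hb1] at h2
    nlinarith [sq_nonneg α]
  set n := 2 * i + 3 with hn
  set Q := P1 α n with hQ
  set β : ℝ := ((n : ℝ) + 1) * bB α n with hβ
  have hβ0 : 0 ≤ β := by have := hb n; positivity
  have hnpos : (3 : ℝ) ≤ n := by rw [hn]; push_cast; have : (0 : ℝ) ≤ i := by positivity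
                                 linarith
  have hc : ((n : ℝ) + 1) * c α (n + 1) = - β := by
    rw [c_eq_bB]
    have h3 : (-1 : ℝ) ^ n = -1 := by
      rw [hn, show 2 * i + 3 = 2 * (i + 1) + 1 by ring, pow_succ, pow_mul]; simp
    rw [h3, hβ]; ring
  set ν : ℝ := (n : ℝ) + 1 - (1 + α) / 2 with hν
  have hνn : (n : ℝ) ≤ ν := by rw [hν]; linarith
  have hν0 : 0 < ν := by linarith
  set κ : ℝ := β / ν with hκ
  have hκ0 : 0 ≤ κ := by positivity
  have hκν : κ * ν = β := by rw [hκ]; field_simp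
  have hκ' : κ * ((n : ℝ) + 1 - (1 + α) / 2) = - (((n : ℝ) + 1) * c α (n + 1)) := by
    rw [hc, neg_neg]; exact hκν
  -- bound on β
  have hβle : β ≤ α * (1 - α) * (1 - α / 2) * (1 - α / 3) := by
    have := bB_le3 α h0 h1 (2 * i)
    rw [hβ, hn]; push_cast at this ⊢
    linarith
  have hu := norm_one_add_e θ hθ
  set u : ℝ := 2 * Real.cos (θ / 2) with hudef
  have hu0 : 0 ≤ u := by rw [← hu]; exact norm_nonneg _
  rcases lt_or_ge (α * u * Q) (2 * (1 + α) * κ) with hcase | hcase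
  · -- u small
    have hcr := crude_B α h0 h1 n θ
    rw [hu] at hcr
    have h5 : α * n * u ≤ 2 * (1 + α) * β := by
      have h6 : α * u ≤ α * u * Q := by
        have : 0 ≤ α * u := by positivity
        nlinarith
      have h7 : α * u * n ≤ (2 * (1 + α) * κ) * n :=
        mul_le_mul_of_nonneg_right (by linarith) (by linarith)
      have h8 : κ * n ≤ β := by
        rw [← hκν]; exact mul_le_mul_of_nonneg_left hνn hκ0
      nlinarith
    have h9 : ((n : ℝ) + 1) * bB α n / α ≤ (1 - α) * (1 - α / 2) * (1 - α / 3) := by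
      rw [div_le_iff₀ h0]
      linarith
    have hβle' : 2 * (1 + α) * β ≤ 2 * (1 + α) * (α * (1 - α) * (1 - α / 2) * (1 - α / 3)) :=
      mul_le_mul_of_nonneg_left hβle (by linarith)
    have h10 : (1 - α) * (1 - α / 2) * (1 - α / 3) + 2 * (1 + α) * (α * (1 - α) * (1 - α / 2) * (1 - α / 3))
        ≤ 1 + α / 2 := by
      have : (1 - α) * (1 - α / 2) * (1 - α / 3) + 2 * (1 + α) * (α * (1 - α) * (1 - α / 2) * (1 - α / 3))
        = (1 + α - 2 * α ^ 3) * (1 - 5 / 6 * α + α ^ 2 / 6) := by ring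
      rw [this]
      have h12 : 0 < α ^ 2 := by positivity
      have h13 : α ^ 2 < 1 := by nlinarith
      have h14 : (1 + α - 2 * α ^ 3) * (1 - 5 / 6 * α + α ^ 2 / 6) = 1 + α / 6 - (2/3) * α ^ 2 - (11/6) * α ^ 3 + (5/3) * α ^ 4 - (1/3) * α ^ 5 := by ring
      rw [h14]
      have h15 : α ^ 4 ≤ α ^ 3 := by
        have : α ^ 4 = α ^ 3 * α := by ring
        rw [this]; exact mul_le_of_le_one_right (by positivity) h1.le
      have h16 : 0 < α ^ 5 := by positivity
      have h17 : 0 < α ^ 3 := by positivity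
      linarith
    linarith
  · -- main case
    have hθ2 : θ / 2 ≤ Real.pi / 2 := by linarith [hθ.2]
    rcases hβ0.eq_or_lt with hβz | hβpos
    · exfalso
      -- β > 0 actually
      have : ∀ k, 0 < bB α k := by
        intro k
        induction k with
        | zero => rw [bB_zero]; exact h0
        | succ k ih =>
          have h := bB_succ α k
          have hk : (0 : ℝ) ≤ k := by positivity
          have h3 : 0 < ((k : ℝ) + 1 - α) * bB α k := mul_pos (by linarith) ih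
          rw [← h] at h3
          exact (mul_pos_iff_of_pos_left (by linarith)).1 h3
      have := this n
      have : 0 < β := by rw [hβ]; positivity
      linarith
    have hκpos : 0 < κ := by rw [hκ]; positivity
    have hQpos : 0 < Q := by linarith
    have hupos : 0 < u := by
      rcases hu0.eq_or_lt with h | h
      · rw [← h] at hcase
        have : 0 < 2 * (1 + α) * κ := by positivity
        linarith
      · exact h
    have hmono : ∀ t, t ∈ Set.Icc (0 : ℝ) θ → u ≤ 2 * Real.cos (t / 2) := by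
      intro t ht
      have := Real.cos_le_cos_of_nonneg_of_le_pi (x := t / 2) (y := θ / 2) (by linarith [ht.1]) (by linarith [Real.pi_pos]) (by linarith [ht.2])
      rw [hudef]; linarith
    have hcase' : ∀ t, t ∈ Set.Icc (0 : ℝ) θ → 2 * (1 + α) * κ ≤ α * (2 * Real.cos (t / 2)) * Q := by
      intro t ht
      refine hcase.trans ?_
      apply mul_le_mul_of_nonneg_right _ hQpos.le
      exact mul_le_mul_of_nonneg_left (hmono t ht) h0.le
    have hB : ∀ t, HasDerivAt (fun t : ℝ => 2 * Real.cos (t / 2) * Q - κ) (- Real.sin (t / 2) * Q) t := by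
      intro t
      have h1 : HasDerivAt (fun t : ℝ => t / 2) (1 / 2) t := (hasDerivAt_id t).div_const 2
      have h2 := ((h1.cos.const_mul 2).mul_const Q).sub_const κ
      have h3 : - Real.sin (t / 2) * Q = 2 * (-Real.sin (t / 2) * (1 / 2)) * Q := by ring
      rw [h3]
      exact h2
    have key := boundary (fun t => (1 + e t) * P α n (e t) - (κ : ℂ) * e t ^ (n + 1))
      (fun t => I * e t * ((1 + α) * (P α n (e t) - (κ / 2 : ℝ) * e t ^ n)))
      (fun t => (inner_B α n κ hκ' t).1)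
      (fun t => 2 * Real.cos (t / 2) * Q - κ) (fun t => - Real.sin (t / 2) * Q) hB θ
      (by
        have he : e 0 = 1 := by simp [e]
        have h3 : (1 + e 0) * P α n (e 0) - (κ : ℂ) * e 0 ^ (n + 1) = ((2 * Q - κ : ℝ) : ℂ) := by
          rw [he, P_one, one_pow]; push_cast; ring
        show ‖(1 + e 0) * P α n (e 0) - (κ : ℂ) * e 0 ^ (n + 1)‖ ≤ 2 * Real.cos (0 / 2) * Q - κ
        have h4 := hcase' 0 ⟨le_refl _, hθ.1⟩
        rw [zero_div, Real.cos_zero] at h4
        rw [h3, Complex.norm_real, zero_div, Real.cos_zero, Real.norm_of_nonneg]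
        · linarith
        · nlinarith)
      (by
        intro t ht
        have h4 := hcase' t ht
        have h5 := hmono t ht
        show 0 ≤ 2 * Real.cos (t / 2) * Q - κ
        have h6 : 0 ≤ (2 * Real.cos (t / 2)) * Q := by
          have : 0 ≤ 2 * Real.cos (t / 2) := by linarith
          positivity
        nlinarith)
      (by
        intro ε hε t ht0 htθ hnorm
        have ht : t ∈ Set.Icc (0 : ℝ) θ := ⟨ht0.le, htθ.le⟩
        have h4 := hcase' t ht
        have h5 := hmono t ht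
        have hU : 0 < 2 * Real.cos (t / 2) := by linarith
        have hs : 0 < Real.sin (t / 2) :=
          Real.sin_pos_of_pos_of_lt_pi (by linarith) (by linarith [Real.pi_pos, hθ.2])
        have hI := (inner_B α n κ hκ' t).2
        rw [hnorm] at hI
        set g := (1 + e t) * P α n (e t) - (κ : ℂ) * e t ^ (n + 1) with hg
        set inn := inner ℝ g (I * e t * ((1 + α) * (P α n (e t) - (κ / 2 : ℝ) * e t ^ n))) with hinn
        have hre : - (2 * Real.cos (t / 2) * Q - κ + ε) ≤ ((starRingEnd ℂ) g * e t ^ (n + 1)).re := by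
          have h6 : ‖(starRingEnd ℂ) g * e t ^ (n + 1)‖ = 2 * Real.cos (t / 2) * Q - κ + ε := by
            rw [norm_mul, norm_pow, norm_e, one_pow, mul_one, Complex.norm_conj]
            exact hnorm
          have h7 := Complex.abs_re_le_norm ((starRingEnd ℂ) g * e t ^ (n + 1))
          rw [h6] at h7
          exact (abs_le.1 h7).1
        exact scalar_B α κ Q (2 * Real.cos (t / 2)) (Real.sin (t / 2)) ε _ inn h0 hκ0 hQpos hU hs hε h4 hI hre)
      θ ⟨hθ.1, le_refl _⟩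
    have key' : ‖(1 + e θ) * P α n (e θ) - (κ : ℂ) * e θ ^ (n + 1)‖ ≤ u * Q - κ := key
    have h20 : ‖(1 + e θ) * P α n (e θ)‖ ≤ u * Q := by
      have h21 : (1 + e θ) * P α n (e θ) = ((1 + e θ) * P α n (e θ) - (κ : ℂ) * e θ ^ (n + 1)) + (κ : ℂ) * e θ ^ (n + 1) := by ring
      rw [h21]
      refine (norm_add_le _ _).trans ?_
      have h22 : ‖(κ : ℂ) * e θ ^ (n + 1)‖ = κ := by
        rw [norm_mul, norm_pow, norm_e, one_pow, mul_one, Complex.norm_real, Real.norm_of_nonneg hκ0]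
      rw [h22]; linarith
    rw [norm_mul, hu] at h20
    exact le_of_mul_le_mul_left h20 hupos

/-! ### Assembly -/

lemma c_shift (α : ℝ) (k : ℕ) : ((k : ℝ) + 1) * c α (k + 1) = α * c (α - 1) k := by
  induction k with
  | zero => simp [c_one, c_zero]
  | succ k ih =>
    have h1 := c_succ' α (k + 1)
    have h2 := c_succ' (α - 1) k
    push_cast at h1 ⊢
    rw [h1]
    have hk : ((k : ℝ) + 1) ≠ 0 := by positivity
    apply mul_left_cancel₀ hk
    linear_combination (α - (k + 1)) * ih - α * h2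

lemma pascal (α : ℝ) (k : ℕ) : c α (k + 1) = c (α - 1) (k + 1) + c (α - 1) k := by
  have h1 := c_shift α k
  have h2 := c_succ' (α - 1) k
  have hk : ((k : ℝ) + 1) ≠ 0 := by positivity
  apply mul_left_cancel₀ hk
  linear_combination h1 - h2

lemma P_pascal (α : ℝ) (n : ℕ) (x : ℂ) : P α (n + 1) x = P (α - 1) (n + 1) x + x * P (α - 1) n x := by
  induction n with
  | zero =>
    simp [P, sum_range_succ, c_zero, c_one]; ring
  | succ n ih =>
    rw [P_succ, ih, P_succ (α - 1) (n + 1), P_succ (α - 1) n, pascal α (n + 1)]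
    push_cast
    ring

lemma P1_pascal (α : ℝ) (n : ℕ) : P1 α (n + 1) = P1 (α - 1) (n + 1) + P1 (α - 1) n := by
  induction n with
  | zero =>
    simp [P1, sum_range_succ, c_zero, c_one]; ring
  | succ n ih =>
    rw [P1_succ, ih, P1_succ (α - 1) (n + 1), P1_succ (α - 1) n, pascal α (n + 1)]
    ring

lemma big_alpha (N : ℕ) : ∀ α : ℝ, 1 ≤ α → α ≤ N + 2 → ∀ n : ℕ, ∀ θ ∈ Set.Icc (0 : ℝ) Real.pi,
    ‖P α n (e θ)‖ ≤ P1 α n := by
  have hn0 : ∀ α : ℝ, ∀ θ : ℝ, ‖P α 0 (e θ)‖ ≤ P1 α 0 := by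
    intro α θ
    simp [P, P1, c_zero]
  induction N with
  | zero =>
    intro α h1 h2 n θ hθ
    have h2' : α ≤ 2 := by simpa using h2
    rcases n with _ | _ | n
    · exact hn0 α θ
    · have h3 : P α 1 (e θ) = 1 + α * e θ := by simp [P, sum_range_succ, c_zero, c_one]
      have h4 : P1 α 1 = 1 + α := by simp [P1, sum_range_succ, c_zero, c_one]
      show ‖P α 1 (e θ)‖ ≤ P1 α 1
      rw [h3, h4]
      refine (norm_add_le _ _).trans ?_
      rw [norm_mul, norm_e, Complex.norm_real, Real.norm_of_nonneg (by linarith)]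
      simp
    · exact main_A α h1 h2' n θ hθ
  | succ N ih =>
    intro α h1 h2 n θ hθ
    by_cases h3 : α ≤ (N : ℝ) + 2
    · exact ih α h1 h3 n θ hθ
    · rcases n with _ | n
      · exact hn0 α θ
      · rw [not_le] at h3
        have hN : (0 : ℝ) ≤ N := by positivity
        push_cast at h2
        rw [P_pascal, P1_pascal]
        refine (norm_add_le _ _).trans ?_
        rw [norm_mul, norm_e, one_mul]
        exact add_le_add (ih (α - 1) (by linarith) (by linarith) (n + 1) θ hθ)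
          (ih (α - 1) (by linarith) (by linarith) n θ hθ)

lemma P_conj (α : ℝ) (n : ℕ) (x : ℂ) : P α n ((starRingEnd ℂ) x) = (starRingEnd ℂ) (P α n x) := by
  unfold P
  rw [map_sum]
  refine sum_congr rfl fun k _ => ?_
  rw [map_mul, map_pow, Complex.conj_ofReal]

lemma on_circle (α : ℝ) (n : ℕ) (M : ℝ) (h : ∀ θ ∈ Set.Icc (0 : ℝ) Real.pi, ‖P α n (e θ)‖ ≤ M)
    (x : ℂ) (hx : ‖x‖ = 1) : ‖P α n x‖ ≤ M := by
  have hx' : x = e (Complex.arg x) := by
    have := Complex.norm_mul_exp_arg_mul_I x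
    rw [hx] at this
    unfold e
    simpa using this.symm
  rcases le_total 0 (Complex.arg x) with h0 | h0
  · rw [hx']
    exact h _ ⟨h0, Complex.arg_le_pi x⟩
  · have h1 : (starRingEnd ℂ) x = e (- Complex.arg x) := by
      conv_lhs => rw [hx']
      unfold e
      rw [← Complex.exp_conj]
      congr 1
      simp
    have h2 : ‖P α n x‖ = ‖P α n ((starRingEnd ℂ) x)‖ := by
      rw [P_conj, Complex.norm_conj]
    rw [h2, h1]
    exact h _ ⟨by linarith, by linarith [Complex.neg_pi_lt_arg x]⟩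

/-- For every real α>0, every odd m≥3 and every complex x with ∣x∣=1, the modulus of the sum over k from 0 to m of binom(α,k)·x^k is at most the same sum evaluated at x=1. -/
theorem result :
    ∀ α : ℝ, 0 < α → ∀ m : ℕ, Odd m → 3 ≤ m → ∀ x : ℂ, ‖x‖ = 1 →
      ‖∑ k ∈ Finset.range (m + 1),
          ((∏ j ∈ Finset.range k, ((α : ℂ) - (j : ℂ))) / (k.factorial : ℂ)) * x ^ k‖
        ≤ ∑ k ∈ Finset.range (m + 1),
            (∏ j ∈ Finset.range k, (α - (j : ℝ))) / (k.factorial : ℝ) := by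
  intro α hα m hm hm3 x hx
  have h1 : ∑ k ∈ Finset.range (m + 1),
          ((∏ j ∈ Finset.range k, ((α : ℂ) - (j : ℂ))) / (k.factorial : ℂ)) * x ^ k = P α m x := by
    unfold P c
    refine sum_congr rfl fun k _ => ?_
    push_cast
    rfl
  have h2 : ∑ k ∈ Finset.range (m + 1),
            (∏ j ∈ Finset.range k, (α - (j : ℝ))) / (k.factorial : ℝ) = P1 α m := rfl
  rw [h1, h2]
  refine on_circle α m _ ?_ x hx
  intro θ hθ
  rcases lt_or_ge α 1 with h | h
  · obtain ⟨k, hk⟩ := hm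
    obtain ⟨i, rfl⟩ : ∃ i, m = 2 * i + 3 := ⟨k - 1, by omega⟩
    exact main_B α hα h i θ hθ
  · obtain ⟨N, hN⟩ := exists_nat_ge α
    exact big_alpha N α h (by linarith) m θ hθ

end Pool.Agent.S05079
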