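import Pool.Statements.S05106

set_option autoImplicit false
open Pool Pool.MP_7987d1_an

namespace Pool.Agent.S05106

/-- The front `sigmoid (x / √2 + 3 t / 2)`, a travelling wave of the equation which joins the
unstable state `0` to the stable state `1` and increases in `t`. -/
noncomputable def front (p : EuclideanSpace ℝ (Fin 1) × ℝ) : ℝ :=
  Real.sigmoid (p.1 0 / √2 + 3 / 2 * p.2)

lemma hasDerivAt_sig (s : ℝ) :
    HasDerivAt Real.sigmoid (Real.sigmoid s * (1 - Real.sigmoid s)) s :=
  Real.hasDerivAt_sigmoid s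

/-- derivative of the front in time -/
lemma deriv_time (x : EuclideanSpace ℝ (Fin 1)) (t : ℝ) :
    HasDerivAt (fun s => front (x, s))
      (3 / 2 * (front (x, t) * (1 - front (x, t)))) t := by
  have h1 : HasDerivAt (fun s : ℝ => x 0 / √2 + 3 / 2 * s) (3 / 2) t := by
    simpa using ((hasDerivAt_id t).const_mul (3 / 2 : ℝ)).const_add (x 0 / √2)
  have h2 := (hasDerivAt_sig (x 0 / √2 + 3 / 2 * t)).comp t h1
  refine HasDerivAt.congr_deriv (f := fun s => front (x, s)) h2 ?_
  unfold front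
  ring

/-- the coordinate as a continuous linear map -/
noncomputable def P : EuclideanSpace ℝ (Fin 1) →L[ℝ] ℝ := EuclideanSpace.proj 0

lemma P_apply (y : EuclideanSpace ℝ (Fin 1)) : P y = y 0 := rfl

lemma hasFDerivAt_lin (x : EuclideanSpace ℝ (Fin 1)) (t : ℝ) :
    HasFDerivAt (fun y : EuclideanSpace ℝ (Fin 1) => y 0 / √2 + 3 / 2 * t)
      ((1 / √2) • P) x := by
  have h := (((1 / √2) • P).hasFDerivAt (x := x)).add_const (3 / 2 * t)
  refine h.congr_of_eventuallyEq (Filter.Eventually.of_forall fun y => ?_)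
  simp [P_apply]
  ring

/-- derivative of the front in space -/
lemma fderiv_space (x : EuclideanSpace ℝ (Fin 1)) (t : ℝ) :
    HasFDerivAt (fun y => front (y, t))
      ((front (x, t) * (1 - front (x, t))) • ((1 / √2) • P)) x :=
  (hasDerivAt_sig (x 0 / √2 + 3 / 2 * t)).comp_hasFDerivAt x (hasFDerivAt_lin x t)

lemma fderiv_eq (t : ℝ) :
    fderiv ℝ (fun y => front (y, t)) =
      fun x => (front (x, t) * (1 - front (x, t))) • ((1 / √2) • P) :=
  funext fun x => (fderiv_space x t).fderiv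

/-- second derivative of the front in space -/
lemma fderiv2_space (x : EuclideanSpace ℝ (Fin 1)) (t : ℝ) :
    HasFDerivAt (fderiv ℝ (fun y => front (y, t)))
      ((((1 - 2 * front (x, t)) * (front (x, t) * (1 - front (x, t)))) • ((1 / √2) • P)).smulRight
        ((1 / √2) • P)) x := by
  rw [fderiv_eq]
  have h := fderiv_space x t
  have h2 : HasFDerivAt (fun y => front (y, t) * (1 - front (y, t)))
      (((1 - 2 * front (x, t)) * (front (x, t) * (1 - front (x, t)))) • ((1 / √2) • P)) x := by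
    refine (h.mul ((h.const_sub 1))).congr_fderiv ?_
    ext v
    simp
    ring
  exact h2.smul_const ((1 / √2) • P)

lemma laplace (x : EuclideanSpace ℝ (Fin 1)) (t : ℝ) :
    ∑ i : Fin 1, iteratedFDeriv ℝ 2 (fun y => front (y, t)) x
          (fun _ => EuclideanSpace.single i (1 : ℝ)) =
      1 / 2 * ((1 - 2 * front (x, t)) * (front (x, t) * (1 - front (x, t)))) := by
  rw [Finset.sum_fin_eq_sum_range, Finset.sum_range_one]
  simp only [zero_lt_one, ↓reduceDIte, Fin.zero_eta]
  rw [iteratedFDeriv_two_apply, (fderiv2_space x t).fderiv]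
  have h2 : (√2)⁻¹ * (√2)⁻¹ = (1 / 2 : ℝ) := by
    rw [← mul_inv, Real.mul_self_sqrt (by norm_num)]; norm_num
  have h3 : P (EuclideanSpace.single 0 1) = 1 := by simp [P_apply]
  simp only [ContinuousLinearMap.smulRight_apply, smul_apply, h3, smul_eq_mul, one_div, mul_one]
  rw [show ∀ a b : ℝ, a * (√2)⁻¹ * (√2)⁻¹ = a * ((√2)⁻¹ * (√2)⁻¹) from fun a b => by ring] <;>
    first | (rw [h2]; ring) | exact 0

lemma front_pos (p : EuclideanSpace ℝ (Fin 1) × ℝ) : 0 < front p := Real.sigmoid_pos _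

lemma front_lt_one (p : EuclideanSpace ℝ (Fin 1) × ℝ) : front p < 1 := Real.sigmoid_lt_one _

lemma front_contDiff : ContDiff ℝ 2 front := by
  have h1 : ContDiff ℝ 2 (fun p : EuclideanSpace ℝ (Fin 1) × ℝ => p.1 0 / √2 + 3 / 2 * p.2) := by
    have h0 : ContDiff ℝ 2 (fun p : EuclideanSpace ℝ (Fin 1) × ℝ => P p.1) :=
      P.contDiff.comp contDiff_fst
    exact (h0.div_const _).add (contDiff_const.mul contDiff_snd)
  have h2 : ContDiff ℝ 2 Real.sigmoid := by
    unfold Real.sigmoid
    refine ContDiff.inv (contDiff_const.add (Real.contDiff_exp.comp contDiff_neg)) fun x => ?_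
    positivity
  exact h2.comp h1

/-- The negation of the preceding statement: For 1≤n≤8, every C² solution of Δu−u_t=u³−u for t<0 with ∣u∣≤1, ∂u/∂x_n>0 and u_t≥0 has the form u(x,t)=g(ν·x) for a unit vector ν, i.e. is one-dimensional and time-independent. -/
theorem result :
    ¬ (∀ m : ℕ, m + 1 ≤ 8 → ∀ u : EuclideanSpace ℝ (Fin (m + 1)) × ℝ → ℝ,
    ContDiffOn ℝ 2 u {p | p.2 < 0} →
    (∀ x : EuclideanSpace ℝ (Fin (m + 1)), ∀ t : ℝ, t < 0 →
      |u (x, t)| ≤ 1 ∧
      (∑ i : Fin (m + 1), iteratedFDeriv ℝ 2 (fun y => u (y, t)) x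
          (fun _ => EuclideanSpace.single i (1 : ℝ)))
        - deriv (fun s => u (x, s)) t = u (x, t) ^ 3 - u (x, t) ∧
      0 < fderiv ℝ (fun y => u (y, t)) x (EuclideanSpace.single (Fin.last m) (1 : ℝ)) ∧
      0 ≤ deriv (fun s => u (x, s)) t) →
    ∃ ν : EuclideanSpace ℝ (Fin (m + 1)), ‖ν‖ = 1 ∧
      ∃ g : ℝ → ℝ, ∀ x : EuclideanSpace ℝ (Fin (m + 1)), ∀ t : ℝ, t < 0 →
        u (x, t) = g (inner ℝ ν x)) := by
  intro H
  obtain ⟨ν, -, g, hg⟩ := H 0 (by norm_num) front front_contDiff.contDiffOn (by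
    intro x t _
    have hp := front_pos (x, t)
    have hl := front_lt_one (x, t)
    have hq : 0 < front (x, t) * (1 - front (x, t)) := mul_pos hp (by linarith)
    refine ⟨?_, ?_, ?_, ?_⟩
    · rw [abs_of_pos hp]; exact hl.le
    · rw [(deriv_time x t).deriv]
      have := laplace x t
      change (∑ i : Fin 1, iteratedFDeriv ℝ 2 (fun y => front (y, t)) x
          (fun _ => EuclideanSpace.single i (1 : ℝ))) - _ = _
      rw [this]
      ring
    · rw [fderiv_eq]
      have h3 : P (EuclideanSpace.single (Fin.last 0) 1) = 1 := by simp [P_apply]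
      simp only [smul_apply, h3, smul_eq_mul, mul_one]
      positivity
    · rw [(deriv_time x t).deriv]
      positivity)
  have h1 := hg 0 (-1) (by norm_num)
  have h2 := hg 0 (-2) (by norm_num)
  rw [← h2] at h1
  have h3 := Real.sigmoid_injective h1
  norm_num at h3

end Pool.Agent.S05106
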