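import Pool.Statements.S05156
-- import your own Pool.Agent.* helpers here

set_option autoImplicit false
open Pool Pool.MP_7d5b5f_an

namespace Pool.Agent.S05156

/-- The negation of the preceding statement: For each p>1 there is C, independent of dimension d and coordinate k, so the discrete Riesz transform with kernel Γ((d+1)/2)π^{-(d+1)/2} x_k/∣x∣^{d+1} on ℤ^d is bounded on ℓ^p with norm at most C (tested on finitely supported f). -/
theorem result :
    ¬ (∀ p : ℝ, 1 < p → ∃ C : ℝ, 0 < C ∧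
      ∀ (d : ℕ) (k : Fin d) (S T : Finset (Fin d → ℤ)) (f : (Fin d → ℤ) → ℝ),
        ∑ n ∈ T, |∑ m ∈ S,
            ((Real.Gamma (((d : ℝ) + 1) / 2) / Real.pi ^ (((d : ℝ) + 1) / 2)) *
              (((n k - m k : ℤ) : ℝ) /
                (Real.sqrt (∑ i, (((n i - m i : ℤ) : ℝ)) ^ 2)) ^ (d + 1))) * f m| ^ p
          ≤ C ^ p * ∑ m ∈ S, |f m| ^ p) := by
  intro h
  obtain ⟨C, hC, hb⟩ := h 2 one_lt_two
  -- the normalising constant is bounded by `C` in every dimension
  have key : ∀ n : ℕ, ((n.factorial : ℕ) : ℝ) / Real.pi ^ (n + 1) ≤ C := by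
    intro n
    have h1 := hb (2 * n + 1) ⟨0, by omega⟩ {0} {Pi.single ⟨0, by omega⟩ 1} (fun _ => 1)
    have h2 : ∑ i : Fin (2 * n + 1), ((((Pi.single (⟨0, by omega⟩ : Fin (2 * n + 1)) (1 : ℤ) :
        Fin (2 * n + 1) → ℤ) i - (0 : Fin (2 * n + 1) → ℤ) i : ℤ) : ℝ)) ^ 2 = 1 := by
      rw [Finset.sum_eq_single (⟨0, by omega⟩ : Fin (2 * n + 1))]
      · rw [Pi.single_eq_same, Pi.zero_apply]; norm_num
      · intro j _ hj
        rw [Pi.single_eq_of_ne hj, Pi.zero_apply]; norm_num
      · intro h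
        exact absurd (Finset.mem_univ _) h
    rw [Finset.sum_singleton, Finset.sum_singleton, Finset.sum_singleton, h2] at h1
    have h3 : (((2 * n + 1 : ℕ) : ℝ) + 1) / 2 = ((n : ℝ) + 1) := by push_cast; ring
    rw [h3, Real.Gamma_nat_eq_factorial] at h1
    have h4 : Real.pi ^ ((n : ℝ) + 1) = Real.pi ^ (n + 1) := by
      rw [← Real.rpow_natCast]; push_cast; rfl
    rw [h4] at h1
    simp only [Pi.single_eq_same, Pi.zero_apply, sub_zero, Int.cast_one, Real.sqrt_one, one_pow,
      div_one, mul_one, abs_one, Real.one_rpow] at h1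
    have h5 : (0 : ℝ) ≤ ((n.factorial : ℕ) : ℝ) / Real.pi ^ (n + 1) := by positivity
    rw [abs_of_nonneg h5] at h1
    exact (Real.rpow_le_rpow_iff h5 hC.le two_pos).1 h1
  -- but the factorial beats every power
  have h6 := FloorSemiring.tendsto_pow_div_factorial_atTop Real.pi
  have h7 : (0 : ℝ) < 1 / (2 * Real.pi * C) := by positivity
  obtain ⟨n, hn⟩ := (h6.eventually (gt_mem_nhds h7)).exists
  have h8 := key n
  have h9 : (0 : ℝ) < Real.pi ^ n := by positivity
  have h10 : (0 : ℝ) < ((n.factorial : ℕ) : ℝ) := by positivity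
  rw [div_lt_div_iff₀ h10 (by positivity)] at hn
  rw [div_le_iff₀ (by positivity), pow_succ] at h8
  have h11 : 0 < Real.pi := Real.pi_pos
  have h12 : 0 < Real.pi ^ n * Real.pi * C := by positivity
  nlinarith

end Pool.Agent.S05156
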