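import Pool.Statements.S05168
-- import your own Pool.Agent.* helpers here
import Pool.Agent.H493.CavMain

set_option autoImplicit false
open MeasureTheory
open Pool Pool.MP_7dd24e_an

namespace Pool.Agent.S05168

/-- The negation of the preceding statement: If two nested topological spheres in R^3 bound a shell whose Newtonian potential is constant in the inner cavity, then the two surfaces are the images of concentric spheres of radii 1 and k<1 under one invertible affine map. -/
theorem result :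
    ¬ (∀ (S S₁ U T₁ : Set (EuclideanSpace ℝ (Fin 3))),
    Nonempty (S ≃ₜ Metric.sphere (0 : EuclideanSpace ℝ (Fin 3)) 1) →
    Nonempty (S₁ ≃ₜ Metric.sphere (0 : EuclideanSpace ℝ (Fin 3)) 1) →
    IsOpen U → IsConnected U → Bornology.IsBounded U → frontier U = S →
    IsOpen T₁ → IsConnected T₁ → Bornology.IsBounded T₁ → frontier T₁ = S₁ →
    closure T₁ ⊆ U →
    (∃ c : ℝ, ∀ P ∈ T₁, ∫ M in U \ closure T₁, (dist P M)⁻¹ = c) →
    ∃ (f : EuclideanSpace ℝ (Fin 3) ≃ᵃ[ℝ] EuclideanSpace ℝ (Fin 3)) (k : ℝ),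
      0 < k ∧ k < 1 ∧
      S = f '' Metric.sphere (0 : EuclideanSpace ℝ (Fin 3)) 1 ∧
      S₁ = f '' Metric.sphere (0 : EuclideanSpace ℝ (Fin 3)) k) := by
  intro H
  obtain ⟨K, hK, h0, hst, hKU, hpot⟩ := Pool.Agent.H493.Cav.cavity
  have hcl := Pool.Agent.H493.Cav.star_closure K hK.isClosed hst
  have hU0 := Pool.Agent.H493.Cav.zero_mem
  have hUo := Pool.Agent.H493.Cav.UU_open
  have hUb : Bornology.IsBounded Pool.Agent.H493.Cav.UU :=
    (Metric.isBounded_ball (x := (0 : EuclideanSpace ℝ (Fin 3))) (r := 1)).subset Set.inter_subset_left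
  have hKb : Bornology.IsBounded (interior K) := hK.isBounded.subset interior_subset
  obtain ⟨f, k, -, -, hf, -⟩ := H (frontier Pool.Agent.H493.Cav.UU) (frontier (interior K))
    Pool.Agent.H493.Cav.UU (interior K)
    (Pool.Agent.H493.Cav.star_homeo _ hU0 hUb
      (Pool.Agent.H493.Cav.convex_star _ Pool.Agent.H493.Cav.UU_convex hU0))
    (Pool.Agent.H493.Cav.star_homeo _ (by rw [interior_interior]; exact h0) hKb
      (Pool.Agent.H493.Cav.star_interior K hst hK.isClosed))
    hUo
    (Pool.Agent.H493.Cav.UU_convex.isConnected ⟨0, interior_subset hU0⟩)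
    hUb rfl isOpen_interior
    (Pool.Agent.H493.Cav.star_conn K h0 hst)
    hKb rfl (by rw [hcl]; exact hKU)
    ⟨3/2 * Real.pi, fun P hP => by rw [hcl]; exact hpot P hP⟩
  exact Pool.Agent.H493.Cav.not_ellipsoid f hf

end Pool.Agent.S05168
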