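import Pool.Statements.S05242
import Pool.Agent.H741JC.Main

set_option autoImplicit false
open Pool Pool.MP_830bfa_an

namespace Pool.Agent.S05242

/-- The negation of the preceding statement: For every n ≥ 2, a C¹ map f from ℝⁿ to ℝⁿ whose Jacobian is everywhere invertible, with every complex eigenvalue of every Jacobian of modulus at least some fixed ε > 0, is injective. -/
theorem result :
    ¬ (∀ n : ℕ, 2 ≤ n → ∀ f : (Fin n → ℝ) → (Fin n → ℝ), ContDiff ℝ 1 f →
      (∀ x : Fin n → ℝ,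
        (LinearMap.toMatrix' ((fderiv ℝ f x : (Fin n → ℝ) →L[ℝ] (Fin n → ℝ)) :
          (Fin n → ℝ) →ₗ[ℝ] (Fin n → ℝ))).det ≠ 0) →
      (∃ ε : ℝ, 0 < ε ∧ ∀ x : Fin n → ℝ, ∀ z : ℂ,
        Polynomial.aeval z
          (LinearMap.toMatrix' ((fderiv ℝ f x : (Fin n → ℝ) →L[ℝ] (Fin n → ℝ)) :
            (Fin n → ℝ) →ₗ[ℝ] (Fin n → ℝ))).charpoly = 0 → ε ≤ ‖z‖) →
      Function.Injective f) := by
  intro h
  obtain ⟨M, hM, f, hf, hz, hinj⟩ := Pool.Agent.H741JC.main
  refine hinj (h M hM f hf ?_ ⟨1, one_pos, ?_⟩)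
  · intro x hdet
    have h0 := hz x 0
    rw [Matrix.det_eq_sign_charpoly_coeff] at hdet
    have h1 : (LinearMap.toMatrix' ((fderiv ℝ f x : (Fin M → ℝ) →L[ℝ] (Fin M → ℝ)) :
        (Fin M → ℝ) →ₗ[ℝ] (Fin M → ℝ))).charpoly.coeff 0 = 0 := by
      rcases mul_eq_zero.1 hdet with h2 | h2
      · exact absurd h2 (pow_ne_zero _ (by norm_num))
      · exact h2
    have h3 := h0 (by
      rw [Polynomial.aeval_def, Polynomial.eval₂_at_zero, h1, map_zero])
    exact zero_ne_one h3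
  · intro x z hx
    rw [hz x z hx]
    simp

end Pool.Agent.S05242
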