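import Pool.Statements.S05316
import Pool.Agent.H588_SG.Bound

set_option autoImplicit false
open Pool Pool.MP_8a8b2f_an

namespace Pool.Agent.S05316

/-- The negation of the preceding statement: Take a strongly continuous contraction semigroup on a complex Hilbert space with generator A, and some m>0 with ‖(μ−A)x‖ ≥ m∣Re μ∣‖x‖ for all x in D(A) and Re μ<0. Then some m₁>0 gives ‖T(t)x‖ ≥ m₁‖x‖ for all t≥0 and all x. -/
theorem result :
    ¬ (∀ (H : Type) [NormedAddCommGroup H] [InnerProductSpace ℂ H] [CompleteSpace H]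
      (T : ℝ → H →L[ℂ] H),
      T 0 = ContinuousLinearMap.id ℂ H →
      (∀ s t : ℝ, 0 ≤ s → 0 ≤ t → T (s + t) = (T s).comp (T t)) →
      (∀ x : H, ContinuousOn (fun t : ℝ => T t x) (Set.Ici 0)) →
      (∀ t : ℝ, 0 ≤ t → ‖T t‖ ≤ 1) →
      ∀ m : ℝ, 0 < m →
      (∀ x y : H,
        Filter.Tendsto (fun h : ℝ => ((h : ℂ)⁻¹) • (T h x - x))
          (nhdsWithin 0 (Set.Ioi 0)) (nhds y) →
        ∀ μ : ℂ, μ.re < 0 → m * |μ.re| * ‖x‖ ≤ ‖μ • x - y‖) →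
      ∃ m₁ : ℝ, 0 < m₁ ∧ ∀ t : ℝ, 0 ≤ t → ∀ x : H, m₁ * ‖x‖ ≤ ‖T t x‖) := by
  intro hall
  obtain ⟨m₁, hm₁, hlow⟩ := hall Pool.Agent.H588_SG.HH Pool.Agent.H588_SG.TT
    Pool.Agent.H588_SG.TT_zero Pool.Agent.H588_SG.TT_add
    Pool.Agent.H588_SG.continuousOn_TT (fun t _ => Pool.Agent.H588_SG.norm_TT_le t)
    (1 / 2) (by norm_num) (by
      intro x y hxy μ hμ
      have h1 := (continuous_subtype_val.tendsto y).comp hxy
      exact Pool.Agent.H588_SG.resolvent_bound (x : Pool.Agent.H588_SG.L2R)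
        (y : Pool.Agent.H588_SG.L2R) x.2 h1 μ hμ)
  have h2 := hlow (2 / m₁) (by positivity)
    ⟨Pool.Agent.H588_SG.xx, Pool.Agent.H588_SG.xx_mem⟩
  have h3 := Pool.Agent.H588_SG.norm_T'_xx (2 / m₁) (by positivity)
  have h4 : ‖(⟨Pool.Agent.H588_SG.xx, Pool.Agent.H588_SG.xx_mem⟩ :
      Pool.Agent.H588_SG.HH)‖ = 1 := Pool.Agent.H588_SG.norm_xx
  rw [h4, mul_one] at h2
  have h5 : m₁ ≤ 2 / (2 + 2 / m₁) := h2.trans h3
  rw [le_div_iff₀ (by positivity)] at h5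
  have h6 : m₁ * (2 + 2 / m₁) = 2 * m₁ + 2 := by
    field_simp
  linarith

end Pool.Agent.S05316
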