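import Pool.Statements.S05335
import Pool.Agent.H921.NI.Down
import Pool.Agent.H921.NI.Up

set_option autoImplicit false
open Pool Pool.MP_8c09cc_an

namespace Pool.Agent.S05335

/-- For every k ≥ 1, nontrivial complex Banach space X and nonempty compact Hausdorff K, the k-th polynomial numerical index of C(K,X) equals that of X: a constant c bounds v(P) ≥ c‖P‖ for all k-homogeneous P on X iff it does on C(K,X). -/
theorem result :
  ∀ (k : ℕ), 1 ≤ k →
  ∀ (X : Type) [NormedAddCommGroup X] [NormedSpace ℂ X] [CompleteSpace X] [Nontrivial X],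
  ∀ (K : Type) [TopologicalSpace K] [CompactSpace K] [T2Space K] [Nonempty K],
  ∀ c : ℝ,
    (∀ (A : ContinuousMultilinearMap ℂ (fun _ : Fin k => X) X) (y : X), ‖y‖ ≤ 1 →
      ∀ ε : ℝ, 0 < ε →
        ∃ (x : X) (f : X →L[ℂ] ℂ), ‖x‖ = 1 ∧ ‖f‖ = 1 ∧ f x = 1 ∧
          c * ‖A (fun _ => y)‖ - ε < ‖f (A (fun _ => x))‖) ↔
    (∀ (A : ContinuousMultilinearMap ℂ (fun _ : Fin k => C(K, X)) C(K, X)) (y : C(K, X)),
      ‖y‖ ≤ 1 → ∀ ε : ℝ, 0 < ε →
        ∃ (x : C(K, X)) (f : C(K, X) →L[ℂ] ℂ), ‖x‖ = 1 ∧ ‖f‖ = 1 ∧ f x = 1 ∧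
          c * ‖A (fun _ => y)‖ - ε < ‖f (A (fun _ => x))‖) := by
  intro k _ X _ _ _ _ K _ _ _ _ c
  constructor
  · intro H A y hy ε hε
    exact Pool.Agent.H921.NI.up c H A y hy ε hε
  · intro H A y hy ε hε
    by_contra hcon
    push Not at hcon
    -- `hcon` bounds the numerical radius
    have hr : 0 ≤ c * ‖A (fun _ => y)‖ - ε := by
      obtain ⟨v, hv⟩ := exists_ne (0 : X)
      have hpos : 0 < ‖v‖ := norm_pos_iff.2 hv
      obtain ⟨f, hf1, hfv⟩ := exists_dual_vector ℂ v hpos.ne'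
      have := hcon (((‖v‖ : ℂ)⁻¹) • v) f (by
        rw [norm_smul, norm_inv, Complex.norm_real, norm_norm]
        exact inv_mul_cancel₀ hpos.ne') hf1 (by
        rw [map_smul, hfv, smul_eq_mul]
        exact inv_mul_cancel₀ (by exact_mod_cast hpos.ne'))
      exact (norm_nonneg _).trans this
    obtain ⟨g, F, hg, hF, hFg, hlt⟩ := H (Pool.Agent.H921.NI.ext A) (ContinuousMap.const K y) (by
      rw [ContinuousMap.norm_le _ zero_le_one]
      intro t; exact hy) (ε / 2) (by positivity)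
    have h1 := Pool.Agent.H921.NI.down A _ hr hcon g F hg hF hFg
    have h2 : ‖Pool.Agent.H921.NI.ext (K := K) A (fun _ => ContinuousMap.const K y)‖
        = ‖A (fun _ => y)‖ := by
      refine le_antisymm ?_ ?_
      · rw [ContinuousMap.norm_le _ (norm_nonneg _)]
        intro t; exact le_rfl
      · obtain ⟨t⟩ := ‹Nonempty K›
        calc ‖A (fun _ => y)‖
            = ‖Pool.Agent.H921.NI.ext (K := K) A (fun _ => ContinuousMap.const K y) t‖ := rfl
          _ ≤ _ := ContinuousMap.norm_coe_le_norm _ t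
    rw [h2] at hlt
    linarith

end Pool.Agent.S05335
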