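import Pool.Statements.S05343
import Pool.Agent.Helper144_BH.Main

/-!
# The Blackadar-Handelman conjecture: dimension functions form a Choquet simplex

Sketch of the proof, with the files in which the steps are done (all in `Pool/Agent/Helper144_BH`).

1. (`Form.lean`, `FormOps.lean`, `Var.lean`) Let `R` be a ring.  A Sylvester matrix rank function is
   a nonnegative function on rectangular matrices over `R` which is monotone under multiplication,
   additive on block diagonal and superadditive on block triangular matrices.  It induces a
   dimension on pp-formulas, `dim (P v + Q w = 0 for some w) = rk 1 - rk [P Q] + rk Q`, which is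
   monotone (a lemma of Prest plus superadditivity), modular, and compatible with images and kernels
   of matrices.  The difference of two such dimensions has a positive part (supremum over finite
   chains of formulas of the sums of the positive increments), which is again monotone, modular and
   compatible with images and kernels.  Hence the rank functions of any ring form a lattice cone.
2. (`MatCuntz.lean`) If `d` is a dimension function on a C*-algebra then `rk x = d (x* x)` is a
   Sylvester rank function: superadditivity holds since `[[x, z], [0, y]]` is similar to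
   `[[x, t z], [0, y]]` for each `t > 0`, and Cuntz subequivalence is closed under norm limits.
3. (`Hered.lean`) Let `rk = r1 + r2` where `r1` and `r2` are monotone under multiplication and
   additive on block diagonal matrices.  Then `r1 (x* x) = r1 x = r1 (x x*)`, `r1 z ≤ r1 s` for `z`
   in the closed right ideal of `s`, and `r1 (f(a)) ≤ r1 (g(a))` if `f > 0` implies `g > 0`: in each
   case the inequalities which hold for `r1` and `r2` add up to an equality for `rk`.
4. (`Tower.lean`, `WinFun.lean`, `Windows.lean`, `Hered.lean`) `r1` is monotone for Cuntz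
   subequivalence.  If `a` is Cuntz below `b = s* s`, there are `V_k` in the closed right ideal of
   `s` with `V_k* V_k = χ_k(a)^2`, `χ_k = 1` on `[α_k, ∞)`, `α_k → 0`.  Put
   `q_k = 1 - V_k (1 - cos θ_k(a)) V_k*` and `η_k = V_{k+1} sin θ_k(a) V_k*`, so that
   `q_k* q_k + η_k* η_k = 1`.  The maps `(y, e_1, ..., e_m) ↦ (y_m, q_k y_0, ..., q_k y_{m-1})`,
   `y_0 = y`, `y_{i+1} = η_k y_i + e_{i+1}`, are isometric on vectors with `η_k* e_i = 0`, and their
   compositions embed `m` copies of the part of `a` living on the windows
   `{sin θ_{k-1} = 0} ∩ {cos θ_k = 0}`, isometrically and orthogonally for different `k`, into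
   `m + 1` copies of the closed right ideal of `s`.  The gaps between the windows can be chosen of
   small `r1`, so `m r1(a) ≤ (m+1) r1(b)` up to a small error, for every `m`.
5. (`Main.lean`) Hence the cone of dimension functions is a hereditary subcone of the lattice cone
   of rank functions, and is a lattice.
-/

set_option autoImplicit false
open scoped Matrix
open Pool Pool.MP_8d0139_an

namespace Pool.Agent.S05343

/-- For every unital C*-algebra, the cone of nonnegative, additive, Cuntz-monotone functions on positive matrices over it is a lattice in its own order, i.e. the normalized dimension functions form a Choquet simplex. -/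
theorem result :
  ∀ (A : Type) [CStarAlgebra A],
    ∀ (P : (n : ℕ) → Matrix (Fin n) (Fin n) A → Prop)
      (R : (n m : ℕ) → Matrix (Fin n) (Fin n) A → Matrix (Fin m) (Fin m) A → Prop)
      (D : ((n : ℕ) → Matrix (Fin n) (Fin n) A → ℝ) → Prop),
      (∀ (n : ℕ) (a : Matrix (Fin n) (Fin n) A),
          P n a ↔ ∃ x : Matrix (Fin n) (Fin n) A, a = xᴴ * x) →
      (∀ (n m : ℕ) (a : Matrix (Fin n) (Fin n) A) (b : Matrix (Fin m) (Fin m) A),
          R n m a b ↔ ∃ x : ℕ → Matrix (Fin n) (Fin m) A,
            Filter.Tendsto (fun k => x k * b * (x k)ᴴ) Filter.atTop (nhds a)) →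
      (∀ d : (n : ℕ) → Matrix (Fin n) (Fin n) A → ℝ,
          D d ↔
            ((∀ (n : ℕ) (a : Matrix (Fin n) (Fin n) A), P n a → 0 ≤ d n a) ∧
             (∀ (n m : ℕ) (a : Matrix (Fin n) (Fin n) A) (b : Matrix (Fin m) (Fin m) A),
                P n a → P m b →
                  d (n + m) (Matrix.reindex finSumFinEquiv finSumFinEquiv
                    (Matrix.fromBlocks a 0 0 b)) = d n a + d m b) ∧
             (∀ (n m : ℕ) (a : Matrix (Fin n) (Fin n) A) (b : Matrix (Fin m) (Fin m) A),
                P n a → P m b → R n m a b → d n a ≤ d m b))) →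
      ∀ f g : (n : ℕ) → Matrix (Fin n) (Fin n) A → ℝ, D f → D g →
        (∃ s : (n : ℕ) → Matrix (Fin n) (Fin n) A → ℝ,
            D s ∧ D (s - f) ∧ D (s - g) ∧
            ∀ k : (n : ℕ) → Matrix (Fin n) (Fin n) A → ℝ,
              D k → D (k - f) → D (k - g) → D (k - s)) ∧
        (∃ i : (n : ℕ) → Matrix (Fin n) (Fin n) A → ℝ,
            D i ∧ D (f - i) ∧ D (g - i) ∧
            ∀ k : (n : ℕ) → Matrix (Fin n) (Fin n) A → ℝ,
              D k → D (f - k) → D (g - k) → D (i - k)) := by
  intro A _ P R D hP hR hD f g hf hg
  have hPP : ∀ (n : ℕ) (a : Matrix (Fin n) (Fin n) A), P n a ↔ Helper144_BH.Pos a := hP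
  have hRR : ∀ (n m : ℕ) (a : Matrix (Fin n) (Fin n) A) (b : Matrix (Fin m) (Fin m) A),
      R n m a b ↔ Helper144_BH.Cz a b := by
    intro n m a b
    rw [hR, Helper144_BH.cz_iff_seq]
  have hDD : ∀ d : (n : ℕ) → Matrix (Fin n) (Fin n) A → ℝ, D d ↔ Helper144_BH.IsD d := by
    intro d
    rw [hD]
    unfold Helper144_BH.IsD
    simp only [hPP, hRR]
  simp only [hDD] at hf hg ⊢
  exact Helper144_BH.lattice hf hg

end Pool.Agent.S05343
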