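import Pool.Statements.S05648
import Pool.Agent.Helper13_HS.Final

set_option autoImplicit false
open MeasureTheory Filter Topology
open Pool Pool.MP_a271d0_an

namespace Pool.Agent.S05648

open Pool.Agent.Helper13_HS

/-- the centre of the ball -/
noncomputable def cen : E := EuclideanSpace.single 0 (1 : ℝ)

lemma norm_cen : ‖cen‖ = 1 := by simp [cen]

/-- the ball of radius one, with the origin on its boundary, is star-shaped about the origin -/
lemma star (t : ℝ) (ht : 0 < t) (ht1 : t ≤ 1) (x : E) (hx : x ∈ Metric.ball cen 1) :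
    t • x ∈ Metric.ball cen 1 := by
  rw [Metric.mem_ball, dist_eq_norm] at *
  have h1 : ‖x - cen‖ ^ 2 = ‖x‖ ^ 2 - 2 * inner ℝ x cen + ‖cen‖ ^ 2 := norm_sub_sq_real x cen
  have h2 : ‖t • x - cen‖ ^ 2 = ‖t • x‖ ^ 2 - 2 * inner ℝ (t • x) cen + ‖cen‖ ^ 2 :=
    norm_sub_sq_real (t • x) cen
  rw [norm_cen] at h1 h2
  rw [norm_smul, inner_smul_left, Real.norm_of_nonneg ht.le] at h2
  simp only [conj_trivial] at h2
  have h3 : ‖x - cen‖ ^ 2 < 1 := by
    have := norm_nonneg (x - cen)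
    nlinarith
  have h4 : ‖t • x - cen‖ ^ 2 < 1 := by
    rw [h2]
    have h5 : ‖x‖ ^ 2 < 2 * inner ℝ x cen := by linarith
    nlinarith [mul_pos ht (sub_pos.2 h5), mul_nonneg (mul_nonneg ht.le (sub_nonneg.2 ht1)) (sq_nonneg ‖x‖)]
  have h6 := norm_nonneg (t • x - cen)
  by_contra h7
  rw [not_lt] at h7
  nlinarith

lemma rpow32 (x : E) : ‖x‖ ^ (3 / 2 : ℝ) = √‖x‖ * ‖x‖ := by
  have h : (3 / 2 : ℝ) = 1 / 2 + 1 := by norm_num
  rw [h, Real.rpow_add' (norm_nonneg x) (by norm_num), Real.rpow_one, Real.sqrt_eq_rpow]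

/-- no solution on the ball -/
theorem core {u : E → ℝ} {G : E → E} (h : Adm (Metric.ball cen 1) u G)
    (hpos : ∀ᵐ x ∂(volume : Measure E), x ∈ Metric.ball cen 1 → 0 < u x)
    (heq : ∀ ψ : E → ℝ, Tst (Metric.ball cen 1) ψ →
        Integrable (fun x => (inner ℝ (G x) (gradient ψ x) : ℝ)) volume ∧
        Integrable (fun x => u x ^ 3 * ψ x) volume ∧
        Integrable (fun x => u x ^ 2 * ψ x / (√‖x‖ * ‖x‖)) volume ∧
        ∫ x, ((inner ℝ (G x) (gradient ψ x) : ℝ) + u x ^ 3 * ψ x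
              - u x ^ 2 * ψ x / (√‖x‖ * ‖x‖)) = 0) : False := by
  refine no_solution (fun t ht ht1 x hx => star t ht ht1 x hx) h ?_ ?_
  · have hu3 := h.memLp_cube
    have hu4 : Integrable (fun x => u x ^ 4) volume := by
      refine (memLp_mul_cube h.1 hu3).congr (ae_of_all _ fun x => ?_)
      show u x * u x ^ 3 = u x ^ 4
      ring
    have h0 : 0 ≤ ∫ x, u x ^ 4 := integral_nonneg fun x => by positivity
    refine lt_of_le_of_ne h0 fun h1 => ?_
    have h2 := (integral_eq_zero_iff_of_nonneg (fun x => by positivity) hu4).1 h1.symm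
    have h3 : ∀ᵐ x ∂(volume : Measure E), x ∉ Metric.ball cen 1 := by
      filter_upwards [hpos, h2] with x hx hx2 hx3
      have := hx hx3
      have h4 : u x ^ 4 = 0 := hx2
      have : 0 < u x ^ 4 := by positivity
      linarith
    have h4 : (volume : Measure E) (Metric.ball cen 1) = 0 := by
      rw [ae_iff] at h3
      have e : {a : E | ¬ a ∉ Metric.ball cen 1} = Metric.ball cen 1 := by
        ext a
        simp
      rwa [e] at h3
    exact (Metric.measure_ball_pos volume cen one_pos).ne' h4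
  · intro ψ hψ
    obtain ⟨i1, i2, i3, h4⟩ := heq ψ hψ
    have i12 : Integrable (fun x => (inner ℝ (G x) (gradient ψ x) : ℝ) + u x ^ 3 * ψ x) volume :=
      i1.add i2
    rw [integral_sub i12 i3, integral_add i1 i2] at h4
    have e : (fun x => u x ^ 2 / √‖x‖ * (ψ x / ‖x‖)) = fun x => u x ^ 2 * ψ x / (√‖x‖ * ‖x‖) := by
      funext x
      rw [div_mul_div_comm]
    rw [e]
    linarith

/-- The negation of the preceding statement: For every N≥3, smooth bounded domain Ω in R^N with 0 on its boundary, s in (0,2) and 2*(s)-1<p<(N+2)/(N-2), there is an H^1_0 function u>0 on Ω weakly solving Δu - u^p + u^(2*(s)-1)/∣x∣^s = 0. -/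
theorem result :
    ¬ (∀ (N : ℕ), 3 ≤ N →
  ∀ (Ω : Set (EuclideanSpace ℝ (Fin N))),
    IsOpen Ω → IsConnected Ω → Bornology.IsBounded Ω →
    (∃ ρ : EuclideanSpace ℝ (Fin N) → ℝ,
        ContDiff ℝ ((⊤ : ℕ∞) : WithTop ℕ∞) ρ ∧ Ω = {x | ρ x < 0} ∧
        ∀ x ∈ frontier Ω, fderiv ℝ ρ x ≠ 0) →
    (0 : EuclideanSpace ℝ (Fin N)) ∈ frontier Ω →
  ∀ s : ℝ, 0 < s → s < 2 →
  ∀ p : ℝ, 2 * ((N : ℝ) - s) / ((N : ℝ) - 2) - 1 < p →
    p < ((N : ℝ) + 2) / ((N : ℝ) - 2) →
  ∃ u : EuclideanSpace ℝ (Fin N) → ℝ,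
  ∃ G : EuclideanSpace ℝ (Fin N) → EuclideanSpace ℝ (Fin N),
    MemLp u 2 volume ∧ MemLp G 2 volume ∧
    (∃ φ : ℕ → EuclideanSpace ℝ (Fin N) → ℝ,
        (∀ n, ContDiff ℝ ((⊤ : ℕ∞) : WithTop ℕ∞) (φ n) ∧
              HasCompactSupport (φ n) ∧ tsupport (φ n) ⊆ Ω) ∧
        Tendsto (fun n => eLpNorm (fun x => φ n x - u x) 2 volume) atTop (𝓝 0) ∧
        Tendsto (fun n => eLpNorm (fun x => gradient (φ n) x - G x) 2 volume)
          atTop (𝓝 0)) ∧
    (∀ᵐ x ∂(volume : Measure (EuclideanSpace ℝ (Fin N))), x ∈ Ω → 0 < u x) ∧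
    ∀ ψ : EuclideanSpace ℝ (Fin N) → ℝ,
      ContDiff ℝ ((⊤ : ℕ∞) : WithTop ℕ∞) ψ → HasCompactSupport ψ → tsupport ψ ⊆ Ω →
        Integrable (fun x => inner ℝ (G x) (gradient ψ x)) volume ∧
        Integrable (fun x => u x ^ p * ψ x) volume ∧
        Integrable (fun x => u x ^ (2 * ((N : ℝ) - s) / ((N : ℝ) - 2) - 1) * ψ x / ‖x‖ ^ s)
          volume ∧
        ∫ x, (inner ℝ (G x) (gradient ψ x) + u x ^ p * ψ x
              - u x ^ (2 * ((N : ℝ) - s) / ((N : ℝ) - 2) - 1) * ψ x / ‖x‖ ^ s) = 0) := by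
  intro H
  have hs1 : (0 : ℝ) < 3 / 2 := by norm_num
  have hs2 : (3 / 2 : ℝ) < 2 := by norm_num
  obtain ⟨u, G, h1, h2, ⟨φ, hφ, h3, h4⟩, h5, h6⟩ := H 3 le_rfl (Metric.ball cen 1)
    Metric.isOpen_ball ⟨Metric.nonempty_ball.2 one_pos, (convex_ball _ _).isPreconnected⟩
    Metric.isBounded_ball ⟨fun x => ‖x - cen‖ ^ 2 - 1,
      ((contDiff_id.sub contDiff_const).norm_sq ℝ).sub contDiff_const, by
      ext x
      rw [Metric.mem_ball, dist_eq_norm, Set.mem_ofPred_eq]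
      have := norm_nonneg (x - cen)
      constructor
      · intro h
        nlinarith
      · intro h
        by_contra h'
        rw [not_lt] at h'
        nlinarith, by
      intro x hx h0
      rw [frontier_ball _ one_ne_zero, mem_sphere_iff_norm] at hx
      have hd : HasFDerivAt (fun x : E => ‖x - cen‖ ^ 2 - 1) (2 • (innerSL ℝ (x - cen))) x := by
        have h7 : HasFDerivAt (fun x : E => x - cen) (ContinuousLinearMap.id ℝ E) x :=
          (hasFDerivAt_id x).sub_const cen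
        have h8 := (h7.norm_sq).sub_const 1
        refine h8.congr_fderiv ?_
        ext v
        simp
      rw [hd.fderiv] at h0
      have h9 := congrArg (fun L : E →L[ℝ] ℝ => L (x - cen)) h0
      have h10 : (2 : ℝ) * inner ℝ (x - cen) (x - cen) = 0 := by
        have h11 : (fun L : E →L[ℝ] ℝ => L (x - cen)) (2 • (innerSL ℝ) (x - cen))
            = 2 * inner ℝ (x - cen) (x - cen) := by
          show 2 • (inner ℝ (x - cen) (x - cen) : ℝ) = _
          rw [nsmul_eq_mul]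
          norm_num
        rw [← h11]
        exact h9
      rw [real_inner_self_eq_norm_sq, hx] at h10
      norm_num at h10⟩ (by
      rw [frontier_ball _ one_ne_zero, mem_sphere_iff_norm, zero_sub, norm_neg]
      exact norm_cen) (3 / 2) hs1 hs2 3 (by norm_num) (by norm_num)
  have e2 : (2 * (((3 : ℕ) : ℝ) - 3 / 2) / (((3 : ℕ) : ℝ) - 2) - 1) = ((2 : ℕ) : ℝ) := by norm_num
  have e3 : (3 : ℝ) = ((3 : ℕ) : ℝ) := by norm_num
  refine core (u := u) (G := G) ⟨h1, h2, φ, hφ, h3, h4⟩ h5 fun ψ hψ => ?_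
  obtain ⟨j1, j2, j3, j4⟩ := h6 ψ hψ.1 hψ.2.1 hψ.2.2
  rw [e2] at j3 j4
  rw [e3] at j2
  simp only [Real.rpow_natCast, rpow32] at j2 j3
  refine ⟨j1, j2, j3, ?_⟩
  rw [← j4]
  refine integral_congr_ae (ae_of_all _ fun x => ?_)
  show _ = (inner ℝ (G x) (gradient ψ x) : ℝ) + u x ^ (3 : ℝ) * ψ x
    - u x ^ ((2 : ℕ) : ℝ) * ψ x / ‖x‖ ^ (3 / 2 : ℝ)
  rw [rpow32, Real.rpow_natCast]
  have : u x ^ (3 : ℝ) = u x ^ 3 := by
    rw [← Real.rpow_natCast]
    norm_num
  rw [this]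

end Pool.Agent.S05648
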