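import Pool.Statements.S05680

/-!
# The real analogue of Lempert's theorem fails, even for strongly convex domains of `ℝ³`

The domain is `Ω = {25 (x⁴ + y⁴) + 2 (x² + y²) + t² < 20} ⊂ ℝ³`, bounded, with real analytic boundary and strongly
convex (`rho_strongConvex`), `p = 0`, and the frame is horizontal, `(u, v) = (e₁, e₂)`.

* `Ω` is invariant under the reflection `t ↦ -t`, which fixes `p` and the frame. So if there were exactly one extremal
  disc, it would lie in the plane `t = 0`. A planar conformal harmonic disc with a positively oriented frame at `0` is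
  holomorphic (`planar_bound`).
* On the planar section `{25 (x⁴ + y⁴) + 2 (x² + y²) < 20}` the polynomial `w + w⁵ / 12` has modulus below `0.998`, so the
  Schwarz lemma bounds the derivative at `0` of a holomorphic disc by `0.998`.
* The piece of the Enneper surface `z ↦ (Re (z - z³ / 12), Im (z + z³ / 12), Re (z²) / 2)` over the unit disc is a
  conformal harmonic disc in `Ω` with derivative `(e₁, e₂)` at `0`, that is `r = 1 > 0.998`.

So the extremal disc is not planar, and therefore it is not unique: its mirror image is a second one.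
-/

set_option autoImplicit false
open Pool Pool.MP_a50f86_an

namespace Pool.Agent.S05680

open Metric Set

abbrev E3 := EuclideanSpace ℝ (Fin 3)

/-- the defining function of the domain -/
noncomputable def rho (x : E3) : ℝ :=
  25 * ((x 0)^4 + (x 1)^4) + 2 * ((x 0)^2 + (x 1)^2) + (x 2)^2 - 20

/-- the strongly convex domain -/
def Om : Set E3 := {x | x ∈ (Set.univ : Set E3) ∧ rho x < 0}

theorem rho_contDiff : ContDiff ℝ ((⊤ : ℕ∞) : WithTop ℕ∞) rho := by
  unfold rho
  fun_prop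

theorem rho_convex : ConvexOn ℝ Set.univ rho := by
  have h4 : ∀ i : Fin 3, ConvexOn ℝ Set.univ (fun x : E3 => (x i)^4) := by
    intro i
    have := (Even.convexOn_pow (𝕜 := ℝ) (n := 4) (by decide)).comp_linearMap
      ((EuclideanSpace.proj i : E3 →L[ℝ] ℝ) : E3 →ₗ[ℝ] ℝ)
    exact this
  have h2 : ∀ i : Fin 3, ConvexOn ℝ Set.univ (fun x : E3 => (x i)^2) := by
    intro i
    have := (Even.convexOn_pow (𝕜 := ℝ) (n := 2) (by decide)).comp_linearMap
      ((EuclideanSpace.proj i : E3 →L[ℝ] ℝ) : E3 →ₗ[ℝ] ℝ)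
    exact this
  have key := ((((h4 0).add (h4 1)).smul (show (0:ℝ) ≤ 25 by norm_num)).add
    (((h2 0).add (h2 1)).smul (show (0:ℝ) ≤ 2 by norm_num))).add (h2 2)
  have := key.add_const (-20)
  refine this.congr ?_
  intro x _
  simp [rho, smul_eq_mul]
  ring

/-- The defining function is strongly convex with modulus 2 on the whole space, so the domain is a strongly convex
domain with real analytic boundary (not only convex). This is not used in the proof of `result`. -/
theorem rho_strongConvex : StrongConvexOn Set.univ 2 rho := by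
  rw [strongConvexOn_iff_convex]
  have h4 : ∀ i : Fin 3, ConvexOn ℝ Set.univ (fun x : E3 => (x i)^4) := by
    intro i
    have := (Even.convexOn_pow (𝕜 := ℝ) (n := 4) (by decide)).comp_linearMap
      ((EuclideanSpace.proj i : E3 →L[ℝ] ℝ) : E3 →ₗ[ℝ] ℝ)
    exact this
  have h2 : ∀ i : Fin 3, ConvexOn ℝ Set.univ (fun x : E3 => (x i)^2) := by
    intro i
    have := (Even.convexOn_pow (𝕜 := ℝ) (n := 2) (by decide)).comp_linearMap
      ((EuclideanSpace.proj i : E3 →L[ℝ] ℝ) : E3 →ₗ[ℝ] ℝ)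
    exact this
  have key := (((h4 0).add (h4 1)).smul (show (0:ℝ) ≤ 25 by norm_num)).add ((h2 0).add (h2 1))
  have := key.add_const (-20)
  refine this.congr ?_
  intro x _
  simp only [rho, EuclideanSpace.norm_sq_eq, Fin.sum_univ_three]
  simp [smul_eq_mul]
  ring

theorem Om_convex : Convex ℝ Om := by
  have := rho_convex.convex_lt 0
  exact this

theorem Om_open : IsOpen Om := by
  have : Om = rho ⁻¹' (Iio 0) := by
    ext x; simp [Om]
  rw [this]
  exact isOpen_Iio.preimage rho_contDiff.continuous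

theorem Om_bounded : Bornology.IsBounded Om := by
  refine (Metric.isBounded_iff_subset_closedBall (0 : E3)).2 ⟨10, ?_⟩
  intro x hx
  obtain ⟨_, hx⟩ := hx
  rw [mem_closedBall_zero_iff, EuclideanSpace.norm_eq, Real.sqrt_le_left (by norm_num)]
  simp only [Fin.sum_univ_three, Real.norm_eq_abs, sq_abs]
  unfold rho at hx
  nlinarith [sq_nonneg ((x 0)^2), sq_nonneg ((x 1)^2), sq_nonneg (x 0), sq_nonneg (x 1), sq_nonneg (x 2)]

theorem frontier_grad : ∀ x ∈ frontier Om, fderiv ℝ rho x ≠ 0 := by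
  intro x hx h0
  -- on the frontier rho = 0
  have hx0 : rho x = 0 := by
    have hOm : Om = {y | rho y < 0} := by ext y; simp [Om]
    rw [hOm] at hx
    exact frontier_lt_subset_eq rho_contDiff.continuous continuous_const hx
  -- the derivative in direction x
  have hd : HasFDerivAt rho (fderiv ℝ rho x) x :=
    (rho_contDiff.differentiable (by simp) x).hasFDerivAt
  have hline : HasDerivAt (fun t : ℝ => x + t • x) x 0 := by
    simpa using ((hasDerivAt_id (0:ℝ)).smul_const x).const_add x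
  have h1 : HasDerivAt (fun t : ℝ => rho (x + t • x)) (fderiv ℝ rho x x) 0 := by
    have hd' : HasFDerivAt rho (fderiv ℝ rho x) (x + (0:ℝ) • x) := by simpa using hd
    exact hd'.comp_hasDerivAt (0:ℝ) hline
  have h2 : HasDerivAt (fun t : ℝ => rho (x + t • x))
      (100 * ((x 0)^4 + (x 1)^4) + 4 * ((x 0)^2 + (x 1)^2) + 2 * (x 2)^2) 0 := by
    have e : (fun t : ℝ => rho (x + t • x)) = fun t : ℝ =>
        (1 + t)^4 * (25 * ((x 0)^4 + (x 1)^4)) + (1+t)^2 * (2 * ((x 0)^2 + (x 1)^2) + (x 2)^2) - 20 := by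
      funext t
      simp [rho]
      ring
    rw [e]
    have ht : HasDerivAt (fun t : ℝ => 1 + t) 1 0 := (hasDerivAt_id (0:ℝ)).const_add 1
    have := (((ht.pow 4).mul_const (25 * ((x 0)^4 + (x 1)^4))).add
      ((ht.pow 2).mul_const (2 * ((x 0)^2 + (x 1)^2) + (x 2)^2))).sub_const 20
    refine HasDerivAt.congr_deriv this ?_
    norm_num
    ring
  have h3 := h1.unique h2
  rw [h0] at h3
  simp only [zero_apply] at h3
  unfold rho at hx0
  nlinarith [sq_nonneg ((x 0)^2), sq_nonneg ((x 1)^2), sq_nonneg (x 0), sq_nonneg (x 1), sq_nonneg (x 2)]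


/-- the class of conformal harmonic discs, in the form used by the frozen statement -/
def CH (f : ℂ → E3) : Prop :=
  (ContDiffOn ℝ 2 f (Metric.ball (0 : ℂ) 1) ∧
            (∀ z ∈ Metric.ball (0 : ℂ) 1, f z ∈ Om) ∧
            (∀ z ∈ Metric.ball (0 : ℂ) 1,
              ‖fderiv ℝ f z (1 : ℂ)‖ = ‖fderiv ℝ f z Complex.I‖ ∧
              inner ℝ (fderiv ℝ f z (1 : ℂ)) (fderiv ℝ f z Complex.I) = 0) ∧
            (∀ z ∈ Metric.ball (0 : ℂ) 1,
              fderiv ℝ (fun w => fderiv ℝ f w (1 : ℂ)) z (1 : ℂ) +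
                fderiv ℝ (fun w => fderiv ℝ f w Complex.I) z Complex.I = 0))

/-- the reflection in the third coordinate -/
noncomputable def S : E3 ≃ₗᵢ[ℝ] E3 :=
  LinearIsometryEquiv.piLpCongrRight 2
    (fun i : Fin 3 => if i = 2 then LinearIsometryEquiv.neg ℝ else LinearIsometryEquiv.refl ℝ ℝ)

theorem S_zero (x : E3) : S x 0 = x 0 := by
  simp [S]
theorem S_one (x : E3) : S x 1 = x 1 := by
  simp [S]
theorem S_two (x : E3) : S x 2 = - x 2 := by
  simp [S]

theorem S_mem {x : E3} (hx : x ∈ Om) : S x ∈ Om := by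
  refine ⟨mem_univ _, ?_⟩
  have := hx.2
  unfold rho at *
  rw [S_zero, S_one, S_two]
  simpa using this

theorem fderiv_S (f : ℂ → E3) (z v : ℂ) : fderiv ℝ (fun w => S (f w)) z v = S (fderiv ℝ f z v) := by
  have := S.comp_fderiv (f := f) (x := z)
  have h2 : (S ∘ f) = fun w => S (f w) := rfl
  rw [h2] at this
  rw [this]
  rfl

theorem CH_S {f : ℂ → E3} (hf : CH f) : CH (fun w => S (f w)) := by
  obtain ⟨h1, h2, h3, h4⟩ := hf
  refine ⟨?_, fun z hz => S_mem (h2 z hz), ?_, ?_⟩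
  · exact S.toContinuousLinearEquiv.contDiff.comp_contDiffOn h1
  · intro z hz
    rw [fderiv_S, fderiv_S, S.norm_map, S.norm_map, S.inner_map_map]
    exact h3 z hz
  · intro z hz
    simp only [fderiv_S]
    rw [← map_add, h4 z hz, map_zero]

/-- inequality behind the planar bound -/
theorem planar_ineq (x y : ℝ) (h : 25 * (x^4 + y^4) + 2 * (x^2 + y^2) - 20 < 0) :
    Complex.normSq ((⟨x, y⟩ : ℂ) + (⟨x, y⟩ : ℂ)^5 / 12) ≤ 99/100 := by
  set s : ℝ := x^2 + y^2 with hs
  set p : ℝ := x^4 - 6 * x^2 * y^2 + y^4 with hp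
  have e : Complex.normSq ((⟨x, y⟩ : ℂ) + (⟨x, y⟩ : ℂ)^5 / 12) = s * (1 + p/6 + s^4/144) := by
    have e5 : ((⟨x, y⟩ : ℂ)^5) = ⟨x^5 - 10*x^3*y^2 + 5*x*y^4, 5*x^4*y - 10*x^2*y^3 + y^5⟩ := by
      have : ((⟨x, y⟩ : ℂ)^5) = ⟨x, y⟩ * ⟨x, y⟩ * ⟨x, y⟩ * ⟨x, y⟩ * ⟨x, y⟩ := by ring
      rw [this]
      apply Complex.ext
      · simp [Complex.mul_re, Complex.mul_im]; ring
      · simp [Complex.mul_re, Complex.mul_im]; ring
    have e12 : ((⟨x, y⟩ : ℂ) + (⟨x, y⟩ : ℂ)^5 / 12) =
        ⟨x + (x^5 - 10*x^3*y^2 + 5*x*y^4)/12, y + (5*x^4*y - 10*x^2*y^3 + y^5)/12⟩ := by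
      rw [e5]
      apply Complex.ext
      · simp
      · simp
    rw [e12, Complex.normSq_mk, hs, hp]
    ring
  rw [e]
  have hs0 : 0 ≤ s := by positivity
  have hcon : p < 16/5 - 8/25 * s - 3 * s^2 := by
    rw [hs, hp]; nlinarith
  have hlow : -s^2 ≤ p := by
    rw [hs, hp]; nlinarith [sq_nonneg (x^2 - y^2)]
  have hs1 : s ≤ 6/5 := by
    nlinarith
  have hb : s * (1 + p/6 + s^4/144) ≤ s * (1 + (16/5 - 8/25 * s - 3 * s^2)/6 + s^4/144) := by
    apply mul_le_mul_of_nonneg_left _ hs0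
    linarith
  refine hb.trans ?_
  -- univariate inequality on [0, 6/5]
  have hq := sq_nonneg (s - 987/1000)
  have h65 : 0 ≤ 6/5 - s := sub_nonneg.2 hs1
  nlinarith [hq, mul_nonneg hs0 hq, mul_nonneg (mul_nonneg hs0 h65) hq,
    mul_nonneg (mul_nonneg (mul_nonneg hs0 hs0) h65) hq, mul_nonneg (mul_nonneg hs0 hs0) hq]

/-- The competitor: a piece of the Enneper surface. -/
noncomputable def enn (z : ℂ) : E3 :=
  !₂[z.re - (z.re^3 - 3 * z.re * z.im^2)/12, z.im + (3 * z.re^2 * z.im - z.im^3)/12,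
    (z.re^2 - z.im^2)/2]

theorem enn_zero' (z : ℂ) : enn z 0 = z.re - (z.re^3 - 3 * z.re * z.im^2)/12 := by simp [enn]
theorem enn_one' (z : ℂ) : enn z 1 = z.im + (3 * z.re^2 * z.im - z.im^3)/12 := by simp [enn]
theorem enn_two' (z : ℂ) : enn z 2 = (z.re^2 - z.im^2)/2 := by simp [enn]

theorem enn_contDiff : ContDiff ℝ ((⊤ : ℕ∞) : WithTop ℕ∞) enn := by
  have hre : ContDiff ℝ ((⊤ : ℕ∞) : WithTop ℕ∞) (fun z : ℂ => z.re) := Complex.reCLM.contDiff
  have him : ContDiff ℝ ((⊤ : ℕ∞) : WithTop ℕ∞) (fun z : ℂ => z.im) := Complex.imCLM.contDiff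
  rw [contDiff_euclidean]
  intro i
  fin_cases i
  · simp only [Fin.zero_eta, enn_zero']
    fun_prop
  · simp only [Fin.mk_one, enn_one']
    fun_prop
  · simp only [Fin.reduceFinMk, enn_two']
    fun_prop

/-- directional derivative of a map into `E3` by components -/
theorem fderiv_comp_apply {f : ℂ → E3} {z : ℂ} (hf : DifferentiableAt ℝ f z) (v : ℂ) (i : Fin 3) :
    (fderiv ℝ f z v) i = fderiv ℝ (fun w => f w i) z v := by
  have h := (EuclideanSpace.proj i : E3 →L[ℝ] ℝ).hasFDerivAt.comp z hf.hasFDerivAt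
  have h2 : HasFDerivAt (fun w => f w i) ((EuclideanSpace.proj i : E3 →L[ℝ] ℝ).comp (fderiv ℝ f z)) z := h
  rw [h2.fderiv]
  rfl

theorem hre (z : ℂ) : HasFDerivAt (fun z : ℂ => z.re) Complex.reCLM z := Complex.reCLM.hasFDerivAt
theorem him (z : ℂ) : HasFDerivAt (fun z : ℂ => z.im) Complex.imCLM z := Complex.imCLM.hasFDerivAt

theorem enn_fderiv (z v : ℂ) : fderiv ℝ enn z v =
    !₂[v.re * (1 - (z.re^2 - z.im^2)/4) + v.im * (z.re * z.im / 2),
      v.re * (z.re * z.im / 2) + v.im * (1 + (z.re^2 - z.im^2)/4),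
      v.re * z.re - v.im * z.im] := by
  have hd : DifferentiableAt ℝ enn z := enn_contDiff.differentiable (by simp) z
  ext i
  rw [fderiv_comp_apply hd]
  fin_cases i
  · simp only [Fin.zero_eta, enn_zero']
    have h1 := (hre z).pow 3
    have h2 := (hre z).mul ((him z).pow 2)
    have h3 := h2.const_mul (3:ℝ)
    have h4 := h1.sub h3
    have h5 := h4.mul_const (1/12:ℝ)
    have h := (hre z).sub h5
    have h' := h.congr_of_eventuallyEq
      (f₁ := fun z : ℂ => z.re - (z.re^3 - 3 * z.re * z.im^2)/12)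
      (Filter.Eventually.of_forall fun w => by simp; ring)
    rw [h'.fderiv]
    simp
    ring
  · simp only [Fin.mk_one, enn_one']
    have h1 := (him z).pow 3
    have h2 := ((hre z).pow 2).mul (him z)
    have h3 := h2.const_mul (3:ℝ)
    have h4 := h3.sub h1
    have h5 := h4.mul_const (1/12:ℝ)
    have h := (him z).add h5
    have h' := h.congr_of_eventuallyEq
      (f₁ := fun z : ℂ => z.im + (3 * z.re^2 * z.im - z.im^3)/12)
      (Filter.Eventually.of_forall fun w => by simp; ring)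
    rw [h'.fderiv]
    simp
    ring
  · simp only [Fin.reduceFinMk, enn_two']
    have h1 := (hre z).pow 2
    have h2 := (him z).pow 2
    have h := (h1.sub h2).mul_const (1/2:ℝ)
    have h' := h.congr_of_eventuallyEq
      (f₁ := fun z : ℂ => (z.re^2 - z.im^2)/2)
      (Filter.Eventually.of_forall fun w => by simp; ring)
    rw [h'.fderiv]
    simp
    ring

theorem E_ineq (m q : ℝ) (hm0 : 0 ≤ m) (hm1 : m < 1) (h1 : q ≤ m^2) (h2 : -m^2 ≤ q) :
    25 * ((3/4) * (m + m^3/144 - q/6)^2 + (1/4) * (q - m^3/3 + m^2*q/24 - m*(2*q^2 - m^4)/432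
      + (4*q^3 - 3*q*m^4)/20736)) + 2 * (m + m^3/144 - q/6) + (m^2 + q)/8 - 20 < 0 := by
  have hq2 : q^2 ≤ m^4 := by nlinarith
  have hm2 : m^2 ≤ 1 := by nlinarith
  have hm3 : m^3 ≤ m^2 := by nlinarith [sq_nonneg m]
  have hm30 : 0 ≤ m^3 := by positivity
  have hm4 : m^4 ≤ m^3 := by nlinarith
  have hm40 : 0 ≤ m^4 := by positivity
  have hm5 : m^5 ≤ m^4 := by nlinarith
  have hm50 : 0 ≤ m^5 := by positivity
  -- convexity in q : replace by chord
  have hq1 : q ≤ 1 := by linarith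
  have hq1' : -1 ≤ q := by linarith
  have hD : 0 ≤ 2 * m^2 * ((m^4 - q^2) * (25 * ((3/4)/36 - (1/4) * (2 * m / 432)) + 25/20736 * q)) := by
    apply mul_nonneg (by positivity)
    apply mul_nonneg (by linarith)
    linarith
  -- endpoints
  have hA : (m^2 - q) * (25 * ((3/4) * (m + m^3/144 + m^2/6)^2 + (1/4) * (-m^2 - m^3/3 - m^4/24 - m*(2*m^4 - m^4)/432
      + (-4*m^6 + 3*m^6)/20736)) + 2 * (m + m^3/144 + m^2/6) + (m^2 - m^2)/8 - 20 + 1/10) ≤ 0 := by
    apply mul_nonpos_of_nonneg_of_nonpos (by linarith)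
    nlinarith
  have hB : (q + m^2) * (25 * ((3/4) * (m + m^3/144 - m^2/6)^2 + (1/4) * (m^2 - m^3/3 + m^4/24 - m*(2*m^4 - m^4)/432
      + (4*m^6 - 3*m^6)/20736)) + 2 * (m + m^3/144 - m^2/6) + (m^2 + m^2)/8 - 20 + 1/10) ≤ 0 := by
    apply mul_nonpos_of_nonneg_of_nonpos (by linarith)
    nlinarith
  rcases hm0.eq_or_lt with h0 | h0
  · subst h0
    have : q = 0 := by nlinarith
    subst this
    norm_num
  · have key : 2 * m^2 * (25 * ((3/4) * (m + m^3/144 - q/6)^2 + (1/4) * (q - m^3/3 + m^2*q/24 - m*(2*q^2 - m^4)/432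
      + (4*q^3 - 3*q*m^4)/20736)) + 2 * (m + m^3/144 - q/6) + (m^2 + q)/8 - 20 + 1/10) ≤ 0 := by
      linarith
    have hpos : 0 < 2 * m^2 := by positivity
    have := nonpos_of_mul_nonpos_right key hpos
    linarith


theorem enn_mem {z : ℂ} (hz : z ∈ Metric.ball (0 : ℂ) 1) : enn z ∈ Om := by
  refine ⟨mem_univ _, ?_⟩
  set a := z.re with ha
  set b := z.im with hb
  have hn : a^2 + b^2 < 1 := by
    rw [mem_ball_zero_iff] at hz
    have h2 : Complex.normSq z < 1 := by
      rw [Complex.normSq_eq_norm_sq]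
      nlinarith [norm_nonneg z]
    rw [Complex.normSq_apply] at h2
    nlinarith
  have := E_ineq (a^2 + b^2) (a^4 - 6*a^2*b^2 + b^4) (by positivity) hn
    (by nlinarith [mul_nonneg (sq_nonneg a) (sq_nonneg b)])
    (by nlinarith [sq_nonneg (a^2 - b^2)])
  unfold rho
  rw [enn_zero', enn_one', enn_two', ← ha, ← hb]
  nlinarith [this]

theorem enn_x : (fun w => fderiv ℝ enn w (1:ℂ)) =
    fun w => !₂[1 - (w.re^2 - w.im^2)/4, w.re * w.im / 2, w.re] := by
  funext w
  rw [enn_fderiv]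
  ext i
  fin_cases i <;> simp

theorem enn_y : (fun w => fderiv ℝ enn w Complex.I) =
    fun w => !₂[w.re * w.im / 2, 1 + (w.re^2 - w.im^2)/4, -w.im] := by
  funext w
  rw [enn_fderiv]
  ext i
  fin_cases i <;> simp

theorem enn_CH : CH enn := by
  refine ⟨((contDiff_infty.1 enn_contDiff 2)).contDiffOn, fun z hz => enn_mem hz, ?_, ?_⟩
  · intro z _
    rw [enn_fderiv, enn_fderiv]
    constructor
    · rw [EuclideanSpace.norm_eq, EuclideanSpace.norm_eq]
      congr 1
      simp only [Fin.sum_univ_three, Real.norm_eq_abs, sq_abs]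
      simp
      ring
    · rw [PiLp.inner_apply, Fin.sum_univ_three]
      simp
      ring
  · intro z _
    rw [enn_x, enn_y]
    have hreC : ContDiff ℝ ((⊤ : ℕ∞) : WithTop ℕ∞) (fun z : ℂ => z.re) := Complex.reCLM.contDiff
    have himC : ContDiff ℝ ((⊤ : ℕ∞) : WithTop ℕ∞) (fun z : ℂ => z.im) := Complex.imCLM.contDiff
    have hd1 : DifferentiableAt ℝ (fun w : ℂ => (!₂[1 - (w.re^2 - w.im^2)/4, w.re * w.im / 2, w.re] : E3)) z := by
      have : ContDiff ℝ ((⊤ : ℕ∞) : WithTop ℕ∞) (fun w : ℂ => (!₂[1 - (w.re^2 - w.im^2)/4, w.re * w.im / 2, w.re] : E3)) := by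
        rw [contDiff_euclidean]
        intro i
        fin_cases i <;> simp <;> fun_prop
      exact this.differentiable (by simp) z
    have hd2 : DifferentiableAt ℝ (fun w : ℂ => (!₂[w.re * w.im / 2, 1 + (w.re^2 - w.im^2)/4, -w.im] : E3)) z := by
      have : ContDiff ℝ ((⊤ : ℕ∞) : WithTop ℕ∞) (fun w : ℂ => (!₂[w.re * w.im / 2, 1 + (w.re^2 - w.im^2)/4, -w.im] : E3)) := by
        rw [contDiff_euclidean]
        intro i
        fin_cases i <;> simp <;> fun_prop
      exact this.differentiable (by simp) z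
    ext i
    rw [PiLp.add_apply, fderiv_comp_apply hd1, fderiv_comp_apply hd2]
    have hprod := ((hre z).mul (him z)).mul_const (1/2:ℝ)
    have hdiff := (((hre z).pow 2).sub ((him z).pow 2)).mul_const (1/4:ℝ)
    fin_cases i
    · have h1 := (hdiff.const_sub 1).congr_of_eventuallyEq
        (f₁ := fun w : ℂ => 1 - (w.re^2 - w.im^2)/4)
        (Filter.Eventually.of_forall fun w => by simp; ring)
      have h2 := hprod.congr_of_eventuallyEq
        (f₁ := fun w : ℂ => w.re * w.im / 2)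
        (Filter.Eventually.of_forall fun w => by simp; ring)
      have e1 : (fun w : ℂ => (!₂[1 - (w.re^2 - w.im^2)/4, w.re * w.im / 2, w.re] : E3) 0) =
        fun w : ℂ => 1 - (w.re^2 - w.im^2)/4 := by funext w; simp
      have e2 : (fun w : ℂ => (!₂[w.re * w.im / 2, 1 + (w.re^2 - w.im^2)/4, -w.im] : E3) 0) =
        fun w : ℂ => w.re * w.im / 2 := by funext w; simp
      simp only [Fin.zero_eta]
      rw [e1, e2, h1.fderiv, h2.fderiv]
      simp
      ring
    · have h1 := hprod.congr_of_eventuallyEq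
        (f₁ := fun w : ℂ => w.re * w.im / 2)
        (Filter.Eventually.of_forall fun w => by simp; ring)
      have h2 := (hdiff.const_add 1).congr_of_eventuallyEq
        (f₁ := fun w : ℂ => 1 + (w.re^2 - w.im^2)/4)
        (Filter.Eventually.of_forall fun w => by simp; ring)
      have e1 : (fun w : ℂ => (!₂[1 - (w.re^2 - w.im^2)/4, w.re * w.im / 2, w.re] : E3) 1) =
        fun w : ℂ => w.re * w.im / 2 := by funext w; simp
      have e2 : (fun w : ℂ => (!₂[w.re * w.im / 2, 1 + (w.re^2 - w.im^2)/4, -w.im] : E3) 1) =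
        fun w : ℂ => 1 + (w.re^2 - w.im^2)/4 := by funext w; simp
      simp only [Fin.mk_one]
      rw [e1, e2, h1.fderiv, h2.fderiv]
      simp
      ring
    · have e1 : (fun w : ℂ => (!₂[1 - (w.re^2 - w.im^2)/4, w.re * w.im / 2, w.re] : E3) 2) =
        fun w : ℂ => w.re := by funext w; simp
      have e2 : (fun w : ℂ => (!₂[w.re * w.im / 2, 1 + (w.re^2 - w.im^2)/4, -w.im] : E3) 2) =
        fun w : ℂ => -w.im := by funext w; simp
      simp only [Fin.reduceFinMk]
      have h3 : HasFDerivAt (fun w : ℂ => -w.im) (-Complex.imCLM) z := (him z).neg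
      rw [e1, e2, (hre z).fderiv, h3.fderiv]
      simp

theorem e3_ext_norm (A : E3) : ‖A‖^2 = (A 0)^2 + (A 1)^2 + (A 2)^2 := by
  rw [EuclideanSpace.norm_sq_eq, Fin.sum_univ_three]
  simp

theorem e3_inner (A B : E3) : inner ℝ A B = A 0 * B 0 + A 1 * B 1 + A 2 * B 2 := by
  rw [PiLp.inner_apply, Fin.sum_univ_three]
  simp
  ring

theorem cx_deriv {g h : ℂ → ℝ} {z : ℂ} {g' h' : ℂ →L[ℝ] ℝ} (hg : HasFDerivAt g g' z)
    (hh : HasFDerivAt h h' z) (e1 : g' Complex.I = - h' 1) (e2 : h' Complex.I = g' 1) :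
    HasDerivAt (fun w => (⟨g w, h w⟩ : ℂ)) (⟨g' 1, h' 1⟩ : ℂ) z := by
  have hfun : (fun w => (⟨g w, h w⟩ : ℂ)) = fun w => Complex.ofRealCLM (g w) + Complex.I • Complex.ofRealCLM (h w) := by
    funext w
    apply Complex.ext <;> simp
  have h1 := (Complex.ofRealCLM.hasFDerivAt (x := g z)).comp z hg
  have h2 := ((Complex.ofRealCLM.hasFDerivAt (x := h z)).comp z hh).const_smul Complex.I
  have h3 := h1.add h2
  have h4 : HasFDerivAt (fun w => (⟨g w, h w⟩ : ℂ)) (Complex.ofRealCLM ∘SL g' + Complex.I • Complex.ofRealCLM ∘SL h') z := by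
    rw [hfun]; exact h3
  have hd : DifferentiableAt ℂ (fun w => (⟨g w, h w⟩ : ℂ)) z := by
    rw [differentiableAt_complex_iff_differentiableAt_real]
    refine ⟨h4.differentiableAt, ?_⟩
    rw [h4.fderiv]
    apply Complex.ext <;> simp [e1, e2]
  have h5 := hd.hasDerivAt
  have h6 : HasFDerivAt (fun w => (⟨g w, h w⟩ : ℂ)) ((ContinuousLinearMap.toSpanSingleton ℂ (deriv (fun w => (⟨g w, h w⟩ : ℂ)) z)).restrictScalars ℝ) z :=
    (h5.hasFDerivAt).restrictScalars ℝ
  have h7 := congrArg (fun L : ℂ →L[ℝ] ℂ => L 1) (h6.unique h4)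
  simp only [ContinuousLinearMap.coe_restrictScalars', ContinuousLinearMap.toSpanSingleton_apply, one_smul] at h7
  rw [h7] at h5
  refine h5.congr_deriv ?_
  apply Complex.ext <;> simp

/-- A planar conformal harmonic disc through the origin with positively oriented horizontal frame has
derivative at most `0.998`. -/
theorem planar_bound {f : ℂ → E3} (hf : CH f) (h3 : ∀ z ∈ ball (0:ℂ) 1, f z 2 = 0)
    (hf0 : f 0 = 0) {r : ℝ} (hr : 0 < r)
    (hx : fderiv ℝ f 0 (1 : ℂ) = r • (EuclideanSpace.single 0 1 : E3))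
    (hy : fderiv ℝ f 0 Complex.I = r • (EuclideanSpace.single 1 1 : E3)) : r ≤ 998/1000 := by
  obtain ⟨hC, hmem, hconf, hharm⟩ := hf
  have hopen : IsOpen (ball (0:ℂ) 1) := isOpen_ball
  have hat : ∀ z ∈ ball (0:ℂ) 1, ContDiffAt ℝ 2 f z := fun z hz => hC.contDiffAt (hopen.mem_nhds hz)
  have hdf : ∀ z ∈ ball (0:ℂ) 1, DifferentiableAt ℝ f z := fun z hz =>
    (hat z hz).differentiableAt (by norm_num)
  -- second derivatives
  have hd2 : ∀ z ∈ ball (0:ℂ) 1, DifferentiableAt ℝ (fderiv ℝ f) z := by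
    intro z hz
    have := (hat z hz).fderiv_right (m := 1) (by norm_num)
    exact this.differentiableAt (by norm_num)
  set A : ℂ → E3 := fun w => fderiv ℝ f w 1 with hA
  set B : ℂ → E3 := fun w => fderiv ℝ f w Complex.I with hB
  have hdA : ∀ z ∈ ball (0:ℂ) 1, ∀ v, HasFDerivAt A
      ((ContinuousLinearMap.apply ℝ E3 (1:ℂ)).comp (fderiv ℝ (fderiv ℝ f) z)) z ∧
      fderiv ℝ A z v = fderiv ℝ (fderiv ℝ f) z v 1 := by
    intro z hz v
    have h : HasFDerivAt A ((ContinuousLinearMap.apply ℝ E3 (1:ℂ)).comp (fderiv ℝ (fderiv ℝ f) z)) z :=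
      (ContinuousLinearMap.apply ℝ E3 (1:ℂ)).hasFDerivAt.comp z (hd2 z hz).hasFDerivAt
    refine ⟨h, ?_⟩
    rw [h.fderiv]
    rfl
  have hdB : ∀ z ∈ ball (0:ℂ) 1, ∀ v, HasFDerivAt B
      ((ContinuousLinearMap.apply ℝ E3 Complex.I).comp (fderiv ℝ (fderiv ℝ f) z)) z ∧
      fderiv ℝ B z v = fderiv ℝ (fderiv ℝ f) z v Complex.I := by
    intro z hz v
    have h : HasFDerivAt B ((ContinuousLinearMap.apply ℝ E3 Complex.I).comp (fderiv ℝ (fderiv ℝ f) z)) z :=
      (ContinuousLinearMap.apply ℝ E3 Complex.I).hasFDerivAt.comp z (hd2 z hz).hasFDerivAt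
    refine ⟨h, ?_⟩
    rw [h.fderiv]
    rfl
  have hsymm : ∀ z ∈ ball (0:ℂ) 1, fderiv ℝ A z Complex.I = fderiv ℝ B z 1 := by
    intro z hz
    rw [(hdA z hz _).2, (hdB z hz _).2]
    exact ((hat z hz).isSymmSndFDerivAt (by simp)) Complex.I 1
  -- third components vanish
  have hcomp : ∀ z ∈ ball (0:ℂ) 1, ∀ v, (fderiv ℝ f z v) 2 = 0 := by
    intro z hz v
    rw [fderiv_comp_apply (hdf z hz)]
    have : (fun w => f w 2) =ᶠ[nhds z] fun _ => (0:ℝ) := by
      filter_upwards [hopen.mem_nhds hz] with w hw using h3 w hw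
    rw [this.fderiv_eq]
    simp
  -- component derivatives
  have hAi : ∀ z ∈ ball (0:ℂ) 1, ∀ i : Fin 3, HasFDerivAt (fun w => A w i)
      ((EuclideanSpace.proj i : E3 →L[ℝ] ℝ).comp (fderiv ℝ A z)) z := by
    intro z hz i
    exact (EuclideanSpace.proj i : E3 →L[ℝ] ℝ).hasFDerivAt.comp z
      ((hdA z hz 0).1.differentiableAt.hasFDerivAt)
  have hBi : ∀ z ∈ ball (0:ℂ) 1, ∀ i : Fin 3, HasFDerivAt (fun w => B w i)
      ((EuclideanSpace.proj i : E3 →L[ℝ] ℝ).comp (fderiv ℝ B z)) z := by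
    intro z hz i
    exact (EuclideanSpace.proj i : E3 →L[ℝ] ℝ).hasFDerivAt.comp z
      ((hdB z hz 0).1.differentiableAt.hasFDerivAt)
  have hfi : ∀ z ∈ ball (0:ℂ) 1, ∀ i : Fin 3, HasFDerivAt (fun w => f w i)
      ((EuclideanSpace.proj i : E3 →L[ℝ] ℝ).comp (fderiv ℝ f z)) z := by
    intro z hz i
    exact (EuclideanSpace.proj i : E3 →L[ℝ] ℝ).hasFDerivAt.comp z ((hdf z hz).hasFDerivAt)
  have hlap : ∀ z ∈ ball (0:ℂ) 1, ∀ i : Fin 3, (fderiv ℝ A z 1) i + (fderiv ℝ B z Complex.I) i = 0 := by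
    intro z hz i
    have := congrArg (fun x : E3 => x i) (hharm z hz)
    simpa using this
  have hsym : ∀ z ∈ ball (0:ℂ) 1, ∀ i : Fin 3, (fderiv ℝ A z Complex.I) i = (fderiv ℝ B z 1) i := by
    intro z hz i
    rw [hsymm z hz]
  set Φ : ℂ → ℂ := fun w => ⟨A w 0 + B w 1, A w 1 - B w 0⟩ with hΦ
  set Ψ : ℂ → ℂ := fun w => ⟨A w 0 - B w 1, -(A w 1 + B w 0)⟩ with hΨ
  have hΦd : DifferentiableOn ℂ Φ (ball (0:ℂ) 1) := by
    intro z hz
    have := cx_deriv ((hAi z hz 0).add (hBi z hz 1)) ((hAi z hz 1).sub (hBi z hz 0))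
      (by
        have h1 := hlap z hz 1
        have h2 := hsym z hz 0
        simp
        linarith)
      (by
        have h1 := hlap z hz 0
        have h2 := hsym z hz 1
        simp
        linarith)
    exact this.differentiableAt.differentiableWithinAt
  have hΨd : DifferentiableOn ℂ Ψ (ball (0:ℂ) 1) := by
    intro z hz
    have := cx_deriv ((hAi z hz 0).sub (hBi z hz 1)) (((hAi z hz 1).add (hBi z hz 0)).neg)
      (by
        have h1 := hlap z hz 1
        have h2 := hsym z hz 0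
        simp
        linarith)
      (by
        have h1 := hlap z hz 0
        have h2 := hsym z hz 1
        simp
        linarith)
    exact this.differentiableAt.differentiableWithinAt
  have hprod : ∀ z ∈ ball (0:ℂ) 1, Φ z * Ψ z = 0 := by
    intro z hz
    obtain ⟨hn, hi⟩ := hconf z hz
    have hn2 : ‖A z‖^2 = ‖B z‖^2 := by rw [hA, hB]; simp only; rw [hn]
    rw [e3_ext_norm, e3_ext_norm] at hn2
    have hi2 : inner ℝ (A z) (B z) = 0 := hi
    rw [e3_inner] at hi2
    have hA2 : A z 2 = 0 := hcomp z hz 1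
    have hB2 : B z 2 = 0 := hcomp z hz Complex.I
    rw [hA2, hB2] at hn2 hi2
    apply Complex.ext
    · simp only [hΦ, hΨ, Complex.mul_re, Complex.zero_re]
      nlinarith
    · simp only [hΦ, hΨ, Complex.mul_im, Complex.zero_im]
      nlinarith
  have h0mem : (0:ℂ) ∈ ball (0:ℂ) 1 := mem_ball_self one_pos
  have hA0 : A 0 = r • (EuclideanSpace.single 0 1 : E3) := hx
  have hB0 : B 0 = r • (EuclideanSpace.single 1 1 : E3) := hy
  have hΨ0 : ∀ z ∈ ball (0:ℂ) 1, Ψ z = 0 := by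
    rcases AnalyticOnNhd.eq_zero_or_eq_zero_of_mul_eq_zero (hΦd.analyticOnNhd hopen)
      (hΨd.analyticOnNhd hopen) hprod (convex_ball (0:ℂ) 1).isPreconnected with h | h
    · exfalso
      have := congrArg Complex.re (h 0 h0mem)
      simp only [hΦ, hA0, hB0] at this
      simp at this
      linarith
    · exact h
  -- the disc is holomorphic
  set F : ℂ → ℂ := fun w => ⟨f w 0, f w 1⟩ with hF
  have hFd : ∀ z ∈ ball (0:ℂ) 1, HasDerivAt F (⟨A z 0, A z 1⟩ : ℂ) z := by
    intro z hz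
    have hz0 := hΨ0 z hz
    have hre0 : A z 0 - B z 1 = 0 := congrArg Complex.re hz0
    have him0 : -(A z 1 + B z 0) = 0 := congrArg Complex.im hz0
    have := cx_deriv (hfi z hz 0) (hfi z hz 1)
      (by
        have : B z 0 = - A z 1 := by linarith
        simpa using this)
      (by
        have : B z 1 = A z 0 := by linarith
        simpa using this)
    exact this
  set G : ℂ → ℂ := fun z => F z + F z ^ 5 / 12 with hG
  have hF0 : F 0 = 0 := by
    simp only [hF, hf0]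
    rfl
  have hGd : DifferentiableOn ℂ G (ball (0:ℂ) 1) := by
    intro z hz
    have := (hFd z hz).differentiableAt
    exact (this.add ((this.pow 5).div_const 12)).differentiableWithinAt
  have hG0 : G 0 = 0 := by simp [hG, hF0]
  have hmaps : MapsTo G (ball (0:ℂ) 1) (closedBall (G 0) (998/1000)) := by
    intro z hz
    rw [hG0, mem_closedBall_zero_iff]
    have hm := (hmem z hz).2
    unfold rho at hm
    rw [h3 z hz] at hm
    have hpl := planar_ineq (f z 0) (f z 1) (by linarith)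
    have h2 : ‖G z‖^2 ≤ 99/100 := by
      rw [← Complex.normSq_eq_norm_sq]
      exact hpl
    nlinarith [norm_nonneg (G z)]
  have hder : deriv G 0 = (r : ℂ) := by
    have h1 := hFd 0 h0mem
    have h2 := h1.add ((h1.pow 5).div_const 12)
    have h3 : HasDerivAt G _ 0 := h2
    rw [h3.deriv, hF0, hA0]
    apply Complex.ext <;> simp
  have hfin := Complex.norm_deriv_le_div_of_mapsTo_ball hGd hmaps one_pos
  rw [hder, Complex.norm_real, Real.norm_eq_abs, abs_of_pos hr] at hfin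
  linarith

/-- The negation of the preceding statement: For every bounded convex smoothly bounded domain in R^n (n≥3), point p and nonzero conformal frame (u,v), there is a conformal harmonic disc with maximal scaling at p, unique on the disc, and it is an injective immersion proper into the domain. -/
theorem result :
    ¬ (∀ n : ℕ, 3 ≤ n → ∀ Ω : Set (EuclideanSpace ℝ (Fin n)),
    IsOpen Ω → Bornology.IsBounded Ω → Convex ℝ Ω →
    (∃ U : Set (EuclideanSpace ℝ (Fin n)), ∃ ρ : EuclideanSpace ℝ (Fin n) → ℝ,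
        IsOpen U ∧ closure Ω ⊆ U ∧ ContDiffOn ℝ ((⊤ : ℕ∞) : WithTop ℕ∞) ρ U ∧
        Ω = {x | x ∈ U ∧ ρ x < 0} ∧ ∀ x ∈ frontier Ω, fderiv ℝ ρ x ≠ 0) →
    ∀ p ∈ Ω, ∀ u v : EuclideanSpace ℝ (Fin n),
      ‖u‖ = ‖v‖ → inner ℝ u v = 0 → u ≠ 0 →
      ∃ f : ℂ → EuclideanSpace ℝ (Fin n),
        (∃ r : ℝ, 0 < r ∧
          (ContDiffOn ℝ 2 f (Metric.ball (0 : ℂ) 1) ∧
            (∀ z ∈ Metric.ball (0 : ℂ) 1, f z ∈ Ω) ∧
            (∀ z ∈ Metric.ball (0 : ℂ) 1,
              ‖fderiv ℝ f z (1 : ℂ)‖ = ‖fderiv ℝ f z Complex.I‖ ∧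
              inner ℝ (fderiv ℝ f z (1 : ℂ)) (fderiv ℝ f z Complex.I) = 0) ∧
            (∀ z ∈ Metric.ball (0 : ℂ) 1,
              fderiv ℝ (fun w => fderiv ℝ f w (1 : ℂ)) z (1 : ℂ) +
                fderiv ℝ (fun w => fderiv ℝ f w Complex.I) z Complex.I = 0)) ∧
          f 0 = p ∧ fderiv ℝ f 0 (1 : ℂ) = r • u ∧ fderiv ℝ f 0 Complex.I = r • v ∧
          ∀ g : ℂ → EuclideanSpace ℝ (Fin n), ∀ s : ℝ, 0 < s →
            (ContDiffOn ℝ 2 g (Metric.ball (0 : ℂ) 1) ∧
              (∀ z ∈ Metric.ball (0 : ℂ) 1, g z ∈ Ω) ∧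
              (∀ z ∈ Metric.ball (0 : ℂ) 1,
                ‖fderiv ℝ g z (1 : ℂ)‖ = ‖fderiv ℝ g z Complex.I‖ ∧
                inner ℝ (fderiv ℝ g z (1 : ℂ)) (fderiv ℝ g z Complex.I) = 0) ∧
              (∀ z ∈ Metric.ball (0 : ℂ) 1,
                fderiv ℝ (fun w => fderiv ℝ g w (1 : ℂ)) z (1 : ℂ) +
                  fderiv ℝ (fun w => fderiv ℝ g w Complex.I) z Complex.I = 0)) →
            g 0 = p → fderiv ℝ g 0 (1 : ℂ) = s • u → fderiv ℝ g 0 Complex.I = s • v →
            s ≤ r) ∧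
        (∀ h : ℂ → EuclideanSpace ℝ (Fin n),
          (∃ r : ℝ, 0 < r ∧
            (ContDiffOn ℝ 2 h (Metric.ball (0 : ℂ) 1) ∧
              (∀ z ∈ Metric.ball (0 : ℂ) 1, h z ∈ Ω) ∧
              (∀ z ∈ Metric.ball (0 : ℂ) 1,
                ‖fderiv ℝ h z (1 : ℂ)‖ = ‖fderiv ℝ h z Complex.I‖ ∧
                inner ℝ (fderiv ℝ h z (1 : ℂ)) (fderiv ℝ h z Complex.I) = 0) ∧
              (∀ z ∈ Metric.ball (0 : ℂ) 1,
                fderiv ℝ (fun w => fderiv ℝ h w (1 : ℂ)) z (1 : ℂ) +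
                  fderiv ℝ (fun w => fderiv ℝ h w Complex.I) z Complex.I = 0)) ∧
            h 0 = p ∧ fderiv ℝ h 0 (1 : ℂ) = r • u ∧ fderiv ℝ h 0 Complex.I = r • v ∧
            ∀ g : ℂ → EuclideanSpace ℝ (Fin n), ∀ s : ℝ, 0 < s →
              (ContDiffOn ℝ 2 g (Metric.ball (0 : ℂ) 1) ∧
                (∀ z ∈ Metric.ball (0 : ℂ) 1, g z ∈ Ω) ∧
                (∀ z ∈ Metric.ball (0 : ℂ) 1,
                  ‖fderiv ℝ g z (1 : ℂ)‖ = ‖fderiv ℝ g z Complex.I‖ ∧
                  inner ℝ (fderiv ℝ g z (1 : ℂ)) (fderiv ℝ g z Complex.I) = 0) ∧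
                (∀ z ∈ Metric.ball (0 : ℂ) 1,
                  fderiv ℝ (fun w => fderiv ℝ g w (1 : ℂ)) z (1 : ℂ) +
                    fderiv ℝ (fun w => fderiv ℝ g w Complex.I) z Complex.I = 0)) →
              g 0 = p → fderiv ℝ g 0 (1 : ℂ) = s • u → fderiv ℝ g 0 Complex.I = s • v →
              s ≤ r) →
          Set.EqOn h f (Metric.ball (0 : ℂ) 1)) ∧
        Set.InjOn f (Metric.ball (0 : ℂ) 1) ∧
        (∀ z ∈ Metric.ball (0 : ℂ) 1, fderiv ℝ f z (1 : ℂ) ≠ 0) ∧
        (∀ K : Set (EuclideanSpace ℝ (Fin n)), IsCompact K → K ⊆ Ω →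
          IsCompact (Metric.ball (0 : ℂ) 1 ∩ f ⁻¹' K))) := by
  intro H
  have h0 : (0 : E3) ∈ Om := by
    refine ⟨mem_univ _, ?_⟩
    simp [rho]
  obtain ⟨f, ⟨r, hr, hf, hf0, hfx, hfy, hmax⟩, huniq, -⟩ := H 3 le_rfl Om Om_open Om_bounded Om_convex
    ⟨Set.univ, rho, isOpen_univ, subset_univ _, rho_contDiff.contDiffOn, rfl, frontier_grad⟩
    0 h0 (EuclideanSpace.single 0 1) (EuclideanSpace.single 1 1) (by simp)
    (by rw [e3_inner]; simp)
    (by
      intro h
      have := congrArg (fun x : E3 => x 0) h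
      simp at this)
  have hS0 : S (EuclideanSpace.single 0 1 : E3) = EuclideanSpace.single 0 1 := by
    ext i
    fin_cases i
    · exact S_zero _
    · exact S_one _
    · have := S_two (EuclideanSpace.single 0 1 : E3)
      simpa using this
  have hS1 : S (EuclideanSpace.single 1 1 : E3) = EuclideanSpace.single 1 1 := by
    ext i
    fin_cases i
    · exact S_zero _
    · exact S_one _
    · have := S_two (EuclideanSpace.single 1 1 : E3)
      simpa using this
  -- the reflected disc is extremal too, hence equal: the disc is planar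
  have hrefl := huniq (fun w => S (f w)) ⟨r, hr, CH_S hf, by simp [hf0],
    by rw [fderiv_S, hfx, map_smul, hS0], by rw [fderiv_S, hfy, map_smul, hS1], hmax⟩
  have hplanar : ∀ z ∈ ball (0:ℂ) 1, f z 2 = 0 := by
    intro z hz
    have h1 : S (f z) = f z := hrefl hz
    have h2 := S_two (f z)
    rw [h1] at h2
    linarith
  have hle := planar_bound hf hplanar hf0 hr hfx hfy
  -- the Enneper competitor
  have hge : (1:ℝ) ≤ r := by
    refine hmax enn 1 one_pos enn_CH ?_ ?_ ?_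
    · ext i
      fin_cases i <;> simp [enn]
    · rw [enn_fderiv]
      ext i
      fin_cases i <;> simp
    · rw [enn_fderiv]
      ext i
      fin_cases i <;> simp
  linarith

end Pool.Agent.S05680
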