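import Pool.Statements.S05682
import Pool.Agent.Helper784MS.G3
import Pool.Agent.Helper784MS.A1b
import Pool.Agent.Helper784MS.A2
import Pool.Agent.Helper784MS.V
import Pool.Agent.Helper784MS.M
import Pool.Agent.Helper784MS.K
import Pool.Agent.Helper784MS.H2

set_option autoImplicit false
open Filter Topology
open Pool Pool.MP_a51306_an

namespace Pool.Agent.S05682

/-- The negation of the preceding statement: For every countable group: if every asymptotically multiplicative sequence of unitary-matrix maps (operator norm) is close to true representations, then the same holds with the normalized Hilbert–Schmidt norm. -/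
theorem result :
    ¬ (∀ (G : Type) [Group G] [Countable G],
      (∀ (k : ℕ → ℕ) (φ : ∀ n : ℕ, G → Matrix.unitaryGroup (Fin (k n)) ℂ),
        (∀ g h : G, Tendsto (fun n : ℕ =>
            ‖Matrix.toEuclideanCLM (𝕜 := ℂ)
              ((φ n (g * h)).val - (φ n g).val * (φ n h).val)‖) atTop (𝓝 0)) →
        ∃ ρ : ∀ n : ℕ, G →* Matrix.unitaryGroup (Fin (k n)) ℂ,
          ∀ g : G, Tendsto (fun n : ℕ =>
            ‖Matrix.toEuclideanCLM (𝕜 := ℂ) ((φ n g).val - (ρ n g).val)‖) atTop (𝓝 0)) →
      (∀ (k : ℕ → ℕ) (φ : ∀ n : ℕ, G → Matrix.unitaryGroup (Fin (k n)) ℂ),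
        (∀ g h : G, Tendsto (fun n : ℕ =>
            (Matrix.trace (Matrix.conjTranspose
                ((φ n (g * h)).val - (φ n g).val * (φ n h).val) *
              ((φ n (g * h)).val - (φ n g).val * (φ n h).val))).re / (k n : ℝ))
            atTop (𝓝 0)) →
        ∃ ρ : ∀ n : ℕ, G →* Matrix.unitaryGroup (Fin (k n)) ℂ,
          ∀ g : G, Tendsto (fun n : ℕ =>
            (Matrix.trace (Matrix.conjTranspose ((φ n g).val - (ρ n g).val) *
              ((φ n g).val - (ρ n g).val))).re / (k n : ℝ)) atTop (𝓝 0))) := by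
  intro hall
  have hK : Pool.Agent.Helper784MS.SpecK := Pool.Agent.Helper784MS.specK
  have hH : Pool.Agent.Helper784MS.SpecH :=
    Pool.Agent.Helper784MS.specH_of
      (Pool.Agent.Helper784MS.specA_of Pool.Agent.Helper784MS.specA1)
      Pool.Agent.Helper784MS.specV
  obtain ⟨w, hw⟩ := Pool.Agent.Helper784MS.datG hK
  exact Pool.Agent.Helper784MS.not_hs hK hH
    (hall Pool.Agent.Helper784MS.TheG
      (fun k φ hφ => Pool.Agent.Helper784MS.specM_of hH hw Pool.Agent.Helper784MS.gen_top
        Pool.Agent.Helper784MS.psiG Pool.Agent.Helper784MS.psi_x Pool.Agent.Helper784MS.psi_v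
        k φ hφ)
      Pool.Agent.Helper784MS.kk Pool.Agent.Helper784MS.ph Pool.Agent.Helper784MS.ph_mul)

end Pool.Agent.S05682
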