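import Pool.Statements.S05699
import Pool.Agent.PolyR126.Main

set_option autoImplicit false
universe u
open Pool Pool.MP_a60229_an

namespace Pool.Agent.S05699

/-- Every real Banach space whose unit ball meets each finite-dimensional subspace in a polytope is isomorphic to a normed space with the same property whose closed unit ball is the closed convex hull of its extreme points. -/
theorem result :
    ∀ (E : Type u) [NormedAddCommGroup E] [NormedSpace ℝ E] [CompleteSpace E],
      (∀ F : Submodule ℝ E, FiniteDimensional ℝ F →
        (Set.extremePoints ℝ (Metric.closedBall (0 : E) 1 ∩ (F : Set E))).Finite) →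
      ∃ (X : Type u) (_ : NormedAddCommGroup X) (_ : NormedSpace ℝ X),
        ∃ _T : E ≃L[ℝ] X,
          (∀ G : Submodule ℝ X, FiniteDimensional ℝ G →
            (Set.extremePoints ℝ (Metric.closedBall (0 : X) 1 ∩ (G : Set X))).Finite) ∧
          Metric.closedBall (0 : X) 1 =
            closure (convexHull ℝ (Set.extremePoints ℝ (Metric.closedBall (0 : X) 1))) := by
  intro E _ _ _ h
  exact PolyR126.main E h

end Pool.Agent.S05699
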