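import Pool.Statements.S05816
import Pool.Agent.Helper146_RJ.Oper

set_option autoImplicit false
open Filter Topology
open Pool Pool.MP_ae9c87_an

namespace Pool.Agent.S05816


/-- The negation of the preceding statement: For every contractive strongly continuous semigroup T on a complex Hilbert space with cogenerator V = I − 2∫₀^∞ e^{−t}T(t)dt, T(t)x → 0 weakly for all x iff Vⁿx → 0 weakly for all x. -/
theorem result :
    ¬ (∀ (H : Type) [NormedAddCommGroup H] [InnerProductSpace ℂ H] [CompleteSpace H]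
      (T : ℝ → H →L[ℂ] H),
      T 0 = 1 →
      (∀ s t : ℝ, 0 ≤ s → 0 ≤ t → T (s + t) = T s * T t) →
      (∀ x : H, ContinuousOn (fun t : ℝ => T t x) (Set.Ici 0)) →
      (∀ t : ℝ, 0 ≤ t → ‖T t‖ ≤ 1) →
      ((∀ x y : H, Tendsto (fun t : ℝ => inner ℂ (T t x) y) atTop (𝓝 0)) ↔
        (∀ x y : H, Tendsto (fun n : ℕ =>
            inner ℂ ((fun z : H => z - (2 : ℂ) •
              ∫ t in Set.Ioi (0 : ℝ), ((Real.exp (-t) : ℝ) : ℂ) • T t z)^[n] x) y)
            atTop (𝓝 0)))) := by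
  intro H
  obtain ⟨μ, hfin, h0, hd, hc⟩ := Helper146_RJ.exists_measure
  have key := H (MeasureTheory.Lp ℂ 2 μ) (Helper146_RJ.TT μ) ?_ ?_ ?_ ?_
  · exact Helper146_RJ.not_stable μ h0 hc (key.mp (Helper146_RJ.weak_stable μ h0 hd))
  · show Helper146_RJ.ML μ (Helper146_RJ.Et 0) = 1
    rw [Helper146_RJ.Et_zero, Helper146_RJ.ML_one]
  · intro s t _ _
    show Helper146_RJ.ML μ (Helper146_RJ.Et (s + t)) =
      Helper146_RJ.ML μ (Helper146_RJ.Et s) * Helper146_RJ.ML μ (Helper146_RJ.Et t)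
    rw [Helper146_RJ.Et_add, Helper146_RJ.ML_mul]
  · intro x
    have h1 : Continuous fun t : ℝ => Helper146_RJ.ML μ (Helper146_RJ.Et t) :=
      (Helper146_RJ.ML μ).continuous.comp Helper146_RJ.Et_cont
    exact (h1.clm_apply continuous_const).continuousOn
  · intro t _
    exact Helper146_RJ.norm_ML_le μ (Helper146_RJ.Et t)
      fun x => (Helper146_RJ.norm_Et_apply t x).le

end Pool.Agent.S05816
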