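import Pool.Statements.S06119
import Pool.Agent.H299_Opp.Glue
import Pool.Agent.H299_Opp.SL
import Pool.Agent.H299_Opp.QE
import Pool.Agent.H299_Opp.RL
import Pool.Agent.H299_Opp.HAAR
import Pool.Agent.H299_Opp.DEF
import Pool.Agent.H299_Opp.CNT
import Pool.Agent.H299_Opp.FIB
import Pool.Agent.H299_Opp.COMB
import Pool.Agent.H299_Opp.RAT
import Pool.Agent.H299_Opp.OPR
import Pool.Agent.H299_Opp.PI
import Pool.Agent.H299_Opp.WIN
import Pool.Agent.H299_Opp.LOC
import Pool.Agent.H299_Opp.NOISO

/-!
# S06119: a simple separable purely infinite C*-algebra not isomorphic to its opposite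

The algebra is the Toeplitz-Pimsner type algebra of a well chosen family of finite tuples of
unitary matrices (quantum expanders of growing dimension together with one generic unitary each);
the full written proof is in `Pool/Agent/H299_Opp/PAPER.md`.
-/

set_option autoImplicit false
open Pool Pool.MP_c8b4d4_an

namespace Pool.Agent.S06119

/-- There is a nonzero separable C*-algebra with no nontrivial closed two-sided ideals, noncommutative, with each nonzero positive element approximable by x* a x for any nonzero positive a (purely infinite), and no *-isomorphism onto its opposite algebra. -/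
theorem result :
    ∃ (A : Type) (_ : NonUnitalCStarAlgebra A),
      TopologicalSpace.SeparableSpace A ∧
      Nontrivial A ∧
      (∀ I : TwoSidedIdeal A, IsClosed (I : Set A) → I = ⊥ ∨ I = ⊤) ∧
      (∃ a b : A, a * b ≠ b * a) ∧
      (∀ c d : A, c ≠ 0 → d ≠ 0 → ∀ ε : ℝ, 0 < ε →
        ∃ x : A, ‖star x * (star c * c) * x - star d * d‖ < ε) ∧
      IsEmpty (A ≃⋆ₐ[ℂ] Aᵐᵒᵖ) := by
  have hQE := Pool.Agent.H299_Opp.QE.main
  have hRL := Pool.Agent.H299_Opp.RL.main
  have hHA := Pool.Agent.H299_Opp.HAAR.main
  have hA := Pool.Agent.H299_Opp.SLA.main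
  have hB := Pool.Agent.H299_Opp.SLB.main
  exact Pool.Agent.H299_Opp.glue
    (Pool.Agent.H299_Opp.FIB.main (Pool.Agent.H299_Opp.DEF.main hQE hRL hHA))
    Pool.Agent.H299_Opp.CNT.main Pool.Agent.H299_Opp.COMB.main Pool.Agent.H299_Opp.OPR.main
    (Pool.Agent.H299_Opp.PI.main hA hB)
    (Pool.Agent.H299_Opp.NOISO.main hRL
      (Pool.Agent.H299_Opp.LOC.main hA hB Pool.Agent.H299_Opp.WIN.main)
      Pool.Agent.H299_Opp.RAT.main)

end Pool.Agent.S06119
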