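import Pool.Statements.S06277
import Pool.Agent.Helper509.AH.Final
import Pool.Agent.Helper509.RP.Sep

set_option autoImplicit false
open Pool Pool.MP_d4c2ba_an

namespace Pool.Agent.S06277

open Filter Topology

section prep

/-- the sequence space -/
abbrev HH : Type := lp (fun _ : ℕ => ℂ) 2

/-- the rank one operator `x ↦ ⟪y, x⟫ z` -/
noncomputable def rk (z y : HH) : HH →L[ℂ] HH := (innerSL ℂ y).smulRight z

lemma rk_apply (z y x : HH) : rk z y x = inner ℂ y x • z := rfl

/-- unit vectors -/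
noncomputable def e (i : ℕ) : HH := lp.single 2 i (1 : ℂ)

lemma rk_add_left (z z' y : HH) : rk (z + z') y = rk z y + rk z' y := by
  ext1 x; simp [rk_apply, smul_add]

lemma rk_smul_left (c : ℂ) (z y : HH) : rk (c • z) y = c • rk z y := by
  ext1 x; simp [rk_apply, smul_comm c]

lemma rk_add_right (z y y' : HH) : rk z (y + y') = rk z y + rk z y' := by
  ext1 x; simp [rk_apply, inner_add_left, add_smul]

lemma rk_smul_right (c : ℂ) (z y : HH) : rk z (c • y) = (starRingEnd ℂ c) • rk z y := by
  ext1 x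
  rw [ContinuousLinearMap.smul_apply, rk_apply, rk_apply, inner_smul_left, mul_smul]

lemma norm_rk_le (z y : HH) : ‖rk z y‖ ≤ ‖z‖ * ‖y‖ := by
  refine ContinuousLinearMap.opNorm_le_bound _ (by positivity) fun x => ?_
  rw [rk_apply, norm_smul]
  have := norm_inner_le_norm (𝕜 := ℂ) y x
  calc ‖inner ℂ y x‖ * ‖z‖ ≤ (‖y‖ * ‖x‖) * ‖z‖ := by gcongr
    _ = ‖z‖ * ‖y‖ * ‖x‖ := by ring

lemma continuous_rk_left (y : HH) : Continuous fun z => rk z y := by
  have : LipschitzWith ⟨‖y‖, norm_nonneg _⟩ fun z => rk z y := by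
    refine LipschitzWith.of_dist_le_mul fun a b => ?_
    rw [dist_eq_norm, dist_eq_norm]
    have h : rk a y - rk b y = rk (a - b) y := by
      ext1 x; simp [rk_apply, smul_sub]
    rw [h]
    exact (norm_rk_le _ _).trans (by rw [mul_comm]; rfl)
  exact this.continuous

lemma continuous_rk_right (z : HH) : Continuous fun y => rk z y := by
  have : LipschitzWith ⟨‖z‖, norm_nonneg _⟩ fun y => rk z y := by
    refine LipschitzWith.of_dist_le_mul fun a b => ?_
    rw [dist_eq_norm, dist_eq_norm]
    have h : rk z a - rk z b = rk z (a - b) := by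
      ext1 x; simp [rk_apply, inner_sub_left, sub_smul]
    rw [h]
    exact norm_rk_le _ _
  exact this.continuous

lemma star_rk (z y : HH) : star (rk z y) = rk y z := by
  rw [ContinuousLinearMap.star_eq_adjoint]
  symm
  rw [ContinuousLinearMap.eq_adjoint_iff]
  intro a b
  rw [rk_apply, rk_apply, inner_smul_left, inner_smul_right, inner_conj_symm]
  ring

lemma rk_mul (a b c d : HH) : rk a b * rk c d = (inner ℂ b c : ℂ) • rk a d := by
  ext1 x
  show rk a b (rk c d x) = _
  simp only [rk_apply, ContinuousLinearMap.smul_apply, inner_smul_right, mul_smul]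
  rw [smul_comm]

lemma mul_rk (T : HH →L[ℂ] HH) (a b : HH) : T * rk a b = rk (T a) b := by
  ext1 x
  show T (rk a b x) = _
  simp [rk_apply]

lemma rk_mul_op (T : HH →L[ℂ] HH) (a b : HH) : rk a b * T = rk a (star T b) := by
  ext1 x
  show rk a b (T x) = _
  rw [rk_apply, rk_apply, ContinuousLinearMap.star_eq_adjoint,
    ContinuousLinearMap.adjoint_inner_left]

lemma compact_rk (z y : HH) : IsCompactOperator (rk z y) := by
  have h1 : IsCompactOperator (id : ℂ → ℂ) := isCompactOperator_id
  have h2 := (h1.comp_clm (innerSL ℂ y)).clm_comp (ContinuousLinearMap.toSpanSingleton ℂ z)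
  exact h2

lemma inner_e (i j : ℕ) : (inner ℂ (e i) (e j) : ℂ) = if i = j then 1 else 0 := by
  rw [e, e, lp.inner_single_left]
  by_cases h : i = j
  · subst h; simp
  · rw [if_neg h, lp.single_apply_ne 2 j 1 h]; simp

/-- the matrix units -/
def S0 : Set (HH →L[ℂ] HH) := Set.range fun p : ℕ × ℕ => rk (e p.1) (e p.2)

lemma S0_countable : S0.Countable := Set.countable_range _

/-- the algebra -/
noncomputable def A0 : StarSubalgebra ℂ (HH →L[ℂ] HH) :=
  (StarAlgebra.adjoin ℂ S0).topologicalClosure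

instance : IsClosed (A0 : Set (HH →L[ℂ] HH)) :=
  StarSubalgebra.isClosed_topologicalClosure _

lemma S0_star : star S0 = S0 := by
  ext T
  rw [Set.mem_star]
  constructor
  · rintro ⟨p, hp⟩
    refine ⟨(p.2, p.1), ?_⟩
    have := congrArg star hp
    simpa only [star_rk, star_star] using this
  · rintro ⟨p, rfl⟩
    exact ⟨(p.2, p.1), (star_rk _ _).symm⟩

instance : TopologicalSpace.SeparableSpace A0 := by
  have h1 : TopologicalSpace.IsSeparable
      ((StarAlgebra.adjoin ℂ S0 : StarSubalgebra ℂ (HH →L[ℂ] HH)) : Set (HH →L[ℂ] HH)) := by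
    have h2 : ((StarAlgebra.adjoin ℂ S0 : StarSubalgebra ℂ (HH →L[ℂ] HH)) : Set (HH →L[ℂ] HH)) =
        (Submodule.span ℂ (Submonoid.closure S0 : Set (HH →L[ℂ] HH)) : Set (HH →L[ℂ] HH)) := by
      rw [← Algebra.adjoin_eq_span, ← StarSubalgebra.coe_toSubalgebra,
        StarAlgebra.adjoin_toSubalgebra, S0_star, Set.union_self]
      rfl
    rw [h2]
    have h3 : (Submonoid.closure S0 : Set (HH →L[ℂ] HH)).Countable := by
      have := S0_countable.to_subtype
      rw [Submonoid.closure_eq_mrange, MonoidHom.coe_mrange]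
      have h4 : Countable (FreeMonoid S0) := inferInstanceAs (Countable (List S0))
      exact Set.countable_range _
    exact h3.isSeparable.span
  have h5 : TopologicalSpace.IsSeparable (A0 : Set (HH →L[ℂ] HH)) := h1.closure
  exact h5.separableSpace

/-- scalars plus compacts, as a subalgebra -/
def CC : Subalgebra ℂ (HH →L[ℂ] HH) where
  carrier := {T | ∃ c : ℂ, IsCompactOperator (T - c • (1 : HH →L[ℂ] HH))}
  mul_mem' := by
    rintro S T ⟨c, hc⟩ ⟨d, hd⟩
    refine ⟨c * d, ?_⟩
    have h : S * T - (c * d) • (1 : HH →L[ℂ] HH) =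
        (S - c • (1 : HH →L[ℂ] HH)) * T + c • (T - d • (1 : HH →L[ℂ] HH)) := by
      rw [sub_mul, smul_one_mul, smul_sub, smul_smul]
      abel
    rw [h]
    exact (hc.comp_clm T).add (hd.smul c)
  add_mem' := by
    rintro S T ⟨c, hc⟩ ⟨d, hd⟩
    refine ⟨c + d, ?_⟩
    have h : S + T - (c + d) • (1 : HH →L[ℂ] HH) =
        (S - c • (1 : HH →L[ℂ] HH)) + (T - d • (1 : HH →L[ℂ] HH)) := by
      rw [add_smul]; abel
    rw [h]
    exact hc.add hd
  algebraMap_mem' := by
    intro c
    refine ⟨c, ?_⟩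
    rw [Algebra.algebraMap_eq_smul_one, sub_self]
    exact isCompactOperator_zero

lemma CC_closed : IsClosed (CC : Set (HH →L[ℂ] HH)) := by
  have h1 : (CC : Set (HH →L[ℂ] HH)) =
      ((compactOperator (RingHom.id ℂ) HH HH ⊔ Submodule.span ℂ {(1 : HH →L[ℂ] HH)} :
        Submodule ℂ (HH →L[ℂ] HH)) : Set (HH →L[ℂ] HH)) := by
    ext T
    simp only [SetLike.mem_coe]
    rw [Submodule.mem_sup]
    constructor
    · rintro ⟨c, hc⟩
      exact ⟨_, hc, c • 1, Submodule.smul_mem _ _ (Submodule.mem_span_singleton_self _), by simp⟩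
    · rintro ⟨K, hK, z, hz, rfl⟩
      obtain ⟨c, rfl⟩ := Submodule.mem_span_singleton.1 hz
      refine ⟨c, ?_⟩
      rw [add_sub_cancel_right]
      exact hK
  rw [h1]
  apply Submodule.isClosed_sup_finiteDimensional
  exact isClosed_setOf_isCompactOperator

lemma A0_le : ∀ T ∈ A0, T ∈ CC := by
  intro T hT
  have h1 : ((StarAlgebra.adjoin ℂ S0 : StarSubalgebra ℂ (HH →L[ℂ] HH)) : Set (HH →L[ℂ] HH)) ⊆
      (CC : Set (HH →L[ℂ] HH)) := by
    rw [← StarSubalgebra.coe_toSubalgebra, StarAlgebra.adjoin_toSubalgebra, S0_star,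
      Set.union_self]
    have h2 : Algebra.adjoin ℂ S0 ≤ CC := by
      rw [Algebra.adjoin_le_iff]
      rintro _ ⟨p, rfl⟩
      refine ⟨0, ?_⟩
      rw [zero_smul, sub_zero]
      exact compact_rk _ _
    exact h2
  exact closure_minimal h1 CC_closed hT

lemma e_dense (x : HH) : HasSum (fun i => (x i : ℂ) • e i) x := by
  have h := lp.hasSum_single (E := fun _ : ℕ => ℂ) (p := 2) (by norm_num) x
  convert h using 2 with i
  rw [e, ← lp.single_smul, smul_eq_mul, mul_one]

lemma mem_of_closed {P : HH → Prop} (hP : IsClosed {x | P x}) (h0 : P 0)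
    (hadd : ∀ x y, P x → P y → P (x + y)) (hsmul : ∀ (c : ℂ) x, P x → P (c • x))
    (he : ∀ i, P (e i)) (x : HH) : P x := by
  have h := e_dense x
  refine hP.mem_of_tendsto h (Eventually.of_forall fun s => ?_)
  show P _
  induction s using Finset.induction_on with
  | empty => simpa using h0
  | insert a s ha ih =>
      rw [Finset.sum_insert ha]
      exact hadd _ _ (hsmul _ _ (he a)) ih

lemma A0_closed : IsClosed (A0 : Set (HH →L[ℂ] HH)) :=
  StarSubalgebra.isClosed_topologicalClosure _

lemma rk_mem (z y : HH) : rk z y ∈ A0 := by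
  have h1 : ∀ i j, rk (e i) (e j) ∈ A0 := fun i j =>
    StarSubalgebra.le_topologicalClosure _ (StarAlgebra.subset_adjoin ℂ _ ⟨(i, j), rfl⟩)
  have h2 : ∀ i y, rk (e i) y ∈ A0 := by
    intro i y
    refine mem_of_closed (P := fun y => rk (e i) y ∈ A0)
      (A0_closed.preimage (continuous_rk_right (e i))) ?_ ?_ ?_ (h1 i) y
    · have : rk (e i) 0 = 0 := by ext1 x; simp [rk_apply]
      rw [this]; exact zero_mem _
    · intro a b ha hb
      rw [rk_add_right]; exact add_mem ha hb
    · intro c a ha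
      rw [rk_smul_right]; exact A0.smul_mem ha _
  refine mem_of_closed (P := fun z => rk z y ∈ A0)
      (A0_closed.preimage (continuous_rk_left y)) ?_ ?_ ?_ (fun i => h2 i y) z
  · have : rk 0 y = 0 := by ext1 x; simp [rk_apply]
    rw [this]; exact zero_mem _
  · intro a b ha hb
    rw [rk_add_left]; exact add_mem ha hb
  · intro c a ha
    rw [rk_smul_left]; exact A0.smul_mem ha _

/-- the coordinate projection -/
noncomputable def q (s : Finset ℕ) : HH →L[ℂ] HH := ∑ i ∈ s, rk (e i) (e i)

lemma q_apply (s : Finset ℕ) (x : HH) : q s x = ∑ i ∈ s, (x i : ℂ) • e i := by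
  rw [q, ContinuousLinearMap.sum_apply]
  refine Finset.sum_congr rfl fun i _ => ?_
  rw [rk_apply]
  congr 1
  rw [e, lp.inner_single_left]
  simp

lemma q_norm (s : Finset ℕ) : ‖q s‖ ≤ 1 := by
  have h : IsStarProjection (q s) := by
    constructor
    · show q s * q s = q s
      rw [q, Finset.sum_mul]
      refine Finset.sum_congr rfl fun i hi => ?_
      rw [Finset.mul_sum, Finset.sum_eq_single i]
      · rw [rk_mul, inner_e, if_pos rfl, one_smul]
      · intro j _ hj
        rw [rk_mul, inner_e, if_neg (Ne.symm hj), zero_smul]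
      · intro h; exact absurd hi h
    · show star (q s) = q s
      rw [q, star_sum]
      exact Finset.sum_congr rfl fun i _ => star_rk _ _
  exact h.norm_le

lemma compact_mem {K : HH →L[ℂ] HH} (hK : IsCompactOperator K) : K ∈ A0 := by
  have h1 : ∀ s, q s * K ∈ A0 := by
    intro s
    rw [q, Finset.sum_mul]
    refine sum_mem fun i _ => ?_
    rw [rk_mul_op]
    exact rk_mem _ _
  have hlim : Tendsto (fun s => q s * K) atTop (𝓝 K) := by
    rw [Metric.tendsto_nhds]
    intro ε hε
    have hcomp : TotallyBounded (K '' Metric.closedBall 0 1) :=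
      (hK.isCompact_closure_image_closedBall 1).totallyBounded.subset subset_closure
    obtain ⟨t, htf, ht⟩ := Metric.totallyBounded_iff.1 hcomp (ε / 4) (by positivity)
    have h2 : ∀ᶠ s in (atTop : Filter (Finset ℕ)), ∀ z ∈ t, dist (q s z) z < ε / 4 := by
      rw [Filter.eventually_all_finite htf]
      intro z _
      have := e_dense z
      have h3 : Tendsto (fun s : Finset ℕ => q s z) atTop (𝓝 z) := by
        simp_rw [q_apply]
        exact this
      exact Metric.tendsto_nhds.1 h3 _ (by positivity)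
    filter_upwards [h2] with s hs
    rw [dist_eq_norm]
    have h4 : ‖q s * K - K‖ ≤ 3 * (ε / 4) := by
      refine ContinuousLinearMap.opNorm_le_of_unit_norm (by positivity) fun x hx => ?_
      have hx1 : K x ∈ K '' Metric.closedBall 0 1 := ⟨x, by simp [hx], rfl⟩
      obtain ⟨z, hz, hxz⟩ := Set.mem_iUnion₂.1 (ht hx1)
      rw [Metric.mem_ball, dist_eq_norm] at hxz
      have h5 := hs z hz
      rw [dist_eq_norm] at h5
      have h6 : (q s * K - K) x = q s (K x - z) + (q s z - z) + (z - K x) := by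
        rw [map_sub]
        show q s (K x) - K x = _
        abel
      rw [h6]
      have h7 : ‖q s (K x - z)‖ ≤ ‖K x - z‖ := by
        have := (q s).le_opNorm (K x - z)
        have h8 := q_norm s
        have h9 := norm_nonneg (K x - z)
        nlinarith
      have h10 : ‖z - K x‖ = ‖K x - z‖ := norm_sub_rev _ _
      have h11 := norm_add_le (q s (K x - z) + (q s z - z)) (z - K x)
      have h12 := norm_add_le (q s (K x - z)) (q s z - z)
      linarith
    linarith
  exact A0_closed.mem_of_tendsto hlim (Eventually.of_forall h1)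

lemma mem_A0_iff (T : HH →L[ℂ] HH) : T ∈ A0 ↔ ∃ c : ℂ, ∃ K : HH →L[ℂ] HH,
    IsCompactOperator K ∧ T = c • (1 : HH →L[ℂ] HH) + K := by
  constructor
  · intro h
    obtain ⟨c, hc⟩ := A0_le T h
    exact ⟨c, _, hc, by simp⟩
  · rintro ⟨c, K, hK, rfl⟩
    exact add_mem (A0.smul_mem (one_mem _) _) (compact_mem hK)

end prep

/-- There is a complex Banach space X and a continuous algebra homomorphism from bounded operators on X to operators on ℓ2 whose kernel is exactly the compact operators and whose image is exactly scalars plus compacts. -/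
theorem result :
    ∃ (X : Type) (_ : NormedAddCommGroup X) (_ : NormedSpace ℂ X) (_ : CompleteSpace X),
      ∃ φ : (X →L[ℂ] X) →ₐ[ℂ] (lp (fun _ : ℕ => ℂ) 2 →L[ℂ] lp (fun _ : ℕ => ℂ) 2),
        Continuous φ ∧
        (∀ T : lp (fun _ : ℕ => ℂ) 2 →L[ℂ] lp (fun _ : ℕ => ℂ) 2,
          (∃ S : X →L[ℂ] X, φ S = T) ↔
            ∃ c : ℂ, ∃ K : lp (fun _ : ℕ => ℂ) 2 →L[ℂ] lp (fun _ : ℕ => ℂ) 2,
              IsCompactOperator K ∧ T = c • (1 : lp (fun _ : ℕ => ℂ) 2 →L[ℂ] lp (fun _ : ℕ => ℂ) 2) + K) ∧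
        (∀ S : X →L[ℂ] X, φ S = 0 ↔ IsCompactOperator S) := by
  have hnt : Nontrivial A0 := by
    refine ⟨0, 1, fun h => ?_⟩
    have h1 : (0 : HH →L[ℂ] HH) = 1 := congrArg Subtype.val h
    have h2 := DFunLike.congr_fun h1 (e 0)
    have h3 : (inner ℂ (e 0) (e 0) : ℂ) = 0 := by
      rw [show e 0 = 0 from h2.symm, inner_zero_left]
    rw [inner_e] at h3
    simp at h3
  obtain ⟨Y, i1, i2, i3, φ, h1, h2, h3⟩ := Pool.Agent.Helper509.AH.main (A := A0)
  refine ⟨Y, i1, i2, i3, A0.subtype.toAlgHom.comp φ, ?_, ?_, ?_⟩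
  · exact continuous_subtype_val.comp h1
  · intro T
    rw [← mem_A0_iff]
    constructor
    · rintro ⟨S, rfl⟩
      exact (φ S).2
    · intro hT
      obtain ⟨S, hS⟩ := h2 ⟨T, hT⟩
      refine ⟨S, ?_⟩
      show ((φ S : A0) : HH →L[ℂ] HH) = T
      rw [hS]
  · intro S
    rw [← h3 S]
    constructor
    · intro h
      exact Subtype.ext h
    · intro h
      show ((φ S : A0) : HH →L[ℂ] HH) = 0
      rw [h]
      rfl

end Pool.Agent.S06277
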