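import Pool.Statements.S06280
-- import your own Pool.Agent.* helpers here
import Pool.Agent.Helper5_germ.Map

set_option autoImplicit false
open Pool Pool.MP_d4c9a2_an

namespace Pool.Agent.S06280

/-- The negation of the preceding statement: For every holomorphic germ f of ℂⁿ fixing 0 that is non-invertible and dominant, the orders of vanishing c(f^k) of its iterates at 0 eventually satisfy a linear recursion with integer coefficients. -/
theorem result :
    ¬ (∀ (n : ℕ) (f : (Fin n → ℂ) → (Fin n → ℂ)),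
      AnalyticAt ℂ f 0 → f 0 = 0 →
      (fderiv ℂ f 0).det = 0 →
      (∀ ε : ℝ, 0 < ε → ∃ z : Fin n → ℂ, ‖z‖ < ε ∧ (fderiv ℂ f z).det ≠ 0) →
      ∃ (d : ℕ) (a : Fin d → ℤ) (K : ℕ), ∀ k : ℕ, K ≤ k →
        ((sInf {m : ℕ | iteratedFDeriv ℂ m (f^[k + d]) 0 ≠ 0} : ℕ) : ℤ) =
          ∑ i : Fin d, a i *
            ((sInf {m : ℕ | iteratedFDeriv ℂ m (f^[k + (i : ℕ)]) 0 ≠ 0} : ℕ) : ℤ)) := by
  intro hall
  obtain ⟨d, a, K, hrec⟩ := hall 3 Pool.Agent.Helper5_germ.F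
    (Pool.Agent.Helper5_germ.contDiff_F.contDiffAt.analyticAt)
    (by
      funext i
      fin_cases i <;> simp [Pool.Agent.Helper5_germ.F])
    (by
      rw [Pool.Agent.Helper5_germ.det_fderiv, Pool.Agent.Helper5_germ.det_Jac]
      simp)
    (by
      intro ε hε
      refine ⟨fun _ => ((ε / 2 : ℝ) : ℂ), ?_, ?_⟩
      · rw [pi_norm_const, Complex.norm_real, Real.norm_of_nonneg (by positivity)]
        linarith
      · rw [Pool.Agent.Helper5_germ.det_fderiv, Pool.Agent.Helper5_germ.det_Jac]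
        have h1 : ((ε / 2 : ℝ) : ℂ) ≠ 0 := by
          exact_mod_cast (half_pos hε).ne'
        have h2 : 2 * ((ε / 2 : ℝ) : ℂ) * (4 * ((ε / 2 : ℝ) : ℂ) ^ 2 * ((ε / 2 : ℝ) : ℂ) ^ 2 *
            ((ε / 2 : ℝ) : ℂ) - ((ε / 2 : ℝ) : ℂ) ^ 2 * ((ε / 2 : ℝ) : ℂ) ^ 2 *
            ((ε / 2 : ℝ) : ℂ)) = 6 * ((ε / 2 : ℝ) : ℂ) ^ 6 := by ring
        rw [h2]
        exact mul_ne_zero (by norm_num) (pow_ne_zero 6 h1))
  refine Pool.Agent.Helper5_germ.w_not_rec d a K (fun k hk => ?_)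
  have h := hrec k hk
  simp only [Pool.Agent.Helper5_germ.order_iter] at h
  exact h

end Pool.Agent.S06280
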