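-- Disproof at p = 1: every operator on an L¹ space over a countable discrete space attains half of its
-- norm on a function supported on one point, so every bounded geometry space has the 1-operator norm
-- localization property; but there are bounded geometry spaces without property A (finite quotients of
-- the free group of rank two with growing injectivity radius).
import Pool.Statements.S06444
import Pool.Agent.H872_pONL.One
import Pool.Agent.H872_pONL.NotA

set_option autoImplicit false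
open MeasureTheory
open scoped ENNReal
open Pool Pool.MP_e081a1_an

namespace Pool.Agent.S06444

lemma nontrivial_lp : Nontrivial (lp (fun _ : ℕ => ℝ) 1) := by
  classical
  refine ⟨⟨lp.single 1 0 (1 : ℝ), 0, fun h => ?_⟩⟩
  have h1 := congrArg (fun f : lp (fun _ : ℕ => ℝ) 1 => (f : ℕ → ℝ) 0) h
  simp at h1

/-- The negation of the preceding statement: For every p in [1,∞) other than 2, every bounded geometry metric space with the p-operator norm localization property (ℓ^p-valued L^p, all nonzero locally finite Borel measures) has Yu's property A. -/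
theorem result :
    ¬ (∀ (p : ℝ≥0∞) [Fact (1 ≤ p)], p ≠ ⊤ → p ≠ 2 →
    ∀ (X : Type) [MetricSpace X] [MeasurableSpace X] [BorelSpace X],
      (∀ R : ℝ, 0 < R → ∃ N : ℕ, ∀ x : X,
          (Metric.ball x R).Finite ∧ (Metric.ball x R).ncard ≤ N) →
      (∃ c : ℝ, 0 < c ∧ c ≤ 1 ∧ ∃ f : ℕ → ℕ, Monotone f ∧
        ∀ (ν : Measure X) [IsLocallyFiniteMeasure ν], ν ≠ 0 → ∀ r : ℕ,
          ∀ T : Lp (lp (fun _ : ℕ => ℝ) p) p ν →L[ℝ] Lp (lp (fun _ : ℕ => ℝ) p) p ν,
            (∀ x y : X, (r : ℝ) < dist x y →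
              ∃ U V : Set X, IsOpen U ∧ IsOpen V ∧ x ∈ U ∧ y ∈ V ∧
                ∀ g : Lp (lp (fun _ : ℕ => ℝ) p) p ν,
                  (∀ᵐ z ∂ν, z ∉ U → ⇑g z = 0) → ∀ᵐ z ∂ν, z ∈ V → ⇑(T g) z = 0) →
            ∃ ξ : Lp (lp (fun _ : ℕ => ℝ) p) p ν, ξ ≠ 0 ∧
              (∃ S : Set X, (∀ a ∈ S, ∀ b ∈ S, dist a b ≤ (f r : ℝ)) ∧
                ∀ᵐ z ∂ν, z ∉ S → ⇑ξ z = 0) ∧
              c * ‖T‖ * ‖ξ‖ ≤ ‖T ξ‖) →
      (∀ R : ℝ, 0 < R → ∀ ε : ℝ, 0 < ε →
        ∃ S : ℝ, ∃ A : X → Set (X × ℕ),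
          (∀ x, (A x).Finite) ∧ (∀ x, (x, 0) ∈ A x) ∧
          (∀ x, ∀ w ∈ A x, dist w.1 x ≤ S) ∧
          ∀ x y, dist x y < R →
            ((symmDiff (A x) (A y)).ncard : ℝ) < ε * ((A x ∩ A y).ncard : ℝ))) := by
  intro h
  have hE := nontrivial_lp
  refine H872_pONL.not_propA (h 1 ENNReal.one_ne_top (by norm_num) H872_pONL.XX
    H872_pONL.bounded_geometry ?_)
  refine ⟨1 / 2, by norm_num, by norm_num, fun _ => 0, monotone_const, ?_⟩
  intro ν _ hν r T _
  obtain ⟨ξ, hξ, ⟨x, hx⟩, hT⟩ := H872_pONL.exists_point hν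
    (fun x => (isCompact_singleton.measure_lt_top (μ := ν) (K := {x})).ne) T
  refine ⟨ξ, hξ, ⟨{x}, ?_, hx⟩, hT⟩
  intro a ha b hb
  rw [Set.mem_singleton_iff] at ha hb
  rw [ha, hb, dist_self]
  simp

end Pool.Agent.S06444
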