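import Pool.Statements.S06463
import Pool.Agent.H843.Final

set_option autoImplicit false
open MeasureTheory Filter Topology Real
open Pool Pool.MP_e1e648_an

namespace Pool.Agent.S06463

/-- For every norm-closed subalgebra D of L^∞ of the circle containing H^∞, if a,b in QDA = D ∩ conj(D) ∩ H^∞ satisfy ua+vb=1 for some u,v in QDA, then a+cb is invertible in QDA for some c in QDA. -/
theorem result :
    ∀ D : Set (ℝ → ℂ),
      (∀ f ∈ D, MemLp f ⊤ ((volume : Measure ℝ).restrict (Set.Ioc 0 (2 * π)))) →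
      (∀ f ∈ D, ∀ g : ℝ → ℂ,
        g =ᵐ[(volume : Measure ℝ).restrict (Set.Ioc 0 (2 * π))] f → g ∈ D) →
      (∀ f ∈ D, ∀ g ∈ D, f + g ∈ D) →
      (∀ f ∈ D, ∀ g ∈ D, f * g ∈ D) →
      (∀ c : ℂ, ∀ f ∈ D, c • f ∈ D) →
      (∀ f : ℝ → ℂ, MemLp f ⊤ ((volume : Measure ℝ).restrict (Set.Ioc 0 (2 * π))) →
        ∀ u : ℕ → ℝ → ℂ, (∀ n, u n ∈ D) →
          Tendsto (fun n => eLpNorm (u n - f) ⊤
            ((volume : Measure ℝ).restrict (Set.Ioc 0 (2 * π)))) atTop (𝓝 0) → f ∈ D) →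
      (∀ f : ℝ → ℂ, MemLp f ⊤ ((volume : Measure ℝ).restrict (Set.Ioc 0 (2 * π))) →
        (∀ n : ℕ, ∫ x in Set.Ioc 0 (2 * π),
          Complex.exp (((n : ℂ) + 1) * Complex.I * (x : ℂ)) * f x = 0) → f ∈ D) →
      ∀ a b : ℝ → ℂ,
        (a ∈ D ∧ (fun t => starRingEnd ℂ (a t)) ∈ D ∧
          ∀ n : ℕ, ∫ x in Set.Ioc 0 (2 * π),
            Complex.exp (((n : ℂ) + 1) * Complex.I * (x : ℂ)) * a x = 0) →
        (b ∈ D ∧ (fun t => starRingEnd ℂ (b t)) ∈ D ∧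
          ∀ n : ℕ, ∫ x in Set.Ioc 0 (2 * π),
            Complex.exp (((n : ℂ) + 1) * Complex.I * (x : ℂ)) * b x = 0) →
        (∃ u v : ℝ → ℂ,
          (u ∈ D ∧ (fun t => starRingEnd ℂ (u t)) ∈ D ∧
            ∀ n : ℕ, ∫ x in Set.Ioc 0 (2 * π),
              Complex.exp (((n : ℂ) + 1) * Complex.I * (x : ℂ)) * u x = 0) ∧
          (v ∈ D ∧ (fun t => starRingEnd ℂ (v t)) ∈ D ∧
            ∀ n : ℕ, ∫ x in Set.Ioc 0 (2 * π),
              Complex.exp (((n : ℂ) + 1) * Complex.I * (x : ℂ)) * v x = 0) ∧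
          u * a + v * b =ᵐ[(volume : Measure ℝ).restrict (Set.Ioc 0 (2 * π))] 1) →
        ∃ c w : ℝ → ℂ,
          (c ∈ D ∧ (fun t => starRingEnd ℂ (c t)) ∈ D ∧
            ∀ n : ℕ, ∫ x in Set.Ioc 0 (2 * π),
              Complex.exp (((n : ℂ) + 1) * Complex.I * (x : ℂ)) * c x = 0) ∧
          (w ∈ D ∧ (fun t => starRingEnd ℂ (w t)) ∈ D ∧
            ∀ n : ℕ, ∫ x in Set.Ioc 0 (2 * π),
              Complex.exp (((n : ℂ) + 1) * Complex.I * (x : ℂ)) * w x = 0) ∧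
          (a + c * b) * w =ᵐ[(volume : Measure ℝ).restrict (Set.Ioc 0 (2 * π))] 1 := by
  exact Pool.Agent.H843.frozen Pool.Agent.H843.mainF

end Pool.Agent.S06463
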