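import Pool.Statements.S06467
import Pool.Agent.Helper876_Robin.LFrozen

set_option autoImplicit false
open MeasureTheory Metric
open Pool Pool.MP_e2972c_an

namespace Pool.Agent.S06467

/-- In dimension n ≥ 3, for every α < 0 and every bounded connected Lipschitz domain, its first Robin eigenvalue is at most that of any ball with the same boundary area. The eigenvalue is the infimum of the Rayleigh quotient over C¹ compactly supported functions. -/
theorem result :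
  ∀ m : ℕ, 2 ≤ m → ∀ α : ℝ, α < 0 →
  ∀ Ω : Set (EuclideanSpace ℝ (Fin (m+1))), IsOpen Ω → IsConnected Ω → Bornology.IsBounded Ω →
  (∀ x ∈ frontier Ω, ∃ r : ℝ, 0 < r ∧
      ∃ R : EuclideanSpace ℝ (Fin (m+1)) ≃ₗᵢ[ℝ] EuclideanSpace ℝ (Fin (m+1)),
      ∃ K : NNReal, ∃ g : (Fin m → ℝ) → ℝ, LipschitzWith K g ∧
        ∀ y ∈ Metric.ball x r,
          (y ∈ Ω ↔ EuclideanSpace.proj (Fin.last m) (R y) <
              g (fun i => EuclideanSpace.proj (Fin.castSucc i) (R y)))) →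
  ∀ (c : EuclideanSpace ℝ (Fin (m+1))) (ρ : ℝ), 0 < ρ →
    MeasureTheory.Measure.hausdorffMeasure (m : ℝ) (frontier (Metric.ball c ρ)) =
      MeasureTheory.Measure.hausdorffMeasure (m : ℝ) (frontier Ω) →
    sInf {t : ℝ | ∃ u : EuclideanSpace ℝ (Fin (m+1)) → ℝ, ContDiff ℝ 1 u ∧ HasCompactSupport u ∧
        (∫ x in Ω, u x ^ 2) ≠ 0 ∧
        t = ((∫ x in Ω, ‖fderiv ℝ u x‖ ^ 2) +
              α * ∫ x in frontier Ω, u x ^ 2 ∂(MeasureTheory.Measure.hausdorffMeasure (m : ℝ)))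
            / ∫ x in Ω, u x ^ 2}
    ≤ sInf {t : ℝ | ∃ u : EuclideanSpace ℝ (Fin (m+1)) → ℝ, ContDiff ℝ 1 u ∧ HasCompactSupport u ∧
        (∫ x in Metric.ball c ρ, u x ^ 2) ≠ 0 ∧
        t = ((∫ x in Metric.ball c ρ, ‖fderiv ℝ u x‖ ^ 2) +
              α * ∫ x in frontier (Metric.ball c ρ), u x ^ 2
                    ∂(MeasureTheory.Measure.hausdorffMeasure (m : ℝ)))
            / ∫ x in Metric.ball c ρ, u x ^ 2} := by
  intro m hm α hα Ω hΩ hconn hb hlip c ρ hρ hper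
  exact Pool.Agent.Helper876.Rob.frozen_main m hm α hα Ω hΩ hconn.nonempty hb hlip c ρ hρ hper

end Pool.Agent.S06467
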