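import Pool.Statements.S06499
-- import your own Pool.Agent.* helpers here
import Mathlib
import Pool.Agent.H714Q.D

set_option autoImplicit false
open Pool Pool.MP_e53853_an

namespace Pool.Agent.S06499

/-- There is a domain D, a nonempty perfect totally disconnected set P inside D, and f continuous on D, holomorphic on D minus P, not analytic at any point of P, with f(P) totally disconnected. -/
theorem result :
    ∃ (D P : Set ℂ) (f : ℂ → ℂ),
      IsOpen D ∧ IsConnected D ∧
      P ⊆ D ∧ P.Nonempty ∧ Perfect P ∧ IsTotallyDisconnected P ∧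
      ContinuousOn f D ∧
      DifferentiableOn ℂ f (D \ P) ∧
      (∀ p ∈ P, ¬ AnalyticAt ℂ f p) ∧
      IsTotallyDisconnected (f '' P) := by
  obtain ⟨g, L, hL, hlip, hna, han⟩ := Pool.Agent.H714Q.exists_g
  have hcL : (0:ℝ) < 1 / (2 * L) := by positivity
  -- the function
  set c : ℂ := ((1 / (2 * L) : ℝ) : ℂ) with hc
  have hc0 : c ≠ 0 := by
    rw [hc]; exact_mod_cast hcL.ne'
  have hcn : ‖c‖ = 1 / (2 * L) := by
    rw [hc, Complex.norm_real, Real.norm_eq_abs, abs_of_pos hcL]
  set f : ℂ → ℂ := fun z => z + c * g z with hf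
  have hcg : ∀ z w, ‖c * g z - c * g w‖ ≤ 1 / 2 * ‖z - w‖ := by
    intro z w
    rw [← mul_sub, norm_mul, hcn]
    calc 1 / (2 * L) * ‖g z - g w‖ ≤ 1 / (2 * L) * (L * ‖z - w‖) :=
          mul_le_mul_of_nonneg_left (hlip z w) hcL.le
      _ = 1 / 2 * ‖z - w‖ := by field_simp
  have hcont_g : Continuous g := by
    have : LipschitzWith ⟨L, hL.le⟩ g := LipschitzWith.of_dist_le_mul (fun z w => by
      rw [dist_eq_norm, dist_eq_norm]; exact hlip z w)
    exact this.continuous
  have hcont : Continuous f := by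
    rw [hf]; fun_prop
  have hup : ∀ z w, ‖f z - f w‖ ≤ 3 / 2 * ‖z - w‖ := by
    intro z w
    have e : f z - f w = (z - w) + (c * g z - c * g w) := by simp only [hf]; ring
    rw [e]
    refine (norm_add_le _ _).trans ?_
    linarith [hcg z w]
  have hlow : ∀ z w, ‖z - w‖ ≤ 2 * ‖f z - f w‖ := by
    intro z w
    have e : z - w = (f z - f w) - (c * g z - c * g w) := by simp only [hf]; ring
    have h1 : ‖z - w‖ ≤ ‖f z - f w‖ + ‖c * g z - c * g w‖ := by
      calc ‖z - w‖ = ‖(f z - f w) - (c * g z - c * g w)‖ := by rw [← e]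
        _ ≤ _ := norm_sub_le _ _
    linarith [hcg z w]
  have hiff : ∀ z, AnalyticAt ℂ f z ↔ AnalyticAt ℂ g z := by
    intro z
    constructor
    · intro h
      have h1 : AnalyticAt ℂ (fun z => c⁻¹ * (f z - z)) z :=
        analyticAt_const.mul (h.sub analyticAt_id)
      have h2 : (fun z => c⁻¹ * (f z - z)) = g := by
        ext w
        simp only [hf]
        field_simp
        ring
      rwa [h2] at h1
    · intro h
      exact analyticAt_id.add (analyticAt_const.mul h)
  set P : Set ℂ := {z | ¬ AnalyticAt ℂ f z} with hP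
  have hPc : IsClosed P := by
    have : P = {z | AnalyticAt ℂ f z}ᶜ := rfl
    rw [this]
    exact (isOpen_analyticAt ℂ f).isClosed_compl
  have hPtd : IsTotallyDisconnected P := by
    have key : ∀ t : Set ℂ, t ⊆ P → IsPreconnected t → ∀ (φ : ℂ → ℝ), Continuous φ →
        (∀ n, ∀ z ∈ P, φ z ≠ TopologicalSpace.denseSeq ℝ n) → ∀ x ∈ t, ∀ y ∈ t, φ x = φ y := by
      intro t ht hpre φ hφ hmiss x hx y hy
      by_contra hne
      wlog hlt : φ x < φ y generalizing x y with H
      · exact H y hy x hx (Ne.symm hne) (lt_of_le_of_ne (not_lt.1 hlt) (Ne.symm hne))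
      obtain ⟨n, hn⟩ := (TopologicalSpace.denseRange_denseSeq ℝ).exists_mem_open isOpen_Ioo
        (Set.nonempty_Ioo.2 hlt)
      have hord : (φ '' t).OrdConnected := (hpre.image φ hφ.continuousOn).ordConnected
      have hmem : TopologicalSpace.denseSeq ℝ n ∈ φ '' t :=
        hord.out ⟨x, hx, rfl⟩ ⟨y, hy, rfl⟩ ⟨hn.1.le, hn.2.le⟩
      obtain ⟨z, hz, hzn⟩ := hmem
      exact hmiss n z (ht hz) hzn
    intro t ht hpre x hx y hy
    have h1 := key t ht hpre (fun z => z.re) Complex.continuous_re
      (fun n z hz hzn => hz ((hiff z).2 (han n z (Or.inl hzn)))) x hx y hy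
    have h2 := key t ht hpre (fun z => z.im) Complex.continuous_im
      (fun n z hz hzn => hz ((hiff z).2 (han n z (Or.inr hzn)))) x hx y hy
    exact Complex.ext h1 h2
  refine ⟨Set.univ, P, f, isOpen_univ, isConnected_univ, Set.subset_univ _, ?_, ⟨hPc, ?_⟩,
    hPtd, hcont.continuousOn, ?_, fun p hp => hp, ?_⟩
  · obtain ⟨z, hz⟩ := hna
    exact ⟨z, fun h => hz ((hiff z).1 h)⟩
  · rw [preperfect_iff_nhds]
    intro x hx U hU
    by_contra hcon
    push Not at hcon
    refine hx (Complex.analyticAt_of_differentiable_on_punctured_nhds_of_continuousAt ?_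
      hcont.continuousAt)
    rw [eventually_nhdsWithin_iff]
    filter_upwards [hU] with y hy hyx
    by_contra hnd
    have hyP : y ∈ P := fun h => hnd h.differentiableAt
    exact hyx (hcon y ⟨hy, hyP⟩)
  · intro z hz
    have : AnalyticAt ℂ f z := by
      by_contra hcon
      exact hz.2 hcon
    exact this.differentiableAt.differentiableWithinAt
  · have hemb : Topology.IsEmbedding f := by
      have hA : AntilipschitzWith 2 f := AntilipschitzWith.of_le_mul_dist (fun z w => by
        rw [dist_eq_norm, dist_eq_norm]; exact_mod_cast hlow z w)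
      have hLf : LipschitzWith ⟨3 / 2, by norm_num⟩ f := LipschitzWith.of_dist_le_mul (fun z w => by
        rw [dist_eq_norm, dist_eq_norm]; exact hup z w)
      exact (hA.isUniformEmbedding hLf.uniformContinuous).isEmbedding
    exact hemb.isTotallyDisconnected_image.2 hPtd

end Pool.Agent.S06499
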