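import Pool.Statements.S06521
import Pool.Agent.H921.NU.Space

set_option autoImplicit false
open Pool Pool.MP_e7ec4f_an

namespace Pool.Agent.S06521

open Pool.Agent.H921.NU

/-- the basis -/
noncomputable def bx (n : ℕ) : SS :=
  ⟨vv n.unpair, Submodule.le_topologicalClosure _ (Submodule.subset_span ⟨_, rfl⟩)⟩

/-- the coordinate functionals -/
def bs (n : ℕ) : SS →ₗ[ℝ] ℝ where
  toFun f := co (f : EE) n.unpair
  map_add' _ _ := rfl
  map_smul' _ _ := rfl

theorem co_vv (p q : ℕ × ℕ) : co (vv p) q = if q = p then 1 else 0 := by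
  change L (Sum.inl q) (Pi.single p 1) = _
  simp only [L, Pi.single_apply]

theorem co_sum (A : Finset ℕ) (c : ℕ → ℝ) (p : ℕ × ℕ) :
    co ((∑ n ∈ A, c n • bx n : SS) : EE) p
      = if Nat.pair p.1 p.2 ∈ A then c (Nat.pair p.1 p.2) else 0 := by
  classical
  have h1 : co ((∑ n ∈ A, c n • bx n : SS) : EE) p = ∑ n ∈ A, c n * (if p = n.unpair then 1 else 0) := by
    have h2 : ∀ B : Finset ℕ, co ((∑ n ∈ B, c n • bx n : SS) : EE) p
        = ∑ n ∈ B, c n * (if p = n.unpair then 1 else 0) := by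
      intro B
      induction B using Finset.induction_on with
      | empty => simp; rfl
      | insert a B ha ih =>
        rw [Finset.sum_insert ha, Finset.sum_insert ha, ← ih, ← co_vv]
        rfl
    exact h2 A
  rw [h1]
  have h3 : ∀ n, (p = n.unpair) ↔ n = Nat.pair p.1 p.2 := by
    intro n
    constructor
    · intro h; rw [h]; exact (Nat.pair_unpair n).symm
    · rintro rfl; rw [Nat.unpair_pair]
  simp only [h3, mul_ite, mul_one, mul_zero]
  rw [Finset.sum_ite_eq']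

theorem mem_SS (f : SS) : (f : EE) ∈ SS := f.2

/-- near unconditionality -/
theorem near (a : ℝ) (ha : 0 < a) (f : SS) (hf1 : ∀ n, ‖bs n f‖ ≤ 1) (r : ℕ)
    (hr : (1 / 2 : ℝ) ^ r ≤ a / 2) (A : Finset ℕ) (hA : ∀ n ∈ A, a ≤ ‖bs n f‖) :
    ‖∑ n ∈ A, bs n f • bx n‖
      ≤ (1 + 5 / 2 * (2 / a * ∑ s ∈ Finset.range r, (3 / 2 : ℝ) ^ s)) * ‖f‖ := by
  classical
  set D : ℝ := 2 / a * ∑ s ∈ Finset.range r, (3 / 2 : ℝ) ^ s with hD
  have hD0 : 0 ≤ D := by positivity
  set g : SS := ∑ n ∈ A, bs n f • bx n with hg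
  have hf1' : ∀ p, |co (f : EE) p| ≤ 1 := by
    intro p
    have := hf1 (Nat.pair p.1 p.2)
    simpa [bs, Nat.unpair_pair] using this
  have hco : ∀ p, co (g : EE) p = if Nat.pair p.1 p.2 ∈ A then co (f : EE) p else 0 := by
    intro p
    rw [hg, co_sum A (fun n => bs n f) p]
    simp [bs, Nat.unpair_pair]
  -- the level sets
  set lev : ℕ → Finset ℕ := fun k => (A.image Nat.unpair).filter (fun q => q.1 = k) |>.image Prod.snd
    with hlev
  have hmem : ∀ k i, i ∈ lev k ↔ Nat.pair k i ∈ A := by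
    intro k i
    simp only [hlev, Finset.mem_image, Finset.mem_filter]
    constructor
    · rintro ⟨q, ⟨⟨n, hn, rfl⟩, hk⟩, rfl⟩
      rw [← hk, Nat.pair_unpair]; exact hn
    · intro h
      exact ⟨(k, i), ⟨⟨_, h, Nat.unpair_pair k i⟩, rfl⟩, rfl⟩
  have hcount : ∀ k, (1 / 3 : ℝ) ^ k * (lev k).card ≤ D * ‖f‖ := by
    intro k
    refine count (f : EE) f.2 hf1' a ha r hr k (lev k) fun i hi => ?_
    have := hA _ ((hmem k i).1 hi)
    simpa [bs, Nat.unpair_pair] using this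
  have hsum : ∀ (k : ℕ) (F : Finset ℕ), ∑ i ∈ F, |co (g : EE) (k, i)| ≤ (lev k).card := by
    intro k F
    have h1 : ∑ i ∈ F, |co (g : EE) (k, i)| ≤ ∑ i ∈ F, (if i ∈ lev k then (1 : ℝ) else 0) := by
      refine Finset.sum_le_sum fun i _ => ?_
      rw [hco]
      by_cases h : i ∈ lev k
      · rw [if_pos h, if_pos ((hmem k i).1 h)]; exact hf1' _
      · rw [if_neg h, if_neg (fun h' => h ((hmem k i).2 h'))]; simp
    refine h1.trans ?_
    rw [Finset.sum_ite_mem, Finset.sum_const, nsmul_eq_mul, mul_one]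
    exact_mod_cast Finset.card_le_card Finset.inter_subset_right
  change ‖(g : EE)‖ ≤ _
  refine lp.norm_le_of_forall_le (by positivity) fun θ => ?_
  rw [Real.norm_eq_abs, apply_eq (g : EE) g.2]
  have hfn : 0 ≤ ‖f‖ := norm_nonneg f
  rcases θ with p | ⟨k, F, e⟩
  · change |co (g : EE) p| ≤ _
    rw [hco]
    have h1 : |co (f : EE) p| ≤ ‖f‖ := co_le _ _
    split_ifs
    · nlinarith
    · rw [abs_zero]; positivity
  · refine (L_inr_le k F e _).trans ?_
    rw [Finset.sum_add_distrib, ← Finset.mul_sum, mul_add]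
    have h1 := mul_le_mul_of_nonneg_left (hsum k F) (by positivity : (0:ℝ) ≤ (1 / 3) ^ k)
    have h2 := mul_le_mul_of_nonneg_left (hsum (k + 1) F)
      (by positivity : (0:ℝ) ≤ 3 * (1 / 3) ^ (k + 1))
    have h3 := hcount k
    have h4 := hcount (k + 1)
    have h5 : 3 * (1 / 3 : ℝ) ^ (k + 1) = (1 / 3) ^ k := by rw [pow_succ]; ring
    rw [h5] at h2
    have h6 : (1 / 3 : ℝ) ^ k * (lev (k + 1)).card ≤ 3 * (D * ‖f‖) := by
      rw [← h5]; linarith
    nlinarith

/-- the test vectors -/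
theorem bad (J : ℕ) (hJ : 1 ≤ J) : ∃ (f : SS) (A : Finset ℕ), A.Nonempty ∧
    (∀ n ∈ A, ∀ k : ℕ, k ∉ A → ‖bs k f‖ ≤ ‖bs n f‖) ∧ (∀ n ∈ A, 1 ≤ ‖bs n f‖) ∧
    ‖f‖ ≤ 2 ^ J ∧ (3 : ℝ) ^ J / 2 ≤ ‖∑ n ∈ A, (bs n f / ‖bs n f‖) • bx n‖ := by
  classical
  set A : Finset ℕ := ((Finset.range (J + 1)) ×ˢ (Finset.range (3 ^ J))).image
    (fun p => Nat.pair p.1 p.2) with hA
  have hmem : ∀ k i, Nat.pair k i ∈ A ↔ k ≤ J ∧ i < 3 ^ J := by
    intro k i
    simp only [hA, Finset.mem_image, Finset.mem_product, Finset.mem_range]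
    constructor
    · rintro ⟨p, ⟨h1, h2⟩, h⟩
      have := Nat.pair_eq_pair.1 h
      omega
    · rintro ⟨h1, h2⟩
      exact ⟨(k, i), ⟨by omega, h2⟩, rfl⟩
  set f : SS := ∑ n ∈ A, (2 : ℝ) ^ n.unpair.1 • bx n with hf
  have hcof : ∀ k i, co (f : EE) (k, i) = if k ≤ J ∧ i < 3 ^ J then (2 : ℝ) ^ k else 0 := by
    intro k i
    rw [hf, co_sum A (fun n => (2 : ℝ) ^ n.unpair.1) (k, i)]
    simp only [Nat.unpair_pair]
    by_cases h : k ≤ J ∧ i < 3 ^ J
    · rw [if_pos h, if_pos ((hmem k i).2 h)]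
    · rw [if_neg h, if_neg (fun h' => h ((hmem k i).1 h'))]
  have hbs : ∀ n, bs n f = if n ∈ A then (2 : ℝ) ^ n.unpair.1 else 0 := by
    intro n
    change co (f : EE) (n.unpair.1, n.unpair.2) = _
    rw [hcof]
    have := hmem n.unpair.1 n.unpair.2
    rw [Nat.pair_unpair] at this
    by_cases h : n ∈ A
    · rw [if_pos h, if_pos (this.1 h)]
    · rw [if_neg h, if_neg (fun h' => h (this.2 h'))]
  refine ⟨f, A, ⟨Nat.pair 0 0, (hmem 0 0).2 ⟨by omega, by positivity⟩⟩, ?_, ?_, ?_, ?_⟩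
  · intro n _ k hk
    rw [hbs k, if_neg hk, norm_zero]; exact norm_nonneg _
  · intro n hn
    rw [hbs n, if_pos hn, Real.norm_eq_abs, abs_of_nonneg (by positivity)]
    exact one_le_pow₀ (by norm_num)
  · -- the norm of `f`
    change ‖(f : EE)‖ ≤ _
    refine lp.norm_le_of_forall_le (by positivity) fun θ => ?_
    rw [Real.norm_eq_abs, apply_eq (f : EE) f.2]
    rcases θ with ⟨k, i⟩ | ⟨k, F, e⟩
    · change |co (f : EE) (k, i)| ≤ _
      rw [hcof]
      split_ifs with h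
      · rw [abs_of_nonneg (by positivity)]
        exact pow_le_pow_right₀ (by norm_num) h.1
      · rw [abs_zero]; positivity
    · simp only [L]
      rw [abs_mul, abs_of_nonneg (by positivity : (0:ℝ) ≤ (1 / 3) ^ k)]
      have h1 : |∑ i ∈ F, sg (e i) * (co (f : EE) (k, i) - 1 / 2 * co (f : EE) (k + 1, i))|
          ≤ ∑ i ∈ F, (if i ∈ Finset.range (3 ^ J) then (if k = J then (2:ℝ) ^ J else 0) else 0) := by
        refine (Finset.abs_sum_le_sum_abs _ _).trans (Finset.sum_le_sum fun i _ => ?_)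
        rw [abs_mul, abs_sg, one_mul, hcof, hcof]
        by_cases hi : i < 3 ^ J
        · rw [if_pos (Finset.mem_range.2 hi)]
          rcases lt_trichotomy k J with hk | hk | hk
          · rw [if_pos ⟨hk.le, hi⟩, if_pos ⟨hk, hi⟩, if_neg hk.ne, pow_succ]
            ring_nf; simp
          · rw [if_pos ⟨hk.le, hi⟩, if_neg (by omega), if_pos hk, hk]
            simp
          · rw [if_neg (by omega), if_neg (by omega), if_neg hk.ne']; simp
        · rw [if_neg (by omega), if_neg (by omega), if_neg (by simpa using hi)]; simp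
      by_cases hk : k = J
      · simp only [hk, if_true] at h1 ⊢
        rw [Finset.sum_ite_mem, Finset.sum_const, nsmul_eq_mul] at h1
        have h2 : ((F ∩ Finset.range (3 ^ J)).card : ℝ) ≤ 3 ^ J := by
          have := Finset.card_le_card (Finset.inter_subset_right (s₁ := F) (s₂ := Finset.range (3 ^ J)))
          rw [Finset.card_range] at this
          exact_mod_cast this
        have h3 : ((F ∩ Finset.range (3 ^ J)).card : ℝ) * 2 ^ J ≤ 3 ^ J * 2 ^ J :=
          mul_le_mul_of_nonneg_right h2 (by positivity)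
        have h4 := mul_le_mul_of_nonneg_left (h1.trans h3) (by positivity : (0:ℝ) ≤ (1 / 3) ^ J)
        refine h4.trans (le_of_eq ?_)
        rw [← mul_assoc, ← mul_pow]; norm_num
      · simp only [hk, if_false, ite_self, Finset.sum_const_zero] at h1
        have : |∑ i ∈ F, sg (e i) * (co (f : EE) (k, i) - 1 / 2 * co (f : EE) (k + 1, i))| = 0 :=
          le_antisymm h1 (abs_nonneg _)
        rw [this, mul_zero]; positivity
  · -- the truncation
    set g : SS := ∑ n ∈ A, (bs n f / ‖bs n f‖) • bx n with hg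
    have hcog : ∀ k i, co (g : EE) (k, i) = if k ≤ J ∧ i < 3 ^ J then (1 : ℝ) else 0 := by
      intro k i
      rw [hg, co_sum A (fun n => bs n f / ‖bs n f‖) (k, i)]
      by_cases h : k ≤ J ∧ i < 3 ^ J
      · have hm := (hmem k i).2 h
        rw [if_pos h, if_pos hm]
        simp only [hbs, if_pos hm]
        rw [Real.norm_eq_abs, abs_of_nonneg (by positivity)]
        exact div_self (by positivity)
      · rw [if_neg h, if_neg (fun h' => h ((hmem k i).1 h'))]
    have h1 := sum_le (g : EE) g.2 0 (Finset.range (3 ^ J))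
    rw [pow_zero, one_mul] at h1
    have h2 : ∑ i ∈ Finset.range (3 ^ J), |co (g : EE) (0, i) - 1 / 2 * co (g : EE) (0 + 1, i)|
        = ∑ i ∈ Finset.range (3 ^ J), (1 / 2 : ℝ) := by
      refine Finset.sum_congr rfl fun i hi => ?_
      rw [hcog, hcog, if_pos ⟨by omega, Finset.mem_range.1 hi⟩,
        if_pos ⟨by omega, Finset.mem_range.1 hi⟩]
      norm_num
    rw [h2, Finset.sum_const, Finset.card_range, nsmul_eq_mul] at h1
    push_cast at h1
    change _ ≤ ‖(g : EE)‖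
    linarith

/-- There is a real or complex quasi-Banach space with a bounded biorthogonal basis that is nearly unconditional (coordinates at least a can be projected boundedly) but not truncation quasi-greedy. -/
theorem result :
    ∃ (𝕂 : Type) (_ : RCLike 𝕂) (X : Type) (_ : AddCommGroup X) (_ : Module 𝕂 X)
      (q : X → ℝ) (κ : ℝ) (x : ℕ → X) (xs : ℕ → X →ₗ[𝕂] 𝕂),
      (∀ f : X, 0 ≤ q f) ∧
      (∀ f : X, q f = 0 → f = 0) ∧
      (∀ (c : 𝕂) (f : X), q (c • f) = ‖c‖ * q f) ∧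
      (∀ f g : X, q (f + g) ≤ κ * (q f + q g)) ∧
      (∀ u : ℕ → X, (∀ ε : ℝ, 0 < ε → ∃ N : ℕ, ∀ m ≥ N, ∀ n ≥ N, q (u m - u n) < ε) →
        ∃ f : X, ∀ ε : ℝ, 0 < ε → ∃ N : ℕ, ∀ n ≥ N, q (u n - f) < ε) ∧
      (∃ B : ℝ, ∀ n : ℕ, q (x n) ≤ B) ∧
      (∃ M : ℝ, ∀ (n : ℕ) (f : X), ‖xs n f‖ ≤ M * q f) ∧
      (∀ m n : ℕ, xs m (x n) = if m = n then 1 else 0) ∧
      (∀ f : X, ∀ ε : ℝ, 0 < ε → ∃ g ∈ Submodule.span 𝕂 (Set.range x), q (f - g) < ε) ∧
      (∀ a : ℝ, 0 < a → a ≤ 1 → ∃ C : ℝ, ∀ f : X, (∀ n : ℕ, ‖xs n f‖ ≤ 1) →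
        ∀ A : Finset ℕ, (∀ n ∈ A, a ≤ ‖xs n f‖) →
          q (∑ n ∈ A, xs n f • x n) ≤ C * q f) ∧
      ¬ (∃ C : ℝ, ∀ f : X, ∀ A : Finset ℕ, A.Nonempty →
          (∀ n ∈ A, ∀ k : ℕ, k ∉ A → ‖xs k f‖ ≤ ‖xs n f‖) →
          ∀ t : ℝ, (∀ n ∈ A, t ≤ ‖xs n f‖) →
            t * q (∑ n ∈ A, (xs n f / ((‖xs n f‖ : ℝ) : 𝕂)) • x n) ≤ C * q f) := by
  refine ⟨ℝ, inferInstance, SS, inferInstance, inferInstance, fun f => ‖f‖, 1, bx, bs,
    fun f => norm_nonneg f, fun f hf => norm_eq_zero.1 hf, fun c f => norm_smul c f,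
    fun f g => ?_, fun u hu => ?_, ⟨2, fun n => vv_norm _⟩, ⟨1, fun n f => ?_⟩, fun m n => ?_,
    fun f ε hε => ?_, fun a ha _ => ?_, ?_⟩
  · rw [one_mul]; exact norm_add_le f g
  · have hc : CauchySeq u := by
      rw [Metric.cauchySeq_iff]
      intro ε hε
      obtain ⟨N, hN⟩ := hu ε hε
      exact ⟨N, fun m hm n hn => by rw [dist_eq_norm]; exact hN m hm n hn⟩
    obtain ⟨f, hf⟩ := cauchySeq_tendsto_of_complete hc
    refine ⟨f, fun ε hε => ?_⟩
    obtain ⟨N, hN⟩ := Metric.tendsto_atTop.1 hf ε hε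
    exact ⟨N, fun n hn => by have := hN n hn; rwa [dist_eq_norm] at this⟩
  · rw [one_mul]; exact co_le _ _
  · change co (vv n.unpair) m.unpair = _
    rw [co_vv]
    by_cases h : m = n
    · rw [h]; simp
    · rw [if_neg h, if_neg]
      intro h'
      exact h (by rw [← Nat.pair_unpair m, ← Nat.pair_unpair n, h'])
  · have h1 : (f : EE) ∈ closure (Submodule.span ℝ (Set.range vv) : Set EE) := f.2
    obtain ⟨g, hg, hfg⟩ := Metric.mem_closure_iff.1 h1 ε hε
    have h2 : Submodule.map SS.subtype (Submodule.span ℝ (Set.range bx))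
        = Submodule.span ℝ (Set.range vv) := by
      rw [Submodule.map_span, ← Set.range_comp]
      congr 1
      ext w
      constructor
      · rintro ⟨n, rfl⟩; exact ⟨n.unpair, rfl⟩
      · rintro ⟨p, rfl⟩
        refine ⟨Nat.pair p.1 p.2, ?_⟩
        change vv (Nat.pair p.1 p.2).unpair = vv p
        rw [Nat.unpair_pair]
    have hg' : g ∈ Submodule.map SS.subtype (Submodule.span ℝ (Set.range bx)) := by
      rw [h2]; exact hg
    obtain ⟨g', hg'1, hg'2⟩ := hg'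
    refine ⟨g', hg'1, ?_⟩
    have : (g' : EE) = g := hg'2
    rw [dist_eq_norm] at hfg
    change ‖(f : EE) - (g' : EE)‖ < ε
    rw [this]; exact hfg
  · obtain ⟨r, hr⟩ := exists_pow_lt_of_lt_one (by positivity : (0:ℝ) < a / 2)
      (by norm_num : (1 / 2 : ℝ) < 1)
    exact ⟨_, fun f hf A hA => near a ha f hf r hr.le A hA⟩
  · rintro ⟨C, hC⟩
    -- choose `J` large
    obtain ⟨J, hJ⟩ := pow_unbounded_of_one_lt (2 * |C| + 2) (by norm_num : (1:ℝ) < 3 / 2)
    have hJ1 : 1 ≤ J := by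
      by_contra h
      have : J = 0 := by omega
      rw [this, pow_zero] at hJ
      linarith [abs_nonneg C]
    obtain ⟨f, A, hAn, h1, h2, h3, h4⟩ := bad J hJ1
    have h5 := hC f A hAn h1 1 h2
    rw [one_mul] at h5
    have h6 : (3 : ℝ) ^ J / 2 ≤ C * ‖f‖ := by
      refine h4.trans ?_
      exact h5
    have h7 : C * ‖f‖ ≤ |C| * 2 ^ J := by
      have := le_abs_self C
      have hn := norm_nonneg f
      nlinarith [abs_nonneg C]
    have h8 : (3 / 2 : ℝ) ^ J * 2 ^ J = 3 ^ J := by rw [← mul_pow]; norm_num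
    have h9 : (0:ℝ) < 2 ^ J := by positivity
    nlinarith

end Pool.Agent.S06521
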