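import Pool.Statements.S06528
import Pool.Agent.H938_Salem4.G5
import Pool.Agent.H938_Salem4.D3

set_option autoImplicit false
open Filter Topology
open Pool Pool.MP_e840b2_an

namespace Pool.Agent.S06528

/-- The negation of the preceding statement: For every λ in (1/2,1) whose reciprocal is a Salem number, the normalized Shannon entropy (1/n)·H of the law of the random sum ∑_{i<n} ±λ^i (fair independent signs) converges to log(1/λ). -/
theorem result :
    ¬ (∀ l : ℝ, 1 / 2 < l → l < 1 →
      (IsIntegral ℤ l⁻¹ ∧ 1 < l⁻¹ ∧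
        (∀ z ∈ (minpoly ℚ l⁻¹).aroots ℂ, z ≠ ((l⁻¹ : ℝ) : ℂ) → ‖z‖ ≤ 1) ∧
        (∃ z ∈ (minpoly ℚ l⁻¹).aroots ℂ, ‖z‖ = 1)) →
      Tendsto
        (fun n : ℕ =>
          (∑ x ∈ (Finset.univ : Finset (Fin n → Bool)).image
                (fun ε : Fin n → Bool =>
                  ∑ i : Fin n, (if ε i then (1 : ℝ) else -1) * l ^ (i : ℕ)),
              Real.negMulLog
                ((((Finset.univ : Finset (Fin n → Bool)).filter
                    (fun ε : Fin n → Bool =>
                      ∑ i : Fin n, (if ε i then (1 : ℝ) else -1) * l ^ (i : ℕ) = x)).card : ℝ)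
                  / 2 ^ n)) / (n : ℝ))
        atTop (𝓝 (Real.log l⁻¹))) := by
  intro hall
  obtain ⟨l, hl1, hl2, hS, ζ, H⟩ := Pool.Agent.H938.salem_hyp
  have hT := hall l hl1 hl2 hS
  obtain ⟨L, C, hL, hdrop⟩ := Pool.Agent.H938.entropy_drop H
  have key : ∀ n : ℕ, (∑ x ∈ (Finset.univ : Finset (Fin n → Bool)).image
                (fun ε : Fin n → Bool =>
                  ∑ i : Fin n, (if ε i then (1 : ℝ) else -1) * l ^ (i : ℕ)),
              Real.negMulLog
                ((((Finset.univ : Finset (Fin n → Bool)).filter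
                    (fun ε : Fin n → Bool =>
                      ∑ i : Fin n, (if ε i then (1 : ℝ) else -1) * l ^ (i : ℕ) = x)).card : ℝ)
                  / 2 ^ n)) = Pool.Agent.H938.Ent
                    (fun ω : Fin n → Bool => Pool.Agent.H938.SS l ω) := by
    intro n
    have e1 : ∀ ε : Fin n → Bool, Pool.Agent.H938.SS l ε =
        ∑ i : Fin n, (if ε i then (1 : ℝ) else -1) * l ^ (i : ℕ) := by
      intro ε
      unfold Pool.Agent.H938.SS
      rw [Finset.sum_range]
      refine Finset.sum_congr rfl fun i _ => ?_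
      unfold Pool.Agent.H938.xs
      rw [dif_pos i.2]
    have hc : ((Fintype.card (Fin n → Bool) : ℕ) : ℝ) = 2 ^ n := by simp
    unfold Pool.Agent.H938.Ent
    simp only [e1, hc]
  simp_rw [key] at hT
  have hT2 : Tendsto (fun m : ℕ => Pool.Agent.H938.Ent
      (fun ω : Fin (m * L) → Bool => Pool.Agent.H938.SS l ω) / ((m * L : ℕ) : ℝ)) atTop
      (𝓝 (Real.log l⁻¹)) := by
    have hm : Tendsto (fun m : ℕ => m * L) atTop atTop :=
      tendsto_atTop_mono (fun m => Nat.le_mul_of_pos_right m hL) tendsto_id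
    exact hT.comp hm
  have hLr : (0 : ℝ) < L := by exact_mod_cast hL
  have hT3 : Tendsto (fun m : ℕ => C / ((m * L : ℕ) : ℝ) + (Real.log l⁻¹ - 1 / L)) atTop
      (𝓝 (0 + (Real.log l⁻¹ - 1 / L))) := by
    apply Tendsto.add _ tendsto_const_nhds
    have hm : Tendsto (fun m : ℕ => ((m * L : ℕ) : ℝ)) atTop atTop :=
      tendsto_natCast_atTop_atTop.comp
        (tendsto_atTop_mono (fun m => Nat.le_mul_of_pos_right m hL) tendsto_id)
    exact hm.const_div_atTop C
  have hle : ∀ᶠ m : ℕ in atTop, Pool.Agent.H938.Ent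
      (fun ω : Fin (m * L) → Bool => Pool.Agent.H938.SS l ω) / ((m * L : ℕ) : ℝ) ≤
      C / ((m * L : ℕ) : ℝ) + (Real.log l⁻¹ - 1 / L) := by
    filter_upwards [eventually_ge_atTop 1] with m hm
    have hmr : (0 : ℝ) < m := by exact_mod_cast hm
    have h1 := hdrop m
    have hpos : (0 : ℝ) < ((m * L : ℕ) : ℝ) := by push_cast; positivity
    rw [div_le_iff₀ hpos]
    refine h1.trans (le_of_eq ?_)
    push_cast
    field_simp
  have hfin := le_of_tendsto_of_tendsto hT2 hT3 hle
  have : (0 : ℝ) < 1 / L := by positivity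
  linarith

end Pool.Agent.S06528
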