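import Pool.Statements.S06758
import Pool.Agent.Helper638_Ros.Final

set_option autoImplicit false
open Pool Pool.MP_f88c17_an

namespace Pool.Agent.S06758

/-- The negation of the preceding statement: There are two commuting smooth orientation-preserving circle diffeomorphisms generating a faithful Z^2 action such that every commuting pair C^r-close to them, for some fixed r and ε, is simultaneously conjugate to them by a smooth circle diffeomorphism. -/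
theorem result :
    ¬ (∃ F G : ℝ → ℝ,
      ContDiff ℝ ((⊤ : ℕ∞) : WithTop ℕ∞) F ∧ (∀ x : ℝ, F (x + 1) = F x + 1) ∧
      (∀ x : ℝ, 0 < deriv F x) ∧
      ContDiff ℝ ((⊤ : ℕ∞) : WithTop ℕ∞) G ∧ (∀ x : ℝ, G (x + 1) = G x + 1) ∧
      (∀ x : ℝ, 0 < deriv G x) ∧
      (∃ k : ℤ, ∀ x : ℝ, F (G x) = G (F x) + (k : ℝ)) ∧
      (∀ a b c d : ℕ,
        (∃ j : ℤ, ∀ x : ℝ, F^[a] (G^[b] x) = F^[c] (G^[d] x) + (j : ℝ)) → a = c ∧ b = d) ∧
      ∃ r : ℕ, ∃ ε > (0 : ℝ), ∀ F' G' : ℝ → ℝ,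
        ContDiff ℝ ((⊤ : ℕ∞) : WithTop ℕ∞) F' → (∀ x : ℝ, F' (x + 1) = F' x + 1) →
        (∀ x : ℝ, 0 < deriv F' x) →
        ContDiff ℝ ((⊤ : ℕ∞) : WithTop ℕ∞) G' → (∀ x : ℝ, G' (x + 1) = G' x + 1) →
        (∀ x : ℝ, 0 < deriv G' x) →
        (∃ k : ℤ, ∀ x : ℝ, F' (G' x) = G' (F' x) + (k : ℝ)) →
        (∀ i : ℕ, i ≤ r → ∀ x : ℝ,
          |iteratedDeriv i F' x - iteratedDeriv i F x| < ε ∧
          |iteratedDeriv i G' x - iteratedDeriv i G x| < ε) →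
        ∃ H : ℝ → ℝ, ContDiff ℝ ((⊤ : ℕ∞) : WithTop ℕ∞) H ∧
          ((∀ x : ℝ, H (x + 1) = H x + 1) ∨ (∀ x : ℝ, H (x + 1) = H x - 1)) ∧
          (∀ x : ℝ, deriv H x ≠ 0) ∧
          (∃ j : ℤ, ∀ x : ℝ, H (F' x) = F (H x) + (j : ℝ)) ∧
          (∃ j : ℤ, ∀ x : ℝ, H (G' x) = G (H x) + (j : ℝ))) := by
  exact Pool.Agent.Helper638.Ros.final

end Pool.Agent.S06758
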