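import Pool.Statements.S07041
import Pool.Agent.H602PD.Main

set_option autoImplicit false
open Pool Pool.MP_08bb88_co

namespace Pool.Agent.S07041

/-- In every finite graph with no induced fork, every nonempty vertex set S splits into A and B where G[A] is perfect (χ = ω on all induced subgraphs) and the largest clique inside B is smaller than the largest clique inside S. -/
theorem result :
  ∀ (V : Type) [Fintype V] (G : SimpleGraph V),
    (¬ ∃ a b c d e : V, a ≠ c ∧ a ≠ d ∧ a ≠ e ∧ b ≠ d ∧ b ≠ e ∧ d ≠ e ∧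
      G.Adj a b ∧ G.Adj b c ∧ G.Adj c d ∧ G.Adj c e ∧
      ¬ G.Adj a c ∧ ¬ G.Adj a d ∧ ¬ G.Adj a e ∧ ¬ G.Adj b d ∧ ¬ G.Adj b e ∧ ¬ G.Adj d e) →
    ∀ S : Set V, S.Nonempty →
      ∃ A B : Set V, A ∪ B = S ∧ Disjoint A B ∧
        (∀ T : Set V, T ⊆ A →
          ∃ s : Finset V, (↑s : Set V) ⊆ T ∧ G.IsClique (↑s : Set V) ∧
            (G.induce T).Colorable s.card) ∧
        (∃ s : Finset V, (↑s : Set V) ⊆ S ∧ G.IsClique (↑s : Set V) ∧
          ∀ t : Finset V, (↑t : Set V) ⊆ B → G.IsClique (↑t : Set V) → t.card < s.card) := by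
  intro V _ G hG S hS
  refine Pool.Agent.H602PD.perfectly_divisible (G := G) ?_ hS
  intro a b c d e h1 h2 h3 h4 h5 h6 h7 h8 h9 h10 h11
  refine hG ⟨a, b, c, d, e, ?_, ?_, ?_, ?_, ?_, h11, h1, h2, h3, h4, h5, h6, h7, h8, h9, h10⟩
  · rintro rfl; exact h6 h3
  · rintro rfl; exact h5 h3.symm
  · rintro rfl; exact h5 h4.symm
  · rintro rfl; exact h6 h1
  · rintro rfl; exact h7 h1

end Pool.Agent.S07041
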