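-- Proof of frozen statement S07062 (MP_0960bd_co): the periodic tiling conjecture fails for
-- topological balls. The proof is assembled from the modules under Pool/Agent/Helper492_PTC.
import Pool.Statements.S07062
import Pool.Agent.Helper492_PTC.P1Non
import Pool.Agent.Helper492_PTC.P1Ex
import Pool.Agent.Helper492_PTC.P1Asm
import Pool.Agent.Helper492_PTC.P2Conv
import Pool.Agent.Helper492_PTC.P2Ex
import Pool.Agent.Helper492_PTC.P2Lin
import Pool.Agent.Helper492_PTC.P2Asm
import Pool.Agent.Helper492_PTC.Shear
import Pool.Agent.Helper492_PTC.Tip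
import Pool.Agent.Helper492_PTC.Bump
import Pool.Agent.Helper492_PTC.Exist
import Pool.Agent.Helper492_PTC.Tile
import Pool.Agent.Helper492_PTC.Gen
import Pool.Agent.Helper492_PTC.LemM
import Pool.Agent.Helper492_PTC.Align
import Pool.Agent.Helper492_PTC.Slices
import Pool.Agent.Helper492_PTC.Param
import Pool.Agent.Helper492_PTC.Period
import Pool.Agent.Helper492_PTC.Transfer
import Pool.Agent.Helper492_PTC.Final

set_option autoImplicit false
open MeasureTheory
open Pool Pool.MP_0960bd_co

namespace Pool.Agent.S07062

/-- The negation of the preceding statement: For every dimension d and every set T in R^d homeomorphic to the closed unit ball: if T tiles R^d by translations (almost every point is covered exactly once), then it has such a tiling invariant under d linearly independent translations. -/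
theorem result :
    ¬ (∀ (d : ℕ) (T : Set (EuclideanSpace ℝ (Fin d))),
      Nonempty (T ≃ₜ Metric.closedBall (0 : EuclideanSpace ℝ (Fin d)) 1) →
      (∃ Λ : Set (EuclideanSpace ℝ (Fin d)),
        ∀ᵐ x ∂(volume : Measure (EuclideanSpace ℝ (Fin d))),
          ∃! t, t ∈ Λ ∧ x - t ∈ T) →
      ∃ Λ : Set (EuclideanSpace ℝ (Fin d)),
        (∀ᵐ x ∂(volume : Measure (EuclideanSpace ℝ (Fin d))),
          ∃! t, t ∈ Λ ∧ x - t ∈ T) ∧
        ∃ v : Fin d → EuclideanSpace ℝ (Fin d),
          LinearIndependent ℝ v ∧
            ∀ i, ∀ t ∈ Λ, t + v i ∈ Λ ∧ t - v i ∈ Λ) :=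
  open Pool.Agent.Helper492_PTC in
  final (p2Asm (p1Asm p1Ex p1Non) p2Conv p2Ex p2Lin) shear bump tile exist gen tip lemM align
    slices param period transfer

end Pool.Agent.S07062
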