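import Pool.Statements.S07160

set_option autoImplicit false
open Pool Pool.MP_0cd801_co

namespace Pool.Agent.S07160

/-- the out-neighbours in a 3-diregular oriented graph on 13 vertices without Hamilton cycle -/
def nb : ℕ → List ℕ
  | 0 => [1, 4, 8]
  | 1 => [2, 4, 11]
  | 2 => [3, 5, 8]
  | 3 => [5, 6, 7]
  | 4 => [3, 7, 9]
  | 5 => [6, 10, 11]
  | 6 => [1, 2, 10]
  | 7 => [5, 9, 12]
  | 8 => [3, 6, 12]
  | 9 => [0, 1, 11]
  | 10 => [0, 2, 9]
  | 11 => [7, 8, 12]
  | 12 => [0, 4, 10]
  | _ => []

/-- exhaustive search: `dfs k v m` says that no directed path which starts at `v`, has `k` further vertices,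
avoids the set coded by `m`, and whose last vertex dominates `0`, exists. -/
def dfs : ℕ → ℕ → ℕ → Bool
  | 0, v, _ => (nb v).all fun w => w != 0
  | k + 1, v, m => (nb v).all fun w => m.testBit w || dfs k w (m ||| 2 ^ w)

theorem dfs_true : dfs 12 0 1 = true := by
  decide +kernel

/-- the oriented graph -/
def G : Digraph (Fin 13) where
  Adj u v := v.val ∈ nb u.val

instance : DecidableRel G.Adj := fun u v => by
  unfold G
  infer_instance

theorem dfs_sound (g : ℕ → ℕ) (hadj : ∀ k < 12, g (k + 1) ∈ nb (g k))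
    (hinj : ∀ i j, i ≤ 12 → j ≤ 12 → g i = g j → i = j) (h0 : g 0 = 0) :
    ∀ k ≤ 12, ∃ m : ℕ, (∀ w, m.testBit w = true → ∃ i ≤ k, g i = w) ∧ dfs (12 - k) (g k) m = true := by
  intro k
  induction k with
  | zero =>
    intro _
    refine ⟨1, ?_, ?_⟩
    · intro w hw
      refine ⟨0, le_rfl, ?_⟩
      rw [h0]
      by_contra hne
      have hw0 : 0 < w := Nat.pos_of_ne_zero (fun h => hne h.symm)
      rw [Nat.testBit_one_eq_true_iff_self_eq_zero] at hw
      omega
    · rw [h0]
      exact dfs_true
  | succ k ih =>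
    intro hk
    obtain ⟨m, hm, hd⟩ := ih (by omega)
    have e : 12 - k = (12 - (k + 1)) + 1 := by omega
    rw [e] at hd
    simp only [dfs, List.all_eq_true, Bool.or_eq_true] at hd
    have h := hd (g (k + 1)) (hadj k (by omega))
    rcases h with h | h
    · obtain ⟨i, hi, hgi⟩ := hm _ h
      have := hinj i (k + 1) (by omega) (by omega) hgi
      omega
    · refine ⟨_, ?_, h⟩
      intro w hw
      rw [Nat.testBit_or, Bool.or_eq_true] at hw
      rcases hw with hw | hw
      · obtain ⟨i, hi, hgi⟩ := hm _ hw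
        exact ⟨i, by omega, hgi⟩
      · rw [Nat.testBit_two_pow] at hw
        exact ⟨k + 1, le_rfl, by simpa using hw⟩

/-- The negation of the preceding statement: For every d > 2 and n ≤ 4d+1, every oriented graph on n vertices in which each vertex has in-degree d and out-degree d has a directed Hamilton cycle, i.e. a cyclic ordering of all n vertices with an arc from each vertex to the next. -/
theorem result :
    ¬ (∀ (d n : ℕ), 2 < d → n ≤ 4 * d + 1 →
      ∀ G : Digraph (Fin n),
        (∀ u v : Fin n, G.Adj u v → ¬ G.Adj v u) →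
        (∀ v : Fin n, Set.ncard {u : Fin n | G.Adj v u} = d) →
        (∀ v : Fin n, Set.ncard {u : Fin n | G.Adj u v} = d) →
        ∃ f : Fin n → Fin n, Function.Bijective f ∧
          ∀ i j : Fin n, j.val = (i.val + 1) % n → G.Adj (f i) (f j)) := by
  intro H
  obtain ⟨f, hf, hadj⟩ := H 3 13 (by norm_num) (by norm_num) G (by decide)
    (by
      have h : ∀ v : Fin 13, (Finset.univ.filter fun u => G.Adj v u).card = 3 := by decide
      intro v
      rw [← h v, ← Set.ncard_coe_finset]
      congr 1
      ext u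
      simp)
    (by
      have h : ∀ v : Fin 13, (Finset.univ.filter fun u => G.Adj u v).card = 3 := by decide
      intro v
      rw [← h v, ← Set.ncard_coe_finset]
      congr 1
      ext u
      simp)
  obtain ⟨i0, hi0⟩ := hf.2 0
  have hlt : ∀ k : ℕ, (i0.val + k) % 13 < 13 := fun k => Nat.mod_lt _ (by norm_num)
  let g : ℕ → ℕ := fun k => (f ⟨(i0.val + k) % 13, hlt k⟩).val
  have hg : ∀ k, g (k + 1) ∈ nb (g k) := by
    intro k
    exact hadj ⟨(i0.val + k) % 13, hlt k⟩ ⟨(i0.val + (k + 1)) % 13, hlt (k + 1)⟩ (by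
      simp only
      omega)
  have hg0 : g 0 = 0 := by
    have : (⟨(i0.val + 0) % 13, hlt 0⟩ : Fin 13) = i0 := by
      apply Fin.ext
      simp only
      omega
    simp only [g, this, hi0]
    rfl
  have hg13 : g 13 = 0 := by
    rw [← hg0]
    have : (⟨(i0.val + 13) % 13, hlt 13⟩ : Fin 13) = ⟨(i0.val + 0) % 13, hlt 0⟩ := by
      apply Fin.ext
      simp only
      omega
    simp only [g, this]
  have hinj : ∀ i j, i ≤ 12 → j ≤ 12 → g i = g j → i = j := by
    intro i j hi hj h
    have h1 := hf.1 (Fin.ext h)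
    have h2 : (i0.val + i) % 13 = (i0.val + j) % 13 := congrArg Fin.val h1
    omega
  obtain ⟨m, -, hd⟩ := dfs_sound g (fun k _ => hg k) hinj hg0 12 le_rfl
  simp only [Nat.sub_self, dfs, List.all_eq_true] at hd
  have h := hd (g 13) (hg 12)
  rw [hg13] at h
  simp at h

end Pool.Agent.S07160
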