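import Pool.Statements.S07181
import Pool.Agent.Helper77_HC.Core

/-! Every `n`-uniform hypergraph of maximum degree at most `c ^ n`, `c < 2`, has a proper halving
2-colouring for large `n`. Proof: pair up the vertices arbitrarily (one vertex stays alone if their
number is odd), colour each pair red/blue or blue/red independently with probability one half, and
apply the symmetric local lemma. An edge containing both vertices of a pair is never monochromatic,
any other edge is monochromatic with probability at most `4 / 2 ^ n`, and the colours of an edge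
depend on at most `2 n` vertices, so on the colours of at most `2 n Δ` other edges. -/

set_option autoImplicit false
open Pool Pool.MP_0dd31c_co

namespace Pool.Agent.S07181

/-- For every c in (1,2) there is n0 such that for n ≥ n0 every n-uniform finite hypergraph with all degrees at most c^n has a red set of exactly half (floor) of its vertices such that no edge is all red or all blue. -/
theorem result :
    ∀ c : ℝ, 1 < c → c < 2 →
      ∃ n₀ : ℕ, ∀ n : ℕ, n₀ ≤ n →
        ∀ F : Finset (Finset ℕ),
          (∀ A ∈ F, A.card = n) →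
          (∀ v : ℕ, ((F.filter (fun A => v ∈ A)).card : ℝ) ≤ c ^ n) →
          ∃ R : Finset ℕ, R ⊆ F.biUnion id ∧
            R.card = (F.biUnion id).card / 2 ∧
            ∀ A ∈ F, (A ∩ R).Nonempty ∧ ¬ A ⊆ R := by
  intro c hc1 hc2
  have hr0 : 0 ≤ c / 2 := by linarith
  have hr1 : c / 2 < 1 := by linarith
  have hl1 := tendsto_self_mul_const_pow_of_lt_one hr0 hr1
  have hl2 : Filter.Tendsto (fun n : ℕ => (1 / 2 : ℝ) ^ n) Filter.atTop (nhds 0) :=
    tendsto_pow_atTop_nhds_zero_of_lt_one (by norm_num) (by norm_num)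
  have hl3 : Filter.Tendsto (fun n : ℕ => 32 * ((n : ℝ) * (c / 2) ^ n) + 16 * (1 / 2 : ℝ) ^ n)
      Filter.atTop (nhds 0) := by
    have := (hl1.const_mul 32).add (hl2.const_mul 16)
    simpa using this
  obtain ⟨N, hN⟩ := Filter.eventually_atTop.1 (hl3.eventually (gt_mem_nhds one_pos))
  refine ⟨max N 1, ?_⟩
  intro n hn F hA hD
  have hnN : N ≤ n := le_trans (le_max_left _ _) hn
  have hn1 : 1 ≤ n := le_trans (le_max_right _ _) hn
  have hcn : (0 : ℝ) ≤ c ^ n := by positivity
  refine Pool.Agent.Helper77_HC.core n ⌊c ^ n⌋₊ hn1 F hA (fun v => Nat.le_floor (hD v)) ?_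
  have h1 := hN n hnN
  have h2 : ((⌊c ^ n⌋₊ : ℕ) : ℝ) ≤ c ^ n := Nat.floor_le hcn
  push_cast
  calc 4 * (4 / 2 ^ n : ℝ) * (2 * (n : ℝ) * (⌊c ^ n⌋₊ : ℝ) + 1)
      ≤ 4 * (4 / 2 ^ n : ℝ) * (2 * (n : ℝ) * c ^ n + 1) := by
        have h3 : (0 : ℝ) ≤ 2 * (n : ℝ) := by positivity
        have h4 : (0 : ℝ) ≤ 4 * (4 / 2 ^ n : ℝ) := by positivity
        exact mul_le_mul_of_nonneg_left
          (add_le_add (mul_le_mul_of_nonneg_left h2 h3) le_rfl) h4
    _ = 32 * ((n : ℝ) * (c / 2) ^ n) + 16 * (1 / 2 : ℝ) ^ n := by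
        rw [div_pow, div_pow, one_pow]
        ring
    _ ≤ 1 := h1.le

end Pool.Agent.S07181
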