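import Pool.Statements.S07383
import Pool.Agent.Helper531_Thick.Final

set_option autoImplicit false
open Pool Pool.MP_17fbe7_co

namespace Pool.Agent.S07383

/-- For odd r ≤ s with some k, (r+5)/4 ≤ k ≤ (r-3)/2 and s = floor(2k(r-2)/(r-2k)), the least number of plane-drawable graphs whose union is K_{r,s} equals ceil(rs/(2(r+s-2))). -/
theorem result :
  ∀ r s : ℕ, r ≤ s → Odd r → Odd s →
    (∃ k : ℕ, r + 5 ≤ 4 * k ∧ 2 * k + 3 ≤ r ∧ s = (2 * k * (r - 2)) / (r - 2 * k)) →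
    sInf {m : ℕ | ∃ H : Fin m → SimpleGraph (Fin r ⊕ Fin s),
      (∀ i, ∃ p : Fin r ⊕ Fin s → ℝ × ℝ, Function.Injective p ∧
        ∃ γ : Fin r ⊕ Fin s → Fin r ⊕ Fin s → unitInterval → ℝ × ℝ,
          (∀ u v, (H i).Adj u v → Continuous (γ u v) ∧ Function.Injective (γ u v) ∧
            γ u v 0 = p u ∧ γ u v 1 = p v ∧
            ∀ t : unitInterval, t ≠ 0 → t ≠ 1 → ∀ w, γ u v t ≠ p w) ∧
          (∀ u v u' v', (H i).Adj u v → (H i).Adj u' v' →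
            ∀ t t' : unitInterval, t ≠ 0 → t ≠ 1 → t' ≠ 0 → t' ≠ 1 →
              γ u v t = γ u' v' t' → (u = u' ∧ v = v') ∨ (u = v' ∧ v = u'))) ∧
      (⨆ i, H i) = completeBipartiteGraph (Fin r) (Fin s)}
    = ⌈((r : ℚ) * s / (2 * ((r : ℚ) + s - 2)))⌉₊ := by
  intro r s _ hr hs hk
  obtain ⟨k, h1, h2, h3⟩ := hk
  exact Pool.Agent.Helper531_Thick.main r s k hr hs h1 h2 h3

end Pool.Agent.S07383
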