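-- Proof of frozen statement S07891: a ray of the Dressian Dr(3, 9) that is not a corank ray.
import Pool.Statements.S07891
import Mathlib

set_option autoImplicit false
open Pool Pool.MP_2e1090_co

/-!
# A ray of Dr(3,9) whose subdivision is not a corank subdivision

Elements 0, 1, 2 of the ground set are the three unit vectors, elements 3, ..., 8 are the six points
(0,0), (1,0), (1,1), (2,1), (2,2), (3,2) of the tropical plane: a strip of unit triangles, which is
rigid as a tropical point configuration.  The vector `w` consists of the tropical maximal minors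
(minimum convention) of the 3 x 9 matrix (I | A), where the columns of A are (x, y, 0).

* `w` is a tropical Pluecker vector: finite check `pl_check`.
* If the subdivision of `w` refines the subdivision of `v`, then `v = lam * w + linear form` on the
  triples (`rigid`).  This is a chain of 74 relations v(B) + v(B1) = v(B2) + v(B3), each of them
  inside one of the six cells of `cellList`, starting from ten triples.
* The corank vector of a matroid is integral and its second differences
  rho(sik) + rho(sjl) - rho(sij) - rho(skl) lie in [-2, 2] (`second_diff`), but `w` has second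
  differences 1 and 3.  So no positive multiple of `w` is a corank vector up to a linear form.
-/

namespace Pool.Agent.S07891

/-- The values of `w`, base 8 digits indexed by the bitmask of the triple. -/
def big : ℕ := 1151954769188978106579321716319457685039851242660886905554535548704568909407011238647032075228040434109980713236596007352323836642662155886452085047525105425247317419351932090016318846828596756755740451060406086499158269784895695750330366930150734892495251171326163503624760209490735860423582616382209399082796688467657357093709857476418347152017804623472939476252267781451719272918443987165160131826548736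

/-- The value of `w` on the set with bitmask `m`. -/
def tbl (m : ℕ) : ℕ := big / 8 ^ m % 8

/-- The value of `w` on a triple. -/
def W (x y z : Fin 9) : ℕ := tbl (2 ^ x.val + (2 ^ y.val + 2 ^ z.val))

/-- The tropical Pluecker vector. -/
noncomputable def w (B : Finset (Fin 9)) : ℝ := (tbl (∑ i ∈ B, 2 ^ i.val) : ℝ)

theorem w_triple (x y z : Fin 9) (hxy : x ≠ y) (hxz : x ≠ z) (hyz : y ≠ z) :
    w (insert x (insert y {z})) = (W x y z : ℝ) := by
  unfold w W
  rw [Finset.sum_insert (by simp [hxy, hxz]), Finset.sum_insert (by simp [hyz]),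
    Finset.sum_singleton]

/-- Distinctness of five indices. -/
def dist5 (s i j k l : Fin 9) : Bool :=
  (i != s) && (j != s) && (k != s) && (l != s) && (i != j) && (i != k) && (i != l) &&
    (j != k) && (j != l) && (k != l)

/-- The three-term relation, as a Boolean on three sums. -/
def three (a b c : ℕ) : Bool :=
  (a == b && Nat.ble a c) || (a == c && Nat.ble a b) || (b == c && Nat.ble b a)

theorem three_spec {a b c : ℕ} (h : three a b c = true) :
    (a = b ∧ a ≤ c) ∨ (a = c ∧ a ≤ b) ∨ (b = c ∧ b ≤ a) := by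
  simp only [three, Bool.or_eq_true, Bool.and_eq_true, beq_iff_eq, Nat.ble_eq] at h
  tauto

/-- The three-term relation of `W` at five indices. -/
def plb (s i j k l : Fin 9) : Bool :=
  !(dist5 s i j k l) || three (W i j s + W k l s) (W i k s + W j l s) (W i l s + W j k s)

set_option maxRecDepth 100000 in
theorem pl_check : ∀ s i j k l : Fin 9, plb s i j k l = true := by
  decide +kernel

/-- The Pluecker condition, as in the statement. -/
def Pl (v : Finset (Fin 9) → ℝ) : Prop :=
  ∀ (S : Finset (Fin 9)) (i j k l : Fin 9), S.card + 2 = 3 →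
        i ∉ S → j ∉ S → k ∉ S → l ∉ S →
        i ≠ j → i ≠ k → i ≠ l → j ≠ k → j ≠ l → k ≠ l →
        ((v (insert i (insert j S)) + v (insert k (insert l S))
            = v (insert i (insert k S)) + v (insert j (insert l S)) ∧
          v (insert i (insert j S)) + v (insert k (insert l S))
            ≤ v (insert i (insert l S)) + v (insert j (insert k S))) ∨
         (v (insert i (insert j S)) + v (insert k (insert l S))
            = v (insert i (insert l S)) + v (insert j (insert k S)) ∧
          v (insert i (insert j S)) + v (insert k (insert l S))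
            ≤ v (insert i (insert k S)) + v (insert j (insert l S))) ∨
         (v (insert i (insert k S)) + v (insert j (insert l S))
            = v (insert i (insert l S)) + v (insert j (insert k S)) ∧
          v (insert i (insert k S)) + v (insert j (insert l S))
            ≤ v (insert i (insert j S)) + v (insert k (insert l S))))

theorem w_pl : Pl w := by
  intro S i j k l hS hi hj hk hl hij hik hil hjk hjl hkl
  obtain ⟨s, rfl⟩ := Finset.card_eq_one.mp (by omega : S.card = 1)
  simp only [Finset.mem_singleton] at hi hj hk hl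
  have h := pl_check s i j k l
  have hd : dist5 s i j k l = true := by
    simp [dist5, hi, hj, hk, hl, hij, hik, hil, hjk, hjl, hkl]
  simp only [plb, hd, Bool.not_true, Bool.false_or] at h
  rw [w_triple i j s hij hi hj, w_triple k l s hkl hk hl, w_triple i k s hik hi hk,
    w_triple j l s hjl hj hl, w_triple i l s hil hi hl, w_triple j k s hjk hj hk]
  rcases three_spec h with ⟨h1, h2⟩ | ⟨h1, h2⟩ | ⟨h1, h2⟩
  · left
    exact ⟨by exact_mod_cast h1, by exact_mod_cast h2⟩
  · right; left
    exact ⟨by exact_mod_cast h1, by exact_mod_cast h2⟩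
  · right; right
    exact ⟨by exact_mod_cast h1, by exact_mod_cast h2⟩

/-! ### Bitmasks -/

/-- Bit `i` of `m`. -/
def bit (m : ℕ) (i : Fin 9) : ℕ := m / 2 ^ i.val % 2

/-- The finite set with bitmask `m`. -/
def bs (m : ℕ) : Finset (Fin 9) := Finset.univ.filter (fun i => bit m i = 1)

/-- The sum of nine numbers, written out. -/
def esum (f : Fin 9 → ℕ) : ℕ := f 0 + f 1 + f 2 + f 3 + f 4 + f 5 + f 6 + f 7 + f 8

theorem sum_univ9 {R : Type} [AddCommMonoid R] (f : Fin 9 → R) :
    ∑ i, f i = f 0 + f 1 + f 2 + f 3 + f 4 + f 5 + f 6 + f 7 + f 8 := by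
  rw [Fin.sum_univ_castSucc, Fin.sum_univ_eight]; rfl

theorem esum_eq (f : Fin 9 → ℕ) : ∑ i, f i = esum f := by
  rw [sum_univ9]; rfl

theorem bit_cases (m : ℕ) (i : Fin 9) : bit m i = 0 ∨ bit m i = 1 := Nat.mod_two_eq_zero_or_one _

theorem sum_bs_nat (m : ℕ) (f : Fin 9 → ℕ) :
    ∑ i ∈ bs m, f i = esum (fun i => bit m i * f i) := by
  rw [← esum_eq]
  unfold bs
  rw [Finset.sum_filter]
  refine Finset.sum_congr rfl (fun i _ => ?_)
  rcases bit_cases m i with h | h <;> simp [h]

theorem sum_bs_real (m : ℕ) (f : Fin 9 → ℝ) :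
    ∑ i ∈ bs m, f i = ∑ i, (bit m i : ℝ) * f i := by
  unfold bs
  rw [Finset.sum_filter]
  refine Finset.sum_congr rfl (fun i _ => ?_)
  rcases bit_cases m i with h | h <;> simp [h]

/-- The number of ones of `m`. -/
def pop (m : ℕ) : ℕ := esum (fun i => bit m i * 1)

theorem card_bs (m : ℕ) : (bs m).card = pop m := by
  rw [Finset.card_eq_sum_ones, sum_bs_nat]; rfl

/-- Digit `i` of the coded vector `cc`. -/
def dig (cc : ℕ) (i : Fin 9) : ℕ := cc / 8 ^ i.val % 8

/-- Sum of the digits of `cc` over the set with bitmask `m`. -/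
def dot (m cc : ℕ) : ℕ := esum (fun i => bit m i * dig cc i)

/-- Check of one triple. -/
def tripb (x y z : Fin 9) : Bool :=
  x == y || x == z || y == z ||
    (Nat.blt (2 ^ x.val + (2 ^ y.val + 2 ^ z.val)) 512 &&
      pop (2 ^ x.val + (2 ^ y.val + 2 ^ z.val)) == 3 &&
      (List.finRange 9).all (fun i =>
        (bit (2 ^ x.val + (2 ^ y.val + 2 ^ z.val)) i == 1) == (i == x || i == y || i == z)))

set_option maxRecDepth 100000 in
theorem trip_check : ∀ x y z : Fin 9, tripb x y z = true := by
  decide +kernel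

theorem exists_mask (B : Finset (Fin 9)) (hB : B.card = 3) :
    ∃ m, m < 512 ∧ pop m = 3 ∧ B = bs m := by
  obtain ⟨x, y, z, hxy, hxz, hyz, rfl⟩ := Finset.card_eq_three.mp hB
  have h := trip_check x y z
  simp only [tripb, Bool.or_eq_true, Bool.and_eq_true, beq_iff_eq, hxy, hxz, hyz, false_or,
    List.all_eq_true, Nat.blt_eq] at h
  obtain ⟨⟨h1, h2⟩, h3⟩ := h
  refine ⟨_, h1, h2, ?_⟩
  ext i
  have h4 := h3 i (List.mem_finRange i)
  simp only [bs, Finset.mem_filter, Finset.mem_univ, true_and, Finset.mem_insert,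
    Finset.mem_singleton]
  rw [Bool.eq_iff_iff] at h4
  simp only [beq_iff_eq, Bool.or_eq_true] at h4
  rw [h4]
  tauto

set_option maxRecDepth 100000 in
theorem mask_check : ∀ m < 512, esum (fun i => bit m i * 2 ^ i.val) = m := by
  decide +kernel

theorem w_bs (m : ℕ) (hm : m < 512) : w (bs m) = (tbl m : ℝ) := by
  unfold w
  rw [sum_bs_nat, mask_check m hm]

/-! ### Cells -/

/-- The cell condition, as in the statement. -/
def cell (u : Finset (Fin 9) → ℝ) (c : Fin 9 → ℝ) : Set (Finset (Fin 9)) :=
  {B : Finset (Fin 9) | B.card = 3 ∧ ∀ B' : Finset (Fin 9), B'.card = 3 →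
              u B - ∑ i ∈ B, c i ≤ u B' - ∑ i ∈ B', c i}

/-- Six cells: the linear form (base 8 digits) and the constant. -/
def cellList : List (ℕ × ℕ) :=
  [(0, 0), (19169344, 1), (19173448, 2), (38043776, 2), (38310024, 3), (55087304, 4)]

/-- The inequality defining the cell, for one mask. -/
def cellb (p : ℕ × ℕ) (m : ℕ) : Bool := pop m != 3 || Nat.ble (dot m p.1) (tbl m + p.2)

set_option maxRecDepth 100000 in
theorem cell_check : ∀ m < 512, cellList.all (fun p => cellb p m) = true := by
  decide +kernel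

/-- The real linear form of a coded vector. -/
noncomputable def cvec (cc : ℕ) : Fin 9 → ℝ := fun i => (dig cc i : ℝ)

theorem sum_cvec (m cc : ℕ) : ∑ i ∈ bs m, cvec cc i = (dot m cc : ℝ) := by
  unfold cvec dot
  rw [← sum_bs_nat]
  push_cast
  rfl

/-- Equality in the cell inequality. -/
def tight (p : ℕ × ℕ) (m : ℕ) : Bool :=
  Nat.blt m 512 && pop m == 3 && dot m p.1 == tbl m + p.2

theorem mem_cell {p : ℕ × ℕ} (hp : p ∈ cellList) {m : ℕ} (h : tight p m = true) :
    bs m ∈ cell w (cvec p.1) := by
  simp only [tight, Bool.and_eq_true, Nat.blt_eq, beq_iff_eq] at h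
  obtain ⟨⟨hm, hpop⟩, hd⟩ := h
  refine ⟨by rw [card_bs, hpop], ?_⟩
  intro B' hB'
  obtain ⟨m', hm', hpop', rfl⟩ := exists_mask B' hB'
  rw [w_bs m hm, w_bs m' hm', sum_cvec, sum_cvec]
  have h1 := cell_check m' hm'
  rw [List.all_eq_true] at h1
  have h2 := h1 p hp
  simp only [cellb, hpop', bne_self_eq_false, Bool.false_or, Nat.ble_eq] at h2
  have h3 : ((dot m' p.1 : ℕ) : ℝ) ≤ (tbl m' : ℝ) + (p.2 : ℝ) := by exact_mod_cast h2
  have h4 : ((dot m p.1 : ℕ) : ℝ) = (tbl m : ℝ) + (p.2 : ℝ) := by exact_mod_cast hd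
  linarith

/-! ### The chain of relations -/

/-- A step `(m, m1, m2, m3, t)`: `v(m) + v(m1) = v(m2) + v(m3)` inside cell `t`. -/
def stepOK (known : List ℕ) (s : ℕ × ℕ × ℕ × ℕ × ℕ) : Bool :=
  known.elem s.2.1 && known.elem s.2.2.1 && known.elem s.2.2.2.1 &&
  Nat.blt s.2.2.2.2 6 &&
  tight (cellList.getD s.2.2.2.2 (0, 0)) s.1 && tight (cellList.getD s.2.2.2.2 (0, 0)) s.2.1 &&
  tight (cellList.getD s.2.2.2.2 (0, 0)) s.2.2.1 &&
  tight (cellList.getD s.2.2.2.2 (0, 0)) s.2.2.2.1 &&
  (List.finRange 9).all (fun i => bit s.1 i + bit s.2.1 i == bit s.2.2.1 i + bit s.2.2.2.1 i)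

/-- Check a list of steps, adding the new masks to the known ones. -/
def run : List ℕ → List (ℕ × ℕ × ℕ × ℕ × ℕ) → Bool
  | _, [] => true
  | known, s :: ss => stepOK known s && run (s.1 :: known) ss

/-- The ten starting triples. -/
def base : List ℕ := [7, 13, 35, 14, 19, 131, 259, 67, 38, 11]

/-- The 74 steps. -/
def steps : List (ℕ × ℕ × ℕ × ℕ × ℕ) :=
  [(25, 7, 19, 13, 0), (21, 11, 19, 13, 0), (41, 7, 35, 13, 0), (73, 7, 67, 13, 0), (137, 7, 131, 13,
   0), (265, 7, 259, 13, 0), (49, 7, 35, 21, 0), (81, 7, 67, 21, 0), (145, 7, 131, 21, 0), (273, 7,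
   259, 21, 0), (26, 7, 19, 14, 0), (42, 7, 35, 14, 0), (74, 7, 67, 14, 0), (138, 7, 131, 14, 0), (266,
   7, 259, 14, 0), (50, 7, 19, 38, 2), (22, 35, 7, 50, 2), (82, 7, 67, 22, 2), (146, 7, 131, 22, 2),
   (274, 7, 259, 22, 2), (98, 7, 67, 38, 1), (162, 7, 131, 38, 1), (290, 7, 259, 38, 1), (28, 7, 21,
   14, 0), (44, 7, 13, 38, 1), (37, 14, 7, 44, 1), (52, 7, 21, 38, 1), (56, 11, 25, 42, 0), (88, 11,
   25, 74, 0), (152, 11, 25, 138, 0), (280, 11, 25, 266, 0), (104, 13, 73, 44, 1), (76, 41, 73, 44, 1),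
   (168, 13, 137, 44, 1), (296, 13, 265, 44, 1), (200, 13, 137, 76, 1), (328, 13, 265, 76, 1), (112,
   19, 49, 82, 2), (176, 19, 49, 146, 2), (304, 19, 49, 274, 2), (100, 35, 37, 98, 1), (97, 38, 35,
   100, 1), (161, 38, 37, 162, 1), (289, 38, 37, 290, 1), (224, 35, 97, 162, 1), (352, 35, 97, 290, 1),
   (69, 74, 67, 76, 1), (84, 67, 69, 82, 4), (70, 81, 67, 84, 4), (193, 74, 67, 200, 1), (321, 74, 67,
   328, 1), (208, 67, 193, 82, 4), (194, 81, 193, 82, 4), (336, 67, 321, 82, 4), (322, 81, 321, 82, 4),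
   (448, 67, 193, 322, 4), (196, 81, 69, 208, 4), (134, 193, 131, 196, 3), (386, 193, 131, 448, 3),
   (133, 200, 137, 196, 3), (140, 193, 133, 200, 3), (164, 145, 133, 176, 3), (148, 161, 133, 176, 3),
   (388, 193, 133, 448, 3), (385, 196, 133, 448, 3), (400, 137, 385, 152, 3), (392, 145, 385, 152, 3),
   (416, 137, 161, 392, 3), (261, 386, 259, 388, 3), (268, 273, 261, 280, 3), (292, 265, 261, 296, 3),
   (324, 273, 261, 336, 5), (276, 321, 261, 336, 5), (262, 280, 266, 276, 5)]

set_option maxRecDepth 100000 in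
theorem run_check : run base steps = true := by
  decide +kernel

set_option maxRecDepth 100000 in
theorem all_known : ∀ m < 512, (pop m != 3 || (base ++ steps.map (fun s => s.1)).elem m) = true := by
  decide +kernel

/-- `v` agrees with `lam * w + a` on the set with mask `m`. -/
def Good (v : Finset (Fin 9) → ℝ) (lam : ℝ) (a : Fin 9 → ℝ) (m : ℕ) : Prop :=
  v (bs m) = lam * (tbl m : ℝ) + ∑ i, (bit m i : ℝ) * a i

/-- The hypothesis: each cell of `w` lies in a cell of `v`. -/
def Refines (v : Finset (Fin 9) → ℝ) : Prop :=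
  ∀ c : Fin 9 → ℝ, ∃ c' : Fin 9 → ℝ, cell w c ⊆ cell v c'

theorem dot_add (m m1 m2 m3 : ℕ)
    (hb : ∀ i, bit m i + bit m1 i = bit m2 i + bit m3 i) (f : Fin 9 → ℝ) :
    (∑ i, (bit m i : ℝ) * f i) + ∑ i, (bit m1 i : ℝ) * f i =
      (∑ i, (bit m2 i : ℝ) * f i) + ∑ i, (bit m3 i : ℝ) * f i := by
  rw [← Finset.sum_add_distrib, ← Finset.sum_add_distrib]
  refine Finset.sum_congr rfl (fun i _ => ?_)
  have h : (bit m i : ℝ) + (bit m1 i : ℝ) = (bit m2 i : ℝ) + (bit m3 i : ℝ) := by
    exact_mod_cast hb i
  rw [← add_mul, ← add_mul, h]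

theorem step_sound {v : Finset (Fin 9) → ℝ} (hv : Refines v) {lam : ℝ} {a : Fin 9 → ℝ}
    {known : List ℕ} (hk : ∀ m ∈ known, Good v lam a m) {s : ℕ × ℕ × ℕ × ℕ × ℕ}
    (hs : stepOK known s = true) : Good v lam a s.1 := by
  obtain ⟨m, m1, m2, m3, t⟩ := s
  simp only [stepOK, Bool.and_eq_true, List.elem_eq_mem, decide_eq_true_eq, Nat.blt_eq,
    List.all_eq_true, List.mem_finRange, beq_iff_eq, forall_true_left] at hs
  obtain ⟨⟨⟨⟨⟨⟨⟨⟨k1, k2⟩, k3⟩, ht⟩, t0⟩, t1⟩, t2⟩, t3⟩, hb⟩ := hs
  have hp : cellList.getD t (0, 0) ∈ cellList := by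
    have hlen : t < cellList.length := ht
    rw [List.getD_eq_getElem _ _ hlen]
    exact List.getElem_mem hlen
  generalize cellList.getD t (0, 0) = p at *
  obtain ⟨c', hc'⟩ := hv (cvec p.1)
  have e0 := hc' (mem_cell hp t0)
  have e1 := hc' (mem_cell hp t1)
  have e2 := hc' (mem_cell hp t2)
  have e3 := hc' (mem_cell hp t3)
  have q02 := e0.2 _ e2.1
  have q20 := e2.2 _ e0.1
  have q13 := e1.2 _ e3.1
  have q31 := e3.2 _ e1.1
  rw [sum_bs_real, sum_bs_real] at q02 q20 q13 q31
  have hb' : ∀ i, bit m i + bit m1 i = bit m2 i + bit m3 i := fun i => hb i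
  have d := dot_add m m1 m2 m3 hb' c'
  have da := dot_add m m1 m2 m3 hb' a
  have g1 := hk _ k1
  have g2 := hk _ k2
  have g3 := hk _ k3
  unfold Good at g1 g2 g3 ⊢
  -- the same relation for `w`
  have htb : (tbl m : ℝ) + (tbl m1 : ℝ) = (tbl m2 : ℝ) + (tbl m3 : ℝ) := by
    simp only [tight, Bool.and_eq_true, Nat.blt_eq, beq_iff_eq] at t0 t1 t2 t3
    have r0 : ((dot m p.1 : ℕ) : ℝ) = (tbl m : ℝ) + (p.2 : ℝ) := by exact_mod_cast t0.2
    have r1 : ((dot m1 p.1 : ℕ) : ℝ) = (tbl m1 : ℝ) + (p.2 : ℝ) := by exact_mod_cast t1.2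
    have r2 : ((dot m2 p.1 : ℕ) : ℝ) = (tbl m2 : ℝ) + (p.2 : ℝ) := by exact_mod_cast t2.2
    have r3 : ((dot m3 p.1 : ℕ) : ℝ) = (tbl m3 : ℝ) + (p.2 : ℝ) := by exact_mod_cast t3.2
    have dd := dot_add m m1 m2 m3 hb' (cvec p.1)
    rw [← sum_bs_real, ← sum_bs_real, ← sum_bs_real, ← sum_bs_real, sum_cvec, sum_cvec, sum_cvec,
      sum_cvec] at dd
    linarith
  have hl : lam * (tbl m : ℝ) + lam * (tbl m1 : ℝ) = lam * (tbl m2 : ℝ) + lam * (tbl m3 : ℝ) := by
    rw [← mul_add, ← mul_add, htb]
  linarith

theorem run_sound {v : Finset (Fin 9) → ℝ} (hv : Refines v) {lam : ℝ} {a : Fin 9 → ℝ} :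
    ∀ (ss : List (ℕ × ℕ × ℕ × ℕ × ℕ)) (known : List ℕ), (∀ m ∈ known, Good v lam a m) →
      run known ss = true → ∀ m ∈ known ++ ss.map (fun s => s.1), Good v lam a m := by
  intro ss
  induction ss with
  | nil => intro known hk _ m hm; simpa using hk m (by simpa using hm)
  | cons s ss ih =>
    intro known hk hr m hm
    simp only [run, Bool.and_eq_true] at hr
    have hs := step_sound hv hk hr.1
    have hk' : ∀ m ∈ s.1 :: known, Good v lam a m := by
      intro m hm
      rcases List.mem_cons.mp hm with rfl | hm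
      · exact hs
      · exact hk m hm
    refine ih (s.1 :: known) hk' hr.2 m ?_
    simp only [List.map_cons, List.mem_append, List.mem_cons] at hm ⊢
    tauto

/-- Rigidity: a `v` whose subdivision is refined by that of `w` is `lam * w` plus a linear form. -/
theorem rigid {v : Finset (Fin 9) → ℝ} (hv : Refines v) :
    ∃ (lam : ℝ) (a : Fin 9 → ℝ), ∀ B : Finset (Fin 9), B.card = 3 →
      v B = lam * w B + ∑ i ∈ B, a i := by
  -- solve on the ten base triples
  let V : ℕ → ℝ := fun m => v (bs m)
  let lam : ℝ := V 38 + V 11 - V 35 - V 14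
  let a : Fin 9 → ℝ := ![
    (V 7 + V 13 - 2 * V 14 + V 11) / 3,
    (V 7 - 2 * V 13 + V 14 + V 11) / 3,
    (V 7 + V 13 + V 14 - 2 * V 11) / 3,
    (- 2 * V 7 + V 13 + V 14 + V 11) / 3,
    (- 2 * V 7 + V 13 + V 14 - 2 * V 11) / 3 + V 19,
    (- 2 * V 7 + V 13 + V 14 - 2 * V 11) / 3 + V 35,
    (- 2 * V 7 + V 13 + V 14 - 2 * V 11) / 3 + V 67,
    (- 2 * V 7 + V 13 + V 14 - 2 * V 11) / 3 + V 131,
    (- 2 * V 7 + V 13 + V 14 - 2 * V 11) / 3 + V 259]
  have hbase : ∀ m ∈ base, Good v lam a m := by
    intro m hm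
    simp only [base, List.mem_cons, List.not_mem_nil, or_false] at hm
    rcases hm with rfl | rfl | rfl | rfl | rfl | rfl | rfl | rfl | rfl | rfl
    all_goals
      unfold Good
      rw [sum_univ9]
    · have h : tbl 7 = 0 := by decide +kernel
      have h0 : bit 7 0 = 1 := by decide +kernel
      have h1 : bit 7 1 = 1 := by decide +kernel
      have h2 : bit 7 2 = 1 := by decide +kernel
      have h3 : bit 7 3 = 0 := by decide +kernel
      have h4 : bit 7 4 = 0 := by decide +kernel
      have h5 : bit 7 5 = 0 := by decide +kernel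
      have h6 : bit 7 6 = 0 := by decide +kernel
      have h7 : bit 7 7 = 0 := by decide +kernel
      have h8 : bit 7 8 = 0 := by decide +kernel
      rw [h, h0, h1, h2, h3, h4, h5, h6, h7, h8]
      simp [a, lam, V]
      try ring
    · have h : tbl 13 = 0 := by decide +kernel
      have h0 : bit 13 0 = 1 := by decide +kernel
      have h1 : bit 13 1 = 0 := by decide +kernel
      have h2 : bit 13 2 = 1 := by decide +kernel
      have h3 : bit 13 3 = 1 := by decide +kernel
      have h4 : bit 13 4 = 0 := by decide +kernel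
      have h5 : bit 13 5 = 0 := by decide +kernel
      have h6 : bit 13 6 = 0 := by decide +kernel
      have h7 : bit 13 7 = 0 := by decide +kernel
      have h8 : bit 13 8 = 0 := by decide +kernel
      rw [h, h0, h1, h2, h3, h4, h5, h6, h7, h8]
      simp [a, lam, V]
      try ring
    · have h : tbl 35 = 0 := by decide +kernel
      have h0 : bit 35 0 = 1 := by decide +kernel
      have h1 : bit 35 1 = 1 := by decide +kernel
      have h2 : bit 35 2 = 0 := by decide +kernel
      have h3 : bit 35 3 = 0 := by decide +kernel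
      have h4 : bit 35 4 = 0 := by decide +kernel
      have h5 : bit 35 5 = 1 := by decide +kernel
      have h6 : bit 35 6 = 0 := by decide +kernel
      have h7 : bit 35 7 = 0 := by decide +kernel
      have h8 : bit 35 8 = 0 := by decide +kernel
      rw [h, h0, h1, h2, h3, h4, h5, h6, h7, h8]
      simp [a, lam, V]
      try ring
    · have h : tbl 14 = 0 := by decide +kernel
      have h0 : bit 14 0 = 0 := by decide +kernel
      have h1 : bit 14 1 = 1 := by decide +kernel
      have h2 : bit 14 2 = 1 := by decide +kernel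
      have h3 : bit 14 3 = 1 := by decide +kernel
      have h4 : bit 14 4 = 0 := by decide +kernel
      have h5 : bit 14 5 = 0 := by decide +kernel
      have h6 : bit 14 6 = 0 := by decide +kernel
      have h7 : bit 14 7 = 0 := by decide +kernel
      have h8 : bit 14 8 = 0 := by decide +kernel
      rw [h, h0, h1, h2, h3, h4, h5, h6, h7, h8]
      simp [a, lam, V]
      try ring
    · have h : tbl 19 = 0 := by decide +kernel
      have h0 : bit 19 0 = 1 := by decide +kernel
      have h1 : bit 19 1 = 1 := by decide +kernel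
      have h2 : bit 19 2 = 0 := by decide +kernel
      have h3 : bit 19 3 = 0 := by decide +kernel
      have h4 : bit 19 4 = 1 := by decide +kernel
      have h5 : bit 19 5 = 0 := by decide +kernel
      have h6 : bit 19 6 = 0 := by decide +kernel
      have h7 : bit 19 7 = 0 := by decide +kernel
      have h8 : bit 19 8 = 0 := by decide +kernel
      rw [h, h0, h1, h2, h3, h4, h5, h6, h7, h8]
      simp [a, lam, V]
      try ring
    · have h : tbl 131 = 0 := by decide +kernel
      have h0 : bit 131 0 = 1 := by decide +kernel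
      have h1 : bit 131 1 = 1 := by decide +kernel
      have h2 : bit 131 2 = 0 := by decide +kernel
      have h3 : bit 131 3 = 0 := by decide +kernel
      have h4 : bit 131 4 = 0 := by decide +kernel
      have h5 : bit 131 5 = 0 := by decide +kernel
      have h6 : bit 131 6 = 0 := by decide +kernel
      have h7 : bit 131 7 = 1 := by decide +kernel
      have h8 : bit 131 8 = 0 := by decide +kernel
      rw [h, h0, h1, h2, h3, h4, h5, h6, h7, h8]
      simp [a, lam, V]
      try ring
    · have h : tbl 259 = 0 := by decide +kernel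
      have h0 : bit 259 0 = 1 := by decide +kernel
      have h1 : bit 259 1 = 1 := by decide +kernel
      have h2 : bit 259 2 = 0 := by decide +kernel
      have h3 : bit 259 3 = 0 := by decide +kernel
      have h4 : bit 259 4 = 0 := by decide +kernel
      have h5 : bit 259 5 = 0 := by decide +kernel
      have h6 : bit 259 6 = 0 := by decide +kernel
      have h7 : bit 259 7 = 0 := by decide +kernel
      have h8 : bit 259 8 = 1 := by decide +kernel
      rw [h, h0, h1, h2, h3, h4, h5, h6, h7, h8]
      simp [a, lam, V]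
      try ring
    · have h : tbl 67 = 0 := by decide +kernel
      have h0 : bit 67 0 = 1 := by decide +kernel
      have h1 : bit 67 1 = 1 := by decide +kernel
      have h2 : bit 67 2 = 0 := by decide +kernel
      have h3 : bit 67 3 = 0 := by decide +kernel
      have h4 : bit 67 4 = 0 := by decide +kernel
      have h5 : bit 67 5 = 0 := by decide +kernel
      have h6 : bit 67 6 = 1 := by decide +kernel
      have h7 : bit 67 7 = 0 := by decide +kernel
      have h8 : bit 67 8 = 0 := by decide +kernel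
      rw [h, h0, h1, h2, h3, h4, h5, h6, h7, h8]
      simp [a, lam, V]
      try ring
    · have h : tbl 38 = 1 := by decide +kernel
      have h0 : bit 38 0 = 0 := by decide +kernel
      have h1 : bit 38 1 = 1 := by decide +kernel
      have h2 : bit 38 2 = 1 := by decide +kernel
      have h3 : bit 38 3 = 0 := by decide +kernel
      have h4 : bit 38 4 = 0 := by decide +kernel
      have h5 : bit 38 5 = 1 := by decide +kernel
      have h6 : bit 38 6 = 0 := by decide +kernel
      have h7 : bit 38 7 = 0 := by decide +kernel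
      have h8 : bit 38 8 = 0 := by decide +kernel
      rw [h, h0, h1, h2, h3, h4, h5, h6, h7, h8]
      simp [a, lam, V]
      try ring
    · have h : tbl 11 = 0 := by decide +kernel
      have h0 : bit 11 0 = 1 := by decide +kernel
      have h1 : bit 11 1 = 1 := by decide +kernel
      have h2 : bit 11 2 = 0 := by decide +kernel
      have h3 : bit 11 3 = 1 := by decide +kernel
      have h4 : bit 11 4 = 0 := by decide +kernel
      have h5 : bit 11 5 = 0 := by decide +kernel
      have h6 : bit 11 6 = 0 := by decide +kernel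
      have h7 : bit 11 7 = 0 := by decide +kernel
      have h8 : bit 11 8 = 0 := by decide +kernel
      rw [h, h0, h1, h2, h3, h4, h5, h6, h7, h8]
      simp [a, lam, V]
      try ring
  refine ⟨lam, a, ?_⟩
  intro B hB
  obtain ⟨m, hm, hpop, rfl⟩ := exists_mask B hB
  have h1 := all_known m hm
  simp only [hpop, bne_self_eq_false, Bool.false_or, List.elem_eq_mem, decide_eq_true_eq] at h1
  have h2 := run_sound hv steps base hbase run_check m h1
  unfold Good at h2
  rw [w_bs m hm, sum_bs_real, h2]

/-! ### Consequences for `w` -/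

/-- `v` is affine on the triples (its subdivision is trivial), as in the statement. -/
def Triv (v : Finset (Fin 9) → ℝ) : Prop :=
  ∃ c : Fin 9 → ℝ, ∀ B : Finset (Fin 9), B.card = 3 →
          ∀ B' : Finset (Fin 9), B'.card = 3 →
            v B - ∑ i ∈ B, c i ≤ v B' - ∑ i ∈ B', c i

/-- The twelve triples of the two octahedra used below, in terms of `lam` and `a`. -/
theorem oct_values {v : Finset (Fin 9) → ℝ} {lam : ℝ} {a : Fin 9 → ℝ}
    (h : ∀ B : Finset (Fin 9), B.card = 3 → v B = lam * w B + ∑ i ∈ B, a i) :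
    v (insert 0 (insert 2 {1})) = a 0 + a 2 + a 1 ∧
    v (insert 3 (insert 8 {1})) = a 3 + a 8 + a 1 ∧
    v (insert 0 (insert 3 {1})) = a 0 + a 3 + a 1 ∧
    v (insert 2 (insert 8 {1})) = lam * 3 + (a 2 + a 8 + a 1) ∧
    v (insert 0 (insert 8 {1})) = a 0 + a 8 + a 1 ∧
    v (insert 2 (insert 3 {1})) = a 2 + a 3 + a 1 ∧
    v (insert 1 (insert 2 {0})) = a 1 + a 2 + a 0 ∧
    v (insert 3 (insert 5 {0})) = a 3 + a 5 + a 0 ∧
    v (insert 1 (insert 3 {0})) = a 1 + a 3 + a 0 ∧
    v (insert 2 (insert 5 {0})) = lam * 1 + (a 2 + a 5 + a 0) := by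
  have key : ∀ x y z : Fin 9, x ≠ y → x ≠ z → y ≠ z →
      v (insert x (insert y {z})) = lam * (W x y z : ℝ) + (a x + a y + a z) := by
    intro x y z hxy hxz hyz
    rw [h _ (Finset.card_eq_three.mpr ⟨x, y, z, hxy, hxz, hyz, rfl⟩), w_triple x y z hxy hxz hyz,
      Finset.sum_insert (by simp [hxy, hxz]), Finset.sum_insert (by simp [hyz]),
      Finset.sum_singleton, add_assoc]
  have w1 : W 0 2 1 = 0 := by decide +kernel
  have w2 : W 3 8 1 = 0 := by decide +kernel
  have w3 : W 0 3 1 = 0 := by decide +kernel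
  have w4 : W 2 8 1 = 3 := by decide +kernel
  have w5 : W 0 8 1 = 0 := by decide +kernel
  have w6 : W 2 3 1 = 0 := by decide +kernel
  have w7 : W 1 2 0 = 0 := by decide +kernel
  have w8 : W 3 5 0 = 0 := by decide +kernel
  have w9 : W 1 3 0 = 0 := by decide +kernel
  have w10 : W 2 5 0 = 1 := by decide +kernel
  refine ⟨?_, ?_, ?_, ?_, ?_, ?_, ?_, ?_, ?_, ?_⟩
  · rw [key 0 2 1 (by decide) (by decide) (by decide), w1]; simp
  · rw [key 3 8 1 (by decide) (by decide) (by decide), w2]; simp
  · rw [key 0 3 1 (by decide) (by decide) (by decide), w3]; simp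
  · rw [key 2 8 1 (by decide) (by decide) (by decide), w4]; simp
  · rw [key 0 8 1 (by decide) (by decide) (by decide), w5]; simp
  · rw [key 2 3 1 (by decide) (by decide) (by decide), w6]; simp
  · rw [key 1 2 0 (by decide) (by decide) (by decide), w7]; simp
  · rw [key 3 5 0 (by decide) (by decide) (by decide), w8]; simp
  · rw [key 1 3 0 (by decide) (by decide) (by decide), w9]; simp
  · rw [key 2 5 0 (by decide) (by decide) (by decide), w10]; simp

/-- `w` is not affine. -/
theorem not_triv_w : ¬ Triv w := by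
  rintro ⟨c, hc⟩
  have key : ∀ x y z : Fin 9, x ≠ y → x ≠ z → y ≠ z → ∀ x' y' z' : Fin 9, x' ≠ y' → x' ≠ z' →
      y' ≠ z' → (W x y z : ℝ) - (c x + c y + c z) ≤ (W x' y' z' : ℝ) - (c x' + c y' + c z') := by
    intro x y z hxy hxz hyz x' y' z' hxy' hxz' hyz'
    have h1 := hc _ (Finset.card_eq_three.mpr ⟨x, y, z, hxy, hxz, hyz, rfl⟩) _
      (Finset.card_eq_three.mpr ⟨x', y', z', hxy', hxz', hyz', rfl⟩)
    rw [w_triple x y z hxy hxz hyz, w_triple x' y' z' hxy' hxz' hyz',
      Finset.sum_insert (by simp [hxy, hxz]), Finset.sum_insert (by simp [hyz]),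
      Finset.sum_singleton, Finset.sum_insert (by simp [hxy', hxz']),
      Finset.sum_insert (by simp [hyz']), Finset.sum_singleton] at h1
    linarith
  have h1 := key 2 8 1 (by decide) (by decide) (by decide) 0 2 1 (by decide) (by decide) (by decide)
  have h2 := key 0 3 1 (by decide) (by decide) (by decide) 3 8 1 (by decide) (by decide) (by decide)
  have w1 : W 0 2 1 = 0 := by decide +kernel
  have w2 : W 3 8 1 = 0 := by decide +kernel
  have w3 : W 0 3 1 = 0 := by decide +kernel
  have w4 : W 2 8 1 = 3 := by decide +kernel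
  rw [w4, w1] at h1
  rw [w3, w2] at h2
  push_cast at h1 h2
  linarith

/-- Comparison of the cell conditions of `w` and of `lam * w + a`. -/
theorem cell_iff {v : Finset (Fin 9) → ℝ} {lam : ℝ} {a : Fin 9 → ℝ} (hlam : 0 < lam)
    (h : ∀ B : Finset (Fin 9), B.card = 3 → v B = lam * w B + ∑ i ∈ B, a i)
    (c c' : Fin 9 → ℝ) (hcc : ∀ i, c' i = lam * c i + a i) : cell w c = cell v c' := by
  have key : ∀ B : Finset (Fin 9), B.card = 3 →
      v B - ∑ i ∈ B, c' i = lam * (w B - ∑ i ∈ B, c i) := by
    intro B hB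
    have h1 : ∑ i ∈ B, c' i = lam * ∑ i ∈ B, c i + ∑ i ∈ B, a i := by
      rw [Finset.mul_sum, ← Finset.sum_add_distrib]
      exact Finset.sum_congr rfl (fun i _ => hcc i)
    rw [h B hB, h1]
    ring
  ext B
  constructor
  · rintro ⟨hB, hB2⟩
    refine ⟨hB, fun B' hB' => ?_⟩
    rw [key B hB, key B' hB']
    exact mul_le_mul_of_nonneg_left (hB2 B' hB') hlam.le
  · rintro ⟨hB, hB2⟩
    refine ⟨hB, fun B' hB' => ?_⟩
    have h1 := hB2 B' hB'
    rw [key B hB, key B' hB'] at h1
    exact le_of_mul_le_mul_left h1 hlam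

/-- The rank of a set grows by at most one when the other set is enlarged by one element. -/
theorem rk_swap (M : Matroid (Fin 9)) (A B : Finset (Fin 9)) (e : Fin 9) (h : A ⊆ insert e B) :
    (M.eRk (A : Set (Fin 9))).toNat ≤ (M.eRk (B : Set (Fin 9))).toNat + 1 := by
  have h1 : M.eRk (A : Set (Fin 9)) ≤ M.eRk (B : Set (Fin 9)) + 1 := by
    refine le_trans (M.eRk_mono (?_ : (A : Set (Fin 9)) ⊆ insert e (B : Set (Fin 9))))
      (M.eRk_insert_le_add_one e _)
    rw [← Finset.coe_insert]
    exact_mod_cast h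
  have hfin : M.eRk (B : Set (Fin 9)) ≠ ⊤ := by
    refine ne_top_of_le_ne_top ?_ (M.eRk_le_encard _)
    rw [Set.encard_coe_eq_coe_finsetCard]
    exact ENat.natCast_ne_top _
  have h2 : M.eRk (B : Set (Fin 9)) + 1 ≠ ⊤ := by
    exact WithTop.add_ne_top.mpr ⟨hfin, ENat.one_ne_top⟩
  have h3 := ENat.toNat_le_toNat h1 h2
  rwa [ENat.toNat_add hfin ENat.one_ne_top, ENat.toNat_one] at h3

/-- The corank vector, as in the statement. -/
noncomputable def corank (M : Matroid (Fin 9)) (B : Finset (Fin 9)) : ℝ :=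
  ((3 : ℕ) : ℝ) - ((M.eRk (B : Set (Fin 9))).toNat : ℝ)

theorem not_corank (M : Matroid (Fin 9))
    (h1 : ∀ c : Fin 9 → ℝ, ∃ c' : Fin 9 → ℝ, cell w c = cell (corank M) c')
    (h2 : ∀ c : Fin 9 → ℝ, ∃ c' : Fin 9 → ℝ, cell (corank M) c = cell w c') : False := by
  have href : Refines (corank M) := by
    intro c
    obtain ⟨c', hc'⟩ := h1 c
    exact ⟨c', hc'.subset⟩
  obtain ⟨lam, a, hla⟩ := rigid href
  obtain ⟨e1, e2, e3, e4, -, -, e7, e8, e9, e10⟩ := oct_values hla
  -- second difference 3
  have r1 := rk_swap M (insert 0 (insert 2 {1})) (insert 0 (insert 3 {1})) 2 (by decide)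
  have r2 := rk_swap M (insert 0 (insert 3 {1})) (insert 0 (insert 2 {1})) 3 (by decide)
  have r3 := rk_swap M (insert 3 (insert 8 {1})) (insert 2 (insert 8 {1})) 3 (by decide)
  have r4 := rk_swap M (insert 2 (insert 8 {1})) (insert 3 (insert 8 {1})) 2 (by decide)
  simp only [corank] at e1 e2 e3 e4 e7 e8 e9 e10
  generalize (M.eRk ((insert 0 (insert 2 {1}) : Finset (Fin 9)) : Set (Fin 9))).toNat = n1 at *
  generalize (M.eRk ((insert 3 (insert 8 {1}) : Finset (Fin 9)) : Set (Fin 9))).toNat = n2 at *
  generalize (M.eRk ((insert 0 (insert 3 {1}) : Finset (Fin 9)) : Set (Fin 9))).toNat = n3 at *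
  generalize (M.eRk ((insert 2 (insert 8 {1}) : Finset (Fin 9)) : Set (Fin 9))).toNat = n4 at *
  generalize (M.eRk ((insert 1 (insert 2 {0}) : Finset (Fin 9)) : Set (Fin 9))).toNat = n7 at *
  generalize (M.eRk ((insert 3 (insert 5 {0}) : Finset (Fin 9)) : Set (Fin 9))).toNat = n8 at *
  generalize (M.eRk ((insert 1 (insert 3 {0}) : Finset (Fin 9)) : Set (Fin 9))).toNat = n9 at *
  generalize (M.eRk ((insert 2 (insert 5 {0}) : Finset (Fin 9)) : Set (Fin 9))).toNat = n10 at *
  have hlam_int : lam = (((n7 : ℤ) + n8 - n9 - n10 : ℤ) : ℝ) := by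
    push_cast
    linarith
  have hlam3 : lam * 3 = (((n1 : ℤ) + n2 - n3 - n4 : ℤ) : ℝ) := by
    push_cast
    linarith
  have hz : ((n7 : ℤ) + n8 - n9 - n10) * 3 = (n1 : ℤ) + n2 - n3 - n4 := by
    rw [hlam_int] at hlam3
    exact_mod_cast hlam3
  have hz0 : (n7 : ℤ) + n8 - n9 - n10 = 0 := by omega
  have hlam0 : lam = 0 := by rw [hlam_int, hz0]; simp
  -- hence the corank vector is affine, so is `w`
  obtain ⟨c', hc'⟩ := h2 a
  apply not_triv_w
  refine ⟨c', ?_⟩
  intro B hB B' hB'
  have hmem : B ∈ cell (corank M) a := by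
    refine ⟨hB, fun B'' hB'' => ?_⟩
    rw [hla B hB, hla B'' hB'', hlam0]
    simp
  rw [hc'] at hmem
  exact hmem.2 B' hB'

/-- Some Dressian Dr(d,n) has a tropical Plücker vector inducing a coarsest nontrivial matroid subdivision (a ray) that differs from the subdivision induced by the corank vector of every rank-d matroid on n elements. -/
theorem result :
    ∃ d n : ℕ, ∃ w : Finset (Fin n) → ℝ,
      (∀ (S : Finset (Fin n)) (i j k l : Fin n), S.card + 2 = d →
        i ∉ S → j ∉ S → k ∉ S → l ∉ S →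
        i ≠ j → i ≠ k → i ≠ l → j ≠ k → j ≠ l → k ≠ l →
        ((w (insert i (insert j S)) + w (insert k (insert l S))
            = w (insert i (insert k S)) + w (insert j (insert l S)) ∧
          w (insert i (insert j S)) + w (insert k (insert l S))
            ≤ w (insert i (insert l S)) + w (insert j (insert k S))) ∨
         (w (insert i (insert j S)) + w (insert k (insert l S))
            = w (insert i (insert l S)) + w (insert j (insert k S)) ∧
          w (insert i (insert j S)) + w (insert k (insert l S))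
            ≤ w (insert i (insert k S)) + w (insert j (insert l S))) ∨
         (w (insert i (insert k S)) + w (insert j (insert l S))
            = w (insert i (insert l S)) + w (insert j (insert k S)) ∧
          w (insert i (insert k S)) + w (insert j (insert l S))
            ≤ w (insert i (insert j S)) + w (insert k (insert l S))))) ∧
      (¬ ∃ c : Fin n → ℝ, ∀ B : Finset (Fin n), B.card = d →
          ∀ B' : Finset (Fin n), B'.card = d →
            w B - ∑ i ∈ B, c i ≤ w B' - ∑ i ∈ B', c i) ∧
      (∀ v : Finset (Fin n) → ℝ,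
        (∀ (S : Finset (Fin n)) (i j k l : Fin n), S.card + 2 = d →
          i ∉ S → j ∉ S → k ∉ S → l ∉ S →
          i ≠ j → i ≠ k → i ≠ l → j ≠ k → j ≠ l → k ≠ l →
          ((v (insert i (insert j S)) + v (insert k (insert l S))
              = v (insert i (insert k S)) + v (insert j (insert l S)) ∧
            v (insert i (insert j S)) + v (insert k (insert l S))
              ≤ v (insert i (insert l S)) + v (insert j (insert k S))) ∨
           (v (insert i (insert j S)) + v (insert k (insert l S))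
              = v (insert i (insert l S)) + v (insert j (insert k S)) ∧
            v (insert i (insert j S)) + v (insert k (insert l S))
              ≤ v (insert i (insert k S)) + v (insert j (insert l S))) ∨
           (v (insert i (insert k S)) + v (insert j (insert l S))
              = v (insert i (insert l S)) + v (insert j (insert k S)) ∧
            v (insert i (insert k S)) + v (insert j (insert l S))
              ≤ v (insert i (insert j S)) + v (insert k (insert l S))))) →
        (∀ c : Fin n → ℝ, ∃ c' : Fin n → ℝ,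
          {B : Finset (Fin n) | B.card = d ∧ ∀ B' : Finset (Fin n), B'.card = d →
              w B - ∑ i ∈ B, c i ≤ w B' - ∑ i ∈ B', c i} ⊆
          {B : Finset (Fin n) | B.card = d ∧ ∀ B' : Finset (Fin n), B'.card = d →
              v B - ∑ i ∈ B, c' i ≤ v B' - ∑ i ∈ B', c' i}) →
        (∃ c : Fin n → ℝ, ∀ B : Finset (Fin n), B.card = d →
          ∀ B' : Finset (Fin n), B'.card = d →
            v B - ∑ i ∈ B, c i ≤ v B' - ∑ i ∈ B', c i) ∨
        ((∀ c : Fin n → ℝ, ∃ c' : Fin n → ℝ,
          {B : Finset (Fin n) | B.card = d ∧ ∀ B' : Finset (Fin n), B'.card = d →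
              w B - ∑ i ∈ B, c i ≤ w B' - ∑ i ∈ B', c i} =
          {B : Finset (Fin n) | B.card = d ∧ ∀ B' : Finset (Fin n), B'.card = d →
              v B - ∑ i ∈ B, c' i ≤ v B' - ∑ i ∈ B', c' i}) ∧
         (∀ c : Fin n → ℝ, ∃ c' : Fin n → ℝ,
          {B : Finset (Fin n) | B.card = d ∧ ∀ B' : Finset (Fin n), B'.card = d →
              v B - ∑ i ∈ B, c i ≤ v B' - ∑ i ∈ B', c i} =
          {B : Finset (Fin n) | B.card = d ∧ ∀ B' : Finset (Fin n), B'.card = d →
              w B - ∑ i ∈ B, c' i ≤ w B' - ∑ i ∈ B', c' i}))) ∧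
      (¬ ∃ M : Matroid (Fin n), M.E = Set.univ ∧ M.eRank = (d : ℕ∞) ∧
        (∀ c : Fin n → ℝ, ∃ c' : Fin n → ℝ,
          {B : Finset (Fin n) | B.card = d ∧ ∀ B' : Finset (Fin n), B'.card = d →
              w B - ∑ i ∈ B, c i ≤ w B' - ∑ i ∈ B', c i} =
          {B : Finset (Fin n) | B.card = d ∧ ∀ B' : Finset (Fin n), B'.card = d →
              ((d : ℝ) - ((M.eRk (B : Set (Fin n))).toNat : ℝ)) - ∑ i ∈ B, c' i ≤
              ((d : ℝ) - ((M.eRk (B' : Set (Fin n))).toNat : ℝ)) - ∑ i ∈ B', c' i}) ∧
        (∀ c : Fin n → ℝ, ∃ c' : Fin n → ℝ,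
          {B : Finset (Fin n) | B.card = d ∧ ∀ B' : Finset (Fin n), B'.card = d →
              ((d : ℝ) - ((M.eRk (B : Set (Fin n))).toNat : ℝ)) - ∑ i ∈ B, c i ≤
              ((d : ℝ) - ((M.eRk (B' : Set (Fin n))).toNat : ℝ)) - ∑ i ∈ B', c i} =
          {B : Finset (Fin n) | B.card = d ∧ ∀ B' : Finset (Fin n), B'.card = d →
              w B - ∑ i ∈ B, c' i ≤ w B' - ∑ i ∈ B', c' i})) := by
  refine ⟨3, 9, w, w_pl, not_triv_w, ?_, ?_⟩
  · intro v hv hr
    have href : Refines v := hr
    obtain ⟨lam, a, hla⟩ := rigid href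
    rcases lt_trichotomy lam 0 with hneg | hzero | hpos
    · exfalso
      obtain ⟨e1, e2, e3, e4, e5, e6, -⟩ := oct_values hla
      have h := hv {1} 0 2 3 8 (by simp) (by decide) (by decide) (by decide) (by decide)
        (by decide) (by decide) (by decide) (by decide) (by decide) (by decide)
      rw [e1, e2, e3, e4, e5, e6] at h
      rcases h with ⟨h, h'⟩ | ⟨h, h'⟩ | ⟨h, h'⟩ <;> linarith
    · left
      refine ⟨a, fun B hB B' hB' => ?_⟩
      rw [hla B hB, hla B' hB', hzero]
      simp
    · right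
      refine ⟨fun c => ⟨fun i => lam * c i + a i, cell_iff hpos hla c _ (fun i => rfl)⟩,
        fun c => ⟨fun i => (c i - a i) / lam, (cell_iff hpos hla _ c (fun i => ?_)).symm⟩⟩
      field_simp
      ring
  · rintro ⟨M, -, -, h1, h2⟩
    exact not_corank M h1 h2

end Pool.Agent.S07891
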