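import Pool.Statements.S08088
import Pool.Agent.Helper216_DC.Tihany

set_option autoImplicit false
open Pool Pool.MP_364165_co

namespace Pool.Agent.S08088

/-- The negation of the preceding statement: For every finite graph with chromatic number k and no k-clique, and all k1, k2 at least 2 with k1+k2=k+1, there are disjoint vertex sets whose induced subgraphs have chromatic numbers at least k1 and at least k2. -/
theorem result :
    ¬ (∀ (n : ℕ) (G : SimpleGraph (Fin n)) (k k₁ k₂ : ℕ),
      G.chromaticNumber = (k : ℕ∞) →
      G.CliqueFree k →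
      2 ≤ k₁ → 2 ≤ k₂ → k₁ + k₂ = k + 1 →
      ∃ S T : Set (Fin n), Disjoint S T ∧
        (k₁ : ℕ∞) ≤ (G.induce S).chromaticNumber ∧
        (k₂ : ℕ∞) ≤ (G.induce T).chromaticNumber) := by
  intro h
  refine Pool.Agent.Helper216_DC.tihany_fails (h 40 Pool.Agent.Helper216_DC.G 16 2 15 ?_
    Pool.Agent.Helper216_DC.G_cliqueFree (by norm_num) (by norm_num) (by norm_num))
  rw [Pool.Agent.Helper216_DC.chromaticNumber_G]
  norm_num

end Pool.Agent.S08088
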