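import Pool.Statements.S08268

set_option autoImplicit false
open Pool Pool.MP_3df3be_co

namespace Pool.Agent.S08268

/-- A map that is injective and sends `C` into a set `S` of the same size hits `S` exactly on `C`. -/
theorem mem_iff {n : ℕ} (f : Fin n → Fin n) (hf : Function.Injective f) (C S : Finset (Fin n))
    (hcard : C.card = S.card) (h : ∀ c ∈ C, f c ∈ S) (c : Fin n) : f c ∈ S ↔ c ∈ C := by
  have himg : C.image f = S := by
    apply Finset.eq_of_subset_of_card_le
    · intro x hx
      obtain ⟨c, hc, rfl⟩ := Finset.mem_image.mp hx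
      exact h c hc
    · rw [Finset.card_image_of_injective _ hf, hcard]
  constructor
  · intro hc
    rw [← himg] at hc
    obtain ⟨c', hc', he⟩ := Finset.mem_image.mp hc
    exact hf he ▸ hc'
  · exact h c

/-- A subsquare of half the order splits the square in four quadrants. -/
theorem quadrants (L : Fin 8 → Fin 8 → Fin 8)
    (hrow : ∀ i, Function.Injective (L i)) (hcol : ∀ j, Function.Injective (fun i => L i j))
    (R C A : Finset (Fin 8)) (hR : R.card = 4) (hC : C.card = 4) (hA : A.card = 4)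
    (h : ∀ r ∈ R, ∀ c ∈ C, L r c ∈ A) (r c : Fin 8) : L r c ∈ A ↔ (r ∈ R ↔ c ∈ C) := by
  by_cases hr : r ∈ R
  · have := mem_iff (L r) (hrow r) C A (by rw [hC, hA]) (h r hr) c
    simp [this, hr]
  · have hc : ∀ c ∈ C, L r c ∈ Aᶜ := by
      intro c hc
      have := mem_iff (fun i => L i c) (hcol c) R A (by rw [hR, hA]) (fun r hr => h r hr c hc) r
      simp only [Finset.mem_compl]
      intro h1
      exact hr (this.mp h1)
    have hAc : (Aᶜ).card = 4 := by
      rw [Finset.card_compl, hA]; rfl
    have := mem_iff (L r) (hrow r) C Aᶜ (by rw [hC, hAc]) hc c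
    rw [Finset.mem_compl] at this
    simp only [hr, false_iff]
    rw [← this]
    simp

/-- Rows of an order 3 subsquare all lie on the same side. -/
theorem same_side (L : Fin 8 → Fin 8 → Fin 8)
    (hrow : ∀ i, Function.Injective (L i))
    (R C A : Finset (Fin 8))
    (hq : ∀ r c, L r c ∈ A ↔ (r ∈ R ↔ c ∈ C))
    (R' C' Y : Finset (Fin 8)) (hC' : C'.card = 3) (hY : Y.card = 3)
    (h' : ∀ r ∈ R', ∀ c ∈ C', L r c ∈ Y) (r s : Fin 8) (hr : r ∈ R') (hs : s ∈ R')
    (hrR : r ∈ R) (hsR : s ∉ R) : False := by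
  have key : ∀ r ∈ R', (Y.filter (· ∈ A)).card = (C'.filter (fun c => L r c ∈ A)).card := by
    intro r hr
    have himg : C'.image (L r) = Y := by
      apply Finset.eq_of_subset_of_card_le
      · intro x hx
        obtain ⟨c, hc, rfl⟩ := Finset.mem_image.mp hx
        exact h' r hr c hc
      · rw [Finset.card_image_of_injective _ (hrow r), hC', hY]
    rw [← himg, Finset.filter_image, Finset.card_image_of_injective _ (hrow r)]
  have h1 := key r hr
  have h2 := key s hs
  have e1 : C'.filter (fun c => L r c ∈ A) = C'.filter (fun c => c ∈ C) := by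
    apply Finset.filter_congr
    intro c _
    rw [hq]; simp [hrR]
  have e2 : C'.filter (fun c => L s c ∈ A) = C'.filter (fun c => ¬ c ∈ C) := by
    apply Finset.filter_congr
    intro c _
    rw [hq]; simp [hsR]
  rw [e1] at h1
  rw [e2] at h2
  have h3 := Finset.card_filter_add_card_filter_not (s := C') (fun c => c ∈ C)
  omega

theorem no_three_in_four (L : Fin 8 → Fin 8 → Fin 8)
    (hrow : ∀ i, Function.Injective (L i)) (hcol : ∀ j, Function.Injective (fun i => L i j))
    (R C A : Finset (Fin 8)) (hR : R.card = 4) (hA : A.card = 4)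
    (h : ∀ r ∈ R, ∀ c ∈ C, L r c ∈ A)
    (R' C' Y : Finset (Fin 8)) (hR' : R'.card = 3) (hC' : C'.card = 3) (hY : Y.card = 3)
    (h' : ∀ r ∈ R', ∀ c ∈ C', L r c ∈ Y) (hRR : R' ⊆ R) (hCC : C' ⊆ C) : False := by
  -- pick a row of R outside R'
  obtain ⟨r, hrR, hrR'⟩ : ∃ r ∈ R, r ∉ R' := by
    by_contra hcon
    push Not at hcon
    have : R ⊆ R' := hcon
    have := Finset.card_le_card this
    omega
  have hYA : Y ⊆ A := by
    obtain ⟨s, hs⟩ : R'.Nonempty := Finset.card_pos.mp (by omega)
    have himg : C'.image (L s) = Y := by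
      apply Finset.eq_of_subset_of_card_le
      · intro x hx
        obtain ⟨c, hc, rfl⟩ := Finset.mem_image.mp hx
        exact h' s hs c hc
      · rw [Finset.card_image_of_injective _ (hrow s), hC', hY]
    intro y hy
    rw [← himg] at hy
    obtain ⟨c, hc, rfl⟩ := Finset.mem_image.mp hy
    exact h s (hRR hs) c (hCC hc)
  have hsub : C'.image (L r) ⊆ A \ Y := by
    intro x hx
    obtain ⟨c, hc, rfl⟩ := Finset.mem_image.mp hx
    rw [Finset.mem_sdiff]
    refine ⟨h r hrR c (hCC hc), ?_⟩
    have := mem_iff (fun i => L i c) (hcol c) R' Y (by rw [hR', hY]) (fun r hr => h' r hr c hc) r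
    intro h1
    exact hrR' (this.mp h1)
  have h1 := Finset.card_le_card hsub
  rw [Finset.card_image_of_injective _ (hrow r), Finset.card_sdiff_of_subset hYA] at h1
  omega

/-- No latin square of order 8 has a subsquare of order 4 and a subsquare of order 3. -/
theorem no_order_eight (L : Fin 8 → Fin 8 → Fin 8)
    (hrow : ∀ i, Function.Injective (L i)) (hcol : ∀ j, Function.Injective (fun i => L i j))
    (R C A : Finset (Fin 8)) (hR : R.card = 4) (hC : C.card = 4) (hA : A.card = 4)
    (h : ∀ r ∈ R, ∀ c ∈ C, L r c ∈ A)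
    (R' C' Y : Finset (Fin 8)) (hR' : R'.card = 3) (hC' : C'.card = 3) (hY : Y.card = 3)
    (h' : ∀ r ∈ R', ∀ c ∈ C', L r c ∈ Y) : False := by
  have hq := quadrants L hrow hcol R C A hR hC hA h
  have hRs : R' ⊆ R ∨ R' ⊆ Rᶜ := by
    by_contra hcon
    push Not at hcon
    obtain ⟨h1, h2⟩ := hcon
    obtain ⟨s, hs, hsR⟩ := Finset.not_subset.mp h1
    obtain ⟨r, hr, hrR⟩ := Finset.not_subset.mp h2
    rw [Finset.mem_compl, not_not] at hrR
    exact same_side L hrow R C A hq R' C' Y hC' hY h' r s hr hs hrR hsR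
  have hCs : C' ⊆ C ∨ C' ⊆ Cᶜ := by
    by_contra hcon
    push Not at hcon
    obtain ⟨h1, h2⟩ := hcon
    obtain ⟨s, hs, hsR⟩ := Finset.not_subset.mp h1
    obtain ⟨r, hr, hrR⟩ := Finset.not_subset.mp h2
    rw [Finset.mem_compl, not_not] at hrR
    exact same_side (fun j i => L i j) hcol C R A (fun r c => by rw [hq]; exact Iff.comm)
      C' R' Y hR' hY (fun c hc r hr => h' r hr c hc) r s hr hs hrR hsR
  have hAc : (Aᶜ).card = 4 := by rw [Finset.card_compl, hA]; rfl
  have hRc : (Rᶜ).card = 4 := by rw [Finset.card_compl, hR]; rfl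
  rcases hRs with hRs | hRs <;> rcases hCs with hCs | hCs
  · exact no_three_in_four L hrow hcol R C A hR hA h R' C' Y hR' hC' hY h' hRs hCs
  · refine no_three_in_four L hrow hcol R Cᶜ Aᶜ hR hAc ?_ R' C' Y hR' hC' hY h' hRs hCs
    intro r hr c hc
    rw [Finset.mem_compl] at hc ⊢
    rw [hq]
    simp [hr, hc]
  · refine no_three_in_four L hrow hcol Rᶜ C Aᶜ hRc hAc ?_ R' C' Y hR' hC' hY h' hRs hCs
    intro r hr c hc
    rw [Finset.mem_compl] at hr ⊢
    rw [hq]
    simp [hr, hc]
  · refine no_three_in_four L hrow hcol Rᶜ Cᶜ A hRc hA ?_ R' C' Y hR' hC' hY h' hRs hCs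
    intro r hr c hc
    rw [Finset.mem_compl] at hr hc
    rw [hq]
    simp [hr, hc]

/-- The negation of the preceding statement: For every n there is a latin square of order n such that, for each m with 1 ≤ m and 2m ≤ n, some m rows and m columns meet in an m×m subarray using only m symbols, i.e. a latin subsquare of order m. -/
theorem result :
    ¬ (∀ n : ℕ, ∃ L : Fin n → Fin n → Fin n,
      (∀ i : Fin n, Function.Bijective (L i)) ∧
      (∀ j : Fin n, Function.Bijective (fun i : Fin n => L i j)) ∧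
      ∀ m : ℕ, 1 ≤ m → 2 * m ≤ n →
        ∃ R C S : Finset (Fin n),
          R.card = m ∧ C.card = m ∧ S.card = m ∧
          ∀ r ∈ R, ∀ c ∈ C, L r c ∈ S) := by
  intro hall
  obtain ⟨L, hrow, hcol, hsub⟩ := hall 8
  obtain ⟨R, C, A, hR, hC, hA, h⟩ := hsub 4 (by norm_num) (by norm_num)
  obtain ⟨R', C', Y, hR', hC', hY, h'⟩ := hsub 3 (by norm_num) (by norm_num)
  exact no_order_eight L (fun i => (hrow i).1) (fun j => (hcol j).1) R C A hR hC hA h
    R' C' Y hR' hC' hY h'

end Pool.Agent.S08268
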