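import Pool.Statements.S08467

set_option autoImplicit false
open Pool Pool.MP_45c2e2_co

/-!
Points of the moment curve modulo a prime `p`, `N < p ≤ 2 N`: the residues modulo `p` of
`t, t^2, t^3, t^4`, `t < N`, are written with two digits in base `N`.
-/

namespace Pool.Agent.S08467

/-- the residue of `t ^ (j + 1)` modulo `p` -/
def r (p j t : ℕ) : ℕ := t ^ (j + 1) % p

/-- the point with the parameter `t` -/
noncomputable def pt (N p t : ℕ) (i : Fin 101) : ℝ :=
  if (i : ℕ) < 8 then
    (if (i : ℕ) % 2 = 0 then ((r p ((i : ℕ) / 2) t % N + 1 : ℕ) : ℝ)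
      else ((r p ((i : ℕ) / 2) t / N + 1 : ℕ) : ℝ))
  else 1

lemma digits (N p t : ℕ) (j : Fin 4) (hj : 2 * (j : ℕ) < 101) (hj' : 2 * (j : ℕ) + 1 < 101) :
    pt N p t ⟨2 * j, hj⟩ + N * pt N p t ⟨2 * j + 1, hj'⟩ = r p j t + 1 + N := by
  have h1 : 2 * (j : ℕ) < 8 := by omega
  have h2 : 2 * (j : ℕ) + 1 < 8 := by omega
  have h3 : 2 * (j : ℕ) % 2 = 0 := by omega
  have h4 : ¬ (2 * (j : ℕ) + 1) % 2 = 0 := by omega
  have h5 : 2 * (j : ℕ) / 2 = j := by omega
  have h6 : (2 * (j : ℕ) + 1) / 2 = j := by omega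
  unfold pt
  simp only [h1, h2, h3, h4, h5, h6, if_true, if_false]
  have h7 := Nat.mod_add_div (r p j t) N
  have h8 : ((r p j t % N : ℕ) : ℝ) + N * ((r p j t / N : ℕ) : ℝ) = r p j t := by
    exact_mod_cast h7
  push_cast
  linarith

lemma indep (N p : ℕ) (hp : p.Prime) (hNp : N < p) (t : Fin 5 → ℕ) (ht : ∀ i, t i < N)
    (hinj : Function.Injective t) : AffineIndependent ℝ (fun i => pt N p (t i)) := by
  rw [affineIndependent_iff_of_fintype]
  intro w hw0 hw i
  rw [Finset.weightedVSub_eq_linear_combination _ hw0] at hw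
  have : Fact p.Prime := ⟨hp⟩
  set MZ : Matrix (Fin 5) (Fin 5) ℤ := Matrix.of fun i j => ((t i ^ (j : ℕ) % p : ℕ) : ℤ) with hMZ
  have hdet : MZ.det ≠ 0 := by
    intro h0
    have h1 : ((Int.castRingHom (ZMod p)).mapMatrix MZ).det = 0 := by
      rw [← RingHom.map_det, h0, map_zero]
    have h2 : (Int.castRingHom (ZMod p)).mapMatrix MZ =
        Matrix.vandermonde (fun i => (t i : ZMod p)) := by
      ext i j
      rw [RingHom.mapMatrix_apply, Matrix.map_apply, hMZ, Matrix.of_apply,
        Matrix.vandermonde_apply]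
      change (((t i ^ (j : ℕ) % p : ℕ) : ℤ) : ZMod p) = _
      rw [Int.cast_natCast, ZMod.natCast_mod, Nat.cast_pow]
    rw [h2] at h1
    refine (Matrix.det_vandermonde_ne_zero_iff.2 ?_) h1
    intro a b hab
    have h3 : (t a : ZMod p) = (t b : ZMod p) := hab
    rw [ZMod.natCast_eq_natCast_iff', Nat.mod_eq_of_lt ((ht a).trans hNp),
      Nat.mod_eq_of_lt ((ht b).trans hNp)] at h3
    exact hinj h3
  set MR : Matrix (Fin 5) (Fin 5) ℝ := (Int.castRingHom ℝ).mapMatrix MZ with hMR
  have hdetR : MR.det ≠ 0 := by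
    rw [hMR, ← RingHom.map_det]
    simpa using hdet
  have hvec : Matrix.vecMul w MR = 0 := by
    ext j
    have hentry : ∀ i, MR i j = ((t i ^ (j : ℕ) % p : ℕ) : ℝ) := by
      intro i
      rw [hMR, RingHom.mapMatrix_apply, Matrix.map_apply, hMZ, Matrix.of_apply]
      change (((t i ^ (j : ℕ) % p : ℕ) : ℤ) : ℝ) = _
      rw [Int.cast_natCast]
    have e1 : Matrix.vecMul w MR j = ∑ i, w i * ((t i ^ (j : ℕ) % p : ℕ) : ℝ) := by
      simp only [Matrix.vecMul, dotProduct]
      exact Finset.sum_congr rfl fun i _ => congrArg (w i * ·) (hentry i)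
    rw [e1]
    rcases Nat.eq_zero_or_pos (j : ℕ) with hj | hj
    · rw [hj]
      have h1 : ∀ i, t i ^ 0 % p = 1 := fun i => by
        rw [pow_zero, Nat.mod_eq_of_lt hp.one_lt]
      simp only [h1, Nat.cast_one, mul_one]
      simpa using hw0
    · obtain ⟨l, hl⟩ : ∃ l : Fin 4, (l : ℕ) + 1 = j := ⟨⟨(j : ℕ) - 1, by omega⟩, by simp; omega⟩
      have hl1 : 2 * (l : ℕ) < 101 := by omega
      have hl2 : 2 * (l : ℕ) + 1 < 101 := by omega
      have h1 := congrFun hw ⟨2 * l, hl1⟩
      have h2 := congrFun hw ⟨2 * l + 1, hl2⟩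
      simp only [Finset.sum_apply, Pi.smul_apply, smul_eq_mul, Pi.zero_apply] at h1 h2
      have h3 : ∑ i, w i * (pt N p (t i) ⟨2 * l, hl1⟩ + N * pt N p (t i) ⟨2 * l + 1, hl2⟩) = 0 := by
        have : ∑ i, w i * (pt N p (t i) ⟨2 * l, hl1⟩ + N * pt N p (t i) ⟨2 * l + 1, hl2⟩) =
            ∑ i, w i * pt N p (t i) ⟨2 * l, hl1⟩ + N * ∑ i, w i * pt N p (t i) ⟨2 * l + 1, hl2⟩ := by
          rw [Finset.mul_sum, ← Finset.sum_add_distrib]
          exact Finset.sum_congr rfl fun i _ => by ring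
        rw [this, h1, h2]
        ring
      simp only [digits] at h3
      have h4 : ∑ i, w i * ((r p l (t i) : ℝ) + 1 + N) =
          ∑ i, w i * (r p l (t i) : ℝ) + (∑ i, w i) * (1 + N) := by
        rw [Finset.sum_mul, ← Finset.sum_add_distrib]
        exact Finset.sum_congr rfl fun i _ => by ring
      rw [h4, hw0, zero_mul, add_zero] at h3
      simp only [Pi.zero_apply]
      rw [← h3]
      refine Finset.sum_congr rfl fun i _ => ?_
      unfold r
      rw [hl]
  have := Matrix.eq_zero_of_vecMul_eq_zero hdetR hvec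
  exact congrFun this i

/-- There is a dimension d > 100 such that for all large N, some subset of the grid {1..N}^d with at least N^(d-100) points has no 5 distinct points on a common 2-plane. -/
theorem result :
    ∃ d : ℕ, 100 < d ∧ ∃ N₀ : ℕ, ∀ N : ℕ, N₀ ≤ N →
      ∃ A : Finset (Fin d → ℝ),
        (∀ x ∈ A, ∀ i : Fin d, ∃ k : ℕ, 1 ≤ k ∧ k ≤ N ∧ x i = (k : ℝ)) ∧
        (∀ S : Finset (Fin d → ℝ), S ⊆ A → S.card = 5 →
          ¬ Coplanar ℝ (S : Set (Fin d → ℝ))) ∧
        N ^ (d - 100) ≤ A.card := by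
  classical
  refine ⟨101, by norm_num, 2, fun N hN => ?_⟩
  obtain ⟨p, hp, hNp, hp2⟩ := Nat.exists_prime_lt_and_le_two_mul N (by omega)
  have hp0 : 0 < p := hp.pos
  have hinj : ∀ a b : ℕ, a < N → b < N → pt N p a = pt N p b → a = b := by
    intro a b ha hb hab
    have h1 := digits N p a 0 (by norm_num) (by norm_num)
    have h2 := digits N p b 0 (by norm_num) (by norm_num)
    rw [hab, h2] at h1
    have h3 : (r p (0 : Fin 4) b : ℝ) = r p (0 : Fin 4) a := by linarith
    have h4 : r p (0 : Fin 4) b = r p (0 : Fin 4) a := by exact_mod_cast h3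
    unfold r at h4
    simp only [Fin.val_zero, zero_add, pow_one] at h4
    rw [Nat.mod_eq_of_lt (by omega), Nat.mod_eq_of_lt (by omega)] at h4
    exact h4.symm
  refine ⟨(Finset.range N).image (pt N p), ?_, ?_, ?_⟩
  · intro x hx i
    rw [Finset.mem_image] at hx
    obtain ⟨t, ht, rfl⟩ := hx
    have hr : r p ((i : ℕ) / 2) t < p := Nat.mod_lt _ hp0
    unfold pt
    split_ifs with h1 h2
    · exact ⟨_, by simp, by have := Nat.mod_lt (r p ((i : ℕ) / 2) t) (by omega : 0 < N); omega, rfl⟩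
    · refine ⟨_, by simp, ?_, rfl⟩
      have h3 : r p ((i : ℕ) / 2) t / N < 2 := by
        rw [Nat.div_lt_iff_lt_mul (by omega)]
        omega
      omega
    · exact ⟨1, le_rfl, by omega, by norm_num⟩
  · intro S hS hcard hcop
    -- the parameters
    set T : Finset ℕ := (Finset.range N).filter (fun t => pt N p t ∈ S) with hT
    have hTS : T.image (pt N p) = S := by
      ext x
      rw [Finset.mem_image]
      constructor
      · rintro ⟨t, ht, rfl⟩
        exact (Finset.mem_filter.1 ht).2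
      · intro hx
        obtain ⟨t, ht, rfl⟩ := Finset.mem_image.1 (hS hx)
        exact ⟨t, Finset.mem_filter.2 ⟨ht, hx⟩, rfl⟩
    have hTc : T.card = 5 := by
      rw [← hcard, ← hTS, Finset.card_image_of_injOn]
      intro a ha b hb hab
      exact hinj a b (Finset.mem_range.1 (Finset.mem_filter.1 ha).1)
        (Finset.mem_range.1 (Finset.mem_filter.1 hb).1) hab
    let e := T.orderIsoOfFin hTc
    have hin := indep N p hp hNp (fun i => (e i : ℕ))
      (fun i => Finset.mem_range.1 (Finset.mem_filter.1 (e i).2).1)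
      (fun a b hab => e.injective (Subtype.ext hab))
    have hrange : Set.range (fun i => pt N p (e i : ℕ)) = (S : Set (Fin 101 → ℝ)) := by
      rw [← hTS, Finset.coe_image]
      ext x
      constructor
      · rintro ⟨i, rfl⟩
        exact ⟨_, (e i).2, rfl⟩
      · rintro ⟨t, ht, rfl⟩
        exact ⟨e.symm ⟨t, ht⟩, by simp⟩
    have h4 := hin.finrank_vectorSpan (n := 4) (by simp)
    rw [hrange] at h4
    have h2 := hcop.finrank_le_two
    omega
  · rw [Finset.card_image_of_injOn]
    · simp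
    · intro a ha b hb hab
      exact hinj a b (Finset.mem_range.1 ha) (Finset.mem_range.1 hb) hab

end Pool.Agent.S08467
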