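import Pool.Statements.S08645
import Pool.Agent.H340B.Main
import Pool.Agent.Helper244.Br.Final

set_option autoImplicit false
open Pool Pool.MP_4d2320_co

namespace Pool.Agent.S08645

open Classical in
/-- Brouwer's inequality (`Pool.Br.brouwer_finset`) in the form used for the level graphs. -/
theorem brouwer {n : ℕ} (k : ℕ) (G : SimpleGraph (Fin n)) : Pool.Agent.H340B.BrouwerIneq k G := by
  intro hL s hs
  have h := Pool.Br.brouwer_finset G s
  have h1 : ∑ i ∈ s, hL.eigenvalues i = ∑ a ∈ s, (G.isHermitian_lapMatrix ℝ).eigenvalues a := rfl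
  rw [h1]
  refine h.trans (le_of_eq ?_)
  rw [hs, Nat.cast_choose_two]
  push_cast
  ring

/-- For every symmetric nonnegative zero-diagonal real matrix and each k from 1 to n−1, the sum of the k largest Laplacian eigenvalues is at most the total edge weight plus the sum of the C(k+1,2) largest off-diagonal weights. -/
theorem result :
    ∀ (n : ℕ) (A : Matrix (Fin n) (Fin n) ℝ), A.IsSymm → (∀ i j, 0 ≤ A i j) → (∀ i, A i i = 0) →
      ∀ (hL : (Matrix.diagonal (fun i => ∑ j, A i j) - A).IsHermitian),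
      ∀ k : ℕ, 1 ≤ k → k ≤ n - 1 →
      ∀ s : Finset (Fin n), s.card = k →
        ∃ P : Finset (Fin n × Fin n), P.card = (k + 1).choose 2 ∧ (∀ p ∈ P, p.1 < p.2) ∧
          ∑ i ∈ s, hL.eigenvalues i ≤
            (∑ i, ∑ j, if i < j then A i j else 0) + ∑ p ∈ P, A p.1 p.2 := by
  intro n A h1 h2 h3 hL k hk hkn s hs
  exact Pool.Agent.H340B.weighted_of_levels ⟨h1, h2, h3⟩ k hk (by omega)
    (fun t _ => brouwer k _) hL s hs

end Pool.Agent.S08645
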