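import Pool.Statements.S08686

set_option autoImplicit false
open Pool Pool.MP_4e7ec3_co

namespace Pool.Agent.S08686

/-- The map of the counterexample: the sixteen points `i / 15` are cut into four blocks of four
consecutive points, and in each block the two left points go to the third point of the block, the two
right points to the second one. -/
noncomputable def T (x : ℝ) : ℝ :=
  if x ≤ 3 / 30 then 2 / 15 else if x ≤ 7 / 30 then 1 / 15 else
  if x ≤ 11 / 30 then 6 / 15 else if x ≤ 15 / 30 then 5 / 15 else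
  if x ≤ 19 / 30 then 10 / 15 else if x ≤ 23 / 30 then 9 / 15 else
  if x ≤ 27 / 30 then 14 / 15 else 13 / 15

/-- The sixteen points `i / 15`. -/
noncomputable def F : Finset ℝ := (Finset.range 16).image (fun i : ℕ => (i : ℝ) / 15)

theorem mem_F {x : ℝ} : x ∈ F ↔ ∃ i : ℕ, i < 16 ∧ (i : ℝ) / 15 = x := by
  simp [F]

/-- The index of the image of the `i`-th point. -/
def idx (i : ℕ) : ℕ :=
  if i % 4 = 0 then i + 2 else if i % 4 = 1 then i + 1 else if i % 4 = 2 then i - 1 else i - 2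

theorem T_eq (i : ℕ) (hi : i < 16) : T ((i : ℝ) / 15) = (idx i : ℝ) / 15 := by
  interval_cases i <;> norm_num [T, idx]

/-- One step stays inside a block. -/
theorem step {x y : ℝ} (hx : x ∈ F)
    (h : y = T x ∨ (y ∈ F ∧ y < T x ∧ ∀ r ∈ F, r < T x → r ≤ y) ∨
      (y ∈ F ∧ T x < y ∧ ∀ r ∈ F, T x < r → y ≤ r)) (j : ℕ) (hj : j < 4)
    (hx1 : (4 * j : ℝ) / 15 ≤ x) (hx2 : x ≤ (4 * j + 3 : ℝ) / 15) :
    y ∈ F ∧ (4 * j : ℝ) / 15 ≤ y ∧ y ≤ (4 * j + 3 : ℝ) / 15 := by
  have hT : T x = (4 * j + 2 : ℝ) / 15 ∨ T x = (4 * j + 1 : ℝ) / 15 := by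
    obtain ⟨i, hi, rfl⟩ := mem_F.1 hx
    have h1 : 4 * j ≤ i := by
      have : (4 * j : ℝ) ≤ i := by linarith
      exact_mod_cast this
    have h2 : i ≤ 4 * j + 3 := by
      have : (i : ℝ) ≤ 4 * j + 3 := by linarith
      exact_mod_cast this
    interval_cases j <;> interval_cases i <;> norm_num [T]
  have hmem : ∀ k : ℕ, k < 4 → ((4 * j + k : ℝ)) / 15 ∈ F := by
    intro k hk
    refine mem_F.2 ⟨4 * j + k, by omega, by push_cast; ring⟩
  rcases h with h | ⟨hy, hlt, hr⟩ | ⟨hy, hlt, hr⟩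
  · rcases hT with hT | hT
    · rw [h, hT]
      refine ⟨?_, ?_, ?_⟩
      · exact_mod_cast hmem 2 (by norm_num)
      · linarith
      · linarith
    · rw [h, hT]
      refine ⟨?_, ?_, ?_⟩
      · exact_mod_cast hmem 1 (by norm_num)
      · linarith
      · linarith
  · refine ⟨hy, ?_, ?_⟩
    · have h0 := hr _ (hmem 0 (by norm_num)) (by rcases hT with hT | hT <;> rw [hT] <;> push_cast <;> linarith)
      push_cast at h0
      linarith
    · rcases hT with hT | hT <;> rw [hT] at hlt <;> linarith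
  · refine ⟨hy, ?_, ?_⟩
    · rcases hT with hT | hT <;> rw [hT] at hlt <;> linarith
    · have h0 := hr _ (hmem 3 (by norm_num)) (by rcases hT with hT | hT <;> rw [hT] <;> push_cast <;> linarith)
      push_cast at h0
      linarith

/-- The negation of the preceding statement: There is a constant k such that for every finite F in [0,1] containing 0 and 1, every ε>0, and every T:F→F moving each point by more than ε, some p₀ in F reaches a point at distance at least 1/3 in at most k/ε steps, each step going to T(p) or a neighbour of T(p) in F. -/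
theorem result :
    ¬ (∃ k : ℝ, ∀ (F : Finset ℝ) (ε : ℝ) (T : ℝ → ℝ),
      (∀ p ∈ F, 0 ≤ p ∧ p ≤ 1) → (0 : ℝ) ∈ F → (1 : ℝ) ∈ F → 0 < ε →
      (∀ p ∈ F, T p ∈ F ∧ ε < |p - T p|) →
      ∃ p₀ ∈ F, ∃ n : ℕ, (n : ℝ) ≤ k / ε ∧
        ∃ x : ℕ → ℝ, x 0 = p₀ ∧
          (∀ i < n,
            x (i + 1) = T (x i) ∨
            (x (i + 1) ∈ F ∧ x (i + 1) < T (x i) ∧
              ∀ r ∈ F, r < T (x i) → r ≤ x (i + 1)) ∨
            (x (i + 1) ∈ F ∧ T (x i) < x (i + 1) ∧
              ∀ r ∈ F, T (x i) < r → x (i + 1) ≤ r)) ∧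
          1 / 3 ≤ |x n - p₀|) := by
  rintro ⟨k, hk⟩
  obtain ⟨p₀, hp₀, n, -, x, hx0, hstep, hfar⟩ := hk F (1 / 16) T
    (by
      intro p hp
      obtain ⟨i, hi, rfl⟩ := mem_F.1 hp
      have : (i : ℝ) ≤ 15 := by exact_mod_cast (by omega : i ≤ 15)
      constructor
      · positivity
      · linarith)
    (mem_F.2 ⟨0, by norm_num, by norm_num⟩) (mem_F.2 ⟨15, by norm_num, by norm_num⟩) (by norm_num)
    (by
      intro p hp
      obtain ⟨i, hi, rfl⟩ := mem_F.1 hp
      constructor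
      · refine mem_F.2 ⟨idx i, ?_, (T_eq i hi).symm⟩
        unfold idx
        split_ifs <;> omega
      · rw [T_eq i hi]
        interval_cases i <;> norm_num [idx, abs_of_pos, abs_of_neg])
  obtain ⟨i, hi, rfl⟩ := mem_F.1 hp₀
  have key : ∀ m ≤ n, x m ∈ F ∧ (4 * ((i / 4 : ℕ) : ℝ)) / 15 ≤ x m ∧
      x m ≤ (4 * ((i / 4 : ℕ) : ℝ) + 3) / 15 := by
    intro m
    induction m with
    | zero =>
      intro _
      rw [hx0]
      have h1 : 4 * (i / 4) ≤ i := Nat.mul_div_le i 4
      have h2 : i ≤ 4 * (i / 4) + 3 := by omega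
      have h1' : (4 * ((i / 4 : ℕ) : ℝ)) ≤ i := by exact_mod_cast h1
      have h2' : (i : ℝ) ≤ 4 * ((i / 4 : ℕ) : ℝ) + 3 := by exact_mod_cast h2
      refine ⟨hp₀, by linarith, by linarith⟩
    | succ m ih =>
      intro hm
      obtain ⟨a, b, c⟩ := ih (by omega)
      exact step a (hstep m (by omega)) (i / 4) (by omega) b c
  obtain ⟨-, b, c⟩ := key n le_rfl
  have h0 := key 0 (Nat.zero_le _)
  rw [hx0] at h0
  obtain ⟨-, b0, c0⟩ := h0
  have : |x n - (i : ℝ) / 15| ≤ 3 / 15 := by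
    rw [abs_le]
    constructor <;> linarith
  linarith

end Pool.Agent.S08686
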