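import Pool.Statements.S08907

set_option autoImplicit false
open Pool Pool.MP_596cf1_co

namespace Pool.Agent.S08907

open Finset

/-- Sum over the injections of a list of rows into a set of columns. -/
def P {κ : Type*} [DecidableEq κ] : List (κ → ℤ) → Finset κ → ℤ
  | [], _ => 1
  | f :: L, C => ∑ c ∈ C, f c * P L (C.erase c)

theorem P_swap (f g : ℕ → ℤ) (L : List (ℕ → ℤ)) (C : Finset ℕ) :
    P (f :: g :: L) C = P (g :: f :: L) C := by
  simp only [P, Finset.mul_sum]
  rw [Finset.sum_comm' (t' := C) (s' := fun d => C.erase d)]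
  · refine Finset.sum_congr rfl fun d hd => Finset.sum_congr rfl fun c hc => ?_
    rw [Finset.erase_right_comm]; ring
  · intro x y
    simp only [Finset.mem_erase, ne_eq]
    constructor
    · rintro ⟨h1, h2, h3⟩; exact ⟨⟨fun h => h2 h.symm, h1⟩, h3⟩
    · rintro ⟨⟨h1, h2⟩, h3⟩; exact ⟨h2, fun h => h1 h.symm, h3⟩

theorem P_perm {L L' : List (ℕ → ℤ)} (h : L.Perm L') : ∀ C : Finset ℕ, P L C = P L' C := by
  induction h with
  | nil => intro C; rfl
  | cons f _ ih => intro C; simp only [P]; exact Finset.sum_congr rfl fun c _ => by rw [ih]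
  | swap f g L => intro C; exact P_swap _ _ _ _
  | trans _ _ ih1 ih2 => intro C; rw [ih1, ih2]

theorem link {κ : Type*} [DecidableEq κ] : ∀ (n : ℕ) (ρ : Fin n → κ) (_ : Function.Injective ρ)
    (g : Fin n → κ → ℤ),
    ∑ σ : Equiv.Perm (Fin n), ∏ i, g i (ρ (σ i)) = P (List.ofFn g) (univ.image ρ)
  | 0, ρ, hρ, g => by simp [P]
  | n + 1, ρ, hρ, g => by
    rw [← (Equiv.Perm.decomposeFin).symm.sum_comp, Fintype.sum_prod_type]
    simp only [Fin.prod_univ_succ, Equiv.Perm.decomposeFin_symm_apply_zero,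
      Equiv.Perm.decomposeFin_symm_apply_succ]
    rw [List.ofFn_succ, P, sum_image (fun a _ b _ h => hρ h)]
    refine sum_congr rfl fun p _ => ?_
    rw [← mul_sum]; congr 1
    have h1 : Function.Injective (fun y : Fin n => ρ (Equiv.swap 0 p y.succ)) := by
      intro a b h
      exact Fin.succ_injective _ ((Equiv.swap 0 p).injective (hρ h))
    have := link n (fun y => ρ (Equiv.swap 0 p y.succ)) h1 (fun i => g i.succ)
    rw [this]; congr 1
    ext x
    simp only [mem_image, mem_univ, true_and, mem_erase, ne_eq]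
    constructor
    · rintro ⟨y, rfl⟩
      refine ⟨fun h => ?_, _, rfl⟩
      have h2 := hρ h
      have h3 : y.succ = 0 := by
        have := congrArg (Equiv.swap 0 p) h2
        rw [Equiv.swap_apply_self] at this
        rw [this]; simp
      exact absurd h3 (Fin.succ_ne_zero y)
    · rintro ⟨h, z, rfl⟩
      have hz : z ≠ p := fun h2 => h (by rw [h2])
      have h3 : Equiv.swap 0 p z ≠ 0 := by
        intro h4
        apply hz
        have := congrArg (Equiv.swap 0 p) h4
        rw [Equiv.swap_apply_self] at this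
        rw [this]; simp
      obtain ⟨y, hy⟩ := Fin.exists_succ_eq.mpr h3
      exact ⟨y, by rw [hy, Equiv.swap_apply_self]⟩

/-- Rows indexed by a finite set of naturals. -/
noncomputable def P2 (w : ℕ → ℕ → ℤ) (R C : Finset ℕ) : ℤ := P (R.toList.map w) C

theorem P2_insert (w : ℕ → ℕ → ℤ) {r : ℕ} {R : Finset ℕ} (h : r ∉ R) (C : Finset ℕ) :
    P2 w (insert r R) C = ∑ c ∈ C, w r c * P2 w R (C.erase c) := by
  unfold P2
  rw [P_perm ((Finset.toList_insert h).map w) C]
  simp [P]

theorem P2_empty (w : ℕ → ℕ → ℤ) (C : Finset ℕ) : P2 w ∅ C = 1 := by simp [P2, P]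

theorem P2_exp (w : ℕ → ℕ → ℤ) {r : ℕ} {R : Finset ℕ} (h : r ∉ R) {c : ℕ} {C : Finset ℕ} (hc : c ∉ C) :
    P2 w (insert r R) (insert c C) = w r c * P2 w R C
      + ∑ d ∈ C, w r d * P2 w R (insert c (C.erase d)) := by
  rw [P2_insert w h, sum_insert hc, erase_insert hc]
  congr 1
  refine sum_congr rfl fun d hd => ?_
  have hcd : c ≠ d := fun h2 => hc (by rw [h2]; exact hd)
  rw [erase_insert_of_ne hcd]

theorem col0 (w : ℕ → ℕ → ℤ) (c c' : ℕ) (R : Finset ℕ) : (∀ r ∈ R, w r c = w r c') →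
    ∀ C : Finset ℕ, c ∉ C → c' ∉ C → P2 w R (insert c C) = P2 w R (insert c' C) := by
  induction R using Finset.induction_on with
  | empty => intro _ C _ _; rw [P2_empty, P2_empty]
  | insert r R hr ih =>
    intro h C hc hc'
    rw [P2_exp w hr hc, P2_exp w hr hc', h r (mem_insert_self _ _)]
    congr 1
    refine sum_congr rfl fun d hd => ?_
    rw [ih (fun r hr => h r (mem_insert_of_mem hr)) (C.erase d) (fun h2 => hc (mem_of_mem_erase h2))
      (fun h2 => hc' (mem_of_mem_erase h2))]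

theorem col1 (w : ℕ → ℕ → ℤ) (c c' : ℕ) (R : Finset ℕ) {f : ℕ} (hf : f ∉ R)
    (h : ∀ r ∈ R, w r c = w r c') (C : Finset ℕ) (hc : c ∉ C) (hc' : c' ∉ C) :
    P2 w (insert f R) (insert c C) - P2 w (insert f R) (insert c' C)
      = (w f c - w f c') * P2 w R C := by
  rw [P2_exp w hf hc, P2_exp w hf hc']
  have : ∑ d ∈ C, w f d * P2 w R (insert c (C.erase d))
      = ∑ d ∈ C, w f d * P2 w R (insert c' (C.erase d)) := by
    refine sum_congr rfl fun d hd => ?_
    rw [col0 w c c' R h (C.erase d) (fun h2 => hc (mem_of_mem_erase h2))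
      (fun h2 => hc' (mem_of_mem_erase h2))]
  rw [this]; ring

theorem col2 (w : ℕ → ℕ → ℤ) (c c' : ℕ) (R : Finset ℕ) {f g : ℕ} (hf : f ∉ R) (hg : g ∉ R)
    (hfg : f ≠ g)
    (h : ∀ r ∈ R, w r c = w r c') (C : Finset ℕ) (hc : c ∉ C) (hc' : c' ∉ C) :
    P2 w (insert f (insert g R)) (insert c C) - P2 w (insert f (insert g R)) (insert c' C)
      = (w f c - w f c') * P2 w (insert g R) C + (w g c - w g c') * P2 w (insert f R) C := by
  have hf' : f ∉ insert g R := by
    rw [mem_insert, not_or]; exact ⟨hfg, hf⟩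
  rw [P2_exp w hf' hc, P2_exp w hf' hc', P2_insert w hf C, mul_sum]
  have : ∑ d ∈ C, w f d * P2 w (insert g R) (insert c (C.erase d))
      - ∑ d ∈ C, w f d * P2 w (insert g R) (insert c' (C.erase d))
      = ∑ d ∈ C, (w g c - w g c') * (w f d * P2 w R (C.erase d)) := by
    rw [← sum_sub_distrib]
    refine sum_congr rfl fun d hd => ?_
    rw [← mul_sub, col1 w c c' R hg h (C.erase d) (fun h2 => hc (mem_of_mem_erase h2))
      (fun h2 => hc' (mem_of_mem_erase h2))]
    ring
  linarith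

theorem rowdiff (w : ℕ → ℕ → ℤ) (R : Finset ℕ) {f g a b : ℕ} (hf : f ∉ R) (hg : g ∉ R)
    (C : Finset ℕ) (ha : a ∉ C) (hb : b ∉ C) (hab : a ≠ b) (h : ∀ d ∈ C, w f d = w g d) :
    P2 w (insert g R) (insert a (insert b C)) - P2 w (insert f R) (insert a (insert b C))
      = (w g a - w f a) * P2 w R (insert b C) + (w g b - w f b) * P2 w R (insert a C) := by
  have ha' : a ∉ insert b C := by
    rw [mem_insert, not_or]; exact ⟨hab, ha⟩
  rw [P2_exp w hg ha', P2_exp w hf ha', sum_insert hb, sum_insert hb, erase_insert hb]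
  have : ∑ d ∈ C, w g d * P2 w R (insert a ((insert b C).erase d))
      = ∑ d ∈ C, w f d * P2 w R (insert a ((insert b C).erase d)) :=
    sum_congr rfl fun d hd => by rw [h d hd]
  rw [this]; ring


/-- The path weights: row `r ≤ T` has `-1` at the columns `r - 1` and `r`. -/
def w (T : ℕ) (r c : ℕ) : ℤ := if r ≤ T ∧ (c + 1 = r ∨ c = r) then -1 else 1

def LL (n a s : ℕ) : Finset ℕ := (Finset.Icc 1 n).filter (fun r => r = a + s + 1 ∨ r ≤ a ∨ a + 2 * s + 1 < r)
def CC (n a s : ℕ) : Finset ℕ := (Finset.range (n + 1)).filter (fun c => c < a ∨ a + 2 * s + 1 < c)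

def L' (n s : ℕ) : Finset ℕ := (Finset.Icc 1 n).filter (fun r => r = s + 1 ∨ 2 * s + 2 < r)

theorem U_step (T n a s : ℕ) (hT : a + 2 * s + 3 ≤ T) (hn : T ≤ n) :
    P2 (w T) (LL n (a+1) s) (insert (a+1) (CC n (a+1) s))
      - P2 (w T) (LL n (a+1) s) (insert (a + 2 * s + 2) (CC n (a+1) s))
    = 4 * (P2 (w T) (LL n a (s+1)) (insert a (CC n a (s+1)))
      - P2 (w T) (LL n a (s+1)) (insert (a + 2 * s + 3) (CC n a (s+1)))) := by
  have hL : LL n (a+1) s = insert (a+1) (insert (a + 2 * s + 3) (LL n a (s+1))) := by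
    ext r; simp only [LL, mem_filter, mem_insert, mem_Icc]; omega
  have hC : CC n (a+1) s = insert a (insert (a + 2 * s + 3) (CC n a (s+1))) := by
    ext r; simp only [CC, mem_filter, mem_insert, mem_range]; omega
  have hf : a + 1 ∉ LL n a (s+1) := by simp only [LL, mem_filter, mem_Icc]; omega
  have hg : a + 2 * s + 3 ∉ LL n a (s+1) := by simp only [LL, mem_filter, mem_Icc]; omega
  have hrow : ∀ r ∈ LL n a (s+1), w T r (a+1) = w T r (a + 2 * s + 2) := by
    intro r hr
    simp only [LL, mem_filter, mem_Icc] at hr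
    unfold w
    split_ifs <;> first | rfl | (exfalso; omega)
  have hc1 : a + 1 ∉ CC n (a+1) s := by simp only [CC, mem_filter, mem_range]; omega
  have hc2 : a + 2 * s + 2 ∉ CC n (a+1) s := by simp only [CC, mem_filter, mem_range]; omega
  rw [hL, col2 (w T) (a+1) (a + 2 * s + 2) (LL n a (s+1)) hf hg (by omega) hrow _ hc1 hc2]
  have e1 : w T (a+1) (a+1) = -1 := by unfold w; rw [if_pos (by omega)]
  have e2 : w T (a+1) (a+2*s+2) = 1 := by unfold w; rw [if_neg (by omega)]
  have e3 : w T (a+2*s+3) (a+1) = 1 := by unfold w; rw [if_neg (by omega)]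
  have e4 : w T (a+2*s+3) (a+2*s+2) = -1 := by unfold w; rw [if_pos (by omega)]
  rw [e1, e2, e3, e4, hC]
  have ha1 : a ∉ CC n a (s+1) := by simp only [CC, mem_filter, mem_range]; omega
  have hb1 : a + 2 * s + 3 ∉ CC n a (s+1) := by simp only [CC, mem_filter, mem_range]; omega
  have hd : ∀ d ∈ CC n a (s+1), w T (a+1) d = w T (a+2*s+3) d := by
    intro d hd
    simp only [CC, mem_filter, mem_range] at hd
    unfold w
    split_ifs <;> first | rfl | (exfalso; omega)
  have h := rowdiff (w T) (LL n a (s+1)) hf hg (CC n a (s+1)) ha1 hb1 (by omega) hd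
  have e5 : w T (a+2*s+3) a = 1 := by unfold w; rw [if_neg (by omega)]
  have e6 : w T (a+1) a = -1 := by unfold w; rw [if_pos (by omega)]
  have e7 : w T (a+2*s+3) (a+2*s+3) = -1 := by unfold w; rw [if_pos (by omega)]
  have e8 : w T (a+1) (a+2*s+3) = 1 := by unfold w; rw [if_neg (by omega)]
  rw [e5, e6, e7, e8] at h
  linarith

theorem U_last (T n s : ℕ) (hT : 2 * s + 2 ≤ T) (hn : T ≤ n) :
    P2 (w T) (LL n 0 s) (insert 0 (CC n 0 s))
      - P2 (w T) (LL n 0 s) (insert (2 * s + 1) (CC n 0 s))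
    = 2 * P2 (w T) (L' n s) (CC n 0 s) := by
  have hL : LL n 0 s = insert (2 * s + 2) (L' n s) := by
    ext r; simp only [LL, L', mem_filter, mem_insert, mem_Icc]; omega
  have hg : 2 * s + 2 ∉ L' n s := by simp only [L', mem_filter, mem_Icc]; omega
  have hrow : ∀ r ∈ L' n s, w T r 0 = w T r (2 * s + 1) := by
    intro r hr
    simp only [L', mem_filter, mem_Icc] at hr
    unfold w
    split_ifs <;> first | rfl | (exfalso; omega)
  have hc1 : 0 ∉ CC n 0 s := by simp only [CC, mem_filter, mem_range]; omega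
  have hc2 : 2 * s + 1 ∉ CC n 0 s := by simp only [CC, mem_filter, mem_range]; omega
  rw [hL, col1 (w T) 0 (2 * s + 1) (L' n s) hg hrow _ hc1 hc2]
  have e1 : w T (2*s+2) 0 = 1 := by unfold w; rw [if_neg (by omega)]
  have e2 : w T (2*s+2) (2*s+1) = -1 := by unfold w; rw [if_pos (by omega)]
  rw [e1, e2]; ring

theorem U_all (T n : ℕ) (hn : T ≤ n) : ∀ a s : ℕ, 2 * a + 2 * s + 2 ≤ T →
    P2 (w T) (LL n a s) (insert a (CC n a s))
      - P2 (w T) (LL n a s) (insert (a + 2 * s + 1) (CC n a s))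
    = 4 ^ a * (2 * P2 (w T) (L' n (s + a)) (CC n 0 (s + a)))
  | 0, s, h => by
    have := U_last T n s (by omega) hn
    simpa using this
  | a + 1, s, h => by
    have h1 := U_step T n a s (by omega) hn
    have h2 := U_all T n hn a (s+1) (by omega)
    have e1 : a + 1 + 2 * s + 1 = a + 2 * s + 2 := by ring
    have e2 : a + 2 * (s+1) + 1 = a + 2 * s + 3 := by ring
    have e3 : s + 1 + a = s + (a + 1) := by ring
    rw [e2, e3] at h2
    rw [e1, h1, h2]; ring

/-- The permanent of the path matrix without column `c`. -/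
noncomputable def pp (T n c : ℕ) : ℤ := P2 (w T) (Finset.Icc 1 n) ((Finset.range (n + 1)).erase c)

noncomputable def Q (T n j : ℕ) : ℤ := P2 (w T) (L' n (2 * j)) (CC n 0 (2 * j))

theorem pp_diff (T n j : ℕ) (hn : T ≤ n) (hT : 4 * j + 2 ≤ T) :
    pp T n (2 * j + 1) - pp T n (2 * j) = 2 * 16 ^ j * Q T n j := by
  have h := U_all T n hn (2 * j) 0 (by omega)
  have hL : LL n (2*j) 0 = Finset.Icc 1 n := by
    ext r; simp only [LL, mem_filter, mem_Icc]; omega
  have hC1 : insert (2*j) (CC n (2*j) 0) = (Finset.range (n + 1)).erase (2 * j + 1) := by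
    ext r; simp only [CC, mem_filter, mem_insert, mem_range, mem_erase]; omega
  have hC2 : insert (2 * j + 2 * 0 + 1) (CC n (2*j) 0) = (Finset.range (n + 1)).erase (2 * j) := by
    ext r; simp only [CC, mem_filter, mem_insert, mem_range, mem_erase]; omega
  rw [hL, hC1, hC2] at h
  unfold pp Q
  rw [h, Nat.zero_add]
  have : (4:ℤ) ^ (2 * j) = 16 ^ j := by rw [pow_mul]; norm_num
  rw [this]; ring


theorem w_abs (T r c : ℕ) : |w T r c| = 1 := by unfold w; split_ifs <;> simp

theorem ub (T : ℕ) (R : Finset ℕ) : ∀ C : Finset ℕ, C.card = R.card →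
    |P2 (w T) R C| ≤ (R.card.factorial : ℤ) := by
  induction R using Finset.induction_on with
  | empty => intro C _; rw [P2_empty]; simp
  | insert r R hr ih =>
    intro C hC
    rw [P2_insert _ hr, card_insert_of_notMem hr, Nat.factorial_succ]
    rw [card_insert_of_notMem hr] at hC
    calc |∑ c ∈ C, w T r c * P2 (w T) R (C.erase c)|
        ≤ ∑ c ∈ C, |w T r c * P2 (w T) R (C.erase c)| := abs_sum_le_sum_abs _ _
      _ ≤ ∑ c ∈ C, (R.card.factorial : ℤ) := by
          refine sum_le_sum fun c hc => ?_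
          rw [abs_mul, w_abs, one_mul]
          exact ih _ (by rw [card_erase_of_mem hc, hC]; rfl)
      _ = _ := by rw [sum_const, hC]; simp

theorem blank (T : ℕ) (R : Finset ℕ) : (∀ r ∈ R, T < r) → ∀ C : Finset ℕ, C.card = R.card →
    P2 (w T) R C = (R.card.factorial : ℤ) := by
  induction R using Finset.induction_on with
  | empty => intro _ C _; rw [P2_empty]; simp
  | insert r R hr ih =>
    intro h C hC
    rw [P2_insert _ hr, card_insert_of_notMem hr, Nat.factorial_succ]
    rw [card_insert_of_notMem hr] at hC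
    have hw : ∀ c, w T r c = 1 := by
      intro c
      have := h r (mem_insert_self _ _)
      unfold w; rw [if_neg (by omega)]
    calc ∑ c ∈ C, w T r c * P2 (w T) R (C.erase c) = ∑ c ∈ C, (R.card.factorial : ℤ) := by
          refine sum_congr rfl fun c hc => ?_
          rw [hw, one_mul]
          exact ih (fun r hr => h r (mem_insert_of_mem hr)) _
            (by rw [card_erase_of_mem hc, hC]; rfl)
      _ = _ := by rw [sum_const, hC]; simp

theorem lb (T : ℕ) (R0 : Finset ℕ) (h0 : ∀ r ∈ R0, T < r) (K : ℤ) (hK0 : 0 ≤ K)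
    (hK : K ≤ R0.card + 1) (R1 : Finset ℕ) : (∀ r ∈ R1, r ∉ R0) →
    ∀ C : Finset ℕ, C.card = R1.card + R0.card →
    (K - 4 * R1.card) * ((R1.card + R0.card).factorial : ℤ) ≤ K * P2 (w T) (R1 ∪ R0) C := by
  induction R1 using Finset.induction_on with
  | empty =>
    intro _ C hC
    have h1 : (∅ : Finset ℕ) ∪ R0 = R0 := by simp
    rw [h1, blank T R0 h0 C (by simpa using hC)]
    simp
  | insert r R1 hr ih =>
    intro hd C hC
    have hr0 : r ∉ R0 := hd r (mem_insert_self _ _)
    have ih' := ih (fun r hr => hd r (mem_insert_of_mem hr))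
    have hru : r ∉ R1 ∪ R0 := by rw [mem_union, not_or]; exact ⟨hr, hr0⟩
    have hcu : (R1 ∪ R0).card = R1.card + R0.card :=
      card_union_of_disjoint (Finset.disjoint_left.mpr fun a ha ha' =>
        hd a (mem_insert_of_mem ha) ha')
    rw [card_insert_of_notMem hr] at hC ⊢
    rw [insert_union, P2_insert _ hru]
    set m := R1.card + R0.card with hm
    have hC' : C.card = m + 1 := by rw [hC, hm]; ring
    have e1 : R1.card + 1 + R0.card = m + 1 := by rw [hm]; ring
    rw [e1, Nat.factorial_succ]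
    have hx1 : ∀ c ∈ C, (K - 4 * R1.card) * (m.factorial : ℤ)
        ≤ K * P2 (w T) (R1 ∪ R0) (C.erase c) := by
      intro c hc
      exact ih' _ (by rw [card_erase_of_mem hc, hC']; rfl)
    have hx2 : ∀ c ∈ C, |P2 (w T) (R1 ∪ R0) (C.erase c)| ≤ (m.factorial : ℤ) := by
      intro c hc
      have := ub T (R1 ∪ R0) (C.erase c) (by rw [card_erase_of_mem hc, hC', hcu]; rfl)
      rwa [hcu] at this
    have hs1 : ((m:ℤ) + 1) * ((K - 4 * R1.card) * (m.factorial : ℤ))
        ≤ K * ∑ c ∈ C, P2 (w T) (R1 ∪ R0) (C.erase c) := by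
      rw [mul_sum]
      have := sum_le_sum hx1
      rw [sum_const, hC'] at this
      simpa using this
    have hs2 : ∑ c ∈ C, (1 - w T r c) * P2 (w T) (R1 ∪ R0) (C.erase c)
        ≤ 4 * (m.factorial : ℤ) := by
      have hsub : C.filter (fun c => c + 1 = r ∨ c = r) ⊆ {r - 1, r} := by
        intro c hc
        simp only [mem_filter] at hc
        simp only [mem_insert, mem_singleton]; omega
      have hcard : (C.filter (fun c => c + 1 = r ∨ c = r)).card ≤ 2 :=
        (card_le_card hsub).trans card_le_two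
      calc ∑ c ∈ C, (1 - w T r c) * P2 (w T) (R1 ∪ R0) (C.erase c)
          ≤ ∑ c ∈ C, (if c + 1 = r ∨ c = r then 2 * (m.factorial : ℤ) else 0) := by
            refine sum_le_sum fun c hc => ?_
            have h2 := hx2 c hc
            have h3 := (abs_le.mp h2).2
            have h4 : (0:ℤ) ≤ (m.factorial : ℤ) := by positivity
            have hw : w T r c = if r ≤ T ∧ (c + 1 = r ∨ c = r) then -1 else 1 := rfl
            rw [hw]
            split_ifs <;> first | linarith | (exfalso; omega)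
        _ = ((C.filter (fun c => c + 1 = r ∨ c = r)).card : ℤ) * (2 * (m.factorial : ℤ)) := by
            rw [← sum_filter, sum_const]; simp
        _ ≤ 2 * (2 * (m.factorial : ℤ)) := by
            have : ((C.filter (fun c => c + 1 = r ∨ c = r)).card : ℤ) ≤ 2 := by exact_mod_cast hcard
            have h4 : (0:ℤ) ≤ 2 * (m.factorial : ℤ) := by positivity
            exact mul_le_mul_of_nonneg_right this h4
        _ = 4 * (m.factorial : ℤ) := by ring
    have hs3 : ∑ c ∈ C, w T r c * P2 (w T) (R1 ∪ R0) (C.erase c)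
        = ∑ c ∈ C, P2 (w T) (R1 ∪ R0) (C.erase c)
          - ∑ c ∈ C, (1 - w T r c) * P2 (w T) (R1 ∪ R0) (C.erase c) := by
      rw [← sum_sub_distrib]
      exact sum_congr rfl fun c _ => by ring
    rw [hs3, mul_sub]
    have hs4 : K * ∑ c ∈ C, (1 - w T r c) * P2 (w T) (R1 ∪ R0) (C.erase c)
        ≤ K * (4 * (m.factorial : ℤ)) := mul_le_mul_of_nonneg_left hs2 hK0
    have hKm : K ≤ (m:ℤ) + 1 := by
      have : (R0.card : ℤ) ≤ m := by rw [hm]; push_cast; linarith [Int.natCast_nonneg R1.card]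
      linarith
    have h4 : (0:ℤ) ≤ 4 * (m.factorial : ℤ) := by positivity
    have hs5 : K * (4 * (m.factorial : ℤ)) ≤ ((m:ℤ) + 1) * (4 * (m.factorial : ℤ)) :=
      mul_le_mul_of_nonneg_right hKm h4
    push_cast
    nlinarith [hs1, hs4, hs5]

theorem card_L' (n j : ℕ) (h : 4 * j + 2 ≤ n) : (L' n (2 * j)).card = n - 4 * j - 1 := by
  have : L' n (2*j) = insert (2*j+1) (Finset.Ioc (4*j+2) n) := by
    ext r; simp only [L', mem_filter, mem_insert, mem_Icc, mem_Ioc]; omega
  rw [this, card_insert_of_notMem (by simp only [mem_Ioc]; omega), Nat.card_Ioc]; omega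

theorem card_CC (n j : ℕ) (h : 4 * j + 2 ≤ n) : (CC n 0 (2 * j)).card = n - 4 * j - 1 := by
  have : CC n 0 (2*j) = Finset.Ioc (4*j+1) n := by
    ext r; simp only [CC, mem_filter, mem_range, mem_Ioc]; omega
  rw [this, Nat.card_Ioc]; omega

theorem Q_ub (T n j : ℕ) (h : 4 * j + 2 ≤ n) : Q T n j ≤ ((n - 4 * j - 1).factorial : ℤ) := by
  have := ub T (L' n (2 * j)) (CC n 0 (2 * j)) (by rw [card_L' n j h, card_CC n j h])
  rw [card_L' n j h] at this
  exact (abs_le.mp this).2

theorem Q_lb (T n j : ℕ) (h : 4 * j + 2 ≤ T) (hn : 9 * T ≤ n + 1) :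
    ((n - 4 * j - 1).factorial : ℤ) ≤ 2 * Q T n j := by
  have hR0 : Finset.Ioc T n = (L' n (2*j)).filter (fun r => T < r) := by
    ext r; simp only [L', mem_filter, mem_Icc, mem_Ioc]; omega
  have hU : (L' n (2*j)).filter (fun r => ¬ T < r) ∪ Finset.Ioc T n = L' n (2*j) := by
    rw [hR0, union_comm]; exact filter_union_filter_not_eq _ _
  have hc0 : (Finset.Ioc T n).card = n - T := Nat.card_Ioc _ _
  have hc1 : ((L' n (2*j)).filter (fun r => ¬ T < r)).card + (Finset.Ioc T n).card
      = n - 4 * j - 1 := by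
    rw [← card_L' n j (by omega), hR0, add_comm]
    exact card_filter_add_card_filter_not _
  have hc2 : ((L' n (2*j)).filter (fun r => ¬ T < r)).card ≤ T := by
    have : (L' n (2*j)).filter (fun r => ¬ T < r) ⊆ Finset.Icc 1 T := by
      intro r hr; simp only [L', mem_filter, mem_Icc] at hr; simp only [mem_Icc]; omega
    calc _ ≤ (Finset.Icc 1 T).card := card_le_card this
      _ = T := by simp
  have hl := lb T (Finset.Ioc T n) (fun r hr => (mem_Ioc.mp hr).1) ((n:ℤ) - T + 1) (by omega)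
    (by rw [hc0]; omega) ((L' n (2*j)).filter (fun r => ¬ T < r))
    (fun r hr hr' => by
      rw [mem_filter] at hr; rw [mem_Ioc] at hr'; exact hr.2 hr'.1)
    (CC n 0 (2*j)) (by rw [hc1, card_CC n j (by omega)])
  rw [hc1, hU] at hl
  change _ ≤ _ * Q T n j at hl
  set F : ℤ := ((n - 4 * j - 1).factorial : ℤ) with hF
  have hF0 : 0 < F := by rw [hF]; positivity
  set K : ℤ := (n:ℤ) - T + 1 with hK
  have hK8 : 8 * (T:ℤ) ≤ K := by rw [hK]; omega
  have hKpos : 0 < K := by rw [hK]; omega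
  set a : ℤ := (((L' n (2*j)).filter (fun r => ¬ T < r)).card : ℤ) with ha
  have haT : a ≤ T := by rw [ha]; exact_mod_cast hc2
  have h1 : K * F ≤ 2 * ((K - 4 * a) * F) := by
    have : K ≤ 2 * (K - 4 * a) := by linarith
    calc K * F ≤ (2 * (K - 4 * a)) * F := mul_le_mul_of_nonneg_right this hF0.le
      _ = _ := by ring
  have h2 : K * F ≤ K * (2 * Q T n j) := by linarith
  exact le_of_mul_le_mul_left h2 hKpos

/-- The steps. -/
noncomputable def D (T n j : ℕ) : ℤ := pp T n (2 * j + 1) - pp T n (2 * j)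

theorem D_pos (T n j : ℕ) (h : 4 * j + 2 ≤ T) (hn : 9 * T ≤ n + 1) : 0 < D T n j := by
  unfold D
  rw [pp_diff T n j (by omega) h]
  have h1 := Q_lb T n j h hn
  have h2 : (0:ℤ) < ((n - 4 * j - 1).factorial : ℤ) := by positivity
  have h3 : 0 < Q T n j := by linarith
  positivity

theorem D_step (T n j : ℕ) (h : 4 * (j+1) + 2 ≤ T) (hn : 9 * T ≤ n + 1) :
    2 * D T n (j+1) ≤ D T n j := by
  unfold D
  rw [pp_diff T n j (by omega) (by omega), pp_diff T n (j+1) (by omega) h]
  have h1 := Q_lb T n j (by omega) hn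
  have h2 := Q_ub T n (j+1) (by omega)
  obtain ⟨m, hm⟩ : ∃ m, n - 4 * j - 1 = m + 5 := ⟨n - 4 * j - 6, by omega⟩
  have hm' : n - 4 * (j+1) - 1 = m + 1 := by omega
  rw [hm] at h1
  rw [hm'] at h2
  have h3 : (64:ℤ) * ((m+1).factorial : ℤ) ≤ ((m+5).factorial : ℤ) := by
    have : 64 * (m+1).factorial ≤ (m+5).factorial := by
      have h7 : (m+5).factorial = (m+4+1) * ((m+3+1) * ((m+2+1) * ((m+1+1) * (m+1).factorial))) := rfl
      rw [h7]
      have h5 : 64 ≤ (m+4+1) * ((m+3+1) * ((m+2+1) * (m+1+1))) := by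
        calc 64 ≤ 5 * (4 * (3 * 2)) := by norm_num
          _ ≤ _ := by gcongr <;> omega
      calc 64 * (m+1).factorial ≤ ((m+4+1) * ((m+3+1) * ((m+2+1) * (m+1+1)))) * (m+1).factorial :=
            Nat.mul_le_mul_right _ h5
        _ = _ := by ring
    exact_mod_cast this
  have h4 : 32 * Q T n (j+1) ≤ Q T n j := by linarith
  have h6 : (0:ℤ) < 2 * 16 ^ j := by positivity
  calc 2 * (2 * 16 ^ (j+1) * Q T n (j+1)) = (2 * 16 ^ j) * (32 * Q T n (j+1)) := by ring
    _ ≤ (2 * 16 ^ j) * Q T n j := mul_le_mul_of_nonneg_left h4 h6.le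


/-- The sign row. -/
noncomputable def eps (J : ℕ) (S : Finset ℕ) (c : ℕ) : ℤ := by
  classical exact if c / 2 < J ∧ (c % 2 = 1 ↔ c / 2 ∈ S) then -1 else 1

/-- All the weights: index `0` is the sign row. -/
noncomputable def W (J : ℕ) (S : Finset ℕ) (r c : ℕ) : ℤ := if r = 0 then eps J S c else w (4 * J) r c

noncomputable def AA (J n : ℕ) (S : Finset ℕ) : Matrix (Fin (n+1)) (Fin (n+1)) ℤ :=
  fun c r => W J S r.val c.val

theorem AA_sign (J n : ℕ) (S : Finset ℕ) (i j : Fin (n+1)) : AA J n S i j = 1 ∨ AA J n S i j = -1 := by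
  unfold AA W eps w
  split_ifs <;> simp

theorem perm_eq (J n : ℕ) (S : Finset ℕ) :
    (AA J n S).permanent = ∑ c ∈ Finset.range (n + 1), eps J S c * pp (4 * J) n c := by
  have h1 : (AA J n S).permanent
      = P (List.ofFn (fun i : Fin (n+1) => W J S i.val)) (univ.image (fun i : Fin (n+1) => i.val)) := by
    rw [← link (n+1) (fun i : Fin (n+1) => i.val) Fin.val_injective (fun i => W J S i.val)]
    rfl
  have h2 : (univ.image (fun i : Fin (n+1) => i.val)) = Finset.range (n+1) := by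
    ext x; simp only [mem_image, mem_univ, true_and, mem_range]
    exact ⟨fun ⟨i, hi⟩ => hi ▸ i.2, fun h => ⟨⟨x, h⟩, rfl⟩⟩
  rw [h1, h2, List.ofFn_succ, P]
  refine sum_congr rfl fun c _ => ?_
  have h3 : W J S (0 : Fin (n+1)).val c = eps J S c := by simp [W]
  rw [h3]
  congr 1
  unfold pp P2
  apply P_perm
  have h4 : (List.ofFn fun i : Fin n => W J S (i.succ).val)
      = ((List.finRange n).map (fun i : Fin n => i.val + 1)).map (w (4 * J)) := by
    rw [List.ofFn_eq_map, List.map_map]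
    apply List.map_congr_left
    intro i _
    funext c
    simp [W]
  rw [h4]
  apply List.Perm.map
  rw [List.perm_ext_iff_of_nodup]
  · intro x
    simp only [List.mem_map, List.mem_finRange, true_and, Finset.mem_toList, mem_Icc]
    constructor
    · rintro ⟨i, rfl⟩; have := i.2; omega
    · rintro ⟨h5, h6⟩; exact ⟨⟨x - 1, by omega⟩, by simp only; omega⟩
  · apply List.Nodup.map _ (List.nodup_finRange n)
    intro a b hab
    exact Fin.ext (by simpa using hab)
  · exact Finset.nodup_toList _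

theorem sum_pairs (g : ℕ → ℤ) : ∀ J : ℕ,
    ∑ c ∈ Finset.range (2 * J), g c = ∑ j ∈ Finset.range J, (g (2 * j) + g (2 * j + 1))
  | 0 => by simp
  | J + 1 => by
    rw [show 2 * (J + 1) = 2 * J + 1 + 1 by ring, sum_range_succ, sum_range_succ, sum_pairs g J,
      sum_range_succ]
    ring

theorem perm_val (J n : ℕ) (hn : 2 * J ≤ n + 1) (S : Finset ℕ) :
    (AA J n S).permanent
      = (∑ j ∈ Finset.range J, D (4 * J) n j + ∑ c ∈ Finset.Ico (2 * J) (n + 1), pp (4 * J) n c)
        - 2 * ∑ j ∈ Finset.range J, (if j ∈ S then 1 else 0) * D (4 * J) n j := by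
  classical
  rw [perm_eq, ← Finset.sum_range_add_sum_Ico _ hn, sum_pairs]
  have h1 : ∑ c ∈ Finset.Ico (2 * J) (n + 1), eps J S c * pp (4 * J) n c
      = ∑ c ∈ Finset.Ico (2 * J) (n + 1), pp (4 * J) n c := by
    refine sum_congr rfl fun c hc => ?_
    rw [mem_Ico] at hc
    have : eps J S c = 1 := by
      unfold eps; rw [if_neg (by intro h; have := h.1; omega)]
    rw [this, one_mul]
  have h2 : ∑ j ∈ Finset.range J, (eps J S (2 * j) * pp (4 * J) n (2 * j)
        + eps J S (2 * j + 1) * pp (4 * J) n (2 * j + 1))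
      = ∑ j ∈ Finset.range J, D (4 * J) n j
        - 2 * ∑ j ∈ Finset.range J, (if j ∈ S then 1 else 0) * D (4 * J) n j := by
    rw [mul_sum, ← sum_sub_distrib]
    refine sum_congr rfl fun j hj => ?_
    rw [mem_range] at hj
    have a1 : (2 * j) / 2 = j := by omega
    have a2 : (2 * j + 1) / 2 = j := by omega
    have a3 : ¬ ((2 * j) % 2 = 1) := by omega
    have a4 : (2 * j + 1) % 2 = 1 := by omega
    by_cases hS : j ∈ S
    · have b1 : eps J S (2 * j) = 1 := by
        unfold eps; rw [a1, if_neg]; intro h; exact a3 (h.2.mpr hS)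
      have b2 : eps J S (2 * j + 1) = -1 := by
        unfold eps; rw [a2, if_pos ⟨hj, fun _ => hS, fun _ => a4⟩]
      rw [b1, b2, if_pos hS]; unfold D; ring
    · have b1 : eps J S (2 * j) = -1 := by
        unfold eps; rw [a1, if_pos ⟨hj, fun h => absurd h a3, fun h => absurd h hS⟩]
      have b2 : eps J S (2 * j + 1) = 1 := by
        unfold eps; rw [a2, if_neg]; intro h; exact hS (h.2.mp a4)
      rw [b1, b2, if_neg hS]; unfold D; ring
  rw [h1, h2]; ring

theorem tail_lt (D : ℕ → ℤ) (J : ℕ) (hp : ∀ j, j < J → 0 < D j)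
    (hs : ∀ j, j + 1 < J → 2 * D (j+1) ≤ D j) : ∀ d k : ℕ, k + d + 1 = J →
    ∑ j ∈ Finset.Ico (k+1) J, D j < D k
  | 0, k, h => by
    rw [show J = k + 1 by omega, Finset.Ico_self, sum_empty]
    exact hp k (by omega)
  | d + 1, k, h => by
    have ih := tail_lt D J hp hs d (k+1) (by omega)
    rw [Finset.sum_eq_sum_Ico_succ_bot (by omega)]
    have := hs k (by omega)
    linarith

theorem inj_aux (D : ℕ → ℤ) (J : ℕ) (hp : ∀ j, j < J → 0 < D j)
    (hs : ∀ j, j + 1 < J → 2 * D (j+1) ≤ D j) (x : ℕ → ℤ) (hx : ∀ j, |x j| ≤ 1)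
    (h0 : ∑ j ∈ Finset.range J, x j * D j = 0) : ∀ j, j < J → x j = 0 := by
  intro j
  induction j using Nat.strong_induction_on with
  | _ k ih =>
  intro hk
  by_contra hne
  have h1 : ∑ j ∈ Finset.range J, x j * D j
      = x k * D k + ∑ j ∈ Finset.Ico (k+1) J, x j * D j := by
    rw [← Finset.sum_range_add_sum_Ico _ hk.le, Finset.sum_eq_sum_Ico_succ_bot hk]
    have : ∑ j ∈ Finset.range k, x j * D j = 0 :=
      sum_eq_zero fun j hj => by
        rw [mem_range] at hj
        rw [ih j hj (by omega), zero_mul]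
    rw [this, zero_add]
  have h2 : |∑ j ∈ Finset.Ico (k+1) J, x j * D j| ≤ ∑ j ∈ Finset.Ico (k+1) J, D j := by
    refine (abs_sum_le_sum_abs _ _).trans (sum_le_sum fun j hj => ?_)
    rw [mem_Ico] at hj
    have hDj := hp j hj.2
    rw [abs_mul, abs_of_pos hDj]
    calc |x j| * D j ≤ 1 * D j := mul_le_mul_of_nonneg_right (hx j) hDj.le
      _ = D j := one_mul _
  have h3 := tail_lt D J hp hs (J - k - 1) k (by omega)
  have h4 : |x k * D k| = |∑ j ∈ Finset.Ico (k+1) J, x j * D j| := by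
    have : x k * D k = - ∑ j ∈ Finset.Ico (k+1) J, x j * D j := by linarith
    rw [this, abs_neg]
  have hDk := hp k hk
  have h5 : D k ≤ |x k * D k| := by
    rw [abs_mul, abs_of_pos hDk]
    have : 1 ≤ |x k| := Int.one_le_abs hne
    calc D k = 1 * D k := (one_mul _).symm
      _ ≤ |x k| * D k := mul_le_mul_of_nonneg_right this hDk.le
  linarith

theorem perm_inj (J n : ℕ) (hn : 36 * J ≤ n + 1) {S S' : Finset ℕ} (hS : S ⊆ Finset.range J)
    (hS' : S' ⊆ Finset.range J)
    (h : (AA J n S).permanent = (AA J n S').permanent) : S = S' := by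
  rw [perm_val J n (by omega), perm_val J n (by omega)] at h
  have h1 : ∑ j ∈ Finset.range J, ((if j ∈ S then 1 else 0) - (if j ∈ S' then 1 else 0))
      * D (4 * J) n j = 0 := by
    have : ∑ j ∈ Finset.range J, ((if j ∈ S then 1 else 0) - (if j ∈ S' then 1 else 0))
      * D (4 * J) n j = ∑ j ∈ Finset.range J, (if j ∈ S then 1 else 0) * D (4 * J) n j
        - ∑ j ∈ Finset.range J, (if j ∈ S' then 1 else 0) * D (4 * J) n j := by
      rw [← sum_sub_distrib]
      exact sum_congr rfl fun j _ => by ring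
    rw [this]; linarith
  have h2 := inj_aux (D (4*J) n) J (fun j hj => D_pos (4*J) n j (by omega) (by omega))
    (fun j hj => D_step (4*J) n j (by omega) (by omega))
    (fun j => (if j ∈ S then 1 else 0) - (if j ∈ S' then 1 else 0))
    (fun j => by split_ifs <;> simp) h1
  ext j
  constructor
  · intro hj
    by_contra hj'
    have := h2 j (mem_range.mp (hS hj))
    simp [hj, hj'] at this
  · intro hj
    by_contra hj'
    have := h2 j (mem_range.mp (hS' hj))
    simp [hj, hj'] at this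

theorem count (J n : ℕ) (hn : 36 * J ≤ n + 1) :
    2 ^ J ≤ Set.ncard {p : ℤ | ∃ A : Matrix (Fin (n+1)) (Fin (n+1)) ℤ,
        (∀ i j, A i j = 1 ∨ A i j = -1) ∧ A.permanent = p} := by
  classical
  have hfin : Set.Finite {p : ℤ | ∃ A : Matrix (Fin (n+1)) (Fin (n+1)) ℤ,
        (∀ i j, A i j = 1 ∨ A i j = -1) ∧ A.permanent = p} := by
    apply (Set.finite_range (fun b : Fin (n+1) → Fin (n+1) → Bool =>
      Matrix.permanent (fun i j => if b i j then (1:ℤ) else -1 : Matrix (Fin (n+1)) (Fin (n+1)) ℤ))).subset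
    rintro p ⟨A, hA, rfl⟩
    refine ⟨fun i j => decide (A i j = 1), ?_⟩
    simp only
    congr 1
    funext i j
    rcases hA i j with h | h <;> simp [h]
  have himg : (((Finset.range J).powerset.image (fun S => (AA J n S).permanent) : Finset ℤ) : Set ℤ)
      ⊆ {p : ℤ | ∃ A : Matrix (Fin (n+1)) (Fin (n+1)) ℤ,
        (∀ i j, A i j = 1 ∨ A i j = -1) ∧ A.permanent = p} := by
    intro p hp
    simp only [coe_image, Set.mem_image] at hp
    obtain ⟨S, _, rfl⟩ := hp
    exact ⟨AA J n S, AA_sign J n S, rfl⟩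
  have hcard : ((Finset.range J).powerset.image (fun S => (AA J n S).permanent)).card = 2 ^ J := by
    rw [Finset.card_image_of_injOn, card_powerset, card_range]
    intro S hS S' hS' h
    rw [mem_coe, mem_powerset] at hS hS'
    exact perm_inj J n hn hS hS' h
  rw [← hcard, ← Set.ncard_coe_finset]
  exact Set.ncard_le_ncard himg hfin

/-- There is a constant c > 1 such that, for all large n, the number of distinct values taken by the permanent of n×n matrices with entries ±1 is at least c^n. -/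
theorem result :
    ∃ c : ℝ, 1 < c ∧ ∃ N : ℕ, ∀ n : ℕ, N ≤ n →
      c ^ n ≤ ((Set.ncard {p : ℤ | ∃ A : Matrix (Fin n) (Fin n) ℤ,
        (∀ i j, A i j = 1 ∨ A i j = -1) ∧ A.permanent = p} : ℕ) : ℝ) := by
  refine ⟨(2:ℝ) ^ ((1:ℝ) / 80), Real.one_lt_rpow (by norm_num) (by norm_num), 80, fun N hN => ?_⟩
  obtain ⟨n, rfl⟩ : ∃ n, N = n + 1 := ⟨N - 1, by omega⟩
  have h1 := count ((n+1) / 40) n (by omega)
  have hc1 : (1:ℝ) ≤ (2:ℝ) ^ ((1:ℝ) / 80) := (Real.one_lt_rpow (by norm_num) (by norm_num)).le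
  have hc2 : ((2:ℝ) ^ ((1:ℝ) / 80)) ^ 80 = 2 := by
    rw [← Real.rpow_natCast, ← Real.rpow_mul (by norm_num)]; norm_num
  calc ((2:ℝ) ^ ((1:ℝ) / 80)) ^ (n+1) ≤ ((2:ℝ) ^ ((1:ℝ) / 80)) ^ (80 * ((n+1) / 40)) :=
        pow_le_pow_right₀ hc1 (by omega)
    _ = 2 ^ ((n+1) / 40) := by rw [pow_mul, hc2]
    _ ≤ _ := by exact_mod_cast h1

end Pool.Agent.S08907
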