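import Pool.Statements.S09181
import Pool.Agent.Helper437.WreathAll
-- import your own Pool.Agent.* helpers here

set_option autoImplicit false
open Classical
open Pool Pool.MP_632be6_co

namespace Pool.Agent.S09181

open Pool.Agent.X76.Wr in
/-- from colourings of `Sym2` to colourings of pairs -/
theorem ec_of {U : Type} (H : SimpleGraph U) (k : ℕ)
    (h : ∃ c : Sym2 U → Fin k, ∀ e ∈ H.edgeSet, ∀ f ∈ H.edgeSet,
      e ≠ f → (∃ v, v ∈ e ∧ v ∈ f) → c e ≠ c f) : EC k H := by
  obtain ⟨c, hc⟩ := h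
  refine ⟨fun x y => (c s(x, y)).val, ?_⟩
  intro u v huv
  refine ⟨by show (c s(u, v)).val = (c s(v, u)).val; rw [Sym2.eq_swap], (c s(u, v)).2, ?_⟩
  intro w huw hvw heq
  refine hc s(u, v) huv s(u, w) huw ?_ ⟨u, by simp, by simp⟩ (Fin.ext heq)
  intro h
  apply hvw
  rw [Sym2.eq_iff] at h
  rcases h with ⟨-, h⟩ | ⟨h1, h2⟩
  · exact h
  · exact h2.trans h1

open Pool.Agent.X76.Wr in
/-- from colourings of pairs to colourings of `Sym2` -/
theorem of_ec {U : Type} (H : SimpleGraph U) (k : ℕ) (hk : 0 < k) (h : EC k H) :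
    ∃ c : Sym2 U → Fin k, ∀ e ∈ H.edgeSet, ∀ f ∈ H.edgeSet,
      e ≠ f → (∃ v, v ∈ e ∧ v ∈ f) → c e ≠ c f := by
  obtain ⟨c, hc⟩ := h
  let d : U → U → Fin k := fun u v => if h : H.Adj u v then ⟨c u v, (hc u v h).2.1⟩ else ⟨0, hk⟩
  have hd : ∀ u v, d u v = d v u := by
    intro u v
    by_cases h : H.Adj u v
    · simp only [d, dif_pos h, dif_pos h.symm]
      exact Fin.ext (hc u v h).1
    · have h' : ¬ H.Adj v u := fun h' => h h'.symm
      simp only [d, dif_neg h, dif_neg h']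
  refine ⟨Sym2.lift ⟨d, hd⟩, ?_⟩
  intro e he f hf hne ⟨v, hve, hvf⟩ heq
  obtain ⟨a, rfl⟩ := Sym2.mem_iff_exists.1 hve
  obtain ⟨b, rfl⟩ := Sym2.mem_iff_exists.1 hvf
  rw [SimpleGraph.mem_edgeSet] at he hf
  simp only [Sym2.lift_mk, d, dif_pos he, dif_pos hf] at heq
  have hab : a ≠ b := by
    rintro rfl
    exact hne rfl
  exact (hc v a he).2.2 b hf hab (Fin.mk.inj_iff.1 heq)

/-- the maximum degree is a lower bound for the number of colours -/
theorem le_of {U : Type} [Fintype U] (H : SimpleGraph U) (k : ℕ)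
    (h : ∃ c : Sym2 U → Fin k, ∀ e ∈ H.edgeSet, ∀ f ∈ H.edgeSet,
      e ≠ f → (∃ v, v ∈ e ∧ v ∈ f) → c e ≠ c f) : H.maxDegree ≤ k := by
  obtain ⟨c, hc⟩ := h
  apply SimpleGraph.maxDegree_le_of_forall_degree_le
  intro v
  rw [← SimpleGraph.card_neighborFinset_eq_degree]
  have h1 : (H.neighborFinset v).card ≤ (Finset.univ : Finset (Fin k)).card := by
    apply Finset.card_le_card_of_injOn (fun w => c s(v, w)) (fun _ _ => Finset.mem_coe.2 (Finset.mem_univ _))
    intro a ha b hb heq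
    by_contra hab
    have ha' : H.Adj v a := by simpa using ha
    have hb' : H.Adj v b := by simpa using hb
    refine hc s(v, a) ha' s(v, b) hb' ?_ ⟨v, by simp, by simp⟩ heq
    intro h
    apply hab
    rw [Sym2.eq_iff] at h
    rcases h with ⟨-, h⟩ | ⟨h1, h2⟩
    · exact h
    · exact h2.trans h1
  simpa using h1

/-- For all finite simple graphs G (with an edge) and G', if the chromatic index of G equals its maximum degree, then the chromatic index of the wreath product G ρ G' equals its maximum degree. -/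
theorem result :
    ∀ (V W : Type) [Fintype V] [Fintype W] (G : SimpleGraph V) (G' : SimpleGraph W)
      (H : SimpleGraph (V × W)),
      H = SimpleGraph.fromRel (fun p q : V × W =>
            (p.1 = q.1 ∧ G'.Adj p.2 q.2) ∨
            (G.Adj p.1 q.1 ∧ ∃ φ : G' ≃g G', φ p.2 = q.2)) →
      G.edgeSet.Nonempty →
      sInf {k : ℕ | ∃ c : Sym2 V → Fin k, ∀ e ∈ G.edgeSet, ∀ f ∈ G.edgeSet,
              e ≠ f → (∃ v, v ∈ e ∧ v ∈ f) → c e ≠ c f} = G.maxDegree →
      sInf {k : ℕ | ∃ c : Sym2 (V × W) → Fin k, ∀ e ∈ H.edgeSet, ∀ f ∈ H.edgeSet,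
              e ≠ f → (∃ v, v ∈ e ∧ v ∈ f) → c e ≠ c f} = H.maxDegree := by
  intro V W _ _ G G' H hH hne hG
  have hW : H = Pool.Agent.X76.Wr.wreath G G' := by
    rw [hH]
    ext p q
    rw [SimpleGraph.fromRel_adj]
    constructor
    · rintro ⟨-, h | h⟩
      · exact h
      · exact (show (Pool.Agent.X76.Wr.wreath G G').Adj q p from h).symm
    · intro h
      exact ⟨(Pool.Agent.X76.Wr.wreath G G').ne_of_adj h, Or.inl h⟩
  have hpos : 1 ≤ G.maxDegree := by
    obtain ⟨e, he⟩ := hne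
    induction e using Sym2.ind with
    | _ x y =>
      have hxy : G.Adj x y := he
      exact ((G.degree_pos_iff_exists_adj x).2 ⟨y, hxy⟩).trans_le (G.degree_le_maxDegree x)
  have hGne : {k : ℕ | ∃ c : Sym2 V → Fin k, ∀ e ∈ G.edgeSet, ∀ f ∈ G.edgeSet,
              e ≠ f → (∃ v, v ∈ e ∧ v ∈ f) → c e ≠ c f}.Nonempty := by
    by_contra hempty
    rw [Set.not_nonempty_iff_eq_empty] at hempty
    rw [hempty, Nat.sInf_empty] at hG
    omega
  have hmem := Nat.sInf_mem hGne
  rw [hG] at hmem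
  have hEC := ec_of G G.maxDegree hmem
  rcases isEmpty_or_nonempty W with hWe | hWn
  · -- no vertices
    have hmax : H.maxDegree = 0 := by
      have : IsEmpty (V × W) := inferInstance
      exact SimpleGraph.maxDegree_of_subsingleton _
    rw [hmax]
    apply Nat.eq_zero_of_le_zero
    apply Nat.sInf_le
    have : IsEmpty (V × W) := inferInstance
    have hs : IsEmpty (Sym2 (V × W)) := inferInstance
    exact ⟨fun e => (hs.false e).elim, fun e => (hs.false e).elim⟩
  · obtain ⟨w0⟩ := hWn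
    obtain ⟨x0, y0, hxy0⟩ : ∃ x y, G.Adj x y := by
      obtain ⟨e, he⟩ := hne
      induction e using Sym2.ind with
      | _ x y => exact ⟨x, y, he⟩
    subst hW
    have hb := Pool.Agent.X76.Wr.max_bound G G' x0
    have hmain := Pool.Agent.Helper437.Wr.wreath_EC' G G' G.maxDegree
      (Pool.Agent.X76.Wr.wreath G G').maxDegree hpos hEC hb
    have hk : 0 < (Pool.Agent.X76.Wr.wreath G G').maxDegree := by
      have h1 := hb w0
      have h2 := Pool.Agent.Helper437.Wr.orb_pos G' w0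
      have h3 : 0 < G.maxDegree * Pool.Agent.X76.Wr.orb G' w0 := Nat.mul_pos hpos h2
      omega
    have h4 := of_ec _ _ hk hmain
    apply le_antisymm
    · exact Nat.sInf_le h4
    · apply le_of
      exact Nat.sInf_mem (s := {k : ℕ | ∃ c : Sym2 (V × W) → Fin k,
        ∀ e ∈ (Pool.Agent.X76.Wr.wreath G G').edgeSet, ∀ f ∈ (Pool.Agent.X76.Wr.wreath G G').edgeSet,
              e ≠ f → (∃ v, v ∈ e ∧ v ∈ f) → c e ≠ c f}) ⟨_, h4⟩

end Pool.Agent.S09181
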