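import Pool.Statements.S09186
import Pool.Agent.Helper490_Sph.TopC
import Pool.Agent.Helper490_Sph.Rand

set_option autoImplicit false
open Pool Pool.MP_634482_co

namespace Pool.Agent.S09186

/-- The negation of the preceding statement: For k≥2, n>k: every k-graph on n vertices with no isolated vertex, where each (k-1)-set lying in some edge lies in at least n/2 edges, has a sub-family of edges covering all vertices whose realized complex is homeomorphic to the (k-1)-sphere. -/
theorem result :
    ¬ (∀ (k n : ℕ), 2 ≤ k → k < n →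
      ∀ G : Finset (Finset (Fin n)),
        (∀ e ∈ G, e.card = k) →
        (∀ v : Fin n, ∃ e ∈ G, v ∈ e) →
        (∀ S : Finset (Fin n), S.card = k - 1 → (∃ e ∈ G, S ⊆ e) →
            n ≤ 2 * (G.filter (fun e => S ⊆ e)).card) →
        ∃ H : Finset (Finset (Fin n)), H ⊆ G ∧
          (∀ v : Fin n, ∃ e ∈ H, v ∈ e) ∧
          Nonempty
            (↥(⋃ e ∈ H, convexHull ℝ
                ((fun v : Fin n => EuclideanSpace.single v (1 : ℝ)) '' (↑e : Set (Fin n))))
              ≃ₜ ↥(Metric.sphere (0 : EuclideanSpace ℝ (Fin k)) 1))) := by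
  intro hall
  obtain ⟨k, n, hk, hkn, G, hG1, hG2, hG3⟩ := Pool.Agent.Helper490_Sph.counterexample
  obtain ⟨H, hHG, hcov, ⟨φ⟩⟩ := hall k n hk hkn G hG1
    (by
      -- no isolated vertices
      intro v
      obtain ⟨S, hvS, hS⟩ : ∃ S : Finset (Fin n), v ∈ S ∧ S.card + 1 = k := by
        obtain ⟨S, hS1, hS2, hS3⟩ := Finset.exists_subsuperset_card_eq
          (Finset.subset_univ ({v} : Finset (Fin n)))
          (n := k - 1) (by rw [Finset.card_singleton]; omega)
          (by rw [Finset.card_univ, Fintype.card_fin]; omega)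
        exact ⟨S, hS1 (Finset.mem_singleton_self v), by omega⟩
      have h1 := hG2 S hS
      have h2 : (G.filter (fun e => S ⊆ e)).Nonempty := by
        apply Finset.card_pos.1
        omega
      obtain ⟨e, he⟩ := h2
      rw [Finset.mem_filter] at he
      exact ⟨e, he.1, he.2 hvS⟩)
    (by
      intro S hS _
      exact hG2 S (by omega))
  obtain ⟨d, rfl⟩ : ∃ d, k = d + 1 := ⟨k - 1, by omega⟩
  obtain ⟨h1, h2, h3⟩ := Pool.Agent.Helper490_Sph.sphere_cpm (n := n) (d := d) (by omega) H
    (fun e he => hG1 e (hHG he)) φ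
  refine hG3 H hHG hcov ⟨fun e he => hG1 e (hHG he), h1, ?_, ?_⟩
  · intro S hS hSe
    exact h2 S (by omega) hSe
  · intro Z hZ hZne hZe
    exact h3 Z hZ hZne (fun S hS => hZe S (by omega))

end Pool.Agent.S09186
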