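import Pool.Statements.S09354

set_option autoImplicit false
open Pool Pool.MP_6d0115_co

namespace Pool.Agent.S09354

open Finset Polynomial

/-- The D'Arcais polynomials, defined by the recursion. -/
noncomputable def dP : ℕ → Polynomial ℚ
  | 0 => 1
  | (n + 1) => C ((1 : ℚ) / (n + 1)) * (X * ∑ k : Fin (n + 1),
      ((ArithmeticFunction.sigma 1 (k.1 + 1) : ℕ) : Polynomial ℚ) * dP (n - k.1))

theorem dP_zero : dP 0 = 1 := by rw [dP]

theorem dP_rec (n : ℕ) (hn : 1 ≤ n) :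
    (n : Polynomial ℚ) * dP n =
      Polynomial.X * ∑ k ∈ Finset.Icc 1 n,
        ((ArithmeticFunction.sigma 1 k : ℕ) : Polynomial ℚ) * dP (n - k) := by
  obtain ⟨m, rfl⟩ : ∃ m, n = m + 1 := ⟨n - 1, by omega⟩
  have h1 : ∑ k ∈ Finset.Icc 1 (m + 1),
        ((ArithmeticFunction.sigma 1 k : ℕ) : Polynomial ℚ) * dP (m + 1 - k)
      = ∑ k : Fin (m + 1), ((ArithmeticFunction.sigma 1 (k.1 + 1) : ℕ) : Polynomial ℚ)
        * dP (m - k.1) := by
    rw [Fin.sum_univ_eq_sum_range (fun k => ((ArithmeticFunction.sigma 1 (k + 1) : ℕ) : Polynomial ℚ)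
        * dP (m - k)) (m + 1)]
    rw [← Finset.Ico_add_one_right_eq_Icc, Finset.sum_Ico_eq_sum_range]
    refine Finset.sum_congr (by simp) ?_
    intro k _
    rw [show 1 + k = k + 1 by ring, show m + 1 - (k + 1) = m - k by omega]
  rw [h1]
  conv_lhs => rw [dP]
  rw [← mul_assoc]
  have h2 : ((m + 1 : ℕ) : Polynomial ℚ) * C ((1 : ℚ) / (m + 1)) = 1 := by
    rw [← Polynomial.C_eq_natCast, ← C_mul]
    have : (((m + 1 : ℕ) : ℚ)) * (1 / (m + 1)) = 1 := by
      push_cast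
      field_simp
    rw [this, C_1]
  rw [h2, one_mul]

/-- coefficients -/
noncomputable def c (n k : ℕ) : ℚ := (dP n).coeff k

theorem c_zero_zero : c 0 0 = 1 := by simp [c, dP_zero]

theorem c_zero_succ (k : ℕ) : c 0 (k + 1) = 0 := by
  simp [c, dP_zero, Polynomial.coeff_one]

theorem c_rec (n k : ℕ) (hn : 1 ≤ n) : (n : ℚ) * c n (k + 1) =
    ∑ j ∈ Finset.Icc 1 n, ((ArithmeticFunction.sigma 1 j : ℕ) : ℚ) * c (n - j) k := by
  have h := congrArg (fun p => p.coeff (k + 1)) (dP_rec n hn)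
  simp only [Polynomial.coeff_X_mul, Polynomial.finsetSum_coeff] at h
  rw [← Polynomial.C_eq_natCast, Polynomial.coeff_C_mul] at h
  unfold c
  rw [h]
  refine Finset.sum_congr rfl ?_
  intro j _
  rw [← Polynomial.C_eq_natCast, Polynomial.coeff_C_mul]

theorem c_succ_zero (n : ℕ) (hn : 1 ≤ n) : c n 0 = 0 := by
  have h := congrArg (fun p => p.coeff 0) (dP_rec n hn)
  simp only [Polynomial.coeff_X_mul_zero] at h
  rw [← Polynomial.C_eq_natCast, Polynomial.coeff_C_mul] at h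
  have hn' : (n : ℚ) ≠ 0 := by
    have : n ≠ 0 := by omega
    exact_mod_cast this
  rcases mul_eq_zero.1 h with h1 | h1
  · exact absurd h1 hn'
  · exact h1

/-- `σ(n)/n` -/
noncomputable def s (n : ℕ) : ℚ := ((ArithmeticFunction.sigma 1 n : ℕ) : ℚ) / n

theorem s_mul (n : ℕ) : (n : ℚ) * s n = ((ArithmeticFunction.sigma 1 n : ℕ) : ℚ) := by
  unfold s
  rcases Nat.eq_zero_or_pos n with rfl | h
  · simp
  · field_simp

theorem s_nonneg (n : ℕ) : 0 ≤ s n := by unfold s; positivity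

theorem c_one (n : ℕ) : c n 1 = s n := by
  rcases Nat.eq_zero_or_pos n with rfl | h
  · rw [show (1 : ℕ) = 0 + 1 from rfl, c_zero_succ]; simp [s]
  · have h1 := c_rec n 0 h
    rw [Finset.sum_eq_single n] at h1
    · rw [Nat.sub_self, c_zero_zero, mul_one] at h1
      unfold s
      have hn' : (n : ℚ) ≠ 0 := by
        have : n ≠ 0 := by omega
        exact_mod_cast this
      field_simp
      linarith
    · intro j hj hjn
      rw [Finset.mem_Icc] at hj
      rw [c_succ_zero (n - j) (by omega), mul_zero]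
    · intro hh
      exact absurd (Finset.mem_Icc.2 ⟨h, le_refl n⟩) hh

theorem sigma_ge (n : ℕ) : n ≤ ArithmeticFunction.sigma 1 n := by
  rcases Nat.eq_zero_or_pos n with rfl | h
  · simp
  · rw [ArithmeticFunction.sigma_one_apply]
    exact Finset.single_le_sum (f := fun d => d) (fun _ _ => Nat.zero_le _)
      (Nat.mem_divisors_self n (by omega))

theorem s_ge_one (n : ℕ) (h : 1 ≤ n) : 1 ≤ s n := by
  unfold s
  have hn : (0 : ℚ) < n := by exact_mod_cast h
  rw [le_div_iff₀ hn, one_mul]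
  exact_mod_cast sigma_ge n

/-- lower bound for the coefficient of `x^2` -/
theorem c_two_ge (n : ℕ) : ((n : ℚ) - 1) / 2 ≤ c n 2 := by
  rcases Nat.eq_zero_or_pos n with rfl | h
  · rw [show (2 : ℕ) = 1 + 1 from rfl, c_zero_succ]; norm_num
  · have h1 := c_rec n 1 h
    have h2 : ∑ j ∈ Finset.Ico 1 n, (j : ℚ) ≤
        ∑ j ∈ Finset.Icc 1 n, ((ArithmeticFunction.sigma 1 j : ℕ) : ℚ) * c (n - j) 1 := by
      refine le_trans ?_ (Finset.sum_le_sum_of_subset_of_nonneg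
        (s := Finset.Ico 1 n) (t := Finset.Icc 1 n)
        (fun x hx => Finset.mem_Icc.2 ⟨(Finset.mem_Ico.1 hx).1, (Finset.mem_Ico.1 hx).2.le⟩)
        (fun j _ _ => by rw [c_one]; exact mul_nonneg (by positivity) (s_nonneg _)))
      refine Finset.sum_le_sum ?_
      intro j hj
      rw [Finset.mem_Ico] at hj
      rw [c_one]
      have e1 := s_ge_one (n - j) (by omega)
      have e2 : (j : ℚ) ≤ ((ArithmeticFunction.sigma 1 j : ℕ) : ℚ) := by
        exact_mod_cast sigma_ge j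
      have e3 : (0 : ℚ) ≤ j := by positivity
      nlinarith
    have h3 : ∑ j ∈ Finset.Ico 1 n, (j : ℚ) = (n : ℚ) * (n - 1) / 2 := by
      have : ∀ m : ℕ, ∑ j ∈ Finset.range (m), (j : ℚ) = (m : ℚ) * (m - 1) / 2 := by
        intro m
        induction m with
        | zero => simp
        | succ m ih => rw [Finset.sum_range_succ, ih]; push_cast; ring
      rw [Finset.sum_Ico_eq_sub _ h, this n, this 1]
      simp
    rw [h3] at h2
    have hn : (0 : ℚ) < n := by exact_mod_cast h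
    have h4 : (n : ℚ) * (((n : ℚ) - 1) / 2) ≤ n * c n 2 := by
      have : (n : ℚ) * c n (1 + 1) = n * c n 2 := rfl
      rw [← this, h1]
      linarith
    exact le_of_mul_le_mul_left h4 hn

theorem c_two_nonneg (n : ℕ) : 0 ≤ c n 2 := by
  rcases Nat.eq_zero_or_pos n with rfl | h
  · rw [show (2 : ℕ) = 1 + 1 from rfl, c_zero_succ]
  · have h1 := c_two_ge n
    have : (1 : ℚ) ≤ n := by exact_mod_cast h
    linarith

theorem c_three_ge (n : ℕ) (h : 1 ≤ n) : ((n : ℚ) - 1) * (n - 2) / 12 ≤ c n 3 := by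
  have h1 := c_rec n 2 h
  have h2 : ∑ j ∈ Finset.range n, (j : ℚ) * (((n : ℚ) - 1 - j) / 2) ≤
      ∑ j ∈ Finset.Icc 1 n, ((ArithmeticFunction.sigma 1 j : ℕ) : ℚ) * c (n - j) 2 := by
    have e0 : ∑ j ∈ Finset.range n, (j : ℚ) * (((n : ℚ) - 1 - j) / 2)
        = ∑ j ∈ Finset.Ico 1 n, (j : ℚ) * (((n : ℚ) - 1 - j) / 2) := by
      rw [Finset.range_eq_Ico, Finset.sum_eq_sum_Ico_succ_bot (by omega)]
      simp
    rw [e0]
    refine le_trans ?_ (Finset.sum_le_sum_of_subset_of_nonneg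
      (s := Finset.Ico 1 n) (t := Finset.Icc 1 n)
      (fun x hx => Finset.mem_Icc.2 ⟨(Finset.mem_Ico.1 hx).1, (Finset.mem_Ico.1 hx).2.le⟩)
      (fun j _ _ => mul_nonneg (by positivity) (c_two_nonneg _)))
    refine Finset.sum_le_sum ?_
    intro j hj
    rw [Finset.mem_Ico] at hj
    have e1 := c_two_ge (n - j)
    have e1' : (((n - j : ℕ) : ℚ)) = (n : ℚ) - j := by
      rw [Nat.cast_sub (by omega)]
    rw [e1'] at e1
    have e2 : (j : ℚ) ≤ ((ArithmeticFunction.sigma 1 j : ℕ) : ℚ) := by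
      exact_mod_cast sigma_ge j
    have e3 : (0 : ℚ) ≤ j := by positivity
    have e4 : (0 : ℚ) ≤ (n : ℚ) - 1 - j := by
      have : j + 1 ≤ n := by omega
      have : ((j : ℚ) + 1) ≤ n := by exact_mod_cast this
      linarith
    calc (j : ℚ) * (((n : ℚ) - 1 - j) / 2) ≤ ((ArithmeticFunction.sigma 1 j : ℕ) : ℚ)
          * (((n : ℚ) - 1 - j) / 2) := by
          apply mul_le_mul_of_nonneg_right e2; linarith
      _ ≤ _ := by
          apply mul_le_mul_of_nonneg_left _ (by positivity)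
          linarith
  have h3 : ∀ (m : ℕ) (N : ℚ), ∑ j ∈ Finset.range m, (j : ℚ) * ((N - 1 - j) / 2)
      = (N - 1) * (m * (m - 1)) / 4 - (m - 1) * m * (2 * m - 1) / 12 := by
    intro m N
    induction m with
    | zero => simp
    | succ m ih => rw [Finset.sum_range_succ, ih]; push_cast; ring
  rw [h3] at h2
  have hn : (0 : ℚ) < n := by exact_mod_cast h
  have h4 : (n : ℚ) * (((n : ℚ) - 1) * (n - 2) / 12) ≤ n * c n 3 := by
    have : (n : ℚ) * c n (2 + 1) = n * c n 3 := rfl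
    rw [← this, h1]
    refine le_trans (le_of_eq ?_) h2
    ring
  exact le_of_mul_le_mul_left h4 hn

theorem c_two_le (n : ℕ) (h : 1 ≤ n) : c n 2 ≤ ∑ j ∈ Finset.Icc 1 n, s j ^ 2 := by
  have h1 := c_rec n 1 h
  have hn : (0 : ℚ) < n := by exact_mod_cast h
  have h2 : ∑ j ∈ Finset.Icc 1 n, ((ArithmeticFunction.sigma 1 j : ℕ) : ℚ) * c (n - j) 1
      ≤ ∑ j ∈ Finset.Icc 1 n, (n : ℚ) * ((s j ^ 2 + s (n - j) ^ 2) / 2) := by
    refine Finset.sum_le_sum ?_
    intro j hj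
    rw [Finset.mem_Icc] at hj
    rw [c_one, ← s_mul]
    have e1 : (j : ℚ) ≤ n := by exact_mod_cast hj.2
    have e2 := s_nonneg j
    have e3 := s_nonneg (n - j)
    have e4 : (0 : ℚ) ≤ j := by positivity
    have e5 : s j * s (n - j) ≤ (s j ^ 2 + s (n - j) ^ 2) / 2 := by
      nlinarith [sq_nonneg (s j - s (n - j))]
    calc (j : ℚ) * s j * s (n - j) = j * (s j * s (n - j)) := by ring
      _ ≤ n * (s j * s (n - j)) := by
          apply mul_le_mul_of_nonneg_right e1 (mul_nonneg e2 e3)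
      _ ≤ _ := by apply mul_le_mul_of_nonneg_left e5 hn.le
  have h3 : ∑ j ∈ Finset.Icc 1 n, s (n - j) ^ 2 ≤ ∑ j ∈ Finset.Icc 1 n, s j ^ 2 := by
    have e1 : ∑ j ∈ Finset.Icc 1 n, s (n - j) ^ 2 = ∑ j ∈ Finset.range n, s j ^ 2 := by
      rw [← Finset.Ico_add_one_right_eq_Icc, Finset.sum_Ico_eq_sum_range]
      rw [← Finset.sum_range_reflect (fun j => s j ^ 2) n]
      refine Finset.sum_congr (by simp) ?_
      intro j _
      rw [show n - (1 + j) = n - 1 - j by omega]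
    rw [e1]
    have e2 : ∑ j ∈ Finset.range n, s j ^ 2 = ∑ j ∈ Finset.Ico 1 n, s j ^ 2 := by
      rw [Finset.range_eq_Ico, Finset.sum_eq_sum_Ico_succ_bot (by omega)]
      simp [s]
    rw [e2]
    refine Finset.sum_le_sum_of_subset_of_nonneg ?_ ?_
    · intro x hx
      rw [Finset.mem_Ico] at hx
      exact Finset.mem_Icc.2 ⟨hx.1, hx.2.le⟩
    · intro j _ _
      positivity
  have h4 : (n : ℚ) * c n 2 ≤ n * ∑ j ∈ Finset.Icc 1 n, s j ^ 2 := by
    have : (n : ℚ) * c n (1 + 1) = n * c n 2 := rfl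
    rw [← this, h1]
    refine h2.trans ?_
    rw [← Finset.mul_sum]
    apply mul_le_mul_of_nonneg_left _ hn.le
    rw [← Finset.sum_div, Finset.sum_add_distrib]
    linarith
  exact le_of_mul_le_mul_left h4 hn

/-- real form -/
theorem s_real (n : ℕ) : ((s n : ℚ) : ℝ) = ∑ d ∈ n.divisors, (1 : ℝ) / d := by
  rcases Nat.eq_zero_or_pos n with rfl | h
  · simp [s]
  · unfold s
    rw [ArithmeticFunction.sigma_one_apply]
    rw [← Nat.sum_div_divisors n (fun d => d)]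
    push_cast
    rw [Finset.sum_div]
    refine Finset.sum_congr rfl ?_
    intro d hd
    have hd' := Nat.dvd_of_mem_divisors hd
    have hd0 : d ≠ 0 := by
      rintro rfl
      have := Nat.eq_zero_of_zero_dvd hd'
      omega
    rw [Nat.cast_div hd' (by exact_mod_cast hd0)]
    have hn0 : (n : ℝ) ≠ 0 := by
      have : n ≠ 0 := by omega
      exact_mod_cast this
    have hdr : (d : ℝ) ≠ 0 := by exact_mod_cast hd0
    field_simp

theorem sum_three_halves (N : ℕ) : ∑ d ∈ Finset.Icc 1 (N + 1), (1 : ℝ) / (d * Real.sqrt d)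
    ≤ 3 - 2 / Real.sqrt (N + 1) := by
  induction N with
  | zero => simp; norm_num
  | succ N ih =>
    rw [Finset.sum_Icc_succ_top (by omega)]
    push_cast
    have ha : 0 < Real.sqrt ((N : ℝ) + 1) := Real.sqrt_pos.2 (by positivity)
    have hb : 0 < Real.sqrt ((N : ℝ) + 1 + 1) := Real.sqrt_pos.2 (by positivity)
    have ha2 : Real.sqrt ((N : ℝ) + 1) ^ 2 = (N : ℝ) + 1 := Real.sq_sqrt (by positivity)
    have hb2 : Real.sqrt ((N : ℝ) + 1 + 1) ^ 2 = (N : ℝ) + 1 + 1 := Real.sq_sqrt (by positivity)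
    have hab : Real.sqrt ((N : ℝ) + 1) ≤ Real.sqrt ((N : ℝ) + 1 + 1) :=
      Real.sqrt_le_sqrt (by linarith)
    set a := Real.sqrt ((N : ℝ) + 1) with hadef
    set b := Real.sqrt ((N : ℝ) + 1 + 1) with hbdef
    have key : 1 / (((N : ℝ) + 1 + 1) * b) ≤ 2 / a - 2 / b := by
      rw [← hb2]
      have e1 : 2 / a - 2 / b = 2 * (b - a) / (a * b) := by field_simp
      rw [e1, div_le_div_iff₀ (by positivity) (by positivity)]
      have e2 : (b - a) * (b + a) = 1 := by nlinarith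
      have e3 : 1 * (a * b) * (b + a) ≤ 2 * (b - a) * (b ^ 2 * b) * (b + a) := by
        have : 2 * (b - a) * (b ^ 2 * b) * (b + a) = 2 * (b ^ 2 * b) * ((b - a) * (b + a)) := by ring
        rw [this, e2]
        nlinarith [mul_pos ha hb, mul_pos hb hb, mul_nonneg (mul_pos hb hb).le (sub_nonneg.2 hab),
          mul_nonneg (mul_pos ha hb).le (sub_nonneg.2 hab)]
      exact le_of_mul_le_mul_right e3 (by positivity)
    linarith [ih, key]

theorem sum_three_halves' (N : ℕ) : ∑ d ∈ Finset.Icc 1 N, (1 : ℝ) / (d * Real.sqrt d) ≤ 3 := by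
  rcases Nat.eq_zero_or_pos N with rfl | h
  · simp
  · obtain ⟨m, rfl⟩ : ∃ m, N = m + 1 := ⟨N - 1, by omega⟩
    have := sum_three_halves m
    have h2 : (0 : ℝ) ≤ 2 / Real.sqrt (m + 1) := by positivity
    linarith

theorem sum_s_sq (N : ℕ) : ∑ j ∈ Finset.Icc 1 N, (((s j : ℚ) : ℝ)) ^ 2 ≤ 9 * N := by
  have h1 : ∀ j ∈ Finset.Icc 1 N, (((s j : ℚ) : ℝ)) ^ 2 =
      ∑ d ∈ Finset.Icc 1 N, ∑ e ∈ Finset.Icc 1 N,
        (if d ∣ j ∧ e ∣ j then (1 : ℝ) / d * (1 / e) else 0) := by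
    intro j hj
    rw [Finset.mem_Icc] at hj
    have e1 : ((s j : ℚ) : ℝ) = ∑ d ∈ Finset.Icc 1 N, if d ∣ j then (1 : ℝ) / d else 0 := by
      rw [s_real, ← Finset.sum_filter]
      refine Finset.sum_congr ?_ (fun _ _ => rfl)
      ext d
      rw [Nat.mem_divisors, Finset.mem_filter, Finset.mem_Icc]
      constructor
      · rintro ⟨h1, h2⟩
        exact ⟨⟨Nat.pos_of_dvd_of_pos h1 (by omega), (Nat.le_of_dvd (by omega) h1).trans hj.2⟩, h1⟩
      · rintro ⟨_, h2⟩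
        exact ⟨h2, by omega⟩
    rw [e1, sq, Finset.sum_mul_sum]
    refine Finset.sum_congr rfl ?_
    intro d _
    refine Finset.sum_congr rfl ?_
    intro e _
    by_cases hd : d ∣ j
    · by_cases he : e ∣ j
      · simp [hd, he]
      · simp [he]
    · simp [hd]
  rw [Finset.sum_congr rfl h1, Finset.sum_comm]
  have h2 : ∀ d ∈ Finset.Icc 1 N, ∑ j ∈ Finset.Icc 1 N, ∑ e ∈ Finset.Icc 1 N,
        (if d ∣ j ∧ e ∣ j then (1 : ℝ) / d * (1 / e) else 0)
      ≤ ∑ e ∈ Finset.Icc 1 N, (N : ℝ) * ((1 / (d * Real.sqrt d)) * (1 / (e * Real.sqrt e))) := by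
    intro d hd
    rw [Finset.mem_Icc] at hd
    rw [Finset.sum_comm]
    refine Finset.sum_le_sum ?_
    intro e he
    rw [Finset.mem_Icc] at he
    have hdr : (0 : ℝ) < d := by exact_mod_cast (show 0 < d by omega)
    have her : (0 : ℝ) < e := by exact_mod_cast (show 0 < e by omega)
    have e1 : ∑ j ∈ Finset.Icc 1 N, (if d ∣ j ∧ e ∣ j then (1 : ℝ) / d * (1 / e) else 0)
        = ((N / Nat.lcm d e : ℕ) : ℝ) * ((1 : ℝ) / d * (1 / e)) := by
      rw [← Finset.sum_filter, Finset.sum_const, nsmul_eq_mul]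
      congr 2
      have : Finset.filter (fun j => d ∣ j ∧ e ∣ j) (Finset.Icc 1 N)
          = Finset.filter (fun j => Nat.lcm d e ∣ j) (Finset.Ioc 0 N) := by
        ext j
        rw [Finset.mem_filter, Finset.mem_filter, Finset.mem_Icc, Finset.mem_Ioc, Nat.lcm_dvd_iff]
        constructor
        · rintro ⟨⟨h1, h2⟩, h3⟩; exact ⟨⟨by omega, h2⟩, h3⟩
        · rintro ⟨⟨h1, h2⟩, h3⟩; exact ⟨⟨by omega, h2⟩, h3⟩
      rw [this, Nat.Ioc_filter_dvd_card_eq_div]
    rw [e1]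
    have hl : 0 < Nat.lcm d e := Nat.lcm_pos (by omega) (by omega)
    have hlr : (0 : ℝ) < (Nat.lcm d e : ℕ) := by exact_mod_cast hl
    have e2 : ((N / Nat.lcm d e : ℕ) : ℝ) ≤ (N : ℝ) / (Nat.lcm d e : ℕ) := Nat.cast_div_le
    have e3 : Real.sqrt d * Real.sqrt e ≤ (Nat.lcm d e : ℕ) := by
      have g1 : (d : ℝ) ≤ (Nat.lcm d e : ℕ) := by
        exact_mod_cast Nat.le_of_dvd hl (Nat.dvd_lcm_left d e)
      have g2 : (e : ℝ) ≤ (Nat.lcm d e : ℕ) := by
        exact_mod_cast Nat.le_of_dvd hl (Nat.dvd_lcm_right d e)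
      have g3 := Real.sq_sqrt hdr.le
      have g4 := Real.sq_sqrt her.le
      nlinarith [sq_nonneg (Real.sqrt d - Real.sqrt e)]
    have hsd : 0 < Real.sqrt d := Real.sqrt_pos.2 hdr
    have hse : 0 < Real.sqrt e := Real.sqrt_pos.2 her
    calc ((N / Nat.lcm d e : ℕ) : ℝ) * ((1 : ℝ) / d * (1 / e))
        ≤ ((N : ℝ) / (Nat.lcm d e : ℕ)) * ((1 : ℝ) / d * (1 / e)) := by
          apply mul_le_mul_of_nonneg_right e2; positivity
      _ ≤ ((N : ℝ) / (Real.sqrt d * Real.sqrt e)) * ((1 : ℝ) / d * (1 / e)) := by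
          apply mul_le_mul_of_nonneg_right _ (by positivity)
          apply div_le_div_of_nonneg_left (by positivity) (by positivity) e3
      _ = _ := by field_simp
  refine (Finset.sum_le_sum h2).trans ?_
  have h3 : ∑ d ∈ Finset.Icc 1 N, ∑ e ∈ Finset.Icc 1 N,
      (N : ℝ) * ((1 / (d * Real.sqrt d)) * (1 / (e * Real.sqrt e)))
      = N * ((∑ d ∈ Finset.Icc 1 N, (1 : ℝ) / (d * Real.sqrt d)) *
        (∑ d ∈ Finset.Icc 1 N, (1 : ℝ) / (d * Real.sqrt d))) := by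
    rw [Finset.sum_mul_sum, Finset.mul_sum]
    refine Finset.sum_congr rfl ?_
    intro d _
    rw [Finset.mul_sum]
  rw [h3]
  have h4 := sum_three_halves' N
  have h5 : 0 ≤ ∑ d ∈ Finset.Icc 1 N, (1 : ℝ) / (d * Real.sqrt d) :=
    Finset.sum_nonneg (fun _ _ => by positivity)
  have h6 : (∑ d ∈ Finset.Icc 1 N, (1 : ℝ) / (d * Real.sqrt d)) *
        (∑ d ∈ Finset.Icc 1 N, (1 : ℝ) / (d * Real.sqrt d)) ≤ 9 := by nlinarith
  have hN : (0 : ℝ) ≤ N := by positivity
  nlinarith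

theorem exists_big (B : ℝ) : ∃ n : ℕ, 4 ≤ n ∧ B ≤ ((s n : ℚ) : ℝ) := by
  have h := Real.tendsto_sum_range_one_div_nat_succ_atTop
  obtain ⟨M, hM4, hM⟩ := ((Filter.eventually_ge_atTop 4).and
    (h.eventually_ge_atTop B)).exists
  refine ⟨M.factorial, ?_, ?_⟩
  · exact hM4.trans (Nat.self_le_factorial M)
  · refine hM.trans ?_
    rw [s_real]
    have e1 : ∑ i ∈ Finset.range M, (1 : ℝ) / ((i : ℝ) + 1) = ∑ d ∈ Finset.Icc 1 M, (1 : ℝ) / d := by
      rw [← Finset.Ico_add_one_right_eq_Icc, Finset.sum_Ico_eq_sum_range]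
      refine Finset.sum_congr (by simp) ?_
      intro i _
      push_cast
      rw [add_comm]
    rw [e1]
    refine Finset.sum_le_sum_of_subset_of_nonneg ?_ ?_
    · intro d hd
      rw [Finset.mem_Icc] at hd
      rw [Nat.mem_divisors]
      exact ⟨Nat.dvd_factorial (by omega) hd.2, Nat.factorial_ne_zero M⟩
    · intro d _ _
      positivity

/-- The negation of the preceding statement: If P_0=1 and n·P_n = x·Σ_{k=1}^n σ(k)P_{n-k} (the D'Arcais polynomials), then for all n and k≥1 the coefficients of P_n satisfy a_{k-1}a_{k+1} ≤ a_k². -/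
theorem result :
    ¬ (∀ P : ℕ → Polynomial ℚ, P 0 = 1 →
      (∀ n : ℕ, 1 ≤ n →
        (n : Polynomial ℚ) * P n =
          Polynomial.X * ∑ k ∈ Finset.Icc 1 n,
            ((ArithmeticFunction.sigma 1 k : ℕ) : Polynomial ℚ) * P (n - k)) →
      ∀ n k : ℕ, 1 ≤ k →
        (P n).coeff (k - 1) * (P n).coeff (k + 1) ≤ (P n).coeff k ^ 2) := by
  intro H
  obtain ⟨n, hn4, hs⟩ := exists_big 3000
  have h1 := H dP dP_zero dP_rec n 2 (by norm_num)
  have h2 : c n 1 * c n 3 ≤ c n 2 ^ 2 := h1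
  rw [c_one] at h2
  have h3 := c_three_ge n (by omega)
  have h4 := c_two_le n (by omega)
  have h5 := sum_s_sq n
  have h6 : ((c n 2 : ℚ) : ℝ) ≤ 9 * n := by
    refine le_trans ?_ h5
    have : ((c n 2 : ℚ) : ℝ) ≤ ((∑ j ∈ Finset.Icc 1 n, s j ^ 2 : ℚ) : ℝ) := by exact_mod_cast h4
    push_cast at this
    exact this
  have h7 : (0 : ℝ) ≤ ((c n 2 : ℚ) : ℝ) := by exact_mod_cast c_two_nonneg n
  have h8 : (((n : ℝ) - 1) * (n - 2) / 12) ≤ ((c n 3 : ℚ) : ℝ) := by
    have : ((((n : ℚ) - 1) * (n - 2) / 12 : ℚ) : ℝ) ≤ ((c n 3 : ℚ) : ℝ) := by exact_mod_cast h3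
    push_cast at this
    exact this
  have h9 : ((s n : ℚ) : ℝ) * ((c n 3 : ℚ) : ℝ) ≤ ((c n 2 : ℚ) : ℝ) ^ 2 := by exact_mod_cast h2
  have hn : (4 : ℝ) ≤ n := by exact_mod_cast hn4
  have h10 : (n : ℝ) ^ 2 * (3 / 8) ≤ ((n : ℝ) - 1) * (n - 2) := by nlinarith
  have h11 : (3000 : ℝ) * ((n : ℝ) ^ 2 * (3 / 8) / 12) ≤ ((s n : ℚ) : ℝ) * ((c n 3 : ℚ) : ℝ) := by
    apply mul_le_mul hs _ (by positivity) (by linarith)
    linarith
  have h12 : ((c n 2 : ℚ) : ℝ) ^ 2 ≤ (9 * n) ^ 2 := by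
    apply pow_le_pow_left₀ h7 h6
  nlinarith

end Pool.Agent.S09354
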