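import Pool.Statements.S09391
import Pool.Agent.Helper298_KF.Geo
import Pool.Agent.Helper298_KF.Central

set_option autoImplicit false
open Pool Pool.MP_6ecf75_co

namespace Pool.Agent.S09391

/-- In every finite thick generalized quadrangle of order (s,t) with an elation group G at x, where x is a center of symmetry and all symmetries about x lie in G, every symmetry about x commutes with every element of G. -/
theorem result : ∀ (P L : Type) [Finite P] [Finite L] (I : P → L → Prop) (s t : ℕ),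
    1 < s → 1 < t →
    (∀ l : L, {p : P | I p l}.ncard = s + 1) →
    (∀ p : P, {l : L | I p l}.ncard = t + 1) →
    (∀ (p q : P) (l m : L), p ≠ q → I p l → I q l → I p m → I q m → l = m) →
    (∀ (p : P) (l : L), ¬ I p l → ∃! q : P, I q l ∧ ∃ m : L, I p m ∧ I q m) →
    ∀ (x : P) (G : Subgroup (Equiv.Perm P × Equiv.Perm L)),
    (∀ g ∈ G, ∀ (p : P) (l : L), I (g.1 p) (g.2 l) ↔ I p l) →
    (∀ g ∈ G, g.1 x = x ∧ ∀ l : L, I x l → g.2 l = l) →
    (∀ p q : P, (¬ ∃ l : L, I x l ∧ I p l) → (¬ ∃ l : L, I x l ∧ I q l) →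
      ∃! g : Equiv.Perm P × Equiv.Perm L, g ∈ G ∧ g.1 p = q) →
    (∃ S : Subgroup (Equiv.Perm P × Equiv.Perm L),
      (∀ σ ∈ S, (∀ (p : P) (l : L), I (σ.1 p) (σ.2 l) ↔ I p l) ∧
        ∀ p : P, (∃ l : L, I x l ∧ I p l) → σ.1 p = p) ∧
      ∀ v w : P, (∃ l : L, I x l ∧ I v l) → (∃ l : L, I x l ∧ I w l) →
        (¬ ∃ l : L, I v l ∧ I w l) →
        ∀ a b : P, a ≠ x → b ≠ x →
          (∃ l : L, I a l ∧ I v l) → (∃ l : L, I a l ∧ I w l) →
          (∃ l : L, I b l ∧ I v l) → (∃ l : L, I b l ∧ I w l) →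
          ∃ σ ∈ S, σ.1 a = b) →
    (∀ σ : Equiv.Perm P × Equiv.Perm L, (∀ (p : P) (l : L), I (σ.1 p) (σ.2 l) ↔ I p l) →
      (∀ p : P, (∃ l : L, I x l ∧ I p l) → σ.1 p = p) → σ ∈ G) →
    ∀ σ : Equiv.Perm P × Equiv.Perm L, (∀ (p : P) (l : L), I (σ.1 p) (σ.2 l) ↔ I p l) →
      (∀ p : P, (∃ l : L, I x l ∧ I p l) → σ.1 p = p) →
      ∀ g ∈ G, σ * g = g * σ := by
  classical
  intro P L _ _ I s t hs ht hcl hcp hpl hax x G hinc hfx hsharp hS hall σ hσ hσx g hg
  have := Fintype.ofFinite P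
  have := Fintype.ofFinite L
  have h : Pool.Agent.Helper298.EGQ I s t x G :=
    { cl := by
        intro l
        rw [← hcl l, Set.ncard_eq_toFinset_card']
        congr 1
        ext p; simp
      cp := by
        intro p
        rw [← hcp p, Set.ncard_eq_toFinset_card']
        congr 1
        ext l; simp
      pl := hpl
      ax := hax
      inc := hinc
      fx := hfx
      sharp := hsharp }
  have hσG : σ ∈ G := hall σ hσ hσx
  -- a point not collinear with x
  obtain ⟨y, hy⟩ : ∃ y : P, ¬ ∃ l : L, I x l ∧ I y l := by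
    have h1 := h.toGQ.card_far x
    have h2 : 0 < s ^ 2 * t := by positivity
    rw [← h1] at h2
    obtain ⟨y, hy⟩ := Finset.card_pos.mp h2
    exact ⟨y, by simpa using hy⟩
  have hkf := h.kf hs ht hy hS hall
  -- Higman's inequality
  have hle : s ≤ t ^ 2 := by
    have h1 := h.cp y
    have h2 : 0 < (Finset.univ.filter (fun l => I y l)).card := by omega
    obtain ⟨M, hM⟩ := Finset.card_pos.mp h2
    have hyM : I y M := by simpa using hM
    have hxM : ¬ I x M := fun hh => hy ⟨M, hh, hyM⟩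
    have h3 := h.cp x
    have h4 : 1 < (Finset.univ.filter (fun l => I x l)).card := by omega
    obtain ⟨U, hU, U', hU', hUU⟩ := Finset.one_lt_card.mp h4
    simp only [Finset.mem_filter, Finset.mem_univ, true_and] at hU hU'
    by_cases hm : Pool.Agent.Helper298.meets I U M
    · have hm' : ¬ Pool.Agent.Helper298.meets I U' M :=
        fun hh => hUU (h.unique_Ui hxM hU hm hU' hh)
      exact h.toGQ.higman hs ht hm'
    · exact h.toGQ.higman hs ht hm
  rcases Nat.lt_or_ge s (t ^ 2) with hlt | hge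
  · have hc := hkf.central hlt
    have h1 : (⟨σ, hσG⟩ : G) ∈ Pool.Agent.Helper298.symGrp I x G := hσx
    have h2 := hc h1
    rw [Subgroup.mem_center_iff] at h2
    have h3 := h2 ⟨g, hg⟩
    exact (congrArg Subtype.val h3).symm
  · have hst : s = t ^ 2 := le_antisymm hle hge
    refine h.comm_all ht hs ?_ hg
    intro k hk M y hM hkM hyM hy
    refine h.comm_of_fix ht ?_ hσG hσx hk hM hkM hyM hy
    intro g' hg' K Ui u hK hgK hxUi huU huK T hT
    exact h.fix_all ht hst hg' hK hgK hxUi huU huK hT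

end Pool.Agent.S09391
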