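import Pool.Statements.S09406
import Pool.Agent.Helper505_K9.Main

set_option autoImplicit false
open Pool Pool.MP_6f60ef_co

namespace Pool.Agent.S09406

/-- The negation of the preceding statement: If G is a complete graph or a complete bipartite graph with an even number of edges, then G has a drawing on two planes with minimum total crossings among all such drawings whose two plane subgraphs are isomorphic. -/
theorem result :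
    ¬ (∀ (V : Type) [Finite V] (G : SimpleGraph V),
      (G = ⊤ ∨ ∃ a b : ℕ, Nonempty (G ≃g completeBipartiteGraph (Fin a) (Fin b))) →
      Even (Set.ncard G.edgeSet) →
      ∃ (c : V → V → Fin 2) (p : Fin 2 → V → ℂ) (γ : Fin 2 → V → V → ℝ → ℂ),
        ((∀ u v : V, G.Adj u v → c u v = c v u) ∧
          (∀ i : Fin 2, Function.Injective (p i)) ∧
          (∀ i : Fin 2, ∀ u v : V, G.Adj u v → c u v = i →
            ContinuousOn (γ i u v) (Set.Icc (0:ℝ) 1) ∧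
            Set.InjOn (γ i u v) (Set.Icc (0:ℝ) 1) ∧
            γ i u v 0 = p i u ∧ γ i u v 1 = p i v ∧
            (∀ t : ℝ, 0 ≤ t → t ≤ 1 → γ i v u t = γ i u v (1 - t)) ∧
            ∀ t : ℝ, 0 < t → t < 1 → ∀ w : V, γ i u v t ≠ p i w) ∧
          Set.Finite {x : Fin 2 × V × V × V × V × ℂ |
            G.Adj x.2.1 x.2.2.1 ∧ G.Adj x.2.2.2.1 x.2.2.2.2.1 ∧
            c x.2.1 x.2.2.1 = x.1 ∧ c x.2.2.2.1 x.2.2.2.2.1 = x.1 ∧
            ¬ (x.2.1 = x.2.2.2.1 ∧ x.2.2.1 = x.2.2.2.2.1) ∧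
            ¬ (x.2.1 = x.2.2.2.2.1 ∧ x.2.2.1 = x.2.2.2.1) ∧
            (∃ t : ℝ, 0 < t ∧ t < 1 ∧ γ x.1 x.2.1 x.2.2.1 t = x.2.2.2.2.2) ∧
            (∃ t : ℝ, 0 < t ∧ t < 1 ∧ γ x.1 x.2.2.2.1 x.2.2.2.2.1 t = x.2.2.2.2.2)}) ∧
        Nonempty (SimpleGraph.fromRel (fun u v => G.Adj u v ∧ c u v = 0) ≃g
          SimpleGraph.fromRel (fun u v => G.Adj u v ∧ c u v = 1)) ∧
        ∀ (c' : V → V → Fin 2) (p' : Fin 2 → V → ℂ) (γ' : Fin 2 → V → V → ℝ → ℂ),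
          ((∀ u v : V, G.Adj u v → c' u v = c' v u) ∧
            (∀ i : Fin 2, Function.Injective (p' i)) ∧
            (∀ i : Fin 2, ∀ u v : V, G.Adj u v → c' u v = i →
              ContinuousOn (γ' i u v) (Set.Icc (0:ℝ) 1) ∧
              Set.InjOn (γ' i u v) (Set.Icc (0:ℝ) 1) ∧
              γ' i u v 0 = p' i u ∧ γ' i u v 1 = p' i v ∧
              (∀ t : ℝ, 0 ≤ t → t ≤ 1 → γ' i v u t = γ' i u v (1 - t)) ∧
              ∀ t : ℝ, 0 < t → t < 1 → ∀ w : V, γ' i u v t ≠ p' i w) ∧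
            Set.Finite {x : Fin 2 × V × V × V × V × ℂ |
              G.Adj x.2.1 x.2.2.1 ∧ G.Adj x.2.2.2.1 x.2.2.2.2.1 ∧
              c' x.2.1 x.2.2.1 = x.1 ∧ c' x.2.2.2.1 x.2.2.2.2.1 = x.1 ∧
              ¬ (x.2.1 = x.2.2.2.1 ∧ x.2.2.1 = x.2.2.2.2.1) ∧
              ¬ (x.2.1 = x.2.2.2.2.1 ∧ x.2.2.1 = x.2.2.2.1) ∧
              (∃ t : ℝ, 0 < t ∧ t < 1 ∧ γ' x.1 x.2.1 x.2.2.1 t = x.2.2.2.2.2) ∧
              (∃ t : ℝ, 0 < t ∧ t < 1 ∧ γ' x.1 x.2.2.2.1 x.2.2.2.2.1 t = x.2.2.2.2.2)}) →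
          Set.ncard {x : Fin 2 × V × V × V × V × ℂ |
              G.Adj x.2.1 x.2.2.1 ∧ G.Adj x.2.2.2.1 x.2.2.2.2.1 ∧
              c x.2.1 x.2.2.1 = x.1 ∧ c x.2.2.2.1 x.2.2.2.2.1 = x.1 ∧
              ¬ (x.2.1 = x.2.2.2.1 ∧ x.2.2.1 = x.2.2.2.2.1) ∧
              ¬ (x.2.1 = x.2.2.2.2.1 ∧ x.2.2.1 = x.2.2.2.1) ∧
              (∃ t : ℝ, 0 < t ∧ t < 1 ∧ γ x.1 x.2.1 x.2.2.1 t = x.2.2.2.2.2) ∧
              (∃ t : ℝ, 0 < t ∧ t < 1 ∧ γ x.1 x.2.2.2.1 x.2.2.2.2.1 t = x.2.2.2.2.2)} ≤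
            Set.ncard {x : Fin 2 × V × V × V × V × ℂ |
              G.Adj x.2.1 x.2.2.1 ∧ G.Adj x.2.2.2.1 x.2.2.2.2.1 ∧
              c' x.2.1 x.2.2.1 = x.1 ∧ c' x.2.2.2.1 x.2.2.2.2.1 = x.1 ∧
              ¬ (x.2.1 = x.2.2.2.1 ∧ x.2.2.1 = x.2.2.2.2.1) ∧
              ¬ (x.2.1 = x.2.2.2.2.1 ∧ x.2.2.1 = x.2.2.2.1) ∧
              (∃ t : ℝ, 0 < t ∧ t < 1 ∧ γ' x.1 x.2.1 x.2.2.1 t = x.2.2.2.2.2) ∧
              (∃ t : ℝ, 0 < t ∧ t < 1 ∧ γ' x.1 x.2.2.2.1 x.2.2.2.2.1 t = x.2.2.2.2.2)}) := by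
  intro hall
  have heven : Even (Set.ncard (⊤ : SimpleGraph (Fin 9)).edgeSet) := by
    classical
    rw [← SimpleGraph.coe_edgeFinset, Set.ncard_coe_finset,
      SimpleGraph.card_edgeFinset_top_eq_card_choose_two, Fintype.card_fin]
    decide
  obtain ⟨c, p, γ, ⟨h1, h2, h3, hfin⟩, ⟨φ⟩, hmin⟩ := hall (Fin 9) ⊤ (Or.inl rfl) heven
  have hle := hmin Pool.Agent.Helper505_K9.col Pool.Agent.Helper505_K9.P
    Pool.Agent.Helper505_K9.G0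
    ⟨Pool.Agent.Helper505_K9.good0.1, Pool.Agent.Helper505_K9.good0.2.1,
      Pool.Agent.Helper505_K9.good0.2.2, Pool.Agent.Helper505_K9.cr0_finite⟩
  exact Pool.Agent.Helper505_K9.main c p γ ⟨h1, h2, h3⟩ hfin φ
    (le_trans hle Pool.Agent.Helper505_K9.cr0_ncard)

end Pool.Agent.S09406
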