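import Pool.Statements.S09874
-- import your own Pool.Agent.* helpers here

set_option autoImplicit false
open Pool Pool.MP_85fffe_co

namespace Pool.Agent.S09874

/-- There is a sequence of reals that is linearly independent over `ℚ`. -/
lemma exists_linInd : ∃ v : ℕ → ℝ, LinearIndependent ℚ v := by
  have h : Cardinal.aleph0 ≤ Module.rank ℚ ℝ := by
    rw [Real.rank_rat_real]
    exact Cardinal.aleph0_le_continuum
  obtain ⟨s, hs, hli⟩ := le_rank_iff_exists_linearIndependent.1 h
  have : Nonempty (ℕ ≃ s) := by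
    rw [← Cardinal.eq]
    simpa using hs.symm
  obtain ⟨e⟩ := this
  exact ⟨fun n => (e n : ℝ), hli.comp e e.injective⟩

/-- Two generic sequences of reals. -/
lemma exists_generic : ∃ s a : ℕ → ℝ,
    (∀ i i' k k' l l' : ℕ, i ≠ i' → s i - s i' = (s k + a l) - (s k' + a l') →
      k = i ∧ k' = i' ∧ l = l') ∧
    (∀ p q p' q' : ℕ, p ≠ q → a p - a q = a p' - a q' → p = p' ∧ q = q') := by
  obtain ⟨v, hv⟩ := exists_linInd
  have hinj : Function.Injective (Finsupp.linearCombination ℚ v) := hv
  have hs : ∀ n, Finsupp.linearCombination ℚ v (Finsupp.single n 1) = v n := by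
    intro n; simp
  refine ⟨fun i => v (2 * i), fun j => v (2 * j + 1), ?_, ?_⟩
  · intro i i' k k' l l' hne h
    have h2 : Finsupp.linearCombination ℚ v
        (Finsupp.single (2 * i) 1 - Finsupp.single (2 * i') 1) =
      Finsupp.linearCombination ℚ v
        ((Finsupp.single (2 * k) 1 + Finsupp.single (2 * l + 1) 1) -
          (Finsupp.single (2 * k') 1 + Finsupp.single (2 * l' + 1) 1)) := by
      simp only [map_sub, map_add, hs]
      exact h
    have h3 := hinj h2
    have e1 := DFunLike.congr_fun h3 (2 * i)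
    have e2 := DFunLike.congr_fun h3 (2 * i')
    have e3 := DFunLike.congr_fun h3 (2 * l + 1)
    simp only [Finsupp.sub_apply, Finsupp.add_apply, Finsupp.single_apply] at e1 e2 e3
    have n1 : ¬ (2 * i' = 2 * i) := by omega
    have n2 : ¬ (2 * i = 2 * i') := by omega
    have n3 : ∀ x y : ℕ, ¬ (2 * x = 2 * y + 1) := by intro x y; omega
    have n4 : ∀ x y : ℕ, ¬ (2 * x + 1 = 2 * y) := by intro x y; omega
    simp only [if_neg n1, if_neg n2, if_neg (n3 _ _), if_neg (n4 _ _), if_true] at e1 e2 e3
    refine ⟨?_, ?_, ?_⟩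
    · by_contra hc
      have : ¬ (2 * k = 2 * i) := by omega
      rw [if_neg this] at e1
      split_ifs at e1 <;> norm_num at e1
    · by_contra hc
      have : ¬ (2 * k' = 2 * i') := by omega
      rw [if_neg this] at e2
      split_ifs at e2 <;> norm_num at e2
    · by_contra hc
      have : ¬ (2 * l' + 1 = 2 * l + 1) := by omega
      rw [if_neg this] at e3
      norm_num at e3
  · intro p q p' q' hne h
    have h2 : Finsupp.linearCombination ℚ v
        (Finsupp.single (2 * p + 1) 1 - Finsupp.single (2 * q + 1) 1) =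
      Finsupp.linearCombination ℚ v
        (Finsupp.single (2 * p' + 1) 1 - Finsupp.single (2 * q' + 1) 1) := by
      simp only [map_sub, hs]
      exact h
    have h3 := hinj h2
    have e1 := DFunLike.congr_fun h3 (2 * p + 1)
    have e2 := DFunLike.congr_fun h3 (2 * q + 1)
    simp only [Finsupp.sub_apply, Finsupp.single_apply] at e1 e2
    have n1 : ¬ (2 * q + 1 = 2 * p + 1) := by omega
    have n2 : ¬ (2 * p + 1 = 2 * q + 1) := by omega
    simp only [if_neg n1, if_neg n2, if_true] at e1 e2
    refine ⟨?_, ?_⟩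
    · by_contra hc
      have : ¬ (2 * p' + 1 = 2 * p + 1) := by omega
      rw [if_neg this] at e1
      split_ifs at e1 <;> norm_num at e1
    · by_contra hc
      have : ¬ (2 * q' + 1 = 2 * q + 1) := by omega
      rw [if_neg this] at e2
      split_ifs at e2 <;> norm_num at e2

lemma pow_bound (n : ℕ) (hn : 24 ≤ n) : 16 * n ^ 3 < 2 ^ n := by
  induction n, hn using Nat.le_induction with
  | base => norm_num
  | succ n hn ih =>
    rw [pow_succ 2 n]
    nlinarith [Nat.mul_le_mul hn hn, Nat.mul_le_mul hn (Nat.mul_le_mul hn hn)]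

/-- The negation of the preceding statement: There is a constant C such that for every finite set X of n reals, any family of maximally repeated patterns of X, no two of which are translates of each other, has at most C·n members. -/
theorem result :
    ¬ (∃ C : ℕ, ∀ X : Finset ℝ, ∀ S : Finset (Finset ℝ),
      (∀ A ∈ S,
        A.Nonempty ∧ A ⊆ X ∧
        (∃ t : ℝ, t ≠ 0 ∧ A.image (· + t) ⊆ X) ∧
        (∀ B : Finset ℝ, A ⊂ B →
          ¬ (∀ t : ℝ, A.image (· + t) ⊆ X → B.image (· + t) ⊆ X))) →
      (∀ A ∈ S, ∀ B ∈ S, ∀ t : ℝ, B = A.image (· + t) → A = B) →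
      S.card ≤ C * X.card) := by
  rintro ⟨C, hC⟩
  obtain ⟨s, a, hsa, ha⟩ := exists_generic
  -- basic consequences
  have hs_ne : ∀ i i' : ℕ, i ≠ i' → s i ≠ s i' := by
    intro i i' hne h
    have := hsa i i' i' i' 0 0 hne (by rw [h]; ring)
    exact hne this.1.symm
  have ha_inj : ∀ p q : ℕ, a p = a q → p = q := by
    intro p q h
    by_contra hne
    have := (ha p q p p hne (by rw [h]; )).2
    exact hne this.symm
  set m : ℕ := C + 24 with hm
  let P : Finset (ℕ × ℕ) := (Finset.range m ×ˢ Finset.range m).filter (fun p => p.1 ≠ p.2)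
  let X : Finset ℝ := P.image (fun p => s p.1 + a p.2)
  let U : Finset ℕ → Finset ℕ := fun W => {1, 2} ∪ W
  let A : Finset ℕ → Finset ℝ := fun W => (U W).image (fun j => s 0 + a j)
  let S : Finset (Finset ℝ) := (Finset.Ico 4 m).powerset.image A
  have memX : ∀ x : ℝ, x ∈ X ↔ ∃ k l : ℕ, k < m ∧ l < m ∧ k ≠ l ∧ s k + a l = x := by
    intro x
    simp only [X, P, Finset.mem_image, Finset.mem_filter, Finset.mem_product, Finset.mem_range,
      Prod.exists]
    constructor
    · rintro ⟨k, l, ⟨⟨h1, h2⟩, h3⟩, h4⟩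
      exact ⟨k, l, h1, h2, h3, h4⟩
    · rintro ⟨k, l, h1, h2, h3, h4⟩
      exact ⟨k, l, ⟨⟨h1, h2⟩, h3⟩, h4⟩
  have hUprop : ∀ W : Finset ℕ, W ⊆ Finset.Ico 4 m →
      1 ∈ U W ∧ 2 ∈ U W ∧ 0 ∉ U W ∧ 3 ∉ U W ∧ ∀ j ∈ U W, j < m := by
    intro W hW
    have hW' : ∀ j ∈ W, 4 ≤ j ∧ j < m := fun j hj => Finset.mem_Ico.1 (hW hj)
    refine ⟨by simp [U], by simp [U], ?_, ?_, ?_⟩
    · intro h
      simp only [U, Finset.mem_union, Finset.mem_insert, Finset.mem_singleton] at h
      rcases h with (h | h) | h
      · omega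
      · omega
      · have := hW' _ h; omega
    · intro h
      simp only [U, Finset.mem_union, Finset.mem_insert, Finset.mem_singleton] at h
      rcases h with (h | h) | h
      · omega
      · omega
      · have := hW' _ h; omega
    · intro j h
      simp only [U, Finset.mem_union, Finset.mem_insert, Finset.mem_singleton] at h
      rcases h with (h | h) | h
      · omega
      · omega
      · have := hW' _ h; omega
  -- occurrences
  have hocc : ∀ W : Finset ℕ, W ⊆ Finset.Ico 4 m → ∀ i : ℕ, i < m → i ∉ U W →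
      (A W).image (· + (s i - s 0)) ⊆ X := by
    intro W hW i hi hiU x hx
    simp only [A, Finset.mem_image] at hx
    obtain ⟨y, ⟨j, hj, rfl⟩, rfl⟩ := hx
    rw [memX]
    refine ⟨i, j, hi, (hUprop W hW).2.2.2.2 j hj, ?_, by ring⟩
    rintro rfl
    exact hiU hj
  have h1 : ∀ T ∈ S,
        T.Nonempty ∧ T ⊆ X ∧
        (∃ t : ℝ, t ≠ 0 ∧ T.image (· + t) ⊆ X) ∧
        (∀ B : Finset ℝ, T ⊂ B →
          ¬ (∀ t : ℝ, T.image (· + t) ⊆ X → B.image (· + t) ⊆ X)) := by
    intro T hT
    simp only [S, Finset.mem_image, Finset.mem_powerset] at hT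
    obtain ⟨W, hW, rfl⟩ := hT
    obtain ⟨u1, u2, u0, u3, ulm⟩ := hUprop W hW
    have hm0 : 0 < m := by omega
    have hm3 : 3 < m := by omega
    have hsub : A W ⊆ X := by
      have := hocc W hW 0 hm0 u0
      simpa using this
    refine ⟨⟨s 0 + a 1, ?_⟩, hsub, ⟨s 3 - s 0, ?_, hocc W hW 3 hm3 u3⟩, ?_⟩
    · simp only [A, Finset.mem_image]
      exact ⟨1, u1, rfl⟩
    · intro h
      exact hs_ne 3 0 (by norm_num) (by linarith)
    · intro B hB hall
      apply hB.2
      intro b hb
      have hB0 : b ∈ X := by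
        have h0 := hall 0 (by simpa using hsub)
        have : b + 0 ∈ X := h0 (Finset.mem_image_of_mem _ hb)
        simpa using this
      rw [memX] at hB0
      obtain ⟨k, l, hk, hl, hkl, hb_eq⟩ := hB0
      -- for every i < m outside U, i ≠ 0 : k = 0 and l ≠ i
      have key : ∀ i, i < m → i ∉ U W → i ≠ 0 → k = 0 ∧ l ≠ i := by
        intro i hi hiU hi0
        have hx : b + (s i - s 0) ∈ X :=
          hall _ (hocc W hW i hi hiU) (Finset.mem_image_of_mem _ hb)
        rw [memX] at hx
        obtain ⟨k', l', hk', hl', hkl', hx_eq⟩ := hx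
        have := hsa i 0 k' k l' l hi0 (by rw [hx_eq, hb_eq]; ring)
        obtain ⟨r1, r2, r3⟩ := this
        refine ⟨r2, ?_⟩
        rw [← r3, ← r1]
        exact fun h => hkl' h.symm
      have hk0 : k = 0 := (key 3 hm3 u3 (by norm_num)).1
      have hlU : l ∈ U W := by
        by_contra hlU
        have hl0 : l ≠ 0 := by rw [← hk0]; exact hkl.symm
        exact (key l hl hlU hl0).2 rfl
      simp only [A, Finset.mem_image]
      exact ⟨l, hlU, by rw [← hb_eq, hk0]⟩
  have h2 : ∀ T ∈ S, ∀ B ∈ S, ∀ t : ℝ, B = T.image (· + t) → T = B := by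
    intro T hT B hB t hBT
    simp only [S, Finset.mem_image, Finset.mem_powerset] at hT hB
    obtain ⟨W, hW, rfl⟩ := hT
    obtain ⟨W', hW', rfl⟩ := hB
    obtain ⟨u1, u2, -, -, -⟩ := hUprop W hW
    have m1 : s 0 + a 1 + t ∈ A W' := by
      rw [hBT]
      exact Finset.mem_image_of_mem (· + t) (Finset.mem_image.2 ⟨1, u1, rfl⟩)
    have m2 : s 0 + a 2 + t ∈ A W' := by
      rw [hBT]
      exact Finset.mem_image_of_mem (· + t) (Finset.mem_image.2 ⟨2, u2, rfl⟩)
    simp only [A, Finset.mem_image] at m1 m2
    obtain ⟨p, -, hp⟩ := m1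
    obtain ⟨q, -, hq⟩ := m2
    have := ha 1 2 p q (by norm_num) (by linarith)
    obtain ⟨rfl, rfl⟩ := this
    have ht : t = 0 := by linarith
    subst ht
    simpa using hBT.symm
  have h3 := hC X S h1 h2
  have hScard : S.card = 2 ^ (m - 4) := by
    have : Set.InjOn A ((Finset.Ico 4 m).powerset : Set (Finset ℕ)) := by
      intro W hW W' hW' hAA
      simp only [Finset.coe_powerset, Set.mem_preimage, Set.mem_powerset_iff,
        Finset.coe_subset] at hW hW'
      have hfinj : Function.Injective (fun j : ℕ => s 0 + a j) := by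
        intro p q h
        exact ha_inj p q (by simpa using h)
      have hU : U W = U W' := Finset.image_injective hfinj hAA
      ext j
      constructor
      · intro hj
        have hj4 := (Finset.mem_Ico.1 (hW hj)).1
        have : j ∈ U W' := by rw [← hU]; simp [U, hj]
        simp only [U, Finset.mem_union, Finset.mem_insert, Finset.mem_singleton] at this
        rcases this with (h | h) | h
        · omega
        · omega
        · exact h
      · intro hj
        have hj4 := (Finset.mem_Ico.1 (hW' hj)).1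
        have : j ∈ U W := by rw [hU]; simp [U, hj]
        simp only [U, Finset.mem_union, Finset.mem_insert, Finset.mem_singleton] at this
        rcases this with (h | h) | h
        · omega
        · omega
        · exact h
    simp only [S]
    rw [Finset.card_image_of_injOn this, Finset.card_powerset, Nat.card_Ico]
  have hXcard : X.card ≤ m ^ 2 := by
    calc X.card ≤ P.card := Finset.card_image_le
      _ ≤ (Finset.range m ×ˢ Finset.range m).card := Finset.card_filter_le _ _
      _ = m ^ 2 := by rw [Finset.card_product, Finset.card_range]; ring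
  have hb := pow_bound m (by omega)
  have hpow : 2 ^ m = 16 * 2 ^ (m - 4) := by
    have : m = (m - 4) + 4 := by omega
    conv_lhs => rw [this]
    rw [pow_add]; ring
  have hCm : C ≤ m := by omega
  have : 2 ^ (m - 4) ≤ m ^ 3 := by
    rw [← hScard]
    calc S.card ≤ C * X.card := h3
      _ ≤ m * m ^ 2 := Nat.mul_le_mul hCm hXcard
      _ = m ^ 3 := by ring
  omega

end Pool.Agent.S09874
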