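import Pool.Statements.S09946
import Pool.Agent.Helper396_FFree.Girth

set_option autoImplicit false
open Pool Pool.MP_8888ff_co

namespace Pool.Agent.S09946

open Pool.Agent.Helper396_FFree

/-- graphs with many edges and without short cycles -/
lemma exists_graph (k m : ℕ) : ∃ n : ℕ, k < n ∧ ∃ T : SimpleGraph (Fin n),
    m * n ≤ T.edgeSet.ncard ∧ ((k + 1 : ℕ) : ℕ∞) < T.egirth := by
  obtain ⟨T, h1, h2⟩ := exists_dense (k + 1) (4 * m) (2 * (4 * m + 1) ^ (k + 1) + k + 1)
    (by omega) (by omega)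
  refine ⟨_, by omega, T, ?_, h1⟩
  rw [mul_assoc] at h2
  omega

/-- the orders of the graphs -/
noncomputable def D : ℕ → ℕ
  | 0 => 0
  | i + 1 => (exists_graph (D i) (i + 1)).choose

lemma D_succ (i : ℕ) : D i < D (i + 1) ∧ ∃ T : SimpleGraph (Fin (D (i + 1))),
    (i + 1) * D (i + 1) ≤ T.edgeSet.ncard ∧ ((D i + 1 : ℕ) : ℕ∞) < T.egirth := by
  rw [D]
  exact (exists_graph (D i) (i + 1)).choose_spec

lemma D_lt (i : ℕ) : D i < D (i + 1) := (D_succ i).1

lemma D_mono : StrictMono D := strictMono_nat_of_lt_succ D_lt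

/-- the family: all graphs of minimum degree at least two with exactly `D i + 1` vertices for
some `i` -/
def Fam : Set (Σ k : ℕ, SimpleGraph (Fin k)) :=
  {p | (∃ i, p.1 = D i + 1) ∧ ∀ v, 2 ≤ (p.2.neighborSet v).ncard}

/-- the complete bipartite graph with two vertices in one class -/
def K2 (n : ℕ) : SimpleGraph (Fin n) where
  Adj u v := (u.1 < 2 ∧ 2 ≤ v.1) ∨ (v.1 < 2 ∧ 2 ≤ u.1)
  symm := ⟨fun u v h => by tauto⟩
  loopless := ⟨fun u h => by omega⟩

/-- The negation of the preceding statement: For every graph family whose members all contain a cycle and one is bipartite, some c>0 ensures every graph with min degree δ≥1 and max degree Δ has a spanning F-free subgraph of min degree at least c·ex(K_Δ,F)·δ/Δ². -/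
theorem result :
    ¬ (∀ F : Set (Σ k : ℕ, SimpleGraph (Fin k)),
      (∀ p ∈ F, ¬ p.2.IsAcyclic) →
      (∃ p ∈ F, p.2.Colorable 2) →
      ∃ c : ℝ, 0 < c ∧
        ∀ δ Δ : ℕ, 1 ≤ δ → δ ≤ Δ →
          ∀ n : ℕ, ∀ G : SimpleGraph (Fin n),
            (∀ v, δ ≤ (G.neighborSet v).ncard) →
            (∃ v, (G.neighborSet v).ncard = δ) →
            (∀ v, (G.neighborSet v).ncard ≤ Δ) →
            (∃ v, (G.neighborSet v).ncard = Δ) →
            ∀ T : SimpleGraph (Fin Δ),
              (∀ p ∈ F, ¬ p.2.IsContained T) →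
              ∃ H : SimpleGraph (Fin n), H ≤ G ∧
                (∀ p ∈ F, ¬ p.2.IsContained H) ∧
                ∀ v, c * (T.edgeSet.ncard : ℝ) * (δ : ℝ) / (Δ : ℝ) ^ 2
                  ≤ ((H.neighborSet v).ncard : ℝ)) := by
  intro hall
  -- every member of the family contains a cycle
  have hcyc : ∀ p ∈ Fam, ¬ p.2.IsAcyclic := by
    rintro ⟨k, P⟩ ⟨⟨i, hi⟩, hP⟩ hac
    simp only at hi hP hac
    have h1 := egirth_le (by omega) P hP
    rw [SimpleGraph.egirth_eq_top.2 hac] at h1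
    exact absurd h1 (by simp)
  -- a bipartite member
  have hbip : ∃ p ∈ Fam, p.2.Colorable 2 := by
    have h3 : 3 ≤ D 3 := D_mono.le_apply
    refine ⟨⟨D 3 + 1, K2 (D 3 + 1)⟩, ⟨⟨3, rfl⟩, ?_⟩, ?_⟩
    · intro v
      simp only
      by_cases hv : v.1 < 2
      · have h4 : ({⟨2, by omega⟩, ⟨3, by omega⟩} : Set (Fin (D 3 + 1))) ⊆
            (K2 (D 3 + 1)).neighborSet v := by
          intro x hx
          simp only [Set.mem_insert_iff, Set.mem_singleton_iff] at hx
          rw [SimpleGraph.mem_neighborSet]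
          rcases hx with rfl | rfl
          · exact Or.inl ⟨hv, le_refl _⟩
          · exact Or.inl ⟨hv, by norm_num⟩
        have h5 := Set.ncard_le_ncard h4 (Set.toFinite _)
        rwa [Set.ncard_pair (by simp)] at h5
      · have h4 : ({⟨0, by omega⟩, ⟨1, by omega⟩} : Set (Fin (D 3 + 1))) ⊆
            (K2 (D 3 + 1)).neighborSet v := by
          intro x hx
          simp only [Set.mem_insert_iff, Set.mem_singleton_iff] at hx
          rw [SimpleGraph.mem_neighborSet]
          rcases hx with rfl | rfl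
          · exact Or.inr ⟨by norm_num, by omega⟩
          · exact Or.inr ⟨by norm_num, by omega⟩
        have h5 := Set.ncard_le_ncard h4 (Set.toFinite _)
        rwa [Set.ncard_pair (by simp)] at h5
    · refine ⟨SimpleGraph.Coloring.mk (fun v => if v.1 < 2 then 0 else 1) ?_⟩
      intro u v huv
      rcases huv with ⟨h1, h2⟩ | ⟨h1, h2⟩
      · rw [if_pos h1, if_neg (by omega)]; exact zero_ne_one
      · rw [if_neg (by omega), if_pos h1]; exact one_ne_zero
  obtain ⟨c, hc, hall⟩ := hall Fam hcyc hbip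
  obtain ⟨i, hi⟩ := exists_nat_gt (1 / c)
  obtain ⟨h0', T, hT1, hT2⟩ := D_succ i
  have h0 : 0 < D (i + 1) := by omega
  have hdeg : ∀ v : Fin (D (i + 1) + 1),
      ((⊤ : SimpleGraph (Fin (D (i + 1) + 1))).neighborSet v).ncard = D (i + 1) := by
    intro v
    have h1 : (⊤ : SimpleGraph (Fin (D (i + 1) + 1))).neighborSet v = {v}ᶜ := by
      ext x
      rw [SimpleGraph.mem_neighborSet, SimpleGraph.top_adj, Set.mem_compl_iff,
        Set.mem_singleton_iff]
      exact ne_comm
    rw [h1, Set.ncard_compl, Set.ncard_singleton, Nat.card_eq_fintype_card, Fintype.card_fin]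
    rfl
  obtain ⟨H, -, hH, hHd⟩ := hall (D (i + 1)) (D (i + 1)) h0 le_rfl (D (i + 1) + 1) ⊤
    (fun v => (hdeg v).ge) ⟨0, hdeg 0⟩ (fun v => (hdeg v).le) ⟨0, hdeg 0⟩ T (by
      rintro ⟨k, P⟩ ⟨⟨j, hj⟩, hP⟩ hcon
      simp only at hj hP hcon
      subst hj
      rcases Nat.lt_or_ge j (i + 1) with hji | hji
      · have h1 : T.egirth ≤ P.egirth := hcon.egirth_le
        have h2 := egirth_le (by omega) P hP
        have h3 := lt_of_lt_of_le hT2 (h1.trans h2)
        have h4 : D i + 1 < D j + 1 := by exact_mod_cast h3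
        have h5 : D j ≤ D i := D_mono.monotone (by omega)
        omega
      · obtain ⟨f⟩ := hcon
        have h1 := Fintype.card_le_of_injective f f.injective
        rw [Fintype.card_fin, Fintype.card_fin] at h1
        have h2 : D (i + 1) ≤ D j := D_mono.monotone hji
        omega)
  -- `H` has a vertex of degree at most one
  have h1 : ∃ v, (H.neighborSet v).ncard ≤ 1 := by
    by_contra hcon
    push Not at hcon
    exact hH ⟨D (i + 1) + 1, H⟩ ⟨⟨i + 1, rfl⟩, hcon⟩ (SimpleGraph.IsContained.refl H)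
  obtain ⟨v, hv⟩ := h1
  have h2 := hHd v
  have h4 : ((H.neighborSet v).ncard : ℝ) ≤ 1 := by exact_mod_cast hv
  have hD : (0 : ℝ) < (D (i + 1) : ℝ) := by exact_mod_cast h0
  have h3 : ((i : ℝ) + 1) * (D (i + 1) : ℝ) ≤ (T.edgeSet.ncard : ℝ) := by exact_mod_cast hT1
  have h5 : c * ((i : ℝ) + 1) ≤
      c * (T.edgeSet.ncard : ℝ) * (D (i + 1) : ℝ) / (D (i + 1) : ℝ) ^ 2 := by
    rw [le_div_iff₀ (by positivity)]
    have h6 : c * (((i : ℝ) + 1) * (D (i + 1) : ℝ)) ≤ c * (T.edgeSet.ncard : ℝ) :=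
      mul_le_mul_of_nonneg_left h3 hc.le
    calc c * ((i : ℝ) + 1) * (D (i + 1) : ℝ) ^ 2
        = c * (((i : ℝ) + 1) * (D (i + 1) : ℝ)) * (D (i + 1) : ℝ) := by ring
      _ ≤ c * (T.edgeSet.ncard : ℝ) * (D (i + 1) : ℝ) := mul_le_mul_of_nonneg_right h6 hD.le
  rw [div_lt_iff₀ hc] at hi
  nlinarith

end Pool.Agent.S09946
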