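import Pool.Statements.S10151
import Pool.Agent.H680_DP.AsmD3

set_option autoImplicit false
open Pool Pool.MP_918571_co

namespace Pool.Agent.S10151

open Pool.Agent.H680_CP Pool.Agent.H680_DP in
theorem rhs_eq (n : ℕ) (k : ℕ → ℕ) (q : ℂ) (hq : ‖q‖ < 1) (K : ℕ)
    (hK : K = ∑ t ∈ Finset.range (n + 1 + 1), k t) :
    ((∏' j : ℕ, (1 - q^((2*K + 2*(n+1))*(j+1))))^(n+1)
        / ((∏' j : ℕ, (1 - q^(2*(j+1)))) * (∏' j : ℕ, (1 - q^(j+1)))^((n+1)-1))
        * ∏ i ∈ Finset.Icc 1 (n+1), ∏ j ∈ Finset.Ioc i (n+1),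
          ((∏' r : ℕ, ((1 - q^(((∑ t ∈ Finset.Icc i (n+1), k t) - (∑ t ∈ Finset.Icc j (n+1), k t) + (j - i))
                  + (2*K + 2*(n+1))*r))
              * (1 - q^((2*K + 2*(n+1))
                  - ((∑ t ∈ Finset.Icc i (n+1), k t) - (∑ t ∈ Finset.Icc j (n+1), k t) + (j - i))
                  + (2*K + 2*(n+1))*r))))
          * (∏' r : ℕ, ((1 - q^(((∑ t ∈ Finset.Icc i (n+1), k t) + (∑ t ∈ Finset.Icc j (n+1), k t) + (2*(n+1)+1 - (i+j)))
                  + (2*K + 2*(n+1))*r))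
              * (1 - q^((2*K + 2*(n+1))
                  - ((∑ t ∈ Finset.Icc i (n+1), k t) + (∑ t ∈ Finset.Icc j (n+1), k t) + (2*(n+1)+1 - (i+j)))
                  + (2*K + 2*(n+1))*r)))))) = RC n K k q := by
  have hlam : ∀ i, 1 ≤ i → i ≤ n + 1 →
      (∑ t ∈ Finset.Icc i (n + 1), k t) + (∑ t ∈ Finset.range i, k t) = K := by
    intro i _ hin
    have h1 : Finset.Icc i (n + 1) = Finset.Ico i (n + 1 + 1) := by
      ext x; simp only [Finset.mem_Icc, Finset.mem_Ico]; omega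
    rw [h1, add_comm, Finset.sum_range_add_sum_Ico _ (by omega), hK]
  have hM : 2 * K + 2 * (n + 1) = 2 * (n + K + 1) := by ring
  have hpair : ∀ a c : ℕ, (∏' r : ℕ, ((1 - q ^ (a + (2 * (n + K + 1)) * r)) *
      (1 - q ^ (c + (2 * (n + K + 1)) * r)))) =
      EC q a (2 * (n + K + 1)) * EC q c (2 * (n + K + 1)) := by
    intro a c
    exact (EC_multipliable q hq a _ (by omega)).tprod_mul (EC_multipliable q hq c _ (by omega))
  have hE : ∀ m : ℕ, (∏' j : ℕ, (1 - q ^ (m * (j + 1)))) = EC q m m := by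
    intro m
    unfold EC
    congr 1
    funext j
    congr 2
    ring
  have hE1 : (∏' j : ℕ, (1 - q ^ (j + 1))) = EC q 1 1 := by
    rw [← hE 1]
    congr 1
    funext j
    rw [one_mul]
  rw [hM, hE, hE, hE1, Nat.add_sub_cancel]
  unfold RC
  congr 1
  refine Finset.prod_congr rfl fun i hi => ?_
  have hIoc : Finset.Ioc i (n + 1) = Finset.Icc (i + 1) (n + 1) := by
    ext x; simp only [Finset.mem_Icc, Finset.mem_Ioc]; omega
  rw [hIoc]
  refine Finset.prod_congr rfl fun l hl => ?_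
  rw [Finset.mem_Icc] at hi hl
  have h1 := hlam i hi.1 hi.2
  have h2 := hlam l (by omega) hl.2
  have h3 : ∑ t ∈ Finset.range i, k t ≤ ∑ t ∈ Finset.range l, k t := sumK_mono k (by omega)
  have e1 : ((∑ t ∈ Finset.Icc i (n + 1), k t) - (∑ t ∈ Finset.Icc l (n + 1), k t)) + (l - i) =
      alph k l - alph k i := by
    unfold alph; omega
  have e2 : (∑ t ∈ Finset.Icc i (n + 1), k t) + (∑ t ∈ Finset.Icc l (n + 1), k t) +
            (2 * (n + 1) + 1 - (i + l)) = 2 * (n + K + 1) - (alph k i + alph k l - 1) := by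
    unfold alph; omega
  have e3 : 2 * (n + K + 1) - (2 * (n + K + 1) - (alph k i + alph k l - 1)) =
      alph k i + alph k l - 1 := by
    unfold alph; omega
  rw [e1, e2, e3, hpair, hpair]
  unfold vtC
  ring

/-- For n≥1, levels k_0..k_n with sum k and ∣q∣<1: the generating function of (2n−1)-coloured partitions (part i in colour c only if c+i odd) whose every path sum is at most k equals Primc's theta-product with modulus 2k+2n. -/
theorem result :
  ∀ n : ℕ, 1 ≤ n → ∀ k : ℕ → ℕ, ∀ q : ℂ, ‖q‖ < 1 →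
    HasSum (fun N : ℕ => ((({g : ℕ → ℕ → ℕ |
        (∀ i c, g i c ≠ 0 → 1 ≤ i ∧ i ≤ N ∧ 1 ≤ c ∧ c ≤ 2*n-1 ∧ Odd (c+i)) ∧
        (∑ i ∈ Finset.range (N+1), ∑ c ∈ Finset.Icc 1 (2*n-1), i * g i c) = N ∧
        ∀ p : ℕ → ℤ, (∀ c ∈ Finset.Icc 1 (2*n-1), -1 ≤ p c ∧ Odd (p c + (c : ℤ))) →
          (∀ r ∈ Finset.Icc 1 (2*n-2), |p r - p (r+1)| = 1) →
          (∑ c ∈ Finset.Icc 1 (2*n-1),
              (if 1 ≤ p c then g (p c).toNat c
               else if p c = 0 then (if c = 1 then k 0 else 0) + (if c = 2*n-1 then k n else 0)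
               else if Even c ∧ 2 ≤ c ∧ c ≤ 2*n-2 then k (c/2) else 0))
            ≤ ∑ t ∈ Finset.range (n+1), k t} : Set (ℕ → ℕ → ℕ)).ncard : ℕ) : ℂ) * q^N)
      ((∏' j : ℕ, (1 - q^((2*(∑ t ∈ Finset.range (n+1), k t) + 2*n)*(j+1))))^n
        / ((∏' j : ℕ, (1 - q^(2*(j+1)))) * (∏' j : ℕ, (1 - q^(j+1)))^(n-1))
        * ∏ i ∈ Finset.Icc 1 n, ∏ j ∈ Finset.Ioc i n,
          ((∏' r : ℕ, ((1 - q^(((∑ t ∈ Finset.Icc i n, k t) - (∑ t ∈ Finset.Icc j n, k t) + (j - i))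
                  + (2*(∑ t ∈ Finset.range (n+1), k t) + 2*n)*r))
              * (1 - q^((2*(∑ t ∈ Finset.range (n+1), k t) + 2*n)
                  - ((∑ t ∈ Finset.Icc i n, k t) - (∑ t ∈ Finset.Icc j n, k t) + (j - i))
                  + (2*(∑ t ∈ Finset.range (n+1), k t) + 2*n)*r))))
          * (∏' r : ℕ, ((1 - q^(((∑ t ∈ Finset.Icc i n, k t) + (∑ t ∈ Finset.Icc j n, k t) + (2*n+1 - (i+j)))
                  + (2*(∑ t ∈ Finset.range (n+1), k t) + 2*n)*r))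
              * (1 - q^((2*(∑ t ∈ Finset.range (n+1), k t) + 2*n)
                  - ((∑ t ∈ Finset.Icc i n, k t) + (∑ t ∈ Finset.Icc j n, k t) + (2*n+1 - (i+j)))
                  + (2*(∑ t ∈ Finset.range (n+1), k t) + 2*n)*r)))))) := by
  intro n hn k q hq
  obtain ⟨n', rfl⟩ : ∃ n', n = n' + 1 := ⟨n - 1, by omega⟩
  have h := Pool.Agent.H680_DP.hasSum_RC n' k q hq _ rfl
  rw [← rhs_eq n' k q hq _ rfl] at h
  exact h

end Pool.Agent.S10151
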