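import Mathlib
import Pool.Statements.S10153

/-!
# Every cubic graph has fractional total domatic number at least 2

Let `H` be the open neighbourhood hypergraph of the cubic graph `G` (edges `N(x)`, all of size 3,
every vertex in exactly 3 edges). Total dominating sets are the transversals of `H`.

* Seymour's criterion (`two_col`): a family in which every nonempty subfamily has fewer members
  than points is 2-colourable (take a kernel vector of the incidence matrix, colour by sign).
* If `H` is connected and `r` is a vertex, the edges avoiding `r` satisfy the criterion. Every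
  such edge has exactly one vertex of the minority colour; there are `n - 3` edges and `n - 1`
  vertices, so some vertex `z ≠ r` is the minority vertex of no edge and can be uncoloured.
  So there are transversals `T₁, T₂` with `T₁ ∩ T₂ = {r}` and `z ∉ T₁ ∪ T₂`.
* Giving weight 1 to both covers each vertex once, except `r` (twice) and `z` (not at all).
  Averaging along a cycle of the map `r ↦ z(r)` covers every vertex exactly once, total weight 2.

For disconnected `H` the same is done simultaneously in all components (`step`).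
-/

set_option autoImplicit false
open Pool Pool.MP_91f506_co

namespace Pool.Agent.S10153

open Finset

/-- Seymour's criterion: a finite family of sets in which every nonempty subfamily has fewer
members than points can be 2-coloured with no monochromatic member. -/
theorem two_col {V : Type} [Fintype V] [DecidableEq V] (N : V → Finset V) :
    ∀ (n : ℕ) (F : Finset V), F.card = n →
      (∀ F' ⊆ F, F'.Nonempty → F'.card < (F'.biUnion N).card) →
      ∃ c : V → Bool, ∀ x ∈ F, (∃ a ∈ N x, c a = true) ∧ (∃ b ∈ N x, c b = false) := by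
  intro n
  induction n using Nat.strong_induction_on with
  | _ n ih =>
    intro F hn hF
    rcases F.eq_empty_or_nonempty with rfl | hne
    · exact ⟨fun _ => true, by simp⟩
    have hlt := hF F (Finset.Subset.refl _) hne
    set U := F.biUnion N with hU
    let M : Matrix F U ℝ := Matrix.of fun v a => if (a : V) ∈ N v then (1 : ℝ) else 0
    have hker : LinearMap.ker M.mulVecLin ≠ ⊥ := by
      apply LinearMap.ker_ne_bot_of_finrank_lt
      simp only [Module.finrank_fintype_fun_eq_card, Fintype.card_coe]
      exact hlt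
    obtain ⟨y, hy, hy0⟩ := (Submodule.ne_bot_iff _).1 hker
    rw [LinearMap.mem_ker] at hy
    let x : V → ℝ := fun a => if h : a ∈ U then y ⟨a, h⟩ else 0
    have hsum : ∀ v ∈ F, ∑ a ∈ N v, x a = 0 := by
      intro v hv
      have h : ∑ a : U, M ⟨v, hv⟩ a * y a = 0 := by
        have := congrFun hy ⟨v, hv⟩
        simpa [Matrix.mulVecLin, Matrix.mulVec, dotProduct] using this
      have h1 : ∑ a ∈ N v, x a = ∑ a ∈ U, if a ∈ N v then x a else 0 := by
        rw [← Finset.sum_filter]
        congr 1
        ext a
        simp only [Finset.mem_filter]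
        exact ⟨fun ha => ⟨Finset.mem_biUnion.2 ⟨v, hv, ha⟩, ha⟩, fun ha => ha.2⟩
      rw [h1, ← Finset.sum_coe_sort U]
      refine Eq.trans ?_ h
      refine Finset.sum_congr rfl fun a _ => ?_
      have : x (a : V) = y a := by
        simp [x]
      rw [this]
      by_cases hm : (a : V) ∈ N v <;> simp [M, hm]
    -- a nonzero coordinate
    obtain ⟨a0, ha0⟩ : ∃ a, x a ≠ 0 := by
      by_contra hcon
      push Not at hcon
      apply hy0
      funext a
      have := hcon (a : V)
      simpa [x] using this
    have ha0U : a0 ∈ U := by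
      by_contra hcon
      exact ha0 (by simp [x, hcon])
    obtain ⟨v0, hv0, hav0⟩ := Finset.mem_biUnion.1 ha0U
    -- the remaining edges
    set F' := F.filter (fun v => ∀ a ∈ N v, x a = 0) with hF'
    have hlt' : F'.card < n := by
      rw [← hn]
      apply Finset.card_lt_card
      refine ⟨Finset.filter_subset _ _, fun hcon => ?_⟩
      have := hcon hv0
      rw [hF', Finset.mem_filter] at this
      exact ha0 (this.2 a0 hav0)
    obtain ⟨c', hc'⟩ := ih F'.card hlt' F' rfl
      (fun F'' h1 h2 => hF F'' (h1.trans (Finset.filter_subset _ _)) h2)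
    refine ⟨fun a => if x a = 0 then c' a else decide (0 < x a), fun v hv => ?_⟩
    by_cases hz : ∀ a ∈ N v, x a = 0
    · have hvF' : v ∈ F' := by
        rw [hF', Finset.mem_filter]; exact ⟨hv, hz⟩
      obtain ⟨⟨a, ha, hca⟩, ⟨b, hb, hcb⟩⟩ := hc' v hvF'
      exact ⟨⟨a, ha, by simp [hz a ha, hca]⟩, ⟨b, hb, by simp [hz b hb, hcb]⟩⟩
    · push Not at hz
      obtain ⟨a, ha, hxa⟩ := hz
      have hs := hsum v hv
      constructor
      · obtain ⟨b, hb, hxb⟩ : ∃ b ∈ N v, 0 < x b := by
          by_contra hcon
          push Not at hcon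
          have := (Finset.sum_eq_zero_iff_of_nonpos hcon).1 hs a ha
          exact hxa this
        exact ⟨b, hb, by simp [hxb.ne', hxb]⟩
      · obtain ⟨b, hb, hxb⟩ : ∃ b ∈ N v, x b < 0 := by
          by_contra hcon
          push Not at hcon
          have := (Finset.sum_eq_zero_iff_of_nonneg hcon).1 hs a ha
          exact hxa this
        exact ⟨b, hb, by simp [hxb.ne, hxb.le]⟩

/-- One step: from a system of representatives `s` of the classes produce another one `s'`
and a colouring such that every edge meets `s` or has both colours outside `s'`. -/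
theorem step {V : Type} [Fintype V] [DecidableEq V] (N : V → Finset V)
    (hN : ∀ x, (N x).card = 3) (hsym : ∀ x u, u ∈ N x ↔ x ∈ N u)
    (Q : Type) (q : V → Q)
    (hq1 : ∀ x u v, u ∈ N x → v ∈ N x → q u = q v)
    (hq2 : ∀ U : Finset V, (∀ x u, u ∈ N x → u ∈ U → N x ⊆ U) →
      ∀ u v, q u = q v → u ∈ U → v ∈ U)
    (s : Q → V) (hs : ∀ C, q (s C) = C) :
    ∃ s' : Q → V, (∀ C, q (s' C) = C) ∧ (∀ C, s' C ≠ s C) ∧ ∃ c : V → Bool,
      ∀ x, (∃ a ∈ N x, a = s (q a)) ∨
        ∀ b : Bool, ∃ a ∈ N x, c a = b ∧ a ≠ s' (q a) := by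
  classical
  set F : Finset V := univ.filter (fun x => ∀ a ∈ N x, a ≠ s (q a)) with hFdef
  have hHall : ∀ F' ⊆ F, F'.Nonempty → F'.card < (F'.biUnion N).card := by
    intro F' hF' hne
    by_contra hcon
    push Not at hcon
    set U := F'.biUnion N with hU
    have hdc : ∑ x ∈ F', (N x).card = ∑ u ∈ U, (F'.filter (fun x => u ∈ N x)).card := by
      have h1 : ∀ x ∈ F', (N x).card = (U.filter (fun u => u ∈ N x)).card := by
        intro x hx
        congr 1
        ext u
        simp only [Finset.mem_filter]
        exact ⟨fun h => ⟨Finset.mem_biUnion.2 ⟨x, hx, h⟩, h⟩, fun h => h.2⟩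
      rw [Finset.sum_congr rfl h1]
      exact Finset.sum_card_bipartiteAbove_eq_sum_card_bipartiteBelow (fun x u => u ∈ N x)
    have hle : ∀ u ∈ U, (F'.filter (fun x => u ∈ N x)).card ≤ 3 := by
      intro u _
      rw [← hN u]
      apply Finset.card_le_card
      intro x hx
      rw [Finset.mem_filter] at hx
      exact (hsym x u).1 hx.2
    have h3 : ∑ x ∈ F', (N x).card = 3 * F'.card := by
      rw [Finset.sum_congr rfl (fun x _ => hN x)]
      simp [mul_comm]
    have heq : ∀ u ∈ U, (F'.filter (fun x => u ∈ N x)).card = 3 := by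
      by_contra hcon2
      push Not at hcon2
      obtain ⟨u, hu, hu3⟩ := hcon2
      have hlt : ∑ u ∈ U, (F'.filter (fun x => u ∈ N x)).card < ∑ _u ∈ U, 3 :=
        Finset.sum_lt_sum hle ⟨u, hu, lt_of_le_of_ne (hle u hu) hu3⟩
      rw [← hdc, h3] at hlt
      simp at hlt
      omega
    have hclosed : ∀ x u, u ∈ N x → u ∈ U → N x ⊆ U := by
      intro x u hux huU
      have hsub : (F'.filter (fun x => u ∈ N x)) = N u := by
        apply Finset.eq_of_subset_of_card_le
        · intro z hz
          rw [Finset.mem_filter] at hz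
          exact (hsym z u).1 hz.2
        · rw [hN u, heq u huU]
      have hx : x ∈ F'.filter (fun x => u ∈ N x) := by
        rw [hsub]; exact (hsym x u).1 hux
      rw [Finset.mem_filter] at hx
      intro a ha
      exact Finset.mem_biUnion.2 ⟨x, hx.1, ha⟩
    obtain ⟨x0, hx0⟩ := hne
    obtain ⟨u0, hu0⟩ : (N x0).Nonempty := by
      rw [← Finset.card_pos, hN]; norm_num
    have hu0U : u0 ∈ U := Finset.mem_biUnion.2 ⟨x0, hx0, hu0⟩
    have hsU : s (q u0) ∈ U := hq2 U hclosed u0 (s (q u0)) (hs _).symm hu0U
    obtain ⟨x1, hx1, hsx1⟩ := Finset.mem_biUnion.1 hsU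
    have := hF' hx1
    rw [hFdef, Finset.mem_filter] at this
    exact this.2 _ hsx1 (by rw [hs])
  obtain ⟨c, hc⟩ := two_col N F.card F rfl hHall
  -- critical vertices
  let crit : V → Prop := fun z => ∃ x ∈ F, z ∈ N x ∧ ∀ b ∈ N x, b ≠ z → c b ≠ c z
  have hfree : ∀ C : Q, ∃ z, q z = C ∧ z ≠ s C ∧ ¬ crit z := by
    intro C
    by_contra hcon
    push Not at hcon
    set VC : Finset V := univ.filter (fun v => q v = C) with hVC
    set EC : Finset V := univ.filter (fun x => ∃ a ∈ N x, q a = C) with hEC
    have hECall : ∀ x ∈ EC, ∀ a ∈ N x, q a = C := by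
      intro x hx a ha
      rw [hEC, Finset.mem_filter] at hx
      obtain ⟨_, b, hb, hbC⟩ := hx
      rw [← hbC]; exact hq1 x a b ha hb
    have hcard : EC.card = VC.card := by
      have h1 : ∑ x ∈ EC, (VC.filter (fun u => u ∈ N x)).card
          = ∑ u ∈ VC, (EC.filter (fun x => u ∈ N x)).card :=
        Finset.sum_card_bipartiteAbove_eq_sum_card_bipartiteBelow (fun x u => u ∈ N x)
      have h2 : ∀ x ∈ EC, (VC.filter (fun u => u ∈ N x)).card = 3 := by
        intro x hx
        rw [← hN x]
        congr 1
        ext u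
        simp only [Finset.mem_filter]
        refine ⟨fun h => h.2, fun h => ⟨?_, h⟩⟩
        rw [hVC, Finset.mem_filter]
        exact ⟨Finset.mem_univ _, hECall x hx u h⟩
      have h3 : ∀ u ∈ VC, (EC.filter (fun x => u ∈ N x)).card = 3 := by
        intro u hu
        rw [hVC, Finset.mem_filter] at hu
        rw [← hN u]
        congr 1
        ext x
        simp only [Finset.mem_filter]
        refine ⟨fun h => (hsym x u).1 h.2, fun h => ⟨?_, (hsym x u).2 h⟩⟩
        rw [hEC, Finset.mem_filter]
        exact ⟨Finset.mem_univ _, u, (hsym x u).2 h, hu.2⟩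
      rw [Finset.sum_congr rfl h2, Finset.sum_congr rfl h3] at h1
      simp at h1
      omega
    have hNs : N (s C) ⊆ EC := by
      intro x hx
      rw [hEC, Finset.mem_filter]
      exact ⟨Finset.mem_univ _, s C, (hsym x (s C)).2 hx, hs C⟩
    have hsC : s C ∈ VC := by
      rw [hVC, Finset.mem_filter]; exact ⟨Finset.mem_univ _, hs C⟩
    -- injection from VC \ {s C} to EC \ N (s C)
    have hinj : (VC.erase (s C)).card ≤ (EC \ N (s C)).card := by
      have hch : ∀ z ∈ VC.erase (s C), ∃ x ∈ F, z ∈ N x ∧ ∀ b ∈ N x, b ≠ z → c b ≠ c z := by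
        intro z hz
        rw [Finset.mem_erase, hVC, Finset.mem_filter] at hz
        exact hcon z hz.2.2 hz.1
      choose! f hf using hch
      apply Finset.card_le_card_of_injOn f
      · intro z hz
        have hz' := hz
        rw [Finset.mem_coe] at hz
        obtain ⟨hfF, hzf, _⟩ := hf z hz
        rw [Finset.mem_erase, hVC, Finset.mem_filter] at hz
        rw [Finset.mem_coe, Finset.mem_sdiff]
        constructor
        · rw [hEC, Finset.mem_filter]
          exact ⟨Finset.mem_univ _, z, hzf, hz.2.2⟩
        · intro hcon3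
          have h4 : s C ∈ N (f z) := (hsym (f z) (s C)).2 hcon3
          rw [hFdef, Finset.mem_filter] at hfF
          exact hfF.2 _ h4 (by rw [hs])
      · intro z hz z' hz' hzz
        rw [Finset.mem_coe] at hz hz'
        obtain ⟨_, hzf, hzc⟩ := hf z hz
        obtain ⟨_, hzf', hzc'⟩ := hf z' hz'
        by_contra hne
        rw [← hzz] at hzf' hzc'
        -- a third element
        obtain ⟨b, hb, hbz, hbz'⟩ : ∃ b ∈ N (f z), b ≠ z ∧ b ≠ z' := by
          by_contra hcon4
          push Not at hcon4
          have hsub : N (f z) ⊆ {z, z'} := by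
            intro b hb
            rw [Finset.mem_insert, Finset.mem_singleton]
            by_cases h : b = z
            · exact Or.inl h
            · exact Or.inr (hcon4 b hb h)
          have := Finset.card_le_card hsub
          rw [hN] at this
          have h2 : ({z, z'} : Finset V).card ≤ 2 := Finset.card_le_two
          omega
        have e1 := hzc b hb hbz
        have e2 := hzc' b hb hbz'
        have e3 := hzc z' hzf' (Ne.symm hne)
        revert e1 e2 e3
        cases c b <;> cases c z <;> cases c z' <;> simp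
    rw [Finset.card_erase_of_mem hsC, Finset.card_sdiff_of_subset hNs, hN] at hinj
    have hge : 3 ≤ EC.card := by
      rw [← hN (s C)]; exact Finset.card_le_card hNs
    omega
  choose s' hs'1 hs'2 hs'3 using hfree
  refine ⟨s', hs'1, hs'2, c, fun x => ?_⟩
  by_cases hx : ∃ a ∈ N x, a = s (q a)
  · exact Or.inl hx
  · right
    push Not at hx
    have hxF : x ∈ F := by
      rw [hFdef, Finset.mem_filter]; exact ⟨Finset.mem_univ _, hx⟩
    have key : ∀ b : Bool, (∃ a ∈ N x, c a = b) → ∃ a ∈ N x, c a = b ∧ a ≠ s' (q a) := by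
      rintro b ⟨a, ha, hab⟩
      by_cases has : a = s' (q a)
      · have hnc : ¬ crit a := by
          rw [has]; exact hs'3 _
        have : ∃ b' ∈ N x, b' ≠ a ∧ c b' = c a := by
          by_contra hcon
          push Not at hcon
          exact hnc ⟨x, hxF, ha, hcon⟩
        obtain ⟨b', hb', hne, hcb⟩ := this
        refine ⟨b', hb', hcb.trans hab, fun h => ?_⟩
        apply hne
        rw [h, hq1 x b' a hb' ha]
        exact has.symm
      · exact ⟨a, ha, hab, has⟩
    intro b
    cases b
    · exact key false (hc x hxF).2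
    · exact key true (hc x hxF).1

/-- Every finite cubic graph has a nonnegative weighting of its total dominating sets with each vertex in sets of total weight at most 1 and overall weight at least 2, i.e. fractional total domatic number at least 2. -/
theorem result :
    ∀ (V : Type) [Fintype V] [DecidableEq V] (G : SimpleGraph V) [DecidableRel G.Adj],
      G.IsRegularOfDegree 3 →
      ∃ w : Finset V → ℝ,
        (∀ S, 0 ≤ w S) ∧
        (∀ S, w S ≠ 0 → ∀ v : V, ∃ u ∈ S, G.Adj v u) ∧
        (∀ v : V, ∑ S ∈ Finset.univ.filter (fun S : Finset V => v ∈ S), w S ≤ 1) ∧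
        2 ≤ ∑ S, w S := by
  intro V _ _ G _ hreg
  classical
  let N : V → Finset V := fun x => G.neighborFinset x
  have hNmem : ∀ x u, u ∈ N x ↔ G.Adj x u := fun x u => by simp [N]
  have hN : ∀ x, (N x).card = 3 := fun x => hreg x
  have hsym : ∀ x u, u ∈ N x ↔ x ∈ N u := fun x u => by
    rw [hNmem, hNmem]; exact G.adj_comm x u
  let rel : V → V → Prop := fun u v => ∃ x, u ∈ N x ∧ v ∈ N x
  let Q := Quot rel
  let q : V → Q := Quot.mk rel
  have hq : Function.Surjective q := fun C => Quot.exists_rep C
  have hq1 : ∀ x u v, u ∈ N x → v ∈ N x → q u = q v :=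
    fun x u v hu hv => Quot.sound ⟨x, hu, hv⟩
  have hq2 : ∀ U : Finset V, (∀ x u, u ∈ N x → u ∈ U → N x ⊆ U) →
      ∀ u v, q u = q v → u ∈ U → v ∈ U := by
    intro U hU u v huv hu
    let P : Q → Prop := Quot.lift (fun v => v ∈ U) (by
      rintro a b ⟨x, ha, hb⟩
      exact propext ⟨fun h => hU x a ha h hb, fun h => hU x b hb h ha⟩)
    have h1 : P (q u) := hu
    rw [huv] at h1
    exact h1
  have : Finite Q := Finite.of_surjective q hq
  let S := {s : Q → V // ∀ C, q (s C) = C}
  have hstep : ∀ s : S, ∃ s' : S, (∀ C, s'.1 C ≠ s.1 C) ∧ ∃ c : V → Bool,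
      ∀ x, (∃ a ∈ N x, a = s.1 (q a)) ∨
        ∀ b : Bool, ∃ a ∈ N x, c a = b ∧ a ≠ s'.1 (q a) := by
    intro s
    obtain ⟨s', h1, h2, c, h3⟩ := step N hN hsym Q q hq1 hq2 s.1 s.2
    exact ⟨⟨s', h1⟩, h2, c, h3⟩
  choose nxt hne col hcol using hstep
  let s0 : S := ⟨fun C => (hq C).choose, fun C => (hq C).choose_spec⟩
  let σ : ℕ → S := fun i => nxt^[i] s0
  have hσ : ∀ i, σ (i + 1) = nxt (σ i) := fun i => Function.iterate_succ_apply' nxt i s0
  obtain ⟨i0, k, hk, hper⟩ : ∃ i0 k, 0 < k ∧ σ i0 = σ (i0 + k) := by
    obtain ⟨i, j, hij, heq⟩ := Finite.exists_ne_map_eq_of_infinite σ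
    rcases lt_or_gt_of_ne hij with h | h
    · exact ⟨i, j - i, by omega, by rw [heq]; congr 1; omega⟩
    · exact ⟨j, i - j, by omega, by rw [← heq]; congr 1; omega⟩
  let T : S → Bool → Finset V := fun s b =>
    univ.filter (fun v => v = s.1 (q v) ∨ (col s v = b ∧ v ≠ (nxt s).1 (q v)))
  have hkR : (0 : ℝ) < k := by exact_mod_cast hk
  refine ⟨fun A => (∑ m ∈ range k, ∑ b : Bool, if A = T (σ (i0 + m)) b then (1 : ℝ) else 0) / k,
    ?_, ?_, ?_, ?_⟩
  · intro A
    apply div_nonneg _ hkR.le
    exact Finset.sum_nonneg fun m _ => Finset.sum_nonneg fun b _ => by split_ifs <;> norm_num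
  · intro A hA v
    have : ∃ m ∈ range k, ∃ b : Bool, A = T (σ (i0 + m)) b := by
      by_contra hcon
      push Not at hcon
      apply hA
      have : (∑ m ∈ range k, ∑ b : Bool, if A = T (σ (i0 + m)) b then (1 : ℝ) else 0) = 0 :=
        Finset.sum_eq_zero fun m hm => Finset.sum_eq_zero fun b _ => if_neg (hcon m hm b)
      simp only [this, zero_div]
    obtain ⟨m, _, b, rfl⟩ := this
    rcases hcol (σ (i0 + m)) v with ⟨a, ha, has⟩ | h
    · refine ⟨a, ?_, (hNmem v a).1 ha⟩
      simp only [T, Finset.mem_filter]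
      exact ⟨Finset.mem_univ _, Or.inl has⟩
    · obtain ⟨a, ha, hab, has⟩ := h b
      refine ⟨a, ?_, (hNmem v a).1 ha⟩
      simp only [T, Finset.mem_filter]
      exact ⟨Finset.mem_univ _, Or.inr ⟨hab, has⟩⟩
  · intro v
    rw [← Finset.sum_div, div_le_one hkR, Finset.sum_comm]
    have h1 : ∀ m ∈ range k,
        ∑ A ∈ univ.filter (fun A : Finset V => v ∈ A),
          ∑ b : Bool, (if A = T (σ (i0 + m)) b then (1 : ℝ) else 0)
        ≤ 1 + ((if v = (σ (i0 + m)).1 (q v) then (1 : ℝ) else 0)
            - (if v = (σ (i0 + (m + 1))).1 (q v) then (1 : ℝ) else 0)) := by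
      intro m _
      rw [Finset.sum_comm]
      have h2 : ∀ b : Bool, ∑ A ∈ univ.filter (fun A : Finset V => v ∈ A),
          (if A = T (σ (i0 + m)) b then (1 : ℝ) else 0)
          = if v ∈ T (σ (i0 + m)) b then 1 else 0 := by
        intro b
        rw [Finset.sum_ite_eq']
        simp
      simp only [h2]
      have h3 : σ (i0 + (m + 1)) = nxt (σ (i0 + m)) := hσ (i0 + m)
      rw [h3]
      have hne' := hne (σ (i0 + m)) (q v)
      simp only [Fintype.sum_bool, T, Finset.mem_filter, Finset.mem_univ, true_and]
      by_cases hv1 : v = (σ (i0 + m)).1 (q v)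
      · have hv2 : ¬ v = (nxt (σ (i0 + m))).1 (q v) := by
          intro h
          exact hne' (h.symm.trans hv1)
        simp only [← hv1, true_or, if_true, if_neg hv2]
        norm_num
      · by_cases hv2 : v = (nxt (σ (i0 + m))).1 (q v)
        · rw [if_neg, if_neg, if_neg hv1, if_pos hv2]
          · norm_num
          · rintro (h | ⟨_, h⟩)
            · exact hv1 h
            · exact h hv2
          · rintro (h | ⟨_, h⟩)
            · exact hv1 h
            · exact h hv2
        · rw [if_neg hv1, if_neg hv2]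
          cases hcv : col (σ (i0 + m)) v <;> simp [hv1, hv2]
    calc _ ≤ ∑ m ∈ range k, (1 + ((if v = (σ (i0 + m)).1 (q v) then (1 : ℝ) else 0)
            - (if v = (σ (i0 + (m + 1))).1 (q v) then (1 : ℝ) else 0))) :=
          Finset.sum_le_sum h1
      _ = (k : ℝ) + ((if v = (σ (i0 + 0)).1 (q v) then (1 : ℝ) else 0)
            - (if v = (σ (i0 + k)).1 (q v) then (1 : ℝ) else 0)) := by
          rw [Finset.sum_add_distrib,
            Finset.sum_range_sub' (fun m => if v = (σ (i0 + m)).1 (q v) then (1 : ℝ) else 0) k]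
          simp
      _ = (k : ℝ) := by
          rw [← hper]; simp
      _ ≤ _ := le_refl _
  · rw [← Finset.sum_div, le_div_iff₀ hkR, Finset.sum_comm]
    have h1 : ∀ m ∈ range k, ∑ A : Finset V,
        ∑ b : Bool, (if A = T (σ (i0 + m)) b then (1 : ℝ) else 0) = 2 := by
      intro m _
      rw [Finset.sum_comm]
      simp
    rw [Finset.sum_congr rfl h1]
    simp [mul_comm]

end Pool.Agent.S10153
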