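import Pool.Statements.S10304
import Pool.Agent.Helper216_DC.Graph

set_option autoImplicit false
open Pool Pool.MP_982fcc_co

namespace Pool.Agent.S10304

/-- The negation of the preceding statement: Every finite connected simple graph in which deleting the two ends of any edge drops the chromatic number by exactly two is a complete graph. -/
theorem result :
    ¬ (∀ (V : Type) [Fintype V] (G : SimpleGraph V), G.Connected →
      (∀ u v : V, G.Adj u v →
        (G.induce ({u, v}ᶜ : Set V)).chromaticNumber + 2 = G.chromaticNumber) →
      G = ⊤) := by
  intro h
  refine Pool.Agent.Helper216_DC.G_ne_top (h (Fin 40) Pool.Agent.Helper216_DC.G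
    Pool.Agent.Helper216_DC.G_connected (fun u v huv => ?_))
  rw [Pool.Agent.Helper216_DC.chromaticNumber_pair huv, Pool.Agent.Helper216_DC.chromaticNumber_G]
  norm_num

end Pool.Agent.S10304
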