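import Pool.Statements.S10336
import Pool.Agent.Helper396_Occ.Sum

set_option autoImplicit false
open Classical
open Pool Pool.MP_99d978_co

namespace Pool.Agent.S10336

open Pool.Agent.Helper396_Occ

/-- adjacency of the graph on 20 vertices, as a Boolean function -/
def adjG (a b : Fin 20) : Bool :=
  Nat.testBit 0x2b122020462040860022c02088448410000b114110221016800800c060d00218005b1000038088021404148c018081440 (20 * a.val + b.val)

/-- adjacency of the Robertson graph, as a Boolean function -/
def adjR (a b : Fin 19) : Bool :=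
  Nat.testBit 0x95002850020190018a1080c02144401485005120211102211024248042480824811c0010700201c0400708001e (19 * a.val + b.val)

/-- adjacency of the cyclotomic graph, as a Boolean function -/
def adjC (a b : ZMod 13) : Bool :=
  decide (a - b = 1) || decide (a - b = 5) || decide (b - a = 1) || decide (b - a = 5)

lemma adjG_symm : ∀ a b, adjG a b = true → adjG b a = true := by decide +kernel

lemma adjG_loop : ∀ a, ¬ adjG a a = true := by decide +kernel

lemma adjR_symm : ∀ a b, adjR a b = true → adjR b a = true := by decide +kernel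

lemma adjR_loop : ∀ a, ¬ adjR a a = true := by decide +kernel

/-- the graph on 20 vertices -/
def G : SimpleGraph (Fin 20) where
  Adj a b := adjG a b = true
  symm := ⟨fun a b h => adjG_symm a b h⟩
  loopless := ⟨fun a h => adjG_loop a h⟩

/-- the Robertson graph -/
def R : SimpleGraph (Fin 19) where
  Adj a b := adjR a b = true
  symm := ⟨fun a b h => adjR_symm a b h⟩
  loopless := ⟨fun a h => adjR_loop a h⟩

lemma G_adj (a b : Fin 20) : adjG a b = true ↔ G.Adj a b := Iff.rfl

lemma R_adj (a b : Fin 19) : adjR a b = true ↔ R.Adj a b := Iff.rfl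

lemma C_adj (a b : ZMod 13) : adjC a b = true ↔
    (SimpleGraph.fromRel (fun x y : ZMod 13 => x - y = 1 ∨ x - y = 5)).Adj a b := by
  rw [SimpleGraph.fromRel_adj]
  unfold adjC
  have h0 : ∀ a b : ZMod 13, (a - b = 1 ∨ a - b = 5 ∨ b - a = 1 ∨ b - a = 5) → a ≠ b := by
    decide +kernel
  simp only [Bool.or_eq_true, decide_eq_true_eq]
  constructor
  · intro h
    exact ⟨h0 a b (by tauto), by tauto⟩
  · rintro ⟨-, h⟩
    tauto

lemma G_card : ∀ a : Fin 20, (Finset.univ.filter fun b => adjG a b = true).card = 4 := by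
  decide +kernel

lemma R_card : ∀ a : Fin 19, (Finset.univ.filter fun b => adjR a b = true).card = 4 := by
  decide +kernel

lemma G_regular : G.IsRegularOfDegree 4 := by
  intro v
  rw [← G_card v, ← SimpleGraph.card_neighborSet_eq_degree, Fintype.card_subtype]
  congr 1
  ext b
  simp only [Finset.mem_filter, Finset.mem_univ, true_and]
  exact Iff.rfl

lemma R_regular : R.IsRegularOfDegree 4 := by
  intro v
  rw [← R_card v, ← SimpleGraph.card_neighborSet_eq_degree, Fintype.card_subtype]
  congr 1
  ext b
  simp only [Finset.mem_filter, Finset.mem_univ, true_and]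
  exact Iff.rfl

lemma G_tri : ∀ a b, adjG a b = true → ∀ c, adjG b c = true → ¬ adjG a c = true := by
  decide +kernel

lemma G_free : G.CliqueFree 3 := by
  intro s hs
  rw [SimpleGraph.is3Clique_iff] at hs
  obtain ⟨a, b, c, hab, hac, hbc, -⟩ := hs
  exact G_tri a b hab c hbc hac

lemma R_tri : ∀ a b, adjR a b = true → ∀ c, adjR b c = true → ¬ adjR a c = true := by
  decide +kernel

lemma R_quad : ∀ a b, adjR a b = true → ∀ c, adjR b c = true → ∀ d, adjR c d = true →
    adjR d a = true → a = c ∨ b = d := by
  decide +kernel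

lemma R_girth : (5 : ℕ∞) ≤ R.egirth := by
  rw [SimpleGraph.le_egirth]
  intro a w hw
  have h3 := hw.three_le_length
  have h5 : 5 ≤ w.length := by
    by_contra hcon
    have hnd := hw.support_nodup
    match w, hw, h3, hcon, hnd with
    | .nil, _, h3, _, _ => simp at h3
    | .cons _ .nil, _, h3, _, _ => simp at h3
    | .cons _ (.cons _ .nil), _, h3, _, _ => simp at h3
    | .cons h1 (.cons h2 (.cons h3 .nil)), _, _, _, _ =>
      exact R_tri _ _ h1 _ h2 h3.symm
    | .cons h1 (.cons h2 (.cons h3 (.cons h4 .nil))), _, _, _, hnd =>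
      simp only [SimpleGraph.Walk.support_cons, SimpleGraph.Walk.support_nil, List.tail_cons,
        List.nodup_cons, List.mem_cons, List.not_mem_nil, or_false, not_or] at hnd
      rcases R_quad _ _ h1 _ h2 _ h3 h4 with h | h
      · exact hnd.2.1.2 h.symm
      · exact hnd.1.2.1 h
    | .cons _ (.cons _ (.cons _ (.cons _ (.cons _ _)))), _, _, hcon, _ =>
      simp only [SimpleGraph.Walk.length_cons] at hcon
      omega
  exact_mod_cast h5

lemma zb_G : zb adjG (List.finRange 20).length (List.finRange 20) = (72225, 359800) := by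
  decide +kernel

/-- the vertices of the cyclotomic graph -/
def lC : List (ZMod 13) := List.finRange 13

lemma lC_nodup : lC.Nodup := List.nodup_finRange 13

lemma lC_mem (v : ZMod 13) : v ∈ lC := List.mem_finRange v

lemma zb_C : zb adjC lC.length lC = (1483, 4810) := by
  decide +kernel

/-- The negation of the preceding statement: Let L be the largest real root of the sextic. For every finite 4-regular triangle-free G and λ>0: if λ≤L, G's occupancy fraction is at least the Robertson graph's (4-regular, girth 5, 19 vertices); if λ≥L, at least that of the circulant on Z13 with jumps ±1,±5. -/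
theorem result :
    ¬ (∀ L : ℝ,
      90*L^6 + 729*L^5 - 188*L^4 - 1632*L^3 - 1247*L^2 - 363*L - 38 = 0 →
      (∀ x : ℝ, 90*x^6 + 729*x^5 - 188*x^4 - 1632*x^3 - 1247*x^2 - 363*x - 38 = 0 → x ≤ L) →
      ∀ (V : Type) [Fintype V] [Nonempty V] (G : SimpleGraph V),
        G.IsRegularOfDegree 4 → G.CliqueFree 3 →
        ∀ H : SimpleGraph (Fin 19), H.IsRegularOfDegree 4 → (5 : ℕ∞) ≤ H.egirth →
        ∀ l : ℝ, 0 < l →
          (l ≤ L →
            (∑ I : Finset (Fin 19), if H.IsIndepSet (I : Set (Fin 19)) then (I.card : ℝ) * l ^ I.card else 0) /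
              ((Fintype.card (Fin 19) : ℝ) *
                ∑ I : Finset (Fin 19), if H.IsIndepSet (I : Set (Fin 19)) then l ^ I.card else 0)
            ≤
            (∑ I : Finset V, if G.IsIndepSet (I : Set V) then (I.card : ℝ) * l ^ I.card else 0) /
              ((Fintype.card V : ℝ) *
                ∑ I : Finset V, if G.IsIndepSet (I : Set V) then l ^ I.card else 0)) ∧
          (L ≤ l →
            (∑ I : Finset (ZMod 13),
                if (SimpleGraph.fromRel (fun x y : ZMod 13 => x - y = 1 ∨ x - y = 5)).IsIndepSet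
                    (I : Set (ZMod 13))
                then (I.card : ℝ) * l ^ I.card else 0) /
              ((Fintype.card (ZMod 13) : ℝ) *
                ∑ I : Finset (ZMod 13),
                  if (SimpleGraph.fromRel (fun x y : ZMod 13 => x - y = 1 ∨ x - y = 5)).IsIndepSet
                      (I : Set (ZMod 13))
                  then l ^ I.card else 0)
            ≤
            (∑ I : Finset V, if G.IsIndepSet (I : Set V) then (I.card : ℝ) * l ^ I.card else 0) /
              ((Fintype.card V : ℝ) *
                ∑ I : Finset V, if G.IsIndepSet (I : Set V) then l ^ I.card else 0))) := by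
  intro hall
  -- the largest root
  have hpos : ∀ x : ℝ, 2 < x →
      0 < 90*x^6 + 729*x^5 - 188*x^4 - 1632*x^3 - 1247*x^2 - 363*x - 38 := by
    intro x hx
    obtain ⟨y, hy, rfl⟩ : ∃ y : ℝ, 0 < y ∧ x = y + 2 := ⟨x - 2, by linarith, by ring⟩
    have h1 : 90*(y+2)^6 + 729*(y+2)^5 - 188*(y+2)^4 - 1632*(y+2)^3 - 1247*(y+2)^2 - 363*(y+2) - 38
        = 90*y^6 + 1809*y^5 + 12502*y^4 + 40424*y^3 + 64369*y^2 + 44649*y + 7272 := by ring
    rw [h1]
    positivity
  let S : Set ℝ := {x | 90*x^6 + 729*x^5 - 188*x^4 - 1632*x^3 - 1247*x^2 - 363*x - 38 = 0} ∩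
    Set.Icc 1 2
  have hcont : Continuous fun x : ℝ =>
      90*x^6 + 729*x^5 - 188*x^4 - 1632*x^3 - 1247*x^2 - 363*x - 38 := by fun_prop
  have hS1 : IsCompact S := by
    refine IsCompact.inter_left isCompact_Icc ?_
    exact isClosed_eq hcont continuous_const
  have hS2 : S.Nonempty := by
    have h1 := intermediate_value_Icc (a := (1 : ℝ)) (b := 2) (by norm_num) hcont.continuousOn
    have h2 : (0 : ℝ) ∈ Set.Icc (90*(1:ℝ)^6 + 729*1^5 - 188*1^4 - 1632*1^3 - 1247*1^2 - 363*1 - 38)
        (90*(2:ℝ)^6 + 729*2^5 - 188*2^4 - 1632*2^3 - 1247*2^2 - 363*2 - 38) := by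
      constructor <;> norm_num
    obtain ⟨x, hx1, hx2⟩ := h1 h2
    exact ⟨x, hx2, hx1⟩
  obtain ⟨L, hL1, hL2⟩ := hS1.exists_isGreatest hS2
  have hL3 : ∀ x : ℝ, 90*x^6 + 729*x^5 - 188*x^4 - 1632*x^3 - 1247*x^2 - 363*x - 38 = 0 →
      x ≤ L := by
    intro x hx
    rcases lt_or_ge 2 x with h | h
    · exact absurd hx (hpos x h).ne'
    · rcases lt_or_ge x 1 with h' | h'
      · exact h'.le.trans hL1.2.1
      · exact hL2 ⟨hx, h', h⟩
  have h := (hall L hL1.1 hL3 (Fin 20) G G_regular G_free R R_regular R_girth 2
    (by norm_num)).2 hL1.2.2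
  have h := (ratio_eq _ _ _ adjC C_adj lC lC_nodup lC_mem 1483 4810 zb_C).symm.le.trans h
  have h := h.trans (ratio_eq G _ _ adjG G_adj (List.finRange 20) (List.nodup_finRange 20)
    List.mem_finRange 72225 359800 zb_G).le
  rw [ZMod.card, Fintype.card_fin] at h
  norm_num at h

end Pool.Agent.S10336
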