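import Pool.Statements.S10439
import Pool.Agent.H680_CP.Asm3

set_option autoImplicit false
open Pool Pool.MP_9edfd9_co

namespace Pool.Agent.S10439

open Pool.Agent.H680_CP in
theorem rhs_eq (n : ℕ) (k : ℕ → ℕ) (q : ℝ) (K : ℕ) (hK : K = ∑ t ∈ Finset.range (n + 1), k t) :
    E q (n + K + 1) (2 * (n + K + 1)) * E q (2 * (n + K + 1)) (2 * (n + K + 1)) ^ n /
          (E q 1 2 * E q 1 1 ^ n) *
        (∏ i ∈ Finset.Icc 1 n, E q (alph k i) (n + K + 1) *
          E q (n + K + 1 - alph k i) (n + K + 1)) *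
        (∏ i ∈ Finset.Icc 1 n, ∏ l ∈ Finset.Icc (i + 1) n,
          vt q (n + K + 1) (alph k i) (alph k l)) =
    E q (K + n + 1) (2 * (K + n + 1)) * E q (2 * (K + n + 1)) (2 * (K + n + 1)) ^ n /
          (E q 1 2 * (∏' j : ℕ, (1 - q ^ (1 + j))) ^ n) *
        (∏ i ∈ Finset.Icc 1 n, E q ((∑ t ∈ Finset.Icc i n, k t) + (n - i) + 1) (K + n + 1) *
          E q (K + n + 1 - ((∑ t ∈ Finset.Icc i n, k t) + (n - i) + 1)) (K + n + 1)) *
        (∏ i ∈ Finset.Icc 1 n, ∏ l ∈ Finset.Icc (i + 1) n,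
          E q (((∑ t ∈ Finset.Icc i n, k t) - (∑ t ∈ Finset.Icc l n, k t)) + (l - i))
              (2 * (K + n + 1)) *
            E q (2 * (K + n + 1) - (((∑ t ∈ Finset.Icc i n, k t) -
              (∑ t ∈ Finset.Icc l n, k t)) + (l - i))) (2 * (K + n + 1)) *
            E q ((∑ t ∈ Finset.Icc i n, k t) + (∑ t ∈ Finset.Icc l n, k t) +
              (n - i) + (n - l) + 2) (2 * (K + n + 1)) *
            E q (2 * (K + n + 1) - ((∑ t ∈ Finset.Icc i n, k t) +
              (∑ t ∈ Finset.Icc l n, k t) + (n - i) + (n - l) + 2)) (2 * (K + n + 1))) := by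
  have hE1 : E q 1 1 = ∏' j : ℕ, (1 - q ^ (1 + j)) := by
    unfold E
    congr 1
    funext j
    rw [one_mul]
  have hlam : ∀ i, 1 ≤ i → i ≤ n → (∑ t ∈ Finset.Icc i n, k t) + (∑ t ∈ Finset.range i, k t) = K := by
    intro i _ hin
    have h1 : Finset.Icc i n = Finset.Ico i (n + 1) := by
      ext x; simp only [Finset.mem_Icc, Finset.mem_Ico]; omega
    rw [h1, add_comm, Finset.sum_range_add_sum_Ico _ (by omega), hK]
  have hM : n + K + 1 = K + n + 1 := by ring
  rw [hM, hE1]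
  congr 1
  · congr 1
    refine Finset.prod_congr rfl fun i hi => ?_
    rw [Finset.mem_Icc] at hi
    have h1 := hlam i hi.1 hi.2
    have e1 : (∑ t ∈ Finset.Icc i n, k t) + (n - i) + 1 = K + n + 1 - alph k i := by
      unfold alph; omega
    have e2 : K + n + 1 - (K + n + 1 - alph k i) = alph k i := by
      unfold alph; omega
    rw [e1, e2, mul_comm]
  · refine Finset.prod_congr rfl fun i hi => Finset.prod_congr rfl fun l hl => ?_
    rw [Finset.mem_Icc] at hi hl
    have h1 := hlam i hi.1 hi.2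
    have h2 := hlam l (by omega) hl.2
    have h3 : ∑ t ∈ Finset.range i, k t ≤ ∑ t ∈ Finset.range l, k t := sumK_mono k (by omega)
    have e1 : ((∑ t ∈ Finset.Icc i n, k t) - (∑ t ∈ Finset.Icc l n, k t)) + (l - i) =
        alph k l - alph k i := by
      unfold alph; omega
    have e2 : (∑ t ∈ Finset.Icc i n, k t) + (∑ t ∈ Finset.Icc l n, k t) +
              (n - i) + (n - l) + 2 = 2 * (K + n + 1) - (alph k i + alph k l) := by
      unfold alph; omega
    have e3 : 2 * (K + n + 1) - (2 * (K + n + 1) - (alph k i + alph k l)) =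
        alph k i + alph k l := by
      unfold alph; omega
    rw [e1, e2, e3]
    unfold vt
    ring

/-- For n≥1, k_0..k_n and 0<q<1, summing q^weight over (2n+1)-coloured partitions (parts of colour c have parity of c) whose every path sum is at most k gives the stated theta-product formula. -/
theorem result :
  ∀ n : ℕ, 1 ≤ n → ∀ k : ℕ → ℕ, ∀ q : ℝ, 0 < q → q < 1 →
    HasSum
      (fun N : ℕ =>
        ((({f : ℕ → ℕ → ℕ |
            (∀ c i, f c i ≠ 0 → 1 ≤ c ∧ c ≤ 2 * n + 1 ∧ 1 ≤ i ∧ i ≤ N ∧ Even (c + i)) ∧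
            (∑ c ∈ Finset.Icc 1 (2 * n + 1), ∑ i ∈ Finset.Icc 1 N, i * f c i) = N ∧
            ∀ p : ℕ → ℤ,
              (∀ c ∈ Finset.Icc 1 (2 * n + 1), -1 ≤ p c ∧ Even (p c + (c : ℤ))) →
              (∀ c ∈ Finset.Icc 1 (2 * n), |p c - p (c + 1)| = 1) →
              (∑ c ∈ Finset.Icc 1 (2 * n + 1),
                  (if p c = -1 then (if Odd c then k ((c - 1) / 2) else 0)
                   else f c (p c).toNat))
                ≤ ∑ t ∈ Finset.range (n + 1), k t}).ncard : ℕ) : ℝ) * q ^ N)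
      ((∏' j : ℕ, (1 - q ^ (((∑ t ∈ Finset.range (n + 1), k t) + n + 1)
              + (2 * ((∑ t ∈ Finset.range (n + 1), k t) + n + 1)) * j)))
        * (∏' j : ℕ, (1 - q ^ ((2 * ((∑ t ∈ Finset.range (n + 1), k t) + n + 1))
              + (2 * ((∑ t ∈ Finset.range (n + 1), k t) + n + 1)) * j))) ^ n
        / ((∏' j : ℕ, (1 - q ^ (1 + 2 * j))) * (∏' j : ℕ, (1 - q ^ (1 + j))) ^ n)
        * (∏ i ∈ Finset.Icc 1 n,
            ((∏' j : ℕ, (1 - q ^ (((∑ t ∈ Finset.Icc i n, k t) + (n - i) + 1)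
                + ((∑ t ∈ Finset.range (n + 1), k t) + n + 1) * j)))
             * (∏' j : ℕ, (1 - q ^ ((((∑ t ∈ Finset.range (n + 1), k t) + n + 1)
                - ((∑ t ∈ Finset.Icc i n, k t) + (n - i) + 1))
                + ((∑ t ∈ Finset.range (n + 1), k t) + n + 1) * j)))))
        * (∏ i ∈ Finset.Icc 1 n, ∏ l ∈ Finset.Icc (i + 1) n,
            ((∏' j : ℕ, (1 - q ^ ((((∑ t ∈ Finset.Icc i n, k t) - (∑ t ∈ Finset.Icc l n, k t)) + (l - i))
                + (2 * ((∑ t ∈ Finset.range (n + 1), k t) + n + 1)) * j)))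
             * (∏' j : ℕ, (1 - q ^ (((2 * ((∑ t ∈ Finset.range (n + 1), k t) + n + 1))
                - (((∑ t ∈ Finset.Icc i n, k t) - (∑ t ∈ Finset.Icc l n, k t)) + (l - i)))
                + (2 * ((∑ t ∈ Finset.range (n + 1), k t) + n + 1)) * j)))
             * (∏' j : ℕ, (1 - q ^ (((∑ t ∈ Finset.Icc i n, k t) + (∑ t ∈ Finset.Icc l n, k t) + (n - i) + (n - l) + 2)
                + (2 * ((∑ t ∈ Finset.range (n + 1), k t) + n + 1)) * j)))
             * (∏' j : ℕ, (1 - q ^ (((2 * ((∑ t ∈ Finset.range (n + 1), k t) + n + 1))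
                - ((∑ t ∈ Finset.Icc i n, k t) + (∑ t ∈ Finset.Icc l n, k t) + (n - i) + (n - l) + 2))
                + (2 * ((∑ t ∈ Finset.range (n + 1), k t) + n + 1)) * j)))))) := by
  intro n _ k q hq0 hq1
  have h := Pool.Agent.H680_CP.hasSum_alph n k q hq0 hq1 _ rfl
  rw [rhs_eq n k q _ rfl] at h
  exact h

end Pool.Agent.S10439
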