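import Pool.Statements.S10865
-- import your own Pool.Agent.* helpers here
import Pool.Agent.Helper884_Full.Ramsey

set_option autoImplicit false
open Pool Pool.MP_b193f0_co

namespace Pool.Agent.S10865

/-- For every finite poset P and every ε>0, for all large n there is N ≤ (1+ε)n such that every blue/red colouring of the subsets of an N-set has a blue induced copy of P or a red induced copy of the Boolean lattice Q_n. -/
theorem result :
    ∀ (P : Type) [PartialOrder P] [Fintype P], ∀ ε : ℝ, 0 < ε →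
      ∃ n₀ : ℕ, ∀ n : ℕ, n₀ ≤ n →
        ∃ N : ℕ, (N : ℝ) ≤ (1 + ε) * (n : ℝ) ∧
          ∀ c : Finset (Fin N) → Bool,
            (∃ f : P ↪o Finset (Fin N), ∀ x : P, c (f x) = true) ∨
            (∃ g : Finset (Fin n) ↪o Finset (Fin N), ∀ x : Finset (Fin n), c (g x) = false) := by
  intro P _ _ ε hε
  classical
  rcases isEmpty_or_nonempty P with hP | hP
  · refine ⟨0, fun n _ => ⟨n, ?_, fun c => Or.inl ?_⟩⟩
    · have hn0 : (0 : ℝ) ≤ n := Nat.cast_nonneg _
      nlinarith
    · exact ⟨OrderEmbedding.ofIsEmpty, fun x => hP.elim x⟩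
  obtain ⟨le, hle, htrans, hrefl, hno⟩ := Pool.Agent.Helper884_Full.exists_le P
  have hm : 0 < Fintype.card P := Fintype.card_pos
  -- constants
  set δ : ℝ := min ε 1 with hδ
  have hδ0 : 0 < δ := lt_min hε one_pos
  have hδ1 : δ ≤ 1 := min_le_right _ _
  have hδε : δ ≤ ε := min_le_left _ _
  obtain ⟨K₀, hK₀⟩ := Pool.Agent.Helper884_Full.eventually_bdP hm hle htrans hrefl
    (show 0 < δ / 8 by positivity)
  obtain ⟨K₁, hK₁⟩ : ∃ K₁ : ℕ, 16 / δ ≤ K₁ := exists_nat_ge _
  set K : ℕ := K₀ + K₁ + 1 with hK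
  have hKK₁ : (K₁ : ℝ) ≤ K := by
    have : K₁ ≤ K := by omega
    exact_mod_cast this
  have hKpos : (0 : ℝ) < K := by
    have : 0 < K := by omega
    exact_mod_cast this
  have hKbig : 16 ≤ K * δ := by
    rw [div_le_iff₀ hδ0] at hK₁
    nlinarith
  obtain ⟨D, hD, hbd⟩ := hK₀ K (by omega)
  set c : ℝ := δ / 8 * K with hc
  have hc0 : 0 ≤ c := by positivity
  have hmax1 : (1 : ℝ) ≤ max D 1 := le_max_right _ _
  set A : ℝ := Real.logb 2 (max D 1) with hA
  have hApos : (0 : ℝ) < max D 1 := by linarith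
  have h2A : (2 : ℝ) ^ A = max D 1 := Real.rpow_logb (by norm_num) (by norm_num) hApos
  obtain ⟨n₀, hn₀⟩ : ∃ n₀ : ℕ, 2 * (A + K) / (δ * K) < n₀ := exists_nat_gt _
  refine ⟨n₀, fun n hn => ?_⟩
  set k : ℕ := ⌊δ * n⌋₊ with hk
  have hkle : (k : ℝ) ≤ δ * n := Nat.floor_le (by positivity)
  have hklt : δ * n < k + 1 := Nat.lt_floor_add_one _
  have hn0 : (0 : ℝ) ≤ n := Nat.cast_nonneg _
  refine ⟨n + k, ?_, ?_⟩
  · push_cast
    nlinarith
  · intro col
    by_contra hcon
    rw [not_or] at hcon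
    obtain ⟨hblue, hred⟩ := hcon
    set F : Finset (Finset (Fin (n + k))) := Finset.univ.filter (fun z => col z = true) with hF
    have hFmem : ∀ z, z ∈ F ↔ col z = true := by intro z; simp [hF]
    have hfree := hno (n + k) F (by
      rintro ⟨f, hf⟩
      exact hblue ⟨f, fun x => (hFmem _).1 (hf x)⟩)
    have hcount := Pool.Agent.Helper884_Full.ramsey_countP (n := n) (k := k) (r := 2 ^ K)
      (D := max D 1) (c := c) hmax1 hc0 col F hFmem (by
        intro u w S hS
        refine (hbd (n + k) F hfree u w S hS).trans ?_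
        exact mul_le_mul_of_nonneg_right (le_max_left _ _) (by positivity)) hred
    have hlhs : (((2 ^ K : ℕ) : ℝ)) ^ k = (2 : ℝ) ^ ((K : ℝ) * k) := by
      rw [Nat.cast_pow, Nat.cast_ofNat, ← pow_mul, ← Real.rpow_natCast]
      congr 1; push_cast; ring
    have hrhs : 4 ^ (n + k) * (max D 1 * 2 ^ (c * ((n + k : ℕ) : ℝ)))
        = (2 : ℝ) ^ (A + (2 + c) * ((n : ℝ) + k)) := by
      have e1 : (4 : ℝ) ^ (n + k) = 2 ^ ((2 : ℝ) * ((n + k : ℕ) : ℝ)) := by
        rw [Real.rpow_mul (by norm_num), Real.rpow_natCast]; norm_num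
      have e2 : (2 : ℝ) ^ ((2 + c) * ((n : ℝ) + k))
          = 2 ^ ((2 : ℝ) * ((n + k : ℕ) : ℝ)) * 2 ^ (c * ((n + k : ℕ) : ℝ)) := by
        rw [← Real.rpow_add (by norm_num)]
        congr 1; push_cast; ring
      rw [Real.rpow_add (by norm_num), h2A, e1, e2]
      ring
    rw [hlhs, hrhs, Real.rpow_le_rpow_left_iff (by norm_num)] at hcount
    -- arithmetic
    have hnn : (n : ℝ) + k ≤ 2 * n := by nlinarith
    have h3 : (2 + c) * ((n : ℝ) + k) ≤ (2 + c) * (2 * n) :=
      mul_le_mul_of_nonneg_left hnn (by linarith)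
    have h4 : (2 + c) * (2 * n) ≤ δ * K * n / 2 := by
      have h6 : 2 * (2 + c) ≤ δ * K / 2 := by rw [hc]; linarith
      calc (2 + c) * (2 * n) = (2 * (2 + c)) * n := by ring
        _ ≤ (δ * K / 2) * n := mul_le_mul_of_nonneg_right h6 hn0
        _ = δ * K * n / 2 := by ring
    have h7 : (K : ℝ) * (δ * n - 1) ≤ K * k := by
      apply mul_le_mul_of_nonneg_left _ hKpos.le
      linarith
    have h8 : δ * K * n ≤ 2 * (A + K) := by
      have : (K : ℝ) * (δ * n - 1) = δ * K * n - K := by ring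
      linarith
    rw [div_lt_iff₀ (by positivity)] at hn₀
    have h9 : (n₀ : ℝ) ≤ n := by exact_mod_cast hn
    have h10 : (n₀ : ℝ) * (δ * K) ≤ n * (δ * K) :=
      mul_le_mul_of_nonneg_right h9 (by positivity)
    linarith

end Pool.Agent.S10865
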