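-- Counterexample: the hypersimplex {x in [0,1]^3 : 1 <= x0+x1+x2 <= 2} (unimodularly equivalent to
-- Delta(2,4)) with the cyclic group of order three permuting the coordinates.
-- phi(1) = 1 + 2z + z^2 and phi(g) = 1 - z + z^2 for g of order three, so the series is a polynomial,
-- h*_1 = 2 > 0 and the trivial representation has multiplicity (2 - 1 - 1)/3 = 0 in phi_1.
import Pool.Statements.S11006
import Pool.Agent.H176_EH.Series

set_option autoImplicit false
open scoped Pointwise
open Pool Pool.MP_b7cbb2_co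

namespace Pool.Agent.S11006

open Pool.Agent.H176_EH in
theorem phi_zero :
    PowerSeries.mk (fun m : ℕ =>
          ((Set.ncard {x : Fin 3 → ℤ |
              (fun j => ((x j : ℤ) : ℝ)) ∈ (m : ℝ) • Q ∧
              Matrix.mulVec (M 0) x = x} : ℕ) : ℤ))
        * (1 - PowerSeries.X)
        * ((Matrix.det (1 - (Polynomial.X : Polynomial ℤ) •
              (M 0).map Polynomial.C) : Polynomial ℤ) : PowerSeries ℤ) =
      PowerSeries.mk (D (D (D (D (fun m => ((S m).card : ℤ)))))) := by
  have h1 : (Matrix.det (1 - (Polynomial.X : Polynomial ℤ) •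
              (M 0).map Polynomial.C) : Polynomial ℤ) = (1 - Polynomial.X) ^ 3 := by
    rw [M_zero]
    simp [Matrix.det_fin_three]
    ring
  rw [h1]
  simp only [ncard_zero]
  rw [Polynomial.coe_pow, Polynomial.coe_sub, Polynomial.coe_one, Polynomial.coe_X,
    ← mk_mul_D, ← mk_mul_D, ← mk_mul_D, ← mk_mul_D]
  ring

open Pool.Agent.H176_EH in
theorem phi_ne (g : ZMod 3) (hg : g ≠ 0) :
    PowerSeries.mk (fun m : ℕ =>
          ((Set.ncard {x : Fin 3 → ℤ |
              (fun j => ((x j : ℤ) : ℝ)) ∈ (m : ℝ) • Q ∧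
              Matrix.mulVec (M g) x = x} : ℕ) : ℤ))
        * (1 - PowerSeries.X)
        * ((Matrix.det (1 - (Polynomial.X : Polynomial ℤ) •
              (M g).map Polynomial.C) : Polynomial ℤ) : PowerSeries ℤ) =
      PowerSeries.mk (D3 (D (fun m => ((2 * m / 3 + 1 - (m + 2) / 3 : ℕ) : ℤ)))) := by
  have h1 : (Matrix.det (1 - (Polynomial.X : Polynomial ℤ) •
              (M g).map Polynomial.C) : Polynomial ℤ) = 1 - Polynomial.X ^ 3 := by
    have h : g = 1 ∨ g = 2 := by revert g; decide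
    rcases h with rfl | rfl
    · have m1 : M 1 = !![0, 0, 1; 1, 0, 0; 0, 1, 0] := by decide
      rw [m1]
      simp [Matrix.det_fin_three, Matrix.map_apply]
      ring
    · have m2 : M 2 = !![0, 1, 0; 0, 0, 1; 1, 0, 0] := by decide
      rw [m2]
      simp [Matrix.det_fin_three, Matrix.map_apply]
      ring
  rw [h1]
  simp only [ncard_ne g hg]
  rw [Polynomial.coe_sub, Polynomial.coe_one, Polynomial.coe_pow, Polynomial.coe_X,
    ← mk_mul_D3, ← mk_mul_D]

/-- The negation of the preceding statement: For any finite group acting linearly on Z^n and invariant lattice polytope P whose equivariant h*-series is a polynomial, every coefficient with positive h*_i has nonzero sum over the group, i.e. contains the trivial representation. -/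
theorem result :
    ¬ (∀ (G : Type) [Group G] [Fintype G] (n : ℕ)
      (ρ : G →* Matrix.GeneralLinearGroup (Fin n) ℤ)
      (V : Finset (Fin n → ℤ)) (P : Set (Fin n → ℝ)),
      V.Nonempty →
      (∀ g : G, ∀ v ∈ V,
        Matrix.mulVec (ρ g : Matrix (Fin n) (Fin n) ℤ) v ∈ V) →
      P = convexHull ℝ
        ((fun v : Fin n → ℤ => fun j => ((v j : ℤ) : ℝ)) '' (V : Set (Fin n → ℤ))) →
      ∀ (d : ℕ) (ι : (Fin d → ℤ) →ₗ[ℤ] (Fin n → ℤ))
        (σ : G → Matrix (Fin d) (Fin d) ℤ) (Φ : G → PowerSeries ℤ),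
      Function.Injective ι →
      (∀ x : Fin n → ℤ,
        (∃ y : Fin d → ℤ, ι y = x) ↔
          (fun j => ((x j : ℤ) : ℝ)) ∈ vectorSpan ℝ P) →
      (∀ (g : G) (y : Fin d → ℤ),
        ι (Matrix.mulVec (σ g) y) =
          Matrix.mulVec (ρ g : Matrix (Fin n) (Fin n) ℤ) (ι y)) →
      (∀ g : G, Φ g =
        PowerSeries.mk (fun m : ℕ =>
          ((Set.ncard {x : Fin n → ℤ |
              (fun j => ((x j : ℤ) : ℝ)) ∈ (m : ℝ) • P ∧
              Matrix.mulVec (ρ g : Matrix (Fin n) (Fin n) ℤ) x = x} : ℕ) : ℤ))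
        * (1 - PowerSeries.X)
        * ((Matrix.det (1 - (Polynomial.X : Polynomial ℤ) •
              (σ g).map Polynomial.C) : Polynomial ℤ) : PowerSeries ℤ)) →
      (∃ N : ℕ, ∀ g : G, ∀ i : ℕ, N ≤ i →
        PowerSeries.coeff (R := ℤ) i (Φ g) = 0) →
      ∀ i : ℕ, 0 < PowerSeries.coeff (R := ℤ) i (Φ 1) →
        (∑ g : G, PowerSeries.coeff (R := ℤ) i (Φ g)) ≠ 0) := by
  intro H
  have hQ := Pool.Agent.H176_EH.hull_eq.symm
  have hspan : vectorSpan ℝ Pool.Agent.H176_EH.Q = ⊤ := by
    rw [eq_top_iff]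
    intro x _
    have hmem : ∀ v ∈ Pool.Agent.H176_EH.V,
        (fun j => ((v j : ℤ) : ℝ)) ∈ Pool.Agent.H176_EH.Q := by
      intro v hv
      rw [hQ]
      exact subset_convexHull ℝ _ ⟨v, hv, rfl⟩
    have m1 := hmem ![1, 0, 0] (by decide)
    have m2 := hmem ![0, 1, 0] (by decide)
    have m12 := hmem ![1, 1, 0] (by decide)
    have m13 := hmem ![1, 0, 1] (by decide)
    have e0 := vsub_mem_vectorSpan ℝ m12 m2
    have e1 := vsub_mem_vectorSpan ℝ m12 m1
    have e2 := vsub_mem_vectorSpan ℝ m13 m1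
    have h := Submodule.add_mem _ (Submodule.add_mem _ (Submodule.smul_mem _ (x 0) e0)
      (Submodule.smul_mem _ (x 1) e1)) (Submodule.smul_mem _ (x 2) e2)
    convert h using 1
    ext i
    fin_cases i <;> simp
  have key := H (Multiplicative (ZMod 3)) 3 Pool.Agent.H176_EH.rho Pool.Agent.H176_EH.V
    Pool.Agent.H176_EH.Q ⟨![1, 0, 0], by decide⟩
    (fun g v hv => Pool.Agent.H176_EH.V_inv g.toAdd v hv) hQ 3 LinearMap.id
    (fun g => Pool.Agent.H176_EH.M g.toAdd)
    (fun g => PowerSeries.mk (fun m : ℕ =>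
          ((Set.ncard {x : Fin 3 → ℤ |
              (fun j => ((x j : ℤ) : ℝ)) ∈ (m : ℝ) • Pool.Agent.H176_EH.Q ∧
              Matrix.mulVec (Pool.Agent.H176_EH.M g.toAdd) x = x} : ℕ) : ℤ))
        * (1 - PowerSeries.X)
        * ((Matrix.det (1 - (Polynomial.X : Polynomial ℤ) •
              (Pool.Agent.H176_EH.M g.toAdd).map Polynomial.C) : Polynomial ℤ) : PowerSeries ℤ))
    (fun a b h => h)
    (by
      intro x
      rw [hspan]
      simp)
    (by
      intro g y
      rfl)
    (by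
      intro g
      rfl)
  have hc : ∀ n : ℕ, (3 : ℤ) * ((Pool.Agent.H176_EH.S n).card : ℤ) =
      2 * (n : ℤ) ^ 3 + 6 * (n : ℤ) ^ 2 + 7 * (n : ℤ) + 3 := by
    intro n
    exact_mod_cast Pool.Agent.H176_EH.card_S n
  have key2 := key
    (by
      refine ⟨5, ?_⟩
      intro g i hi
      obtain ⟨j, rfl⟩ : ∃ j, i = j + 5 := ⟨i - 5, by omega⟩
      by_cases hg : g.toAdd = 0
      · simp only [hg]
        rw [phi_zero, PowerSeries.coeff_mk]
        simp only [Pool.Agent.H176_EH.D]
        have a5 := hc (j + 5)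
        have a4 := hc (j + 4)
        have a3 := hc (j + 3)
        have a2 := hc (j + 2)
        have a1 := hc (j + 1)
        push_cast at a5 a4 a3 a2 a1
        have : (3 : ℤ) * (((((Pool.Agent.H176_EH.S (j + 5)).card : ℤ) - (Pool.Agent.H176_EH.S (j + 4)).card -
          ((Pool.Agent.H176_EH.S (j + 4)).card - (Pool.Agent.H176_EH.S (j + 3)).card)) -
          ((Pool.Agent.H176_EH.S (j + 4)).card - (Pool.Agent.H176_EH.S (j + 3)).card -
          ((Pool.Agent.H176_EH.S (j + 3)).card - (Pool.Agent.H176_EH.S (j + 2)).card))) -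
          (((Pool.Agent.H176_EH.S (j + 4)).card - (Pool.Agent.H176_EH.S (j + 3)).card -
          ((Pool.Agent.H176_EH.S (j + 3)).card - (Pool.Agent.H176_EH.S (j + 2)).card)) -
          ((Pool.Agent.H176_EH.S (j + 3)).card - (Pool.Agent.H176_EH.S (j + 2)).card -
          ((Pool.Agent.H176_EH.S (j + 2)).card - (Pool.Agent.H176_EH.S (j + 1)).card)))) = 0 := by
          linarith
        linarith
      · rw [phi_ne _ hg, PowerSeries.coeff_mk]
        simp only [Pool.Agent.H176_EH.D, Pool.Agent.H176_EH.D3]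
        obtain ⟨q, hq⟩ : ∃ q, j = 3 * q ∨ j = 3 * q + 1 ∨ j = 3 * q + 2 := ⟨j / 3, by omega⟩
        rcases hq with rfl | rfl | rfl <;> omega)
    1
    (by
      have h0 : Multiplicative.toAdd (1 : Multiplicative (ZMod 3)) = 0 := rfl
      simp only [h0]
      rw [phi_zero, PowerSeries.coeff_mk]
      simp only [Pool.Agent.H176_EH.D]
      have a1 := hc 1
      have a0 := hc 0
      norm_num at a1 a0
      linarith)
  apply key2
  have hsum : ∀ f : Multiplicative (ZMod 3) → ℤ, ∑ g : Multiplicative (ZMod 3), f g =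
      f (Multiplicative.ofAdd 0) + f (Multiplicative.ofAdd 1) + f (Multiplicative.ofAdd 2) := by
    intro f
    exact Fin.sum_univ_three (fun g : Fin 3 => f (Multiplicative.ofAdd (g : ZMod 3)))
  rw [hsum]
  simp only [toAdd_ofAdd]
  rw [phi_zero, phi_ne 1 (by decide), phi_ne 2 (by decide), PowerSeries.coeff_mk,
    PowerSeries.coeff_mk]
  simp only [Pool.Agent.H176_EH.D, Pool.Agent.H176_EH.D3]
  have a1 := hc 1
  have a0 := hc 0
  norm_num at a1 a0
  norm_num
  linarith

end Pool.Agent.S11006
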