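import Pool.Statements.S11420
import Pool.Agent.helper287_Sidon.Reals

set_option autoImplicit false
open Pool Pool.MP_ca07c0_co

namespace Pool.Agent.S11420

/-- The negation of the preceding statement: Let l(N) be the largest k such that every N-element set of reals contains a Sidon subset (a+b=c+d only trivially) of size k; then l(N)/sqrt(N) tends to 1 as N grows. -/
theorem result :
    ¬ (Filter.Tendsto
      (fun N : ℕ =>
        ((sSup {k : ℕ | ∀ A : Finset ℝ, A.card = N →
            ∃ S ⊆ A, S.card = k ∧
              ∀ a ∈ S, ∀ b ∈ S, ∀ c ∈ S, ∀ d ∈ S,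
                a + b = c + d → (a = c ∧ b = d) ∨ (a = d ∧ b = c)} : ℕ) : ℝ)
          / Real.sqrt (N : ℝ))
      Filter.atTop (nhds 1)) := by
  exact Pool.Agent.helper287_Sidon.disproof_sidon

end Pool.Agent.S11420
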