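import Pool.Statements.S11473
import Pool.Agent.H763_lmd.Main

set_option autoImplicit false
open Pool Pool.MP_cc29fe_co

namespace Pool.Agent.S11473

open Finset Pool.Agent.H763_lmd

/-- Every finite connected graph with n vertices and clique number ω, where n ≥ ω+1 ≥ 4, has a set of at most (ω−2)/(ω−1)·n vertices distinguishing every adjacent pair by distance, i.e. local metric dimension ≤ (ω−2)n/(ω−1). -/
theorem result :
    ∀ (V : Type) [Fintype V] (G : SimpleGraph V), G.Connected →
      ∀ ω : ℕ, (∃ s : Finset V, G.IsNClique ω s) → G.CliqueFree (ω + 1) →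
        4 ≤ ω + 1 → ω + 1 ≤ Fintype.card V →
        ∃ W : Finset V,
          (∀ u v : V, G.Adj u v → ∃ w ∈ W, G.dist u w ≠ G.dist v w) ∧
          (W.card : ℝ) ≤ ((ω : ℝ) - 2) / ((ω : ℝ) - 1) * (Fintype.card V : ℝ) := by
  intro V _ G hconn ω _ hcf h4 hcard
  classical
  obtain ⟨k, rfl⟩ : ∃ k, ω = k + 1 := ⟨ω - 1, by omega⟩
  have hk : 2 ≤ k := by omega
  have hiso : NoIso G k := by
    intro Q hQ
    have hQne : Q.Nonempty := by
      rw [← card_pos, hQ.card_eq]; omega
    obtain ⟨q, hq⟩ := hQne
    obtain ⟨s, hs⟩ : ∃ s, s ∉ Q := by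
      by_contra hcon
      push Not at hcon
      have : Fintype.card V ≤ Q.card := card_le_card (fun x _ => hcon x)
      rw [hQ.card_eq] at this
      omega
    obtain ⟨p⟩ := hconn.preconnected q s
    obtain ⟨d, _, hd1, hd2⟩ := p.exists_boundary_dart (Q : Set V) (by simpa using hq) (by simpa using hs)
    exact ⟨d.fst, by simpa using hd1, d.snd, by simpa using hd2, d.adj⟩
  obtain ⟨c, hc⟩ := exists_good hk _ V G rfl hcf hiso
  -- a large colour class
  obtain ⟨i, hi⟩ : ∃ i : Fin k, Fintype.card V ≤ k * (univ.filter (fun x => c x = i)).card := by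
    by_contra hcon
    push Not at hcon
    have h1 : ∑ i : Fin k, (univ.filter (fun x => c x = i)).card = Fintype.card V := by
      rw [← card_eq_sum_card_fiberwise (f := c) (s := univ) (t := univ) (by simp)]
      rfl
    have h2 : ∑ i : Fin k, k * (univ.filter (fun x => c x = i)).card < ∑ _i : Fin k, Fintype.card V := by
      apply sum_lt_sum_of_nonempty
      · exact ⟨⟨0, by omega⟩, mem_univ _⟩
      · intro i _
        exact hcon i
    rw [← mul_sum, h1] at h2
    simp at h2
  refine ⟨univ.filter (fun x => c x ≠ i), ?_, ?_⟩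
  · intro u v huv
    have key : ∀ a b, G.Adj a b → c a ≠ i → G.dist a a ≠ G.dist b a := by
      intro a b hab _
      rw [SimpleGraph.dist_self, SimpleGraph.dist_eq_one_iff_adj.2 hab.symm]
      exact zero_ne_one
    by_cases hu : c u = i
    · by_cases hv : c v = i
      · obtain ⟨w, hw1, hw2⟩ := hc u v huv (hu.trans hv.symm)
        refine ⟨w, by simpa [← hu] using hw1, ?_⟩
        intro hd
        apply hw2
        rw [G.adj_comm w u, G.adj_comm w v, ← SimpleGraph.dist_eq_one_iff_adj,
          ← SimpleGraph.dist_eq_one_iff_adj, hd]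
      · exact ⟨v, by simpa using hv, (key v u huv.symm hv).symm⟩
    · exact ⟨u, by simpa using hu, key u v huv hu⟩
  · have h1 : (univ.filter (fun x => c x = i)).card + (univ.filter (fun x => c x ≠ i)).card
        = Fintype.card V := by
      have := card_filter_add_card_filter_not (s := (univ : Finset V)) (fun x => c x = i)
      simpa using this
    have hk0 : (0 : ℝ) < k := by exact_mod_cast (by omega : 0 < k)
    have h2 : ((univ.filter (fun x => c x ≠ i)).card : ℝ)
        = Fintype.card V - (univ.filter (fun x => c x = i)).card := by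
      rw [← h1]; push_cast; ring
    have h3 : (Fintype.card V : ℝ) ≤ k * (univ.filter (fun x => c x = i)).card := by
      exact_mod_cast hi
    rw [h2]
    push_cast
    rw [show ((k : ℝ) + 1 - 2) / ((k : ℝ) + 1 - 1) = (k - 1) / k by ring_nf]
    rw [div_mul_eq_mul_div, le_div_iff₀ hk0]
    nlinarith

end Pool.Agent.S11473
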