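import Pool.Statements.S11587
import Pool.Agent.H103.OS.Last

set_option autoImplicit false
open Pool Pool.MP_d12cfa_co

namespace Pool.Agent.S11587

/-- For every n ≥ 1, the number of symmetric (2n+1)×(2n+1) alternating sign matrices with at most one nonzero diagonal entry equals 2^(n-1)(3n+2)!/(2n+1)! times the product over i=1..n of (6i-2)!/(2n+2i+1)!. -/
theorem result :
    ∀ n : ℕ, 1 ≤ n →
      ((Nat.card {A : Matrix (Fin (2 * n + 1)) (Fin (2 * n + 1)) ℤ //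
          (∀ i j, A i j = -1 ∨ A i j = 0 ∨ A i j = 1) ∧
          (∀ i k, (∑ j ∈ Finset.Iic k, A i j) = 0 ∨ (∑ j ∈ Finset.Iic k, A i j) = 1) ∧
          (∀ i, (∑ j, A i j) = 1) ∧
          (∀ j k, (∑ i ∈ Finset.Iic k, A i j) = 0 ∨ (∑ i ∈ Finset.Iic k, A i j) = 1) ∧
          (∀ j, (∑ i, A i j) = 1) ∧
          (∀ i j, A i j = A j i) ∧
          (∃ d : Fin (2 * n + 1), ∀ i, i ≠ d → A i i = 0)} : ℕ) : ℚ)
        = (2 : ℚ) ^ (n - 1) * ((Nat.factorial (3 * n + 2) : ℕ) : ℚ)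
            / ((Nat.factorial (2 * n + 1) : ℕ) : ℚ)
          * ∏ i ∈ Finset.Icc 1 n,
              (((Nat.factorial (6 * i - 2) : ℕ) : ℚ)
                / ((Nat.factorial (2 * n + 2 * i + 1) : ℕ) : ℚ)) := by
  exact fun n hn => Pool.Agent.H103.OS.osasm_count n hn

end Pool.Agent.S11587
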