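import Pool.Statements.S11608

set_option autoImplicit false
open Pool Pool.MP_d1f9c8_co

namespace Pool.Agent.S11608

/-- At most two vertices, or edgeless on at most three vertices
(the subgraphs of the edge and of three isolated vertices). -/
def PP {V : Type} (G : SimpleGraph V) : Prop :=
  Nat.card V ≤ 2 ∨ (Nat.card V ≤ 3 ∧ ∀ x y, ¬ G.Adj x y)

/-- At most four vertices, or bipartite with both parts of size at most three
(the subgraphs of `K₄` and of `K₃,₃`). -/
def QQ {V : Type} (G : SimpleGraph V) : Prop :=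
  Nat.card V ≤ 4 ∨ ∃ T : Set V, T.ncard ≤ 3 ∧ Tᶜ.ncard ≤ 3 ∧
    (∀ x ∈ T, ∀ y ∈ T, ¬ G.Adj x y) ∧ (∀ x ∈ Tᶜ, ∀ y ∈ Tᶜ, ¬ G.Adj x y)

lemma PP_hered {V W : Type} [Finite V] [Finite W] (G : SimpleGraph V) (H : SimpleGraph W)
    (f : H →g G) (hf : Function.Injective f) (h : PP G) : PP H := by
  have hc : Nat.card W ≤ Nat.card V := Nat.card_le_card_of_injective f hf
  rcases h with h | ⟨h, h'⟩
  · exact Or.inl (hc.trans h)
  · exact Or.inr ⟨hc.trans h, fun x y hxy => h' _ _ (f.map_adj hxy)⟩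

lemma QQ_hered {V W : Type} [Finite V] [Finite W] (G : SimpleGraph V) (H : SimpleGraph W)
    (f : H →g G) (hf : Function.Injective f) (h : QQ G) : QQ H := by
  have hc : Nat.card W ≤ Nat.card V := Nat.card_le_card_of_injective f hf
  rcases h with h | ⟨T, h1, h2, h3, h4⟩
  · exact Or.inl (hc.trans h)
  · refine Or.inr ⟨f ⁻¹' T, ?_, ?_, ?_, ?_⟩
    · refine le_trans ?_ h1
      exact Set.ncard_le_ncard_of_injOn f (fun x hx => hx) (hf.injOn) (Set.toFinite _)
    · refine le_trans ?_ h2
      exact Set.ncard_le_ncard_of_injOn f (fun x hx => hx) (hf.injOn) (Set.toFinite _)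
    · intro x hx y hy hxy
      exact h3 _ hx _ hy (f.map_adj hxy)
    · intro x hx y hy hxy
      exact h4 _ hx _ hy (f.map_adj hxy)

/-- The two classes as families over `Fin n`. -/
def P (n : ℕ) (G : SimpleGraph (Fin n)) : Prop := PP G
def Q (n : ℕ) (G : SimpleGraph (Fin n)) : Prop := QQ G

/-- A graph on any vertex type is isomorphic to a member of the class `A`. -/
def Mem (A : (n : ℕ) → SimpleGraph (Fin n) → Prop) {V : Type} (G : SimpleGraph V) : Prop :=
  ∃ (r : ℕ) (K : SimpleGraph (Fin r)), A r K ∧ Nonempty (G ≃g K)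

lemma mem_P {V : Type} [Finite V] (G : SimpleGraph V) : Mem P G ↔ PP G := by
  constructor
  · rintro ⟨r, K, hK, ⟨e⟩⟩
    exact PP_hered K G e.toHom e.injective hK
  · intro h
    refine ⟨Nat.card V, G.map (Finite.equivFin V).toEmbedding, ?_, ⟨SimpleGraph.Iso.map _ G⟩⟩
    exact PP_hered G _ (SimpleGraph.Iso.map (Finite.equivFin V) G).symm.toHom
      (SimpleGraph.Iso.map (Finite.equivFin V) G).symm.injective h

lemma mem_Q {V : Type} [Finite V] (G : SimpleGraph V) : Mem Q G ↔ QQ G := by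
  constructor
  · rintro ⟨r, K, hK, ⟨e⟩⟩
    exact QQ_hered K G e.toHom e.injective hK
  · intro h
    refine ⟨Nat.card V, G.map (Finite.equivFin V).toEmbedding, ?_, ⟨SimpleGraph.Iso.map _ G⟩⟩
    exact QQ_hered G _ (SimpleGraph.Iso.map (Finite.equivFin V) G).symm.toHom
      (SimpleGraph.Iso.map (Finite.equivFin V) G).symm.injective h

lemma PP_induce {n : ℕ} (G : SimpleGraph (Fin n)) (S : Set (Fin n)) :
    PP (G.induce S) ↔ (S.ncard ≤ 2 ∨ (S.ncard ≤ 3 ∧ ∀ x ∈ S, ∀ y ∈ S, ¬ G.Adj x y)) := by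
  unfold PP
  rw [Nat.card_coe_set_eq]
  simp

/-- Splitting a member of `Q` into two members of `P`. -/
lemma QQ_split {n : ℕ} (G : SimpleGraph (Fin n)) (S : Set (Fin n)) (h : QQ (G.induce S)) :
    ∃ T ⊆ S, PP (G.induce T) ∧ PP (G.induce (S \ T)) := by
  rcases h with h | ⟨T, h1, h2, h3, h4⟩
  · rw [Nat.card_coe_set_eq] at h
    by_cases h2 : S.ncard ≤ 2
    · refine ⟨S, le_rfl, ?_, ?_⟩
      · rw [PP_induce]; exact Or.inl h2
      · rw [PP_induce]; left; simp
    · push Not at h2
      obtain ⟨T, hT, hTc⟩ := Set.exists_subset_card_eq (s := S) (n := 2) h2.le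
      refine ⟨T, hT, ?_, ?_⟩
      · rw [PP_induce]; exact Or.inl hTc.le
      · rw [PP_induce]; left
        have := Set.ncard_sdiff_add_ncard_of_subset hT
        omega
  · refine ⟨Subtype.val '' T, ?_, ?_, ?_⟩
    · rintro x ⟨y, _, rfl⟩; exact y.2
    · rw [PP_induce]; right
      refine ⟨?_, ?_⟩
      · rwa [Set.ncard_image_of_injective _ Subtype.val_injective]
      · rintro x ⟨x', hx', rfl⟩ y ⟨y', hy', rfl⟩ hxy
        exact h3 _ hx' _ hy' hxy
    · rw [PP_induce]; right
      have hS : S \ (Subtype.val '' T) = Subtype.val '' (Tᶜ : Set S) := by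
        ext x; constructor
        · rintro ⟨hx, hx'⟩
          exact ⟨⟨x, hx⟩, fun h => hx' ⟨_, h, rfl⟩, rfl⟩
        · rintro ⟨y, hy, rfl⟩
          refine ⟨y.2, ?_⟩
          rintro ⟨z, hz, hzy⟩
          exact hy (Subtype.val_injective hzy ▸ hz)
      rw [hS]
      refine ⟨?_, ?_⟩
      · rwa [Set.ncard_image_of_injective _ Subtype.val_injective]
      · rintro x ⟨x', hx', rfl⟩ y ⟨y', hy', rfl⟩ hxy
        exact h4 _ hx' _ hy' hxy

/-- Merging two small sets or two independent sets gives a member of `Q`. -/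
lemma QQ_merge {n : ℕ} (G : SimpleGraph (Fin n)) (S T U : Set (Fin n)) (hU : U = S ∪ T)
    (h : (S.ncard ≤ 2 ∧ T.ncard ≤ 2) ∨
      ((S.ncard ≤ 3 ∧ ∀ x ∈ S, ∀ y ∈ S, ¬ G.Adj x y) ∧
        (T.ncard ≤ 3 ∧ ∀ x ∈ T, ∀ y ∈ T, ¬ G.Adj x y))) : QQ (G.induce U) := by
  subst hU
  rcases h with ⟨h1, h2⟩ | ⟨⟨h1, h1'⟩, ⟨h2, h2'⟩⟩
  · left
    rw [Nat.card_coe_set_eq]
    have := Set.ncard_union_le S T
    omega
  · right
    refine ⟨Subtype.val ⁻¹' S, ?_, ?_, ?_, ?_⟩
    · refine le_trans ?_ h1
      exact Set.ncard_le_ncard_of_injOn Subtype.val (fun x hx => hx)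
        (Subtype.val_injective.injOn) (Set.toFinite _)
    · refine le_trans ?_ h2
      refine Set.ncard_le_ncard_of_injOn Subtype.val (fun x hx => ?_)
        (Subtype.val_injective.injOn) (Set.toFinite _)
      rcases x.2 with h | h
      · exact absurd h hx
      · exact h
    · intro x hx y hy hxy
      exact h1' _ hx _ hy hxy
    · intro x hx y hy hxy
      have hx' : x.1 ∈ T := by
        rcases x.2 with h | h
        · exact absurd h hx
        · exact h
      have hy' : y.1 ∈ T := by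
        rcases y.2 with h | h
        · exact absurd h hy
        · exact h
      exact h2' _ hx' _ hy' hxy

/-- The hypothesis that a family is closed under subgraphs. -/
def Hered (A : (n : ℕ) → SimpleGraph (Fin n) → Prop) : Prop :=
  ∀ (a b : ℕ) (G : SimpleGraph (Fin a)) (H : SimpleGraph (Fin b)) (f : H →g G),
    Function.Injective f → A a G → A b H

lemma mem_sub {A : (n : ℕ) → SimpleGraph (Fin n) → Prop} (hA : Hered A) {V : Type}
    {G : SimpleGraph V} (h : Mem A G) {b : ℕ} (H : SimpleGraph (Fin b)) (f : H →g G)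
    (hf : Function.Injective f) : A b H := by
  obtain ⟨r, K, hK, ⟨e⟩⟩ := h
  exact hA r b K H (e.toHom.comp f) (e.injective.comp hf) hK

lemma exists_emb {n k : ℕ} (S : Set (Fin n)) (h : k ≤ S.ncard) :
    ∃ f : Fin k → S, Function.Injective f := by
  have e := Finite.equivFin S
  rw [Nat.card_coe_set_eq] at e
  exact ⟨fun i => e.symm (Fin.castLE h i),
    fun i j hij => Fin.castLE_injective h (e.symm.injective hij)⟩

lemma bot_of_mem {A : (n : ℕ) → SimpleGraph (Fin n) → Prop} (hA : Hered A) {n : ℕ}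
    {G : SimpleGraph (Fin n)} {S : Set (Fin n)} (h : Mem A (G.induce S)) {k : ℕ}
    (hk : k ≤ S.ncard) : A k ⊥ := by
  obtain ⟨f, hf⟩ := exists_emb S hk
  exact mem_sub hA h ⊥ ⟨f, fun {a b} hab => absurd hab (by simp)⟩ hf

lemma top_of_mem {A : (n : ℕ) → SimpleGraph (Fin n) → Prop} (hA : Hered A) {n : ℕ}
    {S : Set (Fin n)} (h : Mem A ((⊤ : SimpleGraph (Fin n)).induce S)) {k : ℕ}
    (hk : k ≤ S.ncard) : A k ⊤ := by
  obtain ⟨f, hf⟩ := exists_emb S hk
  refine mem_sub hA h ⊤ ⟨f, fun {a b} hab => ?_⟩ hf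
  simp only [SimpleGraph.top_adj] at hab
  simp only [SimpleGraph.comap_adj, SimpleGraph.top_adj, Function.Embedding.subtype_apply]
  intro h
  exact hab (hf (Subtype.val_injective h))

lemma exists_equiv {n k : ℕ} (S : Set (Fin n)) (h : S.ncard = k) : Nonempty (S ≃ Fin k) := by
  refine ⟨(Finite.equivFin S).trans (finCongr ?_)⟩
  rw [Nat.card_coe_set_eq, h]

lemma mem_of_bot {A : (n : ℕ) → SimpleGraph (Fin n) → Prop} {n k : ℕ} (hA : A k ⊥)
    (G : SimpleGraph (Fin n)) (S : Set (Fin n)) (h : S.ncard = k)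
    (hS : ∀ x ∈ S, ∀ y ∈ S, ¬ G.Adj x y) : Mem A (G.induce S) := by
  obtain ⟨e⟩ := exists_equiv S h
  refine ⟨k, ⊥, hA, ⟨⟨e, ?_⟩⟩⟩
  intro a b
  simp only [SimpleGraph.bot_adj, false_iff]
  exact hS _ a.2 _ b.2

lemma mem_of_top {A : (n : ℕ) → SimpleGraph (Fin n) → Prop} {n k : ℕ} (hA : A k ⊤)
    (G : SimpleGraph (Fin n)) (S : Set (Fin n)) (h : S.ncard = k)
    (hS : ∀ x ∈ S, ∀ y ∈ S, x ≠ y → G.Adj x y) : Mem A (G.induce S) := by
  obtain ⟨e⟩ := exists_equiv S h
  refine ⟨k, ⊤, hA, ⟨⟨e, ?_⟩⟩⟩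
  intro a b
  simp only [SimpleGraph.top_adj, ne_eq, EmbeddingLike.apply_eq_iff_eq]
  constructor
  · intro h
    exact hS _ a.2 _ b.2 (fun h' => h (Subtype.val_injective h'))
  · intro h h'
    subst h'
    exact G.loopless.irrefl _ h

/-- A member of `Q` with more than four vertices has no triangle. -/
lemma QQ_no_triangle {n : ℕ} (hn : 4 < n) (G : SimpleGraph (Fin n)) (h : Q n G)
    (a b c : Fin n) (hab : G.Adj a b) (hbc : G.Adj b c) (hac : G.Adj a c) : False := by
  rcases h with h | ⟨T, _, _, h3, h4⟩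
  · rw [Nat.card_fin] at h; omega
  · by_cases ha : a ∈ T <;> by_cases hb : b ∈ T <;> by_cases hc : c ∈ T
    · exact h3 _ ha _ hb hab
    · exact h3 _ ha _ hb hab
    · exact h3 _ ha _ hc hac
    · exact h4 _ hb _ hc hbc
    · exact h3 _ hb _ hc hbc
    · exact h4 _ ha _ hc hac
    · exact h4 _ ha _ hb hab
    · exact h4 _ ha _ hb hab

lemma Q_card {n : ℕ} (G : SimpleGraph (Fin n)) (h : Q n G) : n ≤ 6 := by
  rcases h with h | ⟨T, h1, h2, _, _⟩
  · rw [Nat.card_fin] at h; omega
  · have := Set.ncard_add_ncard_compl T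
    rw [Nat.card_fin] at this
    omega

/-- The path with three vertices, centre `2`. -/
def path3 : SimpleGraph (Fin 3) where
  Adj x y := x ≠ y ∧ (x = 2 ∨ y = 2)
  symm := ⟨fun x y h => ⟨h.1.symm, h.2.symm⟩⟩
  loopless := ⟨fun x h => h.1 rfl⟩

lemma P_irred_aux (A B : (n : ℕ) → SimpleGraph (Fin n) → Prop)
    (hB1 : B 1 ⊥)
    (h : ∀ (n : ℕ) (G : SimpleGraph (Fin n)) (S : Set (Fin n)), Mem A (G.induce S) →
      Mem B (G.induce Sᶜ) → P n G) (hA2 : A 2 ⊥) : False := by
  have hS : ({0, 1} : Set (Fin 3)).ncard = 2 := by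
    rw [Set.ncard_pair (by decide)]
  have hSc : ({0, 1} : Set (Fin 3))ᶜ = {2} := by
    ext x; fin_cases x <;> simp
  have h1 : Mem A (path3.induce ({0, 1} : Set (Fin 3))) := by
    refine mem_of_bot hA2 path3 _ hS ?_
    rintro x hx y hy ⟨hne, hxy⟩
    simp only [Set.mem_insert_iff, Set.mem_singleton_iff] at hx hy
    rcases hx with rfl | rfl <;> rcases hy with rfl | rfl <;> simp_all
  have h2 : Mem B (path3.induce ({0, 1} : Set (Fin 3))ᶜ) := by
    refine mem_of_bot hB1 path3 _ (by rw [hSc]; simp) ?_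
    rw [hSc]
    rintro x hx y hy ⟨hne, hxy⟩
    simp only [Set.mem_singleton_iff] at hx hy
    exact hne (hx.trans hy.symm)
  have h3 := h 3 path3 _ h1 h2
  rcases h3 with h3 | ⟨_, h3⟩
  · rw [Nat.card_fin] at h3; omega
  · exact h3 0 2 ⟨by decide, Or.inr rfl⟩

lemma P_irred (A B : (n : ℕ) → SimpleGraph (Fin n) → Prop)
    (hA : Hered A) (hB : Hered B) (hA1 : A 1 ⊥) (hB1 : B 1 ⊥) :
    ¬ ∀ (n : ℕ) (G : SimpleGraph (Fin n)),
            (P n G ↔ ∃ S : Set (Fin n), Mem A (G.induce S) ∧ Mem B (G.induce Sᶜ)) := by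
  intro h
  have h3 : P 3 ⊥ := Or.inr ⟨by simp, by simp⟩
  obtain ⟨S, hSA, hSB⟩ := (h 3 ⊥).1 h3
  have hc := Set.ncard_add_ncard_compl S
  rw [Nat.card_fin] at hc
  by_cases h2 : 2 ≤ S.ncard
  · exact P_irred_aux A B hB1 (fun n G S h1 h2 => (h n G).2 ⟨S, h1, h2⟩) (bot_of_mem hA hSA h2)
  · have h2' : 2 ≤ Sᶜ.ncard := by omega
    refine P_irred_aux B A hA1 (fun n G S h1 h2 => (h n G).2 ⟨Sᶜ, h2, ?_⟩) (bot_of_mem hB hSB h2')
    rw [compl_compl]; exact h1

/-- `K₃,₃` on `Fin 6`. -/
def K33 : SimpleGraph (Fin 6) where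
  Adj x y := ¬ (x.1 < 3 ↔ y.1 < 3)
  symm := ⟨fun x y h => fun h' => h h'.symm⟩
  loopless := ⟨fun x h => h Iff.rfl⟩

/-- The join of an edge and three isolated vertices, on `Fin 5`. -/
def K113 : SimpleGraph (Fin 5) where
  Adj x y := x ≠ y ∧ (x.1 < 2 ∨ y.1 < 2)
  symm := ⟨fun x y h => ⟨h.1.symm, h.2.symm⟩⟩
  loopless := ⟨fun x h => h.1 rfl⟩

lemma Q_K33 : Q 6 K33 := by
  right
  have h1 : {x : Fin 6 | x.1 < 3} = {0, 1, 2} := by
    ext x; fin_cases x <;> simp
  have h2 : {x : Fin 6 | x.1 < 3}ᶜ = {3, 4, 5} := by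
    ext x; fin_cases x <;> simp
  refine ⟨{x | x.1 < 3}, ?_, ?_, ?_, ?_⟩
  · rw [h1]
    exact (Set.ncard_insert_le _ _).trans (by rw [Set.ncard_pair (by decide)])
  · rw [h2]
    exact (Set.ncard_insert_le _ _).trans (by rw [Set.ncard_pair (by decide)])
  · intro x hx y hy h
    exact h ⟨fun _ => hy, fun _ => hx⟩
  · intro x hx y hy h
    exact h ⟨fun h' => absurd h' hx, fun h' => absurd h' hy⟩

/-- An independent set of `K₃,₃` has at most three vertices. -/
lemma K33_indep (S : Set (Fin 6)) (h : ∀ x ∈ S, ∀ y ∈ S, ¬ K33.Adj x y) : S.ncard ≤ 3 := by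
  by_cases hx : ∃ x ∈ S, x.1 < 3
  · obtain ⟨x, hx, hx3⟩ := hx
    have : S ⊆ {0, 1, 2} := by
      intro y hy
      have := h x hx y hy
      have hy3 : y.1 < 3 := by
        by_contra hy3
        exact this (fun h => hy3 (h.1 hx3))
      have : y = 0 ∨ y = 1 ∨ y = 2 := by
        rcases y with ⟨y, hy6⟩
        simp only [Fin.ext_iff] at *
        simp at *
        omega
      simpa using this
    refine (Set.ncard_le_ncard this (Set.toFinite _)).trans ?_
    exact (Set.ncard_insert_le _ _).trans (by rw [Set.ncard_pair (by decide)])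
  · push Not at hx
    have : S ⊆ {3, 4, 5} := by
      intro y hy
      have hy3 := hx y hy
      have : y = 3 ∨ y = 4 ∨ y = 5 := by
        rcases y with ⟨y, hy6⟩
        simp only [Fin.ext_iff] at *
        simp at *
        omega
      simpa using this
    refine (Set.ncard_le_ncard this (Set.toFinite _)).trans ?_
    exact (Set.ncard_insert_le _ _).trans (by rw [Set.ncard_pair (by decide)])

/-- No product contains both an edge from one factor and three isolated vertices from the other. -/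
lemma Q_aux (A B : (n : ℕ) → SimpleGraph (Fin n) → Prop)
    (h : ∀ (n : ℕ) (G : SimpleGraph (Fin n)) (S : Set (Fin n)), Mem A (G.induce S) →
      Mem B (G.induce Sᶜ) → Q n G) (hA : A 2 ⊤) (hB : B 3 ⊥) : False := by
  have hS : ({0, 1} : Set (Fin 5)).ncard = 2 := by
    rw [Set.ncard_pair (by decide)]
  have hSc : ({0, 1} : Set (Fin 5))ᶜ.ncard = 3 := by
    have := Set.ncard_add_ncard_compl ({0, 1} : Set (Fin 5))
    rw [Nat.card_fin] at this
    omega
  have h1 : Mem A (K113.induce ({0, 1} : Set (Fin 5))) := by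
    refine mem_of_top hA K113 _ hS ?_
    intro x hx y hy hne
    refine ⟨hne, Or.inl ?_⟩
    simp only [Set.mem_insert_iff, Set.mem_singleton_iff] at hx
    rcases hx with rfl | rfl <;> decide
  have h2 : Mem B (K113.induce ({0, 1} : Set (Fin 5))ᶜ) := by
    refine mem_of_bot hB K113 _ hSc ?_
    intro x hx y hy ⟨_, hxy⟩
    simp only [Set.mem_compl_iff, Set.mem_insert_iff, Set.mem_singleton_iff, not_or] at hx hy
    rcases hxy with hxy | hxy
    · rcases x with ⟨x, hx5⟩
      simp only [Fin.ext_iff] at *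
      simp at *
      omega
    · rcases y with ⟨y, hy5⟩
      simp only [Fin.ext_iff] at *
      simp at *
      omega
  exact QQ_no_triangle (by omega) K113 (h 5 K113 _ h1 h2) 0 1 2 ⟨by decide, by decide⟩
    ⟨by decide, by decide⟩ ⟨by decide, by decide⟩

/-- The whole vertex set cannot be on one side. -/
lemma Q_aux2 (A B : (n : ℕ) → SimpleGraph (Fin n) → Prop)
    (h : ∀ (n : ℕ) (G : SimpleGraph (Fin n)) (S : Set (Fin n)), Mem A (G.induce S) →
      Mem B (G.induce Sᶜ) → Q n G) (hA : A 6 ⊥) (hB : B 1 ⊥) : False := by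
  have hS : ({6} : Set (Fin 7)).ncard = 1 := by simp
  have hSc : ({6} : Set (Fin 7))ᶜ.ncard = 6 := by
    have := Set.ncard_add_ncard_compl ({6} : Set (Fin 7))
    rw [Nat.card_fin] at this
    omega
  have h1 : Mem A ((⊥ : SimpleGraph (Fin 7)).induce ({6} : Set (Fin 7))ᶜ) :=
    mem_of_bot hA ⊥ _ hSc (by simp)
  have h2 : Mem B ((⊥ : SimpleGraph (Fin 7)).induce ({6} : Set (Fin 7))ᶜᶜ) := by
    rw [compl_compl]
    exact mem_of_bot hB ⊥ _ hS (by simp)
  have := Q_card _ (h 7 ⊥ _ h1 h2)
  omega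

/-- `K₃,₃` with all edges between `S` and its complement added. -/
def K33S (S : Set (Fin 6)) : SimpleGraph (Fin 6) where
  Adj x y := K33.Adj x y ∨ ¬ (x ∈ S ↔ y ∈ S)
  symm := ⟨fun x y h => h.imp (fun h => h.symm) (fun h h' => h h'.symm)⟩
  loopless := ⟨fun x h => h.elim (fun h => K33.loopless.irrefl _ h) (fun h => h Iff.rfl)⟩

lemma Q_irred (A B : (n : ℕ) → SimpleGraph (Fin n) → Prop)
    (hA : Hered A) (hB : Hered B) (hA1 : A 1 ⊥) (hB1 : B 1 ⊥) :
    ¬ ∀ (n : ℕ) (G : SimpleGraph (Fin n)),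
            (Q n G ↔ ∃ S : Set (Fin n), Mem A (G.induce S) ∧ Mem B (G.induce Sᶜ)) := by
  intro h
  have hAB : ∀ (n : ℕ) (G : SimpleGraph (Fin n)) (S : Set (Fin n)), Mem A (G.induce S) →
      Mem B (G.induce Sᶜ) → Q n G := fun n G S h1 h2 => (h n G).2 ⟨S, h1, h2⟩
  have hBA : ∀ (n : ℕ) (G : SimpleGraph (Fin n)) (S : Set (Fin n)), Mem B (G.induce S) →
      Mem A (G.induce Sᶜ) → Q n G := by
    intro n G S h1 h2
    refine hAB n G Sᶜ h2 ?_
    rw [compl_compl]; exact h1
  -- both factors contain three isolated vertices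
  have h3 : A 3 ⊥ ∧ B 3 ⊥ := by
    obtain ⟨S, hSA, hSB⟩ := (h 6 K33).1 Q_K33
    have hc := Set.ncard_add_ncard_compl S
    rw [Nat.card_fin] at hc
    by_cases hS : S.ncard = 6
    · exact (Q_aux2 A B hAB (bot_of_mem hA hSA hS.ge) hB1).elim
    by_cases hS' : Sᶜ.ncard = 6
    · exact (Q_aux2 B A hBA (bot_of_mem hB hSB hS'.ge) hA1).elim
    have hne : S.Nonempty := by
      rw [← Set.ncard_pos]; omega
    have hne' : Sᶜ.Nonempty := by
      rw [← Set.ncard_pos]; omega
    have e1 : (K33S S).induce S = K33.induce S := by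
      ext x y
      simp [K33S]
    have e2 : (K33S S).induce Sᶜ = K33.induce Sᶜ := by
      ext x y
      have hx : x.1 ∉ S := x.2
      have hy : y.1 ∉ S := y.2
      simp [K33S, hx, hy]
    have hQ : Q 6 (K33S S) := hAB 6 (K33S S) S (by rw [e1]; exact hSA) (by rw [e2]; exact hSB)
    have i1 : S.ncard ≤ 3 := by
      apply K33_indep
      intro x hx y hy hxy
      obtain ⟨z, hz⟩ := hne'
      exact QQ_no_triangle (by omega) _ hQ x y z (Or.inl hxy)
        (Or.inr fun h => hz (h.1 hy)) (Or.inr fun h => hz (h.1 hx))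
    have i2 : Sᶜ.ncard ≤ 3 := by
      apply K33_indep
      intro x hx y hy hxy
      obtain ⟨z, hz⟩ := hne
      exact QQ_no_triangle (by omega) _ hQ x y z (Or.inl hxy)
        (Or.inr fun h => hy (h.2 hz)) (Or.inr fun h => hx (h.2 hz))
    exact ⟨bot_of_mem hA hSA (by omega), bot_of_mem hB hSB (by omega)⟩
  -- one factor contains an edge
  obtain ⟨S, hSA, hSB⟩ := (h 4 ⊤).1 (Or.inl (by simp))
  have hc := Set.ncard_add_ncard_compl S
  rw [Nat.card_fin] at hc
  by_cases h2 : 2 ≤ S.ncard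
  · exact Q_aux A B hAB (top_of_mem hA hSA h2) h3.2
  · exact Q_aux B A hBA (top_of_mem hB hSB (by omega)) h3.1

/-- The negation of the preceding statement: Among subgraph-closed classes of finite graphs, with product = vertex partition into parts in the factors, any two factorizations of a class into irreducible factors (contain K1, not a product of two such classes) agree up to reordering. -/
theorem result :
    ¬ (∀ (m k : ℕ) (Ps : Fin m → (n : ℕ) → SimpleGraph (Fin n) → Prop)
      (Qs : Fin k → (n : ℕ) → SimpleGraph (Fin n) → Prop),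
      (∀ i : Fin m,
        (∀ (a b : ℕ) (G : SimpleGraph (Fin a)) (H : SimpleGraph (Fin b)) (f : H →g G),
          Function.Injective f → Ps i a G → Ps i b H) ∧
        Ps i 1 ⊥ ∧
        ∀ A B : (n : ℕ) → SimpleGraph (Fin n) → Prop,
          (∀ (a b : ℕ) (G : SimpleGraph (Fin a)) (H : SimpleGraph (Fin b)) (f : H →g G),
            Function.Injective f → A a G → A b H) →
          (∀ (a b : ℕ) (G : SimpleGraph (Fin a)) (H : SimpleGraph (Fin b)) (f : H →g G),
            Function.Injective f → B a G → B b H) →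
          A 1 ⊥ → B 1 ⊥ →
          ¬ ∀ (n : ℕ) (G : SimpleGraph (Fin n)),
            (Ps i n G ↔ ∃ S : Set (Fin n),
              (∃ (r : ℕ) (K : SimpleGraph (Fin r)), A r K ∧ Nonempty (G.induce S ≃g K)) ∧
              (∃ (r : ℕ) (K : SimpleGraph (Fin r)), B r K ∧ Nonempty (G.induce Sᶜ ≃g K)))) →
      (∀ j : Fin k,
        (∀ (a b : ℕ) (G : SimpleGraph (Fin a)) (H : SimpleGraph (Fin b)) (f : H →g G),
          Function.Injective f → Qs j a G → Qs j b H) ∧
        Qs j 1 ⊥ ∧
        ∀ A B : (n : ℕ) → SimpleGraph (Fin n) → Prop,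
          (∀ (a b : ℕ) (G : SimpleGraph (Fin a)) (H : SimpleGraph (Fin b)) (f : H →g G),
            Function.Injective f → A a G → A b H) →
          (∀ (a b : ℕ) (G : SimpleGraph (Fin a)) (H : SimpleGraph (Fin b)) (f : H →g G),
            Function.Injective f → B a G → B b H) →
          A 1 ⊥ → B 1 ⊥ →
          ¬ ∀ (n : ℕ) (G : SimpleGraph (Fin n)),
            (Qs j n G ↔ ∃ S : Set (Fin n),
              (∃ (r : ℕ) (K : SimpleGraph (Fin r)), A r K ∧ Nonempty (G.induce S ≃g K)) ∧
              (∃ (r : ℕ) (K : SimpleGraph (Fin r)), B r K ∧ Nonempty (G.induce Sᶜ ≃g K)))) →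
      (∀ (n : ℕ) (G : SimpleGraph (Fin n)),
        (∃ c : Fin n → Fin m, ∀ i : Fin m, ∃ (r : ℕ) (K : SimpleGraph (Fin r)),
            Ps i r K ∧ Nonempty (G.induce {v | c v = i} ≃g K)) ↔
        (∃ c : Fin n → Fin k, ∀ j : Fin k, ∃ (r : ℕ) (K : SimpleGraph (Fin r)),
            Qs j r K ∧ Nonempty (G.induce {v | c v = j} ≃g K))) →
      ∃ σ : Fin m ≃ Fin k, ∀ (i : Fin m) (n : ℕ) (G : SimpleGraph (Fin n)),
        (Ps i n G ↔ Qs (σ i) n G)) := by
  intro H
  have hP : (∀ (a b : ℕ) (G : SimpleGraph (Fin a)) (H : SimpleGraph (Fin b)) (f : H →g G),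
          Function.Injective f → P a G → P b H) := fun a b G H f hf h => PP_hered G H f hf h
  have hQ : (∀ (a b : ℕ) (G : SimpleGraph (Fin a)) (H : SimpleGraph (Fin b)) (f : H →g G),
          Function.Injective f → Q a G → Q b H) := fun a b G H f hf h => QQ_hered G H f hf h
  have hP1 : P 1 ⊥ := Or.inl (by simp)
  have hQ1 : Q 1 ⊥ := Or.inl (by simp)
  obtain ⟨σ, _⟩ := H 3 2 (fun _ => P) (fun j => if j = 0 then P else Q)
    (fun _ => ⟨hP, hP1, fun A B hA hB hA1 hB1 => P_irred A B hA hB hA1 hB1⟩)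
    (by
      intro j
      by_cases hj : j = 0
      · simp only [hj, if_true]
        exact ⟨hP, hP1, fun A B hA hB hA1 hB1 => P_irred A B hA hB hA1 hB1⟩
      · simp only [hj, if_false]
        exact ⟨hQ, hQ1, fun A B hA hB hA1 hB1 => Q_irred A B hA hB hA1 hB1⟩)
    (by
      intro n G
      have key : ∀ (c : Fin n → Fin 3) (i0 i1 i2 : Fin 3), i0 ≠ i1 → i0 ≠ i2 →
          (∀ i, i = i0 ∨ i = i1 ∨ i = i2) → Mem P (G.induce {v | c v = i0}) →
          QQ (G.induce ({v | c v = i1} ∪ {v | c v = i2})) →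
          (∃ c : Fin n → Fin 2, ∀ j : Fin 2, ∃ (r : ℕ) (K : SimpleGraph (Fin r)),
            (if j = 0 then P else Q) r K ∧ Nonempty (G.induce {v | c v = j} ≃g K)) := by
        intro c i0 i1 i2 h01 h02 hall h0 h12
        refine ⟨fun v => if c v = i0 then 0 else 1, ?_⟩
        intro j
        by_cases hj : j = 0
        · subst hj
          have : {v | (if c v = i0 then (0 : Fin 2) else 1) = 0} = {v | c v = i0} := by
            ext v; by_cases hv : c v = i0 <;> simp [hv]
          rw [this]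
          exact h0
        · have hj1 : j = 1 := by omega
          subst hj1
          have : {v | (if c v = i0 then (0 : Fin 2) else 1) = 1} =
              {v | c v = i1} ∪ {v | c v = i2} := by
            ext v
            have := hall (c v)
            by_cases hv : c v = i0
            · simp [hv, h01, h02]
            · simp only [hv, if_false, Set.mem_ofPred_eq, Set.mem_union, true_iff]
              rcases this with h | h | h
              · exact absurd h hv
              · exact Or.inl h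
              · exact Or.inr h
          rw [this]
          exact (mem_Q _).2 h12
      constructor
      · rintro ⟨c, hc⟩
        have hc' : ∀ i, Mem P (G.induce {v | c v = i}) := hc
        have hc'' : ∀ i, ({v | c v = i} : Set (Fin n)).ncard ≤ 2 ∨
            (({v | c v = i} : Set (Fin n)).ncard ≤ 3 ∧
              ∀ x ∈ ({v | c v = i} : Set (Fin n)), ∀ y ∈ ({v | c v = i} : Set (Fin n)),
                ¬ G.Adj x y) := fun i => (PP_induce G _).1 ((mem_P _).1 (hc' i))
        rcases hc'' 0 with h0 | h0 <;> rcases hc'' 1 with h1 | h1 <;>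
          rcases hc'' 2 with h2 | h2
        · exact key c 0 1 2 (by decide) (by decide) (by decide) (hc' 0)
            (QQ_merge G _ _ _ rfl (Or.inl ⟨h1, h2⟩))
        · exact key c 2 0 1 (by decide) (by decide) (by decide) (hc' 2)
            (QQ_merge G _ _ _ rfl (Or.inl ⟨h0, h1⟩))
        · exact key c 1 0 2 (by decide) (by decide) (by decide) (hc' 1)
            (QQ_merge G _ _ _ rfl (Or.inl ⟨h0, h2⟩))
        · exact key c 0 1 2 (by decide) (by decide) (by decide) (hc' 0)
            (QQ_merge G _ _ _ rfl (Or.inr ⟨h1, h2⟩))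
        · exact key c 0 1 2 (by decide) (by decide) (by decide) (hc' 0)
            (QQ_merge G _ _ _ rfl (Or.inl ⟨h1, h2⟩))
        · exact key c 1 0 2 (by decide) (by decide) (by decide) (hc' 1)
            (QQ_merge G _ _ _ rfl (Or.inr ⟨h0, h2⟩))
        · exact key c 2 0 1 (by decide) (by decide) (by decide) (hc' 2)
            (QQ_merge G _ _ _ rfl (Or.inr ⟨h0, h1⟩))
        · exact key c 0 1 2 (by decide) (by decide) (by decide) (hc' 0)
            (QQ_merge G _ _ _ rfl (Or.inr ⟨h1, h2⟩))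
      · rintro ⟨c, hc⟩
        have h0 : Mem P (G.induce {v | c v = 0}) := hc 0
        have h1 : Mem Q (G.induce {v | c v = 1}) := hc 1
        obtain ⟨T, hT, hT1, hT2⟩ := QQ_split G _ ((mem_Q _).1 h1)
        classical
        refine ⟨fun v => if c v = 0 then 0 else if v ∈ T then 1 else 2, ?_⟩
        intro i
        have hi : i = 0 ∨ i = 1 ∨ i = 2 := by omega
        have hcv : ∀ v, c v ≠ 0 → c v = 1 := by intro v hv; omega
        rcases hi with rfl | rfl | rfl
        · have : {v | (if c v = 0 then (0 : Fin 3) else if v ∈ T then 1 else 2) = 0} =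
              {v | c v = 0} := by
            ext v
            by_cases hv : c v = 0
            · simp [hv]
            · by_cases hv' : v ∈ T <;> simp [hv, hv']
          rw [this]
          exact h0
        · have : {v | (if c v = 0 then (0 : Fin 3) else if v ∈ T then 1 else 2) = 1} = T := by
            ext v
            by_cases hv : c v = 0
            · simp only [hv, if_true, Set.mem_ofPred_eq]
              constructor
              · intro h; exact absurd h (by decide)
              · intro h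
                have := hT h
                simp only [Set.mem_ofPred_eq] at this
                rw [hv] at this
                exact absurd this (by decide)
            · by_cases hv' : v ∈ T <;> simp [hv, hv']
          rw [this]
          exact (mem_P _).2 hT1
        · have : {v | (if c v = 0 then (0 : Fin 3) else if v ∈ T then 1 else 2) = 2} =
              {v | c v = 1} \ T := by
            ext v
            by_cases hv : c v = 0
            · simp [hv]
            · by_cases hv' : v ∈ T <;> simp [hv, hv', hcv v hv]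
          rw [this]
          exact (mem_P _).2 hT2)
  have := Fintype.card_congr σ
  simp at this

end Pool.Agent.S11608
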