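import Pool.Statements.S11612
import Pool.Agent.H565.TreeHelly

set_option autoImplicit false
open Pool Pool.MP_d20af1_co

namespace Pool.Agent.S11612

open SimpleGraph

/-- Edges: the pentagon `0 1 2 3 4`, and for each chord `{i, i+2}` a vertex `5 + i` joined to both
its ends (so the graph is `K₅` with the five edges of a pentagram subdivided). -/
def edges : List (Fin 10 × Fin 10) :=
  [(0,1),(1,2),(2,3),(3,4),(4,0),
   (5,0),(5,2),(6,1),(6,3),(7,2),(7,4),(8,3),(8,0),(9,4),(9,1)]

def adjB (u v : Fin 10) : Bool := edges.contains (u, v) || edges.contains (v, u)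

def G : SimpleGraph (Fin 10) where
  Adj u v := adjB u v = true
  symm := ⟨by decide⟩
  loopless := ⟨by decide⟩

instance : DecidableRel G.Adj := fun u v => inferInstanceAs (Decidable (adjB u v = true))

lemma star_conn {n : ℕ} (S : Set (Fin (n+1))) (h : (0 : Fin (n+1)) ∈ S ∨ ∃ i, S = {i}) :
    ((starGraph (0 : Fin (n+1))).induce S).Connected := by
  rcases h with h | ⟨i, rfl⟩
  · rw [connected_iff_exists_forall_reachable]
    refine ⟨⟨0, h⟩, fun w => ?_⟩
    by_cases hw : w = ⟨0, h⟩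
    · rw [hw]
    · apply Adj.reachable
      show (starGraph (0 : Fin (n+1))).Adj 0 w.1
      apply starGraph_center_adj
      intro h0
      exact hw (Subtype.ext h0.symm)
  · rw [connected_iff_exists_forall_reachable]
    refine ⟨⟨i, rfl⟩, fun w => ?_⟩
    have : w = ⟨i, rfl⟩ := Subtype.ext w.2
    rw [this]

def B1 : Fin 6 → Finset (Fin 10) :=
  ![{0,1,2,3,4}, {0,5,2}, {1,6,3}, {2,7,4}, {3,8,0}, {4,9,1}]

def B2 : Fin 5 → Finset (Fin 10) :=
  ![{1,2,3,4,5,8}, {0,1,4,5,8}, {1,6,3}, {2,7,4}, {4,9,1}]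

def col : Fin 5 → Fin 10 → Fin 2 :=
  ![![0,0,1,0,1,0,0,0,1,0], ![0,1,0,0,1,1,0,0,1,0], ![0,0,0,0,0,1,1,1,1,1],
    ![0,0,0,0,0,1,1,1,1,1], ![0,0,0,0,0,1,1,1,1,1]]

/-- the branch sets of a `K₅`-minor -/
def A (a : Fin 5) : Set (Fin 10) := {v | v = Fin.castLE (by norm_num) a ∨ v = Fin.natAdd 5 a}

lemma wconn_A (a : Fin 5) : H565TH.WConn G (A a) := by
  have hadj : G.Adj (Fin.castLE (by norm_num) a : Fin 10) (Fin.natAdd 5 a : Fin 10) := by
    revert a; decide
  rintro i hi j hj
  have key : ∀ i ∈ A a, ∃ q : G.Walk i (Fin.castLE (by norm_num) a : Fin 10),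
      ∀ x ∈ q.support, x ∈ A a := by
    rintro i (rfl | rfl)
    · exact ⟨Walk.nil, by simp [A]⟩
    · refine ⟨Walk.cons hadj.symm Walk.nil, ?_⟩
      intro x hx
      simp only [Walk.support_cons, Walk.support_nil, List.mem_cons, List.not_mem_nil,
        or_false] at hx
      rcases hx with rfl | rfl
      · exact Or.inr rfl
      · exact Or.inl rfl
  obtain ⟨p, hp⟩ := key i hi
  obtain ⟨q, hq⟩ := key j hj
  refine ⟨p.append q.reverse, fun x hx => ?_⟩
  rw [Walk.mem_support_append_iff, Walk.support_reverse, List.mem_reverse] at hx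
  rcases hx with hx | hx
  · exact hp x hx
  · exact hq x hx

lemma adj_A : ∀ a b : Fin 5, ∃ u v : Fin 10,
    (u = Fin.castLE (by norm_num) a ∨ u = Fin.natAdd 5 a) ∧
    (v = Fin.castLE (by norm_num) b ∨ v = Fin.natAdd 5 b) ∧ G.Adj u v := by
  decide

lemma walk_of_induce {n : ℕ} {T : SimpleGraph (Fin n)} {S : Set (Fin n)}
    (h : (T.induce S).Connected) : ∀ i ∈ S, ∀ j ∈ S, ∃ q : T.Walk i j, ∀ x ∈ q.support, x ∈ S := by
  intro i hi j hj
  obtain ⟨p⟩ := h.preconnected ⟨i, hi⟩ ⟨j, hj⟩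
  refine ⟨p.map (Embedding.induce S).toHom, fun x hx => ?_⟩
  have hs : (p.map (Embedding.induce S).toHom).support =
      p.support.map (Embedding.induce S).toHom := Walk.support_map _ _
  have hx' := hs ▸ hx
  rw [List.mem_map] at hx'
  obtain ⟨y, -, rfl⟩ := hx'
  exact y.2

lemma no_small {n : ℕ} (T : SimpleGraph (Fin n)) (B : Fin n → Finset (Fin 10)) (hT : T.IsTree)
    (he : ∀ u v : Fin 10, G.Adj u v → ∃ i, u ∈ B i ∧ v ∈ B i)
    (hc : ∀ v : Fin 10, (T.induce {i : Fin n | v ∈ B i}).Connected)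
    (hB : ∀ i : Fin n, (B i).card ≤ 2 * 2) : False := by
  classical
  have hv : ∀ v i j, v ∈ B i → v ∈ B j → ∃ q : T.Walk i j, ∀ x ∈ q.support, v ∈ B x :=
    fun v i j hi hj => walk_of_induce (hc v) i hi j hj
  obtain ⟨i, hi⟩ := H565TH.helly hT (fun a : Fin 5 => {i | ∃ v ∈ A a, v ∈ B i})
    (fun a => H565TH.trace_conn he hv (wconn_A a)) (by
      intro a b
      obtain ⟨u, v, hu, hv', huv⟩ := adj_A a b
      obtain ⟨i, hui, hvi⟩ := he u v huv
      exact ⟨i, ⟨u, hu, hui⟩, ⟨v, hv', hvi⟩⟩)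
  choose f hf hfB using hi
  have hinj : Function.Injective f := by
    intro a b hab
    have h1 := hf a
    have h2 := hf b
    rw [← hab] at h2
    simp only [A, Set.mem_ofPred_eq] at h1 h2
    generalize f a = x at h1 h2
    clear hab
    revert a b x
    decide
  have h5 : (Finset.univ.image f).card = 5 := by
    rw [Finset.card_image_of_injective _ hinj]; rfl
  have h6 : (Finset.univ.image f).card ≤ (B i).card := Finset.card_le_card (by
    intro x hx
    rw [Finset.mem_image] at hx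
    obtain ⟨a, -, rfl⟩ := hx
    exact hfB a)
  have := hB i
  omega

lemma indep1 : ∀ i : Fin 6, ∀ a ∈ B1 i, ∀ b ∈ B1 i, ∀ c ∈ B1 i, a ≠ b → a ≠ c → b ≠ c →
    (adjB a b || adjB a c || adjB b c) = true := by
  decide

/-- The negation of the preceding statement: For every finite graph G and all a, k: if G has a tree decomposition whose bags all have independence number at most a, and one whose bags all induce k-colorable subgraphs, then G has a tree decomposition with all bags of size at most a·k. -/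
theorem result :
    ¬ (∀ (V : Type) [Fintype V] (G : SimpleGraph V) (a k : ℕ),
      (∃ (n : ℕ) (T : SimpleGraph (Fin n)) (B : Fin n → Finset V),
        T.IsTree ∧
        (∀ u v : V, G.Adj u v → ∃ i, u ∈ B i ∧ v ∈ B i) ∧
        (∀ v : V, (T.induce {i : Fin n | v ∈ B i}).Connected) ∧
        (∀ i : Fin n, ∀ S : Finset V, S ⊆ B i → G.IsIndepSet (S : Set V) → S.card ≤ a)) →
      (∃ (n : ℕ) (T : SimpleGraph (Fin n)) (B : Fin n → Finset V),
        T.IsTree ∧
        (∀ u v : V, G.Adj u v → ∃ i, u ∈ B i ∧ v ∈ B i) ∧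
        (∀ v : V, (T.induce {i : Fin n | v ∈ B i}).Connected) ∧
        (∀ i : Fin n, (G.induce (B i : Set V)).Colorable k)) →
      (∃ (n : ℕ) (T : SimpleGraph (Fin n)) (B : Fin n → Finset V),
        T.IsTree ∧
        (∀ u v : V, G.Adj u v → ∃ i, u ∈ B i ∧ v ∈ B i) ∧
        (∀ v : V, (T.induce {i : Fin n | v ∈ B i}).Connected) ∧
        (∀ i : Fin n, (B i).card ≤ a * k))) := by
  intro H
  obtain ⟨n, T, B, hT, he, hc, hB⟩ := H (Fin 10) G 2 2
    ⟨6, starGraph 0, B1, isTree_starGraph _, by decide, fun v => star_conn _ (by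
      have h : ∀ v : Fin 10, v ∈ B1 0 ∨ ∃ i, ∀ j, v ∈ B1 j ↔ j = i := by decide
      rcases h v with h | ⟨i, hi⟩
      · exact Or.inl h
      · exact Or.inr ⟨i, Set.ext hi⟩), by
      intro i S hS hI
      by_contra hcard
      push Not at hcard
      obtain ⟨a, ha, b, hb, c, hc, hab, hac, hbc⟩ := Finset.two_lt_card.mp hcard
      have := indep1 i a (hS ha) b (hS hb) c (hS hc) hab hac hbc
      rw [Bool.or_eq_true, Bool.or_eq_true] at this
      rcases this with (h | h) | h
      · exact hI (by exact_mod_cast ha) (by exact_mod_cast hb) hab h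
      · exact hI (by exact_mod_cast ha) (by exact_mod_cast hc) hac h
      · exact hI (by exact_mod_cast hb) (by exact_mod_cast hc) hbc h⟩
    ⟨5, starGraph 0, B2, isTree_starGraph _, by decide, fun v => star_conn _ (by
      have h : ∀ v : Fin 10, v ∈ B2 0 ∨ ∃ i, ∀ j, v ∈ B2 j ↔ j = i := by decide
      rcases h v with h | ⟨i, hi⟩
      · exact Or.inl h
      · exact Or.inr ⟨i, Set.ext hi⟩), by
      intro i
      refine ⟨Coloring.mk (fun v => col i v.1) ?_⟩
      rintro ⟨u, hu⟩ ⟨v, hv⟩ huv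
      have h : ∀ i : Fin 5, ∀ u ∈ B2 i, ∀ v ∈ B2 i, adjB u v = true → col i u ≠ col i v := by
        decide
      exact h i u (by exact_mod_cast hu) v (by exact_mod_cast hv) huv⟩
  exact no_small T B hT he hc hB

end Pool.Agent.S11612
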