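import Pool.Statements.S11634
import Pool.Agent.helper163_WO.Main

set_option autoImplicit false
open Pool Pool.MP_d2ae2d_co

namespace Pool.Agent.S11634

/-- The negation of the preceding statement: For each k ≥ 2 there is a well-ordered set S of reals with least element k!/k^k such that the Turán density (limit of ex(n,L)/C(n,k)) of every k-uniform hypergraph L is either 0 or lies in S. -/
theorem result :
    ¬ (∀ k : ℕ, 2 ≤ k → ∃ S : Set ℝ, S.IsWF ∧ IsLeast S ((k.factorial : ℝ) / (k : ℝ) ^ k) ∧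
      ∀ m : ℕ, ∀ L : Finset (Finset (Fin m)), (∀ e ∈ L, e.card = k) →
        ∀ d : ℝ, Filter.Tendsto
          (fun n : ℕ =>
            ((sSup {t : ℕ | ∃ H : Finset (Finset (Fin n)), (∀ A ∈ H, A.card = k) ∧ H.card = t ∧
                ¬ ∃ f : Fin m ↪ Fin n, ∀ e ∈ L, e.map f ∈ H} : ℕ) : ℝ) /
              ((n.choose k : ℕ) : ℝ))
          Filter.atTop (nhds d) → d = 0 ∨ d ∈ S) := by
  intro h
  obtain ⟨k, hk3, hmain⟩ := Pool.Agent.helper163_WO.main
  have hseq := hmain k le_rfl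
  obtain ⟨S, hWF, _, hS⟩ := h k (by omega)
  have hal0 : 0 ≤ Pool.Agent.helper163_WO.al k :=
    Pool.Agent.helper163_WO.al_nonneg (by omega)
  -- densities above `al k` belonging to `S`
  have hD : ∀ ε : ℝ, 0 < ε → ∃ d ∈ S, Pool.Agent.helper163_WO.al k < d ∧
      d ≤ Pool.Agent.helper163_WO.al k + ε := by
    intro ε hε
    obtain ⟨m, L, d, hL, hd, h1, h2⟩ := hseq ε hε
    rcases hS m L hL d hd with h0 | hdS
    · exact absurd h0 (by linarith : (0 : ℝ) < d).ne'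
    · exact ⟨d, hdS, h1, h2⟩
  obtain ⟨d₁, hd₁S, hd₁, _⟩ := hD 1 one_pos
  set D : Set ℝ := {d | d ∈ S ∧ Pool.Agent.helper163_WO.al k < d} with hDdef
  have hDne : D.Nonempty := ⟨d₁, hd₁S, hd₁⟩
  have hDWF : D.IsWF := hWF.mono fun d hd => hd.1
  obtain ⟨h1, h2⟩ : hDWF.min hDne ∈ D := hDWF.min_mem hDne
  obtain ⟨d₂, hd₂S, hd₂, hd₂'⟩ := hD ((hDWF.min hDne - Pool.Agent.helper163_WO.al k) / 2)
    (by linarith)
  have h3 : hDWF.min hDne ≤ d₂ := hDWF.min_le hDne ⟨hd₂S, hd₂⟩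
  linarith

end Pool.Agent.S11634
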