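import Pool.Statements.S11707
import Pool.Agent.H352_eppa.Ext

set_option autoImplicit false
open Classical
open Pool Pool.MP_d61016_co

namespace Pool.Agent.S11707

open Pool.Agent.H352_eppa

/-- Every finite three-graph A embeds as an induced substructure in some finite three-graph B such that every partial automorphism of A extends to an automorphism of B. -/
theorem result :
    ∀ (n : ℕ) (rA : Fin n → Fin n → Prop) (HA : Finset (Finset (Fin n))),
      (Equivalence rA ∧ (∀ a b c, rA a b ∨ rA b c ∨ rA a c) ∧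
        (∀ e ∈ HA, e.card = 4 ∧ ∀ v ∈ e, (e.filter (fun w => rA v w)).card = 2) ∧
        (∀ S : Finset (Fin n), S.card = 5 →
          (∀ v ∈ S, (S.filter (fun w => rA v w)).card ≤ 3) →
          Even (HA.filter (fun e => e ⊆ S)).card)) →
      ∃ (m : ℕ) (rB : Fin m → Fin m → Prop) (HB : Finset (Finset (Fin m))),
        (Equivalence rB ∧ (∀ a b c, rB a b ∨ rB b c ∨ rB a c) ∧
          (∀ e ∈ HB, e.card = 4 ∧ ∀ v ∈ e, (e.filter (fun w => rB v w)).card = 2) ∧
          (∀ S : Finset (Fin m), S.card = 5 →
            (∀ v ∈ S, (S.filter (fun w => rB v w)).card ≤ 3) →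
            Even (HB.filter (fun e => e ⊆ S)).card)) ∧
        ∃ f : Fin n ↪ Fin m,
          (∀ x y, rA x y ↔ rB (f x) (f y)) ∧
          (∀ e : Finset (Fin n), e ∈ HA ↔ e.map f ∈ HB) ∧
          ∀ (S : Finset (Fin n)) (p : Fin n → Fin n),
            Set.InjOn p (S : Set (Fin n)) →
            (∀ x ∈ S, ∀ y ∈ S, rA x y ↔ rA (p x) (p y)) →
            (∀ e ⊆ S, e ∈ HA ↔ e.image p ∈ HA) →
            ∃ σ : Fin m ≃ Fin m,
              (∀ x y, rB x y ↔ rB (σ x) (σ y)) ∧
              (∀ e : Finset (Fin m), e ∈ HB ↔ e.map σ.toEmbedding ∈ HB) ∧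
              ∀ x ∈ S, σ (f x) = f (p x) := by
  rintro n rA HA ⟨hr, h2, h4, h5⟩
  rcases Nat.eq_zero_or_pos n with hn | hn
  · subst hn
    refine ⟨0, rA, HA, ⟨hr, h2, h4, h5⟩, Function.Embedding.refl _, fun x y => Iff.rfl, ?_, ?_⟩
    · intro e
      rw [Finset.map_refl]
    · intro S p _ _ _
      refine ⟨Equiv.refl _, fun x y => Iff.rfl, ?_, fun x => x.elim0⟩
      intro e
      rw [Equiv.refl_toEmbedding, Finset.map_refl]
  haveI : Nonempty (Fin n) := ⟨⟨0, hn⟩⟩
  obtain ⟨c, g, hg, hc, hH⟩ := exists_repr rA HA hr h2 h4 (by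
    intro S hS hS3
    have := h5 S hS hS3
    convert this)
  let E : Pt n ≃ Fin (Fintype.card (Pt n)) := Fintype.equivFin (Pt n)
  let c' : Fin (Fintype.card (Pt n)) → Bool := fun i => cls (E.symm i)
  let G' : Fin (Fintype.card (Pt n)) → Fin (Fintype.card (Pt n)) → ZMod 2 :=
    fun i j => cross (E.symm i) (E.symm j)
  have hG' : ∀ i j, G' i j = G' j i := fun i j => cross_symm _ _
  let rB : Fin (Fintype.card (Pt n)) → Fin (Fintype.card (Pt n)) → Prop := fun i j => c' i = c' j
  let HB : Finset (Finset (Fin (Fintype.card (Pt n)))) := Finset.univ.filter (fun e => IsH c' G' e)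
  have hHB : ∀ e, e ∈ HB ↔ IsH c' G' e := by
    intro e
    simp only [HB, Finset.mem_filter, Finset.mem_univ, true_and]
  let f : Fin n ↪ Fin (Fintype.card (Pt n)) :=
    ⟨fun a => E (emb c g a), fun a b hab => congrArg Prod.fst (E.injective hab)⟩
  have hcf : ∀ a, c' (f a) = c a := by
    intro a
    show cls (E.symm (E (emb c g a))) = c a
    rw [Equiv.symm_apply_apply]
    rfl
  have hGf : ∀ a b, c a ≠ c b → G' (f a) (f b) = g a b := by
    intro a b hab
    show cross (E.symm (E (emb c g a))) (E.symm (E (emb c g b))) = g a b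
    rw [Equiv.symm_apply_apply, Equiv.symm_apply_apply]
    exact val_add c g hg a b hab
  refine ⟨Fintype.card (Pt n), rB, HB, ?_, f, ?_, ?_, ?_⟩
  · obtain ⟨a1, a2, a3, a4⟩ := axioms c' G' hG' rB (fun x y => Iff.rfl) HB hHB
    refine ⟨a1, a2, a3, ?_⟩
    intro S hS hS3
    have := a4 S hS hS3
    convert this
  · intro x y
    rw [hc]
    show c x = c y ↔ c' (f x) = c' (f y)
    rw [hcf, hcf]
  · intro e
    rw [hH, hHB]
    refine isH_map c g c' G' hG' f false (fun _ => 0) ?_ ?_ e
    · intro x
      rw [hcf]; simp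
    · intro x y hxy
      rw [hGf x y hxy]; simp
  · intro S p hp hpr hpH
    -- the class shift
    have hε : ∃ ε : Bool, ∀ x ∈ S, c (p x) = xor (c x) ε := by
      by_cases hS : ∃ x0, x0 ∈ S
      · obtain ⟨x0, hx0⟩ := hS
        refine ⟨xor (c x0) (c (p x0)), fun x hx => ?_⟩
        have h1 := hpr x hx x0 hx0
        rw [hc, hc] at h1
        revert h1
        cases c x <;> cases c x0 <;> cases c (p x) <;> cases c (p x0) <;> simp
      · exact ⟨false, fun x hx => absurd ⟨x, hx⟩ hS⟩
    obtain ⟨ε, hε⟩ := hε
    -- the switching function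
    obtain ⟨s, hs⟩ := exists_switch c S (fun x y => g x y + g (p x) (p y))
      (fun x y => by rw [hg x y, hg (p x) (p y)]) (by
        intro x hx x' hx' y hy y' hy' hcx hcx' hcy hcy'
        have hdbl : ∀ a : ZMod 2, a + a = 0 := by decide
        by_cases hxx : x = x'
        · subst hxx
          have h1 := hdbl (g x y)
          have h2 := hdbl (g x y')
          have h3 := hdbl (g (p x) (p y))
          have h4 := hdbl (g (p x) (p y'))
          linear_combination h1 + h2 + h3 + h4
        by_cases hyy : y = y'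
        · subst hyy
          have h1 := hdbl (g x y)
          have h2 := hdbl (g x' y)
          have h3 := hdbl (g (p x) (p y))
          have h4 := hdbl (g (p x') (p y))
          linear_combination h1 + h2 + h3 + h4
        have h1 := hpH {x, x', y, y'} (by
          intro z hz
          simp only [Finset.mem_insert, Finset.mem_singleton] at hz
          rcases hz with rfl | rfl | rfl | rfl <;> assumption)
        have himg : ({x, x', y, y'} : Finset (Fin n)).image p = {p x, p x', p y, p y'} := by
          simp only [Finset.image_insert, Finset.image_singleton]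
        rw [himg, hH, hH, isH_four c g hg false x x' y y' hcx hcx' hcy hcy' hxx hyy,
          isH_four c g hg ε (p x) (p x') (p y) (p y') (by rw [hε x hx, hcx]; simp)
            (by rw [hε x' hx', hcx']; simp) (by rw [hε y hy, hcy]; simp)
            (by rw [hε y' hy', hcy']; simp) (fun h' => hxx (hp hx hx' h'))
            (fun h' => hyy (hp hy hy' h'))] at h1
        have hfin : ∀ A B : ZMod 2, (A = 1 ↔ B = 1) → A + B = 0 := by decide
        have := hfin _ _ h1
        linear_combination this)
    obtain ⟨θ, t, hθ1, hθ2, hθ3⟩ := exists_theta c g hg S p hp ε hε s hs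
    refine ⟨(E.symm.trans θ).trans E, ?_, ?_, ?_⟩
    · intro x y
      show c' x = c' y ↔ cls (E.symm (E (θ (E.symm x)))) = cls (E.symm (E (θ (E.symm y))))
      rw [Equiv.symm_apply_apply, Equiv.symm_apply_apply, hθ1, hθ1]
      show cls (E.symm x) = cls (E.symm y) ↔ _
      cases cls (E.symm x) <;> cases cls (E.symm y) <;> cases ε <;> simp
    · intro e
      rw [hHB, hHB]
      refine isH_map c' G' c' G' hG' _ ε (fun i => t (E.symm i)) ?_ ?_ e
      · intro x
        show cls (E.symm (E (θ (E.symm x)))) = _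
        rw [Equiv.symm_apply_apply, hθ1]
      · intro x y hxy
        show cross (E.symm (E (θ (E.symm x)))) (E.symm (E (θ (E.symm y)))) = _
        rw [Equiv.symm_apply_apply, Equiv.symm_apply_apply, hθ2 _ _ hxy]
    · intro x hx
      show E (θ (E.symm (E (emb c g x)))) = E (emb c g (p x))
      rw [Equiv.symm_apply_apply, hθ3 x hx]

end Pool.Agent.S11707
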