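import Pool.Statements.S11737
import Pool.Agent.Helper365_Ramsey.Step

set_option autoImplicit false
open Pool Pool.MP_d7e043_co

namespace Pool.Agent.S11737

open Pool.Agent.Helper365_Ramsey

/-- If a finite set X in R^d is Ramsey (every r-colouring of some R^N has a monochromatic congruent copy), then X, placed in the hyperplane of R^(d+1), together with any point z off that hyperplane is also Ramsey. -/
theorem result :
    ∀ (d : ℕ) (X : Set (EuclideanSpace ℝ (Fin d))) (z : EuclideanSpace ℝ (Fin (d + 1))),
      X.Finite →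
      (∀ r : ℕ, ∃ N : ℕ, ∀ c : EuclideanSpace ℝ (Fin N) → Fin r,
        ∃ g : X → EuclideanSpace ℝ (Fin N), Isometry g ∧ ∀ x y : X, c (g x) = c (g y)) →
      z (Fin.last d) ≠ 0 →
      ∀ r : ℕ, ∃ N : ℕ, ∀ c : EuclideanSpace ℝ (Fin N) → Fin r,
        ∃ g : ({y : EuclideanSpace ℝ (Fin (d + 1)) |
                  y (Fin.last d) = 0 ∧ ∃ x ∈ X, ∀ i : Fin d, y (Fin.castSucc i) = x i}
                ∪ {z} : Set (EuclideanSpace ℝ (Fin (d + 1)))) → EuclideanSpace ℝ (Fin N),
          Isometry g ∧ ∀ x y, c (g x) = c (g y) := by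
  classical
  intro d X z hX hR hz r
  have hXf : Fintype X := hX.fintype
  -- the point `x` in the hyperplane
  let lift : EuclideanSpace ℝ (Fin d) → EuclideanSpace ℝ (Fin (d + 1)) := fun x =>
    WithLp.toLp 2 (Fin.snoc (α := fun _ => ℝ) x.ofLp 0)
  let lower : EuclideanSpace ℝ (Fin (d + 1)) → EuclideanSpace ℝ (Fin d) := fun y =>
    WithLp.toLp 2 (fun i => y (Fin.castSucc i))
  have hlift_last : ∀ x, lift x (Fin.last d) = 0 := by
    intro x; simp [lift]
  have hlift_cast : ∀ x i, lift x (Fin.castSucc i) = x i := by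
    intro x i; simp [lift]
  set T : Set (EuclideanSpace ℝ (Fin (d + 1))) :=
    ({y : EuclideanSpace ℝ (Fin (d + 1)) |
                  y (Fin.last d) = 0 ∧ ∃ x ∈ X, ∀ i : Fin d, y (Fin.castSucc i) = x i}
                ∪ {z} : Set (EuclideanSpace ℝ (Fin (d + 1)))) with hT
  have hTcase : ∀ t ∈ T, (∃ x ∈ X, t = lift x) ∨ t = z := by
    intro t ht
    rcases ht with ⟨h0, x, hx, hxi⟩ | ht
    · left
      refine ⟨x, hx, ?_⟩
      ext i
      refine Fin.lastCases ?_ (fun i => ?_) i
      · rw [h0, hlift_last]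
      · rw [hxi, hlift_cast]
    · right; exact ht
  have hdist : ∀ x x', dist (lift x) (lift x') = dist x x' := by
    intro x x'
    have h1 : dist (lift x) (lift x') ^ 2 = dist x x' ^ 2 := by
      rw [dist_sq_eq, dist_sq_eq, Fin.sum_univ_castSucc]
      simp only [hlift_cast, hlift_last]
      simp
    rwa [sq_eq_sq₀ dist_nonneg dist_nonneg] at h1
  have hTfin : T.Finite := by
    have h1 : T ⊆ lift '' X ∪ {z} := by
      intro t ht
      rcases hTcase t ht with ⟨x, hx, rfl⟩ | rfl
      · left; exact ⟨x, hx, rfl⟩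
      · right; rfl
    exact ((hX.image _).union (Set.finite_singleton z)).subset h1
  have hTfin' : Finite T := hTfin
  rcases X.eq_empty_or_nonempty with hXe | hXne
  · -- no points in the hyperplane
    refine ⟨0, fun c => ⟨fun _ => 0, ?_, fun _ _ => rfl⟩⟩
    have hsub : ∀ s t : T, s = t := by
      intro s t
      have h1 : ∀ t : T, (t : EuclideanSpace ℝ (Fin (d + 1))) = z := by
        intro t
        rcases hTcase t t.2 with ⟨x, hx, _⟩ | h
        · rw [hXe] at hx; exact hx.elim
        · exact h
      exact Subtype.ext ((h1 s).trans (h1 t).symm)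
    refine Isometry.of_dist_eq fun s t => ?_
    rw [hsub s t]; simp
  have hne : Nonempty X := hXne.to_subtype
  -- the foot of `z`
  obtain ⟨w, H, hw, hH, hfoot⟩ := foot (fun x : X => lift x) z (by
    intro w hw h
    apply hz
    rw [← h, Finset.affineCombination_eq_linear_combination _ _ _ hw]
    have h1 : (∑ i : X, w i • lift (i : EuclideanSpace ℝ (Fin d))).ofLp (Fin.last d)
        = ∑ i : X, w i * lift (i : EuclideanSpace ℝ (Fin d)) (Fin.last d) := by
      simp
    rw [h1]
    simp only [hlift_last]
    simp)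
  -- the description of `T`
  let j : T → Option X := fun t =>
    if h : ∃ x : X, (t : EuclideanSpace ℝ (Fin (d + 1))) = lift x then some h.choose else none
  have hj : ∀ t : T, (∃ x : X, j t = some x ∧ (t : EuclideanSpace ℝ (Fin (d + 1))) = lift x) ∨
      (j t = none ∧ (t : EuclideanSpace ℝ (Fin (d + 1))) = z) := by
    intro t
    by_cases h : ∃ x : X, (t : EuclideanSpace ℝ (Fin (d + 1))) = lift x
    · left
      refine ⟨h.choose, ?_, h.choose_spec⟩
      simp only [j]
      rw [dif_pos h]
    · right
      constructor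
      · simp only [j]
        rw [dif_neg h]
      · rcases hTcase t t.2 with ⟨x, hx, hx'⟩ | h'
        · exact absurd ⟨⟨x, hx⟩, hx'⟩ h
        · exact h'
  have hjd : ∀ (V : Type) [NormedAddCommGroup V] [InnerProductSpace ℝ V] (g : X → V), Isometry g →
      ∀ s t : T, dist s t ^ 2 = optD w H g (j s) (j t) := by
    intro V _ _ g hg s t
    have hcomb : ∀ a : X, dist (Finset.univ.affineCombination ℝ g w) (g a)
        = dist (Finset.univ.affineCombination ℝ (fun x : X => lift x) w) (lift a) := by
      intro a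
      refine dist_comb w hw g (fun x : X => lift x) ?_ a
      intro i j
      rw [hg.dist_eq, hdist]
      rfl
    rw [Subtype.dist_eq]
    rcases hj s with ⟨a, ha, ha'⟩ | ⟨hs, hs'⟩
    · rcases hj t with ⟨b, hb, hb'⟩ | ⟨ht, ht'⟩
      · rw [ha, hb, ha', hb']
        simp only [optD]
        rw [hdist, hg.dist_eq]
        rfl
      · rw [ha, ht, ha', ht']
        simp only [optD]
        rw [hcomb, ← hfoot a]
    · rcases hj t with ⟨b, hb, hb'⟩ | ⟨ht, ht'⟩
      · rw [hs, hb, hs', hb']
        simp only [optD]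
        rw [hcomb, ← hfoot b, dist_comm]
      · rw [hs, ht, hs', ht']
        simp [optD]
  -- induction on the number of colours
  have key : ∀ k, ∃ m, InfVer T r k m := by
    intro k
    induction k with
    | zero =>
      refine ⟨0, fun c S hS hc => ?_⟩
      have h1 : S = ∅ := Finset.card_eq_zero.1 (Nat.le_zero.1 hS)
      have h2 := hc 0
      rw [h1] at h2
      exact absurd h2 (Finset.notMem_empty _)
    | succ k ih =>
      obtain ⟨m, hm⟩ := ih
      obtain ⟨Y, hY, hYT⟩ := compactness T r k m hm
      exact step w H hH j hjd hR r k m Y hY hYT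
  obtain ⟨m, hm⟩ := key r
  refine ⟨m, fun c => ?_⟩
  exact hm c Finset.univ (by simp) (fun _ => Finset.mem_univ _)

end Pool.Agent.S11737
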