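import Pool.Statements.S11885

set_option autoImplicit false
open Classical
open Pool Pool.MP_dd5ef2_co

namespace Pool.Agent.S11885

/-- Number of sample indices `l` with `K l ∈ A`. -/
noncomputable def cnt {n m : ℕ} (A : Finset (Fin n)) (K : Fin m → Fin n) : ℕ :=
  (Finset.univ.filter (fun l : Fin m => K l ∈ A)).card

lemma cnt_eq_sum {n m : ℕ} (A : Finset (Fin n)) (K : Fin m → Fin n) :
    cnt A K = ∑ l : Fin m, (if K l ∈ A then 1 else 0) := by
  unfold cnt
  rw [Finset.card_filter]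

lemma cnt_insertNth {n m : ℕ} (A : Finset (Fin n)) (l : Fin (m+1)) (x : Fin n)
    (K : Fin m → Fin n) :
    cnt A (l.insertNth (α := fun _ => Fin n) x K) = (if x ∈ A then 1 else 0) + cnt A K := by
  rw [cnt_eq_sum, cnt_eq_sum, Fin.sum_univ_succAbove _ l]
  simp

/-- The expectation of `1/(Bin+1)` in counting form. -/
lemma sum_inv_cnt (n m : ℕ) (A : Finset (Fin n)) :
    ((m : ℝ) + 1) * (A.card : ℝ) * (∑ K : Fin m → Fin n, (1 : ℝ) / ((cnt A K : ℝ) + 1))
      ≤ (n : ℝ) ^ (m + 1) := by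
  have key : ∀ l : Fin (m+1), ∑ K' : Fin (m+1) → Fin n,
      (if K' l ∈ A then (1:ℝ) / (cnt A K' : ℝ) else 0)
        = (A.card : ℝ) * (∑ K : Fin m → Fin n, (1 : ℝ) / ((cnt A K : ℝ) + 1)) := by
    intro l
    rw [← (Fin.insertNthEquiv (fun _ => Fin n) l).sum_comp]
    rw [Fintype.sum_prod_type]
    have h1 : ∀ x : Fin n, ∑ K : Fin m → Fin n,
        (if ((Fin.insertNthEquiv (fun _ => Fin n) l) (x, K)) l ∈ A
          then (1:ℝ) / (cnt A ((Fin.insertNthEquiv (fun _ => Fin n) l) (x, K)) : ℝ) else 0)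
        = if x ∈ A then (∑ K : Fin m → Fin n, (1 : ℝ) / ((cnt A K : ℝ) + 1)) else 0 := by
      intro x
      by_cases hx : x ∈ A
      · simp only [hx, if_true]
        apply Finset.sum_congr rfl
        intro K _
        have : (Fin.insertNthEquiv (fun _ => Fin n) l) (x, K)
            = l.insertNth (α := fun _ => Fin n) x K := rfl
        rw [this, cnt_insertNth]
        simp [hx]
        ring
      · simp only [hx, if_false]
        apply Finset.sum_eq_zero
        intro K _
        have : (Fin.insertNthEquiv (fun _ => Fin n) l) (x, K)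
            = l.insertNth (α := fun _ => Fin n) x K := rfl
        rw [this]
        simp [hx]
    rw [Finset.sum_congr rfl (fun x _ => h1 x)]
    rw [← Finset.sum_filter]
    simp
  have tot : ∑ l : Fin (m+1), ∑ K' : Fin (m+1) → Fin n,
      (if K' l ∈ A then (1:ℝ) / (cnt A K' : ℝ) else 0)
        = ((m : ℝ) + 1) * (A.card : ℝ) * (∑ K : Fin m → Fin n, (1 : ℝ) / ((cnt A K : ℝ) + 1)) := by
    rw [Finset.sum_congr rfl (fun l _ => key l)]
    simp
    ring
  rw [← tot, Finset.sum_comm]
  have h2 : ∀ K' : Fin (m+1) → Fin n, ∑ l : Fin (m+1),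
      (if K' l ∈ A then (1:ℝ) / (cnt A K' : ℝ) else 0) ≤ 1 := by
    intro K'
    rw [← Finset.sum_filter, Finset.sum_const, nsmul_eq_mul]
    change ((cnt A K' : ℕ) : ℝ) * (1 / (cnt A K' : ℝ)) ≤ 1
    by_cases h0 : (cnt A K' : ℝ) = 0
    · rw [h0]; norm_num
    · rw [mul_one_div_cancel h0]
  calc ∑ K' : Fin (m+1) → Fin n, ∑ l : Fin (m+1),
      (if K' l ∈ A then (1:ℝ) / (cnt A K' : ℝ) else 0)
      ≤ ∑ K' : Fin (m+1) → Fin n, (1 : ℝ) := Finset.sum_le_sum (fun K' _ => h2 K')
    _ = (n : ℝ) ^ (m + 1) := by simp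

/-- `a/n` is at most the geometric mean over samples of `(cnt+1)/(m+1)`. -/
lemma ratio_le_geom (n m : ℕ) (hn : 0 < n) (A : Finset (Fin n)) :
    ((A.card : ℝ) / n) ≤
      ∏ K : Fin m → Fin n, (((cnt A K : ℝ) + 1) / ((m : ℝ) + 1)) ^ ((1 : ℝ) / (n : ℝ) ^ m) := by
  have hn' : (0 : ℝ) < n := by exact_mod_cast hn
  have hN : (0 : ℝ) < (n : ℝ) ^ m := by positivity
  by_cases hA : A.card = 0
  · rw [hA]
    simp only [Nat.cast_zero, zero_div]
    apply Finset.prod_nonneg
    intro K _
    positivity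
  have hA' : (0 : ℝ) < A.card := by exact_mod_cast Nat.pos_of_ne_zero hA
  -- AM-GM for the reciprocals
  have amgm := Real.geom_mean_le_arith_mean_weighted (Finset.univ : Finset (Fin m → Fin n))
    (fun _ => (1 : ℝ) / (n : ℝ) ^ m) (fun K => ((m : ℝ) + 1) / ((cnt A K : ℝ) + 1))
    (fun K _ => by positivity)
    (by simp [Finset.sum_const, hN.ne'])
    (fun K _ => by positivity)
  have hsum : ∑ K : Fin m → Fin n, (1 : ℝ) / (n : ℝ) ^ m * (((m : ℝ) + 1) / ((cnt A K : ℝ) + 1))
      ≤ n / A.card := by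
    have := sum_inv_cnt n m A
    have e : ∑ K : Fin m → Fin n, (1 : ℝ) / (n : ℝ) ^ m * (((m : ℝ) + 1) / ((cnt A K : ℝ) + 1))
      = (1 / (n : ℝ) ^ m) * (((m : ℝ) + 1) * (∑ K : Fin m → Fin n, (1 : ℝ) / ((cnt A K : ℝ) + 1))) := by
      rw [Finset.mul_sum, Finset.mul_sum]
      apply Finset.sum_congr rfl
      intro K _
      ring
    rw [e, le_div_iff₀ hA', one_div, inv_mul_eq_div, div_mul_eq_mul_div, div_le_iff₀ hN]
    calc ((m : ℝ) + 1) * (∑ K : Fin m → Fin n, (1 : ℝ) / ((cnt A K : ℝ) + 1)) * (A.card : ℝ)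
        = ((m : ℝ) + 1) * (A.card : ℝ) * (∑ K : Fin m → Fin n, (1 : ℝ) / ((cnt A K : ℝ) + 1)) := by ring
      _ ≤ (n : ℝ) ^ (m + 1) := this
      _ = n * (n : ℝ) ^ m := by ring
  have h3 := amgm.trans hsum
  -- invert
  have hpos : 0 < ∏ K : Fin m → Fin n,
      (((m : ℝ) + 1) / ((cnt A K : ℝ) + 1)) ^ ((1 : ℝ) / (n : ℝ) ^ m) := by
    apply Finset.prod_pos
    intro K _
    positivity
  have h4 : (∏ K : Fin m → Fin n,
      (((m : ℝ) + 1) / ((cnt A K : ℝ) + 1)) ^ ((1 : ℝ) / (n : ℝ) ^ m))⁻¹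
      = ∏ K : Fin m → Fin n, (((cnt A K : ℝ) + 1) / ((m : ℝ) + 1)) ^ ((1 : ℝ) / (n : ℝ) ^ m) := by
    rw [← Finset.prod_inv_distrib]
    apply Finset.prod_congr rfl
    intro K _
    rw [← Real.inv_rpow (by positivity), inv_div]
  rw [← h4]
  rw [show (A.card : ℝ) / n = ((n : ℝ) / A.card)⁻¹ by rw [inv_div]]
  exact inv_anti₀ hpos h3

/-- The key domination: a product of ratios is at most the average over samples of the
product of smoothed empirical ratios. -/
lemma prod_ratio_le {ι : Type} (s : Finset ι) (n m : ℕ) (hn : 0 < n)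
    (A : ι → Finset (Fin n)) :
    ∏ p ∈ s, (((A p).card : ℝ) / n) ≤
      (1 / (n : ℝ) ^ m) * ∑ K : Fin m → Fin n, ∏ p ∈ s, (((cnt (A p) K : ℝ) + 1) / ((m : ℝ) + 1)) := by
  have hn' : (0 : ℝ) < n := by exact_mod_cast hn
  have hN : (0 : ℝ) < (n : ℝ) ^ m := by positivity
  have h1 : ∏ p ∈ s, (((A p).card : ℝ) / n) ≤
      ∏ p ∈ s, ∏ K : Fin m → Fin n, (((cnt (A p) K : ℝ) + 1) / ((m : ℝ) + 1)) ^ ((1 : ℝ) / (n : ℝ) ^ m) := by
    apply Finset.prod_le_prod
    · intro p _; positivity
    · intro p _; exact ratio_le_geom n m hn (A p)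
  rw [Finset.prod_comm] at h1
  have h2 : ∏ K : Fin m → Fin n, ∏ p ∈ s,
      (((cnt (A p) K : ℝ) + 1) / ((m : ℝ) + 1)) ^ ((1 : ℝ) / (n : ℝ) ^ m)
      = ∏ K : Fin m → Fin n, (∏ p ∈ s,
      (((cnt (A p) K : ℝ) + 1) / ((m : ℝ) + 1))) ^ ((1 : ℝ) / (n : ℝ) ^ m) := by
    apply Finset.prod_congr rfl
    intro K _
    rw [Real.finsetProd_rpow]
    intro p _
    positivity
  rw [h2] at h1
  have amgm := Real.geom_mean_le_arith_mean_weighted (Finset.univ : Finset (Fin m → Fin n))
    (fun _ => (1 : ℝ) / (n : ℝ) ^ m)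
    (fun K => ∏ p ∈ s, (((cnt (A p) K : ℝ) + 1) / ((m : ℝ) + 1)))
    (fun K _ => by positivity)
    (by simp [Finset.sum_const, hN.ne'])
    (fun K _ => by
      apply Finset.prod_nonneg
      intro p _
      positivity)
  refine h1.trans (amgm.trans (le_of_eq ?_))
  rw [Finset.mul_sum]

/-- Pairs `i < j`. -/
abbrev P (n : ℕ) : Type := {p : Fin n × Fin n // p.1 < p.2}

/-- Vertices `k` which are not an odd third vertex for the pair `i, j`. -/
noncomputable def A {n : ℕ} (G : SimpleGraph (Fin n)) (i j : Fin n) : Finset (Fin n) :=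
  Finset.univ.filter (fun k : Fin n => k = i ∨ k = j ∨
    Even ((if G.Adj i j then 1 else 0) + (if G.Adj i k then 1 else 0)
                  + (if G.Adj j k then 1 else 0) : ℕ))

lemma ratio_le {n : ℕ} (hn : 3 ≤ n) (G : SimpleGraph (Fin n)) (i j : Fin n) (hij : i < j) :
    (((Finset.univ.filter (fun k : Fin n => k ≠ i ∧ k ≠ j ∧
                Even ((if G.Adj i j then 1 else 0) + (if G.Adj i k then 1 else 0)
                  + (if G.Adj j k then 1 else 0) : ℕ))).card : ℝ) / ((n : ℝ) - 2))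
      ≤ ((A G i j).card : ℝ) / n := by
  set E := Finset.univ.filter (fun k : Fin n => k ≠ i ∧ k ≠ j ∧
                Even ((if G.Adj i j then 1 else 0) + (if G.Adj i k then 1 else 0)
                  + (if G.Adj j k then 1 else 0) : ℕ)) with hE
  have hA : A G i j = insert i (insert j E) := by
    ext k
    simp only [A, hE, Finset.mem_filter, Finset.mem_univ, true_and, Finset.mem_insert]
    by_cases h1 : k = i
    · simp [h1]
    · by_cases h2 : k = j
      · simp [h2]
      · simp [h1, h2]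
  have hjE : j ∉ E := by simp [hE]
  have hiE : i ∉ insert j E := by
    simp only [Finset.mem_insert, not_or]
    refine ⟨hij.ne, ?_⟩
    simp [hE]
  have hcard : (A G i j).card = E.card + 2 := by
    rw [hA, Finset.card_insert_of_notMem hiE, Finset.card_insert_of_notMem hjE]
  have hle : (A G i j).card ≤ n := by
    have := Finset.card_le_univ (A G i j)
    simpa using this
  have hle' : ((A G i j).card : ℝ) ≤ n := by exact_mod_cast hle
  have hc : ((A G i j).card : ℝ) = E.card + 2 := by exact_mod_cast hcard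
  have hn' : (3 : ℝ) ≤ n := by exact_mod_cast hn
  rw [div_le_div_iff₀ (by linarith) (by linarith)]
  rw [hc] at hle' ⊢
  nlinarith

/-- The value bound used for a pair given the data `D` on the sampled rows. -/
noncomputable def f {n m : ℕ} (K : Fin m → Fin n) (D : Fin m → Fin n → Bool) (i j : Fin n)
    (b : Bool) : ℝ :=
  if (∃ l, K l = i ∨ K l = j) then
    (if (∀ l, (K l = i → D l j = b) ∧ (K l = j → D l i = b)) then 1 else 0)
  else (((Finset.univ.filter (fun l : Fin m =>
      Even (b.toNat + (D l i).toNat + (D l j).toNat))).card : ℝ) + 1) / ((m : ℝ) + 1)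

lemma f_nonneg {n m : ℕ} (K : Fin m → Fin n) (D : Fin m → Fin n → Bool) (i j : Fin n)
    (b : Bool) : 0 ≤ f K D i j b := by
  unfold f
  split_ifs
  · exact zero_le_one
  · exact le_rfl
  · positivity

lemma f_sum {n m : ℕ} (K : Fin m → Fin n) (D : Fin m → Fin n → Bool) (i j : Fin n) :
    ∑ b : Bool, f K D i j b ≤ ((m : ℝ) + 2) / ((m : ℝ) + 1) := by
  have hm : (0 : ℝ) < (m : ℝ) + 1 := by positivity
  rw [Fintype.sum_bool]
  by_cases h : ∃ l, K l = i ∨ K l = j
  · have h1 : (1 : ℝ) ≤ ((m : ℝ) + 2) / ((m : ℝ) + 1) := by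
      rw [le_div_iff₀ hm]; linarith
    refine le_trans ?_ h1
    unfold f
    simp only [h, if_true]
    obtain ⟨l, hl⟩ := h
    by_cases ht : ∀ l, (K l = i → D l j = true) ∧ (K l = j → D l i = true)
    · have hf : ¬ ∀ l, (K l = i → D l j = false) ∧ (K l = j → D l i = false) := by
        intro hf
        rcases hl with hl | hl
        · have h2 := (ht l).1 hl
          have h3 := (hf l).1 hl
          rw [h2] at h3
          exact absurd h3 (by decide)
        · have h2 := (ht l).2 hl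
          have h3 := (hf l).2 hl
          rw [h2] at h3
          exact absurd h3 (by decide)
      rw [if_pos ht, if_neg hf]
      norm_num
    · rw [if_neg ht]
      split_ifs <;> norm_num
  · unfold f
    simp only [h, if_false]
    rw [← add_div]
    apply le_of_eq
    congr 1
    have hsum : (Finset.univ.filter (fun l : Fin m =>
      Even (true.toNat + (D l i).toNat + (D l j).toNat))).card +
      (Finset.univ.filter (fun l : Fin m =>
      Even (false.toNat + (D l i).toNat + (D l j).toNat))).card = m := by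
      have h2 := Finset.card_filter_add_card_filter_not (s := (Finset.univ : Finset (Fin m)))
        (fun l : Fin m => Even (true.toNat + (D l i).toNat + (D l j).toNat))
      have h3 : (Finset.univ.filter (fun l : Fin m =>
          ¬ Even (true.toNat + (D l i).toNat + (D l j).toNat)))
          = (Finset.univ.filter (fun l : Fin m =>
      Even (false.toNat + (D l i).toNat + (D l j).toNat))) := by
        apply Finset.filter_congr
        intro l _
        cases D l i <;> cases D l j <;> decide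
      rw [h3] at h2
      simpa using h2
    have hsum' : (((Finset.univ.filter (fun l : Fin m =>
      Even (true.toNat + (D l i).toNat + (D l j).toNat))).card : ℕ) : ℝ) +
      (((Finset.univ.filter (fun l : Fin m =>
      Even (false.toNat + (D l i).toNat + (D l j).toNat))).card : ℕ) : ℝ) = m := by
      exact_mod_cast hsum
    linarith

/-- The data of the graph `G` on the sampled rows. -/
noncomputable def data {n m : ℕ} (K : Fin m → Fin n) (G : SimpleGraph (Fin n)) :
    Fin m → Fin n → Bool := fun l j => decide (G.Adj (K l) j)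

lemma psi_le_f {n m : ℕ} (K : Fin m → Fin n) (G : SimpleGraph (Fin n)) (i j : Fin n) :
    (((cnt (A G i j) K : ℕ) : ℝ) + 1) / ((m : ℝ) + 1)
      ≤ f K (data K G) i j (decide (G.Adj i j)) := by
  have hm : (0 : ℝ) < (m : ℝ) + 1 := by positivity
  unfold f
  by_cases h : ∃ l, K l = i ∨ K l = j
  · simp only [h, if_true]
    have h2 : ∀ l, (K l = i → data K G l j = decide (G.Adj i j)) ∧
        (K l = j → data K G l i = decide (G.Adj i j)) := by
      intro l
      constructor
      · intro hl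
        simp [data, hl]
      · intro hl
        simp [data, hl, G.adj_comm]
    rw [if_pos h2, div_le_iff₀ hm, one_mul]
    have : cnt (A G i j) K ≤ m := by
      unfold cnt
      have := Finset.card_le_univ (Finset.univ.filter (fun l : Fin m => K l ∈ A G i j))
      simpa using this
    have : ((cnt (A G i j) K : ℕ) : ℝ) ≤ m := by exact_mod_cast this
    linarith
  · simp only [h, if_false]
    apply le_of_eq
    congr 3
    unfold cnt
    congr 1
    apply Finset.filter_congr
    intro l _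
    push Not at h
    have h1 := h l
    simp only [A, Finset.mem_filter, Finset.mem_univ, true_and, h1.1, h1.2, false_or, data]
    rw [G.adj_comm i (K l), G.adj_comm j (K l)]
    by_cases ha : G.Adj i j <;> by_cases hb : G.Adj (K l) i <;> by_cases hc : G.Adj (K l) j <;>
      simp [ha, hb, hc]

/-- The graph coded as a Boolean function on pairs. -/
noncomputable def code {n : ℕ} (G : SimpleGraph (Fin n)) : P n → Bool :=
  fun p => decide (G.Adj p.1.1 p.1.2)

lemma code_injective {n : ℕ} : Function.Injective (code (n := n)) := by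
  intro G G' h
  have h1 : ∀ i j : Fin n, i < j → (G.Adj i j ↔ G'.Adj i j) := by
    intro i j hij
    have := congrFun h ⟨(i, j), hij⟩
    simpa [code] using this
  ext i j
  rcases lt_trichotomy i j with hij | hij | hij
  · exact h1 i j hij
  · subst hij
    simp
  · rw [G.adj_comm, G'.adj_comm]
    exact h1 j i hij

lemma sum_graph_le {n : ℕ} (F : (P n → Bool) → ℝ) (hF : ∀ b, 0 ≤ F b) :
    ∑ G : SimpleGraph (Fin n), F (code G) ≤ ∑ b : P n → Bool, F b := by
  have h : ∑ b ∈ Finset.univ.image (code (n := n)), F b = ∑ G : SimpleGraph (Fin n), F (code G) :=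
    Finset.sum_image (fun x _ y _ hxy => code_injective hxy)
  rw [← h]
  exact Finset.sum_le_sum_of_subset_of_nonneg (Finset.subset_univ _) (fun b _ _ => hF b)

lemma fixed_K {n m : ℕ} (K : Fin m → Fin n) :
    ∑ G : SimpleGraph (Fin n), ∏ p : P n,
        (((cnt (A G p.1.1 p.1.2) K : ℕ) : ℝ) + 1) / ((m : ℝ) + 1)
      ≤ (2 : ℝ) ^ (m * n) * (((m : ℝ) + 2) / ((m : ℝ) + 1)) ^ (n * n) := by
  have hm : (0 : ℝ) < (m : ℝ) + 1 := by positivity
  have h1 : ∀ G : SimpleGraph (Fin n), ∏ p : P n,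
        (((cnt (A G p.1.1 p.1.2) K : ℕ) : ℝ) + 1) / ((m : ℝ) + 1)
      ≤ ∑ D : Fin m → Fin n → Bool, ∏ p : P n, f K D p.1.1 p.1.2 (code G p) := by
    intro G
    calc ∏ p : P n, (((cnt (A G p.1.1 p.1.2) K : ℕ) : ℝ) + 1) / ((m : ℝ) + 1)
        ≤ ∏ p : P n, f K (data K G) p.1.1 p.1.2 (code G p) := by
          apply Finset.prod_le_prod
          · intro p _
            positivity
          · intro p _
            exact psi_le_f K G p.1.1 p.1.2
      _ ≤ ∑ D : Fin m → Fin n → Bool, ∏ p : P n, f K D p.1.1 p.1.2 (code G p) :=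
          Finset.single_le_sum (f := fun D => ∏ p : P n, f K D p.1.1 p.1.2 (code G p))
            (fun D _ => Finset.prod_nonneg (fun p _ => f_nonneg K D _ _ _)) (Finset.mem_univ _)
  have h2 : ∀ D : Fin m → Fin n → Bool,
      ∑ G : SimpleGraph (Fin n), ∏ p : P n, f K D p.1.1 p.1.2 (code G p)
        ≤ (((m : ℝ) + 2) / ((m : ℝ) + 1)) ^ (n * n) := by
    intro D
    calc ∑ G : SimpleGraph (Fin n), ∏ p : P n, f K D p.1.1 p.1.2 (code G p)
        ≤ ∑ b : P n → Bool, ∏ p : P n, f K D p.1.1 p.1.2 (b p) :=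
          sum_graph_le (fun b => ∏ p : P n, f K D p.1.1 p.1.2 (b p))
            (fun b => Finset.prod_nonneg (fun p _ => f_nonneg K D _ _ _))
      _ = ∏ p : P n, ∑ b : Bool, f K D p.1.1 p.1.2 b := by
          rw [Finset.prod_univ_sum, Fintype.piFinset_univ]
      _ ≤ ∏ p : P n, (((m : ℝ) + 2) / ((m : ℝ) + 1)) := by
          apply Finset.prod_le_prod
          · intro p _
            exact Finset.sum_nonneg (fun b _ => f_nonneg K D _ _ _)
          · intro p _
            exact f_sum K D _ _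
      _ = (((m : ℝ) + 2) / ((m : ℝ) + 1)) ^ (Fintype.card (P n)) := by
          rw [Finset.prod_const, Finset.card_univ]
      _ ≤ (((m : ℝ) + 2) / ((m : ℝ) + 1)) ^ (n * n) := by
          apply pow_le_pow_right₀
          · rw [le_div_iff₀ hm]; linarith
          · have := Fintype.card_subtype_le (fun p : Fin n × Fin n => p.1 < p.2)
            simpa using this
  calc ∑ G : SimpleGraph (Fin n), ∏ p : P n,
        (((cnt (A G p.1.1 p.1.2) K : ℕ) : ℝ) + 1) / ((m : ℝ) + 1)
      ≤ ∑ G : SimpleGraph (Fin n), ∑ D : Fin m → Fin n → Bool,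
          ∏ p : P n, f K D p.1.1 p.1.2 (code G p) := Finset.sum_le_sum (fun G _ => h1 G)
    _ = ∑ D : Fin m → Fin n → Bool, ∑ G : SimpleGraph (Fin n),
          ∏ p : P n, f K D p.1.1 p.1.2 (code G p) := Finset.sum_comm
    _ ≤ ∑ D : Fin m → Fin n → Bool, (((m : ℝ) + 2) / ((m : ℝ) + 1)) ^ (n * n) :=
        Finset.sum_le_sum (fun D _ => h2 D)
    _ = (2 : ℝ) ^ (m * n) * (((m : ℝ) + 2) / ((m : ℝ) + 1)) ^ (n * n) := by
        rw [Finset.sum_const, nsmul_eq_mul]
        congr 1
        simp [← pow_mul, mul_comm]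

/-- Product over ordered double index equals product over pairs. -/
lemma prod_pairs {n : ℕ} (X : Fin n → Fin n → ℝ) :
    ∏ i : Fin n, ∏ j : Fin n, (if i < j then X i j else 1) = ∏ p : P n, X p.1.1 p.1.2 := by
  rw [← Fintype.prod_prod_type' (f := fun i j => if i < j then X i j else 1)]
  rw [← Finset.prod_filter (p := fun p : Fin n × Fin n => p.1 < p.2) (f := fun p => X p.1 p.2)]
  exact Finset.prod_subtype _ (by simp) _

/-- Explicit bound: `S(n) ≤ 2^{mn} ((m+2)/(m+1))^{n^2}` for every `m` and every `n ≥ 3`. -/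
theorem explicit_bound (n m : ℕ) (hn : 3 ≤ n) :
    (∑ G : SimpleGraph (Fin n),
        ∏ i : Fin n, ∏ j : Fin n,
          (if i < j then
            (((Finset.univ.filter (fun k : Fin n => k ≠ i ∧ k ≠ j ∧
                Even ((if G.Adj i j then 1 else 0) + (if G.Adj i k then 1 else 0)
                  + (if G.Adj j k then 1 else 0) : ℕ))).card : ℝ) / ((n : ℝ) - 2))
          else 1)) ≤ (2 : ℝ) ^ (m * n) * (((m : ℝ) + 2) / ((m : ℝ) + 1)) ^ (n * n) := by
  have hn0 : 0 < n := by omega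
  have hn' : (3 : ℝ) ≤ n := by exact_mod_cast hn
  have hN : (0 : ℝ) < (n : ℝ) ^ m := by positivity
  have h1 : ∀ G : SimpleGraph (Fin n), ∏ i : Fin n, ∏ j : Fin n,
          (if i < j then
            (((Finset.univ.filter (fun k : Fin n => k ≠ i ∧ k ≠ j ∧
                Even ((if G.Adj i j then 1 else 0) + (if G.Adj i k then 1 else 0)
                  + (if G.Adj j k then 1 else 0) : ℕ))).card : ℝ) / ((n : ℝ) - 2))
          else 1) ≤ (1 / (n : ℝ) ^ m) * ∑ K : Fin m → Fin n, ∏ p : P n,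
            (((cnt (A G p.1.1 p.1.2) K : ℕ) : ℝ) + 1) / ((m : ℝ) + 1) := by
    intro G
    rw [prod_pairs (fun i j => (((Finset.univ.filter (fun k : Fin n => k ≠ i ∧ k ≠ j ∧
                Even ((if G.Adj i j then 1 else 0) + (if G.Adj i k then 1 else 0)
                  + (if G.Adj j k then 1 else 0) : ℕ))).card : ℝ) / ((n : ℝ) - 2)))]
    refine le_trans ?_ (prod_ratio_le (Finset.univ : Finset (P n)) n m hn0
      (fun p => A G p.1.1 p.1.2))
    apply Finset.prod_le_prod
    · intro p _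
      apply div_nonneg
      · positivity
      · linarith
    · intro p _
      exact ratio_le hn G p.1.1 p.1.2 p.2
  calc _ ≤ ∑ G : SimpleGraph (Fin n), (1 / (n : ℝ) ^ m) * ∑ K : Fin m → Fin n, ∏ p : P n,
            (((cnt (A G p.1.1 p.1.2) K : ℕ) : ℝ) + 1) / ((m : ℝ) + 1) :=
        Finset.sum_le_sum (fun G _ => h1 G)
    _ = (1 / (n : ℝ) ^ m) * ∑ K : Fin m → Fin n, ∑ G : SimpleGraph (Fin n), ∏ p : P n,
            (((cnt (A G p.1.1 p.1.2) K : ℕ) : ℝ) + 1) / ((m : ℝ) + 1) := by
        rw [← Finset.mul_sum, Finset.sum_comm]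
    _ ≤ (1 / (n : ℝ) ^ m) * ∑ K : Fin m → Fin n,
          ((2 : ℝ) ^ (m * n) * (((m : ℝ) + 2) / ((m : ℝ) + 1)) ^ (n * n)) := by
        apply mul_le_mul_of_nonneg_left _ (by positivity)
        exact Finset.sum_le_sum (fun K _ => fixed_K K)
    _ = (2 : ℝ) ^ (m * n) * (((m : ℝ) + 2) / ((m : ℝ) + 1)) ^ (n * n) := by
        rw [Finset.sum_const, nsmul_eq_mul]
        simp only [Finset.card_univ, Fintype.card_fun, Fintype.card_fin, Nat.cast_pow]
        rw [← mul_assoc, one_div, inv_mul_cancel₀ hN.ne', one_mul]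

/-- For every ε>0 and all large n, summing over all graphs on n vertices the product over pairs i<j of the fraction of other vertices k with an even number of edges in triangle ijk gives at most 2^(εn²). -/
theorem result :
    ∀ ε : ℝ, 0 < ε → ∃ N : ℕ, ∀ n : ℕ, N ≤ n →
      (∑ G : SimpleGraph (Fin n),
        ∏ i : Fin n, ∏ j : Fin n,
          (if i < j then
            (((Finset.univ.filter (fun k : Fin n => k ≠ i ∧ k ≠ j ∧
                Even ((if G.Adj i j then 1 else 0) + (if G.Adj i k then 1 else 0)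
                  + (if G.Adj j k then 1 else 0) : ℕ))).card : ℝ) / ((n : ℝ) - 2))
          else 1)) ≤ (2 : ℝ) ^ (ε * (n : ℝ) ^ 2) := by
  intro ε hε
  obtain ⟨m, hm⟩ := exists_nat_gt (4 / ε)
  obtain ⟨N, hN⟩ := exists_nat_gt (2 * (m : ℝ) / ε)
  refine ⟨max N 3, fun n hn => ?_⟩
  have hn3 : 3 ≤ n := le_trans (le_max_right _ _) hn
  have hnN : N ≤ n := le_trans (le_max_left _ _) hn
  have hnN' : (N : ℝ) ≤ n := by exact_mod_cast hnN
  have hnpos : (0 : ℝ) < n := by
    have : 0 < n := by omega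
    exact_mod_cast this
  refine le_trans (explicit_bound n m hn3) ?_
  have hm1 : (0 : ℝ) < (m : ℝ) + 1 := by positivity
  -- first factor
  have e1 : (2 : ℝ) ^ (m * n) = (2 : ℝ) ^ (((m * n : ℕ) : ℝ)) := by
    rw [Real.rpow_natCast]
  -- second factor
  have e2 : (((m : ℝ) + 2) / ((m : ℝ) + 1)) ≤ (2 : ℝ) ^ (2 / ((m : ℝ) + 1)) := by
    have h1 : ((m : ℝ) + 2) / ((m : ℝ) + 1) = 1 / ((m : ℝ) + 1) + 1 := by
      field_simp
      ring
    rw [h1]
    have h2 := Real.add_one_le_exp (1 / ((m : ℝ) + 1))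
    refine le_trans h2 ?_
    rw [Real.rpow_def_of_pos (by norm_num : (0:ℝ) < 2)]
    apply Real.exp_le_exp.mpr
    have h3 : (1 : ℝ) / 2 ≤ Real.log 2 := by
      have := Real.log_two_gt_d9
      linarith
    have h4 : 1 / ((m : ℝ) + 1) = (1 / 2) * (2 / ((m : ℝ) + 1)) := by ring
    rw [h4]
    apply mul_le_mul_of_nonneg_right h3
    positivity
  have e3 : (((m : ℝ) + 2) / ((m : ℝ) + 1)) ^ (n * n)
      ≤ (2 : ℝ) ^ ((2 / ((m : ℝ) + 1)) * ((n * n : ℕ) : ℝ)) := by
    rw [Real.rpow_mul (by norm_num), Real.rpow_natCast]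
    exact pow_le_pow_left₀ (by positivity) e2 _
  calc (2 : ℝ) ^ (m * n) * (((m : ℝ) + 2) / ((m : ℝ) + 1)) ^ (n * n)
      ≤ (2 : ℝ) ^ (((m * n : ℕ) : ℝ)) * (2 : ℝ) ^ ((2 / ((m : ℝ) + 1)) * ((n * n : ℕ) : ℝ)) := by
        rw [← e1]
        exact mul_le_mul_of_nonneg_left e3 (by positivity)
    _ = (2 : ℝ) ^ (((m * n : ℕ) : ℝ) + (2 / ((m : ℝ) + 1)) * ((n * n : ℕ) : ℝ)) := by
        rw [Real.rpow_add (by norm_num)]
    _ ≤ (2 : ℝ) ^ (ε * (n : ℝ) ^ 2) := by
        apply Real.rpow_le_rpow_of_exponent_le (by norm_num)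
        push_cast
        have h5 : (m : ℝ) * n ≤ (ε / 2) * (n : ℝ) ^ 2 := by
          have h6 : 2 * (m : ℝ) / ε < n := lt_of_lt_of_le hN hnN'
          rw [div_lt_iff₀ hε] at h6
          nlinarith
        have h7 : (2 / ((m : ℝ) + 1)) ≤ ε / 2 := by
          rw [div_lt_iff₀ hε] at hm
          rw [div_le_div_iff₀ hm1 (by norm_num)]
          nlinarith
        have h8 : (2 / ((m : ℝ) + 1)) * ((n : ℝ) * n) ≤ (ε / 2) * ((n : ℝ) * n) :=
          mul_le_mul_of_nonneg_right h7 (by positivity)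
        nlinarith

end Pool.Agent.S11885
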