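import Pool.Statements.S12030
import Pool.Agent.Helper993_Coset.Main

set_option autoImplicit false
open Pool Pool.MP_e2957e_co

namespace Pool.Agent.S12030

/-- The negation of the preceding statement: There is an absolute C₁>0 such that any A⊂S_n of size c(n−1)! whose transposition-graph edge boundary is at most ∣A∣(n!−∣A∣)/(n−1)!+δn∣A∣ lies within symmetric difference C₁cδ(n−1)! of a union of c distinct 1-cosets {σ: σ(i)=j}. -/
theorem result :
    ¬ (∃ C₁ : ℝ, 0 < C₁ ∧
      ∀ (n : ℕ), 1 ≤ n →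
      ∀ (c : ℕ) (δ : ℝ), 0 ≤ δ →
      ∀ A : Finset (Equiv.Perm (Fin n)),
        A.card = c * Nat.factorial (n - 1) →
        ((((A ×ˢ (Finset.univ.filter (fun p : Fin n × Fin n => p.1 < p.2))).filter
            (fun x => x.1 * Equiv.swap x.2.1 x.2.2 ∉ A)).card : ℕ) : ℝ)
          ≤ (A.card : ℝ) * ((Nat.factorial n : ℝ) - (A.card : ℝ)) / (Nat.factorial (n - 1) : ℝ)
            + δ * (n : ℝ) * (A.card : ℝ) →
        ∃ P : Finset (Fin n × Fin n), P.card = c ∧
          ((symmDiff A (Finset.univ.filter (fun σ : Equiv.Perm (Fin n) => ∃ p ∈ P, σ p.1 = p.2))).card : ℝ)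
            ≤ C₁ * (c : ℝ) * δ * (Nat.factorial (n - 1) : ℝ)) := by
  classical
  rintro ⟨C₁, hC, H⟩
  obtain ⟨K, hK⟩ : ∃ K : ℕ, 8 * C₁ + 1 ≤ (K : ℝ) := exists_nat_ge _
  obtain ⟨n, hn⟩ : ∃ n : ℕ, n = 2 * K + 6 := ⟨_, rfl⟩
  have hn2 : 2 ≤ n := by omega
  have hn0 : (0 : ℝ) < n := by exact_mod_cast (by omega : 0 < n)
  have hn2' : (0 : ℝ) < (n : ℝ) - 2 := by
    have : (2 : ℝ) < n := by exact_mod_cast (by omega : 2 < n)
    linarith
  set a : Fin n := ⟨0, by omega⟩ with ha
  set b : Fin n := ⟨1, by omega⟩ with hb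
  have hab : a ≠ b := by
    intro h
    have := congrArg Fin.val h
    simp [ha, hb] at this
  have hcardA := Helper993Coset.card_A hn2 a b hab
  have hbd := Helper993Coset.boundary_le hn2 a b hab
  have hfac : n.factorial = n * (n - 1).factorial := by
    obtain ⟨m, rfl⟩ : ∃ m, n = m + 1 := ⟨n - 1, by omega⟩
    exact Nat.factorial_succ m
  have hfac2 : (n - 1).factorial = (n - 1) * (n - 2).factorial := by
    obtain ⟨m, rfl⟩ : ∃ m, n = m + 2 := ⟨n - 2, by omega⟩
    exact Nat.factorial_succ m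
  have hF : (0 : ℝ) < ((n - 1).factorial : ℝ) := by exact_mod_cast Nat.factorial_pos _
  have hF2 : (0 : ℝ) < ((n - 2).factorial : ℝ) := by exact_mod_cast Nat.factorial_pos _
  have hc : ((n - 2 : ℕ) : ℝ) = (n : ℝ) - 2 := by
    rw [Nat.cast_sub hn2]; norm_num
  have hc1 : ((n - 1 : ℕ) : ℝ) = (n : ℝ) - 1 := by
    rw [Nat.cast_sub (by omega : 1 ≤ n)]; norm_num
  have hcardA' : ((Helper993Coset.A a b).card : ℝ) = ((n : ℝ) - 2) * ((n - 1).factorial : ℝ) := by
    rw [hcardA]; push_cast; rw [hc]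
  obtain ⟨P, hPc, hP⟩ := H n (by omega) (n - 2) (4 / ((n : ℝ) * ((n : ℝ) - 2)))
    (by positivity) (Helper993Coset.A a b) hcardA (by
      have h1 : ((((Helper993Coset.A a b) ×ˢ
          (Finset.univ.filter (fun p : Fin n × Fin n => p.1 < p.2))).filter
          (fun x => x.1 * Equiv.swap x.2.1 x.2.2 ∉ Helper993Coset.A a b)).card : ℝ)
          ≤ 2 * (n : ℝ) * ((n - 1).factorial : ℝ) := by exact_mod_cast hbd
      refine h1.trans (le_of_eq ?_)
      rw [hcardA', hfac]
      push_cast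
      field_simp
      ring)
  -- the two families of compatible pairs
  have hcover : P ⊆ (P.filter (fun p => p.1 ≠ a ∧ p.2 ≠ a)) ∪
      (P.filter (fun p => p.1 ≠ b ∧ p.2 ≠ b)) ∪ {(a, b), (b, a)} := by
    rintro ⟨i, j⟩ hp
    simp only [Finset.mem_union, Finset.mem_filter, Finset.mem_insert, Finset.mem_singleton,
      Prod.mk.injEq]
    by_contra hcon
    push Not at hcon
    obtain ⟨⟨h1, h2⟩, h3, h4⟩ := hcon
    have h1' := h1 hp
    have h2' := h2 hp
    by_cases hia : i = a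
    · subst hia
      have hjb : j = b := h2' hab
      exact h3 rfl hjb
    · have hja : j = a := h1' hia
      subst hja
      by_cases hib : i = b
      · exact h4 hib rfl
      · exact hab (h2' hib)
  have hcount : n - 2 ≤ (P.filter (fun p => p.1 ≠ a ∧ p.2 ≠ a)).card +
      (P.filter (fun p => p.1 ≠ b ∧ p.2 ≠ b)).card + 2 := by
    have h1 := Finset.card_le_card hcover
    have h2 := Finset.card_union_le ((P.filter (fun p => p.1 ≠ a ∧ p.2 ≠ a)) ∪
      (P.filter (fun p => p.1 ≠ b ∧ p.2 ≠ b))) {(a, b), (b, a)}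
    have h3 := Finset.card_union_le (P.filter (fun p => p.1 ≠ a ∧ p.2 ≠ a))
      (P.filter (fun p => p.1 ≠ b ∧ p.2 ≠ b))
    have h4 : ({(a, b), (b, a)} : Finset (Fin n × Fin n)).card ≤ 2 := Finset.card_le_two
    omega
  -- lower bound for the symmetric difference
  have hlow : ∀ x : Fin n, (x = a ∨ x = b) → K ≤ (P.filter (fun p => p.1 ≠ x ∧ p.2 ≠ x)).card →
      K * (n - 2).factorial ≤ 2 * (symmDiff (Helper993Coset.A a b)
        (Finset.univ.filter (fun σ : Equiv.Perm (Fin n) => ∃ p ∈ P, σ p.1 = p.2))).card := by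
    intro x hx hKx
    obtain ⟨s, hs, hsc⟩ := Finset.exists_subset_card_eq hKx
    have h1 := Helper993Coset.union_ge (n := n) (K := K) (by omega) x s
      (fun p hp => (Finset.mem_filter.mp (hs hp)).2) hsc
    refine h1.trans ?_
    refine Nat.mul_le_mul_left 2 (Finset.card_le_card ?_)
    intro σ hσ
    simp only [Finset.mem_filter, Finset.mem_univ, true_and] at hσ
    obtain ⟨hσx, p, hp, hσp⟩ := hσ
    rw [Finset.mem_symmDiff]
    right
    constructor
    · simp only [Finset.mem_filter, Finset.mem_univ, true_and]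
      exact ⟨p, (Finset.mem_filter.mp (hs hp)).1, hσp⟩
    · simp only [Helper993Coset.A, Finset.mem_filter, Finset.mem_univ, true_and, not_not]
      rcases hx with h | h
      · left; rw [← h]; exact hσx
      · right; left; rw [← h]; exact hσx
  have hfin : K * (n - 2).factorial ≤ 2 * (symmDiff (Helper993Coset.A a b)
        (Finset.univ.filter (fun σ : Equiv.Perm (Fin n) => ∃ p ∈ P, σ p.1 = p.2))).card := by
    by_cases h : K ≤ (P.filter (fun p => p.1 ≠ a ∧ p.2 ≠ a)).card
    · exact hlow a (Or.inl rfl) h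
    · exact hlow b (Or.inr rfl) (by omega)
  have hfin' : (K : ℝ) * ((n - 2).factorial : ℝ) ≤ 2 * ((symmDiff (Helper993Coset.A a b)
        (Finset.univ.filter (fun σ : Equiv.Perm (Fin n) => ∃ p ∈ P, σ p.1 = p.2))).card : ℝ) := by
    exact_mod_cast hfin
  have hup : C₁ * ((n - 2 : ℕ) : ℝ) * (4 / ((n : ℝ) * ((n : ℝ) - 2))) * ((n - 1).factorial : ℝ)
      ≤ 4 * C₁ * ((n - 2).factorial : ℝ) := by
    rw [hc, hfac2]
    push_cast
    rw [hc1]
    have h1 : C₁ * ((n : ℝ) - 2) * (4 / ((n : ℝ) * ((n : ℝ) - 2))) *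
        (((n : ℝ) - 1) * ((n - 2).factorial : ℝ))
        = (4 * C₁ * ((n - 2).factorial : ℝ)) * (((n : ℝ) - 1) / n) := by
      field_simp
    rw [h1]
    apply mul_le_of_le_one_right (by positivity)
    rw [div_le_one hn0]
    linarith
  have h1 : (K : ℝ) * ((n - 2).factorial : ℝ) ≤ 8 * C₁ * ((n - 2).factorial : ℝ) := by
    linarith
  have h2 : (K : ℝ) ≤ 8 * C₁ := le_of_mul_le_mul_right h1 hF2
  linarith

end Pool.Agent.S12030
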