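import Pool.Statements.S12300
import Pool.Agent.helper287_Sidon.Reals

set_option autoImplicit false
open Pool Pool.MP_ef4e97_co

namespace Pool.Agent.S12300

/-- The negation of the preceding statement: For every ε>0, every large enough finite set of N reals is covered by at most (1+ε)√N sets S, each Sidon: a+b=c+d within S forces {a,b}={c,d}. -/
theorem result :
    ¬ (∀ ε : ℝ, 0 < ε → ∃ N₀ : ℕ, ∀ A : Finset ℝ, N₀ ≤ A.card →
      ∃ k : ℕ, (k : ℝ) ≤ (1 + ε) * Real.sqrt (A.card : ℝ) ∧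
        ∃ S : Fin k → Finset ℝ,
          (∀ i, ∀ a ∈ S i, ∀ b ∈ S i, ∀ c ∈ S i, ∀ d ∈ S i,
              a + b = c + d → (a = c ∧ b = d) ∨ (a = d ∧ b = c)) ∧
          ∀ x ∈ A, ∃ i, x ∈ S i) := by
  exact Pool.Agent.helper287_Sidon.disproof_cover

end Pool.Agent.S12300
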