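import Pool.Statements.S12391
import Pool.Agent.H791_Maehara.Main

set_option autoImplicit false
open Pool Pool.MP_f35a22_co

namespace Pool.Agent.S12391

/-- For any set of at least 5 distinct centers in 3-space, if every 4 of the unit spheres around them share a common point, then one point lies on all of these unit spheres. -/
theorem result :
    ∀ S : Set (EuclideanSpace ℝ (Fin 3)),
      5 ≤ S.encard →
      (∀ T : Set (EuclideanSpace ℝ (Fin 3)), T ⊆ S → T.encard = 4 →
        ∃ p : EuclideanSpace ℝ (Fin 3), ∀ c ∈ T, p ∈ Metric.sphere c 1) →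
      ∃ p : EuclideanSpace ℝ (Fin 3), ∀ c ∈ S, p ∈ Metric.sphere c 1 := by
  intro S hS h4
  exact Pool.Agent.H791_Maehara.main S hS h4

end Pool.Agent.S12391
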