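-- Proof of frozen statement S12409 (see Pool/Agent/helper87_dom for the main argument).
import Pool.Statements.S12409
import Pool.Agent.helper87_dom.Main

set_option autoImplicit false
open Pool Pool.MP_f4fe70_co

namespace Pool.Agent.S12409

/-- For every t ≥ 1 there is K ≥ 1 such that every finite tournament in which no set of fewer than K vertices dominates all other vertices contains a vertex subset inducing the recursively defined tournament S_t. -/
theorem result :
    ∀ t : ℕ, 1 ≤ t → ∃ K : ℕ, 1 ≤ K ∧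
      ∀ n : ℕ, ∀ adj : Fin n → Fin n → Prop,
        (∀ u, ¬ adj u u) →
        (∀ u v, u ≠ v → (adj u v ↔ ¬ adj v u)) →
        (∀ D : Finset (Fin n), D.card < K → ∃ v, v ∉ D ∧ ∀ d ∈ D, ¬ adj d v) →
        ∃ X : Finset (Fin n),
          Nat.rec (motive := fun _ => Finset (Fin n) → Prop)
            (fun Y => Y.card = 1)
            (fun _ Q Y => ∃ A B : Finset (Fin n), ∃ c : Fin n,
              Disjoint A B ∧ c ∉ A ∧ c ∉ B ∧ Y = insert c (A ∪ B) ∧
              Q A ∧ Q B ∧
              (∀ a ∈ A, ∀ b ∈ B, adj a b) ∧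
              (∀ b ∈ B, adj b c) ∧
              (∀ a ∈ A, adj c a))
            (t - 1) X := by
  intro t _
  obtain ⟨K, b, hKb⟩ := helper87_dom.main_aux _ Unit (fun _ => t - 1) rfl
  refine ⟨K + 1, Nat.succ_le_succ (Nat.zero_le _), ?_⟩
  intro n adj hirr htour hdom
  obtain ⟨B, -, hB⟩ := hKb (Fin n) adj ⟨hirr, htour⟩ (fun D hD => hdom D (Nat.lt_succ_of_lt hD))
  obtain ⟨i, hi⟩ := hB (fun _ => ())
  have key : ∀ m : ℕ, ∀ Y : Finset (Fin n), helper87_dom.Cont adj m Y → ∃ X : Finset (Fin n), X ⊆ Y ∧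
      Nat.rec (motive := fun _ => Finset (Fin n) → Prop)
            (fun Y => Y.card = 1)
            (fun _ Q Y => ∃ A B : Finset (Fin n), ∃ c : Fin n,
              Disjoint A B ∧ c ∉ A ∧ c ∉ B ∧ Y = insert c (A ∪ B) ∧
              Q A ∧ Q B ∧
              (∀ a ∈ A, ∀ b ∈ B, adj a b) ∧
              (∀ b ∈ B, adj b c) ∧
              (∀ a ∈ A, adj c a))
            m X := by
    intro m
    induction m with
    | zero =>
      intro Y hY
      obtain ⟨y, hy⟩ := hY
      exact ⟨{y}, Finset.singleton_subset_iff.2 hy, Finset.card_singleton y⟩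
    | succ m ih =>
      intro Y hY
      obtain ⟨P, hP, Q, hQ, c, hc, h1, h2, h3, h4, h5⟩ := hY
      obtain ⟨P', hP', hP''⟩ := ih P h1
      obtain ⟨Q', hQ', hQ''⟩ := ih Q h2
      refine ⟨insert c (P' ∪ Q'), ?_, P', Q', c, ?_, ?_, ?_, rfl, hP'', hQ'', ?_, ?_, ?_⟩
      · apply Finset.insert_subset hc
        exact Finset.union_subset (hP'.trans hP) (hQ'.trans hQ)
      · rw [Finset.disjoint_left]
        intro a ha hb
        exact hirr a (h3 a (hP' ha) a (hQ' hb))
      · intro hc'
        exact hirr c (h5 c (hP' hc'))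
      · intro hc'
        exact hirr c (h4 c (hQ' hc'))
      · exact fun a ha b hb => h3 a (hP' ha) b (hQ' hb)
      · exact fun b hb => h4 b (hQ' hb)
      · exact fun a ha => h5 a (hP' ha)
  obtain ⟨X, -, hX⟩ := key (t - 1) _ hi
  exact ⟨X, hX⟩

end Pool.Agent.S12409
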