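import Pool.Statements.S12661
import Pool.Agent.H741UR.Main

set_option autoImplicit false
open Pointwise MeasureTheory
open Pool Pool.MP_0078d6_gt

namespace Pool.Agent.S12661

/-- For every convex body K in R^n, every n-simplex Δ of the same volume and every t in [0,1], vol((1-t)K - tK)/vol(K) is at most vol((1-t)Δ - tΔ)/vol(Δ). -/
theorem result :
  ∀ (n : ℕ) (K : Set (EuclideanSpace ℝ (Fin n))),
    IsCompact K → Convex ℝ K → (interior K).Nonempty →
    ∀ (v : Fin (n + 1) → EuclideanSpace ℝ (Fin n)), AffineIndependent ℝ v →
      volume (convexHull ℝ (Set.range v)) = volume K →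
      ∀ t : ℝ, 0 ≤ t → t ≤ 1 →
        volume ((1 - t) • K - t • K) / volume K ≤
          volume ((1 - t) • convexHull ℝ (Set.range v) - t • convexHull ℝ (Set.range v))
            / volume (convexHull ℝ (Set.range v)) := by
  exact fun n K hK hc hi v hv hvol t h0 h1 => Pool.Agent.H741UR.main n K hK hc hi v hv hvol t h0 h1

end Pool.Agent.S12661
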