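import Pool.Statements.S12721
import Pool.Agent.Helper772_Sph.GMake
import Pool.Agent.Helper772_Sph.GCurveEnd

set_option autoImplicit false
open Pool Pool.MP_09b571_gt

namespace Pool.Agent.S12721

/-- For every smooth immersed hypersurface patch in the unit sphere S^{m+1} whose mean curvature H satisfies the biharmonic equations (Laplacian and tangential parts), H is constant on the connected patch. -/
theorem result :
    ∀ (m : ℕ) (U : Set (Fin m → ℝ)) (f N : (Fin m → ℝ) → EuclideanSpace ℝ (Fin (m + 2))),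
      IsOpen U → IsConnected U →
      ContDiffOn ℝ ((⊤ : ℕ∞) : WithTop ℕ∞) f U → ContDiffOn ℝ ((⊤ : ℕ∞) : WithTop ℕ∞) N U →
      (∀ x ∈ U, ‖f x‖ = 1 ∧ ‖N x‖ = 1 ∧ inner ℝ (N x) (f x) = 0 ∧
        (∀ i : Fin m, inner ℝ (N x) (fderiv ℝ f x (Pi.single i (1 : ℝ))) = 0) ∧
        LinearIndependent ℝ (fun i : Fin m => fderiv ℝ f x (Pi.single i (1 : ℝ)))) →
      ∀ (g S : (Fin m → ℝ) → Matrix (Fin m) (Fin m) ℝ) (H : (Fin m → ℝ) → ℝ),
      (∀ x, g x = Matrix.of (fun i j : Fin m =>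
          inner ℝ (fderiv ℝ f x (Pi.single i (1 : ℝ))) (fderiv ℝ f x (Pi.single j (1 : ℝ))))) →
      (∀ x, S x = (g x)⁻¹ * Matrix.of (fun i j : Fin m =>
          inner ℝ (fderiv ℝ (fun y => fderiv ℝ f y (Pi.single i (1 : ℝ))) x (Pi.single j (1 : ℝ))) (N x))) →
      (∀ x, H x = Matrix.trace (S x) / (m : ℝ)) →
      (∀ x ∈ U,
        (1 / Real.sqrt (g x).det) *
            ∑ i : Fin m, fderiv ℝ (fun y => Real.sqrt (g y).det *
              ∑ j : Fin m, (g y)⁻¹ i j * fderiv ℝ H y (Pi.single j (1 : ℝ))) x (Pi.single i (1 : ℝ))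
          + ((m : ℝ) - Matrix.trace (S x * S x)) * H x = 0) →
      (∀ x ∈ U,
        (2 : ℝ) • (S x).mulVec ((g x)⁻¹.mulVec (fun j : Fin m => fderiv ℝ H x (Pi.single j (1 : ℝ))))
          + ((m : ℝ) * H x) • (g x)⁻¹.mulVec (fun j : Fin m => fderiv ℝ H x (Pi.single j (1 : ℝ)))
          = 0) →
      ∃ c : ℝ, ∀ x ∈ U, H x = c := by
  intro m U f N hU hc sf sN hgeo g S H hg hS hH hΔ htan
  rcases Nat.eq_zero_or_pos m with hm | hm
  · subst hm
    exact ⟨H 0, fun x _ => congrArg H (Subsingleton.elim x 0)⟩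
  · obtain ⟨B, hBU, hBH⟩ := Helper772Sph.exists_SB m U f N hm hU sf sN hgeo g S H hg hS hH hΔ htan
    subst hBU hBH
    have key : ∀ x ∈ B.U, fderiv ℝ B.H x = 0 := by
      intro x hx
      by_contra hne
      obtain ⟨C, hC⟩ := B.exists_core hm hx hne
      exact C.false_of_nonempty hC
    obtain ⟨c, hc'⟩ := hU.exists_is_const_of_fderiv_eq_zero hc.isPreconnected
      (fun x hx => (Helper772Chen.diffAt hU B.sH hx).differentiableWithinAt) key
    exact ⟨c, hc'⟩

end Pool.Agent.S12721
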