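import Pool.Statements.S12905
import Pool.Agent.H782_Illum.Count

set_option autoImplicit false
open Pool Pool.MP_26bcd4_gt

namespace Pool.Agent.S12905

open Pool.Agent.H782_Illum

/-- If the midpoint of two points of a convex body is not interior, some nonconstant functional is
maximal over the body at both points, and strictly smaller in the interior. -/
theorem exists_support {K : Set (EuclideanSpace ℝ (Fin 3))} (hK : IsCompact K)
    (hc : Convex ℝ K) (hne : (interior K).Nonempty) {x a : EuclideanSpace ℝ (Fin 3)}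
    (hx : x ∈ K) (ha : a ∈ K)
    (hm : ((1 : ℝ) - 1 / 2) • x + (1 / 2 : ℝ) • a ∉ interior K) :
    ∃ (f : EuclideanSpace ℝ (Fin 3) →ₗ[ℝ] ℝ) (c : ℝ), f x = c ∧ f a = c ∧
      (∀ y ∈ K, f y ≤ c) ∧ (∀ y ∈ interior K, f y < c) := by
  obtain ⟨f, hf⟩ := geometric_hahn_banach_open_point hc.interior isOpen_interior hm
  set m := ((1 : ℝ) - 1 / 2) • x + (1 / 2 : ℝ) • a with hmdef
  have hle : ∀ y ∈ K, f y ≤ f m := by
    intro y hy
    have h1 : y ∈ closure (interior K) := by
      rw [hc.closure_interior_eq_closure_of_nonempty_interior hne]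
      exact subset_closure hy
    have h2 : closure (interior K) ⊆ {z | f z ≤ f m} :=
      closure_minimal (fun z hz => (hf z hz).le)
        (isClosed_le f.continuous continuous_const)
    exact h2 h1
  have hfm : f m = (1 / 2) * f x + (1 / 2) * f a := by
    rw [hmdef, map_add, map_smul, map_smul, smul_eq_mul, smul_eq_mul]
    norm_num
  have h1 := hle x hx
  have h2 := hle a ha
  refine ⟨f.toLinearMap, f m, ?_, ?_, hle, hf⟩
  · change f x = f m
    linarith
  · change f a = f m
    linarith

/-- There is a natural number N such that for every compact convex set with nonempty interior in 3-space, every primitive inner illuminating set of it (a boundary subset illuminating from inside, no proper subset of which does) has at most N elements. -/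
theorem result :
    ∃ N : ℕ, ∀ K : Set (EuclideanSpace ℝ (Fin 3)),
      IsCompact K → Convex ℝ K → (interior K).Nonempty →
      ∀ A : Set (EuclideanSpace ℝ (Fin 3)),
        (A ⊆ frontier K ∧
          ∀ x ∈ frontier K, ∃ a ∈ A, ∃ ε : ℝ, 0 < ε ∧ ε < 1 ∧
            (1 - ε) • x + ε • a ∈ interior K) →
        (∀ B : Set (EuclideanSpace ℝ (Fin 3)), B ⊆ A → B ≠ A →
          ¬ (B ⊆ frontier K ∧
            ∀ x ∈ frontier K, ∃ b ∈ B, ∃ ε : ℝ, 0 < ε ∧ ε < 1 ∧
              (1 - ε) • x + ε • b ∈ interior K)) →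
        A.encard ≤ (N : ℕ∞) := by
  refine ⟨2 ^ 25, ?_⟩
  intro K hK hc hne A hA hprim
  by_contra hcard
  rw [not_le] at hcard
  obtain ⟨t, htA, ht⟩ := Set.exists_subset_encard_eq hcard.le
  have htfin : t.Finite := Set.finite_of_encard_eq_coe ht
  have := htfin.fintype
  -- private points
  have hpriv : ∀ a : t, ∃ x ∈ frontier K,
      (∃ ε : ℝ, 0 < ε ∧ ε < 1 ∧ (1 - ε) • x + ε • (a : EuclideanSpace ℝ (Fin 3)) ∈ interior K) ∧
      ∀ b ∈ A, b ≠ a → ∀ ε : ℝ, 0 < ε → ε < 1 → (1 - ε) • x + ε • b ∉ interior K := by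
    intro a
    have haA : (a : EuclideanSpace ℝ (Fin 3)) ∈ A := htA a.2
    have h1 := hprim (A \ {(a : EuclideanSpace ℝ (Fin 3))}) Set.diff_subset (by
      intro h
      have : (a : EuclideanSpace ℝ (Fin 3)) ∈ A \ {(a : EuclideanSpace ℝ (Fin 3))} := by
        rw [h]; exact haA
      exact this.2 rfl)
    rw [not_and] at h1
    have h2 := h1 (Set.diff_subset.trans hA.1)
    push Not at h2
    obtain ⟨x, hx, hx2⟩ := h2
    have h3 : ∀ b ∈ A, b ≠ a → ∀ ε : ℝ, 0 < ε → ε < 1 →
        (1 - ε) • x + ε • b ∉ interior K := by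
      intro b hb hba ε h0 h1
      exact hx2 b ⟨hb, hba⟩ ε h0 h1
    refine ⟨x, hx, ?_, h3⟩
    obtain ⟨b, hb, ε, h0, h1', hin⟩ := hA.2 x hx
    by_cases hba : b = a
    · subst hba
      exact ⟨ε, h0, h1', hin⟩
    · exact absurd hin (h3 b hb hba ε h0 h1')
  choose x hxf hxa hxb using hpriv
  have hsub : frontier K ⊆ K := hK.isClosed.frontier_subset
  have hsupp : ∀ i j : t, ∃ (f : EuclideanSpace ℝ (Fin 3) →ₗ[ℝ] ℝ) (c : ℝ), i ≠ j →
      (f (x i) = c ∧ f (j : EuclideanSpace ℝ (Fin 3)) = c ∧
      (∀ y ∈ K, f y ≤ c) ∧ (∀ y ∈ interior K, f y < c)) := by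
    intro i j
    by_cases hij : i = j
    · exact ⟨0, 0, fun h => absurd hij h⟩
    · obtain ⟨f, c, h⟩ := exists_support hK hc hne (hsub (hxf i)) (hsub (hA.1 (htA j.2)))
        (hxb i j (htA j.2) (fun h => hij (Subtype.ext h).symm) (1 / 2) (by norm_num)
          (by norm_num))
      exact ⟨f, c, fun _ => h⟩
  choose f c hfc using hsupp
  let C : Config (EuclideanSpace ℝ (Fin 3)) t :=
    { x := x
      a := fun j => (j : EuclideanSpace ℝ (Fin 3))
      f := f
      c := c
      hx := fun i j h => (hfc i j h).1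
      ha := fun i j h => (hfc i j h).2.1
      lx := fun i j h k => (hfc i j h).2.2.1 _ (hsub (hxf k))
      la := fun i j h k => (hfc i j h).2.2.1 _ (hsub (hA.1 (htA k.2)))
      nb := by
        intro i j h k hk
        obtain ⟨ε, h0, h1, hin⟩ := hxa k
        have h2 := (hfc i j h).2.2.2 _ hin
        rw [map_add, map_smul, map_smul, smul_eq_mul, smul_eq_mul, hk.1, hk.2] at h2
        nlinarith }
  have hlt := C.card_lt (by simp)
  have hcard2 : Fintype.card t = 2 ^ 25 := by
    have h1 : t.encard = (Fintype.card t : ℕ∞) := by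
      rw [← Set.toFinset_card, Set.encard_eq_coe_toFinset_card]
    rw [h1] at ht
    exact_mod_cast ht
  omega

end Pool.Agent.S12905
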