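import Pool.Statements.S12988
-- import your own Pool.Agent.* helpers here
import Pool.Agent.H405.Fin0
import Pool.Agent.H405.Asm7
import Pool.Agent.H405.Asm74
import Pool.Agent.H405.T11
import Pool.Agent.H405.T12
import Pool.Agent.H405.T13
import Pool.Agent.H405.T15
import Pool.Agent.H405.T15b
import Pool.Agent.H405.T16
import Pool.Agent.H405.T17
import Pool.Agent.H405.T21b
import Pool.Agent.H405.T22
import Pool.Agent.H405.T23
import Pool.Agent.H405.T24
import Pool.Agent.H405.T25
import Pool.Agent.H405.T26
import Pool.Agent.H405.T27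
import Pool.Agent.H405.T31
import Pool.Agent.H405.T32
import Pool.Agent.H405.T33
import Pool.Agent.H405.T34
import Pool.Agent.H405.T35
import Pool.Agent.H405.T41
import Pool.Agent.H405.T42
import Pool.Agent.H405.T43
import Pool.Agent.H405.T50
import Pool.Agent.H405.T51
import Pool.Agent.H405.T52
import Pool.Agent.H405.T53
import Pool.Agent.H405.T54
import Pool.Agent.H405.T54b
import Pool.Agent.H405.T55
import Pool.Agent.H405.T56
import Pool.Agent.H405.T57
import Pool.Agent.H405.T58
import Pool.Agent.H405.T59
import Pool.Agent.H405.T510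
import Pool.Agent.H405.T61
import Pool.Agent.H405.T62
import Pool.Agent.H405.T63
import Pool.Agent.H405.T64
import Pool.Agent.H405.T65
import Pool.Agent.H405.T71
import Pool.Agent.H405.T72
import Pool.Agent.H405.T73

set_option autoImplicit false
open Pool Pool.MP_32448b_gt

namespace Pool.Agent.S12988

/-- The negation of the preceding statement: There is a metric continuum Y and integers k, m > 1 such that Y is the image of some dendrite under a continuous map all of whose fibers have exactly k points, but of no dendrite under such a map with all fibers of exactly m points. -/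
theorem result :
    ¬ (∃ (Y : Type) (_ : MetricSpace Y) (_ : CompactSpace Y) (_ : ConnectedSpace Y) (k m : ℕ),
      1 < k ∧ 1 < m ∧
      (∃ (X : Type) (_ : MetricSpace X) (_ : CompactSpace X) (_ : ConnectedSpace X)
          (_ : LocallyConnectedSpace X),
          (∀ g : Circle → X, Continuous g → ¬ Function.Injective g) ∧
          ∃ f : X → Y, Continuous f ∧ ∀ y : Y, Set.ncard (f ⁻¹' {y}) = k) ∧
      ¬ (∃ (X : Type) (_ : MetricSpace X) (_ : CompactSpace X) (_ : ConnectedSpace X)
          (_ : LocallyConnectedSpace X),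
          (∀ g : Circle → X, Continuous g → ¬ Function.Injective g) ∧
          ∃ f : X → Y, Continuous f ∧ ∀ y : Y, Set.ncard (f ⁻¹' {y}) = m)) := by
  have h11 := Pool.Agent.H405.t11
  have h12 := Pool.Agent.H405.t12
  have h13 := Pool.Agent.H405.t13
  have h14 := Pool.Agent.H405.t14
  have h15 := Pool.Agent.H405.t15 h12
  have h15b := Pool.Agent.H405.t15b
  have h16 := Pool.Agent.H405.t16 h15b
  have h17 := Pool.Agent.H405.t17
  have h21b := Pool.Agent.H405.t21b
  have h22 := Pool.Agent.H405.t22
  have h23 := Pool.Agent.H405.t23 h22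
  have h24 := Pool.Agent.H405.t24
  have h25 := Pool.Agent.H405.t25
  have h26 := Pool.Agent.H405.t26 h22
  have h27 := Pool.Agent.H405.t27 h22
  have h31 := Pool.Agent.H405.t31
  have h32 := Pool.Agent.H405.t32
  have h33 := Pool.Agent.H405.t33
  have h34 := Pool.Agent.H405.t34 h11 h27 h32
  have h35 := Pool.Agent.H405.t35 h11 h27 h32
  have h41 := Pool.Agent.H405.t41 h32
  have h42 := Pool.Agent.H405.t42 h17 h33
  have h43 := Pool.Agent.H405.t43 h16
  have h44 := Pool.Agent.H405.t44 h16
  have h50 := Pool.Agent.H405.t50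
  have h51 := Pool.Agent.H405.t51
  have h52 := Pool.Agent.H405.t52 h12 h13
  have h53 := Pool.Agent.H405.t53 h11 h24 h25 h26
  have h54 := Pool.Agent.H405.t54 h11 h23 h50 h53
  have h54b := Pool.Agent.H405.t54b h11 h12 h21b h50 h53
  have h55 := Pool.Agent.H405.t55 h51 h52 h54
  have h56 := Pool.Agent.H405.t56 h15 h15b h16 h17 h51 h55
  have h57 := Pool.Agent.H405.t57 h11 h12 h14 h51 h52 h54b h56
  have h58 := Pool.Agent.H405.t58 h17 h51
  have h59 := Pool.Agent.H405.t59 h11 h17 h33 h34 h51 h58
  have h510 := Pool.Agent.H405.t510 h51 h57 h59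
  have h61 := Pool.Agent.H405.t61 h41 h43
  have h62 := Pool.Agent.H405.t62 h12 h14
  have h63 := Pool.Agent.H405.t63
  have h64 := Pool.Agent.H405.t64 h41 h42 h43 h62 h63
  have h65 := Pool.Agent.H405.t65 h16 h41 h43 h44 h510 h64
  have h66 := Pool.Agent.H405.t66 h61 h65
  have h71 := Pool.Agent.H405.t71
  have h72 := Pool.Agent.H405.t72
  have h73 := Pool.Agent.H405.t73 h11 h43 h44 h51 h57 h59
  have h74 := Pool.Agent.H405.t74 h41 h43 h57 h59 h66
  have h75 := Pool.Agent.H405.t75 h31 h32 h35 h71 h72 h73 h74
  exact Pool.Agent.H405.fin0 h75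

end Pool.Agent.S12988
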