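import Pool.Statements.S13210
import Pool.Agent.Helper713_proj.Box

set_option autoImplicit false
open MeasureTheory
open scoped Pointwise
open Pool Pool.MP_598757_gt

namespace Pool.Agent.S13210

/-- The negation of the preceding statement: For every convex body K in 3-space and real c: if every orthogonal plane projection has isoperimetric ratio π·area/V₁² at least c, then 9π·vol(K)²/(2·V₂(K)³) is at least c (V₁, V₂ given via Steiner-formula limits). -/
theorem result :
    ¬ (∀ (K : Set (EuclideanSpace ℝ (Fin 3))) (c : ℝ),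
    IsCompact K → Convex ℝ K → (interior K).Nonempty →
    (∀ u ∈ Metric.sphere (0 : EuclideanSpace ℝ (Fin 3)) 1, ∀ L : ℝ,
      Filter.Tendsto (fun t : ℝ =>
        ((volume ((fun x : EuclideanSpace ℝ (Fin 3) => x - (inner ℝ u x) • u) '' K
              + Metric.closedBall (0 : EuclideanSpace ℝ (Fin 3)) t)).toReal
          - 2 * t * ((volume (K + segment ℝ (0 : EuclideanSpace ℝ (Fin 3)) u)).toReal
              - (volume K).toReal)) / (Real.pi * t ^ 2))
        (nhdsWithin 0 (Set.Ioi 0)) (nhds L) →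
      c ≤ Real.pi * ((volume (K + segment ℝ (0 : EuclideanSpace ℝ (Fin 3)) u)).toReal
              - (volume K).toReal) / L ^ 2) →
    ∀ S : ℝ,
      Filter.Tendsto (fun t : ℝ =>
        ((volume (K + Metric.closedBall (0 : EuclideanSpace ℝ (Fin 3)) t)).toReal
          - (volume K).toReal) / (2 * t))
        (nhdsWithin 0 (Set.Ioi 0)) (nhds S) →
      c ≤ 9 * Real.pi * (volume K).toReal ^ 2 / (2 * S ^ 3)) := by
  intro h
  have hpi := Real.pi_pos
  -- the flat box
  have hε : (0 : ℝ) < 1 / 1000 := by norm_num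
  have hK := Pool.Agent.Helper713_proj.Bx_compact 1 1 (1 / 1000)
  have hc := Pool.Agent.Helper713_proj.Bx_convex 1 1 (1 / 1000)
  have hball : Metric.closedBall (0 : EuclideanSpace ℝ (Fin 3)) (1 / 1000) ⊆
      Pool.Agent.Helper713_proj.Bx 1 1 (1 / 1000) :=
    Pool.Agent.Helper713_proj.ball_sub_Bx (by norm_num) (by norm_num) (le_refl _)
  have hint : (interior (Pool.Agent.Helper713_proj.Bx 1 1 (1 / 1000))).Nonempty := by
    refine ⟨0, interior_mono hball ?_⟩
    exact mem_interior_iff_mem_nhds.2 (Metric.closedBall_mem_nhds _ hε)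
  have hR : ∀ x ∈ Pool.Agent.Helper713_proj.Bx 1 1 (1 / 1000), ‖x‖ ≤ 3 / 2 := by
    intro x hx
    have h1 := Pool.Agent.Helper713_proj.Bx_norm hx
    have h2 : ‖x‖ ^ 2 ≤ (3 / 2) ^ 2 := by norm_num at h1 ⊢; linarith
    exact (abs_le_of_sq_le_sq' h2 (by norm_num)).2
  have hV : (volume (Pool.Agent.Helper713_proj.Bx 1 1 (1 / 1000))).toReal = 8 / 1000 := by
    rw [Pool.Agent.Helper713_proj.vol_Bx (by norm_num) (by norm_num) hε.le,
      ENNReal.toReal_ofReal (by norm_num)]
    norm_num
  have hlim := Pool.Agent.Helper713_proj.Bx_lim (a := 1) (b := 1) (c := 1 / 1000)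
    (by norm_num) (by norm_num) hε.le
  have h1 := h (Pool.Agent.Helper713_proj.Bx 1 1 (1 / 1000)) (Real.pi / 64000) hK hc hint ?_
    _ hlim
  · rw [hV] at h1
    have h2 : 9 * Real.pi * (8 / 1000) ^ 2 /
        (2 * (4 * (1 * 1 + 1 * (1 / 1000) + 1 * (1 / 1000))) ^ 3) < Real.pi / 64000 := by
      rw [div_lt_div_iff₀ (by norm_num) (by norm_num)]
      nlinarith
    linarith
  · intro u hu L hL
    have hu1 : ‖u‖ = 1 := by simpa using hu
    obtain ⟨hL0, hL1⟩ := Pool.Agent.Helper713_proj.half_perimeter hK hc hR hε hball hu1 hL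
    have harea := Pool.Agent.Helper713_proj.flat_area hε (by norm_num) hu1
    have hA : 1 / 1000 ≤ (volume (Pool.Agent.Helper713_proj.Bx 1 1 (1 / 1000) +
        segment ℝ (0 : EuclideanSpace ℝ (Fin 3)) u)).toReal -
        (volume (Pool.Agent.Helper713_proj.Bx 1 1 (1 / 1000))).toReal := by
      have hf : volume (Pool.Agent.Helper713_proj.Bx 1 1 (1 / 1000) +
          segment ℝ (0 : EuclideanSpace ℝ (Fin 3)) u) ≠ ⊤ := by
        refine (hK.add ?_).measure_lt_top.ne
        rw [segment_eq_image]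
        apply isCompact_Icc.image
        fun_prop
      have h3 := ENNReal.toReal_mono hf harea
      rw [ENNReal.toReal_add hK.measure_lt_top.ne ENNReal.ofReal_ne_top,
        ENNReal.toReal_ofReal hε.le] at h3
      linarith
    have hL8 : L ≤ 8 := by
      refine hL1.trans ?_
      rw [div_le_iff₀ hpi]
      linarith [Real.pi_gt_three]
    have hL64 : L ^ 2 ≤ 64 := by nlinarith
    have hL2 : 0 < L ^ 2 := by positivity
    rw [le_div_iff₀ hL2]
    have h4 : Real.pi / 64000 * L ^ 2 ≤ Real.pi / 64000 * 64 :=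
      mul_le_mul_of_nonneg_left hL64 (by positivity)
    have h5 : Real.pi * (1 / 1000) ≤ Real.pi *
        ((volume (Pool.Agent.Helper713_proj.Bx 1 1 (1 / 1000) +
        segment ℝ (0 : EuclideanSpace ℝ (Fin 3)) u)).toReal -
        (volume (Pool.Agent.Helper713_proj.Bx 1 1 (1 / 1000))).toReal) :=
      mul_le_mul_of_nonneg_left hA hpi.le
    linarith

end Pool.Agent.S13210
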