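import Pool.Statements.S13589
import Pool.Agent.Helper463_ST.Final

set_option autoImplicit false
open Pool Pool.MP_93ef73_gt

namespace Pool.Agent.S13589

/-- There exist d, a nonempty compact totally disconnected A in R^d with two distinct Steiner trees S, T, no terminal interior to segments in both, and nonempty compact M (∣M∣=∣A∣ if A finite) and r>0 with S an r-minimizer for M. -/
theorem result :
  ∃ (d : ℕ) (A S T M : Set (EuclideanSpace ℝ (Fin d))) (r : ℝ),
    IsCompact A ∧ A.Nonempty ∧ IsTotallyDisconnected A ∧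
    (IsCompact S ∧ IsConnected S ∧ A ⊆ S ∧
      MeasureTheory.Measure.hausdorffMeasure 1 S < ⊤ ∧
      ∀ S' : Set (EuclideanSpace ℝ (Fin d)), IsCompact S' → IsConnected S' → A ⊆ S' →
        MeasureTheory.Measure.hausdorffMeasure 1 S ≤ MeasureTheory.Measure.hausdorffMeasure 1 S') ∧
    (IsCompact T ∧ IsConnected T ∧ A ⊆ T ∧
      MeasureTheory.Measure.hausdorffMeasure 1 T < ⊤ ∧
      ∀ S' : Set (EuclideanSpace ℝ (Fin d)), IsCompact S' → IsConnected S' → A ⊆ S' →
        MeasureTheory.Measure.hausdorffMeasure 1 T ≤ MeasureTheory.Measure.hausdorffMeasure 1 S') ∧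
    S ≠ T ∧
    IsCompact M ∧ M.Nonempty ∧ 0 < r ∧
    (A.Finite → M.Finite ∧ M.ncard = A.ncard) ∧
    (¬ ∃ a ∈ A,
        (∃ x y : EuclideanSpace ℝ (Fin d), x ≠ y ∧ segment ℝ x y ⊆ S ∧ a ∈ openSegment ℝ x y) ∧
        (∃ x y : EuclideanSpace ℝ (Fin d), x ≠ y ∧ segment ℝ x y ⊆ T ∧ a ∈ openSegment ℝ x y)) ∧
    (∀ y ∈ M, Metric.infDist y S ≤ r) ∧
    ∀ W : Set (EuclideanSpace ℝ (Fin d)), IsCompact W → IsConnected W →
      (∀ y ∈ M, Metric.infDist y W ≤ r) →
        MeasureTheory.Measure.hausdorffMeasure 1 S ≤ MeasureTheory.Measure.hausdorffMeasure 1 W := by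
  have hfin : (Set.range Pool.Agent.Helper463_ST.pt).Finite := Set.finite_range _
  have hfinM : (Set.range Pool.Agent.Helper463_ST.yy).Finite := Set.finite_range _
  refine ⟨2, Set.range Pool.Agent.Helper463_ST.pt, Pool.Agent.Helper463_ST.SS,
    Pool.Agent.Helper463_ST.TT, Set.range Pool.Agent.Helper463_ST.yy,
    Pool.Agent.Helper463_ST.rr, hfin.isCompact, Set.range_nonempty _,
    hfin.countable.isTotallyDisconnected,
    ⟨Pool.Agent.Helper463_ST.SS_compact, Pool.Agent.Helper463_ST.SS_conn, ?_,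
      lt_of_le_of_lt Pool.Agent.Helper463_ST.SS_len ENNReal.ofReal_lt_top, ?_⟩,
    ⟨Pool.Agent.Helper463_ST.TT_compact, Pool.Agent.Helper463_ST.TT_conn, ?_,
      lt_of_le_of_lt Pool.Agent.Helper463_ST.TT_len ENNReal.ofReal_lt_top, ?_⟩,
    Pool.Agent.Helper463_ST.SS_ne_TT, hfinM.isCompact, Set.range_nonempty _,
    Pool.Agent.Helper463_ST.rr_pos, ?_, ?_, ?_, ?_⟩
  · rintro _ ⟨i, rfl⟩
    exact Pool.Agent.Helper463_ST.pt_SS i
  · intro S' h1 h2 h3
    exact Pool.Agent.Helper463_ST.SS_len.trans (Pool.Agent.Helper463_ST.lower_pt S' h1 h2 h3)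
  · rintro _ ⟨i, rfl⟩
    exact Pool.Agent.Helper463_ST.pt_TT i
  · intro S' h1 h2 h3
    exact Pool.Agent.Helper463_ST.TT_len.trans (Pool.Agent.Helper463_ST.lower_pt S' h1 h2 h3)
  · intro _
    refine ⟨hfinM, ?_⟩
    rw [← Nat.card_coe_set_eq, ← Nat.card_coe_set_eq,
      Nat.card_range_of_injective Pool.Agent.Helper463_ST.pt_inj,
      Nat.card_range_of_injective Pool.Agent.Helper463_ST.yy_inj]
  · rintro ⟨a, ha, -, x, y, hxy, hT, h⟩
    exact Pool.Agent.Helper463_ST.noseg a ha x y hxy hT h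
  · rintro _ ⟨i, rfl⟩
    exact Pool.Agent.Helper463_ST.near_of (Pool.Agent.Helper463_ST.pt_SS i)
      (Pool.Agent.Helper463_ST.dist_yy i)
  · intro W h1 h2 h3
    exact Pool.Agent.Helper463_ST.SS_len.trans (Pool.Agent.Helper463_ST.lower_yy W h1 h2 h3)

end Pool.Agent.S13589
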