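import Pool.Statements.S13596

set_option autoImplicit false
open Pool Pool.MP_94b191_gt

namespace Pool.Agent.S13596

open Set Filter Topology

/-! The example: the harmonic fan with top `(2, 0)` and legs `y = 4 ^ (-k) (1 - x / 2)`, together
with arcs joining the middle point of the `k`-th leg to the end point of the next leg. -/

/-- the underlying planar set -/
def S : Set (ℝ × ℝ) := {p | 0 ≤ p.1 ∧ p.1 ≤ 2 ∧
  (p.2 = 0 ∨ (∃ k : ℕ, p.2 = (1 / 4 : ℝ) ^ k * (1 - p.1 / 2)) ∨
    (∃ k : ℕ, p.1 ≤ 1 ∧ p.2 = (1 / 4 : ℝ) ^ k * ((1 + p.1) / 4)))}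

/-- the compact set of scales -/
def K : Set ℝ := insert 0 (range (fun k : ℕ => (1 / 4 : ℝ) ^ k))

lemma isCompact_K : IsCompact K := by
  have h : Tendsto (fun k : ℕ => (1 / 4 : ℝ) ^ k) atTop (𝓝 0) :=
    tendsto_pow_atTop_nhds_zero_of_lt_one (by norm_num) (by norm_num)
  exact h.isCompact_insert_range

lemma K_le {κ : ℝ} (h : κ ∈ K) : 0 ≤ κ ∧ κ ≤ 1 := by
  rcases h with h | ⟨k, rfl⟩
  · subst h; norm_num
  · exact ⟨by positivity, pow_le_one₀ (by norm_num) (by norm_num)⟩

lemma S_eq : S = (fun q : ℝ × ℝ => (q.2, q.1 * (1 - q.2 / 2))) '' (K ×ˢ Icc 0 2) ∪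
    (fun q : ℝ × ℝ => (q.2, q.1 * ((1 + q.2) / 4))) '' (K ×ˢ Icc 0 1) := by
  ext ⟨x, y⟩
  simp only [S, mem_ofPred_eq, mem_union, mem_image, mem_prod, mem_Icc, Prod.mk.injEq, Prod.exists]
  constructor
  · rintro ⟨h0, h2, h | ⟨k, h⟩ | ⟨k, h1, h⟩⟩
    · exact Or.inl ⟨0, x, ⟨mem_insert _ _, h0, h2⟩, rfl, by simp [h]⟩
    · exact Or.inl ⟨_, x, ⟨mem_insert_of_mem _ ⟨k, rfl⟩, h0, h2⟩, rfl, h.symm⟩
    · exact Or.inr ⟨_, x, ⟨mem_insert_of_mem _ ⟨k, rfl⟩, h0, h1⟩, rfl, h.symm⟩
  · rintro (⟨κ, x', ⟨hκ, h0, h2⟩, rfl, rfl⟩ | ⟨κ, x', ⟨hκ, h0, h1⟩, rfl, rfl⟩)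
    · refine ⟨h0, h2, ?_⟩
      rcases hκ with h | ⟨k, rfl⟩
      · left; simp [h]
      · right; left; exact ⟨k, rfl⟩
    · refine ⟨h0, by linarith, ?_⟩
      rcases hκ with h | ⟨k, rfl⟩
      · left; simp [h]
      · right; right; exact ⟨k, h1, rfl⟩

lemma isCompact_S : IsCompact S := by
  rw [S_eq]
  refine ((isCompact_K.prod isCompact_Icc).image (by fun_prop)).union
    ((isCompact_K.prod isCompact_Icc).image (by fun_prop))

/-- the profile of the paths towards the top -/
noncomputable def g (b : Bool) (x : ℝ) : ℝ := if b then 1 - x / 2 else min (1 - x / 2) ((1 + x) / 4)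

lemma g_lip (b : Bool) (x x' : ℝ) : |g b x - g b x'| ≤ |x - x'| := by
  unfold g
  cases b
  · simp only [Bool.false_eq_true, if_false]
    refine (abs_min_sub_min_le_max _ _ _ _).trans (max_le ?_ ?_)
    · rw [show (1 - x / 2 - (1 - x' / 2)) = -(1/2) * (x - x') by ring, abs_mul]
      have := abs_nonneg (x - x')
      norm_num
      linarith
    · rw [show ((1 + x) / 4 - (1 + x') / 4) = (1/4) * (x - x') by ring, abs_mul]
      have := abs_nonneg (x - x')
      norm_num
      linarith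
  · simp only [if_true]
    rw [show (1 - x / 2 - (1 - x' / 2)) = -(1/2) * (x - x') by ring, abs_mul]
    have := abs_nonneg (x - x')
    norm_num
    linarith

lemma g_mem (b : Bool) {κ x : ℝ} (hκ : κ ∈ K) (h0 : 0 ≤ x) (h2 : x ≤ 2) : (x, κ * g b x) ∈ S := by
  rw [S_eq]
  cases b
  · by_cases h1 : x ≤ 1
    · right
      refine ⟨(κ, x), ⟨hκ, h0, h1⟩, ?_⟩
      simp only [g, Bool.false_eq_true, if_false, Prod.mk.injEq, true_and]
      rw [min_eq_right (by linarith)]
    · left
      refine ⟨(κ, x), ⟨hκ, h0, h2⟩, ?_⟩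
      simp only [g, Bool.false_eq_true, if_false, Prod.mk.injEq, true_and]
      rw [min_eq_left (by linarith)]
  · left
    refine ⟨(κ, x), ⟨hκ, h0, h2⟩, ?_⟩
    simp [g]

lemma exists_g {p : ℝ × ℝ} (hp : p ∈ S) : ∃ (b : Bool) (κ : ℝ), κ ∈ K ∧ p = (p.1, κ * g b p.1) := by
  rw [S_eq] at hp
  rcases hp with ⟨⟨κ, x⟩, ⟨hκ, h0, h2⟩, rfl⟩ | ⟨⟨κ, x⟩, ⟨hκ, h0, h1⟩, rfl⟩
  · exact ⟨true, κ, hκ, by simp [g]⟩
  · refine ⟨false, κ, hκ, ?_⟩
    simp only [mem_Icc] at h0 h1
    simp only [g, Bool.false_eq_true, if_false]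
    rw [min_eq_right (by linarith)]

lemma c_mem : ((2 : ℝ), (0 : ℝ)) ∈ S := by
  refine ⟨by norm_num, le_refl _, Or.inl rfl⟩

lemma a_mem : ((0 : ℝ), (1 : ℝ)) ∈ S := by
  refine ⟨le_refl _, by norm_num, Or.inr (Or.inl ⟨0, by norm_num⟩)⟩

/-- the top -/
def c : S := ⟨(2, 0), c_mem⟩

/-- the end point of the first leg -/
def a : S := ⟨(0, 1), a_mem⟩

lemma exists_lip_path (p : S) : ∃ q : Path c p, ∀ s t : unitInterval,
    dist (q s) (q t) ≤ 2 * |(s : ℝ) - t| := by
  obtain ⟨b, κ, hκ, hp⟩ := exists_g p.2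
  have hx0 : 0 ≤ p.1.1 := p.2.1
  have hx2 : p.1.1 ≤ 2 := p.2.2.1
  set x := p.1.1 with hx
  have hK := K_le hκ
  let X : unitInterval → ℝ := fun s => 2 - (2 - x) * s
  have hX : ∀ s, 0 ≤ X s ∧ X s ≤ 2 := by
    intro s
    have h1 := s.2.1
    have h2 := s.2.2
    constructor <;> simp only [X] <;> nlinarith
  have hlip : ∀ s t : unitInterval, |X s - X t| ≤ 2 * |(s : ℝ) - t| := by
    intro s t
    have : X s - X t = -(2 - x) * ((s : ℝ) - t) := by simp only [X]; ring
    rw [this, abs_mul, abs_neg, abs_of_nonneg (by linarith)]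
    exact mul_le_mul_of_nonneg_right (by linarith) (abs_nonneg _)
  have hXc : Continuous X := by
    simp only [X]; fun_prop
  have hgc : Continuous (g b) := by
    unfold g
    cases b
    · simp only [Bool.false_eq_true, if_false]; fun_prop
    · simp only [if_true]; fun_prop
  let F : unitInterval → S := fun s => ⟨(X s, κ * g b (X s)), g_mem b hκ (hX s).1 (hX s).2⟩
  have hF : Continuous F := by
    refine Continuous.subtype_mk ?_ _
    exact hXc.prodMk (continuous_const.mul (hgc.comp hXc))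
  refine ⟨⟨⟨F, hF⟩, ?_, ?_⟩, ?_⟩
  · apply Subtype.ext
    simp only [F, X, c]
    have : g b 2 = 0 := by
      cases b <;> (simp [g]; try norm_num)
    simp [this]
  · apply Subtype.ext
    rw [hp]
    simp only [F, X]
    simp
  · intro s t
    show dist (F s) (F t) ≤ _
    rw [Subtype.dist_eq]
    simp only [F]
    rw [Prod.dist_eq]
    refine max_le ?_ ?_
    · rw [Real.dist_eq]
      exact hlip s t
    · rw [Real.dist_eq, ← mul_sub, abs_mul, abs_of_nonneg hK.1]
      calc κ * |g b (X s) - g b (X t)| ≤ 1 * |g b (X s) - g b (X t)| :=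
            mul_le_mul_of_nonneg_right hK.2 (abs_nonneg _)
        _ ≤ |X s - X t| := by rw [one_mul]; exact g_lip _ _ _
        _ ≤ _ := hlip s t

section Lip

variable {X : Type} [MetricSpace X]

lemma lip_symm {x y : X} {p : Path x y} {L : ℝ}
    (hp : ∀ s t : unitInterval, dist (p s) (p t) ≤ L * |(s : ℝ) - t|) :
    ∀ s t : unitInterval, dist (p.symm s) (p.symm t) ≤ L * |(s : ℝ) - t| := by
  intro s t
  have := hp (unitInterval.symm s) (unitInterval.symm t)
  simp only [unitInterval.coe_symm_eq] at this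
  rw [Path.symm_apply, Path.symm_apply]
  refine this.trans (le_of_eq ?_)
  congr 1
  rw [show (1 - (s : ℝ) - (1 - t)) = -((s : ℝ) - t) by ring, abs_neg]

lemma lip_trans {x y z : X} {p : Path x y} {q : Path y z} {L : ℝ}
    (hp : ∀ s t : unitInterval, dist (p s) (p t) ≤ L * |(s : ℝ) - t|)
    (hq : ∀ s t : unitInterval, dist (q s) (q t) ≤ L * |(s : ℝ) - t|) :
    ∀ s t : unitInterval, dist ((p.trans q) s) ((p.trans q) t) ≤ 2 * L * |(s : ℝ) - t| := by
  have key : ∀ s t : unitInterval, (s : ℝ) ≤ t →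
      dist ((p.trans q) s) ((p.trans q) t) ≤ 2 * L * |(s : ℝ) - t| := by
    intro s t hst
    rw [Path.trans_apply, Path.trans_apply]
    by_cases h1 : (s : ℝ) ≤ 1 / 2
    · by_cases h2 : (t : ℝ) ≤ 1 / 2
      · rw [dif_pos h1, dif_pos h2]
        refine (hp _ _).trans (le_of_eq ?_)
        show L * |2 * (s : ℝ) - 2 * t| = _
        rw [← mul_sub, abs_mul, abs_of_pos (by norm_num : (0 : ℝ) < 2)]
        ring
      · rw [dif_pos h1, dif_neg h2]
        have e1 := hp ⟨2 * s, (unitInterval.mul_pos_mem_iff zero_lt_two).2 ⟨s.2.1, h1⟩⟩ 1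
        have e2 := hq 0 ⟨2 * t - 1, unitInterval.two_mul_sub_one_mem_iff.2 ⟨(not_le.1 h2).le, t.2.2⟩⟩
        rw [p.target] at e1
        rw [q.source] at e2
        simp only [Set.Icc.coe_one, Set.Icc.coe_zero] at e1 e2
        rw [abs_of_nonpos (by linarith)] at e1
        rw [abs_of_nonpos (by push Not at h2; linarith)] at e2
        refine (dist_triangle _ y _).trans ?_
        rw [abs_of_nonpos (by linarith)]
        linarith
    · have h2 : ¬ (t : ℝ) ≤ 1 / 2 := fun h => h1 (hst.trans h)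
      rw [dif_neg h1, dif_neg h2]
      refine (hq _ _).trans (le_of_eq ?_)
      show L * |2 * (s : ℝ) - 1 - (2 * t - 1)| = _
      rw [show (2 * (s : ℝ) - 1 - (2 * t - 1)) = 2 * (s - t) by ring, abs_mul,
        abs_of_pos (by norm_num : (0 : ℝ) < 2)]
      ring
  intro s t
  rcases le_total (s : ℝ) t with h | h
  · exact key s t h
  · rw [dist_comm, abs_sub_comm]
    exact key t s h

lemma uniform_of_lip {x y : X} {P : Set (Path x y)} {L : ℝ} (hL : 0 ≤ L)
    (hP : ∀ p ∈ P, ∀ s t : unitInterval, dist (p s) (p t) ≤ L * |(s : ℝ) - t|) :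
    ∀ ε : ℝ, ε > 0 → ∃ n : ℕ, ∀ p ∈ P, ∃ t : Fin (n + 1) → unitInterval,
      t 0 = 0 ∧ t (Fin.last n) = 1 ∧ StrictMono t ∧
      ∀ i : Fin n, Metric.diam (⇑p '' Set.Icc (t i.castSucc) (t i.succ)) ≤ ε := by
  intro ε hε
  obtain ⟨n, hn⟩ := exists_nat_gt (L / ε)
  have hn0 : (0 : ℝ) < n := lt_of_le_of_lt (by positivity) hn
  have hLn : L / n ≤ ε := by
    rw [div_le_iff₀ hn0]
    rw [div_lt_iff₀ hε] at hn
    linarith
  refine ⟨n, fun p hp => ⟨fun i => ⟨(i : ℝ) / n, by positivity, ?_⟩, ?_, ?_, ?_, ?_⟩⟩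
  · rw [div_le_one hn0]
    exact_mod_cast Nat.lt_succ_iff.1 i.2
  · apply Subtype.ext; simp
  · apply Subtype.ext
    simp only [Fin.val_last]
    exact div_self hn0.ne'
  · intro i j hij
    show (i : ℝ) / n < (j : ℝ) / n
    exact div_lt_div_of_pos_right (by exact_mod_cast hij) hn0
  · intro i
    refine Metric.diam_le_of_forall_dist_le hε.le ?_
    rintro _ ⟨s, hs, rfl⟩ _ ⟨t, ht, rfl⟩
    refine (hP p hp s t).trans ?_
    have hs1 : (i : ℝ) / n ≤ s := hs.1
    have hs2 : (s : ℝ) ≤ ((i : ℕ) + 1 : ℝ) / n := by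
      have : (s : ℝ) ≤ ((i.succ : Fin (n + 1)) : ℝ) / n := hs.2
      simpa using this
    have ht1 : (i : ℝ) / n ≤ t := ht.1
    have ht2 : (t : ℝ) ≤ ((i : ℕ) + 1 : ℝ) / n := by
      have : (t : ℝ) ≤ ((i.succ : Fin (n + 1)) : ℝ) / n := ht.2
      simpa using this
    have hd : ((i : ℕ) + 1 : ℝ) / n = (i : ℝ) / n + 1 / n := by rw [add_div]
    have hab : |(s : ℝ) - t| ≤ 1 / n := by
      rw [abs_le]; constructor <;> linarith
    calc L * |(s : ℝ) - t| ≤ L * (1 / n) := mul_le_mul_of_nonneg_left hab hL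
      _ = L / n := by ring
      _ ≤ ε := hLn

end Lip

/-- The example is uniformly pathwise connected. -/
lemma upc (u v : S) : ∃ P : Set (Path u v),
    (∀ ε : ℝ, ε > 0 → ∃ n : ℕ, ∀ p ∈ P, ∃ t : Fin (n + 1) → unitInterval,
        t 0 = 0 ∧ t (Fin.last n) = 1 ∧ StrictMono t ∧
        ∀ i : Fin n, Metric.diam (⇑p '' Set.Icc (t i.castSucc) (t i.succ)) ≤ ε) ∧
    (⋃ p ∈ P, Set.range ⇑p) = Set.univ := by
  choose q hq using exists_lip_path
  refine ⟨range (fun w => ((q u).symm.trans (q w)).trans ((q w).symm.trans (q v))),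
    uniform_of_lip (L := 2 * (2 * 2)) (by norm_num) ?_, ?_⟩
  · rintro _ ⟨w, rfl⟩
    exact lip_trans (lip_trans (lip_symm (hq u)) (hq w)) (lip_trans (lip_symm (hq w)) (hq v))
  · rw [eq_univ_iff_forall]
    intro w
    simp only [mem_iUnion, mem_range, exists_prop, exists_exists_eq_and]
    refine ⟨w, ⟨1 / 2, by norm_num, by norm_num⟩, ?_⟩
    rw [Path.trans_apply, dif_pos (by norm_num)]
    have : (⟨2 * (1 / 2 : ℝ), (unitInterval.mul_pos_mem_iff zero_lt_two).2
      ⟨by norm_num, le_refl _⟩⟩ : unitInterval) = 1 := by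
      apply Subtype.ext
      norm_num
    convert Path.target _

/-- the first coordinate along the long arcs, as a function of the second one -/
noncomputable def xi : ℕ → ℝ → ℝ
  | 0, y => 2 - 2 * y
  | (k + 1), y => if 1 / 2 ≤ y then 2 - 2 * y else if 1 / 4 ≤ y then 4 * y - 1 else xi k (4 * y)

lemma xi_one (k : ℕ) : xi k 1 = 0 := by
  cases k
  · simp [xi]
  · simp only [xi]
    rw [if_pos (by norm_num)]
    norm_num

lemma xi_zero (k : ℕ) : xi k 0 = 2 := by
  induction k with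
  | zero => simp [xi]
  | succ k ih =>
    simp only [xi]
    rw [if_neg (by norm_num), if_neg (by norm_num), mul_zero, ih]

lemma xi_cont (k : ℕ) : Continuous (xi k) := by
  induction k with
  | zero =>
    show Continuous (fun y : ℝ => 2 - 2 * y)
    fun_prop
  | succ k ih =>
    show Continuous (fun y : ℝ =>
      if 1 / 2 ≤ y then 2 - 2 * y else if 1 / 4 ≤ y then 4 * y - 1 else xi k (4 * y))
    refine Continuous.if_le (by fun_prop) ?_ continuous_const continuous_id ?_
    · refine Continuous.if_le (by fun_prop) (ih.comp (by fun_prop)) continuous_const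
        continuous_id ?_
      intro y hy
      rw [← hy, show (4 * (1 / 4) : ℝ) = 1 by norm_num, xi_one]
      norm_num
    · intro y hy
      rw [← hy, if_pos (by norm_num)]
      norm_num

lemma scale {x y : ℝ} (h : (x, y) ∈ S) : (x, y / 4) ∈ S := by
  obtain ⟨h0, h2, h⟩ := h
  refine ⟨h0, h2, ?_⟩
  simp only at h ⊢
  rcases h with h | ⟨k, h⟩ | ⟨k, h1, h⟩
  · left; rw [h]; norm_num
  · right; left
    exact ⟨k + 1, by rw [h, pow_succ]; ring⟩
  · right; right
    exact ⟨k + 1, h1, by rw [h, pow_succ]; ring⟩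

lemma xi_mem (k : ℕ) : ∀ y : ℝ, 0 ≤ y → y ≤ 1 → (xi k y, y) ∈ S := by
  induction k with
  | zero =>
    intro y h0 h1
    refine ⟨?_, ?_, Or.inr (Or.inl ⟨0, ?_⟩)⟩ <;> simp only [xi]
    · linarith
    · linarith
    · ring
  | succ k ih =>
    intro y h0 h1
    simp only [xi]
    split_ifs with hA hB
    · refine ⟨?_, ?_, Or.inr (Or.inl ⟨0, ?_⟩)⟩ <;> simp only
      · linarith
      · linarith
      · ring
    · refine ⟨?_, ?_, Or.inr (Or.inr ⟨0, ?_, ?_⟩)⟩ <;> simp only
      · linarith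
      · linarith
      · linarith
      · ring
    · have := scale (ih (4 * y) (by linarith) (by linarith))
      rwa [show 4 * y / 4 = y by ring] at this

lemma xi_val (k : ℕ) : xi k ((1 / 4 : ℝ) ^ k / 4) = 3 / 2 := by
  induction k with
  | zero => simp only [xi]; norm_num
  | succ k ih =>
    simp only [xi]
    have hk : (1 / 4 : ℝ) ^ k ≤ 1 := pow_le_one₀ (by norm_num) (by norm_num)
    have e : (1 / 4 : ℝ) ^ (k + 1) / 4 = (1 / 4 : ℝ) ^ k / 16 := by rw [pow_succ]; ring
    rw [e, if_neg (by linarith), if_neg (by linarith),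
      show 4 * ((1 / 4 : ℝ) ^ k / 16) = (1 / 4 : ℝ) ^ k / 4 by ring, ih]

lemma s_mem (k : ℕ) : ((3 / 2 : ℝ), (1 / 4 : ℝ) ^ k / 4) ∈ S := by
  refine ⟨by norm_num, by norm_num, Or.inr (Or.inl ⟨k, ?_⟩)⟩
  simp only
  ring

/-- a point of the `k`-th leg between the middle and the top -/
noncomputable def sp (k : ℕ) : S := ⟨(3 / 2, (1 / 4 : ℝ) ^ k / 4), s_mem k⟩

/-- There is an arc from `a` to the top which contains the point `sp k`. -/
lemma exists_arc (k : ℕ) : ∃ q : Path a c, Function.Injective q ∧ sp k ∈ range q := by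
  let F : unitInterval → S := fun t => ⟨(xi k (1 - t), 1 - t),
    xi_mem k _ (by linarith [t.2.2]) (by linarith [t.2.1])⟩
  have hF : Continuous F := by
    refine Continuous.subtype_mk ?_ _
    exact ((xi_cont k).comp (by fun_prop)).prodMk (by fun_prop)
  refine ⟨⟨⟨F, hF⟩, ?_, ?_⟩, ?_, ?_⟩
  · apply Subtype.ext
    simp only [F, a]
    simp [xi_one]
  · apply Subtype.ext
    simp only [F, c]
    simp [xi_zero]
  · intro s t hst
    have h : (1 : ℝ) - s = 1 - t := congrArg (fun z : S => z.1.2) hst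
    apply Subtype.ext
    linarith
  · have hk : (1 / 4 : ℝ) ^ k ≤ 1 := pow_le_one₀ (by norm_num) (by norm_num)
    have hk0 : 0 < (1 / 4 : ℝ) ^ k := by positivity
    refine ⟨⟨1 - (1 / 4 : ℝ) ^ k / 4, by linarith, by linarith⟩, ?_⟩
    apply Subtype.ext
    show ((xi k (1 - (1 - (1 / 4 : ℝ) ^ k / 4)), 1 - (1 - (1 / 4 : ℝ) ^ k / 4)) : ℝ × ℝ) = _
    rw [show (1 - (1 - (1 / 4 : ℝ) ^ k / 4)) = (1 / 4 : ℝ) ^ k / 4 by ring, xi_val]
    rfl

/-- the level function away from the top -/
noncomputable def psi (p : S) : ℝ := 2 * p.1.2 / (2 - p.1.1)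

lemma lt_two {p : S} (hp : p ≠ c) : p.1.1 < 2 := by
  rcases lt_or_eq_of_le p.2.2.1 with h | h
  · exact h
  · exfalso
    apply hp
    apply Subtype.ext
    have h3 := p.2.2.2
    rw [h] at h3
    have : p.1.2 = 0 := by
      rcases h3 with h3 | ⟨k, h3⟩ | ⟨k, h3, -⟩
      · exact h3
      · rw [h3]; norm_num
      · norm_num at h3
    show p.1 = (2, 0)
    exact Prod.ext h this

lemma pow_lt_cases {j m : ℕ} (h1 : (1 / 4 : ℝ) ^ (j + 1) < (1 / 4 : ℝ) ^ m)
    (h2 : (1 / 4 : ℝ) ^ m < (1 / 4 : ℝ) ^ j) : False := by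
  have h3 := (pow_lt_pow_iff_right_of_lt_one₀ (by norm_num : (0 : ℝ) < 1 / 4) (by norm_num)).1 h1
  have h4 := (pow_lt_pow_iff_right_of_lt_one₀ (by norm_num : (0 : ℝ) < 1 / 4) (by norm_num)).1 h2
  omega

/-- Points at an intermediate level lie on the `j`-th link, at the position given by the level. -/
lemma pos_of_psi {p : S} (hp : p ≠ c) {j : ℕ} {v : ℝ} (h1 : 1 / 4 < v) (h2 : v < 1)
    (h : psi p = (1 / 4 : ℝ) ^ j * v) : (1 + p.1.1) = v * (2 * (2 - p.1.1)) := by
  have hlt := lt_two hp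
  have hpos : (0 : ℝ) < 2 - p.1.1 := by linarith
  have hj : (0 : ℝ) < (1 / 4 : ℝ) ^ j := by positivity
  unfold psi at h
  rw [div_eq_iff hpos.ne'] at h
  rcases p.2.2.2 with h3 | ⟨m, h3⟩ | ⟨m, hle, h3⟩
  · exfalso
    rw [h3] at h
    have : 0 < (1 / 4 : ℝ) ^ j * v * (2 - p.1.1) := by positivity
    linarith
  · exfalso
    rw [h3] at h
    have h4 : (1 / 4 : ℝ) ^ m = (1 / 4 : ℝ) ^ j * v := by
      have : (1 / 4 : ℝ) ^ m * (2 - p.1.1) = (1 / 4 : ℝ) ^ j * v * (2 - p.1.1) := by
        rw [← h]; ring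
      exact mul_right_cancel₀ hpos.ne' this
    refine pow_lt_cases (j := j) (m := m) ?_ ?_
    · rw [h4, pow_succ]; exact mul_lt_mul_of_pos_left h1 hj
    · rw [h4]
      calc (1 / 4 : ℝ) ^ j * v < (1 / 4 : ℝ) ^ j * 1 := mul_lt_mul_of_pos_left h2 hj
        _ = _ := mul_one _
  · rw [h3] at h
    have hx0 : 0 ≤ p.1.1 := p.2.1
    have hm : (0 : ℝ) < (1 / 4 : ℝ) ^ m := by positivity
    have h5 : (1 / 4 : ℝ) ^ m * (1 + p.1.1) = (1 / 4 : ℝ) ^ j * (v * (2 * (2 - p.1.1))) := by
      linarith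
    -- compare the scales
    have hmj : m = j := by
      by_contra hne
      rcases lt_or_gt_of_ne hne with hlt' | hgt
      · -- m < j
        have h6 : (1 / 4 : ℝ) ^ j ≤ (1 / 4 : ℝ) ^ (m + 1) :=
          pow_le_pow_of_le_one (by norm_num) (by norm_num) hlt'
        have h7 : v * (2 * (2 - p.1.1)) < 4 * (1 + p.1.1) := by nlinarith
        have h8 : 0 < v * (2 * (2 - p.1.1)) := by positivity
        rw [pow_succ] at h6
        have h9 : (1 / 4 : ℝ) ^ j * (v * (2 * (2 - p.1.1))) ≤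
            (1 / 4 : ℝ) ^ m * (1 / 4) * (v * (2 * (2 - p.1.1))) :=
          mul_le_mul_of_nonneg_right h6 h8.le
        have h10 : (1 / 4 : ℝ) ^ m * (1 / 4) * (v * (2 * (2 - p.1.1))) <
            (1 / 4 : ℝ) ^ m * (1 / 4) * (4 * (1 + p.1.1)) :=
          mul_lt_mul_of_pos_left h7 (by positivity)
        linarith
      · have h6 : (1 / 4 : ℝ) ^ m ≤ (1 / 4 : ℝ) ^ (j + 1) :=
          pow_le_pow_of_le_one (by norm_num) (by norm_num) hgt
        rw [pow_succ] at h6
        have h7 : (1 + p.1.1) < 4 * (v * (2 * (2 - p.1.1))) := by nlinarith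
        have h9 : (1 / 4 : ℝ) ^ m * (1 + p.1.1) ≤ (1 / 4 : ℝ) ^ j * (1 / 4) * (1 + p.1.1) :=
          mul_le_mul_of_nonneg_right h6 (by linarith)
        have h10 : (1 / 4 : ℝ) ^ j * (1 / 4) * (1 + p.1.1) <
            (1 / 4 : ℝ) ^ j * (1 / 4) * (4 * (v * (2 * (2 - p.1.1)))) :=
          mul_lt_mul_of_pos_left h7 (by positivity)
        linarith
    rw [hmj] at h5
    exact mul_left_cancel₀ hj.ne' h5

/-- the levels at which we look at the arcs -/
noncomputable def lev (i : ℕ) : ℝ := (1 / 4 : ℝ) ^ (i / 2) * (if i % 2 = 0 then 7 / 10 else 5 / 14)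

/-- the positions which belong to these levels -/
noncomputable def ps (i : ℕ) : ℝ := if i % 2 = 0 then 3 / 4 else 1 / 4

lemma pos_lev {p : S} (hp : p ≠ c) {i : ℕ} (h : psi p = lev i) : p.1.1 = ps i := by
  unfold lev at h
  unfold ps
  split_ifs at h ⊢ with hi
  · have := pos_of_psi hp (by norm_num) (by norm_num) h
    linarith
  · have := pos_of_psi hp (by norm_num) (by norm_num) h
    linarith

lemma lev_succ (i : ℕ) : lev (i + 1) < lev i := by
  unfold lev
  rcases Nat.even_or_odd' i with ⟨m, rfl | rfl⟩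
  · rw [show (2 * m + 1) / 2 = m by omega, show (2 * m) / 2 = m by omega,
      if_neg (by omega), if_pos (by omega)]
    exact mul_lt_mul_of_pos_left (by norm_num) (by positivity)
  · rw [show (2 * m + 1 + 1) / 2 = m + 1 by omega, show (2 * m + 1) / 2 = m by omega,
      if_pos (by omega), if_neg (by omega), pow_succ]
    have : (0 : ℝ) < (1 / 4 : ℝ) ^ m := by positivity
    nlinarith

lemma lev_gt {i k : ℕ} (h : i < 2 * k) : (1 / 4 : ℝ) ^ k < lev i := by
  unfold lev
  have h1 : i / 2 + 1 ≤ k := by omega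
  have h2 : (1 / 4 : ℝ) ^ k ≤ (1 / 4 : ℝ) ^ (i / 2 + 1) :=
    pow_le_pow_of_le_one (by norm_num) (by norm_num) h1
  have h3 : (0 : ℝ) < (1 / 4 : ℝ) ^ (i / 2) := by positivity
  rw [pow_succ] at h2
  split_ifs <;> nlinarith

lemma lev_zero_lt : lev 0 < 1 := by
  unfold lev
  norm_num

/-- An arc from `a` to the top through `sp k` visits `2 k` points alternating between two sides. -/
lemma times {p : Path a c} (hinj : Function.Injective p) {k : ℕ} (hk : sp k ∈ range p) :
    ∀ m : ℕ, m < 2 * k → ∃ τ : ℕ → unitInterval, (∀ i, i ≤ m → (p (τ i)).1.1 = ps i) ∧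
      (∀ i, i < m → τ i ≤ τ (i + 1)) := by
  obtain ⟨T, hT⟩ := hk
  have hne : ∀ t : unitInterval, t ≤ T → p t ≠ c := by
    intro t ht h
    have h1 : t = 1 := hinj (by rw [h, p.target])
    have h2 : T = 1 := le_antisymm T.2.2 (h1 ▸ ht)
    rw [h2, p.target] at hT
    have h3 : (2 : ℝ) = 3 / 2 := congrArg (fun z : S => z.1.1) hT
    norm_num at h3
  have hcont : ContinuousOn (fun t => psi (p t)) (Iic T) := by
    intro t ht
    refine ContinuousAt.continuousWithinAt ?_
    unfold psi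
    have h0 : (2 : ℝ) - (p t).1.1 ≠ 0 := by
      have := lt_two (hne t ht)
      linarith
    refine ContinuousAt.div ?_ ?_ h0
    · exact (continuous_const.mul (continuous_snd.comp (continuous_subtype_val.comp
        p.continuous))).continuousAt
    · exact (continuous_const.sub (continuous_fst.comp (continuous_subtype_val.comp
        p.continuous))).continuousAt
  have hpT : psi (p T) = (1 / 4 : ℝ) ^ k := by
    rw [hT]
    simp only [psi, sp]
    ring
  -- from a time at a level above `lev i` to a later time at level `lev i`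
  have step : ∀ (t : unitInterval) (i : ℕ), t ≤ T → i < 2 * k → lev i < psi (p t) →
      ∃ t' : unitInterval, t ≤ t' ∧ t' ≤ T ∧ psi (p t') = lev i := by
    intro t i ht hi hlt
    have h1 : lev i ∈ Icc (psi (p T)) (psi (p t)) :=
      ⟨by rw [hpT]; exact (lev_gt hi).le, hlt.le⟩
    have h2 := intermediate_value_Icc' ht (hcont.mono (fun z hz => hz.2)) h1
    obtain ⟨t', ht', he⟩ := h2
    exact ⟨t', ht'.1, ht'.2, he⟩
  have main : ∀ m : ℕ, m < 2 * k → ∃ τ : ℕ → unitInterval,
      (∀ i, i ≤ m → τ i ≤ T ∧ psi (p (τ i)) = lev i) ∧ (∀ i, i < m → τ i ≤ τ (i + 1)) := by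
    intro m
    induction m with
    | zero =>
      intro hm
      obtain ⟨t', -, h2, h3⟩ := step 0 0 T.2.1 hm (by
        have : psi (p 0) = 1 := by
          rw [p.source]
          simp [psi, a]
        rw [this]
        exact lev_zero_lt)
      refine ⟨fun _ => t', ?_, fun i hi => le_refl _⟩
      intro i hi
      have : i = 0 := by omega
      subst this
      exact ⟨h2, h3⟩
    | succ m ih =>
      intro hm
      obtain ⟨τ, h1, h2⟩ := ih (by omega)
      obtain ⟨t', g1, g2, g3⟩ := step (τ m) (m + 1) (h1 m le_rfl).1 hm (by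
        rw [(h1 m le_rfl).2]
        exact lev_succ m)
      refine ⟨fun i => if i = m + 1 then t' else τ i, ?_, ?_⟩
      · intro i hi
        by_cases h : i = m + 1
        · simp only [h, if_true]
          exact ⟨g2, g3⟩
        · simp only [h, if_false]
          exact h1 i (by omega)
      · intro i hi
        by_cases h : i = m
        · subst h
          simp only [if_true]
          rw [if_neg (by omega)]
          exact g1
        · have hA : ¬ i = m + 1 := by omega
          have hB : ¬ i + 1 = m + 1 := by omega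
          simp only [hA, hB, if_false]
          exact h2 i (by omega)
  intro m hm
  obtain ⟨τ, h1, h2⟩ := main m hm
  exact ⟨τ, fun i hi => pos_lev (hne _ (h1 i hi).1) (h1 i hi).2, h2⟩

lemma ps_dist (i : ℕ) : |ps i - ps (i + 1)| = 1 / 2 := by
  unfold ps
  rcases Nat.even_or_odd' i with ⟨m, rfl | rfl⟩
  · rw [if_pos (by omega), if_neg (by omega)]
    norm_num [abs_of_pos]
  · rw [if_neg (by omega), if_pos (by omega)]
    norm_num [abs_of_pos, abs_of_neg]

instance : CompactSpace S := isCompact_iff_compactSpace.1 isCompact_S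

instance : ConnectedSpace S := by
  have : PathConnectedSpace S :=
    { nonempty := ⟨c⟩
      joined := fun x y => by
        obtain ⟨p, -⟩ := exists_lip_path x
        obtain ⟨q, -⟩ := exists_lip_path y
        exact ⟨p.symm.trans q⟩ }
  infer_instance

/-- The negation of the preceding statement: Every continuum in which any two points are joined by a uniform family of paths covering the space has, for any two points, a uniform family of arcs between them covering the union of all arcs joining them. -/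
theorem result :
    ¬ (∀ (X : Type) [MetricSpace X] [CompactSpace X] [ConnectedSpace X],
      (∀ a b : X, ∃ P : Set (Path a b),
          (∀ ε : ℝ, ε > 0 → ∃ n : ℕ, ∀ p ∈ P, ∃ t : Fin (n + 1) → unitInterval,
              t 0 = 0 ∧ t (Fin.last n) = 1 ∧ StrictMono t ∧
              ∀ i : Fin n, Metric.diam (⇑p '' Set.Icc (t i.castSucc) (t i.succ)) ≤ ε) ∧
          (⋃ p ∈ P, Set.range ⇑p) = Set.univ) →
      (∀ a b : X, ∃ P : Set (Path a b),
          (∀ p ∈ P, Function.Injective ⇑p) ∧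
          (∀ ε : ℝ, ε > 0 → ∃ n : ℕ, ∀ p ∈ P, ∃ t : Fin (n + 1) → unitInterval,
              t 0 = 0 ∧ t (Fin.last n) = 1 ∧ StrictMono t ∧
              ∀ i : Fin n, Metric.diam (⇑p '' Set.Icc (t i.castSucc) (t i.succ)) ≤ ε) ∧
          (⋃ p ∈ P, Set.range ⇑p) =
            ⋃ (q : Path a b) (_ : Function.Injective ⇑q), Set.range ⇑q)) := by
  intro H
  obtain ⟨P, hP1, hP2, hP3⟩ := H S upc a c
  obtain ⟨n, hn⟩ := hP2 (1 / 4) (by norm_num)
  obtain ⟨q, hq, hsq⟩ := exists_arc (n + 1)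
  have hmem : sp (n + 1) ∈ ⋃ p ∈ P, Set.range ⇑p := by
    rw [hP3]
    simp only [mem_iUnion, exists_prop]
    exact ⟨q, hq, hsq⟩
  simp only [mem_iUnion, exists_prop] at hmem
  obtain ⟨p, hpP, hp⟩ := hmem
  obtain ⟨t, ht0, ht1, htm, hdiam⟩ := hn p hpP
  obtain ⟨τ, hτ1, hτ2⟩ := times (hP1 p hpP) hp (2 * (n + 1) - 1) (by omega)
  -- consecutive times are at distance at least one half
  have hdist : ∀ i, i < 2 * (n + 1) - 1 → 1 / 2 ≤ dist (p (τ i)) (p (τ (i + 1))) := by
    intro i hi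
    rw [Subtype.dist_eq, Prod.dist_eq]
    refine le_max_of_le_left ?_
    rw [Real.dist_eq, hτ1 i (by omega), hτ1 (i + 1) (by omega), ps_dist]
  -- pieces
  have hpiece : ∀ s : unitInterval, ∃ i : Fin n, s ∈ Icc (t i.castSucc) (t i.succ) := by
    intro s
    by_contra hcon
    push Not at hcon
    have : ∀ i : Fin (n + 1), t i ≤ s := by
      intro i
      induction i using Fin.induction with
      | zero => rw [ht0]; exact s.2.1
      | succ i ih =>
        by_contra hlt
        exact hcon i ⟨ih, (not_le.1 hlt).le⟩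
    have h1 := this (Fin.last n)
    rw [ht1] at h1
    have h2 : s = 1 := le_antisymm s.2.2 h1
    rcases n with _ | n
    · have : t 0 = t (Fin.last 0) := rfl
      rw [ht0, ht1] at this
      exact zero_ne_one this
    · refine hcon (Fin.last n) ⟨?_, ?_⟩
      · rw [h2]; exact (t _).2.2
      · rw [h2]
        have : (Fin.last n).succ = Fin.last (n + 1) := rfl
        rw [this, ht1]
  choose J hJ using hpiece
  have hmono : ∀ i, i < 2 * (n + 1) - 1 → J (τ i) < J (τ (i + 1)) := by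
    intro i hi
    by_contra hcon
    push Not at hcon
    rcases lt_or_eq_of_le hcon with h | h
    · -- the later time lies in an earlier piece
      have h1 : (J (τ (i + 1))).succ ≤ (J (τ i)).castSucc := by
        rw [Fin.le_def]
        simp only [Fin.val_succ, Fin.val_castSucc]
        exact h
      have h2 : τ (i + 1) ≤ τ i := ((hJ (τ (i + 1))).2.trans (htm.monotone h1)).trans (hJ (τ i)).1
      have h3 : τ i = τ (i + 1) := le_antisymm (hτ2 i hi) h2
      have h4 := hdist i hi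
      rw [h3, dist_self] at h4
      norm_num at h4
    · have h1 : p (τ i) ∈ p '' Icc (t (J (τ i)).castSucc) (t (J (τ i)).succ) :=
        mem_image_of_mem _ (hJ (τ i))
      have h2 : p (τ (i + 1)) ∈ p '' Icc (t (J (τ i)).castSucc) (t (J (τ i)).succ) := by
        rw [← h]
        exact mem_image_of_mem _ (hJ (τ (i + 1)))
      have h3 := Metric.dist_le_diam_of_mem (isCompact_Icc.image p.continuous).isBounded h1 h2
      have h4 := hdiam (J (τ i))
      have h5 := hdist i hi
      linarith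
  have hge : ∀ i, i ≤ 2 * (n + 1) - 1 → i ≤ (J (τ i) : ℕ) := by
    intro i
    induction i with
    | zero => intro _; exact Nat.zero_le _
    | succ i ih =>
      intro hi
      have h1 := ih (by omega)
      have h2 : (J (τ i) : ℕ) < J (τ (i + 1)) := hmono i (by omega)
      omega
  have h1 := hge (2 * (n + 1) - 1) le_rfl
  have h2 := (J (τ (2 * (n + 1) - 1))).2
  omega

end Pool.Agent.S13596
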