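import Pool.Statements.S13710
import Pool.Agent.Y62.CP.Top

set_option autoImplicit false
open Pool Pool.MP_a6a8af_gt

namespace Pool.Agent.S13710

open Set Topology Metric

/-! `X` is the union of two spheres which meet in a pair of antipodal points, and `Y` is the
quotient of `X` by the antipodal involution, that is, the wedge of two projective planes. -/

/-- the space which contains one sphere -/
abbrev V : Type := Fin (2 + 1) → ℝ

/-- the space which contains `X` -/
abbrev T : Type := V × V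

/-- the sphere of the sup norm -/
abbrev Sp : Set V := sphere (0 : V) 1

/-- a point of the sphere -/
def e0 : V := Pi.single 0 1

/-- the first sphere -/
def i1 (x : V) : T := (x, x 0 • e0)

/-- the second sphere -/
def i2 (x : V) : T := (x 0 • e0, x)

lemma cont_i1 : Continuous i1 := by unfold i1; fun_prop

lemma cont_i2 : Continuous i2 := by unfold i2; fun_prop

lemma i1_neg (x : V) : i1 (-x) = - i1 x := by
  simp [i1]

lemma i2_neg (x : V) : i2 (-x) = - i2 x := by
  simp [i2]

lemma norm_e0 : ‖e0‖ = 1 := by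
  unfold e0
  rw [Pi.norm_single, norm_one]

lemma e0_mem : e0 ∈ Sp := by
  rw [mem_sphere, dist_zero_right, norm_e0]

lemma norm_i1 {x : V} (hx : x ∈ Sp) : ‖i1 x‖ = 1 := by
  rw [mem_sphere, dist_zero_right] at hx
  unfold i1
  rw [Prod.norm_def, norm_smul, norm_e0, hx, mul_one]
  have := norm_le_pi_norm x 0
  rw [hx] at this
  exact max_eq_left this

lemma norm_i2 {x : V} (hx : x ∈ Sp) : ‖i2 x‖ = 1 := by
  rw [mem_sphere, dist_zero_right] at hx
  unfold i2
  rw [Prod.norm_def, norm_smul, norm_e0, hx, mul_one]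
  have := norm_le_pi_norm x 0
  rw [hx] at this
  exact max_eq_right this

lemma i1_e0 : i1 e0 = i2 e0 := by
  simp [i1, i2, e0]

/-- a point of the intersection -/
lemma inter {x y : V} (hx : x ∈ Sp) (h : i1 x = i2 y) :
    (x = e0 ∨ x = -e0) ∧ x = y := by
  have h1 : x = y 0 • e0 := congrArg Prod.fst h
  have h2 : x 0 • e0 = y := congrArg Prod.snd h
  rw [mem_sphere, dist_zero_right] at hx
  have h3 : |y 0| = 1 := by
    rw [h1, norm_smul, norm_e0, mul_one] at hx
    exact hx
  have h4 : x = e0 ∨ x = -e0 := by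
    rcases eq_or_eq_neg_of_abs_eq h3 with h | h
    · left; rw [h1, h, one_smul]
    · right; rw [h1, h, neg_one_smul]
  refine ⟨h4, ?_⟩
  rw [← h2]
  rcases h4 with h | h <;> rw [h] <;> simp [e0]

/-- the space which contains `Y` -/
abbrev W : Type := (Fin (2 + 1) ⊕ Fin (2 + 1)) → (Fin (2 + 1) ⊕ Fin (2 + 1)) → ℝ

/-- coordinates -/
def co (z : T) : (Fin (2 + 1) ⊕ Fin (2 + 1)) → ℝ := Sum.elim z.1 z.2

lemma co_cont (i : Fin (2 + 1) ⊕ Fin (2 + 1)) : Continuous (fun z : T => co z i) := by
  rcases i with i | i <;> simp only [co, Sum.elim_inl, Sum.elim_inr] <;> fun_prop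

lemma co_neg (z : T) (i : Fin (2 + 1) ⊕ Fin (2 + 1)) : co (-z) i = - co z i := by
  rcases i with i | i <;> simp [co]

lemma co_ext {z w : T} (h : ∀ i, co z i = co w i) : z = w := by
  refine Prod.ext (funext fun i => ?_) (funext fun i => ?_)
  · exact h (Sum.inl i)
  · exact h (Sum.inr i)

/-- the quadratic map whose fibres are the pairs of antipodal points -/
def f (z : T) : W := fun i j => co z i * co z j

lemma cont_f : Continuous f :=
  continuous_pi fun i => continuous_pi fun j => (co_cont i).mul (co_cont j)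

lemma f_neg (z : T) : f (-z) = f z := by
  funext i j
  simp only [f, co_neg]
  ring

lemma f_inj {z w : T} (h : f z = f w) : z = w ∨ z = -w := by
  by_cases hz : ∀ i, co z i = 0
  · left
    apply co_ext
    intro i
    have h1 : co z i * co z i = co w i * co w i := congrFun (congrFun h i) i
    rw [hz i, mul_zero] at h1
    rw [hz i]
    exact (mul_self_eq_zero.1 h1.symm).symm
  · push Not at hz
    obtain ⟨i, hi⟩ := hz
    have h1 : co z i * co z i = co w i * co w i := congrFun (congrFun h i) i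
    rcases mul_self_eq_mul_self_iff.1 h1 with h2 | h2
    · left
      apply co_ext
      intro j
      have h3 : co z i * co z j = co w i * co w j := congrFun (congrFun h i) j
      rw [← h2] at h3
      exact mul_left_cancel₀ hi h3
    · right
      apply co_ext
      intro j
      rw [co_neg]
      have h3 : co z i * co z j = co w i * co w j := congrFun (congrFun h i) j
      have h4 : co w i = - co z i := by rw [h2, neg_neg]
      rw [h4] at h3
      have h5 : co z i * co z j = co z i * (- co w j) := by rw [h3]; ring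
      exact mul_left_cancel₀ hi h5

/-- the covering space -/
def XS : Set T := i1 '' Sp ∪ i2 '' Sp

lemma norm_XS {z : T} (hz : z ∈ XS) : ‖z‖ = 1 := by
  rcases hz with ⟨x, hx, rfl⟩ | ⟨x, hx, rfl⟩
  · exact norm_i1 hx
  · exact norm_i2 hx

lemma neg_Sp {x : V} (hx : x ∈ Sp) : -x ∈ Sp := by
  rw [mem_sphere, dist_zero_right] at hx ⊢
  rw [norm_neg, hx]

lemma neg_XS {z : T} (hz : z ∈ XS) : -z ∈ XS := by
  rcases hz with ⟨x, hx, rfl⟩ | ⟨x, hx, rfl⟩
  · exact Or.inl ⟨-x, neg_Sp hx, i1_neg x⟩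
  · exact Or.inr ⟨-x, neg_Sp hx, i2_neg x⟩

lemma isCompact_Sp : IsCompact Sp := isCompact_sphere _ _

lemma isCompact_XS : IsCompact XS :=
  (isCompact_Sp.image cont_i1).union (isCompact_Sp.image cont_i2)

instance : CompactSpace XS := isCompact_iff_compactSpace.1 isCompact_XS

instance : CompactSpace Sp := isCompact_iff_compactSpace.1 isCompact_Sp

lemma isConnected_Sp : IsConnected Sp := by
  have h1 : (1 : Cardinal) < Module.rank ℝ V := by
    rw [rank_fin_fun]
    norm_num
  exact isConnected_sphere h1 0 zero_le_one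

instance : ConnectedSpace Sp := isConnected_iff_connectedSpace.1 isConnected_Sp

/-- the first sphere in `X` -/
def j1 (x : Sp) : XS := ⟨i1 x, Or.inl ⟨x, x.2, rfl⟩⟩

/-- the second sphere in `X` -/
def j2 (x : Sp) : XS := ⟨i2 x, Or.inr ⟨x, x.2, rfl⟩⟩

lemma cont_j1 : Continuous j1 := (cont_i1.comp continuous_subtype_val).subtype_mk _

lemma cont_j2 : Continuous j2 := (cont_i2.comp continuous_subtype_val).subtype_mk _

lemma cover_j (z : XS) : z ∈ range j1 ∨ z ∈ range j2 := by
  rcases z.2 with ⟨x, hx, h⟩ | ⟨x, hx, h⟩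
  · exact Or.inl ⟨⟨x, hx⟩, Subtype.ext h⟩
  · exact Or.inr ⟨⟨x, hx⟩, Subtype.ext h⟩

lemma conn1 : IsConnected (range j1) := isConnected_range cont_j1

lemma conn2 : IsConnected (range j2) := isConnected_range cont_j2

lemma closed1 : IsClosed (range j1) := (isCompact_range cont_j1).isClosed

lemma closed2 : IsClosed (range j2) := (isCompact_range cont_j2).isClosed

lemma base_mem : j1 ⟨e0, e0_mem⟩ ∈ range j1 ∩ range j2 :=
  ⟨⟨_, rfl⟩, ⟨⟨e0, e0_mem⟩, Subtype.ext i1_e0.symm⟩⟩

lemma base_mem' : j1 ⟨-e0, neg_Sp e0_mem⟩ ∈ range j1 ∩ range j2 := by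
  refine ⟨⟨_, rfl⟩, ⟨⟨-e0, neg_Sp e0_mem⟩, Subtype.ext ?_⟩⟩
  show i2 (-e0) = i1 (-e0)
  rw [i1_neg, i2_neg, i1_e0]

instance : ConnectedSpace XS := by
  have h : range j1 ∪ range j2 = univ := eq_univ_of_forall cover_j
  have h1 : IsConnected (univ : Set XS) := by
    rw [← h]
    exact conn1.union ⟨_, base_mem⟩ conn2
  exact connectedSpace_iff_univ.2 h1

/-- The sphere is locally connected, as a quotient of the punctured space. -/
lemma lpc_Sp : LocallyPathConnectedSpace Sp := by
  have hop : IsOpen {x : V | x ≠ 0} := isOpen_compl_singleton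
  have : LocallyPathConnectedSpace {x : V | x ≠ 0} := hop.locallyPathConnectedSpace
  let r : {x : V | x ≠ 0} → Sp := fun x => ⟨‖(x : V)‖⁻¹ • (x : V), by
    have : ‖(x : V)‖ ≠ 0 := norm_ne_zero_iff.2 x.2
    rw [mem_sphere, dist_zero_right, norm_smul, norm_inv, norm_norm, inv_mul_cancel₀ this]⟩
  have hr : Continuous r := by
    refine Continuous.subtype_mk ?_ _
    have h1 : Continuous (fun x : {x : V | x ≠ 0} => ‖(x : V)‖) :=
      continuous_norm.comp continuous_subtype_val
    have h2 : Continuous (fun x : {x : V | x ≠ 0} => ‖(x : V)‖⁻¹) :=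
      h1.inv₀ (fun x => norm_ne_zero_iff.2 x.2)
    exact h2.smul continuous_subtype_val
  let s : Sp → {x : V | x ≠ 0} := fun x => ⟨x, by
    have hx := x.2
    rw [mem_sphere, dist_zero_right] at hx
    intro h
    rw [h, norm_zero] at hx
    exact zero_ne_one hx⟩
  have hs : Continuous s := continuous_subtype_val.subtype_mk _
  have hq : IsQuotientMap r := by
    refine IsQuotientMap.of_inverse hs hr ?_
    intro x
    apply Subtype.ext
    have hx := x.2
    rw [mem_sphere, dist_zero_right] at hx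
    show ‖(x : V)‖⁻¹ • (x : V) = x
    rw [hx, inv_one, one_smul]
  exact hq.locallyPathConnectedSpace

/-- the parametrisation of `X` -/
def jj : Sp ⊕ Sp → XS := Sum.elim j1 j2

lemma cont_jj : Continuous jj := Continuous.sumElim cont_j1 cont_j2

lemma surj_jj : Function.Surjective jj := by
  intro z
  rcases cover_j z with ⟨x, rfl⟩ | ⟨x, rfl⟩
  · exact ⟨Sum.inl x, rfl⟩
  · exact ⟨Sum.inr x, rfl⟩

instance : LocallyConnectedSpace XS := by
  have := lpc_Sp
  have hq : IsQuotientMap jj := cont_jj.isClosedMap.isQuotientMap cont_jj surj_jj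
  have := hq.locallyPathConnectedSpace
  infer_instance

lemma not_unicoherent : ∃ A B : Set XS, IsClosed A ∧ IsClosed B ∧ IsConnected A ∧ IsConnected B ∧
    A ∪ B = Set.univ ∧ ¬ IsConnected (A ∩ B) := by
  refine ⟨range j1, range j2, closed1, closed2, conn1, conn2, eq_univ_of_forall cover_j, ?_⟩
  intro hcon
  have hφ : Continuous (fun z : XS => z.1.1 0) := by fun_prop
  have h1 := (hcon.isPreconnected.image _ hφ.continuousOn).ordConnected
  have ha : (-1 : ℝ) ∈ (fun z : XS => z.1.1 0) '' (range j1 ∩ range j2) :=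
    ⟨_, base_mem', by simp [j1, i1, e0]⟩
  have hb : (1 : ℝ) ∈ (fun z : XS => z.1.1 0) '' (range j1 ∩ range j2) :=
    ⟨_, base_mem, by simp [j1, i1, e0]⟩
  obtain ⟨z, ⟨⟨x, rfl⟩, ⟨y, hy⟩⟩, hz⟩ := h1.out ha hb (show (0 : ℝ) ∈ Icc (-1 : ℝ) 1 by norm_num)
  have h2 : i1 x = i2 y := (congrArg Subtype.val hy).symm
  have h3 : (x : V) 0 = 0 := hz
  rcases (inter x.2 h2).1 with h | h <;> rw [h] at h3 <;> simp [e0] at h3

/-- the base space -/
def YS : Set W := f '' XS

lemma isCompact_YS : IsCompact YS := isCompact_XS.image cont_f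

instance : CompactSpace YS := isCompact_iff_compactSpace.1 isCompact_YS

/-- the covering map -/
def F (z : XS) : YS := ⟨f z, mem_image_of_mem f z.2⟩

lemma cont_F : Continuous F := (cont_f.comp continuous_subtype_val).subtype_mk _

lemma surj_F : Function.Surjective F := by
  rintro ⟨_, z, hz, rfl⟩
  exact ⟨⟨z, hz⟩, rfl⟩

lemma quot_F : IsQuotientMap F := cont_F.isClosedMap.isQuotientMap cont_F surj_F

/-- the involution -/
def nX (z : XS) : XS := ⟨-z.1, neg_XS z.2⟩

lemma cont_nX : Continuous nX := continuous_subtype_val.neg.subtype_mk _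

lemma open_F : IsOpenMap F := by
  intro U hU
  rw [← quot_F.isOpen_preimage]
  have : F ⁻¹' (F '' U) = U ∪ nX ⁻¹' U := by
    ext z
    constructor
    · rintro ⟨w, hw, h⟩
      have h1 : f w = f z := congrArg Subtype.val h
      rcases f_inj h1 with h2 | h2
      · left
        have : w = z := Subtype.ext h2
        rwa [← this]
      · right
        have : w = nX z := Subtype.ext h2
        show nX z ∈ U
        rwa [← this]
    · rintro (h | h)
      · exact ⟨z, h, rfl⟩
      · refine ⟨nX z, h, Subtype.ext ?_⟩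
        exact f_neg _
  rw [this]
  exact hU.union (hU.preimage cont_nX)

lemma localHomeo_F : IsLocalHomeomorph F := by
  rw [isLocalHomeomorph_iff_isOpenEmbedding_restrict]
  intro x
  refine ⟨ball x 1, ball_mem_nhds x one_pos, ?_⟩
  refine IsOpenEmbedding.of_continuous_injective_isOpenMap
    (cont_F.comp continuous_subtype_val) ?_ (open_F.domRestrict isOpen_ball)
  rintro ⟨z, hz⟩ ⟨w, hw⟩ h
  have h1 : f z.1 = f w.1 := congrArg Subtype.val h
  rcases f_inj h1 with h2 | h2
  · exact Subtype.ext (Subtype.ext h2)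
  · exfalso
    have h3 : dist z w < 2 := by
      calc dist z w ≤ dist z x + dist w x := dist_triangle_right _ _ _
        _ < 1 + 1 := add_lt_add hz hw
        _ = 2 := by norm_num
    have h4 : dist z w = 2 := by
      rw [Subtype.dist_eq, dist_eq_norm, h2]
      have : -w.1 - w.1 = (-2 : ℝ) • w.1 := by
        rw [neg_smul, two_smul]
        abel
      rw [this, norm_smul, norm_XS w.2]
      norm_num
    linarith

/-- the parametrisation of `Y` -/
lemma quot_Fj : IsQuotientMap (F ∘ jj) :=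
  (cont_F.comp cont_jj).isClosedMap.isQuotientMap (cont_F.comp cont_jj)
    (surj_F.comp surj_jj)

instance : ConnectedSpace YS := surj_F.connectedSpace cont_F

lemma const_even {H : V → ℝ} (hH : ContinuousOn H Sp)
    (h : ∀ x ∈ Sp, ∃ k : ℤ, H (-x) - H x = k) {x : V} (hx : x ∈ Sp) : H (-x) = H x := by
  have h1 : ContinuousOn (fun x => H (-x) - H x) Sp :=
    (hH.comp continuous_neg.continuousOn (fun z hz => neg_Sp hz)).sub hH
  have h2 := Pool.Agent.Y62.CP.const_of_int isConnected_Sp.isPreconnected h1 h hx (neg_Sp hx)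
  simp only [neg_neg] at h2
  linarith

/-- `Y` is unicoherent. -/
lemma unicoherent {A B : Set YS} (hA : IsClosed A) (hB : IsClosed B) (hAc : IsConnected A)
    (hBc : IsConnected B) (hcov : A ∪ B = Set.univ) : IsConnected (A ∩ B) := by
  constructor
  · -- the intersection is not empty
    have h := isPreconnected_closed_iff.1 (isPreconnected_univ (α := YS)) A B hA hB (by rw [hcov])
      (by simpa using hAc.nonempty) (by simpa using hBc.nonempty)
    simpa using h
  rw [isPreconnected_closed_iff]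
  rintro P N hP hN hsub ⟨a, ha, haP⟩ ⟨b, hb, hbN⟩
  by_contra hcon
  have hdis : Disjoint (A ∩ B ∩ P) (A ∩ B ∩ N) := by
    rw [Set.disjoint_left]
    rintro x ⟨hx, hxP⟩ ⟨-, hxN⟩
    exact hcon ⟨x, hx, hxP, hxN⟩
  -- everything is moved to the ambient space
  have hcl : ∀ Z : Set YS, IsClosed Z → IsClosed (Subtype.val '' Z : Set W) := fun Z hZ =>
    (hZ.isCompact.image continuous_subtype_val).isClosed
  have hdis' : Disjoint (Subtype.val '' (A ∩ B ∩ P) : Set W) (Subtype.val '' (A ∩ B ∩ N)) :=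
    (disjoint_image_iff Subtype.val_injective).2 hdis
  obtain ⟨g, hg0, hg1, -⟩ := exists_continuous_zero_one_of_isClosed
    (hcl _ ((hA.inter hB).inter hP)) (hcl _ ((hA.inter hB).inter hN)) hdis'
  have g0 : ∀ x : YS, x ∈ A ∩ B ∩ P → g x = 0 := fun x hx => hg0 (mem_image_of_mem _ hx)
  have g1 : ∀ x : YS, x ∈ A ∩ B ∩ N → g x = 1 := fun x hx => hg1 (mem_image_of_mem _ hx)
  have gint : ∀ x : YS, x ∈ A → x ∈ B → ∃ k : ℤ, g x = k := by
    intro x hxA hxB
    rcases hsub ⟨hxA, hxB⟩ with h | h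
    · exact ⟨0, by rw [g0 x ⟨⟨hxA, hxB⟩, h⟩]; simp⟩
    · exact ⟨1, by rw [g1 x ⟨⟨hxA, hxB⟩, h⟩]; simp⟩
  -- the lifts on both spheres
  have lift : ∀ i : V → T, Continuous i → (∀ x ∈ Sp, i x ∈ XS) → (∀ x, i (-x) = - i x) →
      ∃ H : V → ℝ, ContinuousOn H Sp ∧ (∀ x ∈ Sp, H (-x) = H x) ∧
        (∀ (x : V) (w : YS), x ∈ Sp → f (i x) = w → w ∈ A → ∃ k : ℤ, H x = g w + 2 * k) ∧
        (∀ (x : V) (w : YS), x ∈ Sp → f (i x) = w → w ∈ B → ∃ k : ℤ, H x = - g w + 2 * k) := by
    intro i hi him hin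
    have hfi : Continuous (fun x => f (i x)) := cont_f.comp hi
    obtain ⟨H, hH, hH1, hH2⟩ := Pool.Agent.Y62.CP.key_lift (m := 2) le_rfl
      (P1 := (fun x => f (i x)) ⁻¹' (Subtype.val '' A)) (P2 := (fun x => f (i x)) ⁻¹' (Subtype.val '' B))
      ((hcl A hA).preimage hfi) ((hcl B hB).preimage hfi) (by
        intro x hx
        have hm : f (i x) ∈ YS := mem_image_of_mem f (him x hx)
        have : (⟨f (i x), hm⟩ : YS) ∈ A ∪ B := by rw [hcov]; trivial
        rcases this with h | h
        · exact Or.inl ⟨_, h, rfl⟩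
        · exact Or.inr ⟨_, h, rfl⟩)
      (g := fun x => g (f (i x))) (g.continuous.comp hfi) (by
        rintro x hx ⟨w, hwA, hw⟩ ⟨w', hwB, hw'⟩
        have hww : w = w' := Subtype.ext (hw.trans hw'.symm)
        obtain ⟨k, hk⟩ := gint w hwA (hww ▸ hwB)
        refine ⟨k, ?_⟩
        show g (f (i x)) = k
        have : f (i x) = w := hw.symm
        rw [this, hk])
    have e1 : ∀ (x : V) (w : YS), x ∈ Sp → f (i x) = w → w ∈ A → ∃ k : ℤ, H x = g w + 2 * k := by
      intro x w hx hw hwA
      obtain ⟨k, hk⟩ := hH1 x hx ⟨w, hwA, hw.symm⟩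
      exact ⟨k, by rw [hk, hw]⟩
    have e2 : ∀ (x : V) (w : YS), x ∈ Sp → f (i x) = w → w ∈ B →
        ∃ k : ℤ, H x = - g w + 2 * k := by
      intro x w hx hw hwB
      obtain ⟨k, hk⟩ := hH2 x hx ⟨w, hwB, hw.symm⟩
      exact ⟨k, by rw [hk, hw]⟩
    refine ⟨H, hH, fun x hx => const_even hH ?_ hx, e1, e2⟩
    intro y hy
    have hm : f (i y) ∈ YS := mem_image_of_mem f (him y hy)
    have hn : f (i (-y)) = f (i y) := by rw [hin, f_neg]
    have : (⟨f (i y), hm⟩ : YS) ∈ A ∪ B := by rw [hcov]; trivial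
    rcases this with h | h
    · obtain ⟨k, hk⟩ := e1 y _ hy rfl h
      obtain ⟨l, hl⟩ := e1 (-y) ⟨f (i y), hm⟩ (neg_Sp hy) hn h
      exact ⟨2 * l - 2 * k, by rw [hk, hl]; push_cast; ring⟩
    · obtain ⟨k, hk⟩ := e2 y _ hy rfl h
      obtain ⟨l, hl⟩ := e2 (-y) ⟨f (i y), hm⟩ (neg_Sp hy) hn h
      exact ⟨2 * l - 2 * k, by rw [hk, hl]; push_cast; ring⟩
  obtain ⟨H1, hH1, hev1, hA1, hB1⟩ := lift i1 cont_i1 (fun x hx => Or.inl ⟨x, hx, rfl⟩) i1_neg
  obtain ⟨H2, hH2, hev2, hA2, hB2⟩ := lift i2 cont_i2 (fun x hx => Or.inr ⟨x, hx, rfl⟩) i2_neg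
  -- the constant which matches the two lifts
  obtain ⟨m, hm⟩ : ∃ m : ℤ, H1 e0 - H2 e0 = 2 * m := by
    have hme : f (i1 e0) ∈ YS := mem_image_of_mem f (Or.inl ⟨e0, e0_mem, rfl⟩)
    have hn : f (i2 e0) = f (i1 e0) := by rw [i1_e0]
    have : (⟨f (i1 e0), hme⟩ : YS) ∈ A ∪ B := by rw [hcov]; trivial
    rcases this with h | h
    · obtain ⟨k, hk⟩ := hA1 e0 _ e0_mem rfl h
      obtain ⟨l, hl⟩ := hA2 e0 ⟨f (i1 e0), hme⟩ e0_mem hn h
      exact ⟨k - l, by rw [hk, hl]; push_cast; ring⟩
    · obtain ⟨k, hk⟩ := hB1 e0 _ e0_mem rfl h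
      obtain ⟨l, hl⟩ := hB2 e0 ⟨f (i1 e0), hme⟩ e0_mem hn h
      exact ⟨k - l, by rw [hk, hl]; push_cast; ring⟩
  let HH : Sp ⊕ Sp → ℝ := Sum.elim (fun x => H1 x) (fun x => H2 x + 2 * m)
  have hHH : Continuous HH :=
    Continuous.sumElim (continuousOn_iff_continuous_domRestrict.1 hH1)
      ((continuousOn_iff_continuous_domRestrict.1 hH2).add continuous_const)
  have hcomp : ∀ p q : Sp ⊕ Sp, (F ∘ jj) p = (F ∘ jj) q → HH p = HH q := by
    have e11 : ∀ x y : V, x ∈ Sp → y ∈ Sp → f (i1 x) = f (i1 y) → H1 x = H1 y := by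
      intro x y hx hy h
      rcases f_inj h with h | h
      · have : x = y := congrArg Prod.fst h
        rw [this]
      · have : x = -y := congrArg Prod.fst h
        rw [this, hev1 y hy]
    have e22 : ∀ x y : V, x ∈ Sp → y ∈ Sp → f (i2 x) = f (i2 y) → H2 x = H2 y := by
      intro x y hx hy h
      rcases f_inj h with h | h
      · have : x = y := congrArg Prod.snd h
        rw [this]
      · have : x = -y := congrArg Prod.snd h
        rw [this, hev2 y hy]
    have e12' : ∀ x y : V, x ∈ Sp → y ∈ Sp → i1 x = i2 y → H1 x = H2 y + 2 * m := by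
      intro x y hx hy h
      obtain ⟨h1, rfl⟩ := inter hx h
      have h3 : H1 x = H1 e0 ∧ H2 x = H2 e0 := by
        rcases h1 with h1 | h1
        · rw [h1]; exact ⟨rfl, rfl⟩
        · rw [h1]; exact ⟨hev1 _ e0_mem, hev2 _ e0_mem⟩
      rw [h3.1, h3.2]
      linarith
    have e12 : ∀ x y : V, x ∈ Sp → y ∈ Sp → f (i1 x) = f (i2 y) → H1 x = H2 y + 2 * m := by
      intro x y hx hy h
      rcases f_inj h with h | h
      · exact e12' x y hx hy h
      · rw [← i2_neg] at h
        rw [e12' x (-y) hx (neg_Sp hy) h, hev2 y hy]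
    rintro (x | x) (y | y) h
    · exact e11 x y x.2 y.2 (congrArg Subtype.val h)
    · exact e12 x y x.2 y.2 (congrArg Subtype.val h)
    · exact (e12 y x y.2 x.2 (congrArg Subtype.val h).symm).symm
    · show H2 x + 2 * m = H2 y + 2 * m
      rw [e22 x y x.2 y.2 (congrArg Subtype.val h)]
  let h : YS → ℝ := fun w => HH (Function.surjInv quot_Fj.surjective w)
  have hh : ∀ p, h ((F ∘ jj) p) = HH p := fun p =>
    hcomp _ _ (Function.surjInv_eq quot_Fj.surjective _)
  have hhc : Continuous h := by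
    rw [quot_Fj.continuous_iff]
    have : h ∘ (F ∘ jj) = HH := funext hh
    rw [this]
    exact hHH
  have hhA : ∀ w ∈ A, ∃ k : ℤ, h w = g w + 2 * k := by
    intro w hw
    obtain ⟨p, rfl⟩ := quot_Fj.surjective w
    rw [hh]
    rcases p with x | x
    · exact hA1 x _ x.2 rfl hw
    · obtain ⟨k, hk⟩ := hA2 x _ x.2 rfl hw
      refine ⟨k + m, ?_⟩
      show H2 x + 2 * m = _
      rw [hk]
      push_cast
      ring
  have hhB : ∀ w ∈ B, ∃ k : ℤ, h w = - g w + 2 * k := by
    intro w hw
    obtain ⟨p, rfl⟩ := quot_Fj.surjective w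
    rw [hh]
    rcases p with x | x
    · exact hB1 x _ x.2 rfl hw
    · obtain ⟨k, hk⟩ := hB2 x _ x.2 rfl hw
      refine ⟨k + m, ?_⟩
      show H2 x + 2 * m = _
      rw [hk]
      push_cast
      ring
  have hgc : Continuous (fun w : YS => g w) := g.continuous.comp continuous_subtype_val
  have c1 : h a - g a = h b - g b := by
    refine Pool.Agent.Y62.CP.const_of_int (f := fun x : YS => h x - g x) hAc.isPreconnected
      (hhc.sub hgc).continuousOn ?_ ha.1 hb.1
    intro x hx
    obtain ⟨k, hk⟩ := hhA x hx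
    exact ⟨2 * k, by push_cast; linarith⟩
  have c2 : h a + g a = h b + g b := by
    refine Pool.Agent.Y62.CP.const_of_int (f := fun x : YS => h x + g x) hBc.isPreconnected
      (hhc.add hgc).continuousOn ?_ ha.2 hb.2
    intro x hx
    obtain ⟨k, hk⟩ := hhB x hx
    exact ⟨2 * k, by push_cast; linarith⟩
  rw [g0 a ⟨ha, haP⟩, g1 b ⟨hb, hbN⟩] at c1 c2
  linarith

/-- The negation of the preceding statement: If X is a locally connected metric continuum that is a union of two subcontinua with disconnected intersection, and f is a local homeomorphism of X onto a metric space Y, then Y is also such a union. -/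
theorem result :
    ¬ (∀ (X Y : Type) [MetricSpace X] [CompactSpace X] [ConnectedSpace X]
      [LocallyConnectedSpace X] [MetricSpace Y] (f : X → Y),
      IsLocalHomeomorph f → Function.Surjective f →
      (∃ A B : Set X, IsClosed A ∧ IsClosed B ∧ IsConnected A ∧ IsConnected B ∧
          A ∪ B = Set.univ ∧ ¬ IsConnected (A ∩ B)) →
      (∃ A B : Set Y, IsClosed A ∧ IsClosed B ∧ IsConnected A ∧ IsConnected B ∧
          A ∪ B = Set.univ ∧ ¬ IsConnected (A ∩ B))) := by
  intro H
  obtain ⟨A, B, hA, hB, hAc, hBc, hcov, hn⟩ := H XS YS F localHomeo_F surj_F not_unicoherent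
  exact hn (unicoherent hA hB hAc hBc hcov)

end Pool.Agent.S13710
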