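import Pool.Statements.S13885
-- import your own Pool.Agent.* helpers here

set_option autoImplicit false
open Pool Pool.MP_c36963_gt

namespace Pool.Agent.S13885

/-- There exists r : ℂ → ℂ mapping the closed unit disk into the unit circle, fixing the circle, with connected fibers in the disk, such that only finitely many circle points y fail: for all circle sequences s_n → y, every point of the Kuratowski lim sup of the fibers r⁻¹(s_n) lies in r⁻¹(y). -/
theorem result :
    ∃ r : ℂ → ℂ,
      (∀ z ∈ Metric.closedBall (0:ℂ) 1, r z ∈ Metric.sphere (0:ℂ) 1) ∧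
      (∀ y ∈ Metric.sphere (0:ℂ) 1, r y = y) ∧
      (∀ y ∈ Metric.sphere (0:ℂ) 1,
        IsConnected {z : ℂ | z ∈ Metric.closedBall (0:ℂ) 1 ∧ r z = y}) ∧
      Set.Finite {y : ℂ | y ∈ Metric.sphere (0:ℂ) 1 ∧
        ¬ (∀ s : ℕ → ℂ, (∀ n, s n ∈ Metric.sphere (0:ℂ) 1) →
            Filter.Tendsto s Filter.atTop (nhds y) →
            ∀ x : ℂ, (∀ ε : ℝ, ε > 0 → ∀ N : ℕ, ∃ n : ℕ, n ≥ N ∧
                ∃ z : ℂ, z ∈ Metric.closedBall (0:ℂ) 1 ∧ r z = s n ∧ dist z x < ε) →
              r x = y)} := by
  classical
  -- the identity on the circle, and the constant `1` elsewhere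
  refine ⟨fun z => if ‖z‖ = 1 then z else 1, ?_, ?_, ?_, ?_⟩
  · intro z _
    simp only [mem_sphere_zero_iff_norm]
    split_ifs with h
    · exact h
    · simp
  · intro y hy
    rw [mem_sphere_zero_iff_norm] at hy
    simp only [hy, if_true]
  · intro y hy
    rw [mem_sphere_zero_iff_norm] at hy
    by_cases hy1 : y = 1
    · -- the fibre over `1` is convex
      subst hy1
      have hset : {z : ℂ | z ∈ Metric.closedBall (0:ℂ) 1 ∧ (if ‖z‖ = 1 then z else 1) = 1} =
          {z : ℂ | ‖z‖ < 1 ∨ z = 1} := by
        ext z
        simp only [Set.mem_ofPred_eq, mem_closedBall_zero_iff]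
        constructor
        · rintro ⟨h1, h2⟩
          split_ifs at h2 with h3
          · exact Or.inr h2
          · exact Or.inl (lt_of_le_of_ne h1 h3)
        · rintro (h1 | h1)
          · refine ⟨h1.le, ?_⟩
            rw [if_neg h1.ne]
          · subst h1
            simp
      have hconv : Convex ℝ {z : ℂ | ‖z‖ < 1 ∨ z = 1} := by
        have hle : ∀ z ∈ {z : ℂ | ‖z‖ < 1 ∨ z = 1}, ‖z‖ ≤ 1 := by
          rintro z (h | h)
          · exact h.le
          · subst h; simp
        intro x hx z hz a b ha hb hab
        rcases ha.eq_or_lt with ha0 | ha0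
        · have hb1 : b = 1 := by linarith
          rw [← ha0, hb1]
          simpa using hz
        rcases hb.eq_or_lt with hb0 | hb0
        · have ha1 : a = 1 := by linarith
          rw [← hb0, ha1]
          simpa using hx
        have key : ‖a • x + b • z‖ ≤ a * ‖x‖ + b * ‖z‖ := by
          refine (norm_add_le _ _).trans ?_
          rw [norm_smul, norm_smul, Real.norm_of_nonneg ha, Real.norm_of_nonneg hb]
        have hxl := hle x hx
        have hzl := hle z hz
        rcases hx with hx | hx
        · left
          change ‖a • x + b • z‖ < 1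
          nlinarith
        · rcases hz with hz | hz
          · left
            change ‖a • x + b • z‖ < 1
            nlinarith
          · right
            rw [hx, hz]
            simp only [Complex.real_smul, mul_one]
            rw [← Complex.ofReal_add, hab, Complex.ofReal_one]
      rw [hset]
      exact ⟨⟨1, Or.inr rfl⟩, hconv.isPreconnected⟩
    · have hset : {z : ℂ | z ∈ Metric.closedBall (0:ℂ) 1 ∧ (if ‖z‖ = 1 then z else 1) = y} =
          {y} := by
        ext z
        simp only [Set.mem_ofPred_eq, mem_closedBall_zero_iff, Set.mem_singleton_iff]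
        constructor
        · rintro ⟨_, h2⟩
          split_ifs at h2 with h3
          · exact h2
          · exact absurd h2.symm hy1
        · intro h
          subst h
          exact ⟨hy.le, by rw [if_pos hy]⟩
      rw [hset]
      exact isConnected_singleton
  · refine (Set.finite_singleton (1 : ℂ)).subset ?_
    rintro y ⟨hy, hfail⟩
    by_contra hy1
    rw [Set.mem_singleton_iff] at hy1
    apply hfail
    intro s hs hlim x hx
    have hev : ∀ᶠ n in Filter.atTop, s n ≠ 1 := hlim.eventually_ne hy1
    obtain ⟨N, hN⟩ := Filter.eventually_atTop.1 hev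
    -- `x = y`
    have hxy : x = y := by
      by_contra hne
      have hd : 0 < dist x y := dist_pos.2 hne
      have h2 := (Metric.tendsto_atTop.1 hlim) (dist x y / 2) (by linarith)
      obtain ⟨N', hN'⟩ := h2
      obtain ⟨n, hn, z, _, hz, hzx⟩ := hx (dist x y / 2) (by linarith) (max N N')
      have hn1 : s n ≠ 1 := hN n (le_trans (le_max_left _ _) hn)
      have hn2 := hN' n (le_trans (le_max_right _ _) hn)
      have hzs : z = s n := by
        simp only at hz
        split_ifs at hz with h3
        · exact hz
        · exact absurd hz.symm hn1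
      rw [hzs] at hzx
      have := dist_triangle x (s n) y
      rw [dist_comm x (s n)] at this
      linarith
    rw [hxy]
    rw [mem_sphere_zero_iff_norm] at hy
    simp only [hy, if_true]

end Pool.Agent.S13885
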