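import Pool.Statements.S14076
import Pool.Agent.Helper906_Exp.Circ

set_option autoImplicit false
open Pool Pool.MP_dc63d3_gt

namespace Pool.Agent.S14076

/-- The negation of the preceding statement: For every real Hilbert space there is a constant C such that, for each n ≥ 2, some retraction from nonempty subsets of at most n points onto those of at most n−1 points is C-Lipschitz for the Hausdorff distance. -/
theorem result :
    ¬ (∀ (H : Type) [NormedAddCommGroup H] [InnerProductSpace ℝ H] [CompleteSpace H],
      ∃ C : ℝ, ∀ n : ℕ, 2 ≤ n →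
        ∃ r : Finset H → Finset H,
          (∀ s : Finset H, s.Nonempty → s.card ≤ n →
              (r s).Nonempty ∧ (r s).card ≤ n - 1) ∧
          (∀ s : Finset H, s.Nonempty → s.card ≤ n - 1 → r s = s) ∧
          (∀ s t : Finset H, s.Nonempty → s.card ≤ n → t.Nonempty → t.card ≤ n →
              Metric.hausdorffDist ((r s : Finset H) : Set H) ((r t : Finset H) : Set H)
                ≤ C * Metric.hausdorffDist ((s : Finset H) : Set H) ((t : Finset H) : Set H))) := by
  intro hall
  obtain ⟨C, hC⟩ := hall ℂ
  obtain ⟨N, hN⟩ := exists_nat_gt (4 * Real.pi * (|C| + 1))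
  have hpi := Real.pi_pos
  have hC1 : 0 < |C| + 1 := by positivity
  obtain ⟨r, h1, h2, h3⟩ := hC (2 * N + 1 + 2) (by omega)
  refine Pool.Agent.Helper906Exp.main (2 * N + 1) ⟨N + 1, by ring⟩ (|C| + 1) hC1 ?_ r ?_ ?_ ?_
  · refine hN.trans_le ?_
    push_cast
    have : (0 : ℝ) ≤ N := Nat.cast_nonneg N
    linarith
  · intro s hs hc
    exact h1 s hs hc
  · intro s hs hc
    exact h2 s hs hc
  · intro s t hs hsc ht htc
    refine (h3 s t hs hsc ht htc).trans ?_
    apply mul_le_mul_of_nonneg_right _ Metric.hausdorffDist_nonneg
    have := le_abs_self C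
    linarith

end Pool.Agent.S14076
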