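import Pool.Statements.S14177
import Pool.Agent.helper440_simplex.FinalExact

set_option autoImplicit false
open Pool Pool.MP_edb112_gt

namespace Pool.Agent.S14177

/-- For every t≥2 and ε>0 there is k₀ such that for k>k₀, every measurable A on the unit sphere S^k of normalized measure >ε and every cap C of equal measure, the sup over t points of A of the minimum pairwise distance is at least that for C. -/
theorem result :
    ∀ t : ℕ, 2 ≤ t → ∀ ε : ℝ, 0 < ε → ∃ k₀ : ℕ, ∀ k : ℕ, k₀ < k →
      ∀ A : Set (Metric.sphere (0 : EuclideanSpace ℝ (Fin (k + 1))) 1), MeasurableSet A →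
      ∀ v : EuclideanSpace ℝ (Fin (k + 1)), ‖v‖ = 1 → ∀ c : ℝ,
        (MeasureTheory.volume : MeasureTheory.Measure (EuclideanSpace ℝ (Fin (k + 1)))).toSphere A
          = (MeasureTheory.volume : MeasureTheory.Measure (EuclideanSpace ℝ (Fin (k + 1)))).toSphere
              {x | c ≤ inner ℝ (x : EuclideanSpace ℝ (Fin (k + 1))) v} →
        ENNReal.ofReal ε *
            (MeasureTheory.volume : MeasureTheory.Measure (EuclideanSpace ℝ (Fin (k + 1)))).toSphere Set.univ
          < (MeasureTheory.volume : MeasureTheory.Measure (EuclideanSpace ℝ (Fin (k + 1)))).toSphere A →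
        ∀ r : ℝ,
          (∃ x : Fin t → Metric.sphere (0 : EuclideanSpace ℝ (Fin (k + 1))) 1,
              (∀ i, c ≤ inner ℝ (x i : EuclideanSpace ℝ (Fin (k + 1))) v) ∧
              ∀ i j, i ≠ j → r ≤ dist (x i) (x j)) →
          ∀ s : ℝ, s < r →
            ∃ y : Fin t → Metric.sphere (0 : EuclideanSpace ℝ (Fin (k + 1))) 1,
              (∀ i, y i ∈ A) ∧ ∀ i j, i ≠ j → s < dist (y i) (y j) :=
  Pool.Agent.helper440_simplex.exact_main

end Pool.Agent.S14177
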