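import Pool.Statements.S14257
import Pool.Agent.Helper826_Cong.Solve
import Pool.Agent.Helper826_Cong.Group

set_option autoImplicit false
open Pool Pool.MP_f7c3cd_gt

namespace Pool.Agent.S14257

/-- Every proper system of at most continuum many congruences among at most continuum many (nonempty index set) sets has a solution: a partition of the hyperbolic plane where each congruence holds via some hyperbolic isometry. -/
theorem result :
    ∀ (I M : Type) (L R : M → Set I),
      Nonempty I →
      Cardinal.mk I ≤ Cardinal.continuum →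
      Cardinal.mk M ≤ Cardinal.continuum →
      (∀ i, (L i).Nonempty ∧ L i ≠ Set.univ ∧ (R i).Nonempty ∧ R i ≠ Set.univ) →
      ∃ A : I → Set UpperHalfPlane,
        Pairwise (fun j k => Disjoint (A j) (A k)) ∧
        (⋃ j, A j) = Set.univ ∧
        ∀ i, ∃ g : IsometryEquiv UpperHalfPlane UpperHalfPlane,
          g '' (⋃ j ∈ L i, A j) = ⋃ j ∈ R i, A j := by
  classical
  intro I M L R hI _ hM hLR
  obtain ⟨j₀⟩ := hI
  obtain ⟨G, hcomm, hpar⟩ := Helper826.Cong.exists_isometries M hM
    (fun i => if (j₀ ∈ L i ↔ j₀ ∈ R i) then 1 else -1)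
  obtain ⟨f, hf⟩ := Helper826.Cong.exists_labelling hcomm
    (fun i => if (j₀ ∈ L i ↔ j₀ ∈ R i) then 1 else -1)
    (fun x w _ _ hw => hpar x w hw) L R (fun i => (hLR i).1) (fun i => (hLR i).2.1)
    (fun i => (hLR i).2.2.1) (fun i => (hLR i).2.2.2) j₀ (by
      intro i
      by_cases h : (j₀ ∈ L i ↔ j₀ ∈ R i) <;> simp [h])
  refine ⟨fun j => f ⁻¹' {j}, ?_, ?_, ?_⟩
  · intro j k hjk
    exact Disjoint.preimage f (Set.disjoint_singleton.mpr hjk)
  · ext x
    simp
  · intro i
    have hiso : Isometry (MulAction.toPerm (G i) : Equiv.Perm UpperHalfPlane) :=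
      Helper826.Cong.isometry_gl (G i)
    refine ⟨⟨(MulAction.toPerm (G i) : Equiv.Perm UpperHalfPlane), hiso⟩, ?_⟩
    have hL : (⋃ j ∈ L i, f ⁻¹' {j}) = {x | f x ∈ L i} := by
      ext x
      simp
    have hR : (⋃ j ∈ R i, f ⁻¹' {j}) = {x | f x ∈ R i} := by
      ext x
      simp
    rw [hL, hR]
    ext y
    constructor
    · rintro ⟨x, hx, rfl⟩
      exact (hf i x).mp hx
    · intro hy
      refine ⟨(MulAction.toPerm (G i) : Equiv.Perm UpperHalfPlane).symm y, ?_, ?_⟩
      · have := (hf i ((MulAction.toPerm (G i) : Equiv.Perm UpperHalfPlane).symm y)).mpr (by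
          rw [Equiv.apply_symm_apply]
          exact hy)
        exact this
      · exact Equiv.apply_symm_apply _ y

end Pool.Agent.S14257
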