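import Pool.Statements.S14562
import Pool.Agent.H763_sn.Sentence

set_option autoImplicit false
open Pool Pool.MP_34c6af_lc

namespace Pool.Agent.S14562

/-- The negation of the preceding statement: For every sentence of continuous logic for length groups (word-length atoms, continuous connectives, sup/inf quantifiers), its values in the symmetric groups S_n with normalized Hamming length converge as n tends to infinity. -/
theorem result :
    ¬ (∀ φ : (n : ℕ) → (Fin 0 → Equiv.Perm (Fin n)) → ℝ,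
      (∀ P : (k : ℕ) → Set ((n : ℕ) → (Fin k → Equiv.Perm (Fin n)) → ℝ),
        (∀ (k : ℕ) (w : FreeGroup (Fin k)),
          (fun (n : ℕ) (x : Fin k → Equiv.Perm (Fin n)) =>
            (((FreeGroup.lift x) w).support.card : ℝ) / (n : ℝ)) ∈ P k) →
        (∀ (k m : ℕ) (c : (Fin m → ℝ) → ℝ)
            (ψ : Fin m → ((n : ℕ) → (Fin k → Equiv.Perm (Fin n)) → ℝ)),
          Continuous c → (∀ j, ψ j ∈ P k) →
          (fun (n : ℕ) (x : Fin k → Equiv.Perm (Fin n)) => c (fun j => ψ j n x)) ∈ P k) →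
        (∀ (k : ℕ) (ψ : (n : ℕ) → (Fin (k + 1) → Equiv.Perm (Fin n)) → ℝ),
          ψ ∈ P (k + 1) →
          (fun (n : ℕ) (x : Fin k → Equiv.Perm (Fin n)) =>
            ⨆ g : Equiv.Perm (Fin n),
              ψ n (Fin.snoc (α := fun _ => Equiv.Perm (Fin n)) x g)) ∈ P k) →
        (∀ (k : ℕ) (ψ : (n : ℕ) → (Fin (k + 1) → Equiv.Perm (Fin n)) → ℝ),
          ψ ∈ P (k + 1) →
          (fun (n : ℕ) (x : Fin k → Equiv.Perm (Fin n)) =>
            ⨅ g : Equiv.Perm (Fin n),
              ψ n (Fin.snoc (α := fun _ => Equiv.Perm (Fin n)) x g)) ∈ P k) →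
        φ ∈ P 0) →
      ∃ L : ℝ, Filter.Tendsto (fun n : ℕ => φ n Fin.elim0) Filter.atTop (nhds L)) := by
  intro h
  apply H763sn.phi_diverges
  apply h
  intro P hatom hconn hsup hinf
  have key : ∀ (k : ℕ) (ψ : H763sn.Fm k), H763sn.IsF k ψ → ψ ∈ P k := by
    intro k ψ hψ
    induction hψ with
    | atom k w => exact hatom k w
    | conn k m c ψ hc _ ih => exact hconn k m c ψ hc ih
    | sup k ψ _ ih => exact hsup k ψ ih
    | inf k ψ _ ih => exact hinf k ψ ih
  exact key 0 _ H763sn.isF_phi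

end Pool.Agent.S14562
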