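import Pool.Statements.S14568
import Pool.Agent.Helper206.Planar

set_option autoImplicit false
open Classical
open Pool Pool.MP_354b3e_lc

namespace Pool.Agent.S14568

/-- The negation of the preceding statement: For every noncomputable A Turing-below the halting set there is a computable, locally finite, planar graph on ℕ whose neighbour lists are A-computable, with chromatic number 2, but with no computable proper colouring using finitely many colours. -/
theorem result :
    ¬ (∀ A : Set ℕ,
      ¬ ComputablePred (fun n : ℕ => n ∈ A) →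
      TuringReducible (fun n : ℕ => Part.some (if n ∈ A then (1 : ℕ) else 0))
        (fun n : ℕ => Part.some
          (if ((Denumerable.ofNat Nat.Partrec.Code n).eval n).Dom then (1 : ℕ) else 0)) →
      ∃ G : SimpleGraph ℕ,
        ComputablePred (fun p : ℕ × ℕ => G.Adj p.1 p.2) ∧
        (∃ N : ℕ → Finset ℕ, (∀ x y : ℕ, G.Adj x y ↔ y ∈ N x) ∧
          TuringReducible (fun x : ℕ => Part.some (Encodable.encode (N x)))
            (fun n : ℕ => Part.some (if n ∈ A then (1 : ℕ) else 0))) ∧
        (∃ f : ℕ → EuclideanSpace ℝ (Fin 2), Function.Injective f ∧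
          ∃ γ : ∀ u v : ℕ, Path (f u) (f v),
            (∀ u v : ℕ, G.Adj u v → Function.Injective (fun t : unitInterval => γ u v t)) ∧
            (∀ u v w : ℕ, G.Adj u v → ∀ t : unitInterval, γ u v t = f w → w = u ∨ w = v) ∧
            (∀ u v u' v' : ℕ, G.Adj u v → G.Adj u' v' →
              Sym2.mk (u, v) ≠ Sym2.mk (u', v') →
              ∀ t t' : unitInterval, γ u v t = γ u' v' t' →
                ∃ w : ℕ, (w = u ∨ w = v) ∧ (w = u' ∨ w = v') ∧ γ u v t = f w)) ∧
        G.chromaticNumber = 2 ∧
        ∀ k : ℕ, ∀ c : ℕ → ℕ, Computable c → (∀ x, c x < k) →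
          ∃ x y : ℕ, G.Adj x y ∧ c x = c y) := by
  intro H
  obtain ⟨A, hAK, hgen⟩ := Pool.Agent.Helper206.Gen.exists_generic
  have hnc := Pool.Agent.Helper206.Planar.generic_not_computable A hgen
  obtain ⟨S, hS⟩ : ∃ S : Set ℕ, ∀ n, n ∈ S ↔ A n = true := ⟨{n | A n = true}, fun n => Iff.rfl⟩
  have hfun : (fun n : ℕ => Part.some (if n ∈ S then (1 : ℕ) else 0)) =
      ((fun n => (A n).toNat : ℕ → ℕ) : ℕ →. ℕ) := by
    funext n
    show Part.some (if n ∈ S then (1 : ℕ) else 0) = Part.some ((A n).toNat)
    by_cases h : A n = true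
    · rw [if_pos ((hS n).2 h), h]
      rfl
    · rw [if_neg (fun h' => h ((hS n).1 h')), Bool.eq_false_of_not_eq_true h]
      rfl
  have h1 : ¬ ComputablePred (fun n : ℕ => n ∈ S) := by
    rintro ⟨inst, hc⟩
    apply hnc
    refine hc.of_eq fun n => ?_
    by_cases h : A n = true
    · rw [h, decide_eq_true_iff]
      exact (hS n).2 h
    · rw [Bool.eq_false_of_not_eq_true h, decide_eq_false_iff_not]
      exact fun h' => h ((hS n).1 h')
  have h2 : TuringReducible (fun n : ℕ => Part.some (if n ∈ S then (1 : ℕ) else 0))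
      (fun n : ℕ => Part.some
        (if ((Denumerable.ofNat Nat.Partrec.Code n).eval n).Dom then (1 : ℕ) else 0)) := by
    have h3 := Pool.Agent.Helper743.TR_iff.1 hAK
    rw [← hfun] at h3
    exact h3
  obtain ⟨G, ⟨inst, hG⟩, ⟨N, hN, hNA⟩, -, hχ, hno⟩ := H S h1 h2
  -- the adjacency as a Boolean function
  let b : ℕ → ℕ → Bool := fun x y => decide (G.Adj x y)
  have hb : Computable₂ b := by
    refine Computable.of_eq hG fun p => ?_
    simp only [b]
    congr
  have hbG : ∀ x y, b x y = true ↔ G.Adj x y := fun x y => decide_eq_true_iff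
  have hNb : ∀ x y, G.Adj x y → y ≤ Encodable.encode (N x) := fun x y hxy =>
    Pool.Agent.Helper206.Planar.le_encode_finset (N x) y ((hN x y).1 hxy)
  have hNA2 : Pool.Agent.Helper743.TR (fun x => Encodable.encode (N x))
      (fun n => (A n).toNat) := by
    refine Pool.Agent.Helper743.TR_iff.2 ?_
    rw [← hfun]
    exact hNA
  obtain ⟨h, hh, hbd⟩ := Pool.Agent.Helper206.Planar.computable_bound A hgen G b hb hbG _ hNb hNA2
  have hcol : ∃ f : ℕ → Bool, ∀ x y, G.Adj x y → f x ≠ f y := by
    have h3 : G.Colorable 2 := by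
      rw [← SimpleGraph.chromaticNumber_le_iff_colorable, hχ]
      rfl
    obtain ⟨C⟩ := h3
    refine ⟨fun x => decide (C x = 0), fun x y hxy heq => C.valid hxy ?_⟩
    simp only at heq
    have h4 : (C x = 0) ↔ (C y = 0) := by simpa using heq
    revert h4
    generalize C x = u
    generalize C y = v
    revert u v
    decide
  obtain ⟨c, hc, hc4, hcp⟩ := Pool.Agent.Helper206.Planar.four_colouring G b hb hbG h hh hbd hcol
  obtain ⟨x, y, hxy, hcxy⟩ := hno 4 c hc hc4
  exact hcp x y hxy hcxy

end Pool.Agent.S14568
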