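import Pool.Statements.S14583
import Pool.Agent.Helper726_LocalInv.Main

set_option autoImplicit false
open FirstOrder FirstOrder.Language
open Pool Pool.MP_394364_lc

namespace Pool.Agent.S14583

/-- If Th(M) is NIP, N realizes all types over M, and tp(a/N) is M-invariant, then for each formula φ(x;y) some finite set Δ' of formulas over M makes φ(a;b)↔φ(a;b') whenever b,b' in N have the same Δ'-type over M. -/
theorem result :
  ∀ (L : FirstOrder.Language.{0, 0}) (M : Type) [L.Structure M] [Nonempty M],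
    (∀ (n m : ℕ) (φ : L.Formula (Fin n ⊕ Fin m)), ∃ K : ℕ, ∀ a : Fin K → Fin n → M,
        ¬ ∀ J : Finset (Fin K), ∃ b : Fin m → M, ∀ i : Fin K,
          (φ.Realize (Sum.elim (a i) b) ↔ i ∈ J)) →
    ∀ (N : Type) [L.Structure N] (f : M ↪ₑ[L] N),
      (∀ (m : ℕ) (M' : Type) [L.Structure M'] (h : M ↪ₑ[L] M') (d : Fin m → M'),
        ∃ b : Fin m → N, ∀ (k : ℕ) (ψ : L.Formula (Fin m ⊕ Fin k)) (c : Fin k → M),
          (ψ.Realize (Sum.elim d (fun i => h (c i))) ↔
            ψ.Realize (Sum.elim b (fun i => f (c i))))) →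
    ∀ (N' : Type) [L.Structure N'] (g : N ↪ₑ[L] N') (n : ℕ) (a : Fin n → N'),
      (∀ (m : ℕ) (φ : L.Formula (Fin n ⊕ Fin m)) (b b' : Fin m → N),
        (∀ (k : ℕ) (ψ : L.Formula (Fin m ⊕ Fin k)) (c : Fin k → M),
          (ψ.Realize (Sum.elim b (fun i => f (c i))) ↔
            ψ.Realize (Sum.elim b' (fun i => f (c i))))) →
        (φ.Realize (Sum.elim a (fun i => g (b i))) ↔
          φ.Realize (Sum.elim a (fun i => g (b' i))))) →
    ∀ (m : ℕ) (φ : L.Formula (Fin n ⊕ Fin m)),
      ∃ (k : ℕ) (Δ' : Finset (L.Formula (Fin m ⊕ Fin k))),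
        ∀ b b' : Fin m → N,
          (∀ ψ ∈ Δ', ∀ c : Fin k → M,
            (ψ.Realize (Sum.elim b (fun i => f (c i))) ↔
              ψ.Realize (Sum.elim b' (fun i => f (c i))))) →
          (φ.Realize (Sum.elim a (fun i => g (b i))) ↔
            φ.Realize (Sum.elim a (fun i => g (b' i)))) := by
  intro L M _ _ hNIP N _ f HN N' _ g n a hinv m φ
  classical
  have hcons : ∀ (K : ℕ) (w : Fin K → Fin m → N), ∃ x : Fin n → N, ∀ i,
      (φ.Realize (Sum.elim x (w i)) ↔ φ.Realize (Sum.elim a (fun j => g (w i j)))) := by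
    intro K w
    have hd : Helper726LI.Mdef g {x : Fin n → N' | ∀ i : Fin K,
        x ∈ {x : Fin n → N' | x ∈ {x : Fin n → N' | φ.Realize (fun z => Sum.elim x g
          ((Sum.elim Sum.inl (fun j => Sum.inr (w i j)) : Fin n ⊕ Fin m → Fin n ⊕ N) z))} ↔
            φ.Realize (Sum.elim a (fun j => g (w i j)))}} :=
      Helper726LI.Mdef.all fun i => (Helper726LI.Mdef.formula g φ _).iff_const _
    have key : ∀ (x : Fin n → N') (i : Fin K), (fun z => Sum.elim x g
          ((Sum.elim Sum.inl (fun j => Sum.inr (w i j)) : Fin n ⊕ Fin m → Fin n ⊕ N) z)) =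
          Sum.elim x (fun j => g (w i j)) := by
      intro x i
      funext z
      rcases z with z | z <;> rfl
    obtain ⟨x, hx⟩ := hd.point (v₀ := a) (by
      intro i
      simp only [Set.mem_ofPred_eq, key])
    refine ⟨x, fun i => ?_⟩
    have h1 := hx i
    simp only [Set.mem_ofPred_eq, key] at h1
    rw [← h1, ← g.map_formula]
    have : ⇑g ∘ Sum.elim x (w i) = Sum.elim (fun x_1 => g (x x_1)) fun j => g (w i j) := by
      funext z
      rcases z with z | z <;> rfl
    rw [this]
  obtain ⟨Λ, Z, hΛ, hZ, ψ, hψ⟩ := Helper726LI.main_local (f := f) hNIP HN φ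
    (fun b => φ.Realize (Sum.elim a (fun i => g (b i))))
    (fun b b' h => hinv m φ b b' (fun k ψ c => h.fin k ψ c)) hcons
  obtain ⟨k, ⟨e⟩⟩ := Finite.exists_equiv_fin Z
  have := Fintype.ofFinite Λ
  refine ⟨k, Finset.univ.image (fun l => (ψ l).relabel (Sum.map id e)), fun b b' h => ?_⟩
  apply hψ b b'
  intro l z
  have h1 := h _ (Finset.mem_image_of_mem _ (Finset.mem_univ l)) (fun i => z (e.symm i))
  rw [Formula.realize_relabel, Formula.realize_relabel] at h1
  have key : ∀ b : Fin m → N, (Sum.elim b fun i => f (z (e.symm i))) ∘ Sum.map id e =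
      Sum.elim b (fun i => f (z i)) := by
    intro b
    funext x
    rcases x with x | x
    · rfl
    · simp
  rw [key, key] at h1
  exact h1

end Pool.Agent.S14583
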