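import Pool.Statements.S14612
import Pool.Agent.Helper446.Comp

set_option autoImplicit false
open Pool Pool.MP_3c695a_lc

/-!
A family of c.e. sets with a positive computable numbering which has no one-to-one numbering at
the level of the d.c.e. sets (so `n = 0`).

For every `e` let `a_e = 3 e`, `x_e = 3 e + 1`, `y_e = 3 e + 2`. A possible one-to-one numbering
`μ` with `μ k = {y : R_0 (k, y) and not R_1 (k, y)}` is coded by a number `e`. Put

* `C e`: there are `k ≠ k'` with `R_0 (k, a_e)` and `R_0 (k', a_e)`;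
* `Z e`: there is `k` with `R_1 (k, a_e)` (the number `a_e` is withdrawn from `μ k`).

The sets of the family are `{a_e, x_e}` and `{a_e, y_e}`, both replaced by `{a_e, x_e, y_e}` when
`C e` holds, and all together with all the `a_i` with `Z i`.

If `Z e` holds, then all the sets of the family contain `a_e`, but some `μ k` does not. If `Z e`
fails, then `a_e ∈ μ k` if and only if `R_0 (k, a_e)`, and the sets of the family which contain `a_e`
are the two sets with number `e`; if `C e` fails, these are different and so have different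
`μ`-indices, so `C e` holds; and if `C e` holds, these are equal, but they have different `μ`-indices.
-/

namespace Pool.Agent.S14612

open Pool.Agent.Helper446 Pool.Agent.Helper446.RE

def W (e : ℕ) (p : ℕ × ℕ) : Prop := ∃ s, wst (ℕ × ℕ) e s p = true

def Z (e : ℕ) : Prop := ∃ k, W e.unpair.2 (k, 3 * e)

def C (e : ℕ) : Prop :=
  ∃ t : ℕ × ℕ, t.1 ≠ t.2 ∧ W e.unpair.1 (t.1, 3 * e) ∧ W e.unpair.1 (t.2, 3 * e)

def ν (j : ℕ) : Set ℕ :=
  {y | (y / 3 = j / 2 ∧ (y % 3 = 0 ∨ y % 3 = 1 + j % 2 ∨ C (j / 2))) ∨ (y % 3 = 0 ∧ Z (y / 3))}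

theorem W_re : REPred fun x : ℕ × (ℕ × ℕ) => W x.1 x.2 := by
  refine exN (p := fun (x : ℕ × (ℕ × ℕ)) s => wst (ℕ × ℕ) x.1 s x.2 = true) (of_bool ?_)
  exact wst_comp.comp (f := fun p : (ℕ × ℕ) × (ℕ × ℕ) => wst (ℕ × ℕ) p.1.1 p.1.2 p.2)
    (g := fun x : (ℕ × (ℕ × ℕ)) × ℕ => ((x.1.1, x.2), x.1.2)) (by fun_prop)

theorem Z_re : REPred Z := by
  refine exN (p := fun e k => W e.unpair.2 (k, 3 * e)) ?_
  exact comp (f := fun x : ℕ × ℕ => (x.1.unpair.2, (x.2, 3 * x.1))) W_re (by fun_prop)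

theorem C_re : REPred C := by
  refine ex (p := fun e (t : ℕ × ℕ) => t.1 ≠ t.2 ∧ W e.unpair.1 (t.1, 3 * e) ∧
    W e.unpair.1 (t.2, 3 * e)) ?_
  refine RE.and (ne (by fun_prop) (by fun_prop)) (RE.and ?_ ?_)
  · exact comp (f := fun x : ℕ × (ℕ × ℕ) => (x.1.unpair.1, (x.2.1, 3 * x.1))) W_re (by fun_prop)
  · exact comp (f := fun x : ℕ × (ℕ × ℕ) => (x.1.unpair.1, (x.2.2, 3 * x.1))) W_re (by fun_prop)

theorem cdiv {α : Type} [Primcodable α] {f g : α → ℕ} (hf : Computable f) (hg : Computable g) :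
    Computable (fun x => f x / g x) := Primrec.nat_div.to_comp.comp hf hg

theorem cmod {α : Type} [Primcodable α] {f g : α → ℕ} (hf : Computable f) (hg : Computable g) :
    Computable (fun x => f x % g x) := Primrec.nat_mod.to_comp.comp hf hg

theorem mem_re : REPred fun p : ℕ × ℕ => p.2 ∈ ν p.1 := by
  have a1 : Computable fun p : ℕ × ℕ => p.2 / 3 := cdiv (by fun_prop) (by fun_prop)
  have a2 : Computable fun p : ℕ × ℕ => p.1 / 2 := cdiv (by fun_prop) (by fun_prop)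
  have a3 : Computable fun p : ℕ × ℕ => p.2 % 3 := cmod (by fun_prop) (by fun_prop)
  have a4 : Computable fun p : ℕ × ℕ => 1 + p.1 % 2 :=
    cadd (by fun_prop) (cmod (by fun_prop) (by fun_prop))
  have b3 : REPred fun p : ℕ × ℕ => p.2 % 3 = 0 := RE.eq a3 (by fun_prop)
  exact RE.or (RE.and (RE.eq a1 a2) (RE.or b3 (RE.or (RE.eq a3 a4) (comp C_re a2))))
    (RE.and b3 (comp Z_re a1))

theorem ν_eq_iff (i j : ℕ) : ν i = ν j ↔ i = j ∨ (i / 2 = j / 2 ∧ C (i / 2)) := by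
  constructor
  · intro h
    have h1 : 3 * (i / 2) + 1 + i % 2 ∈ ν i := by
      left
      refine ⟨by omega, Or.inr (Or.inl (by omega))⟩
    rw [h] at h1
    rcases h1 with ⟨h2, h3⟩ | ⟨h2, h3⟩
    · have h4 : i / 2 = j / 2 := by omega
      rcases h3 with h3 | h3 | h3
      · omega
      · left; omega
      · right; exact ⟨h4, by rw [h4]; exact h3⟩
    · omega
  · rintro (rfl | ⟨h1, h2⟩)
    · rfl
    · ext y
      simp only [ν, Set.mem_ofPred_eq, ← h1]
      constructor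
      · rintro (⟨h3, -⟩ | h3)
        · exact Or.inl ⟨h3, Or.inr (Or.inr h2)⟩
        · exact Or.inr h3
      · rintro (⟨h3, -⟩ | h3)
        · exact Or.inl ⟨h3, Or.inr (Or.inr h2)⟩
        · exact Or.inr h3

theorem ker_re : REPred fun p : ℕ × ℕ => ν p.1 = ν p.2 := by
  have a1 : Computable fun p : ℕ × ℕ => p.1 / 2 := cdiv (by fun_prop) (by fun_prop)
  have a2 : Computable fun p : ℕ × ℕ => p.2 / 2 := cdiv (by fun_prop) (by fun_prop)
  have h : REPred fun p : ℕ × ℕ => p.1 = p.2 ∨ (p.1 / 2 = p.2 / 2 ∧ C (p.1 / 2)) :=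
    RE.or (RE.eq (by fun_prop) (by fun_prop)) (RE.and (RE.eq a1 a2) (comp C_re a1))
  exact h.of_eq fun p => (ν_eq_iff p.1 p.2).symm

theorem card_one (R : ℕ → Prop) (h : ¬ R 1) :
    R 0 ↔ Odd (Nat.card {i : Fin (0 + 2) // R i.val}) := by
  classical
  rw [Nat.card_eq_fintype_card, Fintype.card_subtype]
  by_cases h0 : R 0
  · have : (Finset.univ.filter fun i : Fin (0 + 2) => R i.val) = {0} := by
      ext i
      fin_cases i <;> simp [h0, h]
    rw [this]
    simp [h0]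
  · have : (Finset.univ.filter fun i : Fin (0 + 2) => R i.val) = ∅ := by
      ext i
      fin_cases i <;> simp [h0, h]
    rw [this]
    simp [h0]

theorem card_two (R : ℕ → Prop) (h0 : R 0) (h1 : R 1) :
    ¬ Odd (Nat.card {i : Fin (0 + 2) // R i.val}) := by
  classical
  rw [Nat.card_eq_fintype_card, Fintype.card_subtype]
  have : (Finset.univ.filter fun i : Fin (0 + 2) => R i.val) = Finset.univ := by
    ext i
    fin_cases i <;> simp [h0, h1]
  rw [this]
  decide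

theorem no_inj (μ : ℕ → Set ℕ) (hrange : Set.range μ = Set.range ν) (hinj : Function.Injective μ)
    (R : ℕ → ℕ × ℕ → Prop) (hR : ∀ i, REPred (R i))
    (hmono : ∀ i j : ℕ, ∀ p : ℕ × ℕ, i ≤ j → R j p → R i p)
    (hmem : ∀ p : ℕ × ℕ, (p.2 ∈ μ p.1 ↔ Odd (Nat.card {i : Fin (0 + 2) // R i.val p}))) :
    False := by
  obtain ⟨e0, he0⟩ := wst_univ (hR 0)
  obtain ⟨e1, he1⟩ := wst_univ (hR 1)
  obtain ⟨e, hu⟩ : ∃ e : ℕ, e.unpair = (e0, e1) := ⟨Nat.pair e0 e1, by simp⟩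
  have hW0 : ∀ p, R 0 p ↔ W e.unpair.1 p := by rw [hu]; exact he0
  have hW1 : ∀ p, R 1 p ↔ W e.unpair.2 p := by rw [hu]; exact he1
  by_cases hZ : Z e
  · obtain ⟨k, hk⟩ := hZ
    have h1 : R 1 (k, 3 * e) := (hW1 _).2 hk
    have h2 : (3 * e) ∉ μ k := fun h =>
      card_two (fun i => R i (k, 3 * e)) (hmono 0 1 _ (by omega) h1) h1 ((hmem (k, 3 * e)).1 h)
    have h3 : μ k ∈ Set.range ν := by rw [← hrange]; exact ⟨k, rfl⟩
    obtain ⟨j, hj⟩ := h3
    apply h2
    rw [← hj]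
    right
    refine ⟨by omega, ?_⟩
    have : 3 * e / 3 = e := by omega
    rw [this]
    exact ⟨k, hk⟩
  · have h1 : ∀ k, ¬ R 1 (k, 3 * e) := fun k hk => hZ ⟨k, (hW1 _).1 hk⟩
    have h2 : ∀ k, 3 * e ∈ μ k ↔ R 0 (k, 3 * e) := fun k =>
      (hmem (k, 3 * e)).trans (card_one (fun i => R i (k, 3 * e)) (h1 k)).symm
    have e3 : 3 * e / 3 = e := by omega
    have h3 : ∀ j, 3 * e ∈ ν j ↔ j / 2 = e := by
      intro j
      simp only [ν, Set.mem_ofPred_eq, e3]
      constructor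
      · rintro (⟨h, -⟩ | ⟨-, h⟩)
        · exact h.symm
        · exact absurd h hZ
      · intro h
        exact Or.inl ⟨h.symm, Or.inl (by omega)⟩
    have hC : C e := by
      by_contra hC
      obtain ⟨k, hk⟩ : ν (2 * e) ∈ Set.range μ := by rw [hrange]; exact ⟨_, rfl⟩
      obtain ⟨k', hk'⟩ : ν (2 * e + 1) ∈ Set.range μ := by rw [hrange]; exact ⟨_, rfl⟩
      refine hC ⟨(k, k'), ?_, ?_, ?_⟩
      · intro hkk
        simp only at hkk
        rw [← hkk, hk] at hk'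
        rcases (ν_eq_iff _ _).1 hk' with h | ⟨-, h⟩
        · omega
        · exact hC (by rwa [show 2 * e / 2 = e by omega] at h)
      · rw [← hW0, ← h2, hk, h3]; omega
      · rw [← hW0, ← h2, hk', h3]; omega
    obtain ⟨⟨k, k'⟩, hne, hk, hk'⟩ := id hC
    simp only at hne hk hk'
    rw [← hW0, ← h2] at hk hk'
    obtain ⟨j, hj⟩ : μ k ∈ Set.range ν := by rw [← hrange]; exact ⟨_, rfl⟩
    obtain ⟨j', hj'⟩ : μ k' ∈ Set.range ν := by rw [← hrange]; exact ⟨_, rfl⟩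
    rw [← hj, h3] at hk
    rw [← hj', h3] at hk'
    apply hne
    apply hinj
    rw [← hj, ← hj', ν_eq_iff]
    exact Or.inr ⟨by omega, by rw [hk]; exact hC⟩

theorem inf : (Set.range ν).Infinite := by
  have h : Function.Injective fun e : ℕ => ν (2 * e) := by
    intro e e' h
    simp only at h
    rcases (ν_eq_iff _ _).1 h with h | ⟨h, -⟩ <;> omega
  exact (Set.infinite_range_of_injective h).mono (by rintro _ ⟨e, rfl⟩; exact ⟨_, rfl⟩)

/-- The negation of the preceding statement: For every n, every infinite family of sets of naturals with a positive numbering whose membership relation is (n+2)-c.e. also has an injective numbering whose membership relation is (n+2)-c.e. -/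
theorem result :
    ¬ (∀ n : ℕ, ∀ 𝒜 : Set (Set ℕ), 𝒜.Infinite →
    (∃ ν : ℕ → Set ℕ, Set.range ν = 𝒜 ∧
      (∃ R : ℕ → ℕ × ℕ → Prop, (∀ i, REPred (R i)) ∧
        (∀ i j : ℕ, ∀ p : ℕ × ℕ, i ≤ j → R j p → R i p) ∧
        ∀ p : ℕ × ℕ, (p.2 ∈ ν p.1 ↔ Odd (Nat.card {i : Fin (n + 2) // R i.val p}))) ∧
      REPred (fun p : ℕ × ℕ => ν p.1 = ν p.2)) →
    ∃ μ : ℕ → Set ℕ, Set.range μ = 𝒜 ∧ Function.Injective μ ∧
      (∃ R : ℕ → ℕ × ℕ → Prop, (∀ i, REPred (R i)) ∧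
        (∀ i j : ℕ, ∀ p : ℕ × ℕ, i ≤ j → R j p → R i p) ∧
        ∀ p : ℕ × ℕ, (p.2 ∈ μ p.1 ↔ Odd (Nat.card {i : Fin (n + 2) // R i.val p})))) := by
  intro h
  have h0 : ∃ R : ℕ → ℕ × ℕ → Prop, (∀ i, REPred (R i)) ∧
        (∀ i j : ℕ, ∀ p : ℕ × ℕ, i ≤ j → R j p → R i p) ∧
        ∀ p : ℕ × ℕ, (p.2 ∈ ν p.1 ↔ Odd (Nat.card {i : Fin (0 + 2) // R i.val p})) := by
    refine ⟨fun i p => i = 0 ∧ p.2 ∈ ν p.1, ?_, ?_, ?_⟩
    · intro i
      exact RE.and (const _) mem_re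
    · rintro i j p hij ⟨rfl, h⟩
      exact ⟨by omega, h⟩
    · intro p
      refine Iff.trans ?_ (card_one (fun i => i = 0 ∧ p.2 ∈ ν p.1) (by simp))
      exact ⟨fun h => ⟨rfl, h⟩, fun h => h.2⟩
  obtain ⟨μ, h1, h2, R, h3, h4, h5⟩ := h 0 (Set.range ν) inf ⟨ν, rfl, h0, ker_re⟩
  exact no_inj μ h1 h2 R h3 h4 h5

end Pool.Agent.S14612
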