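import Pool.Statements.S14615
import Pool.Agent.Y786.ISO.Arith
import Pool.Agent.Helper739_ISO.Graph
import Pool.Agent.Helper739_ISO.MHNN
import Pool.Agent.Helper739_ISO.Base
import Pool.Agent.Helper739_ISO.KK
import Pool.Agent.Helper739_ISO.LemA
import Pool.Agent.Helper739_ISO.GModel
import Pool.Agent.Helper739_ISO.AmTor
import Pool.Agent.Helper739_ISO.BgIso
import Pool.Agent.Helper739_ISO.Code
import Pool.Agent.Helper739_ISO.Pres
import Pool.Agent.Helper739_ISO.RE
import Pool.Agent.Helper739_ISO.Tower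
import Pool.Agent.Helper739_ISO.Inv
import Pool.Agent.Helper739_ISO.Final

set_option autoImplicit false
open Pool Pool.MP_3d45c4_lc

namespace Pool.Agent.S14615

open Pool.Agent.Helper739_ISO Pool.Agent.Y817.ISO

theorem stmMHNN2 : StmMHNN2 := MHNN.mhnn Tower.tfhnn

theorem stmK : StmK := KK.kk stmMHNN2 Base.base Base.T_eq

theorem stmTower : StmTower := Tower.tower LemA.lemA LemA.subHNN LemA.square GModel.gmodel

theorem stmInv : StmInv := Pool.Agent.Helper739_ISO.Inv.inv AmTor.amtor BgIso.bgiso

/-- Isomorphism of finitely presented groups, as a relation on codes of finite presentations, is computably enumerable, and every c.e. equivalence relation on ℕ computably reduces to it. -/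
theorem result :
    ∀ E : ℕ × List (List (ℕ × Bool)) → ℕ × List (List (ℕ × Bool)) → Prop,
      (∀ a b, E a b ↔ Nonempty
        (PresentedGroup {g : FreeGroup (Fin a.1) | ∃ w ∈ a.2, g = FreeGroup.mk
            (w.filterMap (fun q => if h : q.1 < a.1 then some ((⟨q.1, h⟩ : Fin a.1), q.2) else none))}
          ≃* PresentedGroup {g : FreeGroup (Fin b.1) | ∃ w ∈ b.2, g = FreeGroup.mk
            (w.filterMap (fun q => if h : q.1 < b.1 then some ((⟨q.1, h⟩ : Fin b.1), q.2) else none))})) →
      REPred (fun p : (ℕ × List (List (ℕ × Bool))) × (ℕ × List (List (ℕ × Bool))) => E p.1 p.2) ∧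
      ∀ R : ℕ → ℕ → Prop, Equivalence R → REPred (fun p : ℕ × ℕ => R p.1 p.2) →
        ∃ f : ℕ → ℕ × List (List (ℕ × Bool)), Computable f ∧ ∀ x y, R x y ↔ E (f x) (f y) := by
  intro E hE
  refine ⟨REPred.of_eq RE.re (fun p => (hE p.1 p.2).symm), ?_⟩
  intro R hR hre
  obtain ⟨f, hf, h⟩ := Final.main Pool.Agent.Y786.ISO.t Graph.graph stmK stmTower AmTor.amup stmInv
    Code.code Pres.pres R hR hre
  exact ⟨f, hf, fun x y => (h x y).trans (hE (f x) (f y)).symm⟩

end Pool.Agent.S14615
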