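import Pool.Statements.S14642
import Pool.Agent.Helper701_Marks.Final
-- import your own Pool.Agent.* helpers here

set_option autoImplicit false
open Pool Pool.MP_43c499_lc

namespace Pool.Agent.S14642

/-- The negation of the preceding statement: For Δ≥3, take any Δ-regular acyclic Borel graph on a standard Borel space with no smooth Borel superequivalence of its connectedness on whose classes it is Borel Δ-colourable. Then Marks' Schreier graph on the free part of the shift of Γ_Δ on 2^Γ_Δ Borel-homomorphs into it. -/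
theorem result :
    ¬ (∀ (Δ : ℕ), 3 ≤ Δ →
  ∀ (X : Type) [MeasurableSpace X] [StandardBorelSpace X] (G : SimpleGraph X),
    MeasurableSet {p : X × X | G.Adj p.1 p.2} →
    (∀ x, (G.neighborSet x).encard = (Δ : ℕ∞)) →
    G.IsAcyclic →
    (¬ ∃ E : X → X → Prop, Equivalence E ∧ (∀ x y, G.Reachable x y → E x y) ∧
        (∃ f : X → ℝ, Measurable f ∧ ∀ x y, E x y ↔ f x = f y) ∧
        ∀ x₀ : X, ∃ c : X → Fin Δ, Measurable c ∧
          ∀ x y, E x₀ x → E x₀ y → G.Adj x y → c x ≠ c y) →
    ∃ φ : (Monoid.CoprodI (fun _ : Fin Δ => Multiplicative (ZMod 2)) → Bool) → X,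
      Measurable φ ∧
      ∀ x y : Monoid.CoprodI (fun _ : Fin Δ => Multiplicative (ZMod 2)) → Bool,
        (∀ γ : Monoid.CoprodI (fun _ : Fin Δ => Multiplicative (ZMod 2)),
            γ ≠ 1 → (fun δ => x (γ⁻¹ * δ)) ≠ x) →
        (∃ i : Fin Δ, y = fun δ =>
            x ((Monoid.CoprodI.of (i := i) (Multiplicative.ofAdd (1 : ZMod 2)) :
                Monoid.CoprodI (fun _ : Fin Δ => Multiplicative (ZMod 2)))⁻¹ * δ)) →
        G.Adj (φ x) (φ y)) := by
  intro h
  have : StandardBorelSpace Pool.Agent.Helper701.Marks.XS :=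
    Pool.Agent.Helper701.Marks.measurableSet_XS.standardBorel
  exact Pool.Agent.Helper701.Marks.nohom (h 3 le_rfl Pool.Agent.Helper701.Marks.XS Pool.Agent.Helper701.Marks.GX
    Pool.Agent.Helper701.Marks.GX_meas Pool.Agent.Helper701.Marks.GX_reg Pool.Agent.Helper701.Marks.GX_acyclic
    Pool.Agent.Helper701.Marks.hyp)

end Pool.Agent.S14642
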