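import Pool.Statements.S14714
import Pool.Agent.Helper835_LTC.Final
-- import your own Pool.Agent.* helpers here

set_option autoImplicit false
open Pool Pool.MP_55663b_lc

namespace Pool.Agent.S14714

/-- The negation of the preceding statement: Suppose binary linear codes of infinitely many lengths n have rate ≥ r>0 and relative distance ≥ δ>0. Suppose also the uniform test on nonzero dual words of weight ≤3 rejects every word δ/3-far from the code with probability ≥ s>0. Then the number of such dual words grows faster than any linear func -/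
theorem result :
    ¬ (∀ (S : Set ℕ), S.Infinite →
  ∀ (C : ∀ n : ℕ, Submodule (ZMod 2) (Fin n → ZMod 2)) (r δ s : ℝ),
    0 < r → 0 < δ → 0 < s →
    (∀ n ∈ S, r * (n : ℝ) ≤ (Module.finrank (ZMod 2) (C n) : ℝ)) →
    (∀ n ∈ S, ∀ c ∈ C n, c ≠ 0 → δ * (n : ℝ) ≤ (hammingNorm c : ℝ)) →
    (∀ n ∈ S, ∀ w : Fin n → ZMod 2,
      (∀ c ∈ C n, δ / 3 * (n : ℝ) ≤ (hammingDist w c : ℝ)) →
      s ≤ ({u : Fin n → ZMod 2 | (∀ c ∈ C n, ∑ i, u i * c i = 0) ∧
              0 < hammingNorm u ∧ hammingNorm u ≤ 3 ∧ ∑ i, u i * w i ≠ 0}.ncard : ℝ) /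
          ({u : Fin n → ZMod 2 | (∀ c ∈ C n, ∑ i, u i * c i = 0) ∧
              0 < hammingNorm u ∧ hammingNorm u ≤ 3}.ncard : ℝ)) →
    ∀ M : ℝ, ∃ N : ℕ, ∀ n ∈ S, N ≤ n →
      M * (n : ℝ) ≤ ({u : Fin n → ZMod 2 | (∀ c ∈ C n, ∑ i, u i * c i = 0) ∧
              0 < hammingNorm u ∧ hammingNorm u ≤ 3}.ncard : ℝ)) :=
  Pool.Agent.Helper835_LTC.final

end Pool.Agent.S14714
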