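import Pool.Statements.S14895
-- import your own Pool.Agent.* helpers here

set_option autoImplicit false
open Pool Pool.MP_735cdd_lc

namespace Pool.Agent.S14895

abbrev Lg : FirstOrder.Language := FirstOrder.Language.mk (fun _ => Unit) (fun _ => Empty)

section grp
variable {G : Type} [Group G]

/-- iterated value `x_i (x_{i+1} (... (x_{i+k-1} y²)² ...)²)²`, with `k` factors -/
def val (x : ℕ → G) (y : G) : ℕ → ℕ → G
  | _, 0 => y
  | i, k + 1 => x i * (val x y (i + 1) k * val x y (i + 1) k)

theorem val_self (x : ℕ → G) (a : ℕ → G) (ha : ∀ i, a i = x i * (x (i + 1) * x (i + 1))⁻¹) (k : ℕ) :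
    ∀ i, val a (x (i + k)) i k = x i := by
  induction k with
  | zero => intro i; rfl
  | succ k ih =>
    intro i
    have h := ih (i + 1)
    rw [show i + 1 + k = i + (k + 1) by ring] at h
    simp only [val]
    rw [h, ha]
    group

/-- the elementary automorphisms -/
theorem step (X : Set G) (hcl : Subgroup.closure X = ⊤)
    (hfree : ∀ f : X → G, ∃ φ : G →* G, ∀ x : X, φ x = f x) (e : ℕ → X)
    (he : Function.Injective e) (i : ℕ) :
    ∃ τ : G ≃* G, τ (e i) = (e i : G) * ((e (i + 1) : G) * (e (i + 1) : G))⁻¹ ∧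
      ∀ z : X, z ≠ e i → τ z = z := by
  classical
  obtain ⟨φ, hφ⟩ := hfree (fun z => if z = e i then
    (e i : G) * ((e (i + 1) : G) * (e (i + 1) : G))⁻¹ else z)
  obtain ⟨ψ, hψ⟩ := hfree (fun z => if z = e i then
    (e i : G) * ((e (i + 1) : G) * (e (i + 1) : G)) else z)
  have hne : e (i + 1) ≠ e i := fun h => by have := he h; omega
  have φi : φ (e i) = (e i : G) * ((e (i + 1) : G) * (e (i + 1) : G))⁻¹ := by rw [hφ]; simp
  have ψi : ψ (e i) = (e i : G) * ((e (i + 1) : G) * (e (i + 1) : G)) := by rw [hψ]; simp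
  have φn : ∀ z : X, z ≠ e i → φ z = z := fun z hz => by rw [hφ]; simp [hz]
  have ψn : ∀ z : X, z ≠ e i → ψ z = z := fun z hz => by rw [hψ]; simp [hz]
  have h1 : ψ.comp φ = MonoidHom.id G := by
    apply MonoidHom.eq_of_eqOn_dense hcl
    intro z hz
    by_cases h : (⟨z, hz⟩ : X) = e i
    · have : z = e i := congrArg Subtype.val h
      subst this
      simp only [MonoidHom.comp_apply, φi, map_mul, map_inv, ψi, ψn _ hne, MonoidHom.id_apply]
      group
    · have e1 := φn ⟨z, hz⟩ h
      have e2 := ψn ⟨z, hz⟩ h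
      simp only at e1 e2
      simp only [MonoidHom.comp_apply, e1, e2, MonoidHom.id_apply]
  have h2 : φ.comp ψ = MonoidHom.id G := by
    apply MonoidHom.eq_of_eqOn_dense hcl
    intro z hz
    by_cases h : (⟨z, hz⟩ : X) = e i
    · have : z = e i := congrArg Subtype.val h
      subst this
      simp only [MonoidHom.comp_apply, φi, map_mul, ψi, φn _ hne, MonoidHom.id_apply]
      group
    · have e1 := φn ⟨z, hz⟩ h
      have e2 := ψn ⟨z, hz⟩ h
      simp only at e1 e2
      simp only [MonoidHom.comp_apply, e1, e2, MonoidHom.id_apply]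
  exact ⟨φ.toMulEquiv ψ h1 h2, φi, φn⟩

theorem autos (X : Set G) (hcl : Subgroup.closure X = ⊤)
    (hfree : ∀ f : X → G, ∃ φ : G →* G, ∀ x : X, φ x = f x) (e : ℕ → X)
    (he : Function.Injective e) (n : ℕ) :
    ∃ τ : G ≃* G, (∀ i, i < n → τ (e i) = (e i : G) * ((e (i + 1) : G) * (e (i + 1) : G))⁻¹) ∧
      ∀ i, n ≤ i → τ (e i) = e i := by
  induction n with
  | zero => exact ⟨MulEquiv.refl G, by simp, by simp⟩
  | succ n ih =>
    obtain ⟨α, h1, h2⟩ := ih
    obtain ⟨τ, t1, t2⟩ := step X hcl hfree e he n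
    refine ⟨τ.trans α, ?_, ?_⟩
    · intro i hi
      rcases Nat.lt_succ_iff_lt_or_eq.1 hi with h | h
      · have hne : e i ≠ e n := fun h' => by have := he h'; omega
        rw [MulEquiv.trans_apply, t2 _ hne, h1 i h]
      · subst h
        rw [MulEquiv.trans_apply, t1, map_mul, map_inv, map_mul, h2 i le_rfl, h2 (i + 1) (by omega)]
    · intro i hi
      have hne : e i ≠ e n := fun h' => by have := he h'; omega
      rw [MulEquiv.trans_apply, t2 _ hne, h2 i (by omega)]

end grp

section lang
variable {G : Type} [Group G] [S : Lg.Structure G]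

theorem realize_equiv
    (hS : ∀ (n : ℕ) (f : Lg.Functions n) (xs : Fin n → G),
      FirstOrder.Language.Structure.funMap f xs = (List.ofFn xs).prod)
    (τ : G ≃* G) (φ : Lg.Formula ℕ) (v : ℕ → G) : φ.Realize (τ ∘ v) ↔ φ.Realize v := by
  let g : Lg.Equiv G G :=
    { toEquiv := τ.toEquiv
      map_fun' := by
        intro n f xs
        show τ (FirstOrder.Language.Structure.funMap f xs) = _
        rw [hS, hS, map_list_prod, List.map_ofFn]
        rfl
      map_rel' := by
        intro n r
        exact r.elim }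
  exact FirstOrder.Language.StrongHomClass.realize_formula g φ

open FirstOrder FirstOrder.Language in
/-- the terms -/
def tm : ℕ → ℕ → Lg.Term ((Unit ⊕ ℕ) ⊕ Fin 1)
  | _, 0 => Term.var (Sum.inr 0)
  | i, k + 1 => Term.func (l := 3) (() : Unit)
      ![Term.var (Sum.inl (Sum.inr i)), tm (i + 1) k, tm (i + 1) k]

theorem realize_tm
    (hS : ∀ (n : ℕ) (f : Lg.Functions n) (xs : Fin n → G),
      FirstOrder.Language.Structure.funMap f xs = (List.ofFn xs).prod)
    (c : G) (v : ℕ → G) (w : Fin 1 → G) (k : ℕ) :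
    ∀ i, (tm i k).realize (Sum.elim (Sum.elim (fun _ => c) v) w) = val v (w 0) i k := by
  induction k with
  | zero => intro i; rfl
  | succ k ih =>
    intro i
    rw [tm, FirstOrder.Language.Term.realize_func, hS, val]
    simp [List.ofFn_succ, ih]

open FirstOrder FirstOrder.Language in
/-- the formulas -/
def fm (k : ℕ) : Lg.Formula (Unit ⊕ ℕ) :=
  BoundedFormula.ex (Term.bdEqual (Term.var (Sum.inl (Sum.inl ()))) (tm 0 k))

theorem realize_fm
    (hS : ∀ (n : ℕ) (f : Lg.Functions n) (xs : Fin n → G),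
      FirstOrder.Language.Structure.funMap f xs = (List.ofFn xs).prod)
    (c : G) (v : ℕ → G) (k : ℕ) :
    (fm k).Realize (Sum.elim (fun _ => c) v) ↔ ∃ y, c = val v y 0 k := by
  rw [fm, FirstOrder.Language.Formula.Realize, FirstOrder.Language.BoundedFormula.realize_ex]
  apply exists_congr
  intro y
  rw [FirstOrder.Language.BoundedFormula.realize_bdEqual, realize_tm hS]
  simp [Fin.snoc]

end lang

theorem val_retract {G : Type} [Group G] (ρ : G →* G) (x : ℕ → G) (y : G) (z : G) (m : ℤ)
    (hy : ρ y = z ^ m) (k : ℕ) (n : ℕ) (hz : ρ (x n) = z) (h1 : ∀ i, i < n → ρ (x i) = 1) :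
    ∀ i, i + k = n → ρ (val x y i (k + 1)) = z ^ ((2 ^ k : ℤ) * (1 + 2 * m)) := by
  induction k with
  | zero =>
    intro i hi
    have : i = n := by omega
    subst this
    simp only [val, map_mul, hz, hy]
    rw [← zpow_add, ← zpow_one_add]
    congr 1
    ring
  | succ k ih =>
    intro i hi
    have h := ih (i + 1) (by omega)
    rw [val, map_mul, h1 i (by omega), one_mul, map_mul, h, ← zpow_add]
    congr 1
    ring

/-- Every torsion-free group that is free in its own variety on an infinite basis fails ℵ1-homogeneity: some countable tuples a, b share a type, yet some element c has no d making (c,a) and (d,b) share a type. -/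
theorem result :
  ∀ (G : Type) [Group G],
    (∀ g : G, ∀ n : ℕ, 0 < n → g ^ n = 1 → g = 1) →
    (∃ X : Set G, X.Infinite ∧ Subgroup.closure X = ⊤ ∧
      ∀ f : X → G, ∃ φ : G →* G, ∀ x : X, φ x = f x) →
    ∀ [S : (FirstOrder.Language.mk (fun _ => Unit) (fun _ => Empty)).Structure G],
      (∀ (n : ℕ) (f : (FirstOrder.Language.mk (fun _ => Unit) (fun _ => Empty)).Functions n)
          (xs : Fin n → G),
        FirstOrder.Language.Structure.funMap f xs = (List.ofFn xs).prod) →
      ¬ ∀ a b : ℕ → G,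
        (∀ φ : (FirstOrder.Language.mk (fun _ => Unit) (fun _ => Empty)).Formula ℕ,
          φ.Realize a ↔ φ.Realize b) →
        ∀ c : G, ∃ d : G,
          ∀ ψ : (FirstOrder.Language.mk (fun _ => Unit) (fun _ => Empty)).Formula (Unit ⊕ ℕ),
            ψ.Realize (Sum.elim (fun _ => c) a) ↔ ψ.Realize (Sum.elim (fun _ => d) b) := by
  classical
  intro G _ htf hX S hS hAll
  obtain ⟨X, hinf, hcl, hfree⟩ := hX
  have : Infinite X := hinf.to_subtype
  let e : ℕ → X := Infinite.natEmbedding X
  have he : Function.Injective e := (Infinite.natEmbedding X).injective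
  let x : ℕ → G := fun i => e i
  let a : ℕ → G := fun i => x i * (x (i + 1) * x (i + 1))⁻¹
  -- the types agree
  have htype : ∀ φ : Lg.Formula ℕ, φ.Realize a ↔ φ.Realize x := by
    intro φ
    obtain ⟨n, hn⟩ : ∃ n, ∀ i ∈ φ.freeVarFinset, i < n :=
      ⟨φ.freeVarFinset.sup id + 1, fun i hi => Nat.lt_succ_of_le (Finset.le_sup (f := id) hi)⟩
    obtain ⟨τ, t1, -⟩ := autos X hcl hfree e he n
    rw [← realize_equiv hS τ φ x]
    have key : ∀ v v' : ℕ → G, (∀ i ∈ φ.freeVarFinset, v i = v' i) →
        (φ.Realize v ↔ φ.Realize v') := by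
      intro v v' h
      rw [FirstOrder.Language.Formula.Realize, FirstOrder.Language.Formula.Realize,
        ← FirstOrder.Language.BoundedFormula.realize_restrictFreeVar (f := id)
          (v := fun i : φ.freeVarFinset => v i) v (fun _ => rfl),
        ← FirstOrder.Language.BoundedFormula.realize_restrictFreeVar (f := id)
          (v := fun i : φ.freeVarFinset => v i) v' (fun i => h _ i.2)]
    apply key
    intro i hi
    exact (t1 i (hn i hi)).symm
  obtain ⟨d, hd⟩ := hAll a x htype (x 0)
  -- retractions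
  have hρ : ∀ n, ∃ ρ : G →* G, ρ (e n) = e n ∧ ∀ z : X, z ≠ e n → ρ z = 1 := by
    intro n
    obtain ⟨ρ, hρ⟩ := hfree (fun z => if z = e n then (e n : G) else 1)
    refine ⟨ρ, by rw [hρ]; simp, fun z hz => by rw [hρ]; simp [hz]⟩
  choose ρ hρ1 hρ2 using hρ
  have hfin : ∀ g : G, ∃ N, ∀ n, N ≤ n → ρ n g = 1 := by
    intro g
    have hg : g ∈ Subgroup.closure X := by rw [hcl]; trivial
    induction hg using Subgroup.closure_induction with
    | mem z hz =>
      by_cases h : ∃ j, e j = ⟨z, hz⟩
      · obtain ⟨j, hj⟩ := h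
        refine ⟨j + 1, fun n hn => ?_⟩
        apply hρ2 n ⟨z, hz⟩
        intro h'
        rw [← hj] at h'
        have := he h'
        omega
      · refine ⟨0, fun n _ => ?_⟩
        apply hρ2 n ⟨z, hz⟩
        intro h'
        exact h ⟨n, h'.symm⟩
    | one => exact ⟨0, fun n _ => map_one _⟩
    | mul g g' _ _ h h' =>
      obtain ⟨N, hN⟩ := h
      obtain ⟨N', hN'⟩ := h'
      refine ⟨max N N', fun n hn => ?_⟩
      rw [map_mul, hN n (le_trans (le_max_left _ _) hn), hN' n (le_trans (le_max_right _ _) hn),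
        one_mul]
    | inv g _ h =>
      obtain ⟨N, hN⟩ := h
      exact ⟨N, fun n hn => by rw [map_inv, hN n hn, inv_one]⟩
  obtain ⟨N, hN⟩ := hfin d
  -- the formula with parameters up to N
  have h1 : (fm (N + 1)).Realize (Sum.elim (fun _ => x 0) a) := by
    rw [realize_fm hS]
    exact ⟨x (0 + (N + 1)), (val_self x a (fun _ => rfl) (N + 1) 0).symm⟩
  obtain ⟨y, hy⟩ := (realize_fm hS d x (N + 1)).1 ((hd _).1 h1)
  have hyz : ρ N y ∈ Subgroup.zpowers (x N) := by
    have : Subgroup.closure X ≤ (Subgroup.zpowers (x N)).comap (ρ N) := by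
      rw [Subgroup.closure_le]
      intro z hz
      show ρ N z ∈ Subgroup.zpowers (x N)
      by_cases h : (⟨z, hz⟩ : X) = e N
      · have h2 : z = e N := congrArg Subtype.val h
        rw [h2, hρ1 N]
        exact Subgroup.mem_zpowers _
      · rw [show ρ N z = 1 from hρ2 N ⟨z, hz⟩ h]
        exact one_mem _
    rw [hcl] at this
    exact this (Subgroup.mem_top y)
  obtain ⟨m, hm⟩ := Subgroup.mem_zpowers_iff.1 hyz
  have h2 := val_retract (ρ N) x y (x N) m hm.symm N N (hρ1 N)
    (fun i hi => hρ2 N (e i) (fun h => by have := he h; omega)) 0 (by omega)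
  rw [← hy, hN N le_rfl] at h2
  -- x N ≠ 1
  have hne : x N ≠ 1 := by
    intro h
    obtain ⟨z, hz⟩ : ∃ z ∈ X, z ≠ 1 := by
      by_contra hcon
      push Not at hcon
      exact hinf ((Set.finite_singleton (1 : G)).subset (fun z hz => hcon z hz))
    obtain ⟨φ, hφ⟩ := hfree (fun _ => z)
    have := hφ (e N)
    rw [show (e N : G) = 1 from h, map_one] at this
    exact hz.2 this.symm
  have hk : ((2 ^ N : ℤ) * (1 + 2 * m)) ≠ 0 := by
    apply mul_ne_zero (by positivity)
    omega
  apply hne
  apply htf (x N) ((2 ^ N : ℤ) * (1 + 2 * m)).natAbs (Int.natAbs_pos.2 hk)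
  rcases Int.natAbs_eq ((2 ^ N : ℤ) * (1 + 2 * m)) with h | h
  · rw [h] at h2
    rw [zpow_natCast] at h2
    exact h2.symm
  · rw [h] at h2
    rw [zpow_neg, zpow_natCast] at h2
    exact inv_eq_one.1 h2.symm

end Pool.Agent.S14895
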