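import Pool.Statements.S15144
import Pool.Agent.Helper645.Intal.Final

set_option autoImplicit false
open Pool Pool.MP_a2ec29_lc

namespace Pool.Agent.S15144

/-- The negation of the preceding statement: Take any computable infinite linear order L and computable Boolean algebra B isomorphic to the algebra of finite unions of half-open intervals of L. Then some computable copy of L makes B computably isomorphic to that copy's interval algebra. -/
theorem result :
    ¬ (∀ (β : Type) [LinearOrder β] (l : ℕ ≃ β),
      ComputablePred (fun p : ℕ × ℕ => l p.1 ≤ l p.2) →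
      ∀ (α : Type) [BooleanAlgebra α] (e : ℕ ≃ α),
        Computable₂ (fun m n : ℕ => e.symm (e m ⊔ e n)) →
        Computable₂ (fun m n : ℕ => e.symm (e m ⊓ e n)) →
        Computable (fun n : ℕ => e.symm (e n)ᶜ) →
        (∃ φ : α → Set β, Function.Injective φ ∧
            (∀ a b, φ (a ⊔ b) = φ a ∪ φ b) ∧
            (∀ a, φ aᶜ = (φ a)ᶜ) ∧
            Set.range φ = {X : Set β | ∃ S : Finset β, ∃ b : Bool,
              X = {x : β | Xor' (b = true) (Odd (S.filter (fun s => s ≤ x)).card)}}) →
        ∃ l' : ℕ ≃ β, ComputablePred (fun p : ℕ × ℕ => l' p.1 ≤ l' p.2) ∧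
          ∃ ψ : α → Set β, Function.Injective ψ ∧
            (∀ a b, ψ (a ⊔ b) = ψ a ∪ ψ b) ∧
            (∀ a, ψ aᶜ = (ψ a)ᶜ) ∧
            Set.range ψ = {X : Set β | ∃ S : Finset β, ∃ b : Bool,
              X = {x : β | Xor' (b = true) (Odd (S.filter (fun s => s ≤ x)).card)}} ∧
            ∃ c : ℕ → List ℕ × Bool, Computable c ∧
              ∀ n : ℕ, ψ (e n) = {x : β | Xor' ((c n).2 = true)
                (Odd ((c n).1.filter (fun s => decide (l' s ≤ x))).length)}) := by
  intro H
  obtain ⟨l', -, ψ, hinj, hsup, -, hrange, c, hc, hcode⟩ := H ℕ (Equiv.refl ℕ)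
    (PrimrecPred.computablePred Primrec.nat_le) Pool.Agent.Helper645.Intal.FC
    Pool.Agent.Helper645.Intal.ee Pool.Agent.Helper645.Intal.comp_sup
    Pool.Agent.Helper645.Intal.comp_inf Pool.Agent.Helper645.Intal.comp_compl
    ⟨fun X => (X : Set ℕ), Subtype.val_injective, fun _ _ => rfl, fun _ => rfl, by
      have h1 : Set.range (fun X : Pool.Agent.Helper645.Intal.FC => (X : Set ℕ)) =
          Pool.Agent.Helper645.Intal.RR := by
        ext X
        rw [Pool.Agent.Helper645.Intal.mem_RR_iff]
        constructor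
        · rintro ⟨Y, rfl⟩
          exact Y.2
        · intro h
          exact ⟨⟨X, h⟩, rfl⟩
      exact h1⟩
  exact Pool.Agent.Helper645.Intal.no_iso l' ψ hinj hsup hrange c hc hcode

end Pool.Agent.S15144
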