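import Pool.Statements.S15295
import Pool.Agent.Helper611.UF.All

set_option autoImplicit false
open Pool Pool.MP_bd6b97_lc

namespace Pool.Agent.S15295

/-- Every 3-regular graph with Borel adjacency on a standard Borel space has a Borel 2-colouring where each vertex has at most as many same-coloured neighbours as differently coloured ones. -/
theorem result :
  ∀ (V : Type) [MeasurableSpace V] [StandardBorelSpace V] (G : SimpleGraph V),
    MeasurableSet {p : V × V | G.Adj p.1 p.2} →
    (∀ v : V, (G.neighborSet v).ncard = 3) →
    ∃ c : V → Bool, Measurable c ∧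
      ∀ v : V, {w : V | G.Adj v w ∧ c w = c v}.ncard ≤ {w : V | G.Adj v w ∧ c w ≠ c v}.ncard := by
  exact Pool.Agent.Helper611.UF.all

end Pool.Agent.S15295
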