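import Pool.Statements.S15635
import Pool.Agent.Helper596_Q.Final

set_option autoImplicit false
open FirstOrder FirstOrder.Language
open Pool Pool.MP_f9507c_lc

namespace Pool.Agent.S15635

/-- Every countable ultrahomogeneous structure in a finite relational language with an omega-stable theory has only finitely many reducts, where reducts are counted as families of zero-definable relations up to having the same definable sets. -/
theorem result :
    ∀ (L : FirstOrder.Language.{0, 0}) [L.IsRelational] [Finite (Σ n, L.Relations n)]
      (M : Type) [Countable M] [L.Structure M],
      L.IsUltrahomogeneous M →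
      (∀ (N : Type) [L.Structure N], N ⊨ L.completeTheory M →
        ∀ A : Set N, A.Countable →
          Countable (FirstOrder.Language.Theory.CompleteType
            ((L.withConstants ↥A).completeTheory N) (Fin 1))) →
      Set.Finite {D : (n : ℕ) → Set (Set (Fin n → M)) |
        ∃ F : (n : ℕ) → Set (Set (Fin n → M)),
          (∀ n, F n ⊆ {s : Set (Fin n → M) | Set.Definable (∅ : Set M) L s}) ∧
          ∃ S : (FirstOrder.Language.mk (fun _ => Empty) (fun k => ↥(F k))).Structure M,
            (∀ (k : ℕ) (r : ↥(F k)) (x : Fin k → M),
                @FirstOrder.Language.Structure.RelMap
                  (FirstOrder.Language.mk (fun _ => Empty) (fun k => ↥(F k))) M S k r x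
                  ↔ x ∈ r.1) ∧
            ∀ n, D n = {s : Set (Fin n → M) |
              @Set.Definable M (∅ : Set M)
                (FirstOrder.Language.mk (fun _ => Empty) (fun k => ↥(F k))) S (Fin n) s}} := by
  intro L _ _ M _ _ hU hst
  exact Pool.Agent.Helper596_Q.main L M hU
    (hst M FirstOrder.Language.model_completeTheory Set.univ (Set.to_countable _))

end Pool.Agent.S15635
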