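import Pool.Statements.S15828
import Pool.Agent.Feynman.Path
import Pool.Agent.Feynman.Inst

set_option autoImplicit false
open Pool Pool.MP_f387d3_mp

namespace Pool.Agent.S15828

open Pool.Agent.Feynman in
lemma norm_path (n : ℕ) (y : ℤ) :
    ‖∑ s ∈ Finset.univ.filter
              (fun s : Fin (n+1) → Bool =>
                s 0 = true ∧ ∑ i, (if s i then (1:ℤ) else -1) = y),
            (-Complex.I) ^ ((Finset.univ.filter
              (fun i : Fin n => s i.castSucc ≠ s i.succ)).card)‖ ^ 2 = (Pz n y : ℝ) := by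
  rw [path_sum, Complex.sq_norm, Complex.normSq_apply]
  unfold Pz
  simp
  ring

/-- The negation of the preceding statement: In the basic Feynman checkers model, with P(x,t) the squared norm of the checker-path amplitude at time t=n+1, there is a constant C such that every maximiser x of P(·,t) is within C of t/√2, for all t. -/
theorem result :
    ¬ (∃ C : ℝ, ∀ n : ℕ, ∀ x : ℤ,
      (∀ y : ℤ,
        (2:ℝ) ^ (-(n:ℤ)) *
          ‖∑ s ∈ Finset.univ.filter
              (fun s : Fin (n+1) → Bool =>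
                s 0 = true ∧ ∑ i, (if s i then (1:ℤ) else -1) = y),
            (-Complex.I) ^ ((Finset.univ.filter
              (fun i : Fin n => s i.castSucc ≠ s i.succ)).card)‖ ^ 2
        ≤
        (2:ℝ) ^ (-(n:ℤ)) *
          ‖∑ s ∈ Finset.univ.filter
              (fun s : Fin (n+1) → Bool =>
                s 0 = true ∧ ∑ i, (if s i then (1:ℤ) else -1) = x),
            (-Complex.I) ^ ((Finset.univ.filter
              (fun i : Fin n => s i.castSucc ≠ s i.succ)).card)‖ ^ 2) →
      |(x:ℝ) - ((n:ℝ) + 1) / Real.sqrt 2| ≤ C) := by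
  rintro ⟨C, hC⟩
  obtain ⟨k, hk⟩ := exists_nat_gt (max C 1)
  have hkC : C < k := lt_of_le_of_lt (le_max_left _ _) hk
  have hk1 : 1 ≤ k := by
    have : (1:ℝ) < k := lt_of_le_of_lt (le_max_right _ _) hk
    exact_mod_cast this.le
  obtain ⟨q, x0, x, hx, hq1, hall, hfar⟩ := Pool.Agent.Feynman.far k hk1
  have h := hC (2*q) x (by
    intro y
    apply mul_le_mul_of_nonneg_left _ (by positivity)
    rw [norm_path, norm_path]
    exact_mod_cast hall y)
  have hxR : (x0:ℝ)^2 = 2*q^2+1 := by exact_mod_cast hx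
  have hqR : (1:ℝ) ≤ q := by exact_mod_cast hq1
  have hs : 0 < Real.sqrt 2 := Real.sqrt_pos.mpr (by norm_num)
  have hs2 : Real.sqrt 2 ^ 2 = 2 := Real.sq_sqrt (by norm_num)
  have h1 : (x0:ℝ) ≤ (((2*q:ℕ):ℝ) + 1) / Real.sqrt 2 := by
    rw [le_div_iff₀ hs]
    refine (pow_le_pow_iff_left₀ (by positivity) (by positivity) (two_ne_zero)).mp ?_
    rw [mul_pow, hs2, hxR]
    push_cast
    nlinarith
  have h2 : (x:ℝ) + 2*k ≤ x0 := by exact_mod_cast hfar
  have h3 := neg_abs_le ((x:ℝ) - (((2*q:ℕ):ℝ) + 1) / Real.sqrt 2)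
  have hk0 : (0:ℝ) ≤ k := Nat.cast_nonneg k
  linarith

end Pool.Agent.S15828
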