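import Pool.Statements.S16733

/-!
The double Lambert series `Y(q) = ∑ (-q)^(2mn+m) / ((1 - q^(2m-1)) (1 + q^n))` of Andrews, Dixit,
Schultz and Yee is odd.

Proof. Expanding both geometric series, `Y(q) = ∑ χ(A) (-1)^B q^((J A + I B + 1)/2)`, the sum over
`J, A` odd, `I` even, `B ≥ 1`, `I < J`, with `χ(A) = (-1)^((A-1)/2)`. Keep the exponents that are even,
that is `J A + I B = 3 mod 4`, and write `N(B parity, condition)` for the sum of `χ(A) q^(..)`.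
(1) `(J, A, I, B) ↦ (J - I, A, I, A + B)` gives `N(B odd, I < J) = N(B even, A < B)`.
(2) For `B` even, `J A = 3 mod 4`, so swapping `(J, A, I, B) ↦ (A, J, B, I)` changes the sign of the
weight: `N(B even, A < B) = - N(B even, J < I)`, and `N(B even, all) = 0`.
Hence `N(B odd, I < J) = - N(B even, J < I) = N(B even, I < J)`, which is the claim.

Coordinates used below: `J = 2j+1`, `A = 2a+1`, `I = 2(i+1)`, `B = b+1`.
-/

set_option autoImplicit false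
open Pool Pool.MP_44e698_nt

namespace Pool.Agent.S16733

/-- The exponent. With `J = 2j+1`, `A = 2a+1`, `I = 2(i+1)`, `B = b+1` it is `(J*A + I*B + 1)/2`. -/
def ex (j a i b : ℕ) : ℕ := 2 * j * a + j + a + 1 + (i + 1) * (b + 1)

/-- The even part (in `q`) of the signed monomial attached to a quadruple. -/
noncomputable def F (q : ℂ) (j a i b : ℕ) : ℂ :=
  (-1) ^ a * (q ^ (ex j a i b) + (-q) ^ (ex j a i b))

lemma F_swap (q : ℂ) (j a i c : ℕ) : F q j a i (2 * c + 1) = - F q a j c (2 * i + 1) := by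
  have hE : ex a j c (2 * i + 1) = ex j a i (2 * c + 1) := by
    unfold ex; ring
  unfold F
  rw [hE]
  rcases Nat.even_or_odd (ex j a i (2 * c + 1)) with h | h
  · -- even exponent
    rw [h.neg_pow]
    have hja : Odd (j + a) := by
      have h2 : ex j a i (2 * c + 1) = 2 * (j * a + (i + 1) * (c + 1)) + (j + a + 1) := by
        unfold ex; ring
      rw [h2] at h
      have h3 : Even (j + a + 1) := by
        rcases h with ⟨t, ht⟩
        exact ⟨t - (j * a + (i + 1) * (c + 1)), by omega⟩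
      rcases h3 with ⟨t, ht⟩
      exact ⟨t - 1, by omega⟩
    have hs : ((-1 : ℂ)) ^ a = - (-1) ^ j := by
      rcases Nat.even_or_odd j with hj | hj
      · have ha : Odd a := by
          rcases hj with ⟨u, hu⟩
          rcases hja with ⟨v, hv⟩
          exact ⟨v - u, by omega⟩
        rw [hj.neg_one_pow, ha.neg_one_pow]
      · have ha : Even a := by
          rcases hj with ⟨u, hu⟩
          rcases hja with ⟨v, hv⟩
          exact ⟨v - u, by omega⟩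
        rw [hj.neg_one_pow, ha.neg_one_pow]; ring
    rw [hs]; ring
  · rw [h.neg_pow]; ring

lemma F_shift (q : ℂ) (k a i c : ℕ) : F q (i + 1 + k) a i (2 * c) = F q k a i (2 * (a + c) + 1) := by
  unfold F
  have : ex (i + 1 + k) a i (2 * c) = ex k a i (2 * (a + c) + 1) := by
    unfold ex; ring
  rw [this]

lemma norm_F_le (q : ℂ) (hq : ‖q‖ < 1) (j a i b : ℕ) :
    ‖F q j a i b‖ ≤ 2 * (‖q‖ ^ j * ‖q‖ ^ a * (‖q‖ ^ i * ‖q‖ ^ b)) := by
  unfold F
  rw [norm_mul, norm_pow, norm_neg, norm_one, one_pow, one_mul]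
  have h1 : ‖q ^ ex j a i b + (-q) ^ ex j a i b‖ ≤ 2 * ‖q‖ ^ ex j a i b := by
    refine (norm_add_le _ _).trans ?_
    rw [norm_pow, norm_pow, norm_neg]; linarith
  refine h1.trans ?_
  have h2 : ‖q‖ ^ ex j a i b ≤ ‖q‖ ^ (j + a + (i + b)) := by
    apply pow_le_pow_of_le_one (norm_nonneg _) hq.le
    unfold ex; nlinarith [Nat.zero_le (j * a), Nat.zero_le (i * b)]
  rw [pow_add, pow_add, pow_add] at h2
  linarith

/-- Comparison family. -/
lemma summable_cmp (r : ℝ) (h0 : 0 ≤ r) (h1 : r < 1) :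
    Summable (fun x : (ℕ × ℕ) × (ℕ × ℕ) => 2 * (r ^ x.1.1 * r ^ x.1.2 * (r ^ x.2.1 * r ^ x.2.2))) := by
  have g := summable_geometric_of_lt_one h0 h1
  have g2 : Summable (fun x : ℕ × ℕ => r ^ x.1 * r ^ x.2) :=
    g.mul_of_nonneg g (fun n => pow_nonneg h0 n) (fun n => pow_nonneg h0 n)
  have g4 : Summable (fun x : (ℕ × ℕ) × (ℕ × ℕ) => (r ^ x.1.1 * r ^ x.1.2) * (r ^ x.2.1 * r ^ x.2.2)) :=
    g2.mul_of_nonneg g2 (fun n => by positivity) (fun n => by positivity)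
  exact g4.mul_left 2


/-- Any family on `ℕ⁴` dominated by the comparison family is summable. -/
lemma summable_of_le {q : ℂ} (hq : ‖q‖ < 1) (f : (ℕ × ℕ) × (ℕ × ℕ) → ℂ)
    (h : ∀ x, ‖f x‖ ≤ 2 * (‖q‖ ^ x.1.1 * ‖q‖ ^ x.1.2 * (‖q‖ ^ x.2.1 * ‖q‖ ^ x.2.2))) :
    Summable f :=
  Summable.of_norm_bounded (summable_cmp ‖q‖ (norm_nonneg _) hq) h

/-- The splitting of pairs `(j, i)` into `j ≤ i` and `i < j`. -/
def split : (ℕ × ℕ) ⊕ (ℕ × ℕ) ≃ ℕ × ℕ where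
  toFun x := match x with
    | Sum.inl (j, k) => (j, j + k)
    | Sum.inr (k, i) => (i + 1 + k, i)
  invFun x := if x.1 ≤ x.2 then Sum.inl (x.1, x.2 - x.1) else Sum.inr (x.1 - x.2 - 1, x.2)
  left_inv x := by
    rcases x with ⟨j, k⟩ | ⟨k, i⟩
    · simp
    · have : ¬ (i + 1 + k ≤ i) := by omega
      simp only [this, if_false]
      have : i + 1 + k - i - 1 = k := by omega
      rw [this]
  right_inv x := by
    rcases x with ⟨j, i⟩
    by_cases h : j ≤ i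
    · simp only [h, if_true]
      have : j + (i - j) = i := by omega
      simp [this]
    · simp only [h, if_false]
      have : i + 1 + (j - i - 1) = j := by omega
      simp [this]

/-- Splitting of `ℕ⁴` by the comparison of the first two coordinates. -/
def splitQ : ((ℕ × ℕ) × (ℕ × ℕ)) ⊕ ((ℕ × ℕ) × (ℕ × ℕ)) ≃ (ℕ × ℕ) × (ℕ × ℕ) :=
  (Equiv.sumProdDistrib _ _ _).symm.trans (Equiv.prodCongr split (Equiv.refl _))

lemma splitQ_inl (j k a c : ℕ) : splitQ (Sum.inl ((j, k), (a, c))) = ((j, j + k), (a, c)) := rfl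

lemma splitQ_inr (k i a c : ℕ) : splitQ (Sum.inr ((k, i), (a, c))) = ((i + 1 + k, i), (a, c)) := rfl

/-- Splitting of `ℕ⁴` by the parity of the last coordinate. -/
def parityQ : ((ℕ × ℕ) × (ℕ × ℕ)) ⊕ ((ℕ × ℕ) × (ℕ × ℕ)) ≃ (ℕ × ℕ) × (ℕ × ℕ) where
  toFun x := match x with
    | Sum.inl (u, (a, c)) => (u, (a, 2 * c))
    | Sum.inr (u, (a, c)) => (u, (a, 2 * c + 1))
  invFun x := if x.2.2 % 2 = 0 then Sum.inl (x.1, (x.2.1, x.2.2 / 2))
    else Sum.inr (x.1, (x.2.1, x.2.2 / 2))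
  left_inv x := by
    rcases x with ⟨u, a, c⟩ | ⟨u, a, c⟩
    · have h1 : (2 * c) % 2 = 0 := by omega
      have h2 : (2 * c) / 2 = c := by omega
      simp only [h1, if_true, h2]
    · have h1 : ¬ ((2 * c + 1) % 2 = 0) := by omega
      have h2 : (2 * c + 1) / 2 = c := by omega
      simp only [h1, if_false, h2]
  right_inv x := by
    rcases x with ⟨u, a, c⟩
    by_cases h : c % 2 = 0
    · simp only [h, if_true]
      have : 2 * (c / 2) = c := by omega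
      simp [this]
    · simp only [h, if_false]
      have : 2 * (c / 2) + 1 = c := by omega
      simp [this]

lemma parityQ_inl (u : ℕ × ℕ) (a c : ℕ) : parityQ (Sum.inl (u, (a, c))) = (u, (a, 2 * c)) := rfl

lemma parityQ_inr (u : ℕ × ℕ) (a c : ℕ) : parityQ (Sum.inr (u, (a, c))) = (u, (a, 2 * c + 1)) := rfl

lemma tsum_via {α β γ : Type*} (e : α ⊕ β ≃ γ) (f : γ → ℂ) (hf : Summable f) :
    ∑' x, f x = (∑' a, f (e (Sum.inl a))) + ∑' b, f (e (Sum.inr b)) := by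
  have h : Summable (fun x => f (e x)) := (Equiv.summable_iff e).2 hf
  rw [← Equiv.tsum_eq e f]
  have h1 : Summable ((fun x => f (e x)) ∘ Sum.inl) := h.comp_injective Sum.inl_injective
  have h2 : Summable ((fun x => f (e x)) ∘ Sum.inr) := h.comp_injective Sum.inr_injective
  exact Summable.tsum_sum h1 h2

section main

variable (q : ℂ)

/-- all quadruples `((j,i),(a,c))`, with `b = 2c+1`. -/
noncomputable def G (x : (ℕ × ℕ) × (ℕ × ℕ)) : ℂ := F q x.1.1 x.2.1 x.1.2 (2 * x.2.2 + 1)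

/-- quadruples with `i < j`, `b` odd. -/
noncomputable def H1 (x : (ℕ × ℕ) × (ℕ × ℕ)) : ℂ :=
  F q (x.1.2 + 1 + x.1.1) x.2.1 x.1.2 (2 * x.2.2 + 1)

/-- quadruples with `i < j`, `b` even. -/
noncomputable def H0 (x : (ℕ × ℕ) × (ℕ × ℕ)) : ℂ :=
  F q (x.1.2 + 1 + x.1.1) x.2.1 x.1.2 (2 * x.2.2)

/-- quadruples with `j ≤ i`, `b` odd. -/
noncomputable def L (x : (ℕ × ℕ) × (ℕ × ℕ)) : ℂ :=
  F q x.1.1 x.2.1 (x.1.1 + x.1.2) (2 * x.2.2 + 1)

/-- the full signed family with `i < j`. -/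
noncomputable def S (x : (ℕ × ℕ) × (ℕ × ℕ)) : ℂ :=
  (-1) ^ (x.2.2 + 1) * F q (x.1.2 + 1 + x.1.1) x.2.1 x.1.2 x.2.2

variable {q}

lemma pow_mono4 (hq : ‖q‖ < 1) {m n : ℕ} (h : m ≤ n) : ‖q‖ ^ n ≤ ‖q‖ ^ m :=
  pow_le_pow_of_le_one (norm_nonneg _) hq.le h

lemma prod4_le (hq : ‖q‖ < 1) {j a i b j' a' i' b' : ℕ} (h1 : j' ≤ j) (h2 : a' ≤ a) (h3 : i' ≤ i)
    (h4 : b' ≤ b) :
    2 * (‖q‖ ^ j * ‖q‖ ^ a * (‖q‖ ^ i * ‖q‖ ^ b)) ≤
      2 * (‖q‖ ^ j' * ‖q‖ ^ a' * (‖q‖ ^ i' * ‖q‖ ^ b')) := by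
  have := pow_mono4 hq h1
  have := pow_mono4 hq h2
  have := pow_mono4 hq h3
  have := pow_mono4 hq h4
  gcongr

lemma summable_G (hq : ‖q‖ < 1) : Summable (G q) := by
  apply summable_of_le hq
  rintro ⟨⟨j, i⟩, ⟨a, c⟩⟩
  refine (norm_F_le q hq _ _ _ _).trans ?_
  refine (prod4_le hq (le_refl j) (le_refl a) (le_refl i) (show c ≤ 2 * c + 1 by omega)).trans ?_
  simp only
  apply le_of_eq; ring

lemma summable_S (hq : ‖q‖ < 1) : Summable (S q) := by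
  apply summable_of_le hq
  rintro ⟨⟨k, i⟩, ⟨a, c⟩⟩
  unfold S
  rw [norm_mul, norm_pow, norm_neg, norm_one, one_pow, one_mul]
  refine (norm_F_le q hq _ _ _ _).trans ?_
  refine (prod4_le hq (show k ≤ i + 1 + k by omega) (le_refl a) (le_refl i) (le_refl c)).trans ?_
  simp only
  apply le_of_eq; ring

lemma tsum_G_zero : ∑' x, G q x = 0 := by
  have h : ∑' x, G q x = ∑' x, G q (Equiv.prodComm _ _ x) :=
    (Equiv.tsum_eq (Equiv.prodComm (ℕ × ℕ) (ℕ × ℕ)) (G q)).symm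
  have h2 : ∀ x, G q (Equiv.prodComm _ _ x) = - G q x := by
    rintro ⟨⟨j, i⟩, ⟨a, c⟩⟩
    show F q a j c (2 * i + 1) = - F q j a i (2 * c + 1)
    rw [F_swap q a j c i]
  simp_rw [h2] at h
  rw [tsum_neg] at h
  have : (2 : ℂ) * ∑' x, G q x = 0 := by linear_combination h
  simpa using this

lemma L_add_H1 (hq : ‖q‖ < 1) : ∑' x, L q x + ∑' x, H1 q x = 0 := by
  have h := tsum_via splitQ (G q) (summable_G hq)
  rw [tsum_G_zero] at h
  exact h.symm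

lemma H0_eq : ∑' x, H0 q x = - ∑' x, L q x := by
  have h : ∑' x, L q x = ∑' x, L q (Equiv.prodComm _ _ x) :=
    (Equiv.tsum_eq (Equiv.prodComm (ℕ × ℕ) (ℕ × ℕ)) (L q)).symm
  rw [h, ← tsum_neg]
  congr 1
  funext x
  rcases x with ⟨⟨k, i⟩, ⟨a, c⟩⟩
  show F q (i + 1 + k) a i (2 * c) = - F q a k (a + c) (2 * i + 1)
  rw [F_shift, F_swap]

lemma tsum_S_zero (hq : ‖q‖ < 1) : ∑' x, S q x = 0 := by
  have h := tsum_via parityQ (S q) (summable_S hq)
  have h0 : ∀ x, S q (parityQ (Sum.inl x)) = - H0 q x := by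
    rintro ⟨⟨k, i⟩, ⟨a, c⟩⟩
    show (-1) ^ (2 * c + 1) * F q (i + 1 + k) a i (2 * c) = - F q (i + 1 + k) a i (2 * c)
    rw [Odd.neg_one_pow ⟨c, rfl⟩]; ring
  have h1 : ∀ x, S q (parityQ (Sum.inr x)) = H1 q x := by
    rintro ⟨⟨k, i⟩, ⟨a, c⟩⟩
    show (-1) ^ (2 * c + 1 + 1) * F q (i + 1 + k) a i (2 * c + 1) = F q (i + 1 + k) a i (2 * c + 1)
    rw [Even.neg_one_pow ⟨c + 1, by ring⟩]; ring
  simp_rw [h0, h1] at h
  rw [tsum_neg, H0_eq, neg_neg, L_add_H1 hq] at h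
  exact h

end main

section expand

/-- The expansion of the original double series, indexed by `((a,i),(k,l))`. -/
noncomputable def T (q : ℂ) (x : (ℕ × ℕ) × (ℕ × ℕ)) : ℂ :=
  (-1) ^ (x.1.1 + 1 + x.2.2) * q ^ (ex (x.1.2 + 1 + x.2.1) x.1.1 x.1.2 x.2.2)

lemma summable_T {q : ℂ} (hq : ‖q‖ < 1) : Summable (T q) := by
  apply summable_of_le hq
  rintro ⟨⟨a, i⟩, ⟨k, l⟩⟩
  unfold T
  rw [norm_mul, norm_pow, norm_neg, norm_one, one_pow, one_mul, norm_pow]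
  simp only
  have h2 : ‖q‖ ^ ex (i + 1 + k) a i l ≤ ‖q‖ ^ (a + i + (k + l)) := by
    apply pow_le_pow_of_le_one (norm_nonneg _) hq.le
    unfold ex; nlinarith [Nat.zero_le ((i + 1 + k) * a), Nat.zero_le (i * l)]
  rw [pow_add, pow_add, pow_add] at h2
  have : 0 ≤ ‖q‖ ^ a * ‖q‖ ^ i * (‖q‖ ^ k * ‖q‖ ^ l) := by positivity
  linarith

lemma hasSum_inner {q : ℂ} (hq : ‖q‖ < 1) (a i : ℕ) :
    ∑' y : ℕ × ℕ, T q ((a, i), y) =
      (-q) ^ (2 * (a + 1) * (i + 1) + (a + 1)) / ((1 + q ^ (i + 1)) * (1 - q ^ (2 * a + 1))) := by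
  have n1 : ‖q ^ (2 * a + 1)‖ < 1 := by
    rw [norm_pow]; exact pow_lt_one₀ (norm_nonneg _) hq (by omega)
  have n2 : ‖-q ^ (i + 1)‖ < 1 := by
    rw [norm_neg, norm_pow]; exact pow_lt_one₀ (norm_nonneg _) hq (by omega)
  have s1 : Summable (fun k : ℕ => ‖(q ^ (2 * a + 1)) ^ k‖) := by
    simp_rw [norm_pow _ (_ : ℕ)]
    have := summable_geometric_of_lt_one (norm_nonneg (q ^ (2 * a + 1))) n1
    rwa [norm_pow] at this
  have s2 : Summable (fun l : ℕ => ‖(-q ^ (i + 1)) ^ l‖) := by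
    have := summable_geometric_of_lt_one (norm_nonneg (-q ^ (i + 1))) n2
    simpa [norm_pow] using this
  have e1 := tsum_geometric_of_norm_lt_one n1
  have e2 := tsum_geometric_of_norm_lt_one n2
  have key := tsum_mul_tsum_of_summable_norm s1 s2
  rw [e1, e2] at key
  have hterm : ∀ y : ℕ × ℕ, T q ((a, i), y) =
      (-q) ^ (2 * (a + 1) * (i + 1) + (a + 1)) * ((q ^ (2 * a + 1)) ^ y.1 * (-q ^ (i + 1)) ^ y.2) := by
    rintro ⟨k, l⟩
    unfold T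
    simp only
    have he : ex (i + 1 + k) a i l =
        2 * (a + 1) * (i + 1) + (a + 1) + (2 * a + 1) * k + (i + 1) * l := by
      unfold ex; ring
    rw [he]
    have hs : (-q) ^ (2 * (a + 1) * (i + 1) + (a + 1)) =
        (-1) ^ (a + 1) * q ^ (2 * (a + 1) * (i + 1) + (a + 1)) := by
      rw [neg_pow, pow_add (-1 : ℂ), mul_assoc 2, pow_mul (-1 : ℂ) 2]
      norm_num
    have hs2 : (-q ^ (i + 1)) ^ l = (-1) ^ l * q ^ ((i + 1) * l) := by
      rw [neg_pow, ← pow_mul]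
    rw [hs, hs2, ← pow_mul, pow_add (-1 : ℂ), pow_add q (2 * (a + 1) * (i + 1) + (a + 1) + (2 * a + 1) * k),
      pow_add q (2 * (a + 1) * (i + 1) + (a + 1)) ((2 * a + 1) * k)]
    ring
  simp_rw [hterm]
  rw [tsum_mul_left, ← key, div_eq_mul_inv, mul_inv, sub_neg_eq_add]
  ring

lemma tsum_T {q : ℂ} (hq : ‖q‖ < 1) :
    ∑' p : ℕ × ℕ, (-q) ^ (2 * (p.1 + 1) * (p.2 + 1) + (p.1 + 1)) /
          ((1 + q ^ (p.2 + 1)) * (1 - q ^ (2 * p.1 + 1))) = ∑' x, T q x := by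
  rw [(summable_T hq).tsum_prod]
  congr 1
  funext p
  rcases p with ⟨a, i⟩
  exact (hasSum_inner hq a i).symm

/-- Reordering of the index. -/
def reorder : (ℕ × ℕ) × (ℕ × ℕ) ≃ (ℕ × ℕ) × (ℕ × ℕ) where
  toFun x := ((x.2.1, x.1.2), (x.1.1, x.2.2))
  invFun x := ((x.2.1, x.1.2), (x.1.1, x.2.2))
  left_inv _ := rfl
  right_inv _ := rfl

lemma T_add_T (q : ℂ) (x : (ℕ × ℕ) × (ℕ × ℕ)) : T (-q) x + T q x = S q (reorder x) := by
  rcases x with ⟨⟨a, i⟩, ⟨k, l⟩⟩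
  show (-1) ^ (a + 1 + l) * (-q) ^ (ex (i + 1 + k) a i l) + (-1) ^ (a + 1 + l) * q ^ (ex (i + 1 + k) a i l)
    = (-1) ^ (l + 1) * ((-1) ^ a * (q ^ (ex (i + 1 + k) a i l) + (-q) ^ (ex (i + 1 + k) a i l)))
  ring

end expand

/-- For every complex q with ∣q∣<1, let Y(q) be the sum over m,n≥1 of (-q)^(2mn+m)/((1+q^n)(1-q^(2m-1))). Then Y(-q) = -Y(q), i.e. Y is an odd function. -/
theorem result :
    ∀ q : ℂ, ‖q‖ < 1 →
      (∑' p : ℕ × ℕ, (-(-q)) ^ (2 * (p.1 + 1) * (p.2 + 1) + (p.1 + 1)) /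
          ((1 + (-q) ^ (p.2 + 1)) * (1 - (-q) ^ (2 * p.1 + 1))))
        = -(∑' p : ℕ × ℕ, (-q) ^ (2 * (p.1 + 1) * (p.2 + 1) + (p.1 + 1)) /
          ((1 + q ^ (p.2 + 1)) * (1 - q ^ (2 * p.1 + 1)))) := by
  intro q hq
  have hq' : ‖-q‖ < 1 := by rwa [norm_neg]
  rw [tsum_T hq, tsum_T hq', eq_neg_iff_add_eq_zero, ← (summable_T hq').tsum_add (summable_T hq)]
  simp_rw [T_add_T]
  rw [Equiv.tsum_eq reorder (S q)]
  exact tsum_S_zero hq

end Pool.Agent.S16733
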