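import Pool.Statements.S16915
import Pool.Agent.Helper896.MR.Ratio

set_option autoImplicit false
open MeasureTheory
open Pool Pool.MP_4fa6ed_nt

namespace Pool.Agent.S16915

open Finset

/-- If a≥1, gcd(a,b,d)=1, and b=d or a divides bd, then for every measure-preserving action of the positive rationals under multiplication and every positive-measure set A, some ratio (an+b)/(an+d) with n≥1 and both terms positive returns A to itself in positive measure. -/
theorem result :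
    ∀ (a : ℕ) (b d : ℤ), 0 < a →
      (∀ k : ℤ, k ∣ (a : ℤ) → k ∣ b → k ∣ d → IsUnit k) →
      (b = d ∨ (a : ℤ) ∣ b * d) →
      ∀ (X : Type) [MeasurableSpace X] (μ : Measure X) [IsProbabilityMeasure μ]
        (T : ℚ → X → X),
        T 1 = id →
        (∀ q r : ℚ, 0 < q → 0 < r → T (q * r) = T q ∘ T r) →
        (∀ q : ℚ, 0 < q → MeasurePreserving (T q) μ μ) →
        ∀ A : Set X, MeasurableSet A → 0 < μ A →
          ∃ n : ℕ, 0 < n ∧ 0 < (a : ℤ) * n + b ∧ 0 < (a : ℤ) * n + d ∧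
            0 < μ (A ∩ T (((a : ℚ) * n + b) / ((a : ℚ) * n + d)) ⁻¹' A) := by
  classical
  intro a b d ha hu hbd X _ μ _ T hT1 hTmul hTmp A hA hμA
  rcases eq_or_ne b d with hbd' | hne
  · obtain ⟨t, ht, ht2⟩ : ∃ t : ℕ, 0 < t ∧ 0 < (a : ℤ) * t + b := by
      refine ⟨b.natAbs + 1, by omega, ?_⟩
      push_cast
      have h1 : (1 : ℤ) ≤ a := by exact_mod_cast ha
      have h2 : -|b| ≤ b := neg_abs_le b
      have h3 : |b| + 1 ≤ a * (|b| + 1) := by nlinarith [abs_nonneg b]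
      linarith
    refine ⟨t, ht, ht2, by rw [← hbd']; exact ht2, ?_⟩
    rw [← hbd']
    have h4 : (0 : ℚ) < (a : ℚ) * t + b := by exact_mod_cast ht2
    rw [div_self h4.ne', hT1, Set.preimage_id, Set.inter_self]
    exact hμA
  have hdvd : (a : ℤ) ∣ b * d := hbd.resolve_left hne
  -- long chains
  have hpig : ∃ R : ℕ, ∀ x : ℕ → ℤ, (∀ i < R, 0 < x i) → ∃ i j, i < j ∧ j < R ∧
      0 < μ (T (x i : ℚ) ⁻¹' A ∩ T (x j : ℚ) ⁻¹' A) := by
    by_contra hcon
    push Not at hcon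
    obtain ⟨R, hR⟩ : ∃ R : ℕ, 1 < (R : ENNReal) * μ A := by
      have hct : μ A ≠ ⊤ := measure_ne_top μ A
      obtain ⟨R, hR⟩ := ENNReal.exists_nat_gt (r := (μ A)⁻¹) (ENNReal.inv_ne_top.2 hμA.ne')
      refine ⟨R, ?_⟩
      have h1 := ENNReal.mul_lt_mul_left hμA.ne' hct hR
      rw [ENNReal.inv_mul_cancel hμA.ne' hct] at h1
      exact h1
    obtain ⟨x, hx0, hx⟩ := hcon R
    have hd : Set.Pairwise (↑(range R)) (Function.onFun (AEDisjoint μ) (fun i => T (x i : ℚ) ⁻¹' A)) := by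
      intro i hi j hj hij
      rw [mem_coe, mem_range] at hi hj
      rcases lt_or_gt_of_ne hij with h | h
      · exact le_antisymm (hx i j h hj) zero_le
      · have h1 := hx j i h hi
        have h2 : μ (T (x i : ℚ) ⁻¹' A ∩ T (x j : ℚ) ⁻¹' A) ≤ 0 := by
          rw [Set.inter_comm]
          exact h1
        exact le_antisymm h2 zero_le
    have hmp : ∀ i < R, MeasurePreserving (T (x i : ℚ)) μ μ := fun i hi =>
      hTmp _ (by exact_mod_cast hx0 i hi)
    have h1 := measure_biUnion_finset₀ (μ := μ) (s := range R) (f := fun i => T (x i : ℚ) ⁻¹' A) hd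
      (fun i hi => ((hmp i (mem_range.1 hi)).measurable hA).nullMeasurableSet)
    have h2 : (R : ENNReal) * μ A = ∑ i ∈ range R, μ (T (x i : ℚ) ⁻¹' A) := by
      rw [sum_congr rfl (fun i hi => (hmp i (mem_range.1 hi)).measure_preimage hA.nullMeasurableSet), sum_const,
        card_range, nsmul_eq_mul]
    rw [← h1] at h2
    rw [h2] at hR
    exact absurd (hR.trans_le prob_le_one) (lt_irrefl _)
  obtain ⟨R, hR⟩ := hpig
  obtain ⟨x, hx0, hx⟩ := Pool.Agent.Helper896.MR.both (a : ℤ) b d (by exact_mod_cast ha) hne hu hdvd R 1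
  obtain ⟨i, j, hij, hj, hpos⟩ := hR x hx0
  obtain ⟨n, hn, h1, h2, h3⟩ := hx i j hij hj
  refine ⟨n, by omega, h1, h2, ?_⟩
  have hxi : (0 : ℚ) < x i := by exact_mod_cast hx0 i (by omega)
  have hxj : (0 : ℚ) < x j := by exact_mod_cast hx0 j hj
  have hB : (0 : ℚ) < (a : ℚ) * n + b := by exact_mod_cast h1
  have hD : (0 : ℚ) < (a : ℚ) * n + d := by exact_mod_cast h2
  have h4 : (x j : ℚ) * ((a : ℚ) * n + d) = x i * ((a : ℚ) * n + b) := by exact_mod_cast h3
  set ρ : ℚ := ((a : ℚ) * n + b) / ((a : ℚ) * n + d) with hρ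
  have hρ0 : 0 < ρ := div_pos hB hD
  have hxj' : (x j : ℚ) = ρ * x i := by
    rw [hρ]
    field_simp
    linarith
  have hcomp : T (x j : ℚ) = T ρ ∘ T (x i : ℚ) := by
    rw [hxj']
    exact hTmul ρ _ hρ0 hxi
  have hset : T (x i : ℚ) ⁻¹' A ∩ T (x j : ℚ) ⁻¹' A = T (x i : ℚ) ⁻¹' (A ∩ T ρ ⁻¹' A) := by
    rw [hcomp]
    rfl
  rw [hset, (hTmp _ hxi).measure_preimage (hA.inter ((hTmp _ hρ0).measurable hA)).nullMeasurableSet] at hpos
  exact hpos

end Pool.Agent.S16915
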