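import Pool.Statements.S17043
import Pool.Agent.H560_CF.Rat

set_option autoImplicit false
open Pool Pool.MP_590852_nt

namespace Pool.Agent.S17043

/-- Every real x with 0 < x ≤ 1 equals g₁ + g₂, where g₁ and g₂ lie in (0,1) and the continued fraction partial quotients of each (computed via the Gauss map) tend to infinity. -/
theorem result :
    ∀ x : ℝ, 0 < x → x ≤ 1 →
      ∃ g₁ g₂ : ℝ,
        g₁ ∈ Set.Ioo (0 : ℝ) 1 ∧ g₂ ∈ Set.Ioo (0 : ℝ) 1 ∧
        Filter.Tendsto (fun n : ℕ => ⌊1 / ((fun y : ℝ => Int.fract (1 / y))^[n] g₁)⌋)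
          Filter.atTop Filter.atTop ∧
        Filter.Tendsto (fun n : ℕ => ⌊1 / ((fun y : ℝ => Int.fract (1 / y))^[n] g₂)⌋)
          Filter.atTop Filter.atTop ∧
        x = g₁ + g₂ := by
  intro x hx0 hx1
  obtain ⟨g₁, g₂, h1, h2, h3⟩ := Pool.Agent.H560_CF.main x hx0 hx1
  exact ⟨g₁, g₂, h1.1, h2.1, h1.2, h2.2, h3⟩

end Pool.Agent.S17043
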