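import Pool.Statements.S17095
import Pool.Agent.Helper992.Quad7

set_option autoImplicit false
open scoped Classical
open Pool Pool.MP_5c9cd2_nt

namespace Pool.Agent.S17095

/-- For n=2k and Niho exponent d=s(2^k-1)+1 coprime to 2^n-1: if the m-sequence/d-decimation cross-correlation takes exactly 4 values, then s(2^r±1)≡2^r mod 2^k+1 for some r≥1 with v2(r)<v2(k). -/
theorem result :
    ∀ k s : ℕ, 1 ≤ k →
      Nat.Coprime (s * (2 ^ k - 1) + 1) (2 ^ (2 * k) - 1) →
      ∀ (F : Type) [Field F] [Fintype F], Fintype.card F = 2 ^ (2 * k) →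
      ((Finset.univ.filter (fun a : F => a ≠ 0)).image
          (fun a : F =>
            ∑ x : F,
              (if (∑ i ∈ Finset.range (2 * k), (a * x + x ^ (s * (2 ^ k - 1) + 1)) ^ (2 ^ i)) = 0
                then (1 : ℤ) else -1))).card = 4 →
      ∃ r : ℕ, 0 < r ∧ padicValNat 2 r < padicValNat 2 k ∧
        ((s : ℤ) * (2 ^ r + 1) ≡ 2 ^ r [ZMOD (2 ^ k + 1 : ℤ)] ∨
         (s : ℤ) * (2 ^ r - 1) ≡ 2 ^ r [ZMOD (2 ^ k + 1 : ℤ)]) := by
  intro k s hk hd F _ _ hF hW
  exact Pool.Agent.Helper992.main_full hk hF hd hW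

end Pool.Agent.S17095
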