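import Pool.Statements.S17401
import Pool.Agent.H560DS.DS23

set_option autoImplicit false
open MeasureTheory
open Pool Pool.MP_721c84_nt

namespace Pool.Agent.S17401

/-- For every d≥1 and γ in (0,1) there is M>0 such that, for every nonnegative ψ, if the d-dim Lebesgue measures of the sets E_n^d (points of [0,1]^d each coordinate within ψ(n)/n of some a/n, a coprime to n) sum to at least M, their union has measure at least γ. -/
theorem result :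
    ∀ d : ℕ, 1 ≤ d → ∀ γ : ℝ, 0 < γ → γ < 1 →
      ∃ M : ℝ, 0 < M ∧ ∀ ψ : ℕ → ℝ, (∀ n, 0 ≤ ψ n) →
        ENNReal.ofReal M ≤ ∑' n : ℕ, volume
          {x : Fin d → ℝ | ∀ i, x i ∈ Set.Icc (0 : ℝ) 1 ∧
            ∃ a : ℤ, Int.gcd a ((n + 1 : ℕ) : ℤ) = 1 ∧
              |x i - (a : ℝ) / ((n + 1 : ℕ) : ℝ)| < ψ (n + 1) / ((n + 1 : ℕ) : ℝ)} →
        ENNReal.ofReal γ ≤ volume (⋃ n : ℕ,
          {x : Fin d → ℝ | ∀ i, x i ∈ Set.Icc (0 : ℝ) 1 ∧
            ∃ a : ℤ, Int.gcd a ((n + 1 : ℕ) : ℤ) = 1 ∧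
              |x i - (a : ℝ) / ((n + 1 : ℕ) : ℝ)| < ψ (n + 1) / ((n + 1 : ℕ) : ℝ)}) :=
  fun d hd γ h0 h1 => Pool.Agent.H560DS.final d hd γ h0 h1

end Pool.Agent.S17401
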