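import Pool.Statements.S17771
import Mathlib

set_option autoImplicit false
open Pool Pool.MP_91e459_nt

namespace Pool.Agent.S17771

open Finset

/-- sum of `n`-th powers -/
def S (n : ℕ) : ℕ → ℕ
  | 0 => 0
  | (k+1) => S n k + (k+1)^n

theorem S_eq (n k : ℕ) : S n k = ∑ i ∈ Icc 1 k, i^n := by
  induction k with
  | zero => simp [S]
  | succ k ih => rw [Finset.sum_Icc_succ_top (by omega), ← ih]; rfl

theorem partA (n M : ℕ) (hM : 2 ≤ M) (h : 2 * (M-1)^n < M^n) :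
    ∑ i ∈ Icc 1 (M-1), i^n < M^n := by
  have key : ∀ k, 1 ≤ k → k ≤ M - 1 → ∑ i ∈ Icc 1 k, i^n < 2 * k^n := by
    intro k hk
    induction k, hk using Nat.le_induction with
    | base => intro _; simp
    | succ k hk ih =>
      intro hkM
      have ih' := ih (by omega)
      rw [Finset.sum_Icc_succ_top (by omega)]
      have h1 : k * M ≤ (k+1) * (M-1) := by
        obtain ⟨M', rfl⟩ : ∃ M', M = M' + 1 := ⟨M-1, by omega⟩
        simp only [Nat.add_sub_cancel] at *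
        nlinarith
      have h2 : k^n * M^n ≤ (k+1)^n * (M-1)^n := by
        rw [← mul_pow, ← mul_pow]; exact Nat.pow_le_pow_left h1 n
      have hMp : 0 < M^n := pow_pos (by omega) n
      have h3 : 2 * k^n ≤ (k+1)^n := by
        have : (2 * k^n) * M^n ≤ (k+1)^n * M^n := by
          calc (2 * k^n) * M^n = 2 * (k^n * M^n) := by ring
            _ ≤ 2 * ((k+1)^n * (M-1)^n) := by omega
            _ = (k+1)^n * (2 * (M-1)^n) := by ring
            _ ≤ (k+1)^n * M^n := Nat.mul_le_mul_left _ h.le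
        exact Nat.le_of_mul_le_mul_right this hMp
      omega
  have := key (M-1) (by omega) le_rfl
  omega

theorem exp_quad (v : ℝ) (hv : 0 ≤ v) : Real.exp (-v) ≤ 1 - v + v^2/2 := by
  let f : ℝ → ℝ := fun x => 1 - x + x^2/2 - Real.exp (-x)
  have hd : ∀ x, HasDerivAt f (-1 + x + Real.exp (-x)) x := by
    intro x
    have h1 : HasDerivAt (fun x : ℝ => 1 - x + x^2/2) (-1 + x) x := by
      have := ((hasDerivAt_const x (1:ℝ)).sub (hasDerivAt_id x)).add (((hasDerivAt_id x).pow 2).div_const 2)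
      refine (this.congr_deriv ?_)
      simp; 
    have h2 : HasDerivAt (fun x : ℝ => Real.exp (-x)) (-Real.exp (-x)) x := by
      have := (hasDerivAt_neg x).exp
      simpa using this
    have := h1.sub h2
    refine this.congr_deriv ?_
    ring
  have hm : MonotoneOn f (Set.Ici 0) := by
    refine monotoneOn_of_deriv_nonneg (convex_Ici 0) (fun x _ => (hd x).continuousAt.continuousWithinAt)
      (fun x _ => (hd x).differentiableAt.differentiableWithinAt) ?_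
    intro x _
    rw [(hd x).deriv]
    have := Real.add_one_le_exp (-x)
    linarith
  have := hm (Set.mem_Ici.2 le_rfl) (Set.mem_Ici.2 hv) hv
  simp only [f] at this
  norm_num at this
  linarith

theorem exp_cubic (v : ℝ) (hv : 0 ≤ v) : 1 - v + v^2/2 - v^3/6 ≤ Real.exp (-v) := by
  let f : ℝ → ℝ := fun x => Real.exp (-x) - (1 - x + x^2/2 - x^3/6)
  have hd : ∀ x, HasDerivAt f (-Real.exp (-x) + (1 - x + x^2/2)) x := by
    intro x
    have h1 : HasDerivAt (fun x : ℝ => 1 - x + x^2/2 - x^3/6) (-1 + x - x^2/2) x := by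
      have := (((hasDerivAt_const x (1:ℝ)).sub (hasDerivAt_id x)).add (((hasDerivAt_id x).pow 2).div_const 2)).sub
        (((hasDerivAt_id x).pow 3).div_const 6)
      refine (this.congr_deriv ?_)
      simp; ring
    have h2 : HasDerivAt (fun x : ℝ => Real.exp (-x)) (-Real.exp (-x)) x := by
      have := (hasDerivAt_neg x).exp
      simpa using this
    have := h2.sub h1
    refine this.congr_deriv ?_
    ring
  have hm : MonotoneOn f (Set.Ici 0) := by
    refine monotoneOn_of_deriv_nonneg (convex_Ici 0) (fun x _ => (hd x).continuousAt.continuousWithinAt)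
      (fun x _ => (hd x).differentiableAt.differentiableWithinAt) ?_
    intro x hx
    rw [(hd x).deriv]
    rw [interior_Ici] at hx
    have := exp_quad x (le_of_lt hx)
    linarith
  have := hm (Set.mem_Ici.2 le_rfl) (Set.mem_Ici.2 hv) hv
  simp only [f] at this
  norm_num at this
  linarith

theorem neglog_lower (h : ℝ) (h0 : 0 ≤ h) (h1 : h ≤ 1/8) :
    h + h^2/2 + h^3/3 ≤ -Real.log (1 - h) := by
  have hab : |h| < 1 := by rw [abs_of_nonneg h0]; linarith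
  have := Real.abs_log_sub_add_sum_range_le hab 4
  rw [abs_of_nonneg h0] at this
  have h2 := (abs_le.1 this).2
  simp only [Finset.sum_range_succ, Finset.sum_range_zero] at h2
  norm_num at h2
  have h3 : h^5 / (1 - h) ≤ h^4/4 := by
    rw [div_le_iff₀ (by linarith)]
    have : 0 ≤ h^4 := by positivity
    nlinarith
  linarith

theorem neglog_upper (x : ℝ) (h0 : 0 ≤ x) (h1 : x ≤ 1/8) :
    -Real.log (1 - x) ≤ x + x^2/2 + x^3/3 + 11/28 * x^4 := by
  have hab : |x| < 1 := by rw [abs_of_nonneg h0]; linarith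
  have := Real.abs_log_sub_add_sum_range_le hab 4
  rw [abs_of_nonneg h0] at this
  have h2 := (abs_le.1 this).1
  simp only [Finset.sum_range_succ, Finset.sum_range_zero] at h2
  norm_num at h2
  have h3 : x^5 / (1 - x) ≤ x^4/7 := by
    rw [div_le_iff₀ (by linarith)]
    have : 0 ≤ x^4 := by positivity
    nlinarith
  linarith

theorem log_upper (h : ℝ) (h0 : 0 ≤ h) (h1 : h ≤ 1/8) :
    Real.log (1 + h) ≤ h - h^2/2 + h^3/3 + 8/7 * h^4 := by
  have hab : |(-h)| < 1 := by rw [abs_neg, abs_of_nonneg h0]; linarith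
  have := Real.abs_log_sub_add_sum_range_le hab 3
  rw [abs_neg, abs_of_nonneg h0] at this
  have h2 := (abs_le.1 this).2
  simp only [Finset.sum_range_succ, Finset.sum_range_zero] at h2
  norm_num at h2
  have h3 : h^4 / (1 - h) ≤ 8/7 * h^4 := by
    rw [div_le_iff₀ (by linarith)]
    have : 0 ≤ h^4 := by positivity
    nlinarith
  have e : (-h)^3 = -h^3 := by ring
  rw [e] at h2
  linarith


noncomputable def A (k : ℝ) : ℝ := (k^2 - k - 2)/2
noncomputable def B (k : ℝ) : ℝ := (k^3 - k)/3 - (k^2 - k - 2)/4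
noncomputable def C (k : ℝ) : ℝ := k^4/2
noncomputable def Q (l h k : ℝ) : ℝ :=
  1 - l*(h*A k + h^2*B k + h^3*C k) + l^2/2*(h^2*(A k)^2 + 2*h^3*(A k * B k)) - 1/108*h^3*k^6
noncomputable def p1 (k : ℝ) : ℝ := k + 2
noncomputable def p2 (k : ℝ) : ℝ := k^2+4*k+6
noncomputable def p3 (k : ℝ) : ℝ := k^3+6*k^2+18*k+26
noncomputable def p4 (k : ℝ) : ℝ := k^4+8*k^3+36*k^2+104*k+150
noncomputable def p5 (k : ℝ) : ℝ := k^5+10*k^4+60*k^3+260*k^2+750*k+1082
noncomputable def p6 (k : ℝ) : ℝ := k^6+12*k^5+90*k^4+520*k^3+2250*k^2+6492*k+9366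
noncomputable def pA (k : ℝ) : ℝ := (p2 k - p1 k - 2)/2
noncomputable def pB (k : ℝ) : ℝ := (p3 k - p1 k)/3 - (p2 k - p1 k - 2)/4
noncomputable def pC (k : ℝ) : ℝ := p4 k/2
noncomputable def pAA (k : ℝ) : ℝ := (p4 k - 2*p3 k - 3*p2 k + 4*p1 k + 4)/4
noncomputable def pAB (k : ℝ) : ℝ :=
  (p5 k/3 - 7/12*p4 k - p3 k/2 + 13/12*p2 k - p1 k/3 - 1)/2
noncomputable def P (l h k : ℝ) : ℝ :=
  1 - l*(h*pA k + h^2*pB k + h^3*pC k) + l^2/2*(h^2*pAA k + 2*h^3*pAB k) - 1/108*h^3*p6 k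

theorem rec_P (l h k : ℝ) : 2 * P l h k - P l h (k+1) = Q l h (k+1) := by
  unfold P Q pA pB pC pAA pAB p1 p2 p3 p4 p5 p6 A B C
  ring

theorem sumQ (l h : ℝ) (K : ℕ) :
    ∑ k ∈ Icc 2 (K+1), (1/2:ℝ)^(k+1) * Q l h k = P l h 1 / 4 - (1/2:ℝ)^(K+2) * P l h ((K:ℝ)+1) := by
  induction K with
  | zero => simp; ring
  | succ K ih =>
    rw [Finset.sum_Icc_succ_top (by omega), ih]
    have := rec_P l h ((K:ℝ)+1)
    push_cast
    rw [← this]
    ring

theorem A_nonneg (k : ℝ) (hk : 2 ≤ k) : 0 ≤ A k := by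
  unfold A; nlinarith
theorem B_nonneg (k : ℝ) (hk : 2 ≤ k) : 0 ≤ B k := by
  unfold B
  have : 0 ≤ k^2 * (k-2) := by apply mul_nonneg; positivity; linarith
  nlinarith [sq_nonneg k]

/-- the bound on logs -/
theorem log_poly (h k : ℝ) (h0 : 0 ≤ h) (hk : 2 ≤ k) :
    (h - h^2/2 + h^3/3 + 8/7*h^4) + ((k*h) + (k*h)^2/2 + (k*h)^3/3 + 11/28*(k*h)^4)
      ≤ (k + 1 + (h*A k + h^2*B k + h^3*C k)) * (h + h^2/2 + h^3/3) := by
  have hA := A_nonneg k hk
  have hB := B_nonneg k hk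
  have hC : 0 ≤ C k := by unfold C; positivity
  have hk4 : 16 ≤ k^4 := by
    have h2 : 4 ≤ k^2 := by nlinarith
    nlinarith
  have e : (k + 1 + (h*A k + h^2*B k + h^3*C k)) * (h + h^2/2 + h^3/3)
      - ((h - h^2/2 + h^3/3 + 8/7*h^4) + ((k*h) + (k*h)^2/2 + (k*h)^3/3 + 11/28*(k*h)^4))
      = h^4*(A k/3 + B k/2 + (3/28*k^4 - 8/7)) + h^5*(B k/3 + C k/2) + h^6*(C k/3) := by
    unfold A B C; ring
  have : 0 ≤ h^4*(A k/3 + B k/2 + (3/28*k^4 - 8/7)) + h^5*(B k/3 + C k/2) + h^6*(C k/3) := by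
    have h1 : 0 ≤ 3/28*k^4 - 8/7 := by linarith
    positivity
  linarith


theorem V_le (h k : ℝ) (h0 : 0 ≤ h) (hk : 2 ≤ k) (hkh : k*h ≤ 1/8) :
    h*A k + h^2*B k + h^3*C k ≤ 211/384*(h*k^2) := by
  have hX : 0 ≤ h*k^2 := by positivity
  have a1 : h*A k ≤ 1/2*(h*k^2) := by
    have : A k ≤ 1/2*k^2 := by unfold A; nlinarith
    nlinarith
  have a2 : h^2*B k ≤ 1/24*(h*k^2) := by
    have : B k ≤ 1/3*k^3 := by unfold B; nlinarith
    have h1 : h^2*B k ≤ h^2*(1/3*k^3) := mul_le_mul_of_nonneg_left this (by positivity)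
    have h2 : h^2*(1/3*k^3) = 1/3*(k*h)*(h*k^2) := by ring
    have h3 : (k*h)*(h*k^2) ≤ 1/8*(h*k^2) := mul_le_mul_of_nonneg_right hkh hX
    nlinarith
  have a3 : h^3*C k ≤ 1/128*(h*k^2) := by
    have h2 : h^3*C k = 1/2*(k*h)*((k*h)*(h*k^2)) := by unfold C; ring
    have hk0 : 0 ≤ k*h := by positivity
    have h3 : (k*h)*(h*k^2) ≤ 1/8*(h*k^2) := mul_le_mul_of_nonneg_right hkh hX
    have h4 : (k*h)*((k*h)*(h*k^2)) ≤ 1/8*(1/8*(h*k^2)) :=
      mul_le_mul hkh h3 (by positivity) (by norm_num)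
    nlinarith
  linarith

theorem Q_le (l h k : ℝ) (h0 : 0 ≤ h) (hk : 2 ≤ k) (hkh : k*h ≤ 1/8)
    (l0 : 0 ≤ l) (l1 : l ≤ 0.6932) :
    Q l h k ≤ Real.exp (-(l*(h*A k + h^2*B k + h^3*C k))) := by
  have hA := A_nonneg k hk
  have hB := B_nonneg k hk
  have hC : 0 ≤ C k := by unfold C; positivity
  have hV := V_le h k h0 hk hkh
  set V := h*A k + h^2*B k + h^3*C k with hVdef
  have hV0 : 0 ≤ V := by positivity
  have hv0 : 0 ≤ l*V := by positivity
  refine le_trans ?_ (exp_cubic (l*V) hv0)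
  have c1 : l^2/2*(h^2*(A k)^2 + 2*h^3*(A k * B k)) ≤ (l*V)^2/2 := by
    have : h^2*(A k)^2 + 2*h^3*(A k * B k) ≤ V^2 := by
      have e : V^2 - (h^2*(A k)^2 + 2*h^3*(A k * B k))
          = (h^2*B k)^2 + 2*(h*A k)*(h^3*C k) + 2*(h^2*B k)*(h^3*C k) + (h^3*C k)^2 := by
        rw [hVdef]; ring
      have : 0 ≤ (h^2*B k)^2 + 2*(h*A k)*(h^3*C k) + 2*(h^2*B k)*(h^3*C k) + (h^3*C k)^2 := by
        positivity
      linarith
    have h2 : l^2/2*(h^2*(A k)^2 + 2*h^3*(A k * B k)) ≤ l^2/2*V^2 :=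
      mul_le_mul_of_nonneg_left this (by positivity)
    nlinarith
  have c2 : (l*V)^3/6 ≤ 1/108*h^3*k^6 := by
    have hX : 0 ≤ h*k^2 := by positivity
    have h1 : l*V ≤ 0.381*(h*k^2) := by
      calc l*V ≤ 0.6932*(211/384*(h*k^2)) := mul_le_mul l1 hV hV0 (by norm_num)
        _ ≤ 0.381*(h*k^2) := by nlinarith
    have h2 : (l*V)^3 ≤ (0.381*(h*k^2))^3 := pow_le_pow_left₀ hv0 h1 3
    have h3 : (0.381*(h*k^2))^3 = 0.381^3*(h^3*k^6) := by ring
    have h4 : 0 ≤ h^3*k^6 := by positivity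
    rw [h3] at h2
    have h5 : (0.381:ℝ)^3*(h^3*k^6) ≤ 1/18*(h^3*k^6) :=
      mul_le_mul_of_nonneg_right (by norm_num) h4
    nlinarith
  unfold Q
  have : l*(h*A k + h^2*B k + h^3*C k) = l*V := by rw [hVdef]
  rw [this]
  linarith

theorem P_nonpos (l h k : ℝ) (h0 : 0 ≤ h) (hk : 64 ≤ k) (hkh : k*h ≤ 1/8) (hX : 6 ≤ h*k^2)
    (l0 : 0.6931 ≤ l) (l1 : l ≤ 0.6932) : P l h k ≤ 0 := by
  have bA : 1/2*k^2 ≤ pA k := by unfold pA p2 p1; nlinarith
  have bB : 0 ≤ pB k := by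
    unfold pB p3 p2 p1
    have : 0 ≤ k^3 := by positivity
    nlinarith
  have bC : 0 ≤ pC k := by unfold pC p4; positivity
  have k3 : 64*k^3 ≤ k^4 := by
    have : 0 ≤ k^3 := by positivity
    nlinarith
  have k2 : 64*k^2 ≤ k^3 := by
    have : 0 ≤ k^2 := by positivity
    nlinarith
  have k1 : 64*k ≤ k^2 := by nlinarith
  have k4 : 64*k^4 ≤ k^5 := by
    have : 0 ≤ k^4 := by positivity
    nlinarith
  have bAA : pAA k ≤ 11/40*k^4 := by unfold pAA p4 p3 p2 p1; nlinarith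
  have bAB : pAB k ≤ 1/5*k^5 := by unfold pAB p5 p4 p3 p2 p1; nlinarith
  have b6 : k^6 ≤ p6 k := by
    unfold p6
    have : 0 ≤ 12*k^5 + 90*k^4 + 520*k^3 + 2250*k^2 + 6492*k + 9366 := by positivity
    linarith
  set X := h*k^2 with hXdef
  have hl0 : 0 ≤ l := by linarith
  -- upper bounds
  have u1 : h^2*pAA k + 2*h^3*pAB k ≤ 13/40*X^2 := by
    have t1 : h^2*pAA k ≤ h^2*(11/40*k^4) := mul_le_mul_of_nonneg_left bAA (by positivity)
    have t2 : h^3*pAB k ≤ h^3*(1/5*k^5) := mul_le_mul_of_nonneg_left bAB (by positivity)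
    have t3 : h^3*(1/5*k^5) = 1/5*(k*h)*X^2 := by rw [hXdef]; ring
    have t4 : (k*h)*X^2 ≤ 1/8*X^2 := mul_le_mul_of_nonneg_right hkh (by positivity)
    have t5 : h^2*(11/40*k^4) = 11/40*X^2 := by rw [hXdef]; ring
    nlinarith
  have u2 : l^2/2*(h^2*pAA k + 2*h^3*pAB k) ≤ 0.0782*X^2 := by
    have hl2 : l^2 ≤ 0.4806 := by nlinarith
    have : l^2/2*(h^2*pAA k + 2*h^3*pAB k) ≤ l^2/2*(13/40*X^2) :=
      mul_le_mul_of_nonneg_left u1 (by positivity)
    have hx2 : 0 ≤ X^2 := by positivity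
    nlinarith
  have v1 : 0.34655*X ≤ l*(h*pA k + h^2*pB k + h^3*pC k) := by
    have t1 : h*(1/2*k^2) ≤ h*pA k := mul_le_mul_of_nonneg_left bA h0
    have t2 : 0 ≤ h^2*pB k := by positivity
    have t3 : 0 ≤ h^3*pC k := by positivity
    have t4 : 1/2*X ≤ h*pA k + h^2*pB k + h^3*pC k := by
      have : h*(1/2*k^2) = 1/2*X := by rw [hXdef]; ring
      linarith
    calc 0.34655*X = 0.6931*(1/2*X) := by ring
      _ ≤ l*(h*pA k + h^2*pB k + h^3*pC k) := mul_le_mul l0 t4 (by positivity) hl0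
  have v2 : 1/108*X^3 ≤ 1/108*h^3*p6 k := by
    have t1 : h^3*k^6 ≤ h^3*p6 k := mul_le_mul_of_nonneg_left b6 (by positivity)
    have : X^3 = h^3*k^6 := by rw [hXdef]; ring
    nlinarith
  unfold P
  have fin : 1 + 0.0782*X^2 ≤ 0.34655*X + 1/108*X^3 := by
    nlinarith [mul_nonneg (sub_nonneg.2 hX) (sq_nonneg (X-6)), mul_nonneg (sub_nonneg.2 hX) (sub_nonneg.2 hX)]
  linarith

theorem R0_gt (l h : ℝ) (h0 : 0 < h) (h1 : h ≤ 1/512)
    (l0 : 0.6931471803 < l) (l1 : l < 0.6931471808) :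
    1 < 3/4*(1 + (h - h^2/2 - 2*h^3)*l + ((h - h^2/2 - 2*h^3)*l)^2/2) + P l h 1/4 := by
  have e : 3/4*(1 + (h - h^2/2 - 2*h^3)*l + ((h - h^2/2 - 2*h^3)*l)^2/2) + P l h 1/4 - 1
      = h^2*((6*l^2 - 4*l) + h*(-311/8*l + 66*l^2 - 18731/432) + h^2*(-45/32*l^2)
        + h^3*(3/4*l^2) + h^4*(3/2*l^2)) := by
    unfold P pA pB pC pAA pAB p1 p2 p3 p4 p5 p6
    ring
  have hl2 : 0.480453013 < l^2 := by nlinarith
  have hl2' : l^2 < 0.4804530143 := by nlinarith
  have c0 : 0.11 ≤ 6*l^2 - 4*l := by linarith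
  have c1 : -39 ≤ -311/8*l + 66*l^2 - 18731/432 := by linarith
  have d1 : -39/512 ≤ h*(-311/8*l + 66*l^2 - 18731/432) := by nlinarith
  have d2 : -1/512 ≤ h^2*(-45/32*l^2) := by
    have : h^2 ≤ 1/512 := by nlinarith
    nlinarith [sq_nonneg h]
  have d3 : 0 ≤ h^3*(3/4*l^2) := by positivity
  have d4 : 0 ≤ h^4*(3/2*l^2) := by positivity
  have : 0 < h^2*((6*l^2 - 4*l) + h*(-311/8*l + 66*l^2 - 18731/432) + h^2*(-45/32*l^2)
        + h^3*(3/4*l^2) + h^4*(3/2*l^2)) := by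
    apply mul_pos (by positivity)
    linarith
  linarith


/-- common setup: `n * D < log 2` -/
theorem nD_lt (m n : ℕ) (hm : 512 ≤ m) (hn : (1 - 1 / (m : ℝ)) ^ n > 1 / 2) :
    (n:ℝ) * (-Real.log (1 - 1/(m:ℝ))) < Real.log 2 := by
  have hm' : (512:ℝ) ≤ m := by exact_mod_cast hm
  have hh : 1/(m:ℝ) ≤ 1/512 := one_div_le_one_div_of_le (by norm_num) hm'
  have hpos : 0 < 1 - 1/(m:ℝ) := by linarith
  have h1 : Real.log (1/2) < Real.log ((1 - 1/(m:ℝ))^n) := Real.log_lt_log (by norm_num) hn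
  rw [Real.log_pow] at h1
  have h2 : Real.log (1/2) = -Real.log 2 := by rw [one_div, Real.log_inv]
  rw [h2] at h1
  linarith

/-- a general lower bound for one term -/
theorem term_ge (m n k : ℕ) (hm : 512 ≤ m) (hn : (1 - 1 / (m : ℝ)) ^ n > 1 / 2) (hk : k < m)
    (c : ℝ) (hc : 0 ≤ c)
    (hL : Real.log (1 + 1/(m:ℝ)) - Real.log (1 - k*(1/(m:ℝ))) ≤ c * (-Real.log (1 - 1/(m:ℝ)))) :
    Real.exp (-(c * Real.log 2)) ≤ (((m:ℝ) - k)/((m:ℝ)+1))^n := by
  have hm0 : (0:ℝ) < m := by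
    have : (512:ℝ) ≤ m := by exact_mod_cast hm
    linarith
  have hkm : (k:ℝ) < m := by exact_mod_cast hk
  have hnD := nD_lt m n hm hn
  have e1 : ((m:ℝ) - k)/((m:ℝ)+1) = Real.exp (Real.log (1 - k*(1/(m:ℝ))) - Real.log (1 + 1/(m:ℝ))) := by
    rw [Real.exp_sub, Real.exp_log, Real.exp_log]
    · field_simp
    · positivity
    · have : (k:ℝ)*(1/m) < 1 := by rw [mul_one_div, div_lt_one hm0]; exact hkm
      linarith
  rw [e1, ← Real.exp_nat_mul]
  apply Real.exp_le_exp.2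
  have h1 : (n:ℝ) * (Real.log (1 + 1/(m:ℝ)) - Real.log (1 - k*(1/(m:ℝ))))
      ≤ (n:ℝ) * (c * (-Real.log (1 - 1/(m:ℝ)))) := mul_le_mul_of_nonneg_left hL (Nat.cast_nonneg n)
  have h2 : (n:ℝ) * (c * (-Real.log (1 - 1/(m:ℝ)))) = c * ((n:ℝ) * (-Real.log (1 - 1/(m:ℝ)))) := by ring
  have h3 : c * ((n:ℝ) * (-Real.log (1 - 1/(m:ℝ)))) ≤ c * Real.log 2 :=
    mul_le_mul_of_nonneg_left hnD.le hc
  nlinarith

theorem exp_half (j : ℕ) (v : ℝ) :
    Real.exp (-(((j:ℝ) + v) * Real.log 2)) = (1/2:ℝ)^j * Real.exp (-(Real.log 2 * v)) := by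
  have h1 : Real.exp (-Real.log 2) = 1/2 := by
    rw [Real.exp_neg, Real.exp_log (by norm_num)]; norm_num
  have : -(((j:ℝ) + v) * Real.log 2) = (j:ℝ) * (-Real.log 2) + (-(Real.log 2 * v)) := by ring
  rw [this, Real.exp_add, Real.exp_nat_mul, h1]

theorem sum_tail (m n K : ℕ) (hK : K < m) :
    ∑ k ∈ range (K+1), (m - k)^n ≤ ∑ i ∈ Icc 1 m, i^n := by
  have hinj : Set.InjOn (fun k => m - k) (range (K+1)) := by
    intro a ha b hb hab
    simp only [coe_range, Set.mem_Iio] at ha hb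
    simp only at hab
    omega
  rw [← Finset.sum_image (f := fun i => i^n) hinj]
  apply Finset.sum_le_sum_of_subset
  intro i hi
  simp only [mem_image, mem_range] at hi
  obtain ⟨a, ha, rfl⟩ := hi
  simp only [mem_Icc]
  omega

theorem range_split (f : ℕ → ℝ) (K : ℕ) :
    ∑ k ∈ range (K+3), f k = f 0 + f 1 + ∑ k ∈ Icc 2 (K+2), f k := by
  induction K with
  | zero => simp [Finset.sum_range_succ]
  | succ K ih =>
    have e := Finset.sum_Icc_succ_top (a := 2) (b := K+2) (by omega) f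
    have e2 : K + 1 + 2 = K + 2 + 1 := by ring
    rw [e2, e, Finset.sum_range_succ, ih]
    ring

theorem large (m n : ℕ) (hm : 512 ≤ m) (hn : (1 - 1 / (m : ℝ)) ^ n > 1 / 2) :
    (m + 1) ^ n < ∑ i ∈ Icc 1 m, i ^ n := by
  have hm' : (512:ℝ) ≤ m := by exact_mod_cast hm
  have hm0 : (0:ℝ) < m := by linarith
  set h : ℝ := 1/(m:ℝ) with hh
  have h0 : 0 < h := by positivity
  have h1 : h ≤ 1/512 := one_div_le_one_div_of_le (by norm_num) hm'
  set l : ℝ := Real.log 2 with hl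
  have l0 : 0.6931471803 < l := Real.log_two_gt_d9
  have l1 : l < 0.6931471808 := Real.log_two_lt_d9
  obtain ⟨K, hK⟩ : ∃ K, m / 8 = K + 2 := ⟨m/8 - 2, by omega⟩
  have hK8 : 8 * (K+2) ≤ m := by omega
  have hK9 : m < 8 * (K+3) := by omega
  have hK62 : 62 ≤ K := by omega
  have hKr : (8:ℝ) * ((K:ℝ)+2) ≤ m := by exact_mod_cast hK8
  have hKr2 : (m:ℝ) < 8 * ((K:ℝ)+3) := by exact_mod_cast hK9
  have hKr3 : (62:ℝ) ≤ K := by exact_mod_cast hK62
  -- D lower bound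
  have hD := neglog_lower h h0.le (by linarith)
  set D : ℝ := -Real.log (1 - h) with hDdef
  have hlog := log_upper h h0.le (by linarith)
  set s : ℝ := h - h^2/2 - 2*h^3 with hs
  have hs0 : 0 ≤ s := by
    rw [hs]
    have : h^2 ≤ 1/512*h := by nlinarith
    have : h^3 ≤ 1/512*h := by nlinarith [sq_nonneg h]
    linarith
  have hs1 : s ≤ 1 := by
    rw [hs]
    have : 0 ≤ h^2 := by positivity
    have : 0 ≤ h^3 := by positivity
    linarith
  have hL0 : Real.log (1 + h) ≤ (1 - s) * D := by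
    have p : (h - h^2/2 + h^3/3 + 8/7*h^4) ≤ (1 - s) * (h + h^2/2 + h^3/3) := by
      have e : (1 - s) * (h + h^2/2 + h^3/3) - (h - h^2/2 + h^3/3 + 8/7*h^4)
          = h^4*(65/84) + h^5*(7/6) + h^6*(2/3) := by rw [hs]; ring
      have : 0 ≤ h^4*(65/84) + h^5*(7/6) + h^6*(2/3) := by positivity
      linarith
    have q : (1 - s) * (h + h^2/2 + h^3/3) ≤ (1 - s) * D :=
      mul_le_mul_of_nonneg_left hD (by linarith)
    linarith
  have hexp : 1 + s*l + (s*l)^2/2 ≤ Real.exp (s*l) :=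
    Real.quadratic_le_exp_of_nonneg (by positivity)
  -- term 0
  have t0 : 1/2*(1 + s*l + (s*l)^2/2) ≤ (((m:ℝ) - (0:ℕ))/((m:ℝ)+1))^n := by
    have := term_ge m n 0 hm hn (by omega) (1 - s) (by linarith) (by
      rw [← hh, ← hDdef]; simpa using hL0)
    have e := exp_half 1 (-s)
    have e2 : Real.exp (-((1 - s) * Real.log 2)) = 1/2 * Real.exp (s*l) := by
      have : (((1:ℕ):ℝ) + (-s)) = 1 - s := by push_cast; ring
      rw [this] at e
      rw [e]
      congr 1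
      · norm_num
      · congr 1; rw [hl]; ring
    rw [e2] at this
    linarith
  have t1 : 1/4*(1 + s*l + (s*l)^2/2) ≤ (((m:ℝ) - (1:ℕ))/((m:ℝ)+1))^n := by
    have := term_ge m n 1 hm hn (by omega) (2 - s) (by linarith) (by
      rw [← hh, ← hDdef]
      have : Real.log (1 - ((1:ℕ):ℝ)*h) = -D := by rw [hDdef]; simp
      rw [this]
      linarith)
    have e := exp_half 2 (-s)
    have e2 : Real.exp (-((2 - s) * Real.log 2)) = 1/4 * Real.exp (s*l) := by
      have : (((2:ℕ):ℝ) + (-s)) = 2 - s := by push_cast; ring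
      rw [this] at e
      rw [e]
      congr 1
      · norm_num
      · congr 1; rw [hl]; ring
    rw [e2] at this
    linarith
  have tk : ∀ k ∈ Icc 2 (K+2), (1/2:ℝ)^(k+1) * Q l h k ≤ (((m:ℝ) - (k:ℕ))/((m:ℝ)+1))^n := by
    intro k hk
    rw [mem_Icc] at hk
    have hk2 : (2:ℝ) ≤ k := by exact_mod_cast hk.1
    have hkK : (k:ℝ) ≤ K + 2 := by exact_mod_cast hk.2
    have hkh : (k:ℝ)*h ≤ 1/8 := by
      rw [hh, mul_one_div, div_le_iff₀ hm0]; linarith
    have hkh0 : 0 ≤ (k:ℝ)*h := by positivity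
    have hV0 : 0 ≤ h*A k + h^2*B k + h^3*C k := by
      have := A_nonneg k hk2
      have := B_nonneg k hk2
      have : 0 ≤ C (k:ℝ) := by unfold C; positivity
      positivity
    have hc0 : 0 ≤ (k:ℝ) + 1 + (h*A k + h^2*B k + h^3*C k) := by positivity
    have hL : Real.log (1 + h) - Real.log (1 - (k:ℝ)*h)
        ≤ ((k:ℝ) + 1 + (h*A k + h^2*B k + h^3*C k)) * D := by
      have u := neglog_upper ((k:ℝ)*h) hkh0 hkh
      have p := log_poly h k h0.le hk2
      have q : ((k:ℝ) + 1 + (h*A k + h^2*B k + h^3*C k)) * (h + h^2/2 + h^3/3)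
          ≤ ((k:ℝ) + 1 + (h*A k + h^2*B k + h^3*C k)) * D := mul_le_mul_of_nonneg_left hD hc0
      linarith
    have := term_ge m n k hm hn (by omega) _ hc0 hL
    have e := exp_half (k+1) (h*A k + h^2*B k + h^3*C k)
    push_cast at e
    rw [e] at this
    have q := Q_le l h k h0.le hk2 hkh (by linarith) (by linarith)
    have q2 : (1/2:ℝ)^(k+1) * Q l h k
        ≤ (1/2:ℝ)^(k+1) * Real.exp (-(l*(h*A k + h^2*B k + h^3*C k))) :=
      mul_le_mul_of_nonneg_left q (by positivity)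
    exact le_trans q2 this
  have hsum : (1:ℝ) < ∑ k ∈ range (K+3), (((m:ℝ) - (k:ℕ))/((m:ℝ)+1))^n := by
    rw [range_split (fun k => (((m:ℝ) - (k:ℕ))/((m:ℝ)+1))^n) K]
    have s1 : ∑ k ∈ Icc 2 (K+2), (1/2:ℝ)^(k+1) * Q l h k
        ≤ ∑ k ∈ Icc 2 (K+2), (((m:ℝ) - (k:ℕ))/((m:ℝ)+1))^n := Finset.sum_le_sum tk
    have s2 := sumQ l h (K+1)
    have s3 : P l h ((K:ℝ)+2) ≤ 0 := by
      apply P_nonpos l h _ h0.le (by linarith)
      · rw [hh, mul_one_div, div_le_iff₀ hm0]; linarith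
      · rw [hh, one_div, ← div_eq_inv_mul, le_div_iff₀ hm0]
        nlinarith
      · linarith
      · linarith
    have s4 : ((K+1:ℕ):ℝ)+1 = (K:ℝ)+2 := by push_cast; ring
    rw [s4] at s2
    have s5 : (1/2:ℝ)^(K+1+2) * P l h ((K:ℝ)+2) ≤ 0 :=
      mul_nonpos_of_nonneg_of_nonpos (by positivity) s3
    have r := R0_gt l h h0 h1 l0 l1
    rw [← hs] at r
    have s6 : K+1+1 = K+2 := rfl
    rw [s6] at s2
    linarith
  have hcast : ((∑ k ∈ range (K+3), (m - k)^n : ℕ) : ℝ) = ∑ k ∈ range (K+3), ((m:ℝ) - (k:ℕ))^n := by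
    push_cast
    apply Finset.sum_congr rfl
    intro k hk
    rw [mem_range] at hk
    rw [Nat.cast_sub (by omega)]
  have hfin : (((m+1)^n : ℕ):ℝ) < ((∑ k ∈ range (K+3), (m - k)^n : ℕ) : ℝ) := by
    rw [hcast]
    have e : ∑ k ∈ range (K+3), (((m:ℝ) - (k:ℕ))/((m:ℝ)+1))^n
        = (∑ k ∈ range (K+3), ((m:ℝ) - (k:ℕ))^n) / ((m:ℝ)+1)^n := by
      rw [Finset.sum_div]
      apply Finset.sum_congr rfl
      intro k _
      rw [div_pow]
    rw [e, lt_div_iff₀ (by positivity)] at hsum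
    push_cast
    linarith
  have hfin' : (m+1)^n < ∑ k ∈ range (K+3), (m - k)^n := by exact_mod_cast hfin
  exact lt_of_lt_of_le hfin' (sum_tail m n (K+2) (by omega))


/-- the finite check, one value of `m` -/
def ok (m : ℕ) : Bool :=
  (List.range m).all (fun n =>
    Nat.ble (2*(m-1)^n) (m^n) || (Nat.ble ((m-1)^n) (2*(m-2)^n) || Nat.ble ((m+1)^n + 1) (S n m)))

theorem small_check : (List.range 512).all ok = true := by decide +kernel

theorem small (m n : ℕ) (hm : m < 512) (hnm : n < m) (h1 : m^n < 2*(m-1)^n)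
    (h2 : 2*(m-2)^n < (m-1)^n) : (m + 1) ^ n < ∑ i ∈ Icc 1 m, i ^ n := by
  have h := small_check
  rw [List.all_eq_true] at h
  have hm' := h m (List.mem_range.2 hm)
  unfold ok at hm'
  rw [List.all_eq_true] at hm'
  have hn' := hm' n (List.mem_range.2 hnm)
  rw [Bool.or_eq_true, Bool.or_eq_true] at hn'
  rw [← S_eq]
  rcases hn' with h | h | h
  · have := Nat.le_of_ble_eq_true h; omega
  · have := Nat.le_of_ble_eq_true h; omega
  · have := Nat.le_of_ble_eq_true h; omega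


theorem lt_of_pow (m n : ℕ) (hm : 3 ≤ m) (h1 : (1 - 1 / (m : ℝ)) ^ n > 1 / 2) : n < m := by
  by_contra hcon
  push Not at hcon
  have hm0 : (0:ℝ) < m := by
    have : 0 < m := by omega
    exact_mod_cast this
  have hmn : (m:ℝ) ≤ n := by exact_mod_cast hcon
  have hm3 : (3:ℝ) ≤ m := by exact_mod_cast hm
  have hb : 1 - 1/(m:ℝ) ≤ Real.exp (-(1/(m:ℝ))) := by
    have := Real.add_one_le_exp (-(1/(m:ℝ)))
    linarith
  have hb0 : 0 ≤ 1 - 1/(m:ℝ) := by
    have : 1/(m:ℝ) ≤ 1/3 := one_div_le_one_div_of_le (by norm_num) hm3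
    linarith
  have h3 : (1 - 1/(m:ℝ))^n ≤ Real.exp (-(1/(m:ℝ)))^n := pow_le_pow_left₀ hb0 hb n
  rw [← Real.exp_nat_mul] at h3
  have h4 : (n:ℝ) * (-(1/(m:ℝ))) ≤ -1 := by
    have : 1 ≤ (n:ℝ) * (1/(m:ℝ)) := by
      rw [mul_one_div, le_div_iff₀ hm0]; linarith
    linarith
  have h5 : Real.exp ((n:ℝ) * (-(1/(m:ℝ)))) ≤ Real.exp (-1) := Real.exp_le_exp.2 h4
  have h6 : Real.exp (-1) < 1/2 := by
    rw [Real.exp_neg]
    have := Real.exp_one_gt_d9
    rw [inv_lt_comm₀ (Real.exp_pos 1) (by norm_num)]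
    norm_num
    linarith
  linarith

theorem nat_of_real (a n : ℕ) (ha : 2 ≤ a) (x : ℝ) (hx : x = (a:ℝ)) :
    (1 - 1 / x)^n = (((a-1)^n : ℕ):ℝ) / ((a^n : ℕ):ℝ) := by
  have ha0 : (0:ℝ) < a := by
    have : 0 < a := by omega
    exact_mod_cast this
  rw [hx]
  have : 1 - 1/(a:ℝ) = ((a-1 : ℕ):ℝ)/(a:ℝ) := by
    rw [Nat.cast_sub (by omega)]
    field_simp
    push_cast
    ring
  rw [this, div_pow]
  push_cast
  rfl

/-- For all n ≥ 1, m ≥ 2 with (1−1/m)^n > 1/2 and (1−1/(m−1))^n < 1/2: (m−1)^n exceeds 1^n+…+(m−2)^n and (m+1)^n is less than 1^n+…+m^n. -/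
theorem result :
    ∀ m n : ℕ, 1 ≤ n → 2 ≤ m →
      (1 - 1 / (m : ℝ)) ^ n > 1 / 2 →
      (1 - 1 / ((m : ℝ) - 1)) ^ n < 1 / 2 →
      (m - 1) ^ n > ∑ i ∈ Finset.Icc 1 (m - 2), i ^ n ∧
      (m + 1) ^ n < ∑ i ∈ Finset.Icc 1 m, i ^ n := by
  intro m n hn hm h1 h2
  rcases Nat.lt_or_ge m 3 with hm3 | hm3
  · exfalso
    have hm2 : m = 2 := by omega
    subst hm2
    norm_num at h1
    have : (1/2:ℝ)^n ≤ (1/2:ℝ)^1 := pow_le_pow_of_le_one (by norm_num) (by norm_num) hn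
    norm_num at this
    linarith
  · have a1 : m^n < 2*(m-1)^n := by
      rw [nat_of_real m n hm _ rfl] at h1
      have hp : (0:ℝ) < ((m^n : ℕ):ℝ) := by
        have : 0 < m^n := pow_pos (by omega) n
        exact_mod_cast this
      have h1' := (lt_div_iff₀ hp).1 h1
      have : ((m^n : ℕ):ℝ) < ((2*(m-1)^n : ℕ):ℝ) := by push_cast at h1' ⊢; linarith
      exact_mod_cast this
    have a2 : 2*(m-1-1)^n < (m-1)^n := by
      rw [nat_of_real (m-1) n (by omega) _ (by rw [Nat.cast_sub (by omega)]; simp)] at h2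
      have hp : (0:ℝ) < (((m-1)^n : ℕ):ℝ) := by
        have : 0 < (m-1)^n := pow_pos (by omega) n
        exact_mod_cast this
      have h2' := (div_lt_iff₀ hp).1 h2
      have : ((2*(m-1-1)^n : ℕ):ℝ) < (((m-1)^n : ℕ):ℝ) := by push_cast at h2' ⊢; linarith
      exact_mod_cast this
    refine ⟨partA n (m-1) (by omega) a2, ?_⟩
    rcases Nat.lt_or_ge m 512 with hlt | hge
    · exact small m n hlt (lt_of_pow m n hm3 h1) a1 a2
    · exact large m n hge h1

end Pool.Agent.S17771
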