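import Pool.Statements.S17877
import Pool.Agent.Helper146_Weird.Core
import Pool.Agent.Helper146_Weird.Scale
import Pool.Agent.Helper146_Weird.Mass

set_option autoImplicit false
open Pool Pool.MP_9b74c8_nt

namespace Pool.Agent.S17877

/-- There is a real constant C such that every weird number m (abundant, with no subset of its proper divisors summing to m) has sum of divisors divided by m at most C. -/
theorem result :
    ∃ C : ℝ, ∀ m : ℕ, 0 < m →
      m < ∑ i ∈ m.properDivisors, i →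
      (¬ ∃ s ⊆ m.properDivisors, ∑ i ∈ s, i = m) →
      ((∑ i ∈ m.divisors, i : ℕ) : ℝ) / (m : ℝ) ≤ C := by
  refine ⟨Real.exp (2 * ((2:ℝ) ^ 1000 + 2)), ?_⟩
  intro n hn _ hno
  by_contra hcon
  push Not at hcon
  apply hno
  have h1 := Weird.mass n hn
  have h2 : (2:ℝ) ^ 1000 + 2 ≤ ∑ p ∈ n.primeFactors, (1 / (p:ℝ)) := by
    have h3 := Real.exp_lt_exp.1 (lt_of_lt_of_le hcon h1)
    linarith
  obtain ⟨i, hi, Q, hQ, hsum, hB, hR⟩ := Weird.scale n hn h2
  obtain ⟨S, hS, hsS⟩ := Weird.core i hi Q (fun p hp => ⟨(hQ p hp).1, (hQ p hp).2.2⟩) hsum hB hR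
  obtain ⟨P, hP⟩ : ∃ P, P = ∏ p ∈ Q, p := ⟨_, rfl⟩
  rw [← hP] at hS hsS
  have hPn : P ∣ n := by
    rw [hP]
    exact Finset.prod_primes_dvd n (fun p hp => (hQ p hp).1.prime) (fun p hp => (hQ p hp).2.1)
  obtain ⟨k, hk⟩ := hPn
  have hk0 : 0 < k := by
    rcases Nat.eq_zero_or_pos k with h | h
    · rw [h] at hk; omega
    · exact h
  refine ⟨S.image (fun d => d * k), ?_, ?_⟩
  · intro d hd
    obtain ⟨e, he, rfl⟩ := Finset.mem_image.1 hd
    have h4 := Nat.mem_properDivisors.1 (hS he)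
    rw [Nat.mem_properDivisors, hk]
    exact ⟨Nat.mul_dvd_mul_right h4.1 k, Nat.mul_lt_mul_of_pos_right h4.2 hk0⟩
  · rw [Finset.sum_image (fun a _ b _ hab => Nat.eq_of_mul_eq_mul_right hk0 hab),
      ← Finset.sum_mul, hsS, hk]

end Pool.Agent.S17877
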