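import Pool.Statements.S19141
import Pool.Agent.Helper331_ugw.Final

set_option autoImplicit false
open MeasureTheory ProbabilityTheory
open Pool Pool.MP_0c40c8_pr

namespace Pool.Agent.S19141

/-- For a unimodular Galton–Watson tree whose degree law has finite support and no mass at 0 or 1, the compactly supported measure whose k-th moment is the expected number of length-k closed walks at the root has finitely many atoms. -/
theorem result :
  ∀ (P : PMF ℕ), P.support.Finite → P 0 = 0 → P 1 = 0 →
  ∀ (Ω : Type) [MeasureSpace Ω] [IsProbabilityMeasure (volume : Measure Ω)]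
    (N : List ℕ → Ω → ℕ),
    (∀ w, Measurable (N w)) → iIndepFun N (volume : Measure Ω) →
    (∀ k : ℕ, (volume : Measure Ω) {ω | N [] ω = k} = P k) →
    (∀ w : List ℕ, w ≠ [] → ∀ k : ℕ,
      (volume : Measure Ω) {ω | N w ω = k}
        = ((k : ENNReal) + 1) * P (k + 1) / ∑' j : ℕ, (j : ENNReal) * P j) →
    ∀ ν : Measure ℝ, IsProbabilityMeasure ν →
      (∃ R : ℝ, ν (Set.Icc (-R) R)ᶜ = 0) →
      (∀ k : ℕ, ∫ x, x ^ k ∂ν =
        ∫ ω, ((Set.ncard {f : Fin (k + 1) → List ℕ |
            f 0 = [] ∧ f (Fin.last k) = [] ∧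
            (∀ i, ∀ j < (f i).length, (f i).getD j 0 < N ((f i).take j) ω) ∧
            ∀ i : Fin k, (∃ a : ℕ, f i.succ = f i.castSucc ++ [a]) ∨
                         (∃ a : ℕ, f i.castSucc = f i.succ ++ [a])} : ℕ) : ℝ)
          ∂(volume : Measure Ω)) →
      {x : ℝ | ν {x} ≠ 0}.Finite := by
  intro P hP hP0 hP1 Ω _ _ N hN hind hroot hother ν hν hR hmom
  -- the maximal degree
  obtain ⟨D0, hD0⟩ := hP.bddAbove
  set D : ℕ := max D0 2 with hD
  have hDsupp : ∀ k, D < k → P k = 0 := by
    intro k hk
    by_contra hne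
    have : k ≤ D0 := hD0 ((PMF.mem_support_iff P k).2 hne)
    have h2 : D0 ≤ D := le_max_left _ _
    omega
  have hD2 : 2 ≤ D := le_max_right _ _
  -- the mean
  set m : ENNReal := ∑' j : ℕ, (j : ENNReal) * P j with hm
  have hm0 : m ≠ 0 := by
    intro h
    rw [hm, ENNReal.tsum_eq_zero] at h
    have h2 : ∀ k, P k = 0 := by
      intro k
      rcases Nat.eq_zero_or_pos k with rfl | hk
      · exact hP0
      · have := h k
        rw [mul_eq_zero] at this
        rcases this with h3 | h3
        · exfalso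
          have : k = 0 := by exact_mod_cast h3
          omega
        · exact h3
    have h3 := P.tsum_coe
    simp [h2] at h3
  have hmtop : m ≠ ⊤ := by
    rw [hm, tsum_eq_sum (s := Finset.range (D + 1))]
    · apply ENNReal.sum_ne_top.2
      intro k _
      exact ENNReal.mul_ne_top (ENNReal.natCast_ne_top k) (PMF.apply_ne_top P k)
    · intro k hk
      rw [Finset.mem_range, not_lt] at hk
      rw [hDsupp k (by omega), mul_zero]
  -- the laws
  set r : Measure ℕ := (volume : Measure Ω).map (N []) with hr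
  set q : Measure ℕ := (volume : Measure Ω).map (N [0]) with hq
  haveI : IsProbabilityMeasure r := Measure.isProbabilityMeasure_map (hN []).aemeasurable
  haveI : IsProbabilityMeasure q := Measure.isProbabilityMeasure_map (hN [0]).aemeasurable
  have hsing : ∀ (w : List ℕ) (k : ℕ), ((volume : Measure Ω).map (N w)) {k}
      = (volume : Measure Ω) {ω | N w ω = k} := by
    intro w k
    rw [Measure.map_apply (hN w) (measurableSet_singleton k)]
    rfl
  have hrk : ∀ k, r {k} = P k := fun k => by rw [hr, hsing, hroot]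
  have hqk : ∀ k : ℕ, q {k} = ((k : ENNReal) + 1) * P (k + 1) / m := fun k => by
    rw [hq, hsing, hother [0] (by simp)]
  have hlaw : (volume : Measure Ω).map (fun ω w => N w ω) = Helper331_ugw.Law r q := by
    rw [(iIndepFun_iff_map_fun_eq_infinitePi_map hN).1 hind]
    unfold Helper331_ugw.Law
    congr 1
    funext w
    split_ifs with h
    · rw [h]
    · apply Measure.ext_of_singleton
      intro k
      rw [hsing, hother w h, ← hqk]
  have hTm : Measurable (fun (ω : Ω) (w : List ℕ) => N w ω) := measurable_pi_iff.2 hN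
  have hrD : r (Set.Ioi D) = 0 := by
    rw [← Set.biUnion_of_singleton (Set.Ioi D), measure_biUnion_null_iff (Set.to_countable _)]
    intro k hk
    rw [hrk, hDsupp k hk]
  have hqD : q (Set.Ioi D) = 0 := by
    rw [← Set.biUnion_of_singleton (Set.Ioi D), measure_biUnion_null_iff (Set.to_countable _)]
    intro k hk
    have hk' : D < k := hk
    rw [hqk, hDsupp (k + 1) (by omega), mul_zero, ENNReal.zero_div]
  have hq0 : q {0} = 0 := by
    rw [hqk, zero_add, hP1, mul_zero, ENNReal.zero_div]
  have hr2 : r (Set.Iio 2) = 0 := by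
    rw [← Set.biUnion_of_singleton (Set.Iio 2), measure_biUnion_null_iff (Set.to_countable _)]
    intro k hk
    have hk' : k < 2 := hk
    rw [hrk]
    interval_cases k
    · exact hP0
    · exact hP1
  have hrq : ∀ k : ℕ, ((k : ENNReal) + 1) * r {k + 1} = m * q {k} := by
    intro k
    rw [hrk, hqk, ENNReal.mul_div_cancel hm0 hmtop]
  -- the finite exceptional set
  obtain ⟨K, hK⟩ := Helper331_ugw.exists_K r q hD2 hrD hqD hq0 hr2 m hm0 hrq
  refine (Helper331_ugw.smallEig_finite D K).subset ?_
  intro lam hlam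
  by_contra hnot
  apply hlam
  obtain ⟨R, hR⟩ := hR
  set M : ℝ := max ((2 * D + |lam|) ^ 2) ((|R| + |lam|) ^ 2) + 1 with hM
  have hgood : Helper331_ugw.GoodM D lam M := by
    constructor
    · have : 0 ≤ max ((2 * D + |lam|) ^ 2) ((|R| + |lam|) ^ 2) :=
        le_trans (sq_nonneg (2 * D + |lam|)) (le_max_left _ _)
      rw [hM]; linarith
    · have := le_max_left ((2 * D + |lam|) ^ 2) ((|R| + |lam|) ^ 2)
      rw [hM]; linarith
  have hM2 : (|R| + |lam|) ^ 2 ≤ M := by
    have := le_max_right ((2 * D + |lam|) ^ 2) ((|R| + |lam|) ^ 2)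
    rw [hM]; linarith
  have hbdd : ∀ᵐ ω : Ω, Helper331_ugw.Bdd D (fun w => N w ω) := by
    have h1 := Helper331_ugw.ae_Bdd (D := D) hrD hqD
    rw [← hlaw] at h1
    exact ae_of_ae_map hTm.aemeasurable h1
  have hmom2 : ∀ k : ℕ, ∫ x, x ^ k ∂ν
      = ∫ t, ((Helper331_ugw.AT D t ^ k) (Helper331_ugw.dl [])) [] ∂(Helper331_ugw.Law r q) := by
    intro k
    rw [hmom k, ← hlaw, integral_map hTm.aemeasurable
      (Helper331_ugw.measurable_AT_pow D k []).aestronglyMeasurable]
    apply integral_congr_ae
    filter_upwards [hbdd] with ω hω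
    exact Helper331_ugw.ncard_eq hω k []
  have h1 := Helper331_ugw.mass_bound r q ν R hR hmom2 lam M hgood hM2
  rw [hK lam hnot M hgood] at h1
  exact le_antisymm h1 bot_le

end Pool.Agent.S19141
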